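import Pool.Agent.V9h68.Pl10
import Pool.Agent.K3h90.ET.AEA

/-!
General linear forms are in hereditary general position.
-/

set_option autoImplicit false

open MvPolynomial Set Filter

noncomputable section

namespace Pool.Agent.V9h68

open Pool.Agent.Y776 Pool.Agent.Y685
open Pool.Agent.TH813.Rel (MK mem_cl subset_cl rk_le_of_subset_cl cl_add cl_mul cl_inv cl_of_base)

/-- the real and imaginary parts of the coefficients -/
def RI {n d : ℕ} (c : Fin n → Fin d → ℂ) : (Fin n × Fin d) ⊕ (Fin n × Fin d) → ℝ :=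
  Sum.elim (fun p : Fin n × Fin d => (c p.1 p.2).re) (fun p : Fin n × Fin d => (c p.1 p.2).im)

theorem mem_I {S : Set ℂ} : Complex.I ∈ clF ℚ S := by
  apply clF_alg'
  refine ⟨Polynomial.X ^ 2 + 1, ?_, ?_⟩
  · intro h
    have h1 := congrArg (Polynomial.eval 0) h
    simp at h1
  · simp

theorem conj_mem {S : Set ℂ} (hS : ∀ s ∈ S, starRingEnd ℂ s = s) {z : ℂ} (hz : z ∈ clF ℚ S) :
    starRingEnd ℂ z ∈ clF ℚ S := by
  refine cl_rat_hom (θ := starRingEnd ℂ) ?_ hz
  intro s hs
  rw [hS s hs]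
  exact subset_cl _ hs

theorem re_mem {S : Set ℂ} (hS : ∀ s ∈ S, starRingEnd ℂ s = s) {z : ℂ} (hz : z ∈ clF ℚ S) :
    (z.re : ℂ) ∈ clF ℚ S := by
  have h1 : (z.re : ℂ) = (z + starRingEnd ℂ z) / 2 := by
    rw [Complex.add_conj]
    push_cast
    ring
  rw [h1]
  exact div_mem (add_mem hz (conj_mem hS hz)) (ofNat_mem _ 2)

theorem im_mem {S : Set ℂ} (hS : ∀ s ∈ S, starRingEnd ℂ s = s) {z : ℂ} (hz : z ∈ clF ℚ S) :
    (z.im : ℂ) ∈ clF ℚ S := by
  have h1 : (z.im : ℂ) = (z - z.re) / Complex.I := by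
    have h2 := Complex.re_add_im z
    have h3 : z - z.re = z.im * Complex.I := by linear_combination -h2
    rw [h3, mul_div_assoc, div_self Complex.I_ne_zero, mul_one]
  rw [h1]
  exact div_mem (sub_mem hz (re_mem hS hz)) mem_I

theorem of_parts {S : Set ℂ} {z : ℂ} (h1 : (z.re : ℂ) ∈ clF ℚ S) (h2 : (z.im : ℂ) ∈ clF ℚ S) :
    z ∈ clF ℚ S := by
  rw [← Complex.re_add_im z]
  exact add_mem h1 (mul_mem h2 mem_I)

/-- a relation between general forms has many parameters -/
theorem gen_noker {n d : ℕ} {c : Fin n → Fin d → ℂ} (hc : AlgebraicIndependent ℚ (RI c))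
    {g : Fin n → ℂ} (hg : g ≠ 0) {M : ℕ} (hM : M < 2 * d) {Λ : Fin M → ℝ}
    (hgΛ : ∀ i, g i ∈ clF ℚ (range fun a => (Λ a : ℂ))) : ∃ l, ∑ i, g i * c i l ≠ 0 := by
  classical
  by_contra hcon
  push Not at hcon
  obtain ⟨i0, hi0⟩ : ∃ i0, g i0 ≠ 0 := by
    by_contra h
    push Not at h
    exact hg (funext h)
  let y : (Fin n × Fin d) ⊕ (Fin n × Fin d) → ℂ := fun x => (RI c x : ℂ)
  have hy : AlgebraicIndependent ℚ y := by
    have h1 := hc.map' (f := (Complex.ofRealHom : ℝ →+* ℂ).toRatAlgHom) (fun a b hab => by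
      exact Complex.ofReal_injective hab)
    exact h1
  let f0 : Fin d ⊕ Fin d → (Fin n × Fin d) ⊕ (Fin n × Fin d) :=
    Sum.elim (fun l => Sum.inl (i0, l)) fun l => Sum.inr (i0, l)
  have hf0 : Function.Injective f0 := by
    rintro (a | a) (b | b) hab
    · have h1 : a = b := by simpa [f0] using hab
      rw [h1]
    · simp [f0] at hab
    · simp [f0] at hab
    · have h1 : a = b := by simpa [f0] using hab
      rw [h1]
  let J0 : Finset ((Fin n × Fin d) ⊕ (Fin n × Fin d)) := Finset.univ.map ⟨f0, hf0⟩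
  have hJ0 : J0.card = 2 * d := by
    simp only [J0, Finset.card_map, Finset.card_univ, Fintype.card_sum, Fintype.card_fin]
    ring
  have hJ0c : J0ᶜ.card + 2 * d = Fintype.card ((Fin n × Fin d) ⊕ (Fin n × Fin d)) := by
    have h1 := Finset.card_add_card_compl J0
    omega
  obtain ⟨S, hSdef⟩ : ∃ S : Set ℂ, S = y '' (J0ᶜ : Finset _) ∪ range fun a => (Λ a : ℂ) := ⟨_, rfl⟩
  have hSr : ∀ s ∈ S, starRingEnd ℂ s = s := by
    rw [hSdef]
    rintro s (⟨x, -, rfl⟩ | ⟨a, rfl⟩)
    · exact Complex.conj_ofReal _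
    · exact Complex.conj_ofReal _
  have hgS : ∀ i, g i ∈ clF ℚ S := fun i => by
    have h1 : g i ∈ (MK ℚ).closure (range fun a => (Λ a : ℂ)) := hgΛ i
    refine (MK ℚ).closure_subset_closure ?_ h1
    rw [hSdef]
    exact Set.subset_union_right
  have hyS : ∀ x, x ∈ J0ᶜ → y x ∈ clF ℚ S := fun x hx => by
    refine subset_cl _ ?_
    rw [hSdef]
    exact Or.inl ⟨x, Finset.mem_coe.2 hx, rfl⟩
  have hci : ∀ i, i ≠ i0 → ∀ l, c i l ∈ clF ℚ S := by
    intro i hi l
    refine of_parts ?_ ?_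
    · refine hyS (Sum.inl (i, l)) ?_
      rw [Finset.mem_compl]
      intro h
      simp only [J0, Finset.mem_map, Finset.mem_univ, true_and, Function.Embedding.coeFn_mk] at h
      obtain ⟨a | a, ha⟩ := h
      · simp only [f0, Sum.elim_inl, Sum.inl.injEq, Prod.mk.injEq] at ha
        exact hi ha.1.symm
      · simp [f0] at ha
    · refine hyS (Sum.inr (i, l)) ?_
      rw [Finset.mem_compl]
      intro h
      simp only [J0, Finset.mem_map, Finset.mem_univ, true_and, Function.Embedding.coeFn_mk] at h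
      obtain ⟨a | a, ha⟩ := h
      · simp [f0] at ha
      · simp only [f0, Sum.elim_inr, Sum.inr.injEq, Prod.mk.injEq] at ha
        exact hi ha.1.symm
  have hc0 : ∀ l, c i0 l ∈ clF ℚ S := by
    intro l
    have h1 := hcon l
    rw [← Finset.add_sum_erase _ _ (Finset.mem_univ i0)] at h1
    have h2 : c i0 l = -(∑ i ∈ Finset.univ.erase i0, g i * c i l) / g i0 := by
      rw [eq_div_iff hi0]
      linear_combination h1
    rw [h2]
    refine div_mem (neg_mem (sum_mem fun i hi => mul_mem (hgS i) ?_)) (hgS i0)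
    exact hci i (Finset.ne_of_mem_erase hi) l
  have hall : range y ⊆ (MK ℚ).closure S := by
    rintro _ ⟨x, rfl⟩
    have h1 : ∀ i l, c i l ∈ clF ℚ S := by
      intro i l
      by_cases hi : i = i0
      · rw [hi]
        exact hc0 l
      · exact hci i hi l
    rcases x with x | x
    · exact re_mem hSr (h1 x.1 x.2)
    · exact im_mem hSr (h1 x.1 x.2)
  have h1 := rk_le_of_subset_cl hall
  have h2 : (MK ℚ).Indep (range y) := hy.to_subtype_range
  have h3 : (range y).encard = (Fintype.card ((Fin n × Fin d) ⊕ (Fin n × Fin d)) : ℕ) := by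
    rw [← Set.image_univ, hy.injective.encard_image, Set.encard_univ,
      ENat.card_eq_coe_fintype_card]
  have h4 : S.encard ≤ ((J0ᶜ.card + M : ℕ) : ℕ∞) := by
    rw [hSdef]
    refine (Set.encard_union_le _ _).trans ?_
    rw [Nat.cast_add]
    refine add_le_add ?_ (encard_range_le _)
    refine (Set.encard_image_le _ _).trans ?_
    rw [Set.encard_coe_eq_coe_finsetCard]
  have h5 := h1.trans (((MK ℚ).eRk_le_encard _).trans h4)
  rw [h2.eRk_eq_encard, h3] at h5
  have h6 : Fintype.card ((Fin n × Fin d) ⊕ (Fin n × Fin d)) ≤ J0ᶜ.card + M := by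
    exact_mod_cast h5
  omega

/-- complex relations -/
theorem gen_complex {n d : ℕ} {c : Fin n → Fin d → ℂ} (hc : AlgebraicIndependent ℚ (RI c))
    {u : Fin n → ℂ} (hu : u ≠ 0)
    (ht : Module.finrank ℚ (Submodule.span ℚ (range u)) ≤ d) : ∃ l, ∑ i, u i * c i l ≠ 0 := by
  classical
  have : Module.Finite ℚ (Submodule.span ℚ (range u)) :=
    FiniteDimensional.span_of_finite ℚ (Set.finite_range _)
  let Bs := Module.finBasis ℚ (Submodule.span ℚ (range u))
  have hex : ∀ i, ∃ q : Fin (Module.finrank ℚ (Submodule.span ℚ (range u))) → ℚ,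
      u i = ∑ k, (q k : ℂ) * (Bs k : ℂ) := by
    intro i
    have h1 := Bs.sum_repr ⟨u i, Submodule.subset_span ⟨i, rfl⟩⟩
    have h2 := congrArg Subtype.val h1
    rw [AddSubmonoidClass.coe_finsetSum] at h2
    refine ⟨fun k => Bs.repr ⟨u i, Submodule.subset_span ⟨i, rfl⟩⟩ k, ?_⟩
    refine h2.symm.trans (Finset.sum_congr rfl fun k _ => ?_)
    rw [Submodule.coe_smul, Rat.smul_def]
  revert hex
  generalize hβ : (fun k => (Bs k : ℂ)) = β
  have hβ' : ∀ k, (Bs k : ℂ) = β k := fun k => congrFun hβ k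
  simp only [hβ']
  clear hβ' hβ Bs
  revert β ht
  generalize Module.finrank ℚ (Submodule.span ℚ (range u)) = t
  intro ht β hex
  choose q hq using hex
  -- a nonzero element
  obtain ⟨k0, hk0⟩ : ∃ k0, β k0 ≠ 0 := by
    by_contra h
    push Not at h
    apply hu
    funext i
    rw [hq i]
    simp [h]
  obtain ⟨t', rfl⟩ : ∃ t', t = t' + 1 := ⟨t - 1, by have := k0.pos; omega⟩
  let Λ : Fin (t' + t') → ℝ := Fin.append (fun k => (β (k0.succAbove k) / β k0).re)
    fun k => (β (k0.succAbove k) / β k0).im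
  have hβΛ : ∀ k, β k / β k0 ∈ clF ℚ (range fun a => (Λ a : ℂ)) := by
    intro k
    by_cases hk : k = k0
    · rw [hk, div_self hk0]
      exact one_mem _
    · obtain ⟨k', rfl⟩ := Fin.exists_succAbove_eq hk
      refine of_parts (subset_cl _ ⟨Fin.castAdd t' k', ?_⟩) (subset_cl _ ⟨Fin.natAdd t' k', ?_⟩)
      · simp only [Λ, Fin.append_left]
      · simp only [Λ, Fin.append_right]
  obtain ⟨l, hl⟩ := gen_noker hc (g := fun i => u i / β k0) (fun h => hu (by
    funext i
    have h1 := congrFun h i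
    exact (div_eq_zero_iff.1 h1).resolve_right hk0)) (M := t' + t') (by omega) (Λ := Λ)
    (fun i => by
      have h1 : u i / β k0 = ∑ k, (q i k : ℂ) * (β k / β k0) := by
        rw [hq i, Finset.sum_div]
        refine Finset.sum_congr rfl fun k _ => ?_
        ring
      rw [h1]
      exact sum_mem fun k _ => mul_mem (SubfieldClass.ratCast_mem _ _) (hβΛ k))
  refine ⟨l, fun h => hl ?_⟩
  have h1 : ∑ i, u i / β k0 * c i l = (∑ i, u i * c i l) / β k0 := by
    rw [Finset.sum_div]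
    refine Finset.sum_congr rfl fun i _ => ?_
    ring
  rw [h1, h, zero_div]

/-- real relations -/
theorem gen_real {n d : ℕ} {c : Fin n → Fin d → ℂ} (hc : AlgebraicIndependent ℚ (RI c))
    {r : ℕ} (hr : r + 2 ≤ d) {u : Fin n → ℝ} {R : Fin r → Fin n → ℚ} {μ : Fin r → ℂ}
    (ht : Module.finrank ℚ (Submodule.span ℚ (range u)) + 2 * r ≤ 2 * d)
    (hg : (fun i => (u i : ℂ) + ∑ j, μ j * (R j i : ℂ)) ≠ 0) :
    ∃ l, ∑ i, ((u i : ℂ) + ∑ j, μ j * (R j i : ℂ)) * c i l ≠ 0 := by
  classical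
  by_cases hu : u = 0
  · refine gen_complex hc hg ((finrank_le_of_mem (k := r) (μ := μ) fun i => ?_).trans (by omega))
    rw [hu]
    simp only [Pi.zero_apply, Complex.ofReal_zero, zero_add]
    exact mem_span_mul μ fun j => R j i
  have : Module.Finite ℚ (Submodule.span ℚ (range u)) :=
    FiniteDimensional.span_of_finite ℚ (Set.finite_range _)
  let Bs := Module.finBasis ℚ (Submodule.span ℚ (range u))
  have hex : ∀ i, ∃ q : Fin (Module.finrank ℚ (Submodule.span ℚ (range u))) → ℚ,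
      u i = ∑ k, (q k : ℝ) * (Bs k : ℝ) := by
    intro i
    have h1 := Bs.sum_repr ⟨u i, Submodule.subset_span ⟨i, rfl⟩⟩
    have h2 := congrArg Subtype.val h1
    rw [AddSubmonoidClass.coe_finsetSum] at h2
    refine ⟨fun k => Bs.repr ⟨u i, Submodule.subset_span ⟨i, rfl⟩⟩ k, ?_⟩
    refine h2.symm.trans (Finset.sum_congr rfl fun k _ => ?_)
    rw [Submodule.coe_smul, Rat.smul_def]
  revert hex
  generalize hβ : (fun k => (Bs k : ℝ)) = β
  have hβ' : ∀ k, (Bs k : ℝ) = β k := fun k => congrFun hβ k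
  simp only [hβ']
  clear hβ' hβ Bs
  revert β ht
  generalize Module.finrank ℚ (Submodule.span ℚ (range u)) = t
  intro ht β hex
  choose q hq using hex
  -- a nonzero element
  obtain ⟨k0, hk0⟩ : ∃ k0, β k0 ≠ 0 := by
    by_contra h
    push Not at h
    apply hu
    funext i
    rw [hq i]
    simp [h]
  have hk0' : (β k0 : ℂ) ≠ 0 := by exact_mod_cast hk0
  obtain ⟨t', rfl⟩ : ∃ t', t = t' + 1 := ⟨t - 1, by have := k0.pos; omega⟩
  let Λ : Fin (t' + (r + r)) → ℝ := Fin.append (fun k => β (k0.succAbove k) / β k0)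
    (Fin.append (fun j => (μ j / β k0).re) fun j => (μ j / β k0).im)
  have hβΛ : ∀ k, (β k : ℂ) / β k0 ∈ clF ℚ (range fun a => (Λ a : ℂ)) := by
    intro k
    by_cases hk : k = k0
    · rw [hk, div_self hk0']
      exact one_mem _
    · obtain ⟨k', rfl⟩ := Fin.exists_succAbove_eq hk
      refine subset_cl _ ⟨Fin.castAdd (r + r) k', ?_⟩
      simp only [Λ, Fin.append_left]
      push_cast
      rfl
  have hμΛ : ∀ j, μ j / β k0 ∈ clF ℚ (range fun a => (Λ a : ℂ)) := by
    intro j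
    refine of_parts (subset_cl _ ⟨Fin.natAdd t' (Fin.castAdd r j), ?_⟩)
      (subset_cl _ ⟨Fin.natAdd t' (Fin.natAdd r j), ?_⟩)
    · simp only [Λ, Fin.append_left, Fin.append_right]
    · simp only [Λ, Fin.append_right]
  obtain ⟨l, hl⟩ := gen_noker hc (g := fun i => ((u i : ℂ) + ∑ j, μ j * (R j i : ℂ)) / β k0)
    (fun h => hg (by
      funext i
      have h1 := congrFun h i
      exact (div_eq_zero_iff.1 h1).resolve_right hk0')) (M := t' + (r + r)) (by omega) (Λ := Λ)
    (fun i => by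
      have h1 : ((u i : ℂ) + ∑ j, μ j * (R j i : ℂ)) / β k0 =
          ∑ k, (q i k : ℂ) * ((β k : ℂ) / β k0) + ∑ j, (μ j / β k0) * (R j i : ℂ) := by
        rw [hq i, add_div, Finset.sum_div]
        push_cast
        rw [Finset.sum_div]
        congr 1
        · refine Finset.sum_congr rfl fun k _ => ?_
          ring
        · refine Finset.sum_congr rfl fun k _ => ?_
          ring
      change ((u i : ℂ) + ∑ j, μ j * (R j i : ℂ)) / β k0 ∈ _
      rw [h1]
      exact add_mem (sum_mem fun k _ => mul_mem (SubfieldClass.ratCast_mem _ _) (hβΛ k))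
        (sum_mem fun j _ => mul_mem (hμΛ j) (SubfieldClass.ratCast_mem _ _)))
  refine ⟨l, fun h => hl ?_⟩
  have h1 : ∑ i, ((u i : ℂ) + ∑ j, μ j * (R j i : ℂ)) / β k0 * c i l =
      (∑ i, ((u i : ℂ) + ∑ j, μ j * (R j i : ℂ)) * c i l) / β k0 := by
    rw [Finset.sum_div]
    refine Finset.sum_congr rfl fun i _ => ?_
    ring
  rw [h1, h, zero_div]

/-- **general linear forms** -/
theorem HG.of_ind {n d : ℕ} {c : Fin n → Fin d → ℂ} (hc : AlgebraicIndependent ℚ (RI c)) :
    HG c where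
  complex := fun _ hu ht => gen_complex hc hu ht
  real := fun _ hr _ _ _ ht hg => gen_real hc hr ht hg

open MeasureTheory in
theorem HG.ae (n d : ℕ) : ∀ᵐ c : Fin n → Fin d → ℂ, HG c := by
  filter_upwards [Pool.Agent.K3h90.ET.t_AEA n d] with c hc
  exact HG.of_ind hc

end Pool.Agent.V9h68
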