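import Pool.Agent.V9h68.Zz

/-!
Adapted bases.
-/

set_option autoImplicit false

open Set Filter Topology

noncomputable section

namespace Pool.Agent.V9h68.Rt

theorem ld_of {D : ℕ} {e : ℂ → ℂ} (he : MeromorphicAt e 0)
    (h : ((-(D : ℤ) : ℤ) : WithTop ℤ) ≤ meromorphicOrderAt e 0) :
    ∃ κ, LD D κ e ∧ (meromorphicOrderAt e 0 = ((-(D : ℤ) : ℤ) : WithTop ℤ) ↔ κ ≠ 0) := by
  have hpm : MeromorphicAt (fun s : ℂ => s ^ D) 0 := (analyticAt_id.pow D).meromorphicAt
  have hpo : meromorphicOrderAt (fun s : ℂ => s ^ D) 0 = ((D : ℤ) : WithTop ℤ) := by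
    have h1 := meromorphicOrderAt_pow (f := (id : ℂ → ℂ)) (x := 0) analyticAt_id.meromorphicAt
      (n := D)
    rw [meromorphicOrderAt_id, mul_one] at h1
    exact h1
  have hg : meromorphicOrderAt (fun s => s ^ D * e s) 0 =
      ((D : ℤ) : WithTop ℤ) + meromorphicOrderAt e 0 := by
    rw [← hpo]
    exact meromorphicOrderAt_mul hpm he
  have hsum : ((D : ℤ) : WithTop ℤ) + ((-(D : ℤ) : ℤ) : WithTop ℤ) = 0 := by
    rw [← WithTop.coe_add, add_neg_cancel, WithTop.coe_zero]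
  have hg0 : 0 ≤ meromorphicOrderAt (fun s => s ^ D * e s) 0 := by
    rw [hg, ← hsum]
    exact add_le_add le_rfl h
  obtain ⟨g, hga, hge⟩ := (hpm.mul he).meromorphicOrderAt_nonneg_iff.1 hg0
  refine ⟨g 0, ⟨he, fun η hη => ?_⟩, ?_⟩
  · have h1 : ∀ᶠ s in 𝓝 (0 : ℂ), ‖g s - g 0‖ < η := by
      have h2 : Tendsto (fun s => ‖g s - g 0‖) (𝓝 0) (𝓝 ‖g 0 - g 0‖) :=
        ((hga.continuousAt.sub continuousAt_const).norm)
      rw [sub_self, norm_zero] at h2
      exact h2.eventually (gt_mem_nhds hη)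
    have h0 : ∀ᶠ s in 𝓝[≠] (0 : ℂ), s ≠ 0 := self_mem_nhdsWithin
    filter_upwards [h1.filter_mono nhdsWithin_le_nhds, hge, h0] with s h2 h3 h4
    have h5 : s ^ D ≠ 0 := pow_ne_zero _ h4
    have h6 : e s - g 0 * s⁻¹ ^ D = s⁻¹ ^ D * (g s - g 0) := by
      rw [← h3, inv_pow]
      change e s - g 0 * (s ^ D)⁻¹ = (s ^ D)⁻¹ * (s ^ D * e s - g 0)
      field_simp
    rw [h6, norm_mul, norm_cinv_pow, mul_comm]
    gcongr
  · rw [← hga.meromorphicNFAt.meromorphicOrderAt_eq_zero_iff, ← meromorphicOrderAt_congr hge]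
    change _ ↔ meromorphicOrderAt (fun s => s ^ D * e s) 0 = 0
    rw [hg]
    rcases h0 : meromorphicOrderAt e 0 with _ | m
    · constructor
      · intro h1
        exact absurd h1 WithTop.top_ne_coe
      · intro h1
        exact absurd h1 (by
          change ((D : ℤ) : WithTop ℤ) + ⊤ ≠ 0
          rw [WithTop.add_top]
          exact WithTop.top_ne_zero)
    · change ((m : ℤ) : WithTop ℤ) = _ ↔ ((D : ℤ) : WithTop ℤ) + ((m : ℤ) : WithTop ℤ) = 0
      rw [← WithTop.coe_add, WithTop.coe_eq_coe, ← WithTop.coe_zero, WithTop.coe_eq_coe]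
      omega

theorem LD.unique {D : ℕ} {κ κ' : ℂ} {e : ℂ → ℂ} (h : LD D κ e) (h' : LD D κ' e) : κ = κ' := by
  have h1 := h.sub h'
  by_contra hne
  have hpos : 0 < ‖κ - κ'‖ := norm_pos_iff.2 (sub_ne_zero.2 hne)
  have h0 : ∀ᶠ s in 𝓝[≠] (0 : ℂ), s ≠ 0 := self_mem_nhdsWithin
  obtain ⟨s, hs, hs0⟩ := ((h1.2 (‖κ - κ'‖ / 2) (by positivity)).and h0).exists
  simp only [sub_self, zero_sub, norm_neg, norm_mul, norm_cinv_pow] at hs
  have h2 : 0 < ‖s‖⁻¹ ^ D := by
    have := norm_pos_iff.2 hs0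
    positivity
  have h3 := le_of_mul_le_mul_right hs h2
  linarith

/-- a basis of a subspace modulo another one -/
theorem basis_mod {V : Type} [AddCommGroup V] [Module ℚ V] [FiniteDimensional ℚ V]
    (U H : Submodule ℚ V) : ∃ (k : ℕ) (r : Fin k → V), (∀ i, r i ∈ H) ∧
      (∀ q : Fin k → ℚ, ∑ j, q j • r j ∈ U → q = 0) ∧
      ∀ v ∈ H, ∃ q : Fin k → ℚ, v - ∑ j, q j • r j ∈ U := by
  classical
  let U₁ : Submodule ℚ H := U.comap H.subtype
  let b := Module.finBasis ℚ (H ⧸ U₁)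
  choose v hv using fun i => U₁.mkQ_surjective (b i)
  have hmem : ∀ w : H, U₁.mkQ w = 0 ↔ (w : V) ∈ U := by
    intro w
    rw [Submodule.mkQ_apply, Submodule.Quotient.mk_eq_zero]
    rfl
  refine ⟨_, fun i => (v i : V), fun i => (v i).2, fun q hq => ?_, fun w hw => ?_⟩
  · have h1 : U₁.mkQ (∑ j, q j • v j) = 0 := by
      rw [hmem]
      rw [AddSubmonoidClass.coe_finsetSum]
      exact hq
    rw [map_sum] at h1
    simp only [map_smul, hv] at h1
    exact funext fun j => Fintype.linearIndependent_iff.1 b.linearIndependent q h1 j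
  · refine ⟨fun j => b.repr (U₁.mkQ ⟨w, hw⟩) j, ?_⟩
    have h1 : U₁.mkQ (⟨w, hw⟩ - ∑ j, b.repr (U₁.mkQ ⟨w, hw⟩) j • v j) = 0 := by
      rw [map_sub, map_sum]
      simp only [map_smul, hv]
      rw [b.sum_repr, sub_self]
    rw [hmem] at h1
    rw [AddSubgroupClass.coe_sub, AddSubmonoidClass.coe_finsetSum] at h1
    exact h1

/-- rational combinations of functions -/
def fc {n : ℕ} (xf : Fin n → ℂ → ℂ) (q : Fin n → ℚ) (s : ℂ) : ℂ := ∑ i, (q i : ℂ) * xf i s

section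

variable {n : ℕ} {xf : Fin n → ℂ → ℂ}

theorem fc_mero (hxf : ∀ i, MeromorphicAt (xf i) 0) (q : Fin n → ℚ) :
    MeromorphicAt (fc xf q) 0 := by
  have h1 : fc xf q = ∑ i, fun s => (q i : ℂ) * xf i s := by
    funext s
    rw [Finset.sum_apply]
    rfl
  rw [h1]
  exact MeromorphicAt.sum fun i _ => (MeromorphicAt.const _ 0).mul (hxf i)

theorem fc_add (q q' : Fin n → ℚ) : fc xf (q + q') = fun s => fc xf q s + fc xf q' s := by
  funext s
  unfold fc
  rw [← Finset.sum_add_distrib]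
  refine Finset.sum_congr rfl fun i _ => ?_
  rw [Pi.add_apply]
  push_cast
  ring

theorem fc_smul (t : ℚ) (q : Fin n → ℚ) : fc xf (t • q) = fun s => (t : ℂ) * fc xf q s := by
  funext s
  unfold fc
  rw [Finset.mul_sum]
  refine Finset.sum_congr rfl fun i _ => ?_
  rw [Pi.smul_apply, smul_eq_mul]
  push_cast
  ring

theorem fc_sum {ι : Type} (S : Finset ι) (t : ι → ℚ) (b : ι → Fin n → ℚ) (s : ℂ) :
    fc xf (∑ j ∈ S, t j • b j) s = ∑ j ∈ S, (t j : ℂ) * fc xf (b j) s := by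
  classical
  induction S using Finset.induction_on with
  | empty =>
    unfold fc
    simp
  | insert a S ha ih =>
    rw [Finset.sum_insert ha, Finset.sum_insert ha, fc_add, fc_smul]
    simp only
    rw [ih]

theorem fc_single (i : Fin n) : fc xf (Pi.single i 1) = xf i := by
  classical
  funext s
  unfold fc
  rw [Finset.sum_eq_single i]
  · simp
  · intro j _ hj
    rw [Pi.single_eq_of_ne hj]
    simp
  · intro h
    exact absurd (Finset.mem_univ _) h

/-- the regular combinations -/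
def regS (hxf : ∀ i, MeromorphicAt (xf i) 0) : Submodule ℚ (Fin n → ℚ) where
  carrier := {q | 0 ≤ meromorphicOrderAt (fc xf q) 0}
  add_mem' := fun {q q'} hq hq' => by
    change 0 ≤ meromorphicOrderAt (fc xf (q + q')) 0
    rw [fc_add]
    exact (le_min hq hq').trans (meromorphicOrderAt_add (fc_mero hxf q) (fc_mero hxf q'))
  zero_mem' := by
    change 0 ≤ meromorphicOrderAt (fc xf 0) 0
    have h1 : fc xf (0 : Fin n → ℚ) = fun _ => 0 := by
      funext s
      unfold fc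
      simp
    rw [h1]
    have h2 : meromorphicOrderAt (fun _ : ℂ => (0 : ℂ)) 0 = ⊤ :=
      meromorphicOrderAt_eq_top_iff.2 (Eventually.of_forall fun _ => rfl)
    rw [h2]
    exact le_top
  smul_mem' := fun t q hq => by
    change 0 ≤ meromorphicOrderAt (fc xf (t • q)) 0
    rw [fc_smul]
    have h1 : meromorphicOrderAt (fun s => (t : ℂ) * fc xf q s) 0 =
        meromorphicOrderAt (fun _ : ℂ => (t : ℂ)) 0 + meromorphicOrderAt (fc xf q) 0 :=
      meromorphicOrderAt_mul (MeromorphicAt.const _ 0) (fc_mero hxf q)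
    rw [h1]
    exact add_nonneg (analyticAt_const.meromorphicOrderAt_nonneg) hq

/-- **adapted bases** -/
theorem adapt (hxf : ∀ i, MeromorphicAt (xf i) 0) (hp : ∃ i, meromorphicOrderAt (xf i) 0 < 0) :
    ∃ (k r D : ℕ) (b : Fin (k + 1) ⊕ Fin r → Fin n → ℚ) (κ : Fin (k + 1) → ℂ),
      Adp (fun j => fc xf (b j)) κ D ∧
      (∀ q : Fin (k + 1) ⊕ Fin r → ℚ, ∑ j, q j • b j = 0 → q = 0) ∧
      ∀ v : Fin n → ℚ, ∃ q : Fin (k + 1) ⊕ Fin r → ℚ, v = ∑ j, q j • b j := by
  classical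
  obtain ⟨i₀, hi₀⟩ := hp
  obtain ⟨i₁, -, hi₁⟩ := Finset.exists_min_image Finset.univ
    (fun i => meromorphicOrderAt (xf i) 0) ⟨i₀, Finset.mem_univ _⟩
  have hneg : meromorphicOrderAt (xf i₁) 0 < 0 := lt_of_le_of_lt (hi₁ i₀ (Finset.mem_univ _)) hi₀
  obtain ⟨m, hm⟩ := WithTop.ne_top_iff_exists.1 (ne_top_of_lt hneg)
  have hm0 : m < 0 := by
    rw [← hm] at hneg
    exact_mod_cast hneg
  obtain ⟨D, hD⟩ : ∃ D : ℕ, m = -(D : ℤ) := ⟨m.natAbs, by omega⟩
  have hD1 : 1 ≤ D := by omega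
  have hord : ∀ i, ((-(D : ℤ) : ℤ) : WithTop ℤ) ≤ meromorphicOrderAt (xf i) 0 := by
    intro i
    rw [← hD, hm]
    exact hi₁ i (Finset.mem_univ _)
  choose κ₀ hκ₀ hκ₀' using fun i => ld_of (hxf i) (hord i)
  have hκi₁ : κ₀ i₁ ≠ 0 := (hκ₀' i₁).1 (by rw [← hm, hD])
  let K : (Fin n → ℚ) →ₗ[ℚ] ℂ :=
    { toFun := fun q => ∑ i, (q i : ℂ) * κ₀ i
      map_add' := fun q q' => by
        rw [← Finset.sum_add_distrib]
        refine Finset.sum_congr rfl fun i _ => ?_
        rw [Pi.add_apply]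
        push_cast
        ring
      map_smul' := fun t q => by
        rw [RingHom.id_apply, Finset.smul_sum]
        refine Finset.sum_congr rfl fun i _ => ?_
        rw [Pi.smul_apply, smul_eq_mul, Rat.smul_def]
        push_cast
        ring }
  have hLD : ∀ q, LD D (K q) (fc xf q) := by
    intro q
    exact LD.sum Finset.univ (c := fun i => (q i : ℂ) * κ₀ i) (e := fun i s => (q i : ℂ) * xf i s)
      fun i _ => (hκ₀ i).cmul _
  set W₁ := regS hxf with hW₁
  have hW₁K : W₁ ≤ LinearMap.ker K := by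
    intro q hq
    rw [LinearMap.mem_ker]
    have hq' : 0 ≤ meromorphicOrderAt (fc xf q) 0 := hq
    have hlt : ((-(D : ℤ) : ℤ) : WithTop ℤ) < 0 := by
      exact_mod_cast (by omega : -(D : ℤ) < 0)
    obtain ⟨κ', h1, h2⟩ := ld_of (D := D) (fc_mero hxf q) (hlt.le.trans hq')
    rw [(hLD q).unique h1]
    by_contra hne
    have h3 := h2.2 hne
    rw [h3] at hq'
    exact absurd hq' (not_le.2 hlt)
  have hlt : LinearMap.ker K < ⊤ := by
    refine lt_top_iff_ne_top.2 fun h => hκi₁ ?_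
    have h1 : (Pi.single i₁ 1 : Fin n → ℚ) ∈ LinearMap.ker K := by rw [h]; trivial
    rw [LinearMap.mem_ker] at h1
    have h2 : K (Pi.single i₁ 1) = κ₀ i₁ := by
      change ∑ i, (((Pi.single i₁ 1 : Fin n → ℚ) i : ℚ) : ℂ) * κ₀ i = κ₀ i₁
      rw [Finset.sum_eq_single i₁]
      · simp
      · intro j _ hj
        rw [Pi.single_eq_of_ne hj]
        simp
      · intro h
        exact absurd (Finset.mem_univ _) h
    rw [← h2, h1]
  obtain ⟨f, hf0, hf⟩ := Submodule.exists_le_ker_of_lt_top _ hlt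
  obtain ⟨v₀, hv₀⟩ : ∃ v, f v ≠ 0 := by
    by_contra hcon
    push Not at hcon
    exact hf0 (LinearMap.ext fun v => by rw [hcon v]; rfl)
  obtain ⟨k, rr, hr1, hr2, hr3⟩ := basis_mod W₁ (LinearMap.ker f)
  obtain ⟨r, u, hu1, hu2, hu3⟩ := basis_mod (⊥ : Submodule ℚ (Fin n → ℚ)) W₁
  have hW₁f : W₁ ≤ LinearMap.ker f := hW₁K.trans hf
  let bv : Fin (k + 1) → Fin n → ℚ := Fin.cons v₀ rr
  have hbv0 : bv 0 = v₀ := rfl
  have hbvs : ∀ i : Fin k, bv i.succ = rr i := fun i => rfl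
  have hsum : ∀ q : Fin (k + 1) → ℚ, ∑ j, q j • bv j = q 0 • v₀ + ∑ j : Fin k, q j.succ • rr j := by
    intro q
    rw [Fin.sum_univ_succ]
    rfl
  have hfsum : ∀ q : Fin (k + 1) → ℚ, f (∑ j, q j • bv j) = q 0 * f v₀ := by
    intro q
    rw [hsum, map_add, map_smul, smul_eq_mul]
    have h1 : ∑ j : Fin k, q j.succ • rr j ∈ LinearMap.ker f :=
      sum_mem fun j _ => Submodule.smul_mem _ _ (hr1 j)
    rw [LinearMap.mem_ker.1 h1, add_zero]
  have hfree : ∀ q : Fin (k + 1) → ℚ, ∑ j, q j • bv j ∈ W₁ → q = 0 := by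
    intro q hq
    have h1 := hfsum q
    rw [LinearMap.mem_ker.1 (hW₁f hq)] at h1
    have h2 : q 0 = 0 := (mul_eq_zero.1 h1.symm).resolve_right hv₀
    rw [hsum, h2, zero_smul, zero_add] at hq
    have h3 := hr2 (fun j => q j.succ) hq
    funext j
    refine Fin.cases h2 (fun i => ?_) j
    exact congrFun h3 i
  -- exponents
  have hEx : ∀ α β : Fin (k + 1) →₀ ℕ, (fun s => Ex (fun i => fc xf (bv i)) α s -
      Ex (fun i => fc xf (bv i)) β s) = fc xf (∑ j, ((α j : ℚ) - β j) • bv j) := by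
    intro α β
    funext s
    rw [fc_sum]
    unfold Ex
    rw [← Finset.sum_sub_distrib]
    refine Finset.sum_congr rfl fun i _ => ?_
    push_cast
    ring
  refine ⟨k, r, D, Sum.elim bv u, fun j => K (bv j), ⟨hD1, fun i => hLD _, ?_, ?_, fun j =>
    fc_mero hxf _, fun j => hu1 j⟩, ?_, ?_⟩
  · intro α β hαβ
    have h1 : ∀ γ : Fin (k + 1) →₀ ℕ, tw (fun j => K (bv j)) γ = K (∑ j, (γ j : ℚ) • bv j) := by
      intro γ
      rw [map_sum]
      unfold tw
      refine Finset.sum_congr rfl fun i _ => ?_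
      rw [map_smul, Rat.smul_def]
      push_cast
      rfl
    rw [h1, h1, ← sub_eq_zero, ← map_sub, ← Finset.sum_sub_distrib] at hαβ
    have h2 : ∑ j, ((α j : ℚ) - β j) • bv j ∈ LinearMap.ker f := by
      apply hf
      rw [LinearMap.mem_ker, ← hαβ]
      congr 1
      refine Finset.sum_congr rfl fun i _ => ?_
      rw [sub_smul]
    have h3 := hfsum fun j => (α j : ℚ) - β j
    rw [LinearMap.mem_ker.1 h2] at h3
    have h4 := (mul_eq_zero.1 h3.symm).resolve_right hv₀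
    have h5 : (α 0 : ℚ) = β 0 := sub_eq_zero.1 h4
    exact_mod_cast h5
  · intro α β hne
    change meromorphicOrderAt (fun s => Ex (fun i => fc xf (bv i)) α s -
      Ex (fun i => fc xf (bv i)) β s) 0 < 0
    rw [hEx]
    by_contra hcon
    rw [not_lt] at hcon
    apply hne
    have h1 := hfree (fun j => (α j : ℚ) - β j) hcon
    ext j
    have h2 := congrFun h1 j
    have h3 : (α j : ℚ) = β j := sub_eq_zero.1 h2
    exact_mod_cast h3
  · intro q hq
    rw [Fintype.sum_sum_type] at hq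
    simp only [Sum.elim_inl, Sum.elim_inr] at hq
    have hu : ∑ j, q (Sum.inr j) • u j ∈ W₁ := sum_mem fun j _ => W₁.smul_mem _ (hu1 j)
    have h1 : ∑ j, q (Sum.inl j) • bv j ∈ W₁ := by
      rw [eq_neg_of_add_eq_zero_left hq]
      exact W₁.neg_mem hu
    have h2 := hfree (fun j => q (Sum.inl j)) h1
    have h3 : ∀ j, q (Sum.inl j) = 0 := fun j => congrFun h2 j
    simp only [h3, zero_smul, Finset.sum_const_zero, zero_add] at hq
    have h4 := hu2 (fun j => q (Sum.inr j)) (by rw [hq]; exact Submodule.zero_mem _)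
    funext j
    rcases j with j | j
    · exact h3 j
    · exact congrFun h4 j
  · intro v
    have h1 : v - (f v / f v₀) • v₀ ∈ LinearMap.ker f := by
      rw [LinearMap.mem_ker, map_sub, map_smul, smul_eq_mul, div_mul_cancel₀ _ hv₀, sub_self]
    obtain ⟨q, hq⟩ := hr3 _ h1
    obtain ⟨q', hq'⟩ := hu3 _ hq
    rw [Submodule.mem_bot] at hq'
    refine ⟨Sum.elim (Fin.cons (f v / f v₀) q) q', ?_⟩
    rw [Fintype.sum_sum_type]
    simp only [Sum.elim_inl, Sum.elim_inr]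
    rw [Fin.sum_univ_succ]
    simp only [Fin.cons_zero, Fin.cons_succ]
    change v = (f v / f v₀) • v₀ + ∑ j : Fin k, q j • rr j + ∑ j, q' j • u j
    have h2 := sub_eq_zero.1 hq'
    rw [← h2]
    abel

end

end Pool.Agent.V9h68.Rt
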