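import Mathlib

/-!
Algebraic preparations: spreading out over the integers, a linear Noether normalisation in two
variables, the companion matrix.
-/

set_option autoImplicit false
set_option linter.unusedSectionVars false

namespace Pool.Agent.V9h68

open MvPolynomial
open scoped Matrix

section Spread

variable {K : Type} [Field K] {m : ℕ} {τ : Type}

/-- specialisation of the parameters -/
noncomputable def sp (p : Fin m → K) : MvPolynomial (Fin m ⊕ τ) ℤ →+* MvPolynomial τ K :=
  eval₂Hom (Int.castRingHom _) (Sum.elim (fun i => C (p i)) X)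

theorem eval_sp (p : Fin m → K) {L : Type} [Field L] (σ : K →+* L) (y : τ → L)
    (F : MvPolynomial (Fin m ⊕ τ) ℤ) :
    eval₂ σ y (sp p F) = eval₂ (Int.castRingHom L) (Sum.elim (fun i => σ (p i)) y) F := by
  have h : (eval₂Hom σ y).comp (sp p) =
      eval₂Hom (Int.castRingHom L) (Sum.elim (fun i => σ (p i)) y) := by
    apply MvPolynomial.ringHom_ext
    · intro r
      simp
    · intro v
      rcases v with i | i <;> simp [sp]
  exact congrArg (fun φ : MvPolynomial (Fin m ⊕ τ) ℤ →+* L => φ F) h

theorem spread (p : Fin m → K) (f : MvPolynomial τ K) (h : ∀ α, ∃ i, p i = f.coeff α) :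
    ∃ F : MvPolynomial (Fin m ⊕ τ) ℤ, sp p F = f := by
  classical
  choose i hi using h
  refine ⟨∑ α ∈ f.support, X (Sum.inl (i α)) * rename Sum.inr (monomial α 1), ?_⟩
  rw [map_sum]
  conv_rhs => rw [f.as_sum]
  refine Finset.sum_congr rfl fun α _ => ?_
  rw [map_mul]
  have h1 : sp p (X (Sum.inl (i α)) : MvPolynomial (Fin m ⊕ τ) ℤ) = C (f.coeff α) := by
    simp [sp, hi]
  have h2 : sp p (rename Sum.inr (monomial α (1 : ℤ)) : MvPolynomial (Fin m ⊕ τ) ℤ) =
      monomial α 1 := by
    simp only [sp, coe_eval₂Hom, eval₂_rename]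
    rw [eval₂_monomial]
    simp only [map_one, one_mul]
    rw [MvPolynomial.monomial_eq, map_one, one_mul]
    rfl
  rw [h1, h2, C_mul_monomial, mul_one]

/-- the coefficients of finitely many polynomials -/
theorem exists_params {ι : Type} [Finite ι] (E : ι → Set K) (hE : ∀ l, (E l).Finite) :
    ∃ (m : ℕ) (p : Fin m → K), ∀ l, ∀ e ∈ E l, ∃ i, p i = e := by
  classical
  have hfin : (⋃ l, E l).Finite := Set.finite_iUnion hE
  let e := hfin.toFinset.equivFin
  refine ⟨_, fun i => (e.symm i : K), ?_⟩
  intro l x hx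
  refine ⟨e ⟨x, by rw [Set.Finite.mem_toFinset]; exact Set.mem_iUnion.2 ⟨l, hx⟩⟩, ?_⟩
  simp

theorem coeffs_finite (f : MvPolynomial τ K) : (Set.range fun α => f.coeff α).Finite := by
  classical
  refine ((f.support.finite_toSet.image fun α => f.coeff α).union (Set.finite_singleton 0)).subset ?_
  rintro _ ⟨α, rfl⟩
  by_cases h : α ∈ f.support
  · exact Or.inl ⟨α, h, rfl⟩
  · exact Or.inr (by simpa using notMem_support_iff.1 h)

end Spread

section Noether

variable {K : Type} [Field K] [CharZero K]

open Polynomial in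
/-- linear Noether normalisation for two elements -/
theorem noether [Algebra K ℂ] (x : Fin 2 → ℂ) (hx : ¬ AlgebraicIndependent K x) :
    ∃ (c : ℕ) (q : Polynomial (Polynomial K)), q.Monic ∧
      (q.map (Polynomial.aeval (x 0 - c * x 1) : Polynomial K →ₐ[K] ℂ).toRingHom).eval (x 1)
        = 0 := by
  classical
  rw [algebraicIndependent_iff] at hx
  push Not at hx
  obtain ⟨f, hf, hf0⟩ := hx
  set d := f.totalDegree with hd
  -- the polynomial in `c`
  set top := f.support.filter (fun α => α 0 + α 1 = d) with htop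
  have hdeg : ∀ α ∈ f.support, α 0 + α 1 ≤ d := by
    intro α hα
    have h1 := MvPolynomial.le_totalDegree hα
    rw [Finsupp.sum_fintype _ _ (fun _ => rfl), Fin.sum_univ_two] at h1
    exact h1
  obtain ⟨α₀, hα₀, hα₀d⟩ : ∃ α ∈ f.support, α 0 + α 1 = d := by
    have h1 := MvPolynomial.totalDegree_eq f
    have hne : f.support.Nonempty := MvPolynomial.support_nonempty.2 hf0
    obtain ⟨α, hα, h2⟩ := Finset.exists_mem_eq_sup f.support hne
      (fun m => Multiset.card (Finsupp.toMultiset m))
    refine ⟨α, hα, ?_⟩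
    rw [hd, h1, h2, Finsupp.card_toMultiset, Finsupp.sum_fintype _ _ (fun _ => rfl),
      Fin.sum_univ_two]
    rfl
  let g : Polynomial K := ∑ α ∈ top, Polynomial.C (f.coeff α) * Polynomial.X ^ (α 0)
  have hg : g ≠ 0 := by
    intro h
    have h1 : g.coeff (α₀ 0) = f.coeff α₀ := by
      simp only [g, Polynomial.finsetSum_coeff, Polynomial.coeff_C_mul, Polynomial.coeff_X_pow]
      rw [Finset.sum_eq_single α₀]
      · simp
      · intro β hβ hne
        rw [if_neg, mul_zero]
        intro h2
        apply hne
        have h3 : β 0 + β 1 = d := (Finset.mem_filter.1 hβ).2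
        ext i
        fin_cases i
        · exact h2.symm
        · show β 1 = α₀ 1
          omega
      · intro h2
        exact absurd (Finset.mem_filter.2 ⟨hα₀, hα₀d⟩) h2
    rw [h, Polynomial.coeff_zero] at h1
    exact (MvPolynomial.mem_support_iff.1 hα₀) h1.symm
  obtain ⟨c, hc⟩ : ∃ c : ℕ, g.eval (c : K) ≠ 0 := by
    by_contra hcon
    push Not at hcon
    apply hg
    apply Polynomial.eq_zero_of_infinite_isRoot
    refine Set.Infinite.mono ?_ (Set.infinite_range_of_injective (Nat.cast_injective (R := K)))
    rintro _ ⟨c, rfl⟩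
    exact hcon c
  -- the polynomial in `T` and `W`
  let u : Polynomial (Polynomial K) := Polynomial.C Polynomial.X + Polynomial.C (Polynomial.C (c : K)) * Polynomial.X
  let t : (Fin 2 →₀ ℕ) → Polynomial (Polynomial K) := fun α =>
    Polynomial.C (Polynomial.C (f.coeff α)) * (u ^ (α 0) * Polynomial.X ^ (α 1))
  let q0 : Polynomial (Polynomial K) := ∑ α ∈ f.support, t α
  have hu : u.natDegree ≤ 1 := by
    refine (Polynomial.natDegree_add_le _ _).trans ?_
    rw [Polynomial.natDegree_C]
    refine max_le (Nat.zero_le _) ?_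
    exact (Polynomial.natDegree_C_mul_le _ _).trans Polynomial.natDegree_X_le
  have hucoeff : u.coeff 1 = Polynomial.C (c : K) := by
    simp [u]
  have hupow : ∀ n, (u ^ n).natDegree ≤ n := fun n => by
    refine (Polynomial.natDegree_pow_le).trans ?_
    calc n * u.natDegree ≤ n * 1 := Nat.mul_le_mul_left n hu
      _ = n := mul_one n
  have hupowc : ∀ n, (u ^ n).coeff n = Polynomial.C ((c : K) ^ n) := by
    intro n
    have := Polynomial.coeff_pow_of_natDegree_le (m := n) hu
    rw [mul_one] at this
    rw [this, hucoeff, ← Polynomial.C_pow]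
  have htdeg : ∀ α, (t α).natDegree ≤ α 0 + α 1 := by
    intro α
    refine (Polynomial.natDegree_C_mul_le _ _).trans ?_
    refine (Polynomial.natDegree_mul_le).trans ?_
    exact Nat.add_le_add (hupow _) (Polynomial.natDegree_X_pow_le _)
  have htc : ∀ α, (t α).coeff (α 0 + α 1) =
      Polynomial.C (f.coeff α * (c : K) ^ (α 0)) := by
    intro α
    rw [Polynomial.coeff_C_mul, Polynomial.coeff_mul_X_pow, hupowc, ← Polynomial.C_mul]
  have hq0deg : q0.natDegree ≤ d := by
    refine Polynomial.natDegree_sum_le_of_forall_le _ _ fun α hα => ?_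
    exact (htdeg α).trans (hdeg α hα)
  have hq0c : q0.coeff d = Polynomial.C (g.eval (c : K)) := by
    simp only [q0, g, Polynomial.finsetSum_coeff, Polynomial.eval_finsetSum, map_sum]
    rw [htop, Finset.sum_filter]
    refine Finset.sum_congr rfl fun α hα => ?_
    split_ifs with h
    · rw [← h, htc]
      simp
    · apply Polynomial.coeff_eq_zero_of_natDegree_lt
      exact lt_of_le_of_lt (htdeg α) (lt_of_le_of_ne (hdeg α hα) h)
  refine ⟨c, Polynomial.C (Polynomial.C (g.eval (c : K))⁻¹) * q0, ?_, ?_⟩
  · apply Polynomial.monic_of_natDegree_le_of_coeff_eq_one d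
    · exact (Polynomial.natDegree_C_mul_le _ _).trans hq0deg
    · rw [Polynomial.coeff_C_mul, hq0c, ← Polynomial.C_mul, inv_mul_cancel₀ hc, Polynomial.C_1]
  · have h1 : (q0.map (Polynomial.aeval (x 0 - c * x 1) : Polynomial K →ₐ[K] ℂ).toRingHom).eval
        (x 1) = MvPolynomial.aeval x f := by
      simp only [q0, Polynomial.map_sum, Polynomial.eval_finsetSum]
      rw [MvPolynomial.aeval_def, MvPolynomial.eval₂_eq']
      refine Finset.sum_congr rfl fun α _ => ?_
      simp only [t, u, Polynomial.map_mul, Polynomial.map_pow, Polynomial.map_add,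
        Polynomial.map_C, Polynomial.map_X, Polynomial.eval_mul, Polynomial.eval_pow,
        Polynomial.eval_add, Polynomial.eval_C, Polynomial.eval_X, Fin.prod_univ_two]
      simp
    rw [Polynomial.map_mul, Polynomial.eval_mul, h1, hf, mul_zero]

end Noether

section Companion

/-- the companion matrix acts on the vector of the powers -/
theorem companion {R : Type} [CommRing R] {d : ℕ} (b : Fin (d + 1) → R) (w : R)
    (hw : w ^ (d + 1) + ∑ i, b i * w ^ (i : ℕ) = 0) :
    (Matrix.of fun i j : Fin (d + 1) => if i = Fin.last d then - b j else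
      if (j : ℕ) = i + 1 then 1 else 0) *ᵥ (fun i : Fin (d + 1) => w ^ (i : ℕ)) =
      w • (fun i : Fin (d + 1) => w ^ (i : ℕ)) := by
  funext i
  rw [Matrix.mulVec, dotProduct, Pi.smul_apply, smul_eq_mul]
  simp only [Matrix.of_apply]
  by_cases h : i = Fin.last d
  · subst h
    simp only [if_true, neg_mul, Finset.sum_neg_distrib, Fin.val_last]
    rw [← pow_succ']
    linear_combination -hw
  · simp only [if_neg h]
    have hi : (i : ℕ) < d := by
      have h1 := i.isLt
      have h2 : (i : ℕ) ≠ d := fun h3 => h (Fin.ext (by rw [h3, Fin.val_last]))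
      omega
    rw [Finset.sum_eq_single ⟨i + 1, by omega⟩]
    · simp [pow_succ']
    · intro j _ hj
      rw [if_neg, zero_mul]
      intro h3
      exact hj (Fin.ext h3)
    · intro h3
      exact absurd (Finset.mem_univ _) h3

end Companion

end Pool.Agent.V9h68
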