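import Mathlib

/-!
Automorphisms of the field of complex numbers.
-/

set_option autoImplicit false

open MvPolynomial Set Cardinal

namespace Pool.Agent.V9h68

/-- two algebraic closures of a domain -/
theorem clos_equiv {A K L : Type} [CommRing A] [IsDomain A] [Field K] [Field L] [IsAlgClosed K]
    [IsAlgClosed L] (f : A →+* K) (g : A →+* L) (hf : Function.Injective f)
    (hg : Function.Injective g) (hfa : ∀ z : K, ∃ p : Polynomial A, p ≠ 0 ∧ p.eval₂ f z = 0)
    (hga : ∀ z : L, ∃ p : Polynomial A, p ≠ 0 ∧ p.eval₂ g z = 0) :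
    ∃ σ : K ≃+* L, ∀ a, σ (f a) = g a := by
  let _ : Algebra A K := f.toAlgebra
  let _ : Algebra A L := g.toAlgebra
  have i1 : FaithfulSMul A K := (faithfulSMul_iff_algebraMap_injective A K).2 hf
  have i2 : FaithfulSMul A L := (faithfulSMul_iff_algebraMap_injective A L).2 hg
  have a1 : Algebra.IsAlgebraic A K := ⟨fun z => hfa z⟩
  have a2 : Algebra.IsAlgebraic A L := ⟨fun z => hga z⟩
  have c1 : IsAlgClosure A K := ⟨inferInstance, a1⟩
  have c2 : IsAlgClosure A L := ⟨inferInstance, a2⟩
  refine ⟨IsAlgClosure.equivOfEquiv K L (RingEquiv.refl A), fun a => ?_⟩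
  exact IsAlgClosure.equivOfEquiv_algebraMap K L (RingEquiv.refl A) a

theorem exists_bas {R K : Type} [CommRing R] [IsDomain R] [Countable R] [Field K] [IsAlgClosed K]
    (hC : ℵ₀ < #K) (f : R →+* K) (hf : Function.Injective f) :
    ∃ s : Set K, #K = #s ∧ ∃ h : MvPolynomial s R →+* K,
      Function.Injective h ∧ (∀ r, h (C r) = f r) ∧ ∀ z : K, ∃ p : Polynomial (MvPolynomial s R),
        p ≠ 0 ∧ p.eval₂ h z = 0 := by
  have hR : #R ≤ ℵ₀ := Cardinal.mk_le_aleph0
  let _ : Algebra R K := f.toAlgebra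
  have : FaithfulSMul R K := (faithfulSMul_iff_algebraMap_injective R K).2 hf
  obtain ⟨s, hs⟩ := exists_isTranscendenceBasis R K
  refine ⟨s, ?_, (aeval ((↑) : s → K) : MvPolynomial s R →ₐ[R] K), hs.1, ?_, ?_⟩
  · exact IsAlgClosed.cardinal_eq_cardinal_transcendence_basis_of_aleph0_lt' _ hs hR hC
  · intro r
    simp only [RingHom.coe_coe]
    rw [aeval_C]
    rfl
  · intro z
    have h1 := hs.isAlgebraic.isAlgebraic z
    obtain ⟨p, hp, hpz⟩ := h1
    refine ⟨p.map (hs.1.aevalEquiv.symm : _ →+* MvPolynomial s R), ?_, ?_⟩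
    · rw [Ne, Polynomial.map_eq_zero_iff]
      · exact hp
      · exact hs.1.aevalEquiv.symm.injective
    · rw [Polynomial.eval₂_map]
      rw [Polynomial.aeval_def] at hpz
      have h4 : ((aeval ((↑) : s → K) : MvPolynomial s R →ₐ[R] K) : MvPolynomial s R →+* K).comp
          (hs.1.aevalEquiv.symm : _ →+* MvPolynomial s R) =
          algebraMap (Algebra.adjoin R (range ((↑) : s → K))) K := by
        refine RingHom.ext fun a => ?_
        have h2 := hs.1.algebraMap_aevalEquiv (hs.1.aevalEquiv.symm a)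
        rw [AlgEquiv.apply_symm_apply] at h2
        exact h2.symm
      rw [h4]
      exact hpz

/-- two embeddings of a countable domain in an uncountable algebraically closed field are
conjugate -/
theorem exists_aut' {R K : Type} [CommRing R] [IsDomain R] [Countable R] [Field K] [IsAlgClosed K]
    (hC : ℵ₀ < #K) (f g : R →+* K)
    (hf : Function.Injective f) (hg : Function.Injective g) :
    ∃ σ : K ≃+* K, ∀ r, σ (f r) = g r := by
  classical
  obtain ⟨s, hs1, h, h1, h2, h3⟩ := exists_bas hC f hf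
  obtain ⟨t, ht1, k, k1, k2, k3⟩ := exists_bas hC g hg
  have hst : #t = #s := by rw [← hs1, ht1]
  obtain ⟨e⟩ := Cardinal.eq.1 hst
  let E : MvPolynomial t R ≃+* MvPolynomial s R := (renameEquiv R e).toRingEquiv
  obtain ⟨σ, hσ⟩ := clos_equiv h (k.comp (E.symm : MvPolynomial s R →+* MvPolynomial t R)) h1
    (k1.comp E.symm.injective) h3 (fun z => by
      obtain ⟨p, hp, hpz⟩ := k3 z
      refine ⟨p.map (E : MvPolynomial t R →+* MvPolynomial s R), ?_, ?_⟩
      · rw [Ne, Polynomial.map_eq_zero_iff]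
        · exact hp
        · exact E.injective
      · rw [Polynomial.eval₂_map]
        convert hpz using 2
        refine RingHom.ext fun a => ?_
        simp)
  refine ⟨σ, fun r => ?_⟩
  have h4 := hσ (C r)
  rw [h2] at h4
  rw [h4]
  have h5 : E.symm (C r) = C r := by
    rw [RingEquiv.symm_apply_eq]
    simp [E]
  simp only [RingHom.comp_apply, RingHom.coe_coe]
  rw [h5, k2]

theorem exists_aut {R : Type} [CommRing R] [IsDomain R] [Countable R] (f g : R →+* ℂ)
    (hf : Function.Injective f) (hg : Function.Injective g) :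
    ∃ σ : ℂ ≃+* ℂ, ∀ r, σ (f r) = g r :=
  exists_aut' (by rw [Cardinal.mk_complex]; exact Cardinal.aleph0_lt_continuum) f g hf hg

/-- two tuples with the same relations are conjugate -/
theorem aut_tuple {K : Type} [Field K] [Countable K] {ι : Type} [Countable ι] (α τ : K →+* ℂ)
    (g g' : ι → ℂ) (h : ∀ P : MvPolynomial ι K, eval₂ α g P = 0 ↔ eval₂ τ g' P = 0) :
    ∃ σ : ℂ ≃+* ℂ, (∀ c, σ (α c) = τ c) ∧ ∀ i, σ (g i) = g' i := by
  classical
  let I : Ideal (MvPolynomial ι K) := RingHom.ker (eval₂Hom α g)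
  have : I.IsPrime := RingHom.ker_isPrime _
  have hc : Countable (MvPolynomial ι K ⧸ I) := by
    have : Countable (MvPolynomial ι K) := by
      rw [← Cardinal.mk_le_aleph0_iff]
      refine MvPolynomial.cardinalMk_le_max.trans ?_
      simp [Cardinal.mk_le_aleph0]
    exact Quotient.countable
  obtain ⟨σ, hσ⟩ := exists_aut (R := MvPolynomial ι K ⧸ I)
    (Ideal.Quotient.lift I (eval₂Hom α g) (fun a ha => ha))
    (Ideal.Quotient.lift I (eval₂Hom τ g') (fun a ha => (h a).1 ha))
    (RingHom.lift_injective_of_ker_le_ideal _ _ (fun a ha => ha))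
    (RingHom.lift_injective_of_ker_le_ideal _ _ (fun a ha => (h a).2 ha))
  refine ⟨σ, fun c => ?_, fun i => ?_⟩
  · have h1 : σ (eval₂Hom α g (C c)) = eval₂Hom τ g' (C c) := hσ (Ideal.Quotient.mk I (C c))
    simpa using h1
  · have h1 : σ (eval₂Hom α g (X i)) = eval₂Hom τ g' (X i) := hσ (Ideal.Quotient.mk I (X i))
    simpa using h1

end Pool.Agent.V9h68
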