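import Pool.Agent.K3h22.EX.TL
import Pool.Agent.K3h69.ET.CUT1
import Pool.Agent.K3h37.ET.CUT2
import Pool.Agent.K3h58.ET.FLAG
import Pool.Agent.K3h24.ET.CONE2
import Pool.Agent.K3h25.ET3.CONE1
import Pool.Agent.K3h35.ET.TRM
import Pool.Agent.K3h49.ET.VAL
import Pool.Agent.K3h49.ET.SUPP
import Pool.Agent.K3h95.ET.ROOTEX
import Pool.Agent.K3h76.ET.GPQ
import Pool.Agent.K3h87.ET.SEP
import Pool.Agent.K3h22.ET.RESQ
import Pool.Agent.K3h68.ET.COORD2

/-!
Exponential points of a variety with dominant projection to `ℂ^n`, outside of a hypersurface (a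
form of the theorem of Brownawell and Masser).
-/

set_option autoImplicit false

namespace Pool.Agent.V9h68

open MvPolynomial

/-- the exponential point -/
noncomputable def ep {n : ℕ} (z : Fin n → ℂ) : Fin n ⊕ Fin n → ℂ :=
  Sum.elim z fun i => Complex.exp (z i)

/-- a prime ideal `P` with `P ∩ ℂ[X] = 0` which contains no `Y_j`: there are exponential points in
its zero set outside of any hypersurface -/
theorem bm {n : ℕ} (hn : 1 ≤ n) (P : Ideal (MvPolynomial (Fin n ⊕ Fin n) ℂ)) (hP : P.IsPrime)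
    (hY : ∀ j, X (Sum.inr j) ∉ P) (hX : ∀ f : MvPolynomial (Fin n) ℂ, rename Sum.inl f ∈ P → f = 0)
    (H : MvPolynomial (Fin n ⊕ Fin n) ℂ) (hH : H ∉ P) :
    ∃ z : Fin n → ℂ, (∀ f ∈ P, eval (ep z) f = 0) ∧ eval (ep z) H ≠ 0 := by
  classical
  set V : Set (Fin n ⊕ Fin n → ℂ) := {p | (∀ f ∈ P, eval p f = 0) ∧ ∀ j : Fin n, p (Sum.inr j) ≠ 0}
    with hV
  -- Nullstellensatz
  have hnull : ∀ G : MvPolynomial (Fin n ⊕ Fin n) ℂ, G ∉ P → ∃ p ∈ V, eval p G ≠ 0 := by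
    intro G hG
    have h1 : G * ∏ j : Fin n, X (Sum.inr j) ∉ P := by
      intro h
      rcases hP.mem_or_mem h with h | h
      · exact hG h
      · obtain ⟨j, -, hj⟩ := (Ideal.IsPrime.prod_mem_iff (hp := hP)).1 h
        exact hY j hj
    have h2 : G * ∏ j : Fin n, X (Sum.inr j) ∉ vanishingIdeal ℂ (zeroLocus ℂ P) := by
      rw [vanishingIdeal_zeroLocus_eq_radical, hP.radical]
      exact h1
    rw [mem_vanishingIdeal_iff] at h2
    push Not at h2
    obtain ⟨p, hp, hpG⟩ := h2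
    rw [map_mul, map_prod] at hpG
    have hae : ∀ f : MvPolynomial (Fin n ⊕ Fin n) ℂ, aeval p f = eval p f := fun f =>
      DFunLike.congr_fun (coe_aeval_eq_eval p) f
    refine ⟨p, ⟨fun f hf => ?_, fun j hj => ?_⟩, ?_⟩
    · rw [← hae]
      exact hp f hf
    · apply hpG
      rw [Finset.prod_eq_zero (Finset.mem_univ j), mul_zero]
      simpa using hj
    · intro h
      apply hpG
      rw [hae, h, zero_mul]
  have hne : V.Nonempty := by
    obtain ⟨p, hp, -⟩ := hnull 1 (fun h => hP.ne_top ((Ideal.eq_top_iff_one P).2 h))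
    exact ⟨p, hp⟩
  have hmem : ∀ f : MvPolynomial (Fin n ⊕ Fin n) ℂ, (∀ p ∈ V, eval p f = 0) → f ∈ P := by
    intro f hf
    by_contra h
    obtain ⟨p, hp, hpf⟩ := hnull f h
    exact hpf (hf p hp)
  have hden : ∀ f : MvPolynomial (Fin n) ℂ, (∀ u ∈ V, eval (fun i => u (Sum.inl i)) f = 0) →
      f = 0 := by
    intro f hf
    apply hX
    apply hmem
    intro p hp
    rw [eval_rename]
    exact hf p hp
  obtain ⟨ι, ℓ, μ, h1, h2, h3, h4, h5⟩ := Pool.Agent.K3h68.ET.t_COORD2 n n V ⊤ ⟨by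
      rw [AffineSubspace.direction_top, finrank_top, Module.finrank_fintype_fun_eq_card,
        Fintype.card_fin], by
      intro c hc _
      obtain ⟨i, hi⟩ := Function.ne_iff.1 hc
      refine ⟨Pi.single i 1, by simp, ?_⟩
      simpa [Pi.single_apply] using hi, by
      intro c hc _
      obtain ⟨i, hi⟩ := Function.ne_iff.1 hc
      refine ⟨Pi.single i 1, by simp, ?_⟩
      simpa [Pi.single_apply] using hi⟩ hne (fun u _ => AffineSubspace.mem_top ℂ _ _)
      (fun f hf x _ => by rw [hden f hf]; simp)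
  have hJ : ∃ J : Finset (Fin n ⊕ Fin n), J.card = n ∧ Pool.Agent.K3h22.EX.Indep V J :=
    ⟨_, by
      rw [Pool.Agent.K3h22.EX.coords, Finset.image_empty, Finset.union_empty,
        Finset.card_image_of_injective _ (fun a b hab => h1 (Sum.inl_injective hab)),
        Finset.card_univ, Fintype.card_fin], h3⟩
  have hFLAG := Pool.Agent.K3h58.ET.t_FLAG Pool.Agent.K3h49.ET.t_VAL
    Pool.Agent.K3h35.ET.t_TRM
  obtain ⟨p, hp, hpH⟩ := hnull H hH
  have hp0 : (Sum.elim (fun i => p (Sum.inl i) + (Sum.elim (fun _ => 0) (fun _ => 1) :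
      Fin n ⊕ Fin n → ℂ) (Sum.inl i)) (fun i => (Sum.elim (fun _ => 0) (fun _ => 1) :
      Fin n ⊕ Fin n → ℂ) (Sum.inr i) * p (Sum.inr i)) : Fin n ⊕ Fin n → ℂ) = p := by
    funext v
    rcases v with i | i <;> simp
  obtain ⟨z, ⟨u, hu, hz⟩, hz'⟩ := Pool.Agent.K3h22.EX.mainT3 Pool.Agent.K3h69.ET.t_CUT1
    Pool.Agent.K3h37.ET.t_CUT2 hFLAG Pool.Agent.K3h25.ET3.t_CONE1
    Pool.Agent.K3h24.ET.t_CONE2 Pool.Agent.K3h76.ET.t_GPQ
    Pool.Agent.K3h49.ET.t_SUPP Pool.Agent.K3h87.ET.t_SEP Pool.Agent.K3h22.ET.t_RESQ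
    Pool.Agent.K3h95.ET.t_ROOTEX P V hP hV hne hJ
    hn ι h1 ℓ μ h2 h3 h4 h5 (Sum.elim (fun _ => 0) (fun _ => 1)) (fun i => one_ne_zero) H
    ⟨p, hp, by rw [hp0]; exact hpH⟩
  refine ⟨z, ?_, hz'⟩
  intro f hf
  have hu0 : (Sum.elim z fun i => Complex.exp (z i) : Fin n ⊕ Fin n → ℂ) = u := by
    rw [hz]
    funext v
    rcases v with i | i <;> simp
  show eval (Sum.elim z fun i => Complex.exp (z i)) f = 0
  rw [hu0]
  exact hu.1 f hf

end Pool.Agent.V9h68
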