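import Pool.Agent.V9h68.Dc

/-!
Invariant sets: the closure conditions.
-/

set_option autoImplicit false

open MvPolynomial Set Filter Cardinal

noncomputable section

namespace Pool.Agent.V9h68

open Pool.Agent.Y776 Pool.Agent.Y685
open Pool.Agent.TH813.Rel (MK mem_cl subset_cl rk_le_of_subset_cl cl_add cl_mul cl_inv cl_of_base)

/-- sets which are invariant under the isomorphisms over a countable set -/
def InvN (m : ℕ) (X : Set (Fin m → ℂ)) : Prop :=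
  ∃ A : Set ℂ, A.Countable ∧ ∀ K : Subfield ℂ, GD K → A ⊆ K → ∀ w : Wt K, ∀ s : Fin m → ℂ,
    (∀ i, s i ∈ w.V) → s ∈ X → (fun i => w.σ (s i)) ∈ X

theorem Wt.mapV {K : Subfield ℂ} (w : Wt K) {z : ℂ} (hz : z ∈ w.V) : w.σ z ∈ w.symm.V :=
  w.wc.mapV hz

theorem Wt.symm_σ {K : Subfield ℂ} (w : Wt K) (z : ℂ) : w.symm.σ (w.σ z) = z :=
  w.σ.symm_apply_apply z

/-- invariance in both directions -/
theorem InvN.iff {m : ℕ} {X : Set (Fin m → ℂ)} (hX : InvN m X) :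
    ∃ A : Set ℂ, A.Countable ∧ ∀ K : Subfield ℂ, GD K → A ⊆ K → ∀ w : Wt K, ∀ s : Fin m → ℂ,
      (∀ i, s i ∈ w.V) → (s ∈ X ↔ (fun i => w.σ (s i)) ∈ X) := by
  obtain ⟨A, hA, h⟩ := hX
  refine ⟨A, hA, fun K hK hAK w s hs => ⟨h K hK hAK w s hs, fun hs' => ?_⟩⟩
  have h1 := h K hK hAK w.symm (fun i => w.σ (s i)) (fun i => w.mapV (hs i)) hs'
  simp only [Wt.symm_σ] at h1
  exact h1

theorem InvN.compl {m : ℕ} {X : Set (Fin m → ℂ)} (hX : InvN m X) : InvN m Xᶜ := by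
  obtain ⟨A, hA, h⟩ := hX.iff
  exact ⟨A, hA, fun K hK hAK w s hs hsX hs' => hsX ((h K hK hAK w s hs).2 hs')⟩

theorem InvN.iUnion {m : ℕ} {X : ℕ → Set (Fin m → ℂ)} (hX : ∀ i, InvN m (X i)) :
    InvN m (⋃ i, X i) := by
  choose A hA h using hX
  refine ⟨⋃ i, A i, Set.countable_iUnion hA, fun K hK hAK w s hs hsX => ?_⟩
  obtain ⟨i, hi⟩ := Set.mem_iUnion.1 hsX
  exact Set.mem_iUnion.2 ⟨i, h i K hK ((Set.subset_iUnion A i).trans hAK) w s hs hi⟩

/-- sets which are invariant under automorphisms of the field -/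
def AutInv (m : ℕ) (X : Set (Fin m → ℂ)) : Prop :=
  ∃ A : Set ℂ, A.Countable ∧ ∀ σ : ℂ ≃+* ℂ, (∀ c ∈ A, σ c = c) → ∀ s, s ∈ X → (fun i => σ (s i)) ∈ X

theorem AutInv.iff {m : ℕ} {X : Set (Fin m → ℂ)} (hX : AutInv m X) :
    ∃ A : Set ℂ, A.Countable ∧ ∀ σ : ℂ ≃+* ℂ, (∀ c ∈ A, σ c = c) →
      ∀ s, s ∈ X ↔ (fun i => σ (s i)) ∈ X := by
  obtain ⟨A, hA, h⟩ := hX
  refine ⟨A, hA, fun σ hσ s => ⟨h σ hσ s, fun hs => ?_⟩⟩
  have h1 := h σ.symm (fun c hc => by rw [RingEquiv.symm_apply_eq, hσ c hc]) _ hs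
  simp only [RingEquiv.symm_apply_apply] at h1
  exact h1

theorem AutInv.invN {m : ℕ} {X : Set (Fin m → ℂ)} (hX : AutInv m X) : InvN m X := by
  obtain ⟨A, hA, h⟩ := hX
  exact ⟨A, hA, fun K _ hAK w s _ hs => h w.σ (fun c hc => w.wc.fix c (hAK hc)) s hs⟩

theorem AutInv.zero {m : ℕ} (p : MvPolynomial (Fin m) ℂ) : AutInv m {v | eval v p = 0} := by
  refine ⟨Set.range fun α => p.coeff α, Set.countable_range _, fun σ hσ s hs => ?_⟩
  have h1 : σ (eval s p) = eval (fun i => σ (s i)) p := by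
    have h2 := eval₂_comp_left (σ : ℂ →+* ℂ) (RingHom.id ℂ) s p
    rw [← eval₂_id]
    have h3 : σ (eval₂ (RingHom.id ℂ) s p) = (σ : ℂ →+* ℂ) (eval₂ (RingHom.id ℂ) s p) := rfl
    rw [h3, h2, eval₂_eq, ← eval₂_id, eval₂_eq]
    refine Finset.sum_congr rfl fun α _ => ?_
    have h4 : σ (p.coeff α) = p.coeff α := hσ _ ⟨α, rfl⟩
    have h5 : ((σ : ℂ →+* ℂ).comp (RingHom.id ℂ)) (p.coeff α) = (RingHom.id ℂ) (p.coeff α) := h4
    rw [h5]
    rfl
  have h2 : eval s p = 0 := hs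
  change eval (fun i => σ (s i)) p = 0
  rw [← h1, h2, map_zero]

theorem AutInv.compl {m : ℕ} {X : Set (Fin m → ℂ)} (hX : AutInv m X) : AutInv m Xᶜ := by
  obtain ⟨A, hA, h⟩ := hX.iff
  exact ⟨A, hA, fun σ hσ s hs hs' => hs ((h σ hσ s).2 hs')⟩

theorem AutInv.union {m : ℕ} {X Y : Set (Fin m → ℂ)} (hX : AutInv m X) (hY : AutInv m Y) :
    AutInv m (X ∪ Y) := by
  obtain ⟨A, hA, h⟩ := hX
  obtain ⟨B, hB, h'⟩ := hY
  refine ⟨A ∪ B, hA.union hB, fun σ hσ s hs => ?_⟩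
  rcases hs with hs | hs
  · exact Or.inl (h σ (fun c hc => hσ c (Or.inl hc)) s hs)
  · exact Or.inr (h' σ (fun c hc => hσ c (Or.inr hc)) s hs)

theorem AutInv.proj {m : ℕ} {X : Set (Fin (m + 1) → ℂ)} (hX : AutInv (m + 1) X) :
    AutInv m {v | ∃ z : ℂ, (Fin.snoc (α := fun _ => ℂ) v z : Fin (m + 1) → ℂ) ∈ X} := by
  obtain ⟨A, hA, h⟩ := hX
  refine ⟨A, hA, fun σ hσ s hs => ?_⟩
  obtain ⟨z, hz⟩ := hs
  refine ⟨σ z, ?_⟩
  have h1 := h σ hσ _ hz
  convert h1 using 1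
  funext i
  refine Fin.lastCases ?_ (fun i => ?_) i
  · simp only [Fin.snoc_last]
  · simp only [Fin.snoc_castSucc]

/-- Exponential terms in `n` variables. -/
inductive ExpT (n : ℕ) : ((Fin n → ℂ) → ℂ) → Prop
  | const (c : ℂ) : ExpT n fun _ => c
  | coord (i : Fin n) : ExpT n fun s => s i
  | add (f g : (Fin n → ℂ) → ℂ) : ExpT n f → ExpT n g → ExpT n fun s => f s + g s
  | mul (f g : (Fin n → ℂ) → ℂ) : ExpT n f → ExpT n g → ExpT n fun s => f s * g s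
  | exp (f : (Fin n → ℂ) → ℂ) : ExpT n f → ExpT n fun s => Complex.exp (f s)

/-- functions which are respected after an extension -/
def RespN (n : ℕ) (f : (Fin n → ℂ) → ℂ) : Prop :=
  ∃ A : Set ℂ, A.Countable ∧ ∀ K : Subfield ℂ, GD K → A ⊆ K → ∀ w : Wt K, ∀ s : Fin n → ℂ,
    (∀ i, s i ∈ w.V) → ∃ w1 : Wt K, w.Le w1 ∧ f s ∈ w1.V ∧ w1.σ (f s) = f fun i => w.σ (s i)

theorem ExpT.respN {n : ℕ} {f : (Fin n → ℂ) → ℂ} (hf : ExpT n f) : RespN n f := by
  induction hf with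
  | const c =>
    refine ⟨{c}, Set.countable_singleton c, fun K _ hAK w s _ => ?_⟩
    have hc : c ∈ K := hAK rfl
    exact ⟨w, Wt.Le.refl w, Vs_base _ hc, w.wc.fix c hc⟩
  | coord i => exact ⟨∅, Set.countable_empty, fun K _ _ w s hs => ⟨w, Wt.Le.refl w, hs i, rfl⟩⟩
  | add f g _ _ hf hg =>
    obtain ⟨A, hA, hf⟩ := hf
    obtain ⟨B, hB, hg⟩ := hg
    refine ⟨A ∪ B, hA.union hB, fun K hK hAK w s hs => ?_⟩
    obtain ⟨w1, h1, h2, h3⟩ := hf K hK (Set.subset_union_left.trans hAK) w s hs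
    obtain ⟨w2, h4, h5, h6⟩ := hg K hK (Set.subset_union_right.trans hAK) w1 s
      fun i => h1.1 (hs i)
    refine ⟨w2, h1.trans h4, Vs_add (h4.1 h2) h5, ?_⟩
    rw [map_add, h4.2 _ h2, h3, h6]
    congr 2
    funext i
    exact h1.2 _ (hs i)
  | mul f g _ _ hf hg =>
    obtain ⟨A, hA, hf⟩ := hf
    obtain ⟨B, hB, hg⟩ := hg
    refine ⟨A ∪ B, hA.union hB, fun K hK hAK w s hs => ?_⟩
    obtain ⟨w1, h1, h2, h3⟩ := hf K hK (Set.subset_union_left.trans hAK) w s hs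
    obtain ⟨w2, h4, h5, h6⟩ := hg K hK (Set.subset_union_right.trans hAK) w1 s
      fun i => h1.1 (hs i)
    obtain ⟨w3, h7, h8⟩ := w2.alg hK (z := f s * g s)
      (cl_mul (Vs_cl hK.exp (h4.1 h2)).1 (Vs_cl hK.exp h5).1)
    refine ⟨w3, (h1.trans h4).trans h7, h8, ?_⟩
    rw [map_mul, h7.2 _ (h4.1 h2), h4.2 _ h2, h3, h7.2 _ h5, h6]
    congr 2
    funext i
    exact h1.2 _ (hs i)
  | exp f _ hf =>
    obtain ⟨A, hA, hf⟩ := hf
    refine ⟨A, hA, fun K hK hAK w s hs => ?_⟩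
    obtain ⟨w1, h1, h2, h3⟩ := hf K hK hAK w s hs
    obtain ⟨w2, h4, h5⟩ := w1.alg hK (z := Complex.exp (f s)) (Vs_cl hK.exp h2).2
    refine ⟨w2, h1.trans h4, h5, ?_⟩
    rw [w2.wc.cexp hK.exp (h4.1 h2), h4.2 _ h2, h3]

theorem RespN.fin {m n : ℕ} {h : Fin m → (Fin n → ℂ) → ℂ} (hh : ∀ i, RespN n (h i)) :
    ∃ A : Set ℂ, A.Countable ∧ ∀ K : Subfield ℂ, GD K → A ⊆ K → ∀ w : Wt K, ∀ s : Fin n → ℂ,
    (∀ i, s i ∈ w.V) → ∃ w1 : Wt K, w.Le w1 ∧ ∀ i, h i s ∈ w1.V ∧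
      w1.σ (h i s) = h i fun i => w.σ (s i) := by
  classical
  choose A hA h1 using hh
  refine ⟨⋃ i, A i, Set.countable_iUnion hA, fun K hK hAK w s hs => ?_⟩
  have key : ∀ S : Finset (Fin m), ∃ w1 : Wt K, w.Le w1 ∧ ∀ i ∈ S, h i s ∈ w1.V ∧
      w1.σ (h i s) = h i fun i => w.σ (s i) := by
    intro S
    induction S using Finset.induction_on with
    | empty => exact ⟨w, Wt.Le.refl w, fun i hi => absurd hi (Finset.notMem_empty i)⟩
    | insert a S _ ih =>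
      obtain ⟨w1, h2, h3⟩ := ih
      obtain ⟨w2, h4, h5, h6⟩ := h1 a K hK ((Set.subset_iUnion A a).trans hAK) w1 s
        fun i => h2.1 (hs i)
      refine ⟨w2, h2.trans h4, fun i hi => ?_⟩
      rcases Finset.mem_insert.1 hi with rfl | hi
      · refine ⟨h5, ?_⟩
        rw [h6]
        congr 1
        funext i
        exact h2.2 _ (hs i)
      · refine ⟨h4.1 (h3 i hi).1, ?_⟩
        rw [h4.2 _ (h3 i hi).1]
        exact (h3 i hi).2
  obtain ⟨w1, h2, h3⟩ := key Finset.univ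
  exact ⟨w1, h2, fun i => h3 i (Finset.mem_univ i)⟩

theorem InvN.preimage {m n : ℕ} {h : Fin m → (Fin n → ℂ) → ℂ} (hh : ∀ i, ExpT n (h i))
    {X : Set (Fin m → ℂ)} (hX : InvN m X) : InvN n {s | (fun i => h i s) ∈ X} := by
  obtain ⟨A, hA, h1⟩ := hX
  obtain ⟨B, hB, h2⟩ := RespN.fin fun i => (hh i).respN
  refine ⟨A ∪ B, hA.union hB, fun K hK hAK w s hs hsX => ?_⟩
  obtain ⟨w1, h3, h4⟩ := h2 K hK (Set.subset_union_right.trans hAK) w s hs
  have h5 := h1 K hK (Set.subset_union_left.trans hAK) w1 _ (fun i => (h4 i).1) hsX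
  have h6 : (fun i => w1.σ (h i s)) = fun i => h i fun i => w.σ (s i) :=
    funext fun i => (h4 i).2
  rw [h6] at h5
  exact h5

/-- reachability of a finite set -/
theorem reach_fin {K : Subfield ℂ} (hK : GD K) {A : Set ℂ} (hA : A ⊆ K) {w : Wt K} {B : Set ℂ}
    (hB : B ⊆ w.V) {T : Set ℂ} (hT : T.Finite) (h : T ⊆ dcl (A ∪ B)) :
    ∃ w1 : Wt K, w.Le w1 ∧ ∀ z ∈ T, z ∈ w1.V ∧ w1.σ z ∈ dcl (A ∪ w.σ '' B) := by
  classical
  induction T, hT using Set.Finite.induction_on with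
  | empty => exact ⟨w, Wt.Le.refl _, fun z hz => hz.elim⟩
  | @insert a I _ _ ih =>
    obtain ⟨w2, h1, h2⟩ := ih ((Set.subset_insert _ _).trans h)
    obtain ⟨w3, h3, h4, h5⟩ := reach hK hA hB (h (Set.mem_insert a I)) w2 h1
    refine ⟨w3, h1.trans h3, ?_⟩
    rintro z (rfl | hz)
    · exact ⟨h4, h5⟩
    · refine ⟨h3.1 (h2 z hz).1, ?_⟩
      rw [h3.2 z (h2 z hz).1]
      exact (h2 z hz).2

/-- **quantifiers bounded by the closure** -/
theorem InvN.bounded {m n : ℕ} {A : Set ℂ} (hA : A.Countable) {X : Set (Fin (m + n) → ℂ)}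
    (hX : InvN (m + n) X) (κ : Cardinal.{0}) :
    InvN m {s | κ ≤ #({x : Fin n → ℂ | (∀ i, x i ∈ dcl (A ∪ range s)) ∧
      (Fin.append s x : Fin (m + n) → ℂ) ∈ X} : Set (Fin n → ℂ))} := by
  classical
  obtain ⟨B, hB, hX⟩ := hX
  refine ⟨A ∪ B, hA.union hB, fun K hK hAK w s hs hsX => ?_⟩
  have hAK' : A ⊆ K := Set.subset_union_left.trans hAK
  have hsV : range s ⊆ w.V := by
    rintro _ ⟨i, rfl⟩
    exact hs i
  have hσs : w.σ '' range s = range fun i => w.σ (s i) := (Set.range_comp _ _).symm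
  -- finite sets of solutions
  have hfin : ∀ T : Finset (Fin n → ℂ), (T : Set (Fin n → ℂ)) ⊆
      {x : Fin n → ℂ | (∀ i, x i ∈ dcl (A ∪ range s)) ∧
        (Fin.append s x : Fin (m + n) → ℂ) ∈ X} →
      ((T.card : ℕ) : Cardinal.{0}) ≤ #({x : Fin n → ℂ |
        (∀ i, x i ∈ dcl (A ∪ range fun i => w.σ (s i))) ∧
        (Fin.append (fun i => w.σ (s i)) x : Fin (m + n) → ℂ) ∈ X} : Set (Fin n → ℂ)) := by
    intro T hT
    have hT0 : (⋃ x ∈ T, range x : Set ℂ).Finite :=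
      Set.Finite.biUnion T.finite_toSet fun x _ => Set.finite_range x
    obtain ⟨w1, h1, h2⟩ := reach_fin hK hAK' hsV hT0 (by
      intro z hz
      simp only [Set.mem_iUnion] at hz
      obtain ⟨x, hx, i, rfl⟩ := hz
      exact (hT hx).1 i)
    rw [hσs] at h2
    have h3 : ∀ x ∈ T, ∀ i, x i ∈ w1.V ∧ w1.σ (x i) ∈ dcl (A ∪ range fun i => w.σ (s i)) := by
      intro x hx i
      apply h2
      simp only [Set.mem_iUnion]
      exact ⟨x, hx, i, rfl⟩
    have h4 : ∀ x ∈ T, (fun i => w1.σ (x i)) ∈ {x : Fin n → ℂ |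
        (∀ i, x i ∈ dcl (A ∪ range fun i => w.σ (s i))) ∧
        (Fin.append (fun i => w.σ (s i)) x : Fin (m + n) → ℂ) ∈ X} := by
      intro x hx
      refine ⟨fun i => (h3 x hx i).2, ?_⟩
      have h5 := hX K hK (Set.subset_union_right.trans hAK) w1 (Fin.append s x) (fun l => by
        refine Fin.addCases (fun i => ?_) (fun i => ?_) l
        · rw [Fin.append_left]
          exact h1.1 (hs i)
        · rw [Fin.append_right]
          exact (h3 x hx i).1) (hT hx).2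
      convert h5 using 1
      funext l
      refine Fin.addCases (fun i => ?_) (fun i => ?_) l
      · simp only [Fin.append_left]
        rw [h1.2 _ (hs i)]
      · simp only [Fin.append_right]
    let f : T → {x : Fin n → ℂ | (∀ i, x i ∈ dcl (A ∪ range fun i => w.σ (s i))) ∧
        (Fin.append (fun i => w.σ (s i)) x : Fin (m + n) → ℂ) ∈ X} :=
      fun x => ⟨_, h4 x x.2⟩
    have hf : Function.Injective f := by
      intro x y hxy
      apply Subtype.ext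
      funext i
      have h6 := congrFun (congrArg Subtype.val hxy) i
      exact w1.σ.injective h6
    have h7 := Cardinal.mk_le_of_injective hf
    rwa [Cardinal.mk_coe_finset] at h7
  simp only [Set.mem_ofPred_eq] at hsX ⊢
  by_cases hinf : {x : Fin n → ℂ | (∀ i, x i ∈ dcl (A ∪ range s)) ∧
        (Fin.append s x : Fin (m + n) → ℂ) ∈ X}.Finite
  · have h1 := hfin hinf.toFinset (by rw [Set.Finite.coe_toFinset])
    refine hsX.trans (le_trans (le_of_eq ?_) h1)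
    rw [← Cardinal.mk_coe_finset]
    refine Cardinal.mk_congr (Equiv.subtypeEquivRight fun x => ?_)
    rw [Set.Finite.mem_toFinset]
  · have hcount : {x : Fin n → ℂ | (∀ i, x i ∈ dcl (A ∪ range s)) ∧
        (Fin.append s x : Fin (m + n) → ℂ) ∈ X}.Countable := by
      have hc : (Set.pi univ fun _ : Fin n => dcl (A ∪ range s)).Countable :=
        Set.countable_univ_pi fun _ => dcl_countable (hA.union (Set.countable_range s))
      refine hc.mono ?_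
      intro x hx i _
      exact hx.1 i
    refine hsX.trans ((Cardinal.le_aleph0_iff_set_countable.2 hcount).trans ?_)
    rw [Cardinal.aleph0_le]
    intro k
    obtain ⟨T, hT, hTk⟩ := Set.Infinite.exists_subset_card_eq hinf k
    have h1 := hfin T hT
    rw [hTk] at h1
    exact h1

/-- **generic quantifiers** -/
theorem InvN.generic {m : ℕ} {X : Set (Fin (m + 1) → ℂ)} (hX : InvN (m + 1) X) {κ : Cardinal.{0}}
    (hκ : ℵ₀ < κ) : InvN m {s | κ ≤ #({x : ℂ |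
      (Fin.snoc (α := fun _ => ℂ) s x : Fin (m + 1) → ℂ) ∈ X} : Set ℂ)} := by
  classical
  obtain ⟨A, hA, hX⟩ := hX
  refine ⟨A, hA, fun K hK hAK w s hs hsX => ?_⟩
  obtain ⟨G, G', hG, hG', hgen⟩ := w.gen hK
  simp only [Set.mem_ofPred_eq] at hsX ⊢
  have hx : ∃ x, x ∉ G ∧ (Fin.snoc (α := fun _ => ℂ) s x : Fin (m + 1) → ℂ) ∈ X := by
    by_contra hcon
    push Not at hcon
    have h1 : {x : ℂ | (Fin.snoc (α := fun _ => ℂ) s x : Fin (m + 1) → ℂ) ∈ X} ⊆ G := by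
      intro x hx
      by_contra hxG
      exact hcon x hxG hx
    have h2 := hsX.trans (Cardinal.le_aleph0_iff_set_countable.2 (hG.mono h1))
    exact absurd hκ (not_lt.2 h2)
  obtain ⟨x, hxG, hxX⟩ := hx
  have h1 : G'ᶜ ⊆ {x : ℂ | (Fin.snoc (α := fun _ => ℂ) (fun i => w.σ (s i)) x :
      Fin (m + 1) → ℂ) ∈ X} := by
    intro x' hx'
    obtain ⟨w1, h2, h3, h4⟩ := hgen x hxG x' hx'
    have h5 := hX K hK hAK w1 (Fin.snoc (α := fun _ => ℂ) s x) (fun l => by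
      refine Fin.lastCases ?_ (fun i => ?_) l
      · rw [Fin.snoc_last]
        exact h3
      · rw [Fin.snoc_castSucc]
        exact h2.1 (hs i)) hxX
    change (Fin.snoc (α := fun _ => ℂ) (fun i => w.σ (s i)) x' : Fin (m + 1) → ℂ) ∈ X
    convert h5 using 1
    funext l
    refine Fin.lastCases ?_ (fun i => ?_) l
    · simp only [Fin.snoc_last]
      exact h4.symm
    · simp only [Fin.snoc_castSucc]
      exact (h2.2 _ (hs i)).symm
  have h2 : #(G'ᶜ : Set ℂ) = #ℂ := by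
    have h3 : #G' < #ℂ := by
      refine lt_of_le_of_lt (Cardinal.le_aleph0_iff_set_countable.2 hG') ?_
      rw [Cardinal.mk_complex]
      exact Cardinal.aleph0_lt_continuum
    rw [Cardinal.mk_compl_of_infinite _ h3]
  have h3 : κ ≤ #ℂ := hsX.trans (Cardinal.mk_set_le _)
  exact (h3.trans (le_of_eq h2.symm)).trans (Cardinal.mk_le_mk_of_subset h1)

/-- invariant sets of complex numbers are countable or cocountable -/
theorem InvN.qm {X : Set ℂ} (hX : InvN 1 {v : Fin 1 → ℂ | v 0 ∈ X}) : X.Countable ∨ Xᶜ.Countable := by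
  obtain ⟨A, hA, h⟩ := hX
  obtain ⟨K, hK, hAK⟩ := exists_GD hA
  obtain ⟨G, G', hG, hG', hgen⟩ := (Wt.nil hK).gen hK
  by_cases hex : ∃ t, t ∉ G ∧ t ∈ X
  · obtain ⟨t, ht, htX⟩ := hex
    right
    refine hG'.mono ?_
    intro t' ht'
    by_contra hnot
    obtain ⟨w, -, h2, h3⟩ := hgen t ht t' hnot
    have h4 := h K hK hAK w (fun _ => t) (fun _ => h2) htX
    apply ht'
    have h5 : w.σ t ∈ X := h4
    rwa [h3] at h5
  · push Not at hex
    left
    refine hG.mono ?_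
    intro t ht
    by_contra hnot
    exact hex t hnot ht

end Pool.Agent.V9h68
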