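import Pool.Agent.V9h68.Rb4
import Pool.Agent.V9h68.Nv

/-!
The closure under dominated systems and under nondegenerate systems on curves.
-/

set_option autoImplicit false

open MvPolynomial Set Filter Cardinal

noncomputable section

namespace Pool.Agent.V9h68

open Pool.Agent.Y776 Pool.Agent.Y685
open Pool.Agent.TH813.Rel (MK mem_cl subset_cl rk_le_of_subset_cl cl_add cl_mul cl_inv cl_of_base)

theorem NonDeg.mono {C C' : Set ℂ} (h : C ⊆ C') {n : ℕ} {x : Fin n → ℂ} (hx : NonDeg C x) :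
    NonDeg C' x := by
  obtain ⟨P, h1, h2, h3⟩ := hx
  exact ⟨P, fun i α => h (h1 i α), h2, h3⟩

/-- the image of a nondegenerate solution -/
theorem NonDeg.map {C' : Set ℂ} {n : ℕ} {x : Fin n → ℂ} {σ : ℂ ≃+* ℂ}
    (he : ∀ i, σ (Complex.exp (x i)) = Complex.exp (σ (x i)))
    {P : Fin n → MvPolynomial (Fin n ⊕ Fin n) ℂ} (hC : ∀ i α, σ ((P i).coeff α) ∈ C')
    (hP : ∀ i, eval (Sum.elim x fun i => Complex.exp (x i)) (P i) = 0)
    (hdet : (Matrix.of fun i j => eval (Sum.elim x fun i => Complex.exp (x i))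
      (pderiv (Sum.inl j) (P i) + X (Sum.inr j) * pderiv (Sum.inr j) (P i))).det ≠ 0) :
    NonDeg C' (fun i => σ (x i)) := by
  have hev : ∀ Q : MvPolynomial (Fin n ⊕ Fin n) ℂ,
      eval (Sum.elim (fun i => σ (x i)) fun i => Complex.exp (σ (x i)))
        (MvPolynomial.map (σ : ℂ →+* ℂ) Q) =
      σ (eval (Sum.elim x fun i => Complex.exp (x i)) Q) := by
    intro Q
    have h1 := eval₂_comp_left (σ : ℂ →+* ℂ) (RingHom.id ℂ)
      (Sum.elim x fun i => Complex.exp (x i)) Q
    rw [eval_map]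
    rw [← eval₂_id]
    refine Eq.trans ?_ h1.symm
    rw [RingHom.comp_id]
    congr 1
    funext i
    rcases i with i | i
    · rfl
    · exact (he i).symm
  refine ⟨fun i => MvPolynomial.map (σ : ℂ →+* ℂ) (P i), fun i α => ?_, fun i => ?_, ?_⟩
  · rw [coeff_map]
    exact hC i α
  · rw [hev, hP, map_zero]
  · have h1 : (Matrix.of fun i j =>
        eval (Sum.elim (fun i => σ (x i)) fun i => Complex.exp (σ (x i)))
      (pderiv (Sum.inl j) (MvPolynomial.map (σ : ℂ →+* ℂ) (P i)) + X (Sum.inr j) *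
        pderiv (Sum.inr j) (MvPolynomial.map (σ : ℂ →+* ℂ) (P i)))) =
      (Matrix.of fun i j => eval (Sum.elim x fun i => Complex.exp (x i))
      (pderiv (Sum.inl j) (P i) + X (Sum.inr j) * pderiv (Sum.inr j) (P i))).map
        (σ : ℂ →+* ℂ) := by
      ext i j
      simp only [Matrix.of_apply, Matrix.map_apply]
      have h2 : pderiv (Sum.inl j) (MvPolynomial.map (σ : ℂ →+* ℂ) (P i)) + X (Sum.inr j) *
          pderiv (Sum.inr j) (MvPolynomial.map (σ : ℂ →+* ℂ) (P i)) =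
          MvPolynomial.map (σ : ℂ →+* ℂ) (pderiv (Sum.inl j) (P i) + X (Sum.inr j) *
            pderiv (Sum.inr j) (P i)) := by
        rw [map_add, map_mul, map_X, pderiv_map, pderiv_map]
      rw [h2, hev]
      rfl
    rw [h1, ← RingHom.mapMatrix_apply, ← RingHom.map_det]
    exact (map_ne_zero σ).2 hdet

/-- sets which are closed under exponentiation, algebraic numbers, solutions of dominated
systems, nondegenerate solutions which are on a curve, and robust tuples -/
structure CrvClosed (A C : Set ℂ) : Prop where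
  exp : ∀ z ∈ C, Complex.exp z ∈ C
  alg : ∀ z : ℂ, IsAlgebraic (Algebra.adjoin ℚ C) z → z ∈ C
  dom : ∀ (n : ℕ) (x : Fin n → ℂ),
    (∀ i, IsAlgebraic (Algebra.adjoin ℚ (C ∪ range x)) (Complex.exp (x i))) → ∀ i, x i ∈ C
  crv : ∀ (n : ℕ) (x : Fin n → ℂ) (z : ℂ), NonDeg C x →
    (∀ i, IsAlgebraic (Algebra.adjoin ℚ (C ∪ {z})) (x i)) → ∀ i, x i ∈ C
  rob : ∀ (B : Set ℂ) (n : ℕ) (x : Fin n → ℂ), B.Finite → B ⊆ C → Robust A B x → ∀ i, x i ∈ C

/-- the closure -/
def ccl (A S : Set ℂ) : Set ℂ := {z | ∀ C : Set ℂ, A ∪ S ⊆ C → CrvClosed A C → z ∈ C}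

theorem subset_ccl (A S : Set ℂ) : A ∪ S ⊆ ccl A S := fun _ hz _ hC _ => hC hz

theorem ccl_min {A S C : Set ℂ} (h : A ∪ S ⊆ C) (hC : CrvClosed A C) : ccl A S ⊆ C :=
  fun _ hz => hz C h hC

theorem ccl_closed (A S : Set ℂ) : CrvClosed A (ccl A S) where
  exp := fun z hz C hAC hC => hC.exp z (hz C hAC hC)
  alg := fun z hz C hAC hC => by
    refine hC.alg z ?_
    rw [← mem_cl] at hz ⊢
    exact (MK ℚ).closure_subset_closure (ccl_min hAC hC) hz
  dom := fun n x hx i C hAC hC => by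
    refine hC.dom n x (fun i => ?_) i
    have h1 := hx i
    rw [← mem_cl] at h1 ⊢
    exact (MK ℚ).closure_subset_closure (Set.union_subset_union_left _ (ccl_min hAC hC)) h1
  crv := fun n x z hnd hx i C hAC hC => by
    refine hC.crv n x z (hnd.mono (ccl_min hAC hC)) (fun i => ?_) i
    have h1 := hx i
    rw [← mem_cl] at h1 ⊢
    exact (MK ℚ).closure_subset_closure (Set.union_subset_union_left _ (ccl_min hAC hC)) h1
  rob := fun B n x hB hBC hR i C hAC hC =>
    hC.rob B n x hB (hBC.trans (ccl_min hAC hC)) hR i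

theorem CrvClosed.dom' {A C : Set ℂ} (h : CrvClosed A C) : DomClosed C := ⟨h.exp, h.alg, h.dom⟩

theorem dcl_sub_ccl (A S : Set ℂ) : dcl (A ∪ S) ⊆ ccl A S :=
  dcl_min (subset_ccl A S) (ccl_closed A S).dom'

/-- good fields are closed -/
theorem GF.crvClosed {K : Subfield ℂ} (hK : GF K) (A : Set ℂ) : CrvClosed A (K : Set ℂ) where
  exp := hK.exp
  alg := hK.domClosed.alg
  dom := hK.domClosed.dom
  crv := fun _ _ _ hnd _ i => hK.nonDeg hnd i
  rob := fun _ _ _ _ hB hR i => hK.robust hB hR i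

theorem ccl_countable {A S : Set ℂ} (h : (A ∪ S).Countable) : (ccl A S).Countable := by
  obtain ⟨K, hK, hAK⟩ := exists_GF h
  exact hK.cnt.mono (ccl_min hAK (hK.crvClosed A))

theorem coeffs_fin {ι : Type} (P : MvPolynomial ι ℂ) : (Set.range fun α => P.coeff α).Finite := by
  classical
  refine ((P.support.finite_toSet.image fun α => P.coeff α).union
    (Set.finite_singleton (0 : ℂ))).subset ?_
  rintro _ ⟨α, rfl⟩
  by_cases h : α ∈ P.support
  · exact Or.inl ⟨α, h, rfl⟩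
  · right
    exact notMem_support_iff.1 h

/-- **reachability** -/
theorem reachC {K : Subfield ℂ} (hK : GD K) {A : Set ℂ} (hA : A ⊆ K) {w : Wt K} {B : Set ℂ}
    (hB : B ⊆ w.V) {z : ℂ} (hz : z ∈ ccl A B) : ∀ w1 : Wt K, w.Le w1 →
      ∃ w2 : Wt K, w1.Le w2 ∧ z ∈ w2.V ∧ w2.σ z ∈ ccl A (w.σ '' B) := by
  classical
  set D' := ccl A (w.σ '' B) with hD'
  have hD'c : CrvClosed A D' := ccl_closed _ _
  let C : Set ℂ := {z | ∀ w1 : Wt K, w.Le w1 → ∃ w2 : Wt K, w1.Le w2 ∧ z ∈ w2.V ∧ w2.σ z ∈ D'}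
  have hfin : ∀ I : Set ℂ, I.Finite → I ⊆ C → ∀ w1 : Wt K, w.Le w1 →
      ∃ w2 : Wt K, w1.Le w2 ∧ ∀ z ∈ I, z ∈ w2.V ∧ w2.σ z ∈ D' := by
    intro I hI
    induction I, hI using Set.Finite.induction_on with
    | empty => exact fun _ w1 _ => ⟨w1, Wt.Le.refl _, fun z hz => hz.elim⟩
    | @insert a I _ _ ih =>
      intro hIC w1 hw1
      obtain ⟨w2, h1, h2⟩ := ih ((Set.subset_insert _ _).trans hIC) w1 hw1
      obtain ⟨w3, h3, h4, h5⟩ := hIC (Set.mem_insert a I) w2 (hw1.trans h1)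
      refine ⟨w3, h1.trans h3, ?_⟩
      rintro z (rfl | hz)
      · exact ⟨h4, h5⟩
      · refine ⟨h3.1 (h2 z hz).1, ?_⟩
        rw [h3.2 z (h2 z hz).1]
        exact (h2 z hz).2
  have hVcl : ∀ (w : Wt K) (z : ℂ), z ∈ w.V → z ∈ (MK K).closure (ET w.b) ∧
      Complex.exp z ∈ (MK K).closure (ET w.b) := fun w z hz => Vs_cl hK.exp hz
  have hCc : CrvClosed A C := by
    refine ⟨?_, ?_, ?_, ?_, ?_⟩
    · intro z hz w1 hw1
      obtain ⟨w2, h1, h2, h3⟩ := hz w1 hw1
      obtain ⟨w3, h4, h5⟩ := w2.alg hK (hVcl w2 z h2).2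
      refine ⟨w3, h1.trans h4, h5, ?_⟩
      rw [w3.wc.cexp hK.exp (h4.1 h2), h4.2 z h2]
      exact hD'c.exp _ h3
    · intro z hz w1 hw1
      rw [← mem_cl] at hz
      obtain ⟨I, hI, hIf, -, hzI⟩ := Matroid.exists_mem_finite_closure_of_mem_closure hz
      obtain ⟨w2, h1, h2⟩ := hfin I hIf hI w1 hw1
      obtain ⟨w3, h4, h5⟩ := w2.alg hK (z := z)
        (cl_rat_up (fun c hc => (hVcl w2 c (h2 c hc).1).1) hzI)
      refine ⟨w3, h1.trans h4, h5, ?_⟩
      apply hD'c.alg
      rw [← mem_cl]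
      refine cl_rat_hom (θ := (w3.σ : ℂ →+* ℂ)) ?_ hzI
      intro c hc
      refine subset_cl _ ?_
      change w3.σ c ∈ D'
      rw [h4.2 c (h2 c hc).1]
      exact (h2 c hc).2
    · intro n x hx i w1 hw1
      have hI : ∀ i, ∃ I : Set ℂ, I ⊆ C ∧ I.Finite ∧
          Complex.exp (x i) ∈ (MK ℚ).closure (I ∪ range x) := by
        intro i
        have h1 := hx i
        rw [← mem_cl] at h1
        obtain ⟨I, hI, hIf, -, hzI⟩ := Matroid.exists_mem_finite_closure_of_mem_closure h1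
        refine ⟨I ∩ C, Set.inter_subset_right, hIf.inter_of_left _, ?_⟩
        refine (MK ℚ).closure_subset_closure ?_ hzI
        intro y hy
        rcases hI hy with h | h
        · exact Or.inl ⟨hy, h⟩
        · exact Or.inr h
      choose I hIC hIf hIx using hI
      obtain ⟨w2, h1, h2⟩ := hfin (⋃ i, I i) (Set.finite_iUnion hIf) (Set.iUnion_subset hIC) w1 hw1
      have hsub : ∀ i, I i ⊆ ⋃ i, I i := fun i => Set.subset_iUnion I i
      obtain ⟨w3, h4, h5⟩ := w2.dom hK x (fun i => by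
        refine cl_rat_up ?_ (hIx i)
        refine Set.union_subset ?_ (Set.subset_union_right.trans (subset_cl _))
        intro c hc
        exact (MK K).closure_subset_closure Set.subset_union_left
          (hVcl w2 c (h2 c (hsub i hc)).1).1)
      refine ⟨w3, h1.trans h4, h5 i, ?_⟩
      refine hD'c.dom n (fun i => w3.σ (x i)) (fun i => ?_) i
      rw [← mem_cl]
      have h6 := w3.wc.cexp hK.exp (h5 i)
      change w3.σ (Complex.exp (x i)) = Complex.exp (w3.σ (x i)) at h6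
      rw [← h6]
      refine cl_rat_hom (θ := (w3.σ : ℂ →+* ℂ)) ?_ (hIx i)
      rintro c (hc | ⟨l, rfl⟩)
      · refine subset_cl _ (Or.inl ?_)
        change w3.σ c ∈ D'
        rw [h4.2 c (h2 c (hsub i hc)).1]
        exact (h2 c (hsub i hc)).2
      · exact subset_cl _ (Or.inr ⟨l, rfl⟩)
    · intro n x z hnd hx i w1 hw1
      obtain ⟨P, hPC, hP0, hdet⟩ := hnd
      have hI : ∀ i, ∃ I : Set ℂ, I ⊆ C ∧ I.Finite ∧ x i ∈ (MK ℚ).closure (I ∪ {z}) := by
        intro i
        have h1 := hx i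
        rw [← mem_cl] at h1
        obtain ⟨I, hI, hIf, -, hzI⟩ := Matroid.exists_mem_finite_closure_of_mem_closure h1
        refine ⟨I ∩ C, Set.inter_subset_right, hIf.inter_of_left _, ?_⟩
        refine (MK ℚ).closure_subset_closure ?_ hzI
        intro y hy
        rcases hI hy with h | h
        · exact Or.inl ⟨hy, h⟩
        · exact Or.inr h
      choose I hIC hIf hIx using hI
      obtain ⟨w2, h1, h2⟩ := hfin ((⋃ i, I i) ∪ ⋃ i, Set.range fun α => (P i).coeff α)
        ((Set.finite_iUnion hIf).union (Set.finite_iUnion fun i => coeffs_fin _))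
        (Set.union_subset (Set.iUnion_subset hIC) (Set.iUnion_subset fun i => by
          rintro _ ⟨α, rfl⟩
          exact hPC i α)) w1 hw1
      have hsub : ∀ i, I i ⊆ (⋃ i, I i) ∪ ⋃ i, Set.range fun α => (P i).coeff α := fun i =>
        (Set.subset_iUnion I i).trans Set.subset_union_left
      have hsubP : ∀ i α, (P i).coeff α ∈ (⋃ i, I i) ∪ ⋃ i, Set.range fun α => (P i).coeff α :=
        fun i α => Or.inr (Set.mem_iUnion.2 ⟨i, α, rfl⟩)
      obtain ⟨w3, h4, h5⟩ := w2.crv hK x (z := z)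
        ⟨P, fun i α => (hVcl w2 _ (h2 _ (hsubP i α)).1).1, hP0, hdet⟩ (fun i => by
        refine cl_rat_up ?_ (hIx i)
        refine Set.union_subset ?_ (Set.subset_union_right.trans (subset_cl _))
        intro c hc
        exact (MK K).closure_subset_closure Set.subset_union_left
          (hVcl w2 c (h2 c (hsub i hc)).1).1)
      refine ⟨w3, h1.trans h4, h5 i, ?_⟩
      refine hD'c.crv n (fun i => w3.σ (x i)) (w3.σ z) ?_ (fun i => ?_) i
      · refine NonDeg.map (σ := w3.σ) (fun i => w3.wc.cexp hK.exp (h5 i)) (fun i α => ?_) hP0 hdet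
        rw [h4.2 _ (h2 _ (hsubP i α)).1]
        exact (h2 _ (hsubP i α)).2
      · rw [← mem_cl]
        refine cl_rat_hom (θ := (w3.σ : ℂ →+* ℂ)) ?_ (hIx i)
        rintro c (hc | hc)
        · refine subset_cl _ (Or.inl ?_)
          change w3.σ c ∈ D'
          rw [h4.2 c (h2 c (hsub i hc)).1]
          exact (h2 c (hsub i hc)).2
        · rw [Set.mem_singleton_iff.1 hc]
          exact subset_cl _ (Or.inr rfl)
    · intro I n x hI hIC hR i w1 hw1
      obtain ⟨w2, h1, h2⟩ := hfin I hI hIC w1 hw1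
      obtain ⟨w3, h4, h5⟩ := w2.rob hK hA (fun z hz => (h2 z hz).1) hR
      refine ⟨w3, h1.trans h4, h5 i, ?_⟩
      have h6 := hR.map (τ := w3.σ) (fun a ha => w3.wc.fix a (hA ha))
        (fun q => w3.wc.cexp hK.exp (Vs_lc h5 q))
        (fun b hb => w3.wc.cexp hK.exp (h4.1 (h2 b hb).1))
      refine hD'c.rob _ n _ (hI.image _) ?_ h6 i
      rintro _ ⟨b, hb, rfl⟩
      rw [h4.2 _ (h2 b hb).1]
      exact (h2 b hb).2
  refine hz C ?_ hCc
  rintro y (hy | hy) w1 hw1
  · refine ⟨w1, Wt.Le.refl _, Vs_base _ (hA hy), ?_⟩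
    rw [w1.wc.fix _ (hA hy)]
    exact subset_ccl _ _ (Or.inl hy)
  · refine ⟨w1, Wt.Le.refl _, hw1.1 (hB hy), ?_⟩
    rw [hw1.2 y (hB hy)]
    exact subset_ccl _ _ (Or.inr ⟨y, hy, rfl⟩)

/-- reachability of a finite set -/
theorem reachC_fin {K : Subfield ℂ} (hK : GD K) {A : Set ℂ} (hA : A ⊆ K) {w : Wt K} {B : Set ℂ}
    (hB : B ⊆ w.V) {T : Set ℂ} (hT : T.Finite) (h : T ⊆ ccl A B) :
    ∃ w1 : Wt K, w.Le w1 ∧ ∀ z ∈ T, z ∈ w1.V ∧ w1.σ z ∈ ccl A (w.σ '' B) := by
  classical
  induction T, hT using Set.Finite.induction_on with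
  | empty => exact ⟨w, Wt.Le.refl _, fun z hz => hz.elim⟩
  | @insert a I _ _ ih =>
    obtain ⟨w2, h1, h2⟩ := ih ((Set.subset_insert _ _).trans h)
    obtain ⟨w3, h3, h4, h5⟩ := reachC hK hA hB (h (Set.mem_insert a I)) w2 h1
    refine ⟨w3, h1.trans h3, ?_⟩
    rintro z (rfl | hz)
    · exact ⟨h4, h5⟩
    · refine ⟨h3.1 (h2 z hz).1, ?_⟩
      rw [h3.2 z (h2 z hz).1]
      exact (h2 z hz).2

/-- **quantifiers bounded by the closure** -/
theorem InvN.boundedC {m n : ℕ} {A : Set ℂ} (hA : A.Countable) {X : Set (Fin (m + n) → ℂ)}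
    (hX : InvN (m + n) X) (κ : Cardinal.{0}) :
    InvN m {s | κ ≤ #({x : Fin n → ℂ | (∀ i, x i ∈ ccl A (range s)) ∧
      (Fin.append s x : Fin (m + n) → ℂ) ∈ X} : Set (Fin n → ℂ))} := by
  classical
  obtain ⟨B, hB, hX⟩ := hX
  refine ⟨A ∪ B, hA.union hB, fun K hK hAK w s hs hsX => ?_⟩
  have hAK' : A ⊆ K := Set.subset_union_left.trans hAK
  have hsV : range s ⊆ w.V := by
    rintro _ ⟨i, rfl⟩
    exact hs i
  have hσs : w.σ '' range s = range fun i => w.σ (s i) := (Set.range_comp _ _).symm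
  -- finite sets of solutions
  have hfin : ∀ T : Finset (Fin n → ℂ), (T : Set (Fin n → ℂ)) ⊆
      {x : Fin n → ℂ | (∀ i, x i ∈ ccl A (range s)) ∧
        (Fin.append s x : Fin (m + n) → ℂ) ∈ X} →
      ((T.card : ℕ) : Cardinal.{0}) ≤ #({x : Fin n → ℂ |
        (∀ i, x i ∈ ccl A (range fun i => w.σ (s i))) ∧
        (Fin.append (fun i => w.σ (s i)) x : Fin (m + n) → ℂ) ∈ X} : Set (Fin n → ℂ)) := by
    intro T hT
    have hT0 : (⋃ x ∈ T, range x : Set ℂ).Finite :=
      Set.Finite.biUnion T.finite_toSet fun x _ => Set.finite_range x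
    obtain ⟨w1, h1, h2⟩ := reachC_fin hK hAK' hsV hT0 (by
      intro z hz
      simp only [Set.mem_iUnion] at hz
      obtain ⟨x, hx, i, rfl⟩ := hz
      exact (hT hx).1 i)
    rw [hσs] at h2
    have h3 : ∀ x ∈ T, ∀ i, x i ∈ w1.V ∧ w1.σ (x i) ∈ ccl A (range fun i => w.σ (s i)) := by
      intro x hx i
      apply h2
      simp only [Set.mem_iUnion]
      exact ⟨x, hx, i, rfl⟩
    have h4 : ∀ x ∈ T, (fun i => w1.σ (x i)) ∈ {x : Fin n → ℂ |
        (∀ i, x i ∈ ccl A (range fun i => w.σ (s i))) ∧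
        (Fin.append (fun i => w.σ (s i)) x : Fin (m + n) → ℂ) ∈ X} := by
      intro x hx
      refine ⟨fun i => (h3 x hx i).2, ?_⟩
      have h5 := hX K hK (Set.subset_union_right.trans hAK) w1 (Fin.append s x) (fun l => by
        refine Fin.addCases (fun i => ?_) (fun i => ?_) l
        · rw [Fin.append_left]
          exact h1.1 (hs i)
        · rw [Fin.append_right]
          exact (h3 x hx i).1) (hT hx).2
      convert h5 using 1
      funext l
      refine Fin.addCases (fun i => ?_) (fun i => ?_) l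
      · simp only [Fin.append_left]
        rw [h1.2 _ (hs i)]
      · simp only [Fin.append_right]
    let f : T → {x : Fin n → ℂ | (∀ i, x i ∈ ccl A (range fun i => w.σ (s i))) ∧
        (Fin.append (fun i => w.σ (s i)) x : Fin (m + n) → ℂ) ∈ X} :=
      fun x => ⟨_, h4 x x.2⟩
    have hf : Function.Injective f := by
      intro x y hxy
      apply Subtype.ext
      funext i
      have h6 := congrFun (congrArg Subtype.val hxy) i
      exact w1.σ.injective h6
    have h7 := Cardinal.mk_le_of_injective hf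
    rwa [Cardinal.mk_coe_finset] at h7
  simp only [Set.mem_ofPred_eq] at hsX ⊢
  by_cases hinf : {x : Fin n → ℂ | (∀ i, x i ∈ ccl A (range s)) ∧
        (Fin.append s x : Fin (m + n) → ℂ) ∈ X}.Finite
  · have h1 := hfin hinf.toFinset (by rw [Set.Finite.coe_toFinset])
    refine hsX.trans (le_trans (le_of_eq ?_) h1)
    rw [← Cardinal.mk_coe_finset]
    refine Cardinal.mk_congr (Equiv.subtypeEquivRight fun x => ?_)
    rw [Set.Finite.mem_toFinset]
  · have hcount : {x : Fin n → ℂ | (∀ i, x i ∈ ccl A (range s)) ∧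
        (Fin.append s x : Fin (m + n) → ℂ) ∈ X}.Countable := by
      have hc : (Set.pi univ fun _ : Fin n => ccl A (range s)).Countable :=
        Set.countable_univ_pi fun _ => ccl_countable (hA.union (Set.countable_range s))
      refine hc.mono ?_
      intro x hx i _
      exact hx.1 i
    refine hsX.trans ((Cardinal.le_aleph0_iff_set_countable.2 hcount).trans ?_)
    rw [Cardinal.aleph0_le]
    intro k
    obtain ⟨T, hT, hTk⟩ := Set.Infinite.exists_subset_card_eq hinf k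
    have h1 := hfin T hT
    rw [hTk] at h1
    exact h1

end Pool.Agent.V9h68
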