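import Pool.Agent.V9h68.Gs3

/-!
Lower bounds for ranks over a chain of fields.
-/

set_option autoImplicit false

open MvPolynomial Set Filter

noncomputable section

namespace Pool.Agent.V9h68

open Pool.Agent.Y776 Pool.Agent.Y685
open Pool.Agent.TH813.Rel (MK mem_cl subset_cl rk_le_of_subset_cl cl_add cl_mul cl_inv cl_of_base)

/-- monomials -/
def mon {N : ℕ} (w : Fin N → ℂ) (s : Fin N → ℤ) : ℂ := ∏ l, w l ^ s l

theorem mon_ne {N : ℕ} {w : Fin N → ℂ} (hw : ∀ l, w l ≠ 0) (s : Fin N → ℤ) : mon w s ≠ 0 :=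
  Finset.prod_ne_zero_iff.2 fun l _ => zpow_ne_zero _ (hw l)

theorem der_zpow (D : Derivation ℚ ℂ ℂ) {u v : ℂ} (hv : v ≠ 0) (h : D v = v * D u) (m : ℤ) :
    D (v ^ m) = v ^ m * ((m : ℂ) * D u) := by
  have hnat : ∀ k : ℕ, D (v ^ k) = v ^ k * ((k : ℂ) * D u) := by
    intro k
    induction k with
    | zero => simp
    | succ k ih =>
      rw [pow_succ, Derivation.leibniz, ih, h]
      simp only [smul_eq_mul]
      push_cast
      ring
  rcases m with m | m
  · simp only [Int.ofNat_eq_natCast, zpow_natCast, Int.cast_natCast]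
    exact hnat m
  · simp only [zpow_negSucc]
    have h1 := hnat (m + 1)
    rw [Derivation.leibniz_inv, h1]
    simp only [smul_eq_mul]
    have h2 : v ^ (m + 1) ≠ 0 := pow_ne_zero _ hv
    push_cast
    field_simp

theorem der_mon (D : Derivation ℚ ℂ ℂ) {N : ℕ} {z w : Fin N → ℂ} (hw : ∀ l, w l ≠ 0)
    (h : ∀ l, D (w l) = w l * D (z l)) (s : Fin N → ℤ) :
    D (mon w s) = mon w s * D (lc z fun l => (s l : ℚ)) := by
  classical
  have key : ∀ A : Finset (Fin N), D (∏ l ∈ A, w l ^ s l) =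
      (∏ l ∈ A, w l ^ s l) * ∑ l ∈ A, (s l : ℂ) * D (z l) := by
    intro A
    induction A using Finset.induction_on with
    | empty => simp
    | insert a A ha ih =>
      rw [Finset.prod_insert ha, Finset.sum_insert ha, Derivation.leibniz, ih,
        der_zpow D (hw a) (h a)]
      simp only [smul_eq_mul]
      ring
  unfold mon lc
  rw [key, map_sum]
  congr 1
  refine Finset.sum_congr rfl fun l _ => ?_
  rw [Derivation.map_smul, Rat.smul_def]
  norm_cast

/-- vectors with integral coordinates in `V'` which are a basis modulo `V` -/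
theorem exists_int_basis {N : ℕ} {V V' : Submodule ℚ (Fin N → ℚ)} (h : V ≤ V') :
    ∃ (r : ℕ) (s : Fin r → Fin N → ℤ), (∀ i, (fun l => (s i l : ℚ)) ∈ V') ∧
      (∀ c : Fin r → ℚ, (∑ i, c i • (fun l => (s i l : ℚ)) : Fin N → ℚ) ∈ V → c = 0) ∧
      Module.finrank ℚ V' = r + Module.finrank ℚ V := by
  classical
  let V₁ : Submodule ℚ V' := V.comap V'.subtype
  let vb := Module.finBasis ℚ (V' ⧸ V₁)
  have hlift : ∀ i, ∃ v : V', V₁.mkQ v = vb i := fun i => V₁.mkQ_surjective _
  choose v hv using hlift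
  choose m hm sI hsI using fun i => exists_int (v i : Fin N → ℚ)
  have hsq : ∀ i, (fun l => (sI i l : ℚ)) = (m i : ℚ) • (v i : Fin N → ℚ) := by
    intro i
    funext l
    rw [Pi.smul_apply, smul_eq_mul]
    exact (hsI i l).symm
  refine ⟨_, sI, fun i => ?_, fun c hc => ?_, ?_⟩
  · rw [hsq]
    exact V'.smul_mem _ (v i).2
  · have h1 : (∑ i, (c i * m i) • v i : V') ∈ V₁ := by
      change ((∑ i, (c i * m i) • v i : V') : Fin N → ℚ) ∈ V
      rw [AddSubmonoidClass.coe_finsetSum]
      refine (congrArg (· ∈ V) ?_).mp hc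
      refine Finset.sum_congr rfl fun i _ => ?_
      rw [hsq, smul_smul]
      rfl
    have h2 : ∑ i, (c i * m i) • vb i = 0 := by
      have h3 : V₁.mkQ (∑ i, (c i * m i) • v i) = 0 := by
        rw [Submodule.mkQ_apply, Submodule.Quotient.mk_eq_zero]
        exact h1
      rw [map_sum] at h3
      rw [← h3]
      refine Finset.sum_congr rfl fun i _ => ?_
      rw [map_smul, hv]
    have h4 := Fintype.linearIndependent_iff.1 vb.linearIndependent _ h2
    funext i
    have h5 : (m i : ℚ) ≠ 0 := by exact_mod_cast (hm i).ne'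
    exact (mul_eq_zero.1 (h4 i)).resolve_right h5
  · have h1 := V₁.finrank_quotient_add_finrank
    have h2 : Module.finrank ℚ V₁ = Module.finrank ℚ V := by
      have h3 : V₁.map V'.subtype = V := by
        rw [Submodule.map_comap_subtype, inf_eq_right.2 h]
      have h4 := LinearEquiv.finrank_eq (Submodule.equivMapOfInjective V'.subtype
        V'.injective_subtype V₁)
      rw [h4, h3]
    rw [← h2]
    exact h1.symm

/-- the relations over a field -/
def rels (L : Subfield ℂ) {N : ℕ} (z : Fin N → ℂ) : Submodule ℚ (Fin N → ℚ) where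
  carrier := {q | lc z q ∈ L}
  add_mem' := fun {q r} hq hr => by
    change lc z (q + r) ∈ L
    rw [lc_add]
    exact add_mem hq hr
  zero_mem' := by
    change lc z 0 ∈ L
    rw [lc_zero]
    exact zero_mem _
  smul_mem' := fun t q hq => by
    change lc z (t • q) ∈ L
    rw [lc_smul]
    exact SubfieldClass.qsmul_mem L t hq

theorem mem_rels {L : Subfield ℂ} {N : ℕ} {z : Fin N → ℂ} {q : Fin N → ℚ} :
    q ∈ rels L z ↔ lc z q ∈ L := Iff.rfl

theorem mon_cl {L : Subfield ℂ} {N : ℕ} {z w : Fin N → ℂ} (s : Fin N → ℤ) :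
    lc z (fun l => (s l : ℚ)) ∈ (MK L).closure (range z ∪ range w) ∧
      mon w s ∈ (MK L).closure (range z ∪ range w) := by
  constructor
  · have h : ∑ l, ((s l : ℚ)) • z l ∈ clF L (range z ∪ range w) :=
      sum_mem fun l _ => SubfieldClass.qsmul_mem _ _ (subset_cl _ (Or.inl ⟨l, rfl⟩))
    exact h
  · have h : ∏ l, w l ^ s l ∈ clF L (range z ∪ range w) :=
      prod_mem fun l _ => zpow_mem (subset_cl _ (Or.inr ⟨l, rfl⟩)) _
    exact h

/-- **Ax's theorem over a chain of fields.** -/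
theorem chain_low {N : ℕ} {z w : Fin N → ℂ} (hw : ∀ l, w l ≠ 0) {d : ℕ} {L : ℕ → Subfield ℂ}
    (hL : ∀ i, L i ≤ L (i + 1))
    (hD : ∀ i < d, ∃ D : Derivation ℚ ℂ ℂ, (∀ c ∈ L i, D c = 0) ∧ (∀ l, D (w l) = w l * D (z l)) ∧
      ∀ q, D (lc z q) = 0 → lc z q ∈ L i)
    (hexp : ∀ i < d, ∀ s : Fin N → ℤ, lc z (fun l => (s l : ℚ)) ∈ L i → mon w s ∈ L i)
    (hstr : ∀ i < d, ∃ q, lc z q ∉ L i ∧ (i + 1 < d → lc z q ∈ L (i + 1))) (hd : 0 < d) {a : ℕ}
    (ha : (MK (L 0)).eRk (range z ∪ range w) ≤ a) :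
    N + d ≤ Module.finrank ℚ (rels (L 0) z) + a := by
  classical
  -- one step
  have step : ∀ i < d, ∀ V' : Submodule ℚ (Fin N → ℚ), rels (L i) z ≤ V' →
      (∃ q ∈ V', q ∉ rels (L i) z) → ∀ T : Set ℂ,
      (∀ s : Fin N → ℤ, (fun l => (s l : ℚ)) ∈ V' → lc z (fun l => (s l : ℚ)) ∈ T ∧ mon w s ∈ T) →
      ((Module.finrank ℚ V' - Module.finrank ℚ (rels (L i) z) + 1 : ℕ) : ℕ∞) ≤
        (MK (L i)).eRk T := by
    intro i hi V' hVV hne T hT
    obtain ⟨r, s, h1, h2, h3⟩ := exists_int_basis hVV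
    obtain ⟨D, hD1, hD2, hD3⟩ := hD i hi
    have hr : 0 < r := by
      rw [Nat.pos_iff_ne_zero]
      rintro rfl
      obtain ⟨q, hq1, hq2⟩ := hne
      have h4 : rels (L i) z = V' := Submodule.eq_of_le_of_finrank_eq hVV (by omega)
      rw [h4] at hq2
      exact hq2 hq1
    have h5 := pair_ax (D := D) hr (x := fun j => lc z fun l => (s j l : ℚ))
      (y := fun j => mon w (s j)) (fun j => mon_ne hw _) (fun j => der_mon D hw hD2 _) (by
        intro q hq
        apply h2
        rw [mem_rels]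
        apply hD3
        rw [lc_sum]
        simp only [lc_smul]
        exact hq)
    have h6 : range (fun j => lc z fun l => (s j l : ℚ)) ∪ range (fun j => mon w (s j)) ⊆ T := by
      rintro _ (⟨j, rfl⟩ | ⟨j, rfl⟩)
      · exact (hT _ (h1 j)).1
      · exact (hT _ (h1 j)).2
    have h7 : Module.finrank ℚ V' - Module.finrank ℚ (rels (L i) z) + 1 = r + 1 := by omega
    rw [h7]
    refine h5.trans (((MK (Cst D)).eRk_mono h6).trans ?_)
    exact eRk_base (K := L i) (K' := Cst D)
      { toFun := fun c => ⟨c, hD1 c c.2⟩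
        map_one' := rfl
        map_mul' := fun _ _ => rfl
        map_zero' := rfl
        map_add' := fun _ _ => rfl } (fun x => rfl) _
  have key : ∀ k i : ℕ, i + k + 1 = d → ∀ a : ℕ,
      (MK (L i)).eRk (range z ∪ range w) ≤ a → N + (k + 1) ≤ Module.finrank ℚ (rels (L i) z) + a := by
    intro k
    induction k with
    | zero =>
      intro i hi a ha
      obtain ⟨q, hq, -⟩ := hstr i (by omega)
      have h1 := step i (by omega) ⊤ le_top ⟨q, Submodule.mem_top, hq⟩
        ((MK (L i)).closure (range z ∪ range w)) (fun s _ => mon_cl s)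
      rw [(MK (L i)).eRk_closure_eq, finrank_top, Module.finrank_fintype_fun_eq_card,
        Fintype.card_fin] at h1
      have h2 := h1.trans ha
      norm_cast at h2
      omega
    | succ k ih =>
      intro i hi a ha
      have hle : rels (L i) z ≤ rels (L (i + 1)) z := fun q hq => hL i hq
      obtain ⟨q, hq, hq'⟩ := hstr i (by omega)
      let W : Set ℂ := {y | ∃ s : Fin N → ℤ, (fun l => (s l : ℚ)) ∈ rels (L (i + 1)) z ∧
        (y = lc z (fun l => (s l : ℚ)) ∨ y = mon w s)}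
      have h1 := step i (by omega) (rels (L (i + 1)) z) hle ⟨q, hq' (by omega), hq⟩ W
        (fun s hs => ⟨⟨s, hs, Or.inl rfl⟩, ⟨s, hs, Or.inr rfl⟩⟩)
      have h2 : W ⊆ (MK (L i)).closure (range z ∪ range w) := by
        rintro _ ⟨s, -, (rfl | rfl)⟩
        · exact (mon_cl s).1
        · exact (mon_cl s).2
      have h3 : W ⊆ L (i + 1) := by
        rintro _ ⟨s, hs, (rfl | rfl)⟩
        · exact hs
        · exact hexp (i + 1) (by omega) s hs
      have h4 := rk_remove (hL i) h2 h3 ha h1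
      have h5 := ih (i + 1) (by omega) _ h4
      have h6 : Module.finrank ℚ (rels (L i) z) ≤ Module.finrank ℚ (rels (L (i + 1)) z) :=
        Submodule.finrank_mono hle
      have h7 : Module.finrank ℚ (rels (L (i + 1)) z) ≤ N := by
        have := (rels (L (i + 1)) z).finrank_le
        rwa [Module.finrank_fintype_fun_eq_card, Fintype.card_fin] at this
      have h8 : (Module.finrank ℚ (rels (L (i + 1)) z) - Module.finrank ℚ (rels (L i) z) + 1 : ℕ) ≤ a := by
        have h9 : (MK (L i)).eRk W ≤ a := (rk_le_of_subset_cl h2).trans ha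
        have h10 := h1.trans h9
        exact_mod_cast h10
      omega
  have h1 := key (d - 1) 0 (by omega) a ha
  omega

theorem chain_low' {N : ℕ} {z w : Fin N → ℂ} (hw : ∀ l, w l ≠ 0) {d : ℕ} {L : ℕ → Subfield ℂ}
    {K : Subfield ℂ} (hLK : L 0 = K) (hL : ∀ i, L i ≤ L (i + 1))
    (hD : ∀ i < d, ∃ D : Derivation ℚ ℂ ℂ, (∀ c ∈ L i, D c = 0) ∧ (∀ l, D (w l) = w l * D (z l)) ∧
      ∀ q, D (lc z q) = 0 → lc z q ∈ L i)
    (hexp : ∀ i < d, ∀ s : Fin N → ℤ, lc z (fun l => (s l : ℚ)) ∈ L i → mon w s ∈ L i)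
    (hstr : ∀ i < d, ∃ q, lc z q ∉ L i ∧ (i + 1 < d → lc z q ∈ L (i + 1))) (hd : 0 < d) {a : ℕ}
    (ha : (MK K).eRk (range z ∪ range w) ≤ a) :
    N + d ≤ Module.finrank ℚ (rels K z) + a := by
  subst hLK
  exact chain_low hw hL hD hexp hstr hd ha

end Pool.Agent.V9h68
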