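import Pool.Agent.V9h68.Jr
import Pool.Agent.TH735.QM.Basic

/-!
Solutions which are not nondegenerate are on an analytic curve of solutions of the same type.
-/

set_option autoImplicit false

open MvPolynomial Set Filter Topology

noncomputable section

namespace Pool.Agent.V9h68

open Pool.Agent.Y776 Pool.Agent.Y685

section Theta

variable {F : Subfield ℂ} {n : ℕ}

/-- the derivatives of `Q(x, e^x)` -/
def th (j : Fin n) (Q : MvPolynomial (Fin n ⊕ Fin n) F) : MvPolynomial (Fin n ⊕ Fin n) F :=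
  pderiv (Sum.inl j) Q + X (Sum.inr j) * pderiv (Sum.inr j) Q

theorem th_C (j : Fin n) (a : F) : th j (C a : MvPolynomial (Fin n ⊕ Fin n) F) = 0 := by
  unfold th
  rw [pderiv_C, pderiv_C, mul_zero, add_zero]

theorem th_add (j : Fin n) (P Q : MvPolynomial (Fin n ⊕ Fin n) F) :
    th j (P + Q) = th j P + th j Q := by
  unfold th
  rw [map_add, map_add]
  ring

theorem th_mul (j : Fin n) (P Q : MvPolynomial (Fin n ⊕ Fin n) F) :
    th j (P * Q) = P * th j Q + Q * th j P := by
  unfold th
  rw [Derivation.leibniz, Derivation.leibniz]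
  simp only [smul_eq_mul]
  ring

theorem th_X_inl (i j : Fin n) : th j (X (Sum.inl i) : MvPolynomial (Fin n ⊕ Fin n) F) =
    if i = j then 1 else 0 := by
  classical
  unfold th
  rw [pderiv_X, pderiv_X]
  have h1 : (Pi.single (Sum.inr j) 1 : Fin n ⊕ Fin n → MvPolynomial (Fin n ⊕ Fin n) F)
      (Sum.inl i) = 0 := Pi.single_eq_of_ne (by simp) _
  rw [h1, mul_zero, add_zero]
  by_cases h : i = j
  · rw [if_pos h, h, Pi.single_eq_same]
  · rw [if_neg h]
    exact Pi.single_eq_of_ne (fun h2 => h (Sum.inl.inj h2)) _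

theorem th_X_inr (i j : Fin n) : th j (X (Sum.inr i) : MvPolynomial (Fin n ⊕ Fin n) F) =
    if i = j then X (Sum.inr j) else 0 := by
  classical
  unfold th
  rw [pderiv_X, pderiv_X]
  have h1 : (Pi.single (Sum.inl j) 1 : Fin n ⊕ Fin n → MvPolynomial (Fin n ⊕ Fin n) F)
      (Sum.inr i) = 0 := Pi.single_eq_of_ne (by simp) _
  rw [h1, zero_add]
  by_cases h : i = j
  · rw [if_pos h, h, Pi.single_eq_same, mul_one]
  · rw [if_neg h]
    have h2 : (Pi.single (Sum.inr j) 1 : Fin n ⊕ Fin n → MvPolynomial (Fin n ⊕ Fin n) F)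
      (Sum.inr i) = 0 := Pi.single_eq_of_ne (fun h2 => h (Sum.inr.inj h2)) _
    rw [h2, mul_zero]

/-- linear forms -/
def gL (c : Fin n → ℂ) : (Fin n → ℂ) →L[ℂ] ℂ :=
  LinearMap.toContinuousLinearMap
    { toFun := fun v => ∑ j, c j * v j
      map_add' := fun v w => by
        simp only [Pi.add_apply, mul_add, Finset.sum_add_distrib]
      map_smul' := fun t v => by
        simp only [Pi.smul_apply, smul_eq_mul, RingHom.id_apply, Finset.mul_sum]
        refine Finset.sum_congr rfl fun j _ => ?_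
        ring }

theorem gL_apply (c v : Fin n → ℂ) : gL c v = ∑ j, c j * v j := rfl

/-- the derivative of `Q(x, e^x)` -/
theorem th_fderiv (Q : MvPolynomial (Fin n ⊕ Fin n) F) (x : Fin n → ℂ) :
    HasFDerivAt (fun y : Fin n → ℂ => aeval (ep y) Q)
      (gL fun j => aeval (ep x) (th j Q)) x := by
  classical
  induction Q using MvPolynomial.induction_on with
  | C a =>
    simp only [aeval_C]
    refine (hasFDerivAt_const (algebraMap F ℂ a) x).congr_fderiv ?_
    refine ContinuousLinearMap.ext fun v => ?_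
    rw [gL_apply]
    symm
    refine Finset.sum_eq_zero fun j _ => ?_
    rw [th_C, map_zero, zero_mul]
  | add p q hp hq =>
    simp only [map_add]
    refine (hp.add hq).congr_fderiv ?_
    refine ContinuousLinearMap.ext fun v => ?_
    change gL _ v + gL _ v = gL _ v
    rw [gL_apply, gL_apply, gL_apply, ← Finset.sum_add_distrib]
    refine Finset.sum_congr rfl fun j _ => ?_
    rw [th_add, map_add, add_mul]
  | mul_X p s hp =>
    have hs : HasFDerivAt (fun y : Fin n → ℂ => aeval (ep y) (X s : MvPolynomial (Fin n ⊕ Fin n) F))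
        (gL fun j => aeval (ep x) (th j (X s : MvPolynomial (Fin n ⊕ Fin n) F))) x := by
      simp only [aeval_X]
      rcases s with i | i
      · refine (hasFDerivAt_apply (𝕜 := ℂ) (F' := fun _ : Fin n => ℂ) i x).congr_fderiv ?_
        refine ContinuousLinearMap.ext fun v => ?_
        rw [gL_apply, Finset.sum_eq_single i]
        · rw [th_X_inl, if_pos rfl, map_one, one_mul]
          rfl
        · intro j _ hj
          rw [th_X_inl, if_neg hj.symm, map_zero, zero_mul]
        · intro h
          exact absurd (Finset.mem_univ _) h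
      · refine ((hasFDerivAt_apply (𝕜 := ℂ) (F' := fun _ : Fin n => ℂ) i x).cexp).congr_fderiv ?_
        refine ContinuousLinearMap.ext fun v => ?_
        rw [gL_apply, Finset.sum_eq_single i]
        · rw [th_X_inr, if_pos rfl, aeval_X]
          rfl
        · intro j _ hj
          rw [th_X_inr, if_neg hj.symm, map_zero, zero_mul]
        · intro h
          exact absurd (Finset.mem_univ _) h
    simp only [map_mul]
    refine (hp.mul hs).congr_fderiv ?_
    refine ContinuousLinearMap.ext fun v => ?_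
    change aeval (ep x) p * gL _ v + aeval (ep x) (X s) * gL _ v = gL _ v
    rw [gL_apply, gL_apply, gL_apply, Finset.mul_sum, Finset.mul_sum, ← Finset.sum_add_distrib]
    refine Finset.sum_congr rfl fun j _ => ?_
    rw [th_mul, map_add, map_mul, map_mul]
    ring

theorem th_contDiff (Q : MvPolynomial (Fin n ⊕ Fin n) F) :
    ContDiff ℂ 1 (fun y : Fin n → ℂ => aeval (ep y) Q) := by
  induction Q using MvPolynomial.induction_on with
  | C a =>
    simp only [aeval_C]
    exact contDiff_const
  | add p q hp hq =>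
    simp only [map_add]
    exact hp.add hq
  | mul_X p s hp =>
    simp only [map_mul, aeval_X]
    refine hp.mul ?_
    rcases s with i | i
    · exact contDiff_apply ℂ ℂ i
    · exact (contDiff_apply ℂ ℂ i).cexp

theorem th_deriv (Q : MvPolynomial (Fin n ⊕ Fin n) F) {γ : ℂ → Fin n → ℂ} {γ' : Fin n → ℂ} {t : ℂ}
    (h : HasDerivAt γ γ' t) : HasDerivAt (fun t => aeval (ep (γ t)) Q)
      (∑ j, aeval (ep (γ t)) (th j Q) * γ' j) t := by
  exact (th_fderiv Q (γ t)).comp_hasDerivAt t h

theorem an_comp (Q : MvPolynomial (Fin n ⊕ Fin n) F) {γ : ℂ → Fin n → ℂ} {t : ℂ}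
    (h : AnalyticAt ℂ γ t) : AnalyticAt ℂ (fun t => aeval (ep (γ t)) Q) t := by
  have hγ : ∀ j, AnalyticAt ℂ (fun t => γ t j) t := fun j =>
    ((ContinuousLinearMap.proj j : (Fin n → ℂ) →L[ℂ] ℂ).analyticAt _).comp h
  induction Q using MvPolynomial.induction_on with
  | C a =>
    simp only [aeval_C]
    exact analyticAt_const
  | add p q hp hq =>
    simp only [map_add]
    exact hp.add hq
  | mul_X p s hp =>
    simp only [map_mul, aeval_X]
    refine hp.mul ?_
    rcases s with i | i
    · exact hγ i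
    · exact (hγ i).cexp

theorem NonDeg.ofF {x : Fin n → ℂ} (Q : Fin n → MvPolynomial (Fin n ⊕ Fin n) F)
    (h0 : ∀ i, aeval (ep x) (Q i) = 0)
    (hdet : (Matrix.of fun i j => aeval (ep x) (th j (Q i))).det ≠ 0) : NonDeg F x := by
  have h2 : ∀ Q : MvPolynomial (Fin n ⊕ Fin n) F,
      eval (Sum.elim x fun i => Complex.exp (x i)) (MvPolynomial.map (algebraMap F ℂ) Q) =
        aeval (ep x) Q := by
    intro Q
    rw [eval_map]
    rfl
  refine ⟨fun i => MvPolynomial.map (algebraMap F ℂ) (Q i), fun i α => ?_, fun i => ?_, ?_⟩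
  · rw [coeff_map]
    exact ((Q i).coeff α).2
  · rw [h2, h0]
  · have h3 : (Matrix.of fun i j => eval (Sum.elim x fun i => Complex.exp (x i))
        (pderiv (Sum.inl j) (MvPolynomial.map (algebraMap F ℂ) (Q i)) + X (Sum.inr j) *
          pderiv (Sum.inr j) (MvPolynomial.map (algebraMap F ℂ) (Q i)))) =
        Matrix.of fun i j => aeval (ep x) (th j (Q i)) := by
      ext i j
      simp only [Matrix.of_apply]
      rw [pderiv_map, pderiv_map, ← h2]
      unfold th
      have h4 : (MvPolynomial.map (algebraMap F ℂ)) (pderiv (Sum.inl j) (Q i) +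
          X (Sum.inr j) * pderiv (Sum.inr j) (Q i)) =
          MvPolynomial.map (algebraMap F ℂ) (pderiv (Sum.inl j) (Q i)) + X (Sum.inr j) *
            MvPolynomial.map (algebraMap F ℂ) (pderiv (Sum.inr j) (Q i)) := by
        rw [map_add, map_mul, map_X]
      rw [h4]
    rw [h3]
    exact hdet

end Theta

/-- **an analytic curve of solutions** -/
theorem exists_leaf {F : Subfield ℂ} {n : ℕ} {x : Fin n → ℂ} (h : ¬ NonDeg F x) :
    ∃ (γ : ℂ → Fin n → ℂ) (a : Fin n), AnalyticAt ℂ γ 0 ∧ γ 0 = x ∧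
      (∀ᶠ t in 𝓝 (0 : ℂ), γ t a = x a + t) ∧
      ∀ Q : MvPolynomial (Fin n ⊕ Fin n) F, aeval (ep x) Q = 0 →
        ∀ᶠ t in 𝓝 (0 : ℂ), aeval (ep (γ t)) Q = 0 := by
  classical
  let g : MvPolynomial (Fin n ⊕ Fin n) F → Fin n → ℂ := fun Q j => aeval (ep x) (th j Q)
  let S : Set (Fin n → ℂ) := {v | ∃ Q, aeval (ep x) Q = 0 ∧ g Q = v}
  -- the span is not everything
  have hcardb : ∀ b : Set (Fin n → ℂ), Submodule.span ℂ b = ⊤ →
      LinearIndependent ℂ ((↑) : b → Fin n → ℂ) → ∃ e : Fin n ≃ b, True := by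
    intro b hb hbi
    let B := Module.Basis.mk hbi (by rw [Subtype.range_coe, hb])
    have : Fintype b := Module.Basis.fintypeIndexOfRankLtAleph0 B (Module.rank_lt_aleph0 _ _)
    have h1 := Module.finrank_eq_card_basis B
    rw [Module.finrank_fintype_fun_eq_card, Fintype.card_fin] at h1
    exact ⟨(Fintype.equivFinOfCardEq h1.symm).symm, trivial⟩
  have hL : Submodule.span ℂ S ≠ ⊤ := by
    intro htop
    obtain ⟨b, hbS, hb1, hb2⟩ := exists_linearIndependent ℂ S
    rw [htop] at hb1
    obtain ⟨e, -⟩ := hcardb b hb1 hb2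
    choose Q hQ0 hQg using fun i => hbS (e i).2
    apply h
    refine NonDeg.ofF Q hQ0 ?_
    have h1 : LinearIndependent ℂ (Matrix.of fun i j => aeval (ep x) (th j (Q i))).row := by
      have h2 := hb2.comp e e.injective
      have h3 : (Matrix.of fun i j => aeval (ep x) (th j (Q i))).row =
          ((↑) : b → Fin n → ℂ) ∘ e := by
        funext i
        exact hQg i
      rw [h3]
      exact h2
    have h2 := Matrix.linearIndependent_rows_iff_isUnit.1 h1
    exact ((Matrix.isUnit_iff_isUnit_det _).1 h2).ne_zero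
  obtain ⟨b₀, hb₀S, hb₀1, hb₀2⟩ := exists_linearIndependent ℂ S
  obtain ⟨b, hbt, hb₀b, htb, hbi⟩ := exists_linearIndepOn_id_extension
    (t := S ∪ Set.range fun a : Fin n => (Pi.single a 1 : Fin n → ℂ)) (s := b₀) (K := ℂ) hb₀2
    (hb₀S.trans Set.subset_union_left)
  have hbtop : Submodule.span ℂ b = ⊤ := by
    rw [eq_top_iff]
    intro v _
    have h1 : v = ∑ a, v a • (Pi.single a 1 : Fin n → ℂ) := by
      funext j
      rw [Finset.sum_apply, Finset.sum_eq_single j]
      · rw [Pi.smul_apply, Pi.single_eq_same, smul_eq_mul, mul_one]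
      · intro a _ ha
        rw [Pi.smul_apply, Pi.single_eq_of_ne ha.symm, smul_zero]
      · intro h
        exact absurd (Finset.mem_univ _) h
    rw [h1]
    exact sum_mem fun a _ => Submodule.smul_mem _ _ (htb (Or.inr ⟨a, rfl⟩))
  obtain ⟨e, -⟩ := hcardb b hbtop hbi
  let β : Fin n → Fin n → ℂ := fun i => (e i : Fin n → ℂ)
  have hβi : LinearIndependent ℂ β := hbi.comp e e.injective
  have hΦ : ∀ i, ∃ Φ : MvPolynomial (Fin n ⊕ Fin n) F, g Φ = β i ∧
      (β i ∈ b₀ → aeval (ep x) Φ = 0) ∧ (β i ∉ b₀ → ∃ a, Φ = X (Sum.inl a)) := by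
    intro i
    by_cases hi : β i ∈ b₀
    · obtain ⟨Q, hQ0, hQg⟩ := hb₀S hi
      exact ⟨Q, hQg, fun _ => hQ0, fun h => absurd hi h⟩
    · rcases hbt (e i).2 with h1 | ⟨a, ha⟩
      · exfalso
        -- `β i` is in the span of `b₀`
        have h2 : β i ∈ Submodule.span ℂ b₀ := by
          rw [hb₀1]
          exact Submodule.subset_span h1
        have h3 : (e i : Fin n → ℂ) ∉ Submodule.span ℂ (b \ {(e i : Fin n → ℂ)}) := by
          have h4 : insert (e i : Fin n → ℂ) (b \ {(e i : Fin n → ℂ)}) = b :=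
            Set.insert_sdiff_self_of_mem (e i).2
          have h5 : LinearIndepOn ℂ id (insert (e i : Fin n → ℂ) (b \ {(e i : Fin n → ℂ)})) := by
            rw [h4]
            exact hbi
          have h6 := h5.notMem_span_of_insert (by simp)
          rwa [Set.image_id] at h6
        apply h3
        refine Submodule.span_mono ?_ h2
        intro v hv
        refine ⟨hb₀b hv, fun h5 => hi ?_⟩
        rw [Set.mem_singleton_iff] at h5
        change (e i : Fin n → ℂ) ∈ b₀
        rw [← h5]
        exact hv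
      · refine ⟨X (Sum.inl a), ?_, fun h => absurd h hi, fun _ => ⟨a, rfl⟩⟩
        funext j
        change aeval (ep x) (th j (X (Sum.inl a))) = β i j
        have h1 : β i = Pi.single a 1 := ha.symm
        rw [h1, th_X_inl]
        by_cases haj : a = j
        · rw [if_pos haj, haj, Pi.single_eq_same, map_one]
        · rw [if_neg haj, Pi.single_eq_of_ne (Ne.symm haj), map_zero]
  choose Φ hΦg hΦ0 hΦX using hΦ
  obtain ⟨i₀, hi₀⟩ : ∃ i, β i ∉ b₀ := by
    by_contra hcon
    push Not at hcon
    apply hL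
    rw [← hb₀1, eq_top_iff, ← hbtop]
    refine Submodule.span_mono ?_
    intro v hv
    have h1 := hcon (e.symm ⟨v, hv⟩)
    simp only [β, Equiv.apply_symm_apply] at h1
    exact h1
  -- the matrix
  let N : Matrix (Fin n) (Fin n) (MvPolynomial (Fin n ⊕ Fin n) F) :=
    Matrix.of fun i j => th j (Φ i)
  let ev : MvPolynomial (Fin n ⊕ Fin n) F →+* ℂ :=
    ((aeval (ep x) : MvPolynomial (Fin n ⊕ Fin n) F →ₐ[F] ℂ) :
      MvPolynomial (Fin n ⊕ Fin n) F →+* ℂ)
  have hNβ : N.map ev = Matrix.of β := by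
    ext i j
    exact congrFun (hΦg i) j
  have hdetβ : (Matrix.of β).det ≠ 0 := by
    have h1 : LinearIndependent ℂ (Matrix.of β).row := hβi
    exact ((Matrix.isUnit_iff_isUnit_det _).1
      (Matrix.linearIndependent_rows_iff_isUnit.1 h1)).ne_zero
  have hδ : aeval (ep x) N.det ≠ 0 := by
    have h1 : aeval (ep x) N.det = (N.map ev).det := RingHom.map_det ev N
    rw [h1, hNβ]
    exact hdetβ
  let c : MvPolynomial (Fin n ⊕ Fin n) F → Fin n → MvPolynomial (Fin n ⊕ Fin n) F :=
    fun Q => Matrix.vecMul (fun j => th j Q) N.adjugate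
  have hc : ∀ Q j, ∑ i, c Q i * N i j = N.det * th j Q := by
    intro Q j
    have h1 : Matrix.vecMul (c Q) N = N.det • fun j => th j Q := by
      simp only [c]
      rw [Matrix.vecMul_vecMul, Matrix.adjugate_mul, Matrix.vecMul_smul, Matrix.vecMul_one]
    exact congrFun h1 j
  have hβtop : ⊤ ≤ Submodule.span ℂ (Set.range β) := by
    have h1 : Set.range β = b := by
      ext v
      constructor
      · rintro ⟨i, rfl⟩
        exact (e i).2
      · intro hv
        exact ⟨e.symm ⟨v, hv⟩, by simp only [β, Equiv.apply_symm_apply]⟩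
    rw [h1, hbtop]
  let B := Module.Basis.mk hβi hβtop
  have hBβ : ∀ i, B i = β i := fun i => Module.Basis.mk_apply hβi hβtop i
  have hcoord : ∀ i, B.coord i₀ (β i) = if i = i₀ then 1 else 0 := by
    intro i
    rw [← hBβ, Module.Basis.coord_apply, Module.Basis.repr_self, Finsupp.single_apply]
  have hcoord0 : ∀ v ∈ Submodule.span ℂ b₀, B.coord i₀ v = 0 := by
    intro v hv
    have h1 : Submodule.span ℂ b₀ ≤ LinearMap.ker (B.coord i₀) := by
      rw [Submodule.span_le]
      intro w hw
      have h2 : β (e.symm ⟨w, hb₀b hw⟩) = w := by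
        simp only [β, Equiv.apply_symm_apply]
      have h3 := hcoord (e.symm ⟨w, hb₀b hw⟩)
      rw [h2, if_neg] at h3
      · exact h3
      · intro h4
        apply hi₀
        rw [← h4, h2]
        exact hw
    exact h1 hv
  have hcI : ∀ Q, aeval (ep x) Q = 0 → aeval (ep x) (c Q i₀) = 0 := by
    intro Q hQ
    have h2 : g Q ∈ Submodule.span ℂ b₀ := by
      rw [hb₀1]
      exact Submodule.subset_span ⟨Q, hQ, rfl⟩
    have h3 : (aeval (ep x) N.det) • g Q = ∑ i, aeval (ep x) (c Q i) • β i := by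
      funext j
      have h4 := congrArg (aeval (ep x)) (hc Q j)
      rw [map_sum, map_mul] at h4
      rw [Pi.smul_apply, Finset.sum_apply, smul_eq_mul]
      change aeval (ep x) N.det * aeval (ep x) (th j Q) = _
      rw [← h4]
      refine Finset.sum_congr rfl fun i _ => ?_
      rw [map_mul, Pi.smul_apply, smul_eq_mul]
      congr 1
      exact congrFun (hΦg i) j
    have h4 := hcoord0 _ (Submodule.smul_mem _ (aeval (ep x) N.det) h2)
    rw [h3, map_sum, Finset.sum_eq_single i₀] at h4
    · rw [map_smul, hcoord, if_pos rfl, smul_eq_mul, mul_one] at h4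
      exact h4
    · intro i _ hi
      rw [map_smul, hcoord, if_neg hi, smul_zero]
    · intro h
      exact absurd (Finset.mem_univ _) h
  -- the inverse function theorem
  let Ψ : (Fin n → ℂ) → Fin n → ℂ := fun y i => aeval (ep y) (Φ i)
  have hΨc : ContDiffAt ℂ 1 Ψ x := (contDiff_pi.2 fun i => th_contDiff (Φ i)).contDiffAt
  let Lm : (Fin n → ℂ) →ₗ[ℂ] (Fin n → ℂ) := Matrix.toLin' (Matrix.of β)
  have hinj : Function.Injective Lm := by
    rw [← LinearMap.ker_eq_bot, LinearMap.ker_eq_bot']
    intro v hv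
    refine Matrix.eq_zero_of_mulVec_eq_zero hdetβ ?_
    rw [Matrix.toLin'_apply] at hv
    exact hv
  let fE : (Fin n → ℂ) ≃L[ℂ] (Fin n → ℂ) :=
    (LinearEquiv.ofInjectiveEndo Lm hinj).toContinuousLinearEquiv
  have hfE : ∀ v i, fE v i = ∑ j, β i j * v j := by
    intro v i
    have h1 : fE v = Lm v := congrFun (LinearEquiv.coe_ofInjectiveEndo Lm hinj) v
    rw [h1, Matrix.toLin'_apply]
    rfl
  have hΨd : HasFDerivAt Ψ (fE : (Fin n → ℂ) →L[ℂ] (Fin n → ℂ)) x := by
    rw [hasFDerivAt_pi']
    intro i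
    refine (th_fderiv (Φ i) x).congr_fderiv ?_
    refine ContinuousLinearMap.ext fun v => ?_
    rw [gL_apply]
    change _ = fE v i
    rw [hfE]
    refine Finset.sum_congr rfl fun j _ => ?_
    congr 1
    exact congrFun (hΦg i) j
  have hn1 : (1 : WithTop ℕ∞) ≠ 0 := one_ne_zero
  let γ : ℂ → Fin n → ℂ := fun t => hΨc.localInverse hΨd hn1 (Ψ x + t • Pi.single i₀ 1)
  have hγ0 : γ 0 = x := by
    simp only [γ]
    rw [zero_smul, add_zero]
    exact hΨc.localInverse_apply_image hΨd hn1
  have haff : ContDiffAt ℂ 1 (fun t : ℂ => Ψ x + t • (Pi.single i₀ 1 : Fin n → ℂ)) 0 :=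
    contDiffAt_const.add (contDiffAt_id.smul contDiffAt_const)
  have hγc : ContDiffAt ℂ 1 γ 0 := by
    have h1 : ContDiffAt ℂ 1 (hΨc.localInverse hΨd hn1)
        (Ψ x + (0 : ℂ) • (Pi.single i₀ 1 : Fin n → ℂ)) := by
      rw [zero_smul, add_zero]
      exact hΨc.to_localInverse hΨd hn1
    exact h1.comp 0 haff
  have hγd : ∀ᶠ t in 𝓝 (0 : ℂ), DifferentiableAt ℂ γ t := by
    filter_upwards [hγc.eventually (by simp)] with t ht
    exact ht.differentiableAt (by simp)
  have hγa : AnalyticAt ℂ γ 0 := Complex.analyticAt_iff_eventually_differentiableAt.2 hγd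
  have hright : ∀ᶠ t in 𝓝 (0 : ℂ), Ψ (γ t) = Ψ x + t • Pi.single i₀ 1 := by
    have h1 := (hΨc.hasStrictFDerivAt' hΨd hn1).eventually_right_inverse
    have h2 : Tendsto (fun t : ℂ => Ψ x + t • (Pi.single i₀ 1 : Fin n → ℂ)) (𝓝 0) (𝓝 (Ψ x)) := by
      have h3 := haff.continuousAt.tendsto
      rw [zero_smul, add_zero] at h3
      exact h3
    exact h2.eventually h1
  have hΓΦ : ∀ᶠ t in 𝓝 (0 : ℂ), ∀ i, aeval (ep (γ t)) (Φ i) =
      aeval (ep x) (Φ i) + if i = i₀ then t else 0 := by
    filter_upwards [hright] with t ht i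
    have h1 := congrFun ht i
    change aeval (ep (γ t)) (Φ i) = aeval (ep x) (Φ i) + t • (Pi.single i₀ 1 : Fin n → ℂ) i at h1
    rw [h1]
    by_cases hi : i = i₀
    · rw [if_pos hi, hi, Pi.single_eq_same, smul_eq_mul, mul_one]
    · rw [if_neg hi, Pi.single_eq_of_ne hi, smul_zero]
  obtain ⟨a, ha⟩ := hΦX i₀ hi₀
  have hγx : ∀ᶠ t in 𝓝 (0 : ℂ), γ t a = x a + t := by
    filter_upwards [hΓΦ] with t ht
    have h1 := ht i₀
    rw [ha, aeval_X, aeval_X, if_pos rfl] at h1
    exact h1
  -- the derivatives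
  have hder : ∀ᶠ t in 𝓝 (0 : ℂ), HasDerivAt γ (deriv γ t) t ∧ ∀ i,
      ∑ j, aeval (ep (γ t)) (th j (Φ i)) * deriv γ t j = if i = i₀ then 1 else 0 := by
    filter_upwards [hγd, eventually_eventually_nhds.2 hΓΦ] with t ht1 ht2
    refine ⟨ht1.hasDerivAt, fun i => ?_⟩
    have h1 := th_deriv (Φ i) ht1.hasDerivAt
    have h2 : HasDerivAt (fun t => aeval (ep (γ t)) (Φ i)) (if i = i₀ then 1 else 0) t := by
      have h3 : HasDerivAt (fun t : ℂ => aeval (ep x) (Φ i) + if i = i₀ then t else 0)
          (if i = i₀ then 1 else 0) t := by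
        by_cases hi : i = i₀
        · simp only [hi, if_true]
          exact (hasDerivAt_id t).const_add _
        · simp only [hi, if_false]
          exact hasDerivAt_const _ _
      refine h3.congr_of_eventuallyEq ?_
      filter_upwards [ht2] with t' ht'
      exact ht' i
    exact h1.unique h2
  have hkey : ∀ Q, ∀ᶠ t in 𝓝 (0 : ℂ), deriv (fun t => aeval (ep (γ t)) Q) t *
      aeval (ep (γ t)) N.det = aeval (ep (γ t)) (c Q i₀) := by
    intro Q
    filter_upwards [hder] with t ht
    rw [(th_deriv Q ht.1).deriv, Finset.sum_mul]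
    have h1 : ∀ j, aeval (ep (γ t)) (th j Q) * deriv γ t j * aeval (ep (γ t)) N.det =
        ∑ i, aeval (ep (γ t)) (c Q i) * (aeval (ep (γ t)) (th j (Φ i)) * deriv γ t j) := by
      intro j
      have h2 := congrArg (aeval (ep (γ t))) (hc Q j)
      rw [map_sum, map_mul] at h2
      have h3 : aeval (ep (γ t)) (th j Q) * deriv γ t j * aeval (ep (γ t)) N.det =
          (aeval (ep (γ t)) N.det * aeval (ep (γ t)) (th j Q)) * deriv γ t j := by ring
      rw [h3, ← h2, Finset.sum_mul]
      refine Finset.sum_congr rfl fun i _ => ?_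
      rw [map_mul, mul_assoc]
      rfl
    simp only [h1]
    rw [Finset.sum_comm]
    simp only [← Finset.mul_sum, ht.2]
    rw [Finset.sum_eq_single i₀]
    · rw [if_pos rfl, mul_one]
    · intro i _ hi
      rw [if_neg hi, mul_zero]
    · intro h
      exact absurd (Finset.mem_univ _) h
  have hord : ∀ (k : ℕ) (Q : MvPolynomial (Fin n ⊕ Fin n) F), aeval (ep x) Q = 0 →
      (k : ℕ∞) ≤ analyticOrderAt (fun t => aeval (ep (γ t)) Q) 0 := by
    intro k
    induction k with
    | zero => intro Q _; exact bot_le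
    | succ k ih =>
      intro Q hQ
      have hfa := an_comp Q hγa
      have hδa := an_comp N.det hγa
      have h0 : (fun t => aeval (ep (γ t)) Q) 0 = 0 := by
        simp only
        rw [hγ0, hQ]
      have h1 := (analyticOrderAt_deriv_ge_iff hfa h0 (n := k)).1 ?_
      · push_cast
        exact h1
      · have h2 : analyticOrderAt (deriv (fun t => aeval (ep (γ t)) Q) *
            fun t => aeval (ep (γ t)) N.det) 0 =
            analyticOrderAt (fun t => aeval (ep (γ t)) (c Q i₀)) 0 := by
          refine analyticOrderAt_congr ?_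
          filter_upwards [hkey Q] with t ht
          exact ht
        rw [analyticOrderAt_mul hfa.deriv hδa] at h2
        have h3 : analyticOrderAt (fun t => aeval (ep (γ t)) N.det) 0 = 0 := by
          rw [hδa.analyticOrderAt_eq_zero]
          rw [hγ0]
          exact hδ
        rw [h3, add_zero] at h2
        rw [h2]
        exact ih _ (hcI Q hQ)
  refine ⟨γ, a, hγa, hγ0, hγx, fun Q hQ => ?_⟩
  rw [← analyticOrderAt_eq_top, ENat.eq_top_iff_forall_ge]
  exact fun k => hord k Q hQ

end Pool.Agent.V9h68
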