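import Pool.Agent.V9h68.Alg

/-!
Sets which are definable in the field of complex numbers: elimination of quantifiers.
-/

set_option autoImplicit false

namespace Pool.Agent.V9h68

open Set MvPolynomial PrimeSpectrum

/-- a basic constructible condition at a ring homomorphism -/
def satB {A : Type} [CommRing A] (C : BasicConstructibleSetData A) (φ : A →+* ℂ) : Prop :=
  (∀ i, φ (C.g i) = 0) ∧ φ C.f ≠ 0

/-- a constructible condition at a ring homomorphism -/
def sat {A : Type} [CommRing A] (S : ConstructibleSetData A) (φ : A →+* ℂ) : Prop :=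
  ∃ C ∈ S, satB C φ

/-- the kernel -/
noncomputable def kr {A : Type} [CommRing A] (φ : A →+* ℂ) : PrimeSpectrum A :=
  ⟨RingHom.ker φ, RingHom.ker_isPrime φ⟩

theorem mem_kr {A : Type} [CommRing A] (φ : A →+* ℂ) (a : A) :
    a ∈ (kr φ).asIdeal ↔ φ a = 0 := RingHom.mem_ker

theorem mem_toSetB {A : Type} [CommRing A] (C : BasicConstructibleSetData A)
    (q : PrimeSpectrum A) : q ∈ C.toSet ↔ (∀ i, C.g i ∈ q.asIdeal) ∧ C.f ∉ q.asIdeal := by
  unfold BasicConstructibleSetData.toSet
  rw [Set.mem_sdiff, mem_zeroLocus, mem_zeroLocus, Set.range_subset_iff, Set.singleton_subset_iff]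
  rfl

theorem mem_toSet {A : Type} [CommRing A] (S : ConstructibleSetData A) (q : PrimeSpectrum A) :
    q ∈ S.toSet ↔ ∃ C ∈ S, (∀ i, C.g i ∈ q.asIdeal) ∧ C.f ∉ q.asIdeal := by
  unfold ConstructibleSetData.toSet
  simp only [Set.mem_iUnion, mem_toSetB, exists_prop]

theorem sat_iff {A : Type} [CommRing A] (S : ConstructibleSetData A) (φ : A →+* ℂ) :
    sat S φ ↔ kr φ ∈ S.toSet := by
  rw [mem_toSet]
  simp only [mem_kr]
  rfl

/-- prime ideals of `ℂ[X]` and points -/
theorem exists_point (q : Ideal (Polynomial ℂ)) [hq : q.IsPrime] (f : Polynomial ℂ)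
    (hf : f ∉ q) : ∃ z : ℂ, (∀ g ∈ q, g.eval z = 0) ∧ f.eval z ≠ 0 := by
  obtain ⟨p, hp⟩ := (IsPrincipalIdealRing.principal q).principal
  rw [Ideal.submodule_span_eq] at hp
  by_cases hp0 : p = 0
  · have hq0 : q = ⊥ := by rw [hp, hp0, Ideal.span_singleton_eq_bot]
    have hf0 : f ≠ 0 := by
      rintro rfl
      exact hf q.zero_mem
    by_contra hcon
    push Not at hcon
    apply hf0
    apply Polynomial.funext
    intro z
    rw [Polynomial.eval_zero]
    apply hcon z
    intro g hg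
    rw [hq0, Ideal.mem_bot] at hg
    rw [hg, Polynomial.eval_zero]
  · have hpp : Prime p := by
      rw [← Ideal.span_singleton_prime hp0, ← hp]
      exact hq
    have hdeg : p.degree ≠ 0 := by
      intro h0
      exact hpp.not_isUnit (Polynomial.isUnit_iff_degree_eq_zero.2 h0)
    obtain ⟨z, hz⟩ := IsAlgClosed.exists_root p hdeg
    refine ⟨z, ?_, ?_⟩
    · intro g hg
      rw [hp, Ideal.mem_span_singleton] at hg
      obtain ⟨h, rfl⟩ := hg
      rw [Polynomial.eval_mul, show p.eval z = 0 from hz, zero_mul]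
    · intro hfz
      apply hf
      rw [hp, Ideal.mem_span_singleton]
      have h1 : (Polynomial.X - Polynomial.C z) ∣ p := Polynomial.dvd_iff_isRoot.2 hz
      have h2 : (Polynomial.X - Polynomial.C z) ∣ f := Polynomial.dvd_iff_isRoot.2 hfz
      have h3 : p ∣ (Polynomial.X - Polynomial.C z) :=
        (hpp.irreducible.dvd_symm (Polynomial.irreducible_X_sub_C z) |> fun h => by
          exact (Polynomial.irreducible_X_sub_C z).dvd_symm hpp.irreducible h1)
      exact h3.trans h2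

/-- projections -/
theorem proj_sat {A : Type} [CommRing A] (S : ConstructibleSetData (Polynomial A)) :
    ∃ T : ConstructibleSetData A, ∀ φ : A →+* ℂ, Function.Surjective φ →
      (sat T φ ↔ ∃ z : ℂ, sat S (Polynomial.eval₂RingHom φ z)) := by
  obtain ⟨T, hT, -⟩ := ChevalleyThm.chevalley_polynomialC (⊤ : Submodule ℤ A) Submodule.mem_top S
    (fun _ _ _ _ => Submodule.mem_top)
  refine ⟨T, fun φ hφ => ?_⟩
  rw [sat_iff, ← hT]
  constructor
  · rintro ⟨q, hq, hqφ⟩
    rw [mem_toSet] at hq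
    obtain ⟨C, hC, hg, hf⟩ := hq
    set Φ : Polynomial A →+* Polynomial ℂ := Polynomial.mapRingHom φ with hΦ
    have hΦs : Function.Surjective Φ := Polynomial.map_surjective φ hφ
    have hker : RingHom.ker Φ ≤ q.asIdeal := by
      rw [hΦ, Polynomial.ker_mapRingHom, Ideal.map_le_iff_le_comap]
      have h1 : (comap Polynomial.C q).asIdeal = RingHom.ker φ := by rw [hqφ]; rfl
      rw [← h1]
      exact le_rfl
    have hprime : (q.asIdeal.map Φ).IsPrime := Ideal.map_isPrime_of_surjective hΦs hker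
    have hfq : Φ C.f ∉ q.asIdeal.map Φ := by
      intro h
      obtain ⟨a, ha, hab⟩ := (Ideal.mem_map_iff_of_surjective Φ hΦs).1 h
      apply hf
      have h1 : C.f - a ∈ q.asIdeal := hker (by rw [RingHom.mem_ker, map_sub, hab, sub_self])
      have h2 := q.asIdeal.add_mem h1 ha
      rwa [sub_add_cancel] at h2
    obtain ⟨z, hz1, hz2⟩ := exists_point (q.asIdeal.map Φ) (Φ C.f) hfq
    refine ⟨z, C, hC, ?_, ?_⟩
    · intro i
      have := hz1 _ (Ideal.mem_map_of_mem Φ (hg i))
      rw [hΦ, Polynomial.coe_mapRingHom, Polynomial.eval_map] at this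
      exact this
    · rw [hΦ, Polynomial.coe_mapRingHom, Polynomial.eval_map] at hz2
      exact hz2
  · rintro ⟨z, hz⟩
    rw [sat_iff] at hz
    refine ⟨_, hz, ?_⟩
    ext a
    show (Polynomial.eval₂RingHom φ z) (Polynomial.C a) = 0 ↔ φ a = 0
    simp

/-- constructible sets -/
def Con (n : ℕ) (X : Set (Fin n → ℂ)) : Prop :=
  ∃ (ι : Type) (_ : Finite ι) (F : ι → MvPolynomial (Fin n) ℂ) (R : Set (Set ι)),
    ∀ v, v ∈ X ↔ {i | eval v (F i) = 0} ∈ R

variable {n : ℕ}

theorem Con.compl {X : Set (Fin n → ℂ)} (hX : Con n X) : Con n Xᶜ := by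
  obtain ⟨ι, hι, F, R, h⟩ := hX
  exact ⟨ι, hι, F, Rᶜ, fun v => not_congr (h v)⟩

theorem Con.union {X Y : Set (Fin n → ℂ)} (hX : Con n X) (hY : Con n Y) : Con n (X ∪ Y) := by
  obtain ⟨ι, hι, F, R, h⟩ := hX
  obtain ⟨ι', hι', F', R', h'⟩ := hY
  refine ⟨ι ⊕ ι', inferInstance, Sum.elim F F',
    {Z | Sum.inl ⁻¹' Z ∈ R ∨ Sum.inr ⁻¹' Z ∈ R'}, fun v => ?_⟩
  exact or_congr (h v) (h' v)

theorem Con.zero (p : MvPolynomial (Fin n) ℂ) : Con n {v | eval v p = 0} :=
  ⟨Unit, inferInstance, fun _ => p, {Z | () ∈ Z}, fun _ => Iff.rfl⟩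

theorem Con.of_sat (S : ConstructibleSetData (MvPolynomial (Fin n) ℂ)) :
    Con n {v | sat S (eval v)} := by
  refine ⟨Σ C : S, Option (Fin C.1.n), inferInstance,
    fun c => match c.2 with
      | none => c.1.1.f
      | some i => c.1.1.g i,
    {Z | ∃ C : S, (∀ i, (⟨C, some i⟩ : Σ C : S, Option (Fin C.1.n)) ∈ Z) ∧
      (⟨C, none⟩ : Σ C : S, Option (Fin C.1.n)) ∉ Z}, fun v => ?_⟩
  constructor
  · rintro ⟨C, hC, h1, h2⟩
    exact ⟨⟨C, hC⟩, h1, h2⟩
  · rintro ⟨⟨C, hC⟩, h1, h2⟩
    exact ⟨C, hC, h1, h2⟩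

theorem Con.to_sat {X : Set (Fin n → ℂ)} (hX : Con n X) :
    ∃ S : ConstructibleSetData (MvPolynomial (Fin n) ℂ), ∀ v, v ∈ X ↔ sat S (eval v) := by
  classical
  obtain ⟨ι, hι, F, R, h⟩ := hX
  have : Fintype ι := Fintype.ofFinite ι
  let e := Fintype.equivFin ι
  let D : Set ι → BasicConstructibleSetData (MvPolynomial (Fin n) ℂ) := fun Z =>
    { f := ∏ i, if i ∈ Z then 1 else F i
      n := Fintype.card ι
      g := fun i => if e.symm i ∈ Z then F (e.symm i) else 0 }
  have hD : ∀ (Z : Set ι) v, satB (D Z) (eval v) ↔ {i | eval v (F i) = 0} = Z := by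
    intro Z v
    constructor
    · rintro ⟨h1, h2⟩
      ext i
      constructor
      · intro hi
        by_contra hiZ
        apply h2
        simp only [D]
        rw [map_prod]
        apply Finset.prod_eq_zero (Finset.mem_univ i)
        rw [if_neg hiZ]
        exact hi
      · intro hi
        have h3 := h1 (e i)
        simp only [D, Equiv.symm_apply_apply, if_pos hi] at h3
        exact h3
    · rintro rfl
      refine ⟨?_, ?_⟩
      · intro i
        simp only [D]
        split_ifs with h1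
        · exact h1
        · exact map_zero _
      · simp only [D]
        rw [map_prod, Finset.prod_ne_zero_iff]
        intro i _
        split_ifs with h1
        · simp
        · exact h1
  refine ⟨Finset.univ.filter (fun Z => Z ∈ R) |>.image D, fun v => ?_⟩
  rw [h]
  constructor
  · intro h1
    refine ⟨D {i | eval v (F i) = 0}, ?_, (hD _ v).2 rfl⟩
    rw [Finset.mem_image]
    exact ⟨_, by rw [Finset.mem_filter]; exact ⟨Finset.mem_univ _, h1⟩, rfl⟩
  · rintro ⟨C, hC, h1⟩
    rw [Finset.mem_image] at hC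
    obtain ⟨Z, hZ, rfl⟩ := hC
    rw [Finset.mem_filter] at hZ
    rw [(hD Z v).1 h1]
    exact hZ.2

theorem Con.proj {X : Set (Fin (n + 1) → ℂ)} (hX : Con (n + 1) X) :
    Con n {v | ∃ z : ℂ, (Fin.snoc (α := fun _ => ℂ) v z : Fin (n + 1) → ℂ) ∈ X} := by
  classical
  obtain ⟨S, hS⟩ := hX.to_sat
  let Θ : MvPolynomial (Fin (n + 1)) ℂ →+* Polynomial (MvPolynomial (Fin n) ℂ) :=
    eval₂Hom (Polynomial.C.comp C)
      (Fin.snoc (α := fun _ => Polynomial (MvPolynomial (Fin n) ℂ))
        (fun i => Polynomial.C (MvPolynomial.X i)) Polynomial.X)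
  have hΘ : ∀ (v : Fin n → ℂ) (z : ℂ), (Polynomial.eval₂RingHom (eval v) z).comp Θ =
      eval (Fin.snoc (α := fun _ => ℂ) v z) := by
    intro v z
    apply MvPolynomial.ringHom_ext
    · intro r
      simp [Θ]
    · intro i
      refine Fin.lastCases ?_ (fun i => ?_) i
      · simp [Θ]
      · simp [Θ]
  obtain ⟨T, hT⟩ := proj_sat (S.map Θ)
  have h1 : {v | ∃ z : ℂ, (Fin.snoc (α := fun _ => ℂ) v z : Fin (n + 1) → ℂ) ∈ X} =
      {v | sat T (eval v)} := by
    ext v
    have hsurj : Function.Surjective (eval v : MvPolynomial (Fin n) ℂ →+* ℂ) := fun c =>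
      ⟨C c, by simp⟩
    simp only [Set.mem_ofPred_eq]
    rw [hT _ hsurj]
    refine exists_congr fun z => ?_
    rw [hS, ← hΘ]
    constructor
    · rintro ⟨C, hC, h2, h3⟩
      refine ⟨C.map Θ, ?_, h2, h3⟩
      exact Finset.mem_image_of_mem _ hC
    · rintro ⟨C', hC', h2, h3⟩
      obtain ⟨C, hC, rfl⟩ := Finset.mem_image.1 hC'
      exact ⟨C, hC, h2, h3⟩
  rw [h1]
  exact Con.of_sat T

end Pool.Agent.V9h68
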