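import Pool.Agent.V9h68.Jump

/-!
Equations in an eigenvalue `w` of a matrix `A(s, z)` with polynomial entries and in `e^w`.
-/

set_option autoImplicit false

namespace Pool.Agent.V9h68

open Set Filter Topology Complex Metric Cardinal MvPolynomial
open Pool.Agent.TH735.QM Pool.Agent.TH735.FO Pool.Agent.TH735.BF
open scoped Matrix

section Exp

attribute [local instance] Matrix.linftyOpNormedRing Matrix.linftyOpNormedAlgebra

theorem exp_mulVec {d : ℕ} {A : Matrix (Fin d) (Fin d) ℂ} {v : Fin d → ℂ} {w : ℂ}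
    (h : A *ᵥ v = w • v) : NormedSpace.exp A *ᵥ v = Complex.exp w • v := by
  have h1 : HasSum (fun n : ℕ => ((n.factorial : ℂ)⁻¹) • A ^ n) (NormedSpace.exp A) :=
    NormedSpace.exp_series_hasSum_exp' (𝕂 := ℂ) A
  let T : Matrix (Fin d) (Fin d) ℂ →ₗ[ℂ] (Fin d → ℂ) :=
    { toFun := fun M => M *ᵥ v
      map_add' := fun M M' => Matrix.add_mulVec M M' v
      map_smul' := fun c M => Matrix.smul_mulVec c M v }
  have h2 := h1.mapL (LinearMap.toContinuousLinearMap T)
  have h3 : ∀ n : ℕ, A ^ n *ᵥ v = w ^ n • v := by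
    intro n
    induction n with
    | zero => simp
    | succ n ih =>
      rw [pow_succ, ← Matrix.mulVec_mulVec, h, Matrix.mulVec_smul, ih, smul_smul, pow_succ,
        mul_comm]
  have h4 : ∀ n : ℕ, (LinearMap.toContinuousLinearMap T) (((n.factorial : ℂ)⁻¹) • A ^ n) =
      ((n.factorial : ℂ)⁻¹ * w ^ n) • v := by
    intro n
    show ((((n.factorial : ℂ)⁻¹) • A ^ n) *ᵥ v) = _
    rw [Matrix.smul_mulVec, h3, smul_smul]
  have h5 : HasSum (fun n : ℕ => ((n.factorial : ℂ)⁻¹ * w ^ n)) (Complex.exp w) := by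
    have := NormedSpace.exp_series_hasSum_exp' (𝕂 := ℂ) w
    rw [← Complex.exp_eq_exp_ℂ] at this
    simpa [smul_eq_mul] using this
  have h6 := h5.smul_const v
  have h7 : HasSum (fun n : ℕ => ((n.factorial : ℂ)⁻¹ * w ^ n) • v) (NormedSpace.exp A *ᵥ v) := by
    have := h2
    simp only [h4] at this
    exact this
  exact h7.unique h6

end Exp

variable {m : ℕ}

/-- the matrix obtained from a polynomial in `s`, `z`, `w`, `e^z`, `e^w` by replacing `w` by `A` -/
noncomputable def pm {d : ℕ} (Q : MvPolynomial (Fin m ⊕ Fin 4) ℤ) (s : Fin m → ℂ) (z : ℂ)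
    (A : Matrix (Fin d) (Fin d) ℂ) : Matrix (Fin d) (Fin d) ℂ :=
  ∑ α ∈ Q.support, (((Q.coeff α : ℤ) : ℂ) * (∏ i, s i ^ α (Sum.inl i)) * z ^ α (Sum.inr 0) *
    (Complex.exp z) ^ α (Sum.inr 2)) • (A ^ α (Sum.inr 1) * (NormedSpace.exp A) ^ α (Sum.inr 3))

/-- the values of the variables -/
noncomputable def vl (s : Fin m → ℂ) (z w : ℂ) : Fin m ⊕ Fin 4 → ℂ :=
  Sum.elim s ![z, w, Complex.exp z, Complex.exp w]

theorem pow_mulVec {d : ℕ} {A : Matrix (Fin d) (Fin d) ℂ} {v : Fin d → ℂ} {w : ℂ}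
    (h : A *ᵥ v = w • v) (n : ℕ) : A ^ n *ᵥ v = w ^ n • v := by
  induction n with
  | zero => simp
  | succ n ih =>
    rw [pow_succ, ← Matrix.mulVec_mulVec, h, Matrix.mulVec_smul, ih, smul_smul, pow_succ,
      mul_comm]

theorem pm_mulVec {d : ℕ} (Q : MvPolynomial (Fin m ⊕ Fin 4) ℤ) (s : Fin m → ℂ) (z : ℂ)
    {A : Matrix (Fin d) (Fin d) ℂ} {v : Fin d → ℂ} {w : ℂ} (h : A *ᵥ v = w • v) :
    pm Q s z A *ᵥ v = (aeval (vl s z w) Q) • v := by
  rw [pm, Matrix.sum_mulVec, aeval_def, eval₂_eq', Finset.sum_smul]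
  refine Finset.sum_congr rfl fun α _ => ?_
  rw [Matrix.smul_mulVec, ← Matrix.mulVec_mulVec, pow_mulVec (exp_mulVec h), Matrix.mulVec_smul,
    pow_mulVec h, smul_smul, smul_smul, Fintype.prod_sum_type, Fin.prod_univ_four]
  congr 1
  simp [vl]
  ring

theorem commute_exp {d : ℕ} {A B : Matrix (Fin d) (Fin d) ℂ} (h : Commute A B) :
    Commute A (NormedSpace.exp B) := h.exp_right

theorem commute_pm {d : ℕ} (Q : MvPolynomial (Fin m ⊕ Fin 4) ℤ) (s : Fin m → ℂ) (z : ℂ)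
    {A B : Matrix (Fin d) (Fin d) ℂ} (h : Commute B A) : Commute B (pm Q s z A) := by
  refine Commute.sum_right _ _ _ fun α _ => ?_
  refine Commute.smul_right ?_ _
  exact (h.pow_right _).mul_right ((commute_exp h).pow_right _)

section Stack

variable {d N : ℕ} (a : (Fin m → ℂ) → ℂ → Matrix (Fin d) (Fin d) ℂ)
  (Q : Fin N → MvPolynomial (Fin m ⊕ Fin 4) ℤ) (H : MvPolynomial (Fin m ⊕ Fin 4) ℤ)

/-- the stack of the matrices `Q_j(A) ^ d` -/
noncomputable def St (s : Fin m → ℂ) (z : ℂ) : Matrix (Fin N × Fin d) (Fin d) ℂ :=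
  Matrix.of fun p k => ((pm (Q p.1) s z (a s z)) ^ d) p.2 k

/-- the stack of the matrices `Q_j(A) ^ d` and `H(A) ^ d` -/
noncomputable def St' (s : Fin m → ℂ) (z : ℂ) :
    Matrix ((Fin N × Fin d) ⊕ Fin d) (Fin d) ℂ :=
  Matrix.of fun p k => Sum.elim (fun p : Fin N × Fin d => ((pm (Q p.1) s z (a s z)) ^ d) p.2 k)
    (fun i => ((pm H s z (a s z)) ^ d) i k) p

theorem st_ker (s : Fin m → ℂ) (z : ℂ) (v : Fin d → ℂ) : St a Q s z *ᵥ v = 0 ↔
    ∀ j, ((pm (Q j) s z (a s z)) ^ d) *ᵥ v = 0 := by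
  constructor
  · intro h j
    funext i
    exact congrFun h (j, i)
  · intro h
    funext p
    exact congrFun (h p.1) p.2

theorem st'_ker (s : Fin m → ℂ) (z : ℂ) (v : Fin d → ℂ) : St' a Q H s z *ᵥ v = 0 ↔
    (∀ j, ((pm (Q j) s z (a s z)) ^ d) *ᵥ v = 0) ∧ ((pm H s z (a s z)) ^ d) *ᵥ v = 0 := by
  constructor
  · intro h
    refine ⟨fun j => ?_, ?_⟩
    · funext i
      exact congrFun h (Sum.inl (j, i))
    · funext i
      exact congrFun h (Sum.inr i)
  · rintro ⟨h, h'⟩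
    funext p
    rcases p with p | i
    · exact congrFun (h p.1) p.2
    · exact congrFun h' i

theorem pm_fo {a : (Fin m → ℂ) → ℂ → Matrix (Fin d) (Fin d) ℂ}
    (ha : ∀ i j, Pg (fun s z => a s z i j)) (Q : MvPolynomial (Fin m ⊕ Fin 4) ℤ) :
    MFo (fun s z => pm Q s z (a s z)) := by
  intro i j
  have h1 : ∀ s z, pm Q s z (a s z) i j = ∑ α ∈ Q.support, (((Q.coeff α : ℤ) : ℂ) *
      (∏ i, s i ^ α (Sum.inl i)) * z ^ α (Sum.inr 0) * (Complex.exp z) ^ α (Sum.inr 2)) *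
      ((a s z) ^ α (Sum.inr 1) * (NormedSpace.exp (a s z)) ^ α (Sum.inr 3)) i j := by
    intro s z
    rw [pm, Matrix.sum_apply]
    rfl
  simp only [h1]
  refine Fo.sum _ fun α _ => Fo.mul ?_ ?_
  · refine Fo.mul (Fo.mul (Fo.mul (Fo.const _) ?_) (Pg.var.fo.pow _)) (Fo.exp_var.pow _)
    exact Fo.prod _ fun i _ => (Pg.coord i).fo.pow _
  · exact MFo.mul (MFo.pow (fun i j => (ha i j).fo) _) (MFo.pow (MFo.exp ha) _) i j

theorem St_fo {a : (Fin m → ℂ) → ℂ → Matrix (Fin d) (Fin d) ℂ}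
    (ha : ∀ i j, Pg (fun s z => a s z i j)) : MFo (St a Q) :=
  fun p k => MFo.pow (pm_fo ha (Q p.1)) d p.2 k

theorem St'_fo {a : (Fin m → ℂ) → ℂ → Matrix (Fin d) (Fin d) ℂ}
    (ha : ∀ i j, Pg (fun s z => a s z i j)) : MFo (St' a Q H) := by
  rintro (p | i) k
  · exact MFo.pow (pm_fo ha (Q p.1)) d p.2 k
  · exact MFo.pow (pm_fo ha H) d i k

/-- the rank jumps if and only if there is an eigenvalue `w` with `Q_j = 0` and `H ≠ 0` -/
theorem jp_eig (s : Fin m → ℂ) (z : ℂ) : Jp (St a Q) (St' a Q H) s z ↔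
    ∃ w : ℂ, (∃ v : Fin d → ℂ, v ≠ 0 ∧ a s z *ᵥ v = w • v) ∧
      (∀ j, aeval (vl s z w) (Q j) = 0) ∧ aeval (vl s z w) H ≠ 0 := by
  -- ranks and kernels
  have hrk : Jp (St a Q) (St' a Q H) s z ↔ ∃ v, St a Q s z *ᵥ v = 0 ∧
      ((pm H s z (a s z)) ^ d) *ᵥ v ≠ 0 := by
    have h1 : LinearMap.ker (St' a Q H s z).mulVecLin ≤ LinearMap.ker (St a Q s z).mulVecLin := by
      intro v hv
      rw [LinearMap.mem_ker, Matrix.mulVecLin_apply] at hv ⊢
      rw [st_ker]
      exact ((st'_ker a Q H s z v).1 hv).1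
    have h2 := (St a Q s z).mulVecLin.finrank_range_add_finrank_ker
    have h3 := (St' a Q H s z).mulVecLin.finrank_range_add_finrank_ker
    unfold Jp Matrix.rank
    constructor
    · intro h
      have h4 : ¬ LinearMap.ker (St a Q s z).mulVecLin ≤
          LinearMap.ker (St' a Q H s z).mulVecLin := by
        intro h5
        have h6 := Submodule.finrank_mono h5
        omega
      rw [SetLike.not_le_iff_exists] at h4
      obtain ⟨v, hv, hv'⟩ := h4
      rw [LinearMap.mem_ker, Matrix.mulVecLin_apply] at hv hv'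
      refine ⟨v, hv, fun h5 => hv' ?_⟩
      rw [st'_ker]
      exact ⟨(st_ker a Q s z v).1 hv, h5⟩
    · rintro ⟨v, hv, hv'⟩
      have h4 : LinearMap.ker (St' a Q H s z).mulVecLin < LinearMap.ker (St a Q s z).mulVecLin := by
        refine lt_of_le_of_ne h1 fun h5 => hv' ?_
        have h6 : v ∈ LinearMap.ker (St' a Q H s z).mulVecLin := by
          rw [h5, LinearMap.mem_ker, Matrix.mulVecLin_apply]
          exact hv
        rw [LinearMap.mem_ker, Matrix.mulVecLin_apply] at h6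
        exact ((st'_ker a Q H s z v).1 h6).2
      have h5 := Submodule.finrank_lt_finrank_of_lt h4
      omega
  rw [hrk]
  constructor
  · rintro ⟨v, hv, hv'⟩
    have hc : Commute (a s z) (a s z) := Commute.refl _
    have hpow : ∀ (M : Matrix (Fin d) (Fin d) ℂ) (n : ℕ) (u : Fin d → ℂ),
        ((Matrix.toLin' M : Module.End ℂ (Fin d → ℂ)) ^ n) u = (M ^ n) *ᵥ u := by
      intro M n u
      rw [← Matrix.toLin'_pow, Matrix.toLin'_apply]
    have hcom : ∀ M M' : Matrix (Fin d) (Fin d) ℂ, Commute M M' →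
        Commute (Matrix.toLin' M : Module.End ℂ (Fin d → ℂ)) (Matrix.toLin' M') := by
      intro M M' h
      show Matrix.toLin' M * Matrix.toLin' M' = Matrix.toLin' M' * Matrix.toLin' M
      rw [Module.End.mul_eq_comp, Module.End.mul_eq_comp, ← Matrix.toLin'_mul,
        ← Matrix.toLin'_mul, h.eq]
    obtain ⟨w, u, hu0, hu, h1, h2⟩ := exists_eigen (V := Fin d → ℂ)
      (Matrix.toLin' (a s z)) (Matrix.toLin' (pm H s z (a s z)))
      (fun j => Matrix.toLin' (pm (Q j) s z (a s z))) (hcom _ _ (commute_pm H s z hc))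
      (fun j => hcom _ _ (commute_pm (Q j) s z hc))
      (fun j => hcom _ _ (commute_pm (Q j) s z (commute_pm H s z hc).symm)) (n := d)
      (by simp) (w := v) (fun j => by rw [hpow]; exact (st_ker a Q s z v).1 hv j)
      (by rw [hpow]; exact hv')
    rw [Matrix.toLin'_apply] at hu h2
    refine ⟨w, ⟨u, hu0, hu⟩, fun j => ?_, ?_⟩
    · have h3 := h1 j
      rw [hpow, pow_mulVec (pm_mulVec (Q j) s z hu)] at h3
      rcases smul_eq_zero.1 h3 with h4 | h4
      · exact (pow_eq_zero_iff (by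
          rintro rfl
          exact hu0 (Subsingleton.elim _ _))).1 h4
      · exact absurd h4 hu0
    · intro h3
      apply h2
      rw [pm_mulVec H s z hu, h3, zero_smul]
  · rintro ⟨w, ⟨v, hv0, hv⟩, h1, h2⟩
    have hd : 0 < d := Nat.pos_of_ne_zero (by
      rintro rfl
      exact hv0 (Subsingleton.elim _ _))
    refine ⟨v, (st_ker a Q s z v).2 fun j => ?_, ?_⟩
    · rw [pow_mulVec (pm_mulVec (Q j) s z hv), h1 j, zero_pow hd.ne', zero_smul]
    · rw [pow_mulVec (pm_mulVec H s z hv)]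
      exact smul_ne_zero (pow_ne_zero _ h2) hv0

end Stack

end Pool.Agent.V9h68
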