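import Pool.Agent.V9h68.Ec
import Pool.Agent.V9h68.Eig

/-!
The countable lists of functions and relations.
-/

set_option autoImplicit false

namespace Pool.Agent.V9h68

open Set Filter Topology Complex Metric Cardinal MvPolynomial
open Pool.Agent.TH735.QM Pool.Agent.TH735.FO Pool.Agent.TH735.BF
open scoped Matrix

instance countable_mv (σ : Type) [Countable σ] : Countable (MvPolynomial σ ℤ) := by
  rw [← Cardinal.mk_le_aleph0_iff]
  refine (MvPolynomial.cardinalMk_le_max (σ := σ) (R := ℤ)).trans ?_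
  simp

/-- the data of a system: the entries of a matrix, the equations, the inequation -/
abbrev Dt : Type := Σ m : ℕ, Σ d : ℕ, Σ N : ℕ, (Fin d → Fin d → MvPolynomial (Fin m ⊕ Fin 1) ℤ) ×
  (Fin N → MvPolynomial (Fin m ⊕ Fin 4) ℤ) × MvPolynomial (Fin m ⊕ Fin 4) ℤ

/-- the matrix -/
noncomputable def mat {m d : ℕ} (D : Fin d → Fin d → MvPolynomial (Fin m ⊕ Fin 1) ℤ)
    (s : Fin m → ℂ) (z : ℂ) : Matrix (Fin d) (Fin d) ℂ :=
  Matrix.of fun i j => aeval (Sum.elim s fun _ => z) (D i j)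

theorem mat_pg {m d : ℕ} (D : Fin d → Fin d → MvPolynomial (Fin m ⊕ Fin 1) ℤ) (i j : Fin d) :
    Pg (fun s z => mat D s z i j) := by
  have h : ∀ s z, mat D s z i j = ∑ α ∈ (D i j).support, (((D i j).coeff α : ℤ) : ℂ) *
      ((∏ i, s i ^ α (Sum.inl i)) * z ^ α (Sum.inr 0)) := by
    intro s z
    show aeval (Sum.elim s fun _ => z) (D i j) = _
    rw [aeval_def, eval₂_eq']
    refine Finset.sum_congr rfl fun α _ => ?_
    rw [Fintype.prod_sum_type]
    simp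
  simp only [h]
  exact Pg.sum _ fun α _ => (Pg.const _).mul ((Pg.prod _ fun i _ => (Pg.coord i).pow _).mul
    (Pg.var.pow _))

/-- the matrices of the system -/
noncomputable def dS (D : Dt) : (Fin D.1 → ℂ) → ℂ → Matrix (Fin D.2.2.1 × Fin D.2.1) (Fin D.2.1) ℂ :=
  St (mat D.2.2.2.1) D.2.2.2.2.1

noncomputable def dS' (D : Dt) : (Fin D.1 → ℂ) → ℂ →
    Matrix ((Fin D.2.2.1 × Fin D.2.1) ⊕ Fin D.2.1) (Fin D.2.1) ℂ :=
  St' (mat D.2.2.2.1) D.2.2.2.2.1 D.2.2.2.2.2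

theorem dS_fo (D : Dt) : MFo (dS D) := St_fo _ (mat_pg _)

theorem dS'_fo (D : Dt) : MFo (dS' D) := St'_fo _ _ (mat_pg _)

/-- the exponential polynomials -/
abbrev Fx1 : Type := Σ m : ℕ, MvPolynomial (Fin m ⊕ (Fin m ⊕ Fin 2)) ℤ

/-- the minors -/
abbrev Fx2 : Type := Σ D : Dt, Σ r : ℕ, (Fin r → Fin D.2.2.1 × Fin D.2.1) × (Fin r → Fin D.2.1)

instance : Countable Dt := inferInstance

instance : Countable Fx1 := inferInstance

instance : Countable Fx2 := inferInstance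

/-- the index set of the functions: exponential polynomials and minors -/
abbrev Fx : Type := Fx1 ⊕ Fx2

def Fm : Fx → ℕ
  | Sum.inl P => P.1
  | Sum.inr D => D.1.1

noncomputable def FF : (i : Fx) → (Fin (Fm i) → ℂ) → ℂ → ℂ
  | Sum.inl P => EPf P.2
  | Sum.inr D => Mn (dS D.1) D.2.1 D.2.2.1 D.2.2.2

theorem FF_fo (i : Fx) : Fo (FF i) := by
  rcases i with P | D
  · exact EPf_fo P.2
  · exact Mn_fo (dS_fo D.1) _ _ _

instance : Countable Fx := inferInstance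

instance : Nonempty Fx := ⟨Sum.inl ⟨0, 0⟩⟩

/-- an enumeration -/
noncomputable def en : ℕ → Fx := (exists_surjective_nat Fx).choose

theorem en_surj : Function.Surjective en := (exists_surjective_nat Fx).choose_spec

/-- the closure -/
def CL (S : Set ℂ) : Set ℂ := {z | Cl (fun k => FF (en k)) S z}

theorem CL_zero {S : Set ℂ} (i : Fx) {y : Fin (Fm i) → ℂ} {z : ℂ} (hy : ∀ a, y a ∈ CL S)
    (hne : ∃ x, FF i y x ≠ 0) (hz : FF i y z = 0) : z ∈ CL S := by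
  obtain ⟨k, rfl⟩ := en_surj i
  exact Cl.zero (k := k) hy hne hz

theorem CL_ec (S : Set ℂ) : Ec (CL S) where
  cl := fun {m} P _ hy hne _ hz => CL_zero (Sum.inl ⟨m, P⟩) hy hne hz

theorem CL_minor {S : Set ℂ} (D : Dt) (r : ℕ) (f : Fin r → Fin D.2.2.1 × Fin D.2.1)
    (g : Fin r → Fin D.2.1) {s : Fin D.1 → ℂ} {z : ℂ} (hs : ∀ a, s a ∈ CL S)
    (hz : IsZero (Mn (dS D) r f g) s z) : z ∈ CL S :=
  CL_zero (Sum.inr ⟨D, r, f, g⟩) hs hz.1 hz.2

/-- the index set of the relations -/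
abbrev Rx : Type := Unit ⊕ Unit ⊕ Unit ⊕ Dt ⊕ Dt

def Rn : Rx → ℕ
  | Sum.inl _ => 3
  | Sum.inr (Sum.inl _) => 3
  | Sum.inr (Sum.inr (Sum.inl _)) => 2
  | Sum.inr (Sum.inr (Sum.inr (Sum.inl D))) => D.1
  | Sum.inr (Sum.inr (Sum.inr (Sum.inr D))) => D.1

def RR : (j : Rx) → Set (Fin (Rn j) → ℂ)
  | Sum.inl _ => {v : Fin 3 → ℂ | v 0 + v 1 = v 2}
  | Sum.inr (Sum.inl _) => {v : Fin 3 → ℂ | v 0 * v 1 = v 2}
  | Sum.inr (Sum.inr (Sum.inl _)) => {v : Fin 2 → ℂ | Complex.exp (v 0) = v 1}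
  | Sum.inr (Sum.inr (Sum.inr (Sum.inl D))) => {s | ∃ z, Jp (dS D) (dS' D) s z}
  | Sum.inr (Sum.inr (Sum.inr (Sum.inr D))) => {s | GJp (dS D) (dS' D) s}

theorem RR_CQ (j : Rx) : CQ (Rn j) (RR j) := by
  have hc : ∀ (m : ℕ) (i : Fin m), AnalyticOnNhd ℂ (fun v : Fin m → ℂ => v i) univ :=
    fun m i v _ => (ContinuousLinearMap.proj (R := ℂ) (φ := fun _ : Fin m => ℂ) i).analyticAt v
  rcases j with _ | _ | _ | D | D
  · show CQ 3 {v : Fin 3 → ℂ | v 0 + v 1 = v 2}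
    have := CQ.zero (m := 3) (f := fun v => v 0 + v 1 - v 2)
      (((hc 3 0).add (hc 3 1)).sub (hc 3 2))
    convert this using 1
    ext v
    simp only [Set.mem_ofPred_eq, sub_eq_zero]
  · show CQ 3 {v : Fin 3 → ℂ | v 0 * v 1 = v 2}
    have := CQ.zero (m := 3) (f := fun v => v 0 * v 1 - v 2)
      (((hc 3 0).mul (hc 3 1)).sub (hc 3 2))
    convert this using 1
    ext v
    simp only [Set.mem_ofPred_eq, sub_eq_zero]
  · show CQ 2 {v : Fin 2 → ℂ | Complex.exp (v 0) = v 1}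
    have := CQ.zero (m := 2) (f := fun v => Complex.exp (v 0) - v 1)
      (((hc 2 0).cexp).sub (hc 2 1))
    convert this using 1
    ext v
    simp only [Set.mem_ofPred_eq, sub_eq_zero]
  · exact CQ_exjp (dS_fo D) (dS'_fo D)
  · exact CQ_gjp (dS_fo D) (dS'_fo D)

end Pool.Agent.V9h68
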