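import Pool.Agent.V9h68.Wn4

/-!
The closure under dominated systems.
-/

set_option autoImplicit false

open MvPolynomial Set Filter

noncomputable section

namespace Pool.Agent.V9h68

open Pool.Agent.Y776 Pool.Agent.Y685
open Pool.Agent.TH813.Rel (MK mem_cl subset_cl rk_le_of_subset_cl cl_add cl_mul cl_inv cl_of_base)

/-- sets which are closed under exponentiation, algebraic numbers, and solutions of dominated
systems -/
structure DomClosed (C : Set ℂ) : Prop where
  exp : ∀ z ∈ C, Complex.exp z ∈ C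
  alg : ∀ z : ℂ, IsAlgebraic (Algebra.adjoin ℚ C) z → z ∈ C
  dom : ∀ (n : ℕ) (x : Fin n → ℂ),
    (∀ i, IsAlgebraic (Algebra.adjoin ℚ (C ∪ range x)) (Complex.exp (x i))) → ∀ i, x i ∈ C

/-- the closure -/
def dcl (A : Set ℂ) : Set ℂ := {z | ∀ C : Set ℂ, A ⊆ C → DomClosed C → z ∈ C}

theorem subset_dcl (A : Set ℂ) : A ⊆ dcl A := fun _ hz _ hC _ => hC hz

theorem dcl_min {A C : Set ℂ} (h : A ⊆ C) (hC : DomClosed C) : dcl A ⊆ C := fun _ hz => hz C h hC

theorem dcl_closed (A : Set ℂ) : DomClosed (dcl A) where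
  exp := fun z hz C hAC hC => hC.exp z (hz C hAC hC)
  alg := fun z hz C hAC hC => by
    refine hC.alg z ?_
    rw [← mem_cl] at hz ⊢
    exact (MK ℚ).closure_subset_closure (dcl_min hAC hC) hz
  dom := fun n x hx i C hAC hC => by
    refine hC.dom n x (fun i => ?_) i
    have h1 := hx i
    rw [← mem_cl] at h1 ⊢
    exact (MK ℚ).closure_subset_closure (Set.union_subset_union_left _ (dcl_min hAC hC)) h1

theorem dcl_mono {A B : Set ℂ} (h : A ⊆ B) : dcl A ⊆ dcl B :=
  dcl_min (h.trans (subset_dcl B)) (dcl_closed B)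

theorem rat_cl {K : Subfield ℂ} (S : Set ℂ) (c : ℚ) : algebraMap ℚ ℂ c ∈ (MK K).closure S :=
  cl_of_base (k := K) S (⟨algebraMap ℚ ℂ c, by
    rw [eq_ratCast]
    exact SubfieldClass.ratCast_mem K c⟩ : K)

/-- change of the base -/
theorem cl_rat_up {K : Subfield ℂ} {S T : Set ℂ} (h : S ⊆ (MK K).closure T) :
    (MK ℚ).closure S ⊆ (MK K).closure T := fun _ hz =>
  cl_up (k := ℚ) (k' := K) (rat_cl T) h hz

theorem cl_rat_hom {θ : ℂ →+* ℂ} {S T : Set ℂ} (h : ∀ s ∈ S, θ s ∈ (MK ℚ).closure T) {z : ℂ}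
    (hz : z ∈ (MK ℚ).closure S) : θ z ∈ (MK ℚ).closure T :=
  cl_hom' (k := ℚ) (k' := ℚ) θ (fun c => by
    rw [eq_ratCast, map_ratCast, ← eq_ratCast (algebraMap ℚ ℂ)]
    exact cl_of_base (k := ℚ) T c) h hz

/-- good fields are closed -/
theorem GF.domClosed {K : Subfield ℂ} (hK : GF K) : DomClosed (K : Set ℂ) where
  exp := hK.exp
  alg := fun z hz => by
    rw [← mem_cl] at hz
    have h1 : z ∈ (MK K).closure (∅ : Set ℂ) :=
      cl_rat_up (fun w hw => cl_of_base (k := K) _ (⟨w, hw⟩ : K)) hz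
    exact cl_le_alg (K := K) (F := K) le_rfl hK.alg (Set.empty_subset _) h1
  dom := fun n x hx => by
    let U : Submodule ℚ ℂ :=
      { carrier := K
        add_mem' := K.add_mem
        zero_mem' := K.zero_mem
        smul_mem' := fun q x hx => SubfieldClass.qsmul_mem K q hx }
    obtain ⟨s, ι, h1, h2⟩ := exists_basis_mod U x
    have h2' : ∀ i, ∃ q : Fin s → ℚ, x i - lc (fun j => x (ι j)) q ∈ K := h2
    have hxcl : range x ⊆ (MK K).closure (range fun j => x (ι j)) := by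
      rintro _ ⟨i, rfl⟩
      obtain ⟨q, hq⟩ := h2' i
      have h3 : x i = (x i - lc (fun j => x (ι j)) q) + lc (fun j => x (ι j)) q := by ring
      rw [h3]
      refine cl_add (cl_of_base (k := K) _ (⟨_, hq⟩ : K)) ?_
      have h4 : ∀ j ∈ Finset.univ, q j • x (ι j) ∈ clF K (range fun j => x (ι j)) :=
        fun j _ => cl_rat _ (subset_cl _ ⟨j, rfl⟩)
      exact sum_mem h4
    have hs : s = 0 := by
      by_contra hs
      have h3 := hK.rk s (fun j => x (ι j)) (Nat.pos_of_ne_zero hs) h1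
      have h4 : ET (fun j => x (ι j)) ⊆ (MK K).closure (range fun j => x (ι j)) := by
        rintro _ (⟨j, rfl⟩ | ⟨j, rfl⟩)
        · exact subset_cl _ ⟨j, rfl⟩
        · have h5 := hx (ι j)
          rw [← mem_cl] at h5
          refine cl_rat_up ?_ h5
          exact Set.union_subset (fun w hw => cl_of_base (k := K) _ (⟨w, hw⟩ : K)) hxcl
      have h5 : (MK K).eRk (range fun j => x (ι j)) ≤ (s : ℕ) := by
        refine ((MK K).eRk_le_encard _).trans ?_
        rw [← Set.image_univ]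
        refine (Set.encard_image_le _ _).trans ?_
        rw [Set.encard_univ, ENat.card_eq_coe_fintype_card, Fintype.card_fin]
      have h6 := h3.trans ((rk_le_of_subset_cl h4).trans h5)
      norm_cast at h6
      omega
    subst hs
    intro i
    obtain ⟨q, hq⟩ := h2' i
    have h3 : lc (fun j : Fin 0 => x (ι j)) q = 0 := by
      unfold lc
      exact Finset.sum_empty
    rw [h3, sub_zero] at hq
    exact hq

theorem dcl_countable {A : Set ℂ} (hA : A.Countable) : (dcl A).Countable := by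
  obtain ⟨K, hK, hAK⟩ := exists_GF hA
  exact hK.cnt.mono (dcl_min hAK hK.domClosed)

/-- **reachability** -/
theorem reach {K : Subfield ℂ} (hK : GD K) {A : Set ℂ} (hA : A ⊆ K) {w : Wt K} {B : Set ℂ}
    (hB : B ⊆ w.V) {z : ℂ} (hz : z ∈ dcl (A ∪ B)) : ∀ w1 : Wt K, w.Le w1 →
      ∃ w2 : Wt K, w1.Le w2 ∧ z ∈ w2.V ∧ w2.σ z ∈ dcl (A ∪ w.σ '' B) := by
  classical
  set D' := dcl (A ∪ w.σ '' B) with hD'
  have hD'c : DomClosed D' := dcl_closed _
  let C : Set ℂ := {z | ∀ w1 : Wt K, w.Le w1 → ∃ w2 : Wt K, w1.Le w2 ∧ z ∈ w2.V ∧ w2.σ z ∈ D'}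
  have hfin : ∀ I : Set ℂ, I.Finite → I ⊆ C → ∀ w1 : Wt K, w.Le w1 →
      ∃ w2 : Wt K, w1.Le w2 ∧ ∀ z ∈ I, z ∈ w2.V ∧ w2.σ z ∈ D' := by
    intro I hI
    induction I, hI using Set.Finite.induction_on with
    | empty => exact fun _ w1 _ => ⟨w1, Wt.Le.refl _, fun z hz => hz.elim⟩
    | @insert a I _ _ ih =>
      intro hIC w1 hw1
      obtain ⟨w2, h1, h2⟩ := ih ((Set.subset_insert _ _).trans hIC) w1 hw1
      obtain ⟨w3, h3, h4, h5⟩ := hIC (Set.mem_insert a I) w2 (hw1.trans h1)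
      refine ⟨w3, h1.trans h3, ?_⟩
      rintro z (rfl | hz)
      · exact ⟨h4, h5⟩
      · refine ⟨h3.1 (h2 z hz).1, ?_⟩
        rw [h3.2 z (h2 z hz).1]
        exact (h2 z hz).2
  have hVcl : ∀ (w : Wt K) (z : ℂ), z ∈ w.V → z ∈ (MK K).closure (ET w.b) ∧
      Complex.exp z ∈ (MK K).closure (ET w.b) := fun w z hz => Vs_cl hK.exp hz
  have hCc : DomClosed C := by
    refine ⟨?_, ?_, ?_⟩
    · intro z hz w1 hw1
      obtain ⟨w2, h1, h2, h3⟩ := hz w1 hw1
      obtain ⟨w3, h4, h5⟩ := w2.alg hK (hVcl w2 z h2).2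
      refine ⟨w3, h1.trans h4, h5, ?_⟩
      rw [w3.wc.cexp hK.exp (h4.1 h2), h4.2 z h2]
      exact hD'c.exp _ h3
    · intro z hz w1 hw1
      rw [← mem_cl] at hz
      obtain ⟨I, hI, hIf, -, hzI⟩ := Matroid.exists_mem_finite_closure_of_mem_closure hz
      obtain ⟨w2, h1, h2⟩ := hfin I hIf hI w1 hw1
      obtain ⟨w3, h4, h5⟩ := w2.alg hK (z := z)
        (cl_rat_up (fun c hc => (hVcl w2 c (h2 c hc).1).1) hzI)
      refine ⟨w3, h1.trans h4, h5, ?_⟩
      apply hD'c.alg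
      rw [← mem_cl]
      refine cl_rat_hom (θ := (w3.σ : ℂ →+* ℂ)) ?_ hzI
      intro c hc
      refine subset_cl _ ?_
      change w3.σ c ∈ D'
      rw [h4.2 c (h2 c hc).1]
      exact (h2 c hc).2
    · intro n x hx i w1 hw1
      have hI : ∀ i, ∃ I : Set ℂ, I ⊆ C ∧ I.Finite ∧
          Complex.exp (x i) ∈ (MK ℚ).closure (I ∪ range x) := by
        intro i
        have h1 := hx i
        rw [← mem_cl] at h1
        obtain ⟨I, hI, hIf, -, hzI⟩ := Matroid.exists_mem_finite_closure_of_mem_closure h1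
        refine ⟨I ∩ C, Set.inter_subset_right, hIf.inter_of_left _, ?_⟩
        refine (MK ℚ).closure_subset_closure ?_ hzI
        intro y hy
        rcases hI hy with h | h
        · exact Or.inl ⟨hy, h⟩
        · exact Or.inr h
      choose I hIC hIf hIx using hI
      obtain ⟨w2, h1, h2⟩ := hfin (⋃ i, I i) (Set.finite_iUnion hIf) (Set.iUnion_subset hIC) w1 hw1
      have hsub : ∀ i, I i ⊆ ⋃ i, I i := fun i => Set.subset_iUnion I i
      obtain ⟨w3, h4, h5⟩ := w2.dom hK x (fun i => by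
        refine cl_rat_up ?_ (hIx i)
        refine Set.union_subset ?_ (Set.subset_union_right.trans (subset_cl _))
        intro c hc
        exact (MK K).closure_subset_closure Set.subset_union_left
          (hVcl w2 c (h2 c (hsub i hc)).1).1)
      refine ⟨w3, h1.trans h4, h5 i, ?_⟩
      refine hD'c.dom n (fun i => w3.σ (x i)) (fun i => ?_) i
      rw [← mem_cl]
      have h6 := w3.wc.cexp hK.exp (h5 i)
      change w3.σ (Complex.exp (x i)) = Complex.exp (w3.σ (x i)) at h6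
      rw [← h6]
      refine cl_rat_hom (θ := (w3.σ : ℂ →+* ℂ)) ?_ (hIx i)
      rintro c (hc | ⟨l, rfl⟩)
      · refine subset_cl _ (Or.inl ?_)
        change w3.σ c ∈ D'
        rw [h4.2 c (h2 c (hsub i hc)).1]
        exact (h2 c (hsub i hc)).2
      · exact subset_cl _ (Or.inr ⟨l, rfl⟩)
  refine hz C ?_ hCc
  rintro y (hy | hy) w1 hw1
  · refine ⟨w1, Wt.Le.refl _, Vs_base _ (hA hy), ?_⟩
    rw [w1.wc.fix _ (hA hy)]
    exact subset_dcl _ (Or.inl hy)
  · refine ⟨w1, Wt.Le.refl _, hw1.1 (hB hy), ?_⟩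
    rw [hw1.2 y (hB hy)]
    exact subset_dcl _ (Or.inr ⟨y, hy, rfl⟩)

end Pool.Agent.V9h68
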