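import Pool.Agent.V9h68.Omega
import Pool.Agent.V9h68.Bm

/-!
Transfer of solutions: exponential points which are algebraically independent over a subfield can be
moved along an embedding of the subfield.
-/

set_option autoImplicit false

namespace Pool.Agent.V9h68

open MvPolynomial

theorem transfer {K : Type} [Field K] [Algebra K ℂ] (σ : K →+* ℂ) {n : ℕ} (x : Fin n → ℂ)
    (hx : AlgebraicIndependent K x) (H : MvPolynomial (Fin n ⊕ Fin n) K)
    (hH : aeval (ep x) H ≠ 0) (G : MvPolynomial (Fin n) ℂ) (hG : G ≠ 0) :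
    ∃ x' : Fin n → ℂ, (∀ f : MvPolynomial (Fin n ⊕ Fin n) K, aeval (ep x) f = 0 →
      eval₂ σ (ep x') f = 0) ∧ eval₂ σ (ep x') H ≠ 0 ∧ eval x' G ≠ 0 := by
  rcases Nat.eq_zero_or_pos n with rfl | hn
  · refine ⟨x, ?_, ?_, ?_⟩
    · intro f hf
      rw [MvPolynomial.eq_C_of_isEmpty f] at hf ⊢
      rw [aeval_C] at hf
      rw [eval₂_C]
      rw [FaithfulSMul.algebraMap_eq_zero_iff K ℂ] at hf
      rw [hf, map_zero]
    · intro h
      apply hH
      rw [MvPolynomial.eq_C_of_isEmpty H] at h ⊢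
      rw [eval₂_C] at h
      rw [aeval_C, (map_eq_zero σ).1 h, map_zero]
    · intro h
      apply hG
      rw [MvPolynomial.eq_C_of_isEmpty G] at h ⊢
      rw [eval_C] at h
      rw [h, map_zero]
  obtain ⟨ι, h1, h2⟩ := exists_embedding (Ω := Om) om_indep σ x hx
  set ψ : MvPolynomial (Fin n ⊕ Fin n) ℂ →ₐ[ℂ] Om :=
    aeval (Sum.elim (fun i => om (x i)) (fun i => ι (Complex.exp (x i)))) with hψ
  -- compatibility
  have hcomp : ∀ f : MvPolynomial (Fin n ⊕ Fin n) K, ψ (map σ f) = ι (aeval (ep x) f) := by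
    intro f
    rw [hψ, aeval_def, eval₂_map, aeval_def, eval₂_comp_left]
    congr 1
    · ext k
      simp [h2]
    · funext v
      rcases v with i | i
      · simp [ep, h1]
      · simp [ep]
  set P : Ideal (MvPolynomial (Fin n ⊕ Fin n) ℂ) := RingHom.ker ψ with hP
  have hPp : P.IsPrime := RingHom.ker_isPrime _
  have hY : ∀ j, (X (Sum.inr j) : MvPolynomial (Fin n ⊕ Fin n) ℂ) ∉ P := by
    intro j hj
    rw [hP, RingHom.mem_ker, hψ, aeval_X, Sum.elim_inr, map_eq_zero] at hj
    exact Complex.exp_ne_zero _ hj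
  have hXr : ∀ f : MvPolynomial (Fin n) ℂ, rename Sum.inl f ∈ P → f = 0 := by
    intro f hf
    rw [hP, RingHom.mem_ker, hψ, aeval_rename] at hf
    have h3 : AlgebraicIndependent ℂ (fun i => om (x i)) := om_indep.comp x hx.injective
    exact (map_eq_zero_iff _ h3).1 hf
  have hHP : map σ H * rename Sum.inl G ∉ P := by
    intro h
    rcases hPp.mem_or_mem h with h | h
    · rw [hP, RingHom.mem_ker, hcomp, map_eq_zero] at h
      exact hH h
    · exact hG (hXr G h)
  obtain ⟨z, hz, hz'⟩ := bm hn P hPp hY hXr _ hHP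
  rw [map_mul] at hz'
  refine ⟨z, ?_, ?_, ?_⟩
  · intro f hf
    rw [eval₂_eq_eval_map]
    apply hz
    rw [hP, RingHom.mem_ker, hcomp, hf, map_zero]
  · rw [eval₂_eq_eval_map]
    exact left_ne_zero_of_mul hz'
  · have := right_ne_zero_of_mul hz'
    rw [eval_rename] at this
    exact this

end Pool.Agent.V9h68
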