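import Pool.Agent.V9h68.Dat
import Pool.Agent.V9h68.Tr

/-!
Systems in two unknowns.
-/

set_option autoImplicit false

namespace Pool.Agent.V9h68

open Set Filter Topology Complex Metric Cardinal MvPolynomial
open Pool.Agent.TH735.QM Pool.Agent.TH735.FO Pool.Agent.TH735.BF
open scoped Matrix

section Sol

variable {k N n : ℕ} (F : Fin N → MvPolynomial (Fin k ⊕ (Fin n ⊕ Fin n)) ℤ)
  (R : Set (Set (Fin N)))

/-- the equations which hold at `x` -/
def pat (v : Fin k → ℂ) (x : Fin n → ℂ) : Set (Fin N) :=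
  {j | aeval (Sum.elim v (ep x)) (F j) = 0}

/-- the solutions -/
def Sol (v : Fin k → ℂ) : Set (Fin n → ℂ) := {x | pat F v x ∈ R}

end Sol

section Fwd

variable {K : Subfield ℂ} {k N n : ℕ}

theorem aeval_sp (v : Fin k → K) (y : Fin n ⊕ Fin n → ℂ)
    (F : MvPolynomial (Fin k ⊕ (Fin n ⊕ Fin n)) ℤ) :
    aeval y (sp v F) = aeval (Sum.elim (fun i => (v i : ℂ)) y) F := by
  rw [aeval_def, aeval_def]
  exact eval_sp v (algebraMap K ℂ) y F

theorem eval₂_sp (φ : K →+* ℂ) (v : Fin k → K) (y : Fin n ⊕ Fin n → ℂ)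
    (F : MvPolynomial (Fin k ⊕ (Fin n ⊕ Fin n)) ℤ) :
    eval₂ φ y (sp v F) = aeval (Sum.elim (fun i => φ (v i)) y) F := by
  rw [aeval_def]
  exact eval_sp v φ y F

/-- solutions in the field -/
theorem sol_inner (φ : K →+* ℂ) (hexp : ∀ a b : K, Complex.exp a = b → Complex.exp (φ a) = φ b)
    (F : Fin N → MvPolynomial (Fin k ⊕ (Fin n ⊕ Fin n)) ℤ) (R : Set (Set (Fin N)))
    (v : Fin k → K) (x : Fin n → K) (y : Fin n → K) (hy : ∀ i, Complex.exp (x i) = y i)
    (hx : (fun i => (x i : ℂ)) ∈ Sol F R (fun i => (v i : ℂ))) :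
    (fun i => φ (x i)) ∈ Sol F R (fun i => φ (v i)) := by
  have h1 : pat F (fun i => (v i : ℂ)) (fun i => (x i : ℂ)) =
      pat F (fun i => φ (v i)) (fun i => φ (x i)) := by
    ext j
    have h2 : (Sum.elim (fun i => (v i : ℂ)) (ep fun i => (x i : ℂ))) =
        fun a => algebraMap K ℂ (Sum.elim v (Sum.elim x y) a) := by
      funext a
      rcases a with a | a | a
      · rfl
      · rfl
      · exact hy a
    have h3 : (Sum.elim (fun i => φ (v i)) (ep fun i => φ (x i))) =
        fun a => φ (Sum.elim v (Sum.elim x y) a) := by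
      funext a
      rcases a with a | a | a
      · rfl
      · rfl
      · exact hexp _ _ (hy a)
    have h4 : ∀ ψ : K →+* ℂ, aeval (fun a => ψ (Sum.elim v (Sum.elim x y) a)) (F j) =
        ψ (aeval (Sum.elim v (Sum.elim x y)) (F j)) := by
      intro ψ
      rw [aeval_def, aeval_def, eval₂_comp_left]
      congr 1
      exact RingHom.ext_int _ _
    simp only [pat, Set.mem_ofPred_eq]
    rw [h2, h3, h4, h4, map_eq_zero (algebraMap K ℂ), map_eq_zero φ]
  show pat F _ _ ∈ R
  rw [← h1]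
  exact hx

/-- algebraically independent solutions -/
theorem sol_indep (φ : K →+* ℂ) (F : Fin N → MvPolynomial (Fin k ⊕ (Fin n ⊕ Fin n)) ℤ)
    (R : Set (Set (Fin N))) (v : Fin k → K) (x : Fin n → ℂ)
    (hx : x ∈ Sol F R (fun i => (v i : ℂ))) (hind : AlgebraicIndependent K x)
    (G : MvPolynomial (Fin n) ℂ) (hG : G ≠ 0) :
    ∃ x' ∈ Sol F R (fun i => φ (v i)), eval x' G ≠ 0 := by
  classical
  set Z := pat F (fun i => (v i : ℂ)) x with hZ
  set H : MvPolynomial (Fin n ⊕ Fin n) K := ∏ j, if j ∈ Z then 1 else sp v (F j) with hH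
  have hH0 : aeval (ep x) H ≠ 0 := by
    rw [hH, map_prod, Finset.prod_ne_zero_iff]
    intro j _
    split_ifs with hj
    · simp
    · rw [aeval_sp]
      exact hj
  obtain ⟨x', h1, h2, h3⟩ := transfer φ x hind H hH0 G hG
  refine ⟨x', ?_, h3⟩
  have h4 : pat F (fun i => φ (v i)) x' = Z := by
    ext j
    constructor
    · intro hj
      by_contra hjZ
      apply h2
      rw [hH, eval₂_eq_eval_map, map_prod, map_prod]
      apply Finset.prod_eq_zero (Finset.mem_univ j)
      rw [if_neg hjZ, ← eval₂_eq_eval_map, eval₂_sp]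
      exact hj
    · intro hj
      have h5 : aeval (ep x) (sp v (F j)) = 0 := by
        rw [aeval_sp]
        exact hj
      have h6 := h1 _ h5
      rw [eval₂_sp] at h6
      exact h6
  show pat F _ _ ∈ R
  rw [h4]
  exact hx

end Fwd

section CaseB

variable {k N : ℕ}

/-- the substitution -/
noncomputable def sb (K : Type) [Field K] (c : ℕ) : Fin 2 ⊕ Fin 2 → MvPolynomial (Fin 4) K :=
  Sum.elim ![X 0 + C (c : K) * X 1, X 1] ![X 2 * X 3 ^ c, X 3]

/-- the point -/
noncomputable def pt (c : ℕ) (z w : ℂ) : Fin 2 → ℂ := ![z + c * w, w]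

theorem eval₂_sb {K : Type} [Field K] (φ : K →+* ℂ) (c : ℕ) (z w : ℂ)
    (P : MvPolynomial (Fin 2 ⊕ Fin 2) K) :
    eval₂ φ ![z, w, Complex.exp z, Complex.exp w] (aeval (sb K c) P) =
      eval₂ φ (ep (pt c z w)) P := by
  have h1 : (eval₂Hom φ ![z, w, Complex.exp z, Complex.exp w]).comp
      ((aeval (sb K c) : MvPolynomial (Fin 2 ⊕ Fin 2) K →ₐ[K] MvPolynomial (Fin 4) K) :
        MvPolynomial (Fin 2 ⊕ Fin 2) K →+* MvPolynomial (Fin 4) K) =
      eval₂Hom φ (ep (pt c z w)) := by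
    apply MvPolynomial.ringHom_ext
    · intro r
      simp
    · intro v
      rcases v with i | i <;> fin_cases i
      · simp [sb, ep, pt]
      · simp [sb, ep, pt]
      · simp [sb, ep, pt, Complex.exp_add, Complex.exp_nat_mul]
      · simp [sb, ep, pt]
  exact congrArg (fun ψ : MvPolynomial (Fin 2 ⊕ Fin 2) K →+* ℂ => ψ P) h1

/-- the generic step for solutions on a curve -/
theorem sol_curve {S : Set ℂ} {K : Subfield ℂ} (hK : ∀ a, a ∈ K ↔ a ∈ CL S) (φ : K →+* ℂ)
    (hgg : ∀ (D : Dt) (s : Fin D.1 → K), GJp (dS D) (dS' D) (fun a => (s a : ℂ)) →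
      GJp (dS D) (dS' D) (fun a => φ (s a)))
    (F : Fin N → MvPolynomial (Fin k ⊕ (Fin 2 ⊕ Fin 2)) ℤ) (R : Set (Set (Fin N)))
    (v : Fin k → K) (x : Fin 2 → ℂ) (hx : x ∈ Sol F R (fun i => (v i : ℂ)))
    (hind : ¬ AlgebraicIndependent K x) (hxS : ¬ ∀ i, x i ∈ K) :
    (Sol F R (fun i => φ (v i))).Infinite := by
  classical
  obtain ⟨c, q, hq, hq0⟩ := noether x hind
  set z := x 0 - c * x 1 with hz
  set w := x 1 with hw
  have hxpt : x = pt c z w := by
    funext i
    fin_cases i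
    · simp [pt, hz, hw]
    · simp [pt, hw]
  set ez : Polynomial K →+* ℂ := (Polynomial.aeval z : Polynomial K →ₐ[K] ℂ).toRingHom with hez
  obtain ⟨d, hd⟩ : ∃ d, q.natDegree = d + 1 := by
    refine ⟨q.natDegree - 1, ?_⟩
    have : q.natDegree ≠ 0 := by
      intro h0
      have h1 : q = 1 := hq.natDegree_eq_zero.1 h0
      rw [h1, Polynomial.map_one, Polynomial.eval_one] at hq0
      exact one_ne_zero hq0
    omega
  -- the equation of `w`
  have heq : w ^ (d + 1) + ∑ i : Fin (d + 1), ez (q.coeff i) * w ^ (i : ℕ) = 0 := by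
    have h1 : (q.map ez).natDegree = d + 1 := by
      rw [hq.natDegree_map, hd]
    rw [Polynomial.eval_eq_sum_range, h1, Finset.sum_range_succ] at hq0
    have h2 : (q.map ez).coeff (d + 1) = 1 := by
      have := (hq.map ez).coeff_natDegree
      rwa [h1] at this
    rw [h2, one_mul] at hq0
    rw [Fin.sum_univ_eq_sum_range (fun i => ez (q.coeff i) * w ^ i)]
    simp only [Polynomial.coeff_map] at hq0
    rw [add_comm]
    exact hq0
  -- the entries
  set e : Fin (d + 1) → Fin (d + 1) → Polynomial K := fun i j =>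
    if i = Fin.last d then - q.coeff j else if (j : ℕ) = i + 1 then 1 else 0 with he
  set E : Fin (d + 1) → Fin (d + 1) → MvPolynomial (Fin 1) K := fun i j =>
    Polynomial.aeval (X 0) (e i j) with hE
  have hEe : ∀ (ψ : K →+* ℂ) (z' : ℂ) i j, eval₂ ψ (fun _ => z') (E i j) =
      (e i j).eval₂ ψ z' := by
    intro ψ z' i j
    have h1 : (eval₂Hom ψ (fun _ : Fin 1 => z')).comp
        ((Polynomial.aeval (X 0 : MvPolynomial (Fin 1) K) : Polynomial K →ₐ[K] _) :
          Polynomial K →+* MvPolynomial (Fin 1) K) = Polynomial.eval₂RingHom ψ z' := by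
      apply Polynomial.ringHom_ext
      · intro a
        simp
      · simp
    exact congrArg (fun θ : Polynomial K →+* ℂ => θ (e i j)) h1
  -- the equations
  set Z := pat F (fun i => (v i : ℂ)) x with hZ
  set Q : Fin N → MvPolynomial (Fin 4) K := fun j => aeval (sb K c) (sp v (F j)) with hQ
  set Q' : Fin N → MvPolynomial (Fin 4) K := fun j => if j ∈ Z then Q j else 0 with hQ'
  set H : MvPolynomial (Fin 4) K := ∏ j, if j ∈ Z then 1 else Q j with hH
  -- the parameters
  obtain ⟨m, p, hp⟩ := exists_params (K := K)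
    (ι := (Fin (d + 1) × Fin (d + 1)) ⊕ (Fin N ⊕ Unit))
    (Sum.elim (fun ij => Set.range fun α => (E ij.1 ij.2).coeff α)
      (Sum.elim (fun j => Set.range fun α => (Q' j).coeff α) fun _ => Set.range fun α => H.coeff α))
    (by
      rintro (ij | j | _)
      · exact coeffs_finite _
      · exact coeffs_finite _
      · exact coeffs_finite _)
  have hD : ∀ i j, ∃ D : MvPolynomial (Fin m ⊕ Fin 1) ℤ, sp p D = E i j := fun i j =>
    spread p _ fun α => hp (Sum.inl (i, j)) _ ⟨α, rfl⟩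
  have hQs : ∀ j, ∃ D : MvPolynomial (Fin m ⊕ Fin 4) ℤ, sp p D = Q' j := fun j =>
    spread p _ fun α => hp (Sum.inr (Sum.inl j)) _ ⟨α, rfl⟩
  have hHs : ∃ D : MvPolynomial (Fin m ⊕ Fin 4) ℤ, sp p D = H :=
    spread p _ fun α => hp (Sum.inr (Sum.inr ())) _ ⟨α, rfl⟩
  choose DE hDE using hD
  choose DQ hDQ using hQs
  obtain ⟨DH, hDH⟩ := hHs
  let D : Dt := ⟨m, d + 1, N, DE, DQ, DH⟩
  -- evaluation
  have ev1 : ∀ (ψ : K →+* ℂ) (z' : ℂ) i j, mat DE (fun a => ψ (p a)) z' i j =
      (e i j).eval₂ ψ z' := by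
    intro ψ z' i j
    show aeval (Sum.elim (fun a => ψ (p a)) fun _ => z') (DE i j) = _
    rw [← hEe, ← hDE, eval_sp, aeval_def]
    rfl
  have ev2 : ∀ (ψ : K →+* ℂ) (z' w' : ℂ) (G : MvPolynomial (Fin m ⊕ Fin 4) ℤ),
      aeval (vl (fun a => ψ (p a)) z' w') G =
        eval₂ ψ ![z', w', Complex.exp z', Complex.exp w'] (sp p G) := by
    intro ψ z' w' G
    rw [eval_sp, aeval_def]
    rfl
  have evQ : ∀ (ψ : K →+* ℂ) (z' w' : ℂ) (j : Fin N),
      eval₂ ψ ![z', w', Complex.exp z', Complex.exp w'] (Q j) =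
        aeval (Sum.elim (fun i => ψ (v i)) (ep (pt c z' w'))) (F j) := by
    intro ψ z' w' j
    rw [hQ]
    simp only
    rw [eval₂_sb, eval₂_sp]
  have ev1' : ∀ (z' : ℂ) i j, mat DE (fun a => (p a : ℂ)) z' i j =
      (e i j).eval₂ (algebraMap K ℂ) z' := ev1 (algebraMap K ℂ)
  have ev2' : ∀ (z' w' : ℂ) (G : MvPolynomial (Fin m ⊕ Fin 4) ℤ),
      aeval (vl (fun a => (p a : ℂ)) z' w') G =
        eval₂ (algebraMap K ℂ) ![z', w', Complex.exp z', Complex.exp w'] (sp p G) :=
    ev2 (algebraMap K ℂ)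
  -- the point itself
  have hjp : Jp (dS D) (dS' D) (fun a => (p a : ℂ)) z := by
    refine (jp_eig (mat DE) DQ DH _ _).2 ⟨w, ⟨fun i => w ^ (i : ℕ), ?_, ?_⟩, ?_, ?_⟩
    · intro h0
      have := congrFun h0 0
      simp at this
    · have h1 := companion (fun i => ez (q.coeff i)) w heq
      convert h1 using 2
      ext i j
      rw [ev1' z i j]
      simp only [he, Matrix.of_apply]
      split_ifs
      · rw [Polynomial.eval₂_neg]
        rfl
      · simp
      · simp
    · intro j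
      rw [ev2', hDQ, hQ']
      simp only
      split_ifs with hj
      · rw [evQ, ← hxpt]
        exact hj
      · simp
    · rw [ev2', hDH, hH, eval₂_eq_eval_map, map_prod, map_prod,
        Finset.prod_ne_zero_iff]
      intro j _
      split_ifs with hj
      · simp
      · rw [← eval₂_eq_eval_map, evQ, ← hxpt]
        exact hj
  -- it is generic
  have hgj : GJp (dS D) (dS' D) (fun a => (p a : ℂ)) := by
    rcases jp_cases hjp with h | ⟨r, f, g, h⟩
    · exact h
    · exfalso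
      apply hxS
      have hzM : z ∈ K := (hK z).2 (CL_minor D r f g (fun a => (hK _).1 (p a).2) h)
      have hwM : w ∈ K := by
        rw [hK]
        refine (CL_ec S).alg_mem (n := d + 1 + 1)
          (fun i => if h : (i : ℕ) < d + 1 then ez (q.coeff i) else 1) ?_ ⟨Fin.last _, ?_⟩ ?_
        · intro i
          split_ifs
          · have : ez (q.coeff i) = ((q.coeff i).eval ⟨z, hzM⟩ : K) := by
              show Polynomial.aeval z (q.coeff i) = _
              exact (Polynomial.aeval_algebraMap_apply ℂ (⟨z, hzM⟩ : K) (q.coeff i)).trans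
                (by rw [Polynomial.coe_aeval_eq_eval]; rfl)
            rw [this, ← hK]
            exact ((q.coeff i).eval ⟨z, hzM⟩ : K).2
          · exact (CL_ec S).one_mem
        · simp
        · rw [Fin.sum_univ_castSucc]
          simp only [Fin.val_castSucc, Fin.is_lt, dite_true, Fin.val_last, lt_self_iff_false,
            dite_false, one_mul]
          rw [add_comm]
          exact heq
      intro i
      rw [hxpt]
      fin_cases i
      · show z + c * w ∈ K
        exact K.add_mem hzM (K.mul_mem (natCast_mem K c) hwM)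
      · exact hwM
  have hgj' := hgg D p hgj
  -- transport
  have hcount := gjp_countable (dS'_fo D) hgj'
  intro hfin
  apply uncountable_univ
  refine (hcount.union (hfin.countable.image fun x' => x' 0 - c * x' 1)).mono ?_
  intro z' _
  by_cases hz' : Jp (dS D) (dS' D) (fun a => φ (p a)) z'
  · right
    obtain ⟨w', -, h1, h2⟩ := (jp_eig (mat DE) DQ DH _ _).1 hz'
    refine ⟨pt c z' w', ?_, by simp [pt]⟩
    have h3 : pat F (fun i => φ (v i)) (pt c z' w') = Z := by
      ext j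
      constructor
      · intro hj
        by_contra hjZ
        apply h2
        rw [ev2, hDH, hH, eval₂_eq_eval_map, map_prod, map_prod]
        apply Finset.prod_eq_zero (Finset.mem_univ j)
        rw [if_neg hjZ, ← eval₂_eq_eval_map, evQ]
        exact hj
      · intro hj
        have h4 := h1 j
        rw [ev2, hDQ, hQ'] at h4
        simp only [if_pos hj] at h4
        rw [evQ] at h4
        exact h4
    show pat F _ _ ∈ R
    rw [h3]
    exact hx
  · exact Or.inl hz'

end CaseB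

section Main

variable {k N : ℕ}

/-- transport of the number of solutions -/
theorem card_le {S S' : Set ℂ} (σ : CL S → CL S') (hσ : Function.Injective σ)
    (hrel : ∀ j : Rx, ∀ u : Fin (Rn j) → CL S, (fun a => (u a : ℂ)) ∈ RR j →
      (fun a => (σ (u a) : ℂ)) ∈ RR j)
    (F : Fin N → MvPolynomial (Fin k ⊕ (Fin 2 ⊕ Fin 2)) ℤ) (R : Set (Set (Fin N)))
    (v : Fin k → CL S) {κ : Cardinal.{0}} (hκ : κ ≤ ℵ₀)
    (h : κ ≤ #(Sol F R fun i => (v i : ℂ))) : κ ≤ #(Sol F R fun i => (σ (v i) : ℂ)) := by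
  have hadd : ∀ a b c : CL S, (a : ℂ) + b = c → (σ a : ℂ) + σ b = σ c := by
    intro a b c habc
    exact hrel (Sum.inl ()) ![a, b, c] habc
  have hmul : ∀ a b c : CL S, (a : ℂ) * b = c → (σ a : ℂ) * σ b = σ c := by
    intro a b c habc
    exact hrel (Sum.inr (Sum.inl ())) ![a, b, c] habc
  obtain ⟨K, hKS, φ, hφ⟩ : ∃ (K : Subfield ℂ) (hKS : ∀ a, a ∈ K ↔ a ∈ CL S) (φ : K →+* ℂ),
      ∀ a : K, φ a = σ ⟨a, (hKS a).1 a.2⟩ := by
    obtain ⟨φ, hφ⟩ := exists_hom (CL_ec S) σ hσ hadd hmul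
    exact ⟨(CL_ec S).fld, fun a => Iff.rfl, φ, hφ⟩
  let v' : Fin k → K := fun i => ⟨v i, (hKS _).2 (v i).2⟩
  have hv' : (fun i => (σ (v i) : ℂ)) = fun i => φ (v' i) := by
    funext i
    exact (hφ (v' i)).symm
  rw [hv']
  have hexp : ∀ a b : K, Complex.exp a = b → Complex.exp (φ a) = φ b := by
    intro a b hab
    rw [hφ, hφ]
    exact hrel (Sum.inr (Sum.inr (Sum.inl ()))) ![⟨a, (hKS a).1 a.2⟩, ⟨b, (hKS b).1 b.2⟩] hab
  have hgg : ∀ (D : Dt) (s : Fin D.1 → K), GJp (dS D) (dS' D) (fun a => (s a : ℂ)) →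
      GJp (dS D) (dS' D) (fun a => φ (s a)) := by
    intro D s hs
    have h1 : (fun a => φ (s a)) = fun a => (σ ⟨s a, (hKS _).1 (s a).2⟩ : ℂ) :=
      funext fun a => hφ _
    rw [h1]
    exact hrel (Sum.inr (Sum.inr (Sum.inr (Sum.inr D)))) (fun a => ⟨s a, (hKS _).1 (s a).2⟩) hs
  by_cases hin : ∀ x ∈ Sol F R (fun i => (v' i : ℂ)), ∀ i, x i ∈ K
  · refine h.trans ?_
    let f : Sol F R (fun i => (v' i : ℂ)) → Sol F R (fun i => φ (v' i)) := fun x =>
      ⟨fun i => φ ⟨x.1 i, hin x.1 x.2 i⟩, sol_inner φ hexp F R v' (fun i => ⟨x.1 i, hin x.1 x.2 i⟩)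
        (fun i => ⟨Complex.exp (x.1 i), (hKS _).2 ((CL_ec S).exp_mem
          ((hKS _).1 (hin x.1 x.2 i)))⟩) (fun i => rfl) x.2⟩
    have hf : Function.Injective f := by
      intro x y hxy
      apply Subtype.ext
      funext i
      have h1 := congrFun (congrArg Subtype.val hxy) i
      have h2 := φ.injective h1
      exact congrArg Subtype.val h2
    exact Cardinal.mk_le_of_injective hf
  · push Not at hin
    obtain ⟨x, hx, i, hi⟩ := hin
    refine hκ.trans ?_
    rw [Cardinal.aleph0_le_mk_iff, Set.infinite_coe_iff]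
    by_cases hind : AlgebraicIndependent K x
    · intro hfin
      obtain ⟨x', hx', hG⟩ := sol_indep φ F R v' x hx hind
        (∏ y ∈ hfin.toFinset, (X 0 - C (y 0))) (by
          rw [Finset.prod_ne_zero_iff]
          intro y _ h0
          have h1 := congrArg (eval (fun _ => y 0 + 1)) h0
          simp at h1)
      apply hG
      rw [map_prod]
      refine Finset.prod_eq_zero (hfin.mem_toFinset.2 hx') ?_
      simp
    · exact sol_curve hKS φ hgg F R v' x hx hind fun hall => hi (hall i)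

/-- the quantifier over two unknowns -/
theorem CQ_two (F : Fin N → MvPolynomial (Fin k ⊕ (Fin 2 ⊕ Fin 2)) ℤ) (R : Set (Set (Fin N)))
    {κ : Cardinal.{0}} (hκ : κ ≤ ℵ₀) : CQ k {v | κ ≤ #(Sol F R v)} := by
  intro U hU hUc γ hγ
  have hγ' : AnalyticOnNhd ℂ (fun t => (Fin.cons t (γ t) : Fin (k + 1) → ℂ)) U := by
    intro t ht
    refine analyticAt_pi_iff.2 fun i => ?_
    refine Fin.cases ?_ (fun i => ?_) i
    · show AnalyticAt ℂ (fun t : ℂ => t) t
      exact analyticAt_id
    · simpa using analyticAt_pi_iff.1 (hγ t ht) i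
  obtain ⟨B, hB, h⟩ := closures (F := fun k => FF (en k)) (fun k => (FF_fo (en k)).an)
    (fun k => (FF_fo (en k)).ord) RR_CQ (countable_empty (α := ℂ)) hU hUc hγ'
  have key : ∀ t ∈ U, ∀ t' ∈ U, t ∉ B → t' ∉ B → κ ≤ #(Sol F R (γ t)) →
      κ ≤ #(Sol F R (γ t')) := by
    intro t ht t' ht' htB ht'B hκt
    obtain ⟨σ, h1, -, h3⟩ := h t ht t' ht' htB ht'B
    have hm : ∀ i : Fin k, γ t i ∈ CL (∅ ∪ range (Fin.cons t (γ t) : Fin (k + 1) → ℂ)) :=
      fun i => Cl.base (Or.inr ⟨i.succ, by simp⟩)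
    have h4 := card_le (S := ∅ ∪ range (Fin.cons t (γ t) : Fin (k + 1) → ℂ))
      (S' := ∅ ∪ range (Fin.cons t' (γ t') : Fin (k + 1) → ℂ)) σ σ.injective
      (fun j u hu => (h3 j u).1 hu) F R (fun i => ⟨γ t i, hm i⟩) hκ hκt
    have h5 : (fun i : Fin k => ((σ ⟨γ t i, hm i⟩ : CL _) : ℂ)) = γ t' := by
      funext i
      have h6 := h1 i.succ
      simp only [Fin.cons_succ] at h6
      exact h6
    exact Eq.mp (congrArg (fun w : Fin k → ℂ => κ ≤ #(Sol F R w)) h5) h4
  by_cases hex : ∃ t ∈ U, t ∉ B ∧ κ ≤ #(Sol F R (γ t))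
  · obtain ⟨t, ht, htB, hκt⟩ := hex
    right
    refine hB.mono ?_
    rintro t' ⟨ht', hnot⟩
    by_contra ht'B
    exact hnot (key t ht t' ht' htB ht'B hκt)
  · push Not at hex
    left
    refine hB.mono ?_
    rintro t' ⟨ht', hin⟩
    by_contra ht'B
    exact absurd hin (not_le.2 (hex t' ht' ht'B))

end Main

end Pool.Agent.V9h68
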