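import Pool.Agent.V9h68.Sti
import Pool.Agent.V9h68.Two

/-!
Systems which are dominated by the additive coordinates: transport of solutions.
-/

set_option autoImplicit false

open MvPolynomial Set Filter

noncomputable section

namespace Pool.Agent.V9h68

open Pool.Agent.Y776 Pool.Agent.Y685 Pool.Agent.TH735.BF
open Pool.Agent.TH813.Rel (MK mem_cl subset_cl rk_le_of_subset_cl cl_add cl_mul cl_inv cl_of_base)

/-- extension of a homomorphism -/
theorem lift_hom {R Ω : Type} [CommRing R] [IsDomain R] [Field Ω] [IsAlgClosed Ω] (a : R →+* ℂ)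
    (ha : Function.Injective a) (halg : ∀ z : ℂ, ∃ p : Polynomial R, p ≠ 0 ∧ p.eval₂ a z = 0)
    (ψ : R →+* Ω) (hψ : Function.Injective ψ) : ∃ f : ℂ →+* Ω, ∀ r, f (a r) = ψ r := by
  let _ : Algebra R Ω := ψ.toAlgebra
  let _ : Algebra R ℂ := a.toAlgebra
  have hf1 : FaithfulSMul R Ω := (faithfulSMul_iff_algebraMap_injective R Ω).2 hψ
  have hf2 : FaithfulSMul R ℂ := (faithfulSMul_iff_algebraMap_injective R ℂ).2 ha
  have halg : Algebra.IsAlgebraic R ℂ := by
    constructor
    intro z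
    obtain ⟨p, hp, hpz⟩ := halg z
    exact ⟨p, hp, hpz⟩
  let f : ℂ →ₐ[R] Ω := IsAlgClosed.lift
  exact ⟨f, fun r => f.commutes r⟩

/-- a transcendental number can be moved -/
theorem exists_shift {K : Type} [Field K] [Algebra K ℂ] {b : ℂ} (hb : Transcendental K b)
    (c : ℕ) : ∃ τ : ℂ →+* ℂ, (∀ k, τ (algebraMap K ℂ k) = algebraMap K ℂ k) ∧ τ b = b + c := by
  classical
  have hx : AlgebraicIndependent K (fun _ : Unit => b) :=
    algebraicIndependent_unique_type_iff.2 hb
  have hxr : AlgebraicIndepOn K id (Set.range fun _ : Unit => b) :=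
    AlgebraicIndependent.coe_range hx
  obtain ⟨B, hxB, hB⟩ := exists_isTranscendenceBasis_superset hxr
  have hbB : b ∈ B := hxB ⟨(), rfl⟩
  have hind : AlgebraicIndependent K ((↑) : B → ℂ) := hB.1
  let e := hind.aevalEquiv
  let a : MvPolynomial B K →+* ℂ := (aeval (fun b : B => (b : ℂ)) : MvPolynomial B K →ₐ[K] ℂ)
  let s : ℤ → MvPolynomial B K →ₐ[K] MvPolynomial B K := fun r =>
    aeval (fun b' : B => if b' = ⟨b, hbB⟩ then X b' + C (r : K) else X b')
  have hs : ∀ p, s (-c) (s c p) = p := by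
    intro p
    have h1 : (s (-c)).comp (s c) = AlgHom.id K _ := by
      apply MvPolynomial.algHom_ext
      intro i
      by_cases hi : i = ⟨b, hbB⟩
      · simp [s, hi]
      · simp [s, hi]
    exact DFunLike.congr_fun h1 p
  let ψ : MvPolynomial B K →+* ℂ := a.comp (s c : MvPolynomial B K →+* MvPolynomial B K)
  have hψ : Function.Injective ψ := by
    refine Function.Injective.comp (g := a) (f := s c) hind ?_
    intro p q hpq
    rw [← hs p, ← hs q, hpq]
  obtain ⟨f, hf⟩ := lift_hom a hind (by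
    intro z
    obtain ⟨p, hp, hpz⟩ := hB.isAlgebraic.isAlgebraic z
    let g : Algebra.adjoin K (range (Subtype.val : B → ℂ)) →+* MvPolynomial B K :=
      (e.symm : Algebra.adjoin K (range (Subtype.val : B → ℂ)) →ₐ[K] MvPolynomial B K).toRingHom
    refine ⟨p.map g, ?_, ?_⟩
    · rw [Ne, Polynomial.map_eq_zero_iff e.symm.injective]
      exact hp
    · rw [Polynomial.eval₂_map]
      rw [Polynomial.aeval_def] at hpz
      have h0 : a.comp g = algebraMap _ ℂ := by
        refine RingHom.ext fun r => ?_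
        change a (e.symm r) = r
        have h1 : e (e.symm r) = r := e.apply_symm_apply r
        have h2 : a (e.symm r) = ((e (e.symm r) : _) : ℂ) :=
          (hind.algebraMap_aevalEquiv (e.symm r)).symm
        rw [h2, h1]
      rw [h0]
      exact hpz) ψ hψ
  refine ⟨f, ?_, ?_⟩
  · intro k
    have h1 := hf (C k)
    simpa [a, ψ, s] using h1
  · have h1 := hf (X ⟨b, hbB⟩)
    simpa [a, ψ, s] using h1

/-- finite fibres consist of algebraic elements -/
theorem fin_alg {M : Subfield ℂ} {k n N : ℕ} (F : Fin N → MvPolynomial (Fin k ⊕ (Fin n ⊕ Fin n)) ℤ)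
    (R : Set (Set (Fin N))) (v : Fin k → M) (x : Fin n → ℂ) (y : Fin n → ℂ)
    (hy : {j | aeval (Sum.elim (fun i => (v i : ℂ)) (Sum.elim x y)) (F j) = 0} ∈ R)
    (hfin : {y : Fin n → ℂ | {j | aeval (Sum.elim (fun i => (v i : ℂ)) (Sum.elim x y)) (F j) = 0}
      ∈ R}.Finite) (i : Fin n) : y i ∈ (MK M).closure (range x) := by
  rw [mem_cl]
  by_contra hb
  let K' := IntermediateField.adjoin M (range x)
  have hb' : Transcendental K' (y i) := by
    rintro ⟨p, hp, hpz⟩
    apply hb
    rw [← mem_cl]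
    refine cl_root (f := p.map (algebraMap K' ℂ)) ?_ ?_ ?_
    · rw [Ne, Polynomial.map_eq_zero_iff (algebraMap K' ℂ).injective]
      exact hp
    · intro l
      rw [Polynomial.coeff_map]
      exact Pool.Agent.TH813.Rel.adjoin_subset_cl (subset_cl _) (p.coeff l).2
    · rw [Polynomial.eval_map_algebraMap]
      exact hpz
  have hτ : ∀ c : ℕ, ∃ τ : ℂ →+* ℂ, (∀ k, τ (algebraMap K' ℂ k) = algebraMap K' ℂ k) ∧
      τ (y i) = y i + c := fun c => exists_shift hb' c
  choose τ hτ1 hτ2 using hτ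
  have hmem : ∀ c, (fun l => τ c (y l)) ∈ {y : Fin n → ℂ |
      {j | aeval (Sum.elim (fun i => (v i : ℂ)) (Sum.elim x y)) (F j) = 0} ∈ R} := by
    intro c
    have h1 : {j | aeval (Sum.elim (fun i => (v i : ℂ)) (Sum.elim x fun l => τ c (y l))) (F j) = 0} =
        {j | aeval (Sum.elim (fun i => (v i : ℂ)) (Sum.elim x y)) (F j) = 0} := by
      ext j
      simp only [Set.mem_ofPred_eq]
      have h2 : (Sum.elim (fun i => (v i : ℂ)) (Sum.elim x fun l => τ c (y l))) =
          fun a => τ c (Sum.elim (fun i => (v i : ℂ)) (Sum.elim x y) a) := by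
        funext a
        rcases a with a | a | a
        · exact (hτ1 c (algebraMap M K' (v a))).symm
        · have h3 : x a ∈ K' := IntermediateField.subset_adjoin M _ ⟨a, rfl⟩
          exact (hτ1 c ⟨x a, h3⟩).symm
        · rfl
      rw [h2, aeval_def, aeval_def]
      have h4 : eval₂ (algebraMap ℤ ℂ) (fun a => τ c (Sum.elim (fun i => (v i : ℂ))
          (Sum.elim x y) a)) (F j) = τ c (eval₂ (algebraMap ℤ ℂ) (Sum.elim (fun i => (v i : ℂ))
          (Sum.elim x y)) (F j)) := by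
        rw [eval₂_comp_left]
        congr 1
        exact RingHom.ext_int _ _
      rw [h4, map_eq_zero]
    simp only [Set.mem_ofPred_eq] at h1 ⊢
    rw [h1]
    exact hy
  have hinj : Function.Injective fun c : ℕ => (fun l => τ c (y l)) := by
    intro c c' hcc
    have h1 := congrFun hcc i
    simp only [hτ2] at h1
    exact_mod_cast add_left_cancel h1
  exact (Set.infinite_of_injective_forall_mem hinj hmem) hfin

/-- reduction of a tuple to a tuple which is linearly independent modulo a field -/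
theorem exists_red (M : Subfield ℂ) {n : ℕ} (x : Fin n → ℂ) :
    ∃ (d : ℕ) (u : Fin d → ℂ) (A : Fin n → Fin d → ℤ) (m : Fin n → M) (N : ℕ) (ι : Fin d → Fin n),
      0 < N ∧ (∀ q : Fin d → ℚ, ∑ j, q j • u j ∈ M → q = 0) ∧
      (∀ i, x i = ∑ j, (A i j : ℂ) * u j + m i) ∧ ∀ j, (N : ℂ) * u j = x (ι j) := by
  classical
  let Mq : Submodule ℚ ℂ :=
    { carrier := M
      add_mem' := M.add_mem
      zero_mem' := M.zero_mem
      smul_mem' := fun q x hx => SubfieldClass.qsmul_mem M q hx }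
  have hMq : ∀ z, z ∈ Mq ↔ z ∈ M := fun z => Iff.rfl
  let y : Fin n → ℂ ⧸ Mq := fun i => Mq.mkQ (x i)
  obtain ⟨b, hb1, hb2, hb3⟩ := exists_linearIndependent ℚ (range y)
  have hbf : b.Finite := (Set.finite_range y).subset hb1
  let e := hbf.toFinset.equivFin
  have hbmem : ∀ j : Fin (Finset.card hbf.toFinset), ((e.symm j : ℂ ⧸ Mq)) ∈ b := fun j =>
    hbf.mem_toFinset.1 (e.symm j).2
  have hι : ∀ j, ∃ i, y i = (e.symm j : ℂ ⧸ Mq) := fun j => hb1 (hbmem j)
  choose ι hι using hι
  have hind : LinearIndependent ℚ (fun j => y (ι j)) := by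
    have h1 := hb3.comp (fun j => (⟨e.symm j, hbmem j⟩ : b)) (by
      intro j j' hjj
      have h2 := congrArg (fun z : b => (z : ℂ ⧸ Mq)) hjj
      exact e.symm.injective (Subtype.ext h2))
    have h2 : (fun j => y (ι j)) = Subtype.val ∘ (fun j => (⟨e.symm j, hbmem j⟩ : b)) :=
      funext fun j => hι j
    rw [h2]
    exact h1
  have hspan : ∀ i, ∃ q : Fin (Finset.card hbf.toFinset) → ℚ,
      x i - ∑ j, q j • x (ι j) ∈ M := by
    intro i
    have h1 : y i ∈ Submodule.span ℚ (range fun j => y (ι j)) := by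
      have h2 : (range fun j => y (ι j)) = b := by
        ext z
        constructor
        · rintro ⟨j, rfl⟩
          show y (ι j) ∈ b
          rw [hι]
          exact hbmem j
        · intro hz
          refine ⟨e ⟨z, hbf.mem_toFinset.2 hz⟩, ?_⟩
          show y (ι _) = z
          rw [hι]
          simp
      rw [h2, hb2]
      exact Submodule.subset_span ⟨i, rfl⟩
    obtain ⟨q, hq⟩ := (Submodule.mem_span_range_iff_exists_fun ℚ).1 h1
    refine ⟨q, ?_⟩
    rw [← hMq, ← Submodule.Quotient.mk_eq_zero, ← Submodule.mkQ_apply, map_sub, map_sum]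
    simp only [map_smul]
    rw [sub_eq_zero]
    exact hq.symm
  choose q hq using hspan
  let N : ℕ := ∏ i, ∏ j, (q i j).den
  have hN : 0 < N := Finset.prod_pos fun i _ => Finset.prod_pos fun j _ => (q i j).den_pos
  have hN0 : (N : ℂ) ≠ 0 := by exact_mod_cast hN.ne'
  have hA : ∀ i j, ∃ a : ℤ, (a : ℚ) = q i j * N := by
    intro i j
    have h1 : (q i j).den ∣ N :=
      (Finset.dvd_prod_of_mem (fun j => (q i j).den) (Finset.mem_univ j)).trans
        (Finset.dvd_prod_of_mem (fun i => ∏ j, (q i j).den) (Finset.mem_univ i))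
    obtain ⟨w, hw⟩ := h1
    refine ⟨(q i j).num * w, ?_⟩
    rw [hw]
    push_cast
    rw [← mul_assoc, Rat.mul_den_eq_num]
  choose A hA using hA
  refine ⟨_, fun j => x (ι j) / N, A, fun i => ⟨_, hq i⟩, N, ι, hN, ?_, ?_, ?_⟩
  · intro r hr
    have h1 : ∑ j, r j • x (ι j) ∈ M := by
      have h2 : ∑ j, r j • x (ι j) = (N : ℂ) * ∑ j, r j • (x (ι j) / N) := by
        rw [Finset.mul_sum]
        refine Finset.sum_congr rfl fun j _ => ?_
        rw [Rat.smul_def, Rat.smul_def]
        field_simp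
      rw [h2]
      exact M.mul_mem (natCast_mem M N) hr
    have h3 : ∑ j, r j • y (ι j) = 0 := by
      have h4 : ∑ j, r j • y (ι j) = Mq.mkQ (∑ j, r j • x (ι j)) := by
        rw [map_sum]
        simp only [map_smul]
        rfl
      rw [h4, Submodule.mkQ_apply, Submodule.Quotient.mk_eq_zero]
      exact h1
    exact funext (Fintype.linearIndependent_iff.1 hind r h3)
  · intro i
    have h1 : ∑ j, (A i j : ℂ) * (x (ι j) / N) = ∑ j, q i j • x (ι j) := by
      refine Finset.sum_congr rfl fun j _ => ?_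
      rw [Rat.smul_def]
      have h2 : (A i j : ℂ) = (q i j : ℂ) * N := by
        have := congrArg (fun r : ℚ => (r : ℂ)) (hA i j)
        push_cast at this
        exact this
      rw [h2]
      field_simp
    rw [h1]
    show x i = _ + (x i - ∑ j, q i j • x (ι j))
    ring
  · intro j
    show (N : ℂ) * (x (ι j) / N) = x (ι j)
    field_simp

/-- substitution of Laurent monomials -/
theorem sub_poly {M : Subfield ℂ} {k n d : ℕ} (A : Fin n → Fin d → ℤ) (m e : Fin n → M)
    (v : Fin k → M) (F : MvPolynomial (Fin k ⊕ (Fin n ⊕ Fin n)) ℤ) :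
    ∃ (D : ℕ) (G : MvPolynomial (Fin d ⊕ Fin d) M), ∀ ψ : M →+* ℂ,
      (∀ i, Complex.exp (ψ (m i)) = ψ (e i)) → ∀ u' : Fin d → ℂ,
        eval₂ ψ (ep u') G = (∏ j, Complex.exp (u' j)) ^ D *
          aeval (Sum.elim (fun i => ψ (v i)) (ep fun i => ∑ j, (A i j : ℂ) * u' j + ψ (m i))) F := by
  classical
  set W : MvPolynomial (Fin d ⊕ Fin d) M := ∏ j, X (Sum.inr j) with hW
  have hWe : ∀ (ψ : M →+* ℂ) (u' : Fin d → ℂ), eval₂ ψ (ep u') W = ∏ j, Complex.exp (u' j) := by
    intro ψ u'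
    rw [hW, eval₂_prod]
    refine Finset.prod_congr rfl fun j _ => ?_
    rw [eval₂_X]
    rfl
  induction F using MvPolynomial.induction_on with
  | C a =>
    refine ⟨0, C (a : M), fun ψ _ u' => ?_⟩
    rw [eval₂_C]
    simp
  | add p q hp hq =>
    obtain ⟨D₁, G₁, h₁⟩ := hp
    obtain ⟨D₂, G₂, h₂⟩ := hq
    refine ⟨D₁ + D₂, W ^ D₂ * G₁ + W ^ D₁ * G₂, fun ψ hψ u' => ?_⟩
    rw [eval₂_add, eval₂_mul, eval₂_mul, eval₂_pow, eval₂_pow, hWe, h₁ ψ hψ, h₂ ψ hψ, map_add]
    ring
  | mul_X p v₀ hp =>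
    obtain ⟨D, G, h⟩ := hp
    rcases v₀ with i | i | i
    · refine ⟨D, G * C (v i), fun ψ hψ u' => ?_⟩
      rw [eval₂_mul, eval₂_C, h ψ hψ, map_mul, aeval_X]
      simp only [Sum.elim_inl]
      ring
    · refine ⟨D, G * (∑ j, C (A i j : M) * X (Sum.inl j) + C (m i)), fun ψ hψ u' => ?_⟩
      rw [eval₂_mul, eval₂_add, eval₂_sum, eval₂_C, h ψ hψ, map_mul, aeval_X]
      have h1 : ∀ j, eval₂ ψ (ep u') (C (A i j : M) * X (Sum.inl j)) = (A i j : ℂ) * u' j := by
        intro j
        rw [eval₂_mul, eval₂_C, eval₂_X, map_intCast]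
        rfl
      rw [Finset.sum_congr rfl fun j _ => h1 j]
      simp only [Sum.elim_inr, ep, Sum.elim_inl]
      ring
    · let B : ℕ := ∑ j, (A i j).natAbs
      have hB : ∀ j, 0 ≤ A i j + B := by
        intro j
        have h1 : (A i j).natAbs ≤ B :=
          Finset.single_le_sum (f := fun j => (A i j).natAbs) (fun _ _ => Nat.zero_le _)
            (Finset.mem_univ j)
        omega
      refine ⟨D + B, G * (C (e i) * ∏ j, X (Sum.inr j) ^ (A i j + B).toNat), fun ψ hψ u' => ?_⟩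
      rw [eval₂_mul, eval₂_mul, eval₂_C, eval₂_prod, h ψ hψ, map_mul, aeval_X]
      have h1 : ∀ j, eval₂ ψ (ep u') (X (Sum.inr j) ^ (A i j + B).toNat) =
          Complex.exp (u' j) ^ B * Complex.exp ((A i j : ℂ) * u' j) := by
        intro j
        rw [eval₂_pow, eval₂_X, ← Complex.exp_nat_mul, ← Complex.exp_add]
        show Complex.exp (u' j) ^ _ = _
        rw [← Complex.exp_nat_mul]
        congr 1
        have h2 : (((A i j + B).toNat : ℤ) : ℂ) = ((A i j + B : ℤ) : ℂ) := by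
          rw [Int.toNat_of_nonneg (hB j)]
        push_cast at h2
        rw [h2]
        ring
      rw [Finset.prod_congr rfl fun j _ => h1 j, Finset.prod_mul_distrib, Finset.prod_pow]
      simp only [Sum.elim_inr, ep]
      rw [Complex.exp_add, Complex.exp_sum, hψ i]
      ring

/-- the polynomial `∑ a_j X_j + c` is not zero if some `a_j` is not zero -/
theorem lin_ne {d : ℕ} (a : Fin d → ℂ) (c : ℂ) {j : Fin d} (hj : a j ≠ 0) :
    (∑ j, C (a j) * X j + C c : MvPolynomial (Fin d) ℂ) ≠ 0 := by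
  classical
  intro h
  have h1 := congrArg (eval (0 : Fin d → ℂ)) h
  have h2 := congrArg (eval (Pi.single j 1 : Fin d → ℂ)) h
  simp only [map_add, map_sum, map_mul, eval_C, eval_X, map_zero, Pi.zero_apply, mul_zero,
    Finset.sum_const_zero, zero_add] at h1 h2
  rw [h1, Finset.sum_eq_single j] at h2
  · simp only [Pi.single_eq_same, mul_one, add_zero] at h2
    exact hj h2
  · intro i _ hi
    rw [Pi.single_eq_of_ne hi, mul_zero]
  · intro h
    exact absurd (Finset.mem_univ _) h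

theorem indep_of_dom' {K : Subfield ℂ} (hK : GF K) {t : ℂ} (ht : t ∉ K) {M : Subfield ℂ}
    (hM : M = (CE_ec ((K : Set ℂ) ∪ {t})).fld) {n : ℕ} (u : Fin n → ℂ)
    (hu : ∀ q : Fin n → ℚ, ∑ i, q i • u i ∈ M → q = 0)
    (hdom : ∀ i, Complex.exp (u i) ∈ (MK K).closure ((M : Set ℂ) ∪ range u)) :
    AlgebraicIndependent M u := by
  subst hM
  exact indep_of_dom hK ht u hu hdom

/-- dominated systems: infinitely many solutions -/
theorem dom_inf {K : Subfield ℂ} (hK : GF K) {t : ℂ} (ht : t ∉ K) {M : Subfield ℂ}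
    (hM : M = (CE_ec ((K : Set ℂ) ∪ {t})).fld) (φ : M →+* ℂ)
    (hexp : ∀ a b : M, Complex.exp a = b → Complex.exp (φ a) = φ b) {k n N : ℕ}
    (F : Fin N → MvPolynomial (Fin k ⊕ (Fin n ⊕ Fin n)) ℤ) (R : Set (Set (Fin N)))
    (v : Fin k → M) (x : Fin n → ℂ) (hx : x ∈ Sol F R (fun i => (v i : ℂ)))
    (hfin : {y : Fin n → ℂ | {j | aeval (Sum.elim (fun i => (v i : ℂ)) (Sum.elim x y)) (F j) = 0}
      ∈ R}.Finite) (hxM : ¬ ∀ i, x i ∈ M) :
    (Sol F R (fun i => φ (v i))).Infinite := by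
  classical
  have hKM : K ≤ M := fun x hx => by
    rw [hM]
    exact CE_base (Or.inl hx)
  obtain ⟨d, u, A, m, N', ι, hN', hu, hxu, hιu⟩ := exists_red M x
  have hexpM : ∀ a : M, Complex.exp a ∈ M := by
    subst hM
    exact fun a => (CE_ec _).exp_mem a.2
  let e : Fin n → M := fun i => ⟨Complex.exp (m i), hexpM (m i)⟩
  -- the new tuple is algebraically independent
  have hxcl : range x ⊆ (MK K).closure ((M : Set ℂ) ∪ range u) := by
    rintro _ ⟨i, rfl⟩
    rw [hxu i]
    refine cl_add ?_ (subset_cl _ (Or.inl (m i).2))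
    have h1 : ∀ j ∈ Finset.univ, (A i j : ℂ) * u j ∈ clF K ((M : Set ℂ) ∪ range u) := fun j _ =>
      mul_mem (intCast_mem _ _) (subset_cl _ (Or.inr ⟨j, rfl⟩))
    exact sum_mem h1
  have hyx : ∀ i, Complex.exp (x i) ∈ (MK K).closure ((M : Set ℂ) ∪ range u) := by
    intro i
    have h1 := fin_alg F R v x (fun i => Complex.exp (x i)) hx hfin i
    refine cl_sub_of ?_ (cl_base_change hKM h1)
    exact Set.union_subset (Set.subset_union_left.trans (subset_cl _)) hxcl
  have hdom : ∀ j, Complex.exp (u j) ∈ (MK K).closure ((M : Set ℂ) ∪ range u) := by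
    intro j
    apply cl_of_pow hN'
    rw [← Complex.exp_nat_mul, hιu]
    exact hyx _
  have hind : AlgebraicIndependent M u := indep_of_dom' hK ht hM u hu hdom
  -- the polynomials
  have hG : ∀ j, ∃ (D : ℕ) (G : MvPolynomial (Fin d ⊕ Fin d) M), ∀ ψ : M →+* ℂ,
      (∀ i, Complex.exp (ψ (m i)) = ψ (e i)) → ∀ u' : Fin d → ℂ,
        eval₂ ψ (ep u') G = (∏ j, Complex.exp (u' j)) ^ D *
          aeval (Sum.elim (fun i => ψ (v i)) (ep fun i => ∑ j, (A i j : ℂ) * u' j + ψ (m i)))
            (F j) := fun j => sub_poly A m e v (F j)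
  choose D G hG using hG
  have hnz : ∀ (u' : Fin d → ℂ) (D : ℕ), (∏ j, Complex.exp (u' j)) ^ D ≠ 0 := fun u' D =>
    pow_ne_zero _ (Finset.prod_ne_zero_iff.2 fun j _ => Complex.exp_ne_zero _)
  have hGid : ∀ j, aeval (ep u) (G j) = (∏ j, Complex.exp (u j)) ^ D j *
      aeval (Sum.elim (fun i => (v i : ℂ)) (ep x)) (F j) := by
    intro j
    have h1 := hG j (algebraMap M ℂ) (fun i => rfl) u
    have h2 : (fun i => ∑ j, (A i j : ℂ) * u j + algebraMap M ℂ (m i)) = x :=
      funext fun i => (hxu i).symm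
    rw [h2] at h1
    exact h1
  have hGφ : ∀ j (u' : Fin d → ℂ), eval₂ φ (ep u') (G j) = (∏ j, Complex.exp (u' j)) ^ D j *
      aeval (Sum.elim (fun i => φ (v i)) (ep fun i => ∑ j, (A i j : ℂ) * u' j + φ (m i))) (F j) :=
    fun j u' => hG j φ (fun i => hexp (m i) (e i) rfl) u'
  set Z := pat F (fun i => (v i : ℂ)) x with hZ
  set H : MvPolynomial (Fin d ⊕ Fin d) M := ∏ j, if j ∈ Z then 1 else G j with hH
  have hH0 : aeval (ep u) H ≠ 0 := by
    rw [hH, map_prod, Finset.prod_ne_zero_iff]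
    intro j _
    split_ifs with hj
    · simp
    · rw [hGid]
      exact mul_ne_zero (hnz _ _) hj
  -- a nonconstant coordinate
  push Not at hxM
  obtain ⟨i₀, hi₀⟩ := hxM
  obtain ⟨j₀, hj₀⟩ : ∃ j, A i₀ j ≠ 0 := by
    by_contra hcon
    push Not at hcon
    apply hi₀
    rw [hxu i₀]
    simp [hcon]
  intro hfinS
  have hGc : (∏ y ∈ hfinS.toFinset, (∑ j, C (A i₀ j : ℂ) * X j + C (φ (m i₀) - y i₀)) :
      MvPolynomial (Fin d) ℂ) ≠ 0 := by
    rw [Finset.prod_ne_zero_iff]
    intro y _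
    exact lin_ne _ _ (j := j₀) (by exact_mod_cast hj₀)
  obtain ⟨u', h1, h2, h3⟩ := transfer φ u hind H hH0 _ hGc
  set x' : Fin n → ℂ := fun i => ∑ j, (A i j : ℂ) * u' j + φ (m i) with hx'
  have h4 : pat F (fun i => φ (v i)) x' = Z := by
    ext j
    constructor
    · intro hj
      by_contra hjZ
      apply h2
      rw [hH, eval₂_eq_eval_map, map_prod, map_prod]
      apply Finset.prod_eq_zero (Finset.mem_univ j)
      rw [if_neg hjZ, ← eval₂_eq_eval_map, hGφ]
      have h5 : aeval (Sum.elim (fun i => φ (v i)) (ep x')) (F j) = 0 := hj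
      rw [h5, mul_zero]
    · intro hj
      have h5 : aeval (ep u) (G j) = 0 := by
        rw [hGid]
        have h6 : aeval (Sum.elim (fun i => (v i : ℂ)) (ep x)) (F j) = 0 := hj
        rw [h6, mul_zero]
      have h6 := h1 _ h5
      rw [hGφ] at h6
      exact (mul_eq_zero.1 h6).resolve_left (hnz _ _)
  have h5 : x' ∈ Sol F R (fun i => φ (v i)) := by
    show pat F _ _ ∈ R
    rw [h4]
    exact hx
  apply h3
  rw [map_prod]
  refine Finset.prod_eq_zero (hfinS.mem_toFinset.2 h5) ?_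
  simp only [map_add, map_sum, map_mul, eval_C, eval_X, hx']
  ring

end Pool.Agent.V9h68
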