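import Pool.Agent.TH735.FO.Rule

/-!
Entire functions of `(s, x)` of finite order in `x`, locally uniformly in `s`.
-/

set_option autoImplicit false

namespace Pool.Agent.V9h68

open Set Filter Topology Complex Metric
open Pool.Agent.TH735.QM Pool.Agent.TH735.FO

/-- entire and of finite order in the last variable -/
structure Fo {m : ℕ} (F : (Fin m → ℂ) → ℂ → ℂ) : Prop where
  an : AnalyticOnNhd ℂ (fun p : (Fin m → ℂ) × ℂ => F p.1 p.2) univ
  ord : FiniteOrder F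

/-- entire and of polynomial growth in the last variable -/
structure Pg {m : ℕ} (F : (Fin m → ℂ) → ℂ → ℂ) : Prop where
  an : AnalyticOnNhd ℂ (fun p : (Fin m → ℂ) × ℂ => F p.1 p.2) univ
  gr : ∀ s₀ : Fin m → ℂ, ∃ (A : ℝ) (ρ : ℕ), 0 ≤ A ∧ ∀ᶠ s in 𝓝 s₀, ∀ x,
    ‖F s x‖ ≤ A * (1 + ‖x‖) ^ ρ

variable {m : ℕ}

theorem one_le_base (x : ℂ) : (1 : ℝ) ≤ 1 + ‖x‖ := by
  have := norm_nonneg x
  linarith

theorem pow_mono (x : ℂ) {a b : ℕ} (h : a ≤ b) : (1 + ‖x‖) ^ a ≤ (1 + ‖x‖) ^ b :=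
  pow_le_pow_right₀ (one_le_base x) h

theorem exp_mono {A A' : ℝ} {ρ ρ' : ℕ} (hA : |A| ≤ A') (hρ : ρ ≤ ρ') (x : ℂ) :
    Real.exp (A * (1 + ‖x‖) ^ ρ) ≤ Real.exp (A' * (1 + ‖x‖) ^ ρ') := by
  apply Real.exp_le_exp.2
  have h0 : (0 : ℝ) ≤ (1 + ‖x‖) ^ ρ := by positivity
  calc A * (1 + ‖x‖) ^ ρ ≤ A' * (1 + ‖x‖) ^ ρ :=
        mul_le_mul_of_nonneg_right ((le_abs_self A).trans hA) h0
    _ ≤ A' * (1 + ‖x‖) ^ ρ' :=
        mul_le_mul_of_nonneg_left (pow_mono x hρ) ((abs_nonneg A).trans hA)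

theorem Fo.add {F G : (Fin m → ℂ) → ℂ → ℂ} (hF : Fo F) (hG : Fo G) :
    Fo (fun s x => F s x + G s x) where
  an := hF.an.add hG.an
  ord := by
    intro s₀
    obtain ⟨A, ρ, h⟩ := hF.ord s₀
    obtain ⟨A', ρ', h'⟩ := hG.ord s₀
    refine ⟨|A| + |A'| + 1, ρ + ρ', ?_⟩
    filter_upwards [h, h'] with s h1 h2 x
    have h3 := (h1 x).trans (exp_mono (A' := |A| + |A'|) (by linarith [abs_nonneg A'])
      (Nat.le_add_right ρ ρ') x)
    have h4 := (h2 x).trans (exp_mono (A' := |A| + |A'|) (by linarith [abs_nonneg A])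
      (Nat.le_add_left ρ' ρ) x)
    have h5 : (1 : ℝ) ≤ (1 + ‖x‖) ^ (ρ + ρ') := one_le_pow₀ (one_le_base x)
    calc ‖F s x + G s x‖ ≤ ‖F s x‖ + ‖G s x‖ := norm_add_le _ _
      _ ≤ 2 * Real.exp ((|A| + |A'|) * (1 + ‖x‖) ^ (ρ + ρ')) := by linarith
      _ ≤ Real.exp 1 * Real.exp ((|A| + |A'|) * (1 + ‖x‖) ^ (ρ + ρ')) := by
          have := Real.add_one_le_exp 1
          gcongr
          linarith
      _ = Real.exp (1 + (|A| + |A'|) * (1 + ‖x‖) ^ (ρ + ρ')) := by rw [Real.exp_add]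
      _ ≤ Real.exp ((|A| + |A'| + 1) * (1 + ‖x‖) ^ (ρ + ρ')) := by
          apply Real.exp_le_exp.2
          nlinarith

theorem Fo.mul {F G : (Fin m → ℂ) → ℂ → ℂ} (hF : Fo F) (hG : Fo G) :
    Fo (fun s x => F s x * G s x) where
  an := hF.an.mul hG.an
  ord := by
    intro s₀
    obtain ⟨A, ρ, h⟩ := hF.ord s₀
    obtain ⟨A', ρ', h'⟩ := hG.ord s₀
    refine ⟨(|A| + |A'|) + (|A| + |A'|), ρ + ρ', ?_⟩
    filter_upwards [h, h'] with s h1 h2 x
    have h3 := (h1 x).trans (exp_mono (A' := |A| + |A'|) (by linarith [abs_nonneg A'])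
      (Nat.le_add_right ρ ρ') x)
    have h4 := (h2 x).trans (exp_mono (A' := |A| + |A'|) (by linarith [abs_nonneg A])
      (Nat.le_add_left ρ' ρ) x)
    calc ‖F s x * G s x‖ = ‖F s x‖ * ‖G s x‖ := norm_mul _ _
      _ ≤ Real.exp ((|A| + |A'|) * (1 + ‖x‖) ^ (ρ + ρ')) *
          Real.exp ((|A| + |A'|) * (1 + ‖x‖) ^ (ρ + ρ')) :=
          mul_le_mul h3 h4 (norm_nonneg _) (Real.exp_pos _).le
      _ = _ := by rw [← Real.exp_add, ← add_mul]

theorem Pg.fo {F : (Fin m → ℂ) → ℂ → ℂ} (hF : Pg F) : Fo F where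
  an := hF.an
  ord := by
    intro s₀
    obtain ⟨A, ρ, _, h⟩ := hF.gr s₀
    refine ⟨A, ρ, ?_⟩
    filter_upwards [h] with s h1 x
    refine (h1 x).trans ?_
    have := Real.add_one_le_exp (A * (1 + ‖x‖) ^ ρ)
    linarith

theorem Pg.add {F G : (Fin m → ℂ) → ℂ → ℂ} (hF : Pg F) (hG : Pg G) :
    Pg (fun s x => F s x + G s x) where
  an := hF.an.add hG.an
  gr := by
    intro s₀
    obtain ⟨A, ρ, hA, h⟩ := hF.gr s₀
    obtain ⟨A', ρ', hA', h'⟩ := hG.gr s₀
    refine ⟨A + A', ρ + ρ', by positivity, ?_⟩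
    filter_upwards [h, h'] with s h1 h2 x
    have h3 := mul_le_mul_of_nonneg_left (pow_mono x (Nat.le_add_right ρ ρ')) hA
    have h4 := mul_le_mul_of_nonneg_left (pow_mono x (Nat.le_add_left ρ' ρ)) hA'
    calc ‖F s x + G s x‖ ≤ ‖F s x‖ + ‖G s x‖ := norm_add_le _ _
      _ ≤ A * (1 + ‖x‖) ^ (ρ + ρ') + A' * (1 + ‖x‖) ^ (ρ + ρ') := by
          linarith [h1 x, h2 x]
      _ = _ := by ring

theorem Pg.mul {F G : (Fin m → ℂ) → ℂ → ℂ} (hF : Pg F) (hG : Pg G) :
    Pg (fun s x => F s x * G s x) where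
  an := hF.an.mul hG.an
  gr := by
    intro s₀
    obtain ⟨A, ρ, hA, h⟩ := hF.gr s₀
    obtain ⟨A', ρ', hA', h'⟩ := hG.gr s₀
    refine ⟨A * A', ρ + ρ', by positivity, ?_⟩
    filter_upwards [h, h'] with s h1 h2 x
    calc ‖F s x * G s x‖ = ‖F s x‖ * ‖G s x‖ := norm_mul _ _
      _ ≤ (A * (1 + ‖x‖) ^ ρ) * (A' * (1 + ‖x‖) ^ ρ') :=
          mul_le_mul (h1 x) (h2 x) (norm_nonneg _) (by positivity)
      _ = _ := by rw [pow_add]; ring

theorem Pg.param {f : (Fin m → ℂ) → ℂ} (hf : AnalyticOnNhd ℂ f univ) :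
    Pg (fun s _ => f s) where
  an := by
    rintro ⟨s, x⟩ -
    exact (hf s (mem_univ s)).comp (f := fun p : (Fin m → ℂ) × ℂ => p.1) analyticAt_fst
  gr := by
    intro s₀
    refine ⟨‖f s₀‖ + 1, 0, by positivity, ?_⟩
    have h := ((hf s₀ (mem_univ _)).continuousAt.norm).eventually
      (gt_mem_nhds (show ‖f s₀‖ < ‖f s₀‖ + 1 by linarith))
    filter_upwards [h] with s hs x
    simp only [pow_zero, mul_one]
    exact hs.le

theorem Pg.const (c : ℂ) : Pg (fun (_ : Fin m → ℂ) _ => c) :=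
  Pg.param fun _ _ => analyticAt_const

theorem Pg.var : Pg (fun (_ : Fin m → ℂ) x => x) where
  an := fun _ _ => analyticAt_snd
  gr := by
    intro s₀
    refine ⟨1, 1, by norm_num, Eventually.of_forall fun s x => ?_⟩
    rw [pow_one, one_mul]
    linarith

theorem Pg.coord (i : Fin m) : Pg (fun (s : Fin m → ℂ) (_ : ℂ) => s i) :=
  Pg.param (f := fun s => s i) fun s _ => by
    exact (ContinuousLinearMap.proj (R := ℂ) (φ := fun _ : Fin m => ℂ) i).analyticAt s

theorem Fo.const (c : ℂ) : Fo (fun (_ : Fin m → ℂ) _ => c) := (Pg.const c).fo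

theorem Fo.exp_var : Fo (fun (_ : Fin m → ℂ) x => Complex.exp x) where
  an := fun p _ => analyticAt_snd.cexp
  ord := by
    intro s₀
    refine ⟨1, 1, Eventually.of_forall fun s x => ?_⟩
    rw [Complex.norm_exp, pow_one, one_mul]
    apply Real.exp_le_exp.2
    have := Complex.re_le_norm x
    linarith

theorem Fo.sum {ι : Type*} (s : Finset ι) {F : ι → (Fin m → ℂ) → ℂ → ℂ}
    (h : ∀ i ∈ s, Fo (F i)) : Fo (fun t x => ∑ i ∈ s, F i t x) := by
  classical
  induction s using Finset.induction_on with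
  | empty => simpa using Fo.const 0
  | insert a s ha ih =>
    simp only [Finset.sum_insert ha]
    exact (h a (Finset.mem_insert_self a s)).add
      (ih fun i hi => h i (Finset.mem_insert_of_mem hi))

theorem Fo.prod {ι : Type*} (s : Finset ι) {F : ι → (Fin m → ℂ) → ℂ → ℂ}
    (h : ∀ i ∈ s, Fo (F i)) : Fo (fun t x => ∏ i ∈ s, F i t x) := by
  classical
  induction s using Finset.induction_on with
  | empty => simpa using Fo.const 1
  | insert a s ha ih =>
    simp only [Finset.prod_insert ha]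
    exact (h a (Finset.mem_insert_self a s)).mul
      (ih fun i hi => h i (Finset.mem_insert_of_mem hi))

theorem Fo.pow {F : (Fin m → ℂ) → ℂ → ℂ} (h : Fo F) (n : ℕ) : Fo (fun s x => F s x ^ n) := by
  induction n with
  | zero => simpa using Fo.const 1
  | succ n ih =>
    simp only [pow_succ]
    exact ih.mul h

theorem Pg.sum {ι : Type*} (s : Finset ι) {F : ι → (Fin m → ℂ) → ℂ → ℂ}
    (h : ∀ i ∈ s, Pg (F i)) : Pg (fun t x => ∑ i ∈ s, F i t x) := by
  classical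
  induction s using Finset.induction_on with
  | empty => simpa using Pg.const 0
  | insert a s ha ih =>
    simp only [Finset.sum_insert ha]
    exact (h a (Finset.mem_insert_self a s)).add
      (ih fun i hi => h i (Finset.mem_insert_of_mem hi))

theorem Pg.prod {ι : Type*} (s : Finset ι) {F : ι → (Fin m → ℂ) → ℂ → ℂ}
    (h : ∀ i ∈ s, Pg (F i)) : Pg (fun t x => ∏ i ∈ s, F i t x) := by
  classical
  induction s using Finset.induction_on with
  | empty => simpa using Pg.const 1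
  | insert a s ha ih =>
    simp only [Finset.prod_insert ha]
    exact (h a (Finset.mem_insert_self a s)).mul
      (ih fun i hi => h i (Finset.mem_insert_of_mem hi))

theorem Pg.pow {F : (Fin m → ℂ) → ℂ → ℂ} (h : Pg F) (n : ℕ) : Pg (fun s x => F s x ^ n) := by
  induction n with
  | zero => simpa using Pg.const 1
  | succ n ih =>
    simp only [pow_succ]
    exact ih.mul h

/-- matrices of functions -/
def MFo {d d' : Type} (A : (Fin m → ℂ) → ℂ → Matrix d d' ℂ) : Prop :=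
  ∀ i j, Fo (fun s x => A s x i j)

theorem MFo.add {d d' : Type} {A B : (Fin m → ℂ) → ℂ → Matrix d d' ℂ} (hA : MFo A) (hB : MFo B) :
    MFo (fun s x => A s x + B s x) := fun i j => (hA i j).add (hB i j)

theorem MFo.mul {d d' d'' : Type} [Fintype d'] {A : (Fin m → ℂ) → ℂ → Matrix d d' ℂ}
    {B : (Fin m → ℂ) → ℂ → Matrix d' d'' ℂ} (hA : MFo A) (hB : MFo B) :
    MFo (fun s x => A s x * B s x) := by
  intro i j
  simp only [Matrix.mul_apply]
  exact Fo.sum _ fun k _ => (hA i k).mul (hB k j)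

theorem MFo.scalar {d : Type} [DecidableEq d] [Fintype d] {F : (Fin m → ℂ) → ℂ → ℂ} (hF : Fo F) :
    MFo (d := d) (fun s x => Matrix.scalar d (F s x)) := by
  intro i j
  by_cases h : i = j
  · subst h
    simpa using hF
  · simpa [h] using Fo.const 0

theorem MFo.pow {d : Type} [DecidableEq d] [Fintype d] {A : (Fin m → ℂ) → ℂ → Matrix d d ℂ}
    (hA : MFo A) (n : ℕ) : MFo (fun s x => A s x ^ n) := by
  induction n with
  | zero =>
    intro i j
    simp only [pow_zero]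
    exact Fo.const _
  | succ n ih =>
    simp only [pow_succ]
    exact ih.mul hA

theorem MFo.det {d : Type} [DecidableEq d] [Fintype d] {A : (Fin m → ℂ) → ℂ → Matrix d d ℂ}
    (hA : MFo A) : Fo (fun s x => (A s x).det) := by
  simp only [Matrix.det_apply']
  exact Fo.sum _ fun σ _ => (Fo.const _).mul (Fo.prod _ fun i _ => hA _ _)

section Exp

attribute [local instance] Matrix.linftyOpNormedRing Matrix.linftyOpNormedAlgebra

theorem norm_entry_le {d : ℕ} (M : Matrix (Fin d) (Fin d) ℂ) (i j : Fin d) : ‖M i j‖ ≤ ‖M‖ := by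
  rw [Matrix.linfty_opNorm_def]
  have h1 : ‖M i j‖₊ ≤ ∑ j, ‖M i j‖₊ :=
    Finset.single_le_sum (f := fun j => ‖M i j‖₊) (fun _ _ => zero_le) (Finset.mem_univ j)
  have h2 : ∑ j, ‖M i j‖₊ ≤ Finset.univ.sup fun i => ∑ j, ‖M i j‖₊ :=
    Finset.le_sup (f := fun i => ∑ j, ‖M i j‖₊) (Finset.mem_univ i)
  exact_mod_cast h1.trans h2

theorem norm_le_sum {d : ℕ} (M : Matrix (Fin d) (Fin d) ℂ) : ‖M‖ ≤ ∑ i, ∑ j, ‖M i j‖ := by
  rw [Matrix.linfty_opNorm_def]
  have h1 : (Finset.univ.sup fun i => ∑ j, ‖M i j‖₊) ≤ ∑ i, ∑ j, ‖M i j‖₊ := by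
    apply Finset.sup_le
    intro i _
    exact Finset.single_le_sum (f := fun i => ∑ j, ‖M i j‖₊) (fun _ _ => zero_le)
      (Finset.mem_univ i)
  have h2 : ((∑ i, ∑ j, ‖M i j‖₊ : NNReal) : ℝ) = ∑ i, ∑ j, ‖M i j‖ := by
    push_cast
    rfl
  rw [← h2]
  exact_mod_cast h1

theorem norm_exp_le {d : ℕ} (M : Matrix (Fin d) (Fin d) ℂ) (hd : 0 < d) :
    ‖NormedSpace.exp M‖ ≤ Real.exp ‖M‖ := by
  have : Nonempty (Fin d) := ⟨⟨0, hd⟩⟩
  rw [NormedSpace.exp_eq_tsum ℂ, Real.exp_eq_exp_ℝ, NormedSpace.exp_eq_tsum_div]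
  have hs : Summable fun n : ℕ => ‖M‖ ^ n / (n.factorial : ℝ) := Real.summable_pow_div_factorial _
  refine tsum_of_norm_bounded hs.hasSum ?_
  intro n
  rw [norm_smul]
  have h1 : ‖M ^ n‖ ≤ ‖M‖ ^ n := by
    rcases Nat.eq_zero_or_pos n with rfl | hn
    · simp only [pow_zero]
      rw [Matrix.linfty_opNorm_def]
      have : (Finset.univ.sup fun i : Fin d => ∑ j, ‖(1 : Matrix (Fin d) (Fin d) ℂ) i j‖₊) ≤ 1 := by
        apply Finset.sup_le
        intro i _
        rw [Finset.sum_eq_single i]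
        · simp
        · intro j _ hj
          simp [Matrix.one_apply_ne hj.symm]
        · simp
      exact_mod_cast this
    · exact norm_pow_le' M hn
  have h2 : ‖((n.factorial : ℂ)⁻¹)‖ = (n.factorial : ℝ)⁻¹ := by simp
  rw [h2, div_eq_inv_mul]
  gcongr

theorem MFo.exp {d : ℕ} {A : (Fin m → ℂ) → ℂ → Matrix (Fin d) (Fin d) ℂ}
    (hA : ∀ i j, Pg (fun s x => A s x i j)) : MFo (fun s x => NormedSpace.exp (A s x)) := by
  intro a b
  have hd : 0 < d := lt_of_le_of_lt (Nat.zero_le _) a.isLt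
  constructor
  · rintro ⟨s, x⟩ -
    have h1 : AnalyticAt ℂ (fun p : (Fin m → ℂ) × ℂ => A p.1 p.2) (s, x) := by
      have h2 : (fun p : (Fin m → ℂ) × ℂ => A p.1 p.2) = fun p => ∑ i, ∑ j,
          (A p.1 p.2 i j) • (Matrix.single i j (1 : ℂ)) := by
        funext p
        conv_lhs => rw [Matrix.matrix_eq_sum_single (A p.1 p.2)]
        refine Finset.sum_congr rfl fun i _ => Finset.sum_congr rfl fun j _ => ?_
        rw [Matrix.smul_single, smul_eq_mul, mul_one]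
      rw [h2]
      refine Finset.analyticAt_fun_sum _ fun i _ => Finset.analyticAt_fun_sum _ fun j _ => ?_
      exact ((hA i j).an (s, x) (mem_univ _)).smul analyticAt_const
    have h3 : AnalyticAt ℂ (NormedSpace.exp : Matrix (Fin d) (Fin d) ℂ → _) (A s x) :=
      NormedSpace.exp_analytic _
    have h4 := h3.comp (f := fun p : (Fin m → ℂ) × ℂ => A p.1 p.2) (x := (s, x)) h1
    let L : Matrix (Fin d) (Fin d) ℂ →ₗ[ℂ] ℂ :=
      { toFun := fun M => M a b
        map_add' := fun _ _ => rfl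
        map_smul' := fun _ _ => rfl }
    have h5 : AnalyticAt ℂ (LinearMap.toContinuousLinearMap L)
        (NormedSpace.exp (A s x)) := ContinuousLinearMap.analyticAt _ _
    exact h5.comp (f := fun p : (Fin m → ℂ) × ℂ => NormedSpace.exp (A p.1 p.2)) (x := (s, x)) h4
  · intro s₀
    -- a common bound
    have h2 : ∃ (C : ℝ) (ρ : ℕ), 0 ≤ C ∧ ∀ᶠ s in 𝓝 s₀, ∀ x, ∑ i, ∑ j, ‖A s x i j‖ ≤
        C * (1 + ‖x‖) ^ ρ := by
      choose C ρ hC hb using fun (p : Fin d × Fin d) => (hA p.1 p.2).gr s₀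
      refine ⟨∑ p, C p, ∑ p, ρ p, Finset.sum_nonneg fun p _ => hC p, ?_⟩
      filter_upwards [Filter.eventually_all.2 hb] with s hs x
      rw [← Finset.sum_product', Finset.univ_product_univ, Finset.sum_mul]
      refine Finset.sum_le_sum fun p _ => (hs p x).trans ?_
      exact mul_le_mul_of_nonneg_left (pow_mono x
        (Finset.single_le_sum (f := ρ) (fun _ _ => Nat.zero_le _) (Finset.mem_univ p))) (hC p)
    obtain ⟨C, ρ, hC, hb⟩ := h2
    refine ⟨C, ρ, ?_⟩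
    filter_upwards [hb] with s hs x
    refine (norm_entry_le _ a b).trans ((norm_exp_le _ hd).trans ?_)
    exact Real.exp_le_exp.2 ((norm_le_sum _).trans (hs x))

end Exp

end Pool.Agent.V9h68
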