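import Pool.Agent.V9h68.Alg
import Pool.Agent.V9h68.Fo

/-!
Sets of complex numbers closed under solving exponential polynomial equations in one unknown.
-/

set_option autoImplicit false

namespace Pool.Agent.V9h68

open MvPolynomial

/-- the function `z ↦ P(y, e^y, z, e^z)` -/
noncomputable def EPf {m : ℕ} (P : MvPolynomial (Fin m ⊕ (Fin m ⊕ Fin 2)) ℤ) (y : Fin m → ℂ)
    (z : ℂ) : ℂ :=
  aeval (Sum.elim y (Sum.elim (fun i => Complex.exp (y i)) ![z, Complex.exp z])) P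

theorem EPf_fo {m : ℕ} (P : MvPolynomial (Fin m ⊕ (Fin m ⊕ Fin 2)) ℤ) : Fo (EPf P) := by
  have h : ∀ y z, EPf P y z = ∑ α ∈ P.support, ((P.coeff α : ℤ) : ℂ) *
      ((∏ i, y i ^ α (Sum.inl i)) * ((∏ i, Complex.exp (y i) ^ α (Sum.inr (Sum.inl i))) *
        (z ^ α (Sum.inr (Sum.inr 0)) * Complex.exp z ^ α (Sum.inr (Sum.inr 1))))) := by
    intro y z
    rw [EPf, aeval_def, eval₂_eq']
    refine Finset.sum_congr rfl fun α _ => ?_
    rw [Fintype.prod_sum_type, Fintype.prod_sum_type, Fin.prod_univ_two]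
    simp
  have h' : EPf P = fun y z => _ := funext fun y => funext fun z => h y z
  rw [h']
  refine Fo.sum _ fun α _ => (Fo.const _).mul (Fo.mul ?_ (Fo.mul ?_ (Fo.mul ?_ ?_)))
  · exact Fo.prod _ fun i _ => (Pg.coord i).fo.pow _
  · refine Fo.prod _ fun i _ => Fo.pow ?_ _
    refine (Pg.param (f := fun s => Complex.exp (s i)) fun s _ => ?_).fo
    exact ((ContinuousLinearMap.proj (R := ℂ) (φ := fun _ : Fin m => ℂ) i).analyticAt s).cexp
  · exact Pg.var.fo.pow _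
  · exact Fo.exp_var.pow _

/-- closed under solving exponential polynomial equations in one unknown -/
structure Ec (M : Set ℂ) : Prop where
  cl : ∀ {m : ℕ} (P : MvPolynomial (Fin m ⊕ (Fin m ⊕ Fin 2)) ℤ) (y : Fin m → ℂ),
    (∀ a, y a ∈ M) → (∃ x, EPf P y x ≠ 0) → ∀ z, EPf P y z = 0 → z ∈ M

namespace Ec

variable {M : Set ℂ} (h : Ec M)

include h

theorem zero_mem : (0 : ℂ) ∈ M :=
  h.cl (m := 0) (X (Sum.inr (Sum.inr 0))) ![] (fun a => a.elim0) ⟨1, by simp [EPf]⟩ 0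
    (by simp [EPf])

theorem one_mem : (1 : ℂ) ∈ M :=
  h.cl (m := 0) (X (Sum.inr (Sum.inr 0)) - 1) ![] (fun a => a.elim0) ⟨0, by simp [EPf]⟩ 1
    (by simp [EPf])

theorem add_mem {a b : ℂ} (ha : a ∈ M) (hb : b ∈ M) : a + b ∈ M :=
  h.cl (m := 2) (X (Sum.inr (Sum.inr 0)) - (X (Sum.inl 0) + X (Sum.inl 1))) ![a, b]
    (fun i => by fin_cases i <;> simpa) ⟨a + b + 1, by simp [EPf]⟩ (a + b) (by simp [EPf])

theorem mul_mem {a b : ℂ} (ha : a ∈ M) (hb : b ∈ M) : a * b ∈ M :=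
  h.cl (m := 2) (X (Sum.inr (Sum.inr 0)) - (X (Sum.inl 0) * X (Sum.inl 1))) ![a, b]
    (fun i => by fin_cases i <;> simpa) ⟨a * b + 1, by simp [EPf]⟩ (a * b) (by simp [EPf])

theorem neg_mem {a : ℂ} (ha : a ∈ M) : -a ∈ M :=
  h.cl (m := 1) (X (Sum.inr (Sum.inr 0)) + X (Sum.inl 0)) ![a]
    (fun i => by fin_cases i; simpa) ⟨-a + 1, by simp [EPf]⟩ (-a) (by simp [EPf])

theorem inv_mem {a : ℂ} (ha : a ∈ M) : a⁻¹ ∈ M := by
  by_cases h0 : a = 0
  · rw [h0, inv_zero]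
    exact h.zero_mem
  · exact h.cl (m := 1) (X (Sum.inr (Sum.inr 0)) * X (Sum.inl 0) - 1) ![a]
      (fun i => by fin_cases i; simpa) ⟨0, by simp [EPf]⟩ (a⁻¹) (by simp [EPf, h0])

theorem exp_mem {a : ℂ} (ha : a ∈ M) : Complex.exp a ∈ M :=
  h.cl (m := 1) (X (Sum.inr (Sum.inr 0)) - X (Sum.inr (Sum.inl 0))) ![a]
    (fun i => by fin_cases i; simpa) ⟨Complex.exp a + 1, by simp [EPf]⟩ (Complex.exp a)
    (by simp [EPf])

theorem alg_mem {n : ℕ} (b : Fin n → ℂ) (hb : ∀ i, b i ∈ M) (hne : ∃ i, b i ≠ 0) {z : ℂ}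
    (hz : ∑ i, b i * z ^ (i : ℕ) = 0) : z ∈ M := by
  have key : ∀ x, EPf (∑ i : Fin n, X (Sum.inl i) * X (Sum.inr (Sum.inr 0)) ^ (i : ℕ)) b x =
      ∑ i, b i * x ^ (i : ℕ) := by
    intro x
    simp [EPf]
  refine h.cl (∑ i : Fin n, X (Sum.inl i) * X (Sum.inr (Sum.inr 0)) ^ (i : ℕ)) b hb ?_ z
    (by rw [key]; exact hz)
  by_contra hcon
  push Not at hcon
  obtain ⟨i₀, hi₀⟩ := hne
  let p : Polynomial ℂ := ∑ i : Fin n, Polynomial.C (b i) * Polynomial.X ^ (i : ℕ)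
  have hp : p = 0 := by
    apply Polynomial.funext
    intro x
    have := hcon x
    rw [key] at this
    simp only [p, Polynomial.eval_finsetSum, Polynomial.eval_mul, Polynomial.eval_C,
      Polynomial.eval_pow, Polynomial.eval_X, Polynomial.eval_zero]
    exact this
  have hc : p.coeff i₀ = b i₀ := by
    simp only [p, Polynomial.finsetSum_coeff, Polynomial.coeff_C_mul, Polynomial.coeff_X_pow]
    rw [Finset.sum_eq_single i₀]
    · simp
    · intro j _ hj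
      rw [if_neg, mul_zero]
      intro h2
      exact hj (Fin.ext h2).symm
    · intro h2
      exact absurd (Finset.mem_univ _) h2
  rw [hp, Polynomial.coeff_zero] at hc
  exact hi₀ hc.symm

/-- the field -/
def fld : Subfield ℂ where
  carrier := M
  mul_mem' := h.mul_mem
  one_mem' := h.one_mem
  add_mem' := h.add_mem
  zero_mem' := h.zero_mem
  neg_mem' := h.neg_mem
  inv_mem' := fun _ => h.inv_mem

omit h in
theorem mem_fld (h : Ec M) {a : ℂ} : a ∈ h.fld ↔ a ∈ M := Iff.rfl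

theorem isAlg_mem {z : ℂ} (hz : IsAlgebraic h.fld z) : z ∈ M := by
  obtain ⟨p, hp, hpz⟩ := hz
  refine h.alg_mem (n := p.natDegree + 1) (fun i => ((p.coeff i : h.fld) : ℂ))
    (fun i => (p.coeff i).2) ⟨Fin.last _, ?_⟩ ?_
  · rw [Fin.val_last]
    intro h0
    apply hp
    rw [← Polynomial.leadingCoeff_eq_zero]
    exact Subtype.ext h0
  · rw [Polynomial.aeval_eq_sum_range, ← Fin.sum_univ_eq_sum_range
      (fun i => p.coeff i • z ^ i)] at hpz
    exact hpz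

end Ec

/-- a map of sets which respects sums and products gives a homomorphism of the fields -/
theorem exists_hom {M M' : Set ℂ} (hM : Ec M) (σ : M → M') (hσ : Function.Injective σ)
    (hadd : ∀ a b c : M, (a : ℂ) + b = c → (σ a : ℂ) + σ b = σ c)
    (hmul : ∀ a b c : M, (a : ℂ) * b = c → (σ a : ℂ) * σ b = σ c) :
    ∃ φ : hM.fld →+* ℂ, ∀ a : hM.fld, φ a = σ ⟨a, a.2⟩ := by
  let f : hM.fld → ℂ := fun a => σ ⟨a, a.2⟩
  have h0 : f 0 = 0 := by
    have := hadd ⟨0, hM.zero_mem⟩ ⟨0, hM.zero_mem⟩ ⟨0, hM.zero_mem⟩ (add_zero 0)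
    exact add_eq_right.1 this
  have h1 : f 1 = 1 := by
    have h2 := hmul ⟨1, hM.one_mem⟩ ⟨1, hM.one_mem⟩ ⟨1, hM.one_mem⟩ (one_mul 1)
    have h3 : f 1 ≠ 0 := by
      intro h3
      have h4 : σ ⟨1, hM.one_mem⟩ = σ ⟨0, hM.zero_mem⟩ := Subtype.ext (h3.trans h0.symm)
      have h5 := congrArg Subtype.val (hσ h4)
      exact one_ne_zero h5
    exact mul_left_cancel₀ h3 (h2.trans (mul_one _).symm)
  exact ⟨
    { toFun := f
      map_one' := h1
      map_mul' := fun a b => (hmul ⟨a, a.2⟩ ⟨b, b.2⟩ ⟨a * b, (a * b).2⟩ rfl).symm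
      map_zero' := h0
      map_add' := fun a b => (hadd ⟨a, a.2⟩ ⟨b, b.2⟩ ⟨a + b, (a + b).2⟩ rfl).symm },
    fun a => rfl⟩

end Pool.Agent.V9h68
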