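import Mathlib
import Pool.Agent.Y776.Sys
import Pool.Agent.Y776.Chain
import Pool.Agent.Y776.Cv.AxM

/-!
Countable fields over which the theorem of Ax holds for complex numbers.
-/

set_option autoImplicit false

open MvPolynomial Set Filter
open scoped Topology

noncomputable section

namespace Pool.Agent.V9h68

open Pool.Agent.Y776 Pool.Agent.Y685
open Pool.Agent.TH813.Rel (MK mem_cl subset_cl rk_le_of_subset_cl)

theorem indep_base {K K' : Type} [Field K] [Field K'] [Algebra K ℂ] [Algebra K' ℂ] (g : K →+* K')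
    (hg : ∀ x, algebraMap K' ℂ (g x) = algebraMap K ℂ x) {ι : Type} {x : ι → ℂ}
    (h : AlgebraicIndependent K' x) : AlgebraicIndependent K x := by
  rw [algebraicIndependent_iff] at h ⊢
  intro p hp
  have h1 : MvPolynomial.map g p = 0 := by
    apply h
    rw [aeval_def, eval₂_map]
    have h2 : (algebraMap K' ℂ).comp g = algebraMap K ℂ := RingHom.ext hg
    rw [h2]
    exact hp
  exact (MvPolynomial.map_injective g g.injective) (by rw [h1, map_zero])

theorem eRk_base {K K' : Type} [Field K] [Field K'] [Algebra K ℂ] [Algebra K' ℂ] (g : K →+* K')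
    (hg : ∀ x, algebraMap K' ℂ (g x) = algebraMap K ℂ x) (X : Set ℂ) :
    (MK K').eRk X ≤ (MK K).eRk X := by
  obtain ⟨I, hI⟩ := (MK K').exists_isBasis X (Set.subset_univ _)
  rw [hI.eRk_eq_encard]
  have h1 : (MK K).Indep I := by
    rw [AlgebraicIndependent.matroid_indep_iff]
    exact indep_base g hg (AlgebraicIndependent.matroid_indep_iff.1 hI.indep)
  rw [← h1.eRk_eq_encard]
  exact (MK K).eRk_mono hI.subset

/-- the derivatives of `x` and `e^x` -/
def PE (n : ℕ) : Fin n → Fin n ⊕ Fin n → MvPolynomial (Fin n ⊕ Fin n) ℚ := fun j =>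
  Sum.elim (fun i => if i = j then 1 else 0) (fun i => if i = j then X (Sum.inr i) else 0)

/-- `(x, e^x)` -/
def xp {n : ℕ} (x : Fin n → ℂ) : Fin n ⊕ Fin n → ℂ := Sum.elim x fun i => Complex.exp (x i)

theorem xp_der {n : ℕ} (x : Fin n → ℂ) (s : Fin n ⊕ Fin n) :
    HasFDerivAt (fun y : Fin n → ℂ => xp y s) (∑ j, (aeval (xp x) (PE n j s)) •
      (ContinuousLinearMap.proj j : (Fin n → ℂ) →L[ℂ] ℂ)) x := by
  rcases s with i | i
  · have h1 : (∑ j, (aeval (xp x) (PE n j (Sum.inl i))) •
        (ContinuousLinearMap.proj j : (Fin n → ℂ) →L[ℂ] ℂ)) = ContinuousLinearMap.proj i := by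
      rw [Finset.sum_eq_single i]
      · simp [PE]
      · intro j _ hj
        simp only [PE, Sum.elim_inl, if_neg hj.symm, map_zero]
        exact ContinuousLinearMap.ext fun v => zero_mul (v j)
      · intro h
        exact absurd (Finset.mem_univ _) h
    rw [h1]
    exact hasFDerivAt_apply i x
  · have h1 : (∑ j, (aeval (xp x) (PE n j (Sum.inr i))) •
        (ContinuousLinearMap.proj j : (Fin n → ℂ) →L[ℂ] ℂ)) =
          Complex.exp (x i) • ContinuousLinearMap.proj i := by
      rw [Finset.sum_eq_single i]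
      · simp [PE, xp]
      · intro j _ hj
        simp only [PE, Sum.elim_inr, if_neg hj.symm, map_zero]
        exact ContinuousLinearMap.ext fun v => zero_mul (v j)
      · intro h
        exact absurd (Finset.mem_univ _) h
    rw [h1]
    exact (hasFDerivAt_apply (𝕜 := ℂ) (F' := fun _ : Fin n => ℂ) i x).cexp

/-- the exceptional numbers -/
def badX (K : Subfield ℂ) : Set ℂ :=
  {c | ∃ (n : ℕ) (x : Fin n → ℂ) (j : Fin n), x j = c ∧ ¬ Good (PE n) K (xp x) j}

theorem countable_badX {K : Subfield ℂ} (hK : (K : Set ℂ).Countable) : (badX K).Countable := by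
  have h1 : badX K = ⋃ n : ℕ, ⋃ j : Fin n,
      {c : ℂ | ∃ a ∈ (univ : Set (Fin n → ℂ)), a j = c ∧ ¬ Good (PE n) K (xp a) j} := by
    ext c
    simp only [badX, Set.mem_ofPred_eq, mem_iUnion, mem_univ, true_and]
    constructor
    · rintro ⟨n, x, j, h1, h2⟩
      exact ⟨n, j, x, h1, h2⟩
    · rintro ⟨n, j, x, h1, h2⟩
      exact ⟨n, x, j, h1, h2⟩
  rw [h1]
  refine Set.countable_iUnion fun n => Set.countable_iUnion fun j => ?_
  exact countable_bad (PE n) hK isOpen_univ (Φ := xp) (fun x _ s => xp_der x s)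
    (s₀ := Sum.inl j) fun x => rfl

/-- the closure property of a field with enough derivations -/
theorem exists_der {S : Set ℂ} (hS : S.Countable) : ∃ F : Subfield ℂ,
    (F : Set ℂ).Countable ∧ S ⊆ F ∧ (∀ x, IsAlgebraic F x → x ∈ F) ∧
    ∀ (n : ℕ) (x : Fin n → ℂ) (j : Fin n), x j ∉ F → ∃ D : Derivation ℚ ℂ ℂ,
      (∀ c ∈ F, D c = 0) ∧ D (x j) = 1 ∧ ∀ i, Tf D (x i) = 0 := by
  obtain ⟨K, F, hmono, hF, hFc, hSF, hT, halg⟩ := exists_chain badX
    (fun k hk => countable_badX hk) hS
  refine ⟨F, hFc, hSF, halg, fun n x j hx => ?_⟩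
  have hg : ∀ i, Good (PE n) (K i) (xp x) j := by
    intro i
    by_contra hbad
    exact hx (hT i ⟨n, x, j, rfl, hbad⟩)
  obtain ⟨D, v, h1, h2, h3⟩ := good_der (good_union hmono (fun y hy => (hF y).1 hy) hg)
  have h4 : ∀ i, D (x i) = v i := by
    intro i
    have h5 := h3 (Sum.inl i)
    rw [Finset.sum_eq_single i] at h5
    · simpa [PE, xp] using h5
    · intro k _ hk
      simp [PE, hk.symm]
    · intro h
      exact absurd (Finset.mem_univ _) h
  have h6 : ∀ i, D (Complex.exp (x i)) = v i * Complex.exp (x i) := by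
    intro i
    have h5 := h3 (Sum.inr i)
    rw [Finset.sum_eq_single i] at h5
    · simpa [PE, xp] using h5
    · intro k _ hk
      simp [PE, hk.symm]
    · intro h
      exact absurd (Finset.mem_univ _) h
  refine ⟨D, h1, ?_, fun i => ?_⟩
  · rw [h4, h2]
  · unfold Tf lg
    rw [h4, h6, mul_div_assoc, div_self (Complex.exp_ne_zero _), mul_one, sub_self]

/-- a countable field over which the theorem of Ax holds -/
structure GF (K : Subfield ℂ) : Prop where
  cnt : (K : Set ℂ).Countable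
  alg : ∀ x, IsAlgebraic K x → x ∈ K
  exp : ∀ x ∈ K, Complex.exp x ∈ K
  rk : ∀ (n : ℕ) (x : Fin n → ℂ), 0 < n → (∀ q : Fin n → ℚ, ∑ i, q i • x i ∈ K → q = 0) →
    ((n + 1 : ℕ) : ℕ∞) ≤ (MK K).eRk (ET x)

/-- Ax's theorem for one derivation -/
theorem ax_one {D : Derivation ℚ ℂ ℂ} {n : ℕ} (hn : 0 < n) {x : Fin n → ℂ}
    (hx : ∀ i, Tf D (x i) = 0) (hq : ∀ q : Fin n → ℚ, D (∑ i, q i • x i) = 0 → q = 0) :
    ((n + 1 : ℕ) : ℕ∞) ≤ (MK (Cst D)).eRk (ET x) := by
  have h := Pool.Agent.Y776.Cv.ax_multi (q := 0) (n := 0) (Λ := Fin.elim0) (κ := Fin.elim0)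
    (ty := Fin.elim0) (z := Fin.elim0) (D := D) (t := x) (fun c => c.elim0) (fun c => c.elim0)
    (fun c => c.elim0) (fun c => c.elim0) (fun i => i.elim0) hx (fun c => c.elim0) hq (by omega)
  have h1 : Pool.Agent.Y776.Cv.EPM (Fin.elim0 : Fin 0 → PeriodPair) (Fin.elim0 : Fin 0 → Fin 0)
      (Fin.elim0 : Fin 0 → ℂ) = ∅ := by
    unfold Pool.Agent.Y776.Cv.EPM
    rw [Set.range_eq_empty, Set.range_eq_empty, Set.range_eq_empty]
    simp
  rw [h1, Set.union_empty] at h
  simpa using h

theorem exists_GF {S : Set ℂ} (hS : S.Countable) : ∃ K : Subfield ℂ, GF K ∧ S ⊆ K := by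
  obtain ⟨K, hc, hSK, halg, hder⟩ := exists_der hS
  refine ⟨K, ⟨hc, halg, ?_, ?_⟩, hSK⟩
  · intro x hx
    by_contra hex
    obtain ⟨D, h1, h2, h3⟩ := hder 2 ![Complex.exp x, x] 0 hex
    have h4 := D_exp (h3 1)
    simp only [Matrix.cons_val_one, Matrix.cons_val_zero] at h2 h4
    rw [h2, h1 x hx, mul_zero] at h4
    exact one_ne_zero h4
  · intro n x hn hx
    -- the space of derivations
    let V : Submodule ℂ (Derivation ℚ ℂ ℂ) :=
      { carrier := {D | (∀ c ∈ K, D c = 0) ∧ ∀ i, Tf D (x i) = 0}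
        add_mem' := by
          rintro a b ⟨ha1, ha2⟩ ⟨hb1, hb2⟩
          refine ⟨fun c hcK => ?_, fun i => ?_⟩
          · rw [Derivation.add_apply, ha1 c hcK, hb1 c hcK, add_zero]
          · rw [Tf_add_der, ha2, hb2, add_zero]
        zero_mem' := by
          refine ⟨fun c _ => rfl, fun i => ?_⟩
          unfold Tf lg
          simp
        smul_mem' := by
          rintro a D ⟨h1, h2⟩
          refine ⟨fun c hcK => ?_, fun i => ?_⟩
          · rw [Derivation.smul_apply, h1 c hcK, smul_zero]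
          · rw [Tf_smul_der, h2, mul_zero] }
    let ev : V →ₗ[ℂ] (Fin n → ℂ) :=
      { toFun := fun D i => (D : Derivation ℚ ℂ ℂ) (x i)
        map_add' := fun _ _ => rfl
        map_smul' := fun _ _ => rfl }
    obtain ⟨D, hD⟩ := exists_generic ev (S := (fun q : Fin n → ℚ => fun i => (q i : ℂ)) '' {q | q ≠ 0})
      ((Set.to_countable _).image _) (by
        rintro _ ⟨q, hq, rfl⟩
        have hqK : ∑ i, q i • x i ∉ K := fun h => hq (hx q h)
        obtain ⟨D, h1, h2, h3⟩ := hder (n + 1) (Fin.cons (∑ i, q i • x i) x) 0 (by simpa using hqK)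
        refine ⟨⟨D, h1, fun i => ?_⟩, ?_⟩
        · simpa using h3 i.succ
        · have h4 : ∑ j, (q j : ℂ) * ev ⟨D, h1, fun i => by simpa using h3 i.succ⟩ j =
              D (∑ i, q i • x i) := by
            rw [map_sum]
            refine Finset.sum_congr rfl fun j _ => ?_
            rw [Derivation.map_smul, Rat.smul_def]
            rfl
          rw [h4]
          simp only [Fin.cons_zero] at h2
          rw [h2]
          exact one_ne_zero)
    have hq : ∀ q : Fin n → ℚ, (D : Derivation ℚ ℂ ℂ) (∑ i, q i • x i) = 0 → q = 0 := by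
      intro q hq0
      by_contra hne
      apply hD _ ⟨q, hne, rfl⟩
      rw [← hq0, map_sum]
      refine Finset.sum_congr rfl fun j _ => ?_
      rw [Derivation.map_smul, Rat.smul_def]
      rfl
    refine (ax_one hn D.2.2 hq).trans ?_
    refine eRk_base (K := K) (K' := Cst (D : Derivation ℚ ℂ ℂ))
      { toFun := fun c => ⟨c, D.2.1 c c.2⟩
        map_one' := rfl
        map_mul' := fun _ _ => rfl
        map_zero' := rfl
        map_add' := fun _ _ => rfl } (fun x => rfl) _

end Pool.Agent.V9h68
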