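import Pool.Agent.V9h68.Ku3
import Pool.Agent.V9h68.Au

/-!
The type of a tuple and of all roots of the exponentials of its coordinates is determined at a
finite level.
-/

set_option autoImplicit false

open MvPolynomial Set

noncomputable section

namespace Pool.Agent.V9h68

/-- `∑ r_i a_i` -/
def lc {p : ℕ} (a : Fin p → ℂ) (r : Fin p → ℚ) : ℂ := ∑ i, r i • a i

theorem lc_add {p : ℕ} (a : Fin p → ℂ) (r r' : Fin p → ℚ) : lc a (r + r') = lc a r + lc a r' := by
  unfold lc
  rw [← Finset.sum_add_distrib]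
  exact Finset.sum_congr rfl fun i _ => add_smul _ _ _

theorem lc_neg {p : ℕ} (a : Fin p → ℂ) (r : Fin p → ℚ) : lc a (-r) = -lc a r := by
  unfold lc
  rw [← Finset.sum_neg_distrib]
  exact Finset.sum_congr rfl fun i _ => neg_smul _ _

theorem lc_sub {p : ℕ} (a : Fin p → ℂ) (r r' : Fin p → ℚ) : lc a (r - r') = lc a r - lc a r' := by
  rw [sub_eq_add_neg, lc_add, lc_neg, ← sub_eq_add_neg]

theorem lc_zero {p : ℕ} (a : Fin p → ℂ) : lc a 0 = 0 := by
  unfold lc
  simp

theorem lc_nsmul {p : ℕ} (a : Fin p → ℂ) (n : ℕ) (r : Fin p → ℚ) : lc a (n • r) = n * lc a r := by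
  unfold lc
  rw [Finset.mul_sum]
  refine Finset.sum_congr rfl fun i _ => ?_
  rw [Rat.smul_def, Rat.smul_def, Pi.smul_apply, nsmul_eq_mul]
  push_cast
  ring

theorem lc_single {p : ℕ} (a : Fin p → ℂ) (i : Fin p) (q : ℚ) : lc a (Pi.single i q) = q • a i := by
  unfold lc
  rw [Finset.sum_eq_single i]
  · rw [Pi.single_eq_same]
  · intro j _ hj
    rw [Pi.single_eq_of_ne hj, zero_smul]
  · intro h
    exact absurd (Finset.mem_univ _) h

/-- equality of the types of `(a, e^{a/M})` over `K` -/
def LIso (K : Subfield ℂ) (M : ℕ) {p : ℕ} (a a' : Fin p → ℂ) : Prop :=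
  ∃ σ : ℂ ≃+* ℂ, (∀ c ∈ K, σ c = c) ∧ (∀ i, σ (a i) = a' i) ∧
    ∀ i, σ (Complex.exp (a i / M)) = Complex.exp (a' i / M)

/-- equality of the types of `a` and of all roots of exponentials of combinations -/
def Iso (K : Subfield ℂ) {p : ℕ} (a a' : Fin p → ℂ) : Prop :=
  ∃ σ : ℂ ≃+* ℂ, (∀ c ∈ K, σ c = c) ∧ (∀ i, σ (a i) = a' i) ∧
    ∀ r : Fin p → ℚ, σ (Complex.exp (lc a r)) = Complex.exp (lc a' r)

/-- there is a conjugate -/
theorem exists_conj {E : Type} [Field E] [Algebra E ℂ] [Countable E] {h : ℂ}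
    (hh : IsAlgebraic E h) (hE : h ∉ range (algebraMap E ℂ)) :
    ∃ σ : ℂ ≃+* ℂ, (∀ c : E, σ (algebraMap E ℂ c) = algebraMap E ℂ c) ∧ σ h ≠ h := by
  classical
  have : CharZero E := (algebraMap E ℂ).charZero
  let f := minpoly E h
  have hint : IsIntegral E h := hh.isIntegral
  have hfi : Irreducible f := minpoly.irreducible hint
  have hsep : f.Separable := hfi.separable
  have hdeg : 1 < f.natDegree := by
    have h1 : 0 < f.natDegree := minpoly.natDegree_pos hint
    by_contra h2
    have h3 : f.natDegree = 1 := by omega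
    apply hE
    exact minpoly.mem_range_of_degree_eq_one E h
      (by rw [Polynomial.degree_eq_natDegree hfi.ne_zero]; exact_mod_cast h3)
  have hcard : Fintype.card (f.rootSet ℂ) = f.natDegree :=
    Polynomial.card_rootSet_eq_natDegree hsep (IsAlgClosed.splits _)
  have hhr : h ∈ f.rootSet ℂ := by
    rw [Polynomial.mem_rootSet]
    exact ⟨hfi.ne_zero, minpoly.aeval E h⟩
  obtain ⟨⟨h₂, h₂r⟩, h₂ne⟩ := Fintype.exists_ne_of_one_lt_card (by rw [hcard]; exact hdeg)
    (⟨h, hhr⟩ : f.rootSet ℂ)
  have hne : h₂ ≠ h := fun h3 => h₂ne (Subtype.ext h3)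
  have hroot2 : Polynomial.aeval h₂ f = 0 := (Polynomial.mem_rootSet.1 h₂r).2
  have hmin : minpoly E h₂ = f :=
    (minpoly.eq_of_irreducible_of_monic hfi hroot2 (minpoly.monic hint)).symm
  have hev : ∀ (z : ℂ) (P : MvPolynomial Unit E), eval₂ (algebraMap E ℂ) (fun _ => z) P =
      Polynomial.aeval z (uniqueAlgEquiv E Unit P) := by
    intro z P
    have e : (aeval (fun _ : Unit => z) : MvPolynomial Unit E →ₐ[E] ℂ) =
        (Polynomial.aeval z).comp (uniqueAlgEquiv E Unit : MvPolynomial Unit E →ₐ[E] Polynomial E) := by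
      apply MvPolynomial.algHom_ext
      intro i
      simp
    have e2 := DFunLike.congr_fun e P
    rw [aeval_def] at e2
    exact e2
  obtain ⟨σ, hσ1, hσ2⟩ := aut_tuple (K := E) (ι := Unit) (algebraMap E ℂ) (algebraMap E ℂ)
    (fun _ => h) (fun _ => h₂) (fun P => by
      rw [hev, hev, ← minpoly.dvd_iff, ← minpoly.dvd_iff, hmin])
  exact ⟨σ, hσ1, by rw [hσ2 ()]; exact hne⟩

section Kum

variable {K : Subfield ℂ} {p : ℕ} {a : Fin p → ℂ}

/-- powers of the exponentials are in the field -/
theorem exp_pow_mem {E : IntermediateField K ℂ} (haE : ∀ i, Complex.exp (a i) ∈ E)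
    (r : Fin p → ℚ) : ∃ m : ℕ, 0 < m ∧ Complex.exp (lc a r) ^ m ∈ E := by
  classical
  refine ⟨∏ i, (r i).den, Finset.prod_pos fun i _ => (r i).den_pos, ?_⟩
  rw [← Complex.exp_nat_mul, ← lc_nsmul]
  unfold lc
  rw [Complex.exp_sum]
  refine prod_mem fun i _ => ?_
  have h1 : ∏ i, (r i).den = (r i).den * ∏ j ∈ Finset.univ.erase i, (r j).den :=
    (Finset.mul_prod_erase Finset.univ (fun j => (r j).den) (Finset.mem_univ i)).symm
  have h2 : ((∏ i, (r i).den) • r) i • a i =
      (((∏ j ∈ Finset.univ.erase i, (r j).den : ℕ) * (r i).num : ℤ) : ℂ) * a i := by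
    rw [Pi.smul_apply, h1, Rat.smul_def, nsmul_eq_mul]
    congr 1
    have h3 : ((r i).den : ℚ) * r i = (r i).num := by
      rw [mul_comm]; exact Rat.mul_den_eq_num (r i)
    have h4 := congrArg (fun y : ℚ => (y : ℂ)) h3
    push_cast at h4 ⊢
    rw [mul_comm ((r i).den : ℂ), mul_assoc, h4]
  rw [h2, Complex.exp_int_mul]
  exact zpow_mem (haE i) _

/-- monomials in the exponentials are linearly independent -/
theorem mono_indep (hK : ∀ x, IsAlgebraic K x → x ∈ K) (E : IntermediateField K ℂ) [Countable E]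
    (haE : ∀ i, Complex.exp (a i) ∈ E) (S : Finset (Fin p → ℚ))
    (hS : ∀ r ∈ S, ∀ r' ∈ S, Complex.exp (lc a (r - r')) ∈ E → r = r')
    (c : (Fin p → ℚ) → ℂ) (hc : ∀ r ∈ S, c r ∈ E)
    (h0 : ∑ r ∈ S, c r * Complex.exp (lc a r) = 0) : ∀ r ∈ S, c r = 0 := by
  classical
  induction S using Finset.strongInduction generalizing c with
  | H S ih =>
    rcases S.eq_empty_or_nonempty with rfl | ⟨r₀, hr₀⟩
    · intro r hr
      exact absurd hr (Finset.notMem_empty _)
    have key : ∀ r ∈ S, r ≠ r₀ → c r = 0 := by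
      intro r₁ hr₁ hne
      have hh : Complex.exp (lc a (r₁ - r₀)) ∉ E := fun h => hne (hS r₁ hr₁ r₀ hr₀ h)
      have halg : IsAlgebraic E (Complex.exp (lc a (r₁ - r₀))) := by
        obtain ⟨m, hm, hmE⟩ := exp_pow_mem (E := E) haE (r₁ - r₀)
        refine IsAlgebraic.of_pow hm ?_
        exact isAlgebraic_algebraMap (⟨_, hmE⟩ : E)
      obtain ⟨σ, hσ1, hσ2⟩ := exists_conj halg (by
        rintro ⟨e, he⟩
        exact hh (by rw [← he]; exact e.2))
      have hσE : ∀ z ∈ E, σ z = z := fun z hz => hσ1 ⟨z, hz⟩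
      let χ : (Fin p → ℚ) → ℂ := fun r => σ (Complex.exp (lc a r)) / Complex.exp (lc a r)
      have hχ : ∀ r, σ (Complex.exp (lc a r)) = χ r * Complex.exp (lc a r) := by
        intro r
        simp only [χ]
        rw [div_mul_cancel₀ _ (Complex.exp_ne_zero _)]
      have hχE : ∀ r, χ r ∈ E := by
        intro r
        obtain ⟨m, hm, hmE⟩ := exp_pow_mem (E := E) haE r
        have h1 : χ r ^ m = 1 := by
          simp only [χ]
          rw [div_pow, ← map_pow, hσE _ hmE, div_self (pow_ne_zero _ (Complex.exp_ne_zero _))]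
        have h2 : χ r ∈ K := by
          apply hK
          refine ⟨Polynomial.X ^ m - 1, Polynomial.X_pow_sub_C_ne_zero hm 1, ?_⟩
          rw [map_sub, map_pow, Polynomial.aeval_X, map_one, h1, sub_self]
        exact E.algebraMap_mem ⟨_, h2⟩
      have hχ0 : χ 0 = 1 := by
        simp only [χ]
        rw [lc_zero, Complex.exp_zero, map_one, div_one]
      have e1 : ∑ r ∈ S, c r * Complex.exp (lc a (r - r₀)) = 0 := by
        have h1 : ∀ r ∈ S, c r * Complex.exp (lc a (r - r₀)) =
            (c r * Complex.exp (lc a r)) * (Complex.exp (lc a r₀))⁻¹ := by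
          intro r _
          rw [lc_sub, Complex.exp_sub]
          ring
        rw [Finset.sum_congr rfl h1, ← Finset.sum_mul, h0, zero_mul]
      have e2 : ∑ r ∈ S, c r * (χ (r - r₀) * Complex.exp (lc a (r - r₀))) = 0 := by
        have h1 := congrArg σ e1
        rw [map_zero, map_sum] at h1
        rw [← h1]
        refine Finset.sum_congr rfl fun r hr => ?_
        rw [map_mul, hσE _ (hc r hr), hχ]
      have e3 : ∑ r ∈ S, (c r * (χ (r - r₀) - 1)) * Complex.exp (lc a r) = 0 := by
        have h1 : ∀ r ∈ S, (c r * (χ (r - r₀) - 1)) * Complex.exp (lc a r) =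
            (c r * (χ (r - r₀) * Complex.exp (lc a (r - r₀))) -
              c r * Complex.exp (lc a (r - r₀))) * Complex.exp (lc a r₀) := by
          intro r _
          rw [lc_sub, Complex.exp_sub]
          have := Complex.exp_ne_zero (lc a r₀)
          field_simp
        rw [Finset.sum_congr rfl h1, ← Finset.sum_mul, Finset.sum_sub_distrib, e1, e2, sub_zero,
          zero_mul]
      have e4 : ∑ r ∈ S.erase r₀, (c r * (χ (r - r₀) - 1)) * Complex.exp (lc a r) = 0 := by
        rw [← Finset.add_sum_erase S _ hr₀] at e3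
        rw [sub_self, hχ0, sub_self, mul_zero, zero_mul, zero_add] at e3
        exact e3
      have h5 := ih (S.erase r₀) (Finset.erase_ssubset hr₀)
        (fun r hr r' hr' => hS r (Finset.mem_of_mem_erase hr) r' (Finset.mem_of_mem_erase hr'))
        (fun r => c r * (χ (r - r₀) - 1))
        (fun r hr => mul_mem (hc r (Finset.mem_of_mem_erase hr))
          (sub_mem (hχE _) (one_mem _))) e4 r₁ (Finset.mem_erase.2 ⟨hne, hr₁⟩)
      rcases mul_eq_zero.1 h5 with h | h
      · exact h
      · exfalso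
        apply hσ2
        rw [hχ, sub_eq_zero.1 h, one_mul]
    intro r hr
    by_cases hrr : r = r₀
    · subst hrr
      rw [← Finset.add_sum_erase S _ hr] at h0
      have h1 : ∑ x ∈ S.erase r, c x * Complex.exp (lc a x) = 0 := by
        refine Finset.sum_eq_zero fun x hx => ?_
        rw [key x (Finset.mem_of_mem_erase hx) (Finset.ne_of_mem_erase hx), zero_mul]
      rw [h1, add_zero] at h0
      exact (mul_eq_zero.1 h0).resolve_right (Complex.exp_ne_zero _)
    · exact key r hr hrr

/-- the numbers `a`, `e^a` -/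
theorem adj_countable [Countable K] (x : Fin p ⊕ Fin p → ℂ) :
    Countable (IntermediateField.adjoin K (range x)) := by
  have hc : Countable (MvPolynomial (Fin p ⊕ Fin p) K) := by
    rw [← Cardinal.mk_le_aleph0_iff]
    refine MvPolynomial.cardinalMk_le_max.trans ?_
    simp
  have h1 : (IntermediateField.adjoin K (range x) : Set ℂ) ⊆
      range (fun rs : MvPolynomial (Fin p ⊕ Fin p) K × MvPolynomial (Fin p ⊕ Fin p) K =>
        aeval x rs.1 / aeval x rs.2) := by
    intro z hz
    obtain ⟨r, s, hrs⟩ := (IntermediateField.mem_adjoin_range_iff K x z).1 hz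
    exact ⟨(r, s), hrs.symm⟩
  exact ((Set.countable_range _).mono h1).to_subtype

/-- the coordinates, and the exponentials of all rational combinations -/
def gg (a : Fin p → ℂ) : Fin p ⊕ (Fin p → ℚ) → ℂ := Sum.elim a fun r => Complex.exp (lc a r)

/-- the exponent of a monomial -/
def rho (e : Fin p ⊕ (Fin p → ℚ) →₀ ℕ) : Fin p → ℚ :=
  e.sum fun i n => Sum.elim (fun _ => 0) (fun r => n • r) i

theorem eval_mono (a : Fin p → ℂ) (e : Fin p ⊕ (Fin p → ℚ) →₀ ℕ) :
    e.prod (fun i n => gg a i ^ n) = (∏ i : Fin p, a i ^ e (Sum.inl i)) *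
      Complex.exp (lc a (rho e)) := by
  classical
  induction e using Finsupp.induction_linear with
  | zero => simp [rho, lc_zero]
  | add e f he hf =>
    rw [Finsupp.prod_add_index (fun _ _ => pow_zero _) (fun _ _ _ _ => pow_add _ _ _), he, hf]
    have h1 : rho (e + f) = rho e + rho f := by
      unfold rho
      rw [Finsupp.sum_add_index]
      · rintro (i | r) _ <;> simp
      · rintro (i | r) _ n m <;> simp [add_mul]
    rw [h1, lc_add, Complex.exp_add]
    simp only [Finsupp.add_apply, pow_add, Finset.prod_mul_distrib]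
    ring
  | single i n =>
    rw [Finsupp.prod_single_index (h := fun i n => gg a i ^ n) (pow_zero _)]
    unfold rho
    rcases i with i | r
    · rw [Finsupp.sum_single_index (by simp)]
      simp only [Sum.elim_inl, lc_zero, Complex.exp_zero, mul_one, gg]
      rw [Finset.prod_eq_single i]
      · simp
      · intro j _ hj
        rw [Finsupp.single_apply, if_neg (fun h => hj (Sum.inl_injective h).symm), pow_zero]
      · intro h
        exact absurd (Finset.mem_univ _) h
    · rw [Finsupp.sum_single_index (by simp)]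
      simp only [Sum.elim_inr, gg]
      rw [lc_nsmul, Complex.exp_nat_mul]
      have h1 : ∏ i : Fin p, a i ^ (Finsupp.single (Sum.inr r : Fin p ⊕ (Fin p → ℚ)) n)
          (Sum.inl i) = 1 := by
        refine Finset.prod_eq_one fun i _ => ?_
        rw [Finsupp.single_apply, if_neg (by simp), pow_zero]
      rw [h1, one_mul]

theorem eval_gg (a : Fin p → ℂ) (P : MvPolynomial (Fin p ⊕ (Fin p → ℚ)) K) :
    eval₂ K.subtype (gg a) P = ∑ e ∈ P.support, ((P.coeff e : K) : ℂ) *
      (∏ i : Fin p, a i ^ e (Sum.inl i)) * Complex.exp (lc a (rho e)) := by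
  rw [eval₂_eq]
  refine Finset.sum_congr rfl fun e _ => ?_
  have := eval_mono a e
  rw [Finsupp.prod] at this
  rw [this, mul_assoc]
  rfl

/-- relations pass to tuples with the same type at a suitable level -/
theorem kum_fwd [Countable K] (hK : ∀ x, IsAlgebraic K x → x ∈ K)
    {M : ℕ} (hM : 0 < M) (hMr : ∀ r : Fin p → ℚ,
      Complex.exp (lc a r) ∈ IntermediateField.adjoin K (range (xp a)) →
      ∃ s : Fin p → ℤ, ∀ i, (M : ℚ) * r i = s i) {a' : Fin p → ℂ} (hL : LIso K M a a')
    (P : MvPolynomial (Fin p ⊕ (Fin p → ℚ)) K) (hP : eval₂ K.subtype (gg a) P = 0) :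
    eval₂ K.subtype (gg a') P = 0 := by
  classical
  obtain ⟨σ, hσK, hσa, hσe⟩ := hL
  set E := IntermediateField.adjoin K (range (xp a)) with hE
  have : Countable E := adj_countable (xp a)
  have haE : ∀ i, a i ∈ E := fun i => IntermediateField.subset_adjoin _ _ ⟨Sum.inl i, rfl⟩
  have heE : ∀ i, Complex.exp (a i) ∈ E := fun i =>
    IntermediateField.subset_adjoin _ _ ⟨Sum.inr i, rfl⟩
  have hKE : ∀ c : K, (c : ℂ) ∈ E := fun c => E.algebraMap_mem c
  -- the group of exponents
  let Λ : AddSubgroup (Fin p → ℚ) :=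
    { carrier := {r | Complex.exp (lc a r) ∈ E}
      add_mem' := fun {r s} hr hs => by
        change Complex.exp (lc a (r + s)) ∈ E
        rw [lc_add, Complex.exp_add]
        exact mul_mem hr hs
      zero_mem' := by
        change Complex.exp (lc a 0) ∈ E
        rw [lc_zero, Complex.exp_zero]
        exact one_mem _
      neg_mem' := fun {r} hr => by
        change Complex.exp (lc a (-r)) ∈ E
        rw [lc_neg, Complex.exp_neg]
        exact inv_mem hr }
  let rep : (Fin p → ℚ) → (Fin p → ℚ) := fun r => (QuotientAddGroup.mk r : (Fin p → ℚ) ⧸ Λ).out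
  have hrep : ∀ r, Complex.exp (lc a (r - rep r)) ∈ E := by
    intro r
    have h1 : (QuotientAddGroup.mk (rep r) : (Fin p → ℚ) ⧸ Λ) = QuotientAddGroup.mk r :=
      Quotient.out_eq _
    have h2 := QuotientAddGroup.eq.1 h1
    rw [sub_eq_add_neg, add_comm]
    exact h2
  have hrep2 : ∀ r r', Complex.exp (lc a (rep r - rep r')) ∈ E → rep r = rep r' := by
    intro r r' h
    have h1 : (QuotientAddGroup.mk (rep r') : (Fin p → ℚ) ⧸ Λ) = QuotientAddGroup.mk (rep r) := by
      refine QuotientAddGroup.eq.2 ?_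
      rw [add_comm, ← sub_eq_add_neg]
      exact h
    have h2 : (QuotientAddGroup.mk r' : (Fin p → ℚ) ⧸ Λ) = QuotientAddGroup.mk r := by
      rw [← (Quotient.out_eq (QuotientAddGroup.mk r' : (Fin p → ℚ) ⧸ Λ)),
        ← (Quotient.out_eq (QuotientAddGroup.mk r : (Fin p → ℚ) ⧸ Λ))]
      exact h1
    simp only [rep]
    rw [h2]
  -- the map on small exponents
  have hσr : ∀ r : Fin p → ℚ, Complex.exp (lc a r) ∈ E →
      σ (Complex.exp (lc a r)) = Complex.exp (lc a' r) := by
    intro r hr
    obtain ⟨s, hs⟩ := hMr r hr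
    have hMc : (M : ℂ) ≠ 0 := by exact_mod_cast hM.ne'
    have e1 : ∀ b : Fin p → ℂ, Complex.exp (lc b r) = ∏ i, Complex.exp (b i / M) ^ s i := by
      intro b
      unfold lc
      rw [Complex.exp_sum]
      refine Finset.prod_congr rfl fun i _ => ?_
      rw [← Complex.exp_int_mul]
      congr 1
      have h1 := congrArg (fun y : ℚ => (y : ℂ)) (hs i)
      push_cast at h1
      rw [Rat.smul_def, ← h1]
      field_simp
    rw [e1, e1, map_prod]
    refine Finset.prod_congr rfl fun i _ => ?_
    rw [map_zpow₀, hσe]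
  -- the coefficients of the classes
  let S : Finset (Fin p → ℚ) := P.support.image fun e => rep (rho e)
  let cf : (Fin p → ℂ) → (Fin p → ℚ) → ℂ := fun b s =>
    ∑ e ∈ P.support.filter (fun e => rep (rho e) = s), ((P.coeff e : K) : ℂ) *
      (∏ i : Fin p, b i ^ e (Sum.inl i)) * Complex.exp (lc b (rho e - s))
  have hcf : ∀ b : Fin p → ℂ, eval₂ K.subtype (gg b) P = ∑ s ∈ S, cf b s * Complex.exp (lc b s) := by
    intro b
    rw [eval_gg, ← Finset.sum_fiberwise_of_maps_to (s := P.support) (t := S)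
      (g := fun e => rep (rho e)) (fun e he => Finset.mem_image_of_mem _ he)]
    refine Finset.sum_congr rfl fun s _ => ?_
    rw [Finset.sum_mul]
    refine Finset.sum_congr rfl fun e _ => ?_
    rw [mul_assoc _ (Complex.exp _) (Complex.exp _), ← Complex.exp_add, ← lc_add, sub_add_cancel]
  have hzero : ∀ s ∈ S, cf a s = 0 := by
    refine mono_indep hK E heE S ?_ (cf a) ?_ ?_
    · intro r hr r' hr' h
      obtain ⟨e, _, rfl⟩ := Finset.mem_image.1 hr
      obtain ⟨e', _, rfl⟩ := Finset.mem_image.1 hr'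
      exact hrep2 _ _ h
    · intro s _
      refine sum_mem fun e he => ?_
      refine mul_mem (mul_mem (hKE _) (prod_mem fun i _ => pow_mem (haE i) _)) ?_
      rw [← (Finset.mem_filter.1 he).2]
      exact hrep _
    · rw [← hcf]
      exact hP
  rw [hcf]
  refine Finset.sum_eq_zero fun s hs => ?_
  have h1 : σ (cf a s) = cf a' s := by
    simp only [cf]
    rw [map_sum]
    refine Finset.sum_congr rfl fun e he => ?_
    rw [map_mul, map_mul, hσK _ (P.coeff e).2, map_prod]
    congr 1
    · congr 1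
      refine Finset.prod_congr rfl fun i _ => ?_
      rw [map_pow, hσa]
    · apply hσr
      rw [← (Finset.mem_filter.1 he).2]
      exact hrep _
  rw [← h1, hzero s hs, map_zero, zero_mul]

/-- **The type is determined at a finite level.** -/
theorem kum [Countable K] (hK : ∀ x, IsAlgebraic K x → x ∈ K)
    (ha : ∀ r : Fin p → ℚ, Complex.exp (lc a r) ∈ K → r = 0) :
    ∃ M : ℕ, 0 < M ∧ ∀ a' : Fin p → ℂ, LIso K M a a' → Iso K a a' := by
  classical
  obtain ⟨M, hM, hMr⟩ := bounded_den hK a ha (S := range (xp a)) (Set.finite_range _)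
    (fun i => ⟨Sum.inr i, rfl⟩)
  refine ⟨M, hM, fun a' hL => ?_⟩
  have hfwd := kum_fwd (a := a) hK hM hMr hL
  set E := IntermediateField.adjoin K (range (xp a)) with hE
  -- the backward direction
  have hbwd : ∀ P : MvPolynomial (Fin p ⊕ (Fin p → ℚ)) K,
      eval₂ K.subtype (gg a) P ≠ 0 → eval₂ K.subtype (gg a') P ≠ 0 := by
    intro P hP
    let A : Subalgebra E ℂ := Algebra.adjoin E (range fun r => Complex.exp (lc a r))
    have hAalg : ∀ z ∈ A, IsAlgebraic E z := by
      intro z hz
      induction hz using Algebra.adjoin_induction with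
      | mem z hz =>
        obtain ⟨r, rfl⟩ := hz
        obtain ⟨m, hm, hmE⟩ := exp_pow_mem (E := E)
          (fun i => IntermediateField.subset_adjoin _ _ ⟨Sum.inr i, rfl⟩) r
        exact IsAlgebraic.of_pow hm (isAlgebraic_algebraMap (⟨_, hmE⟩ : E))
      | algebraMap c => exact isAlgebraic_algebraMap c
      | add x y _ _ hx hy => exact hx.add hy
      | mul x y _ _ hx hy => exact hx.mul hy
    have hPA : eval₂ K.subtype (gg a) P ∈ A := by
      rw [eval₂_eq]
      refine sum_mem fun e _ => mul_mem ?_ (prod_mem fun i _ => pow_mem ?_ _)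
      · exact A.algebraMap_mem (⟨((P.coeff e : K) : ℂ), E.algebraMap_mem _⟩ : E)
      · rcases i with i | r
        · exact A.algebraMap_mem (⟨a i, IntermediateField.subset_adjoin _ _ ⟨Sum.inl i, rfl⟩⟩ : E)
        · exact Algebra.subset_adjoin ⟨r, rfl⟩
    have hinv : (eval₂ K.subtype (gg a) P)⁻¹ ∈ A :=
      A.inv_mem_of_algebraic (x := (⟨_, hPA⟩ : A)) (hAalg _ hPA)
    -- fractions
    let ι : Fin p ⊕ Fin p → Fin p ⊕ (Fin p → ℚ) :=
      Sum.elim Sum.inl (fun i => Sum.inr (Pi.single i 1))
    have hι : ∀ b : Fin p → ℂ, gg b ∘ ι = xp b := by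
      intro b
      funext i
      rcases i with i | i
      · rfl
      · simp only [Function.comp_apply, ι, Sum.elim_inr, gg, xp, lc_single, one_smul]
    have hren : ∀ (b : Fin p → ℂ) (D : MvPolynomial (Fin p ⊕ Fin p) K),
        eval₂ K.subtype (gg b) (rename ι D) = eval₂ K.subtype (xp b) D := by
      intro b D
      rw [eval₂_rename, hι]
    have hfrac : ∀ z ∈ A, ∃ (D : MvPolynomial (Fin p ⊕ Fin p) K)
        (Q : MvPolynomial (Fin p ⊕ (Fin p → ℚ)) K), eval₂ K.subtype (xp a) D ≠ 0 ∧
          eval₂ K.subtype (xp a) D * z = eval₂ K.subtype (gg a) Q := by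
      intro z hz
      induction hz using Algebra.adjoin_induction with
      | mem z hz =>
        obtain ⟨r, rfl⟩ := hz
        refine ⟨1, X (Sum.inr r), ?_, ?_⟩
        · rw [eval₂_one]; exact one_ne_zero
        · rw [eval₂_one, one_mul, eval₂_X]
          rfl
      | algebraMap c =>
        obtain ⟨r, s, hrs⟩ := (IntermediateField.mem_adjoin_range_iff K (xp a) c).1 c.2
        by_cases hs : aeval (xp a) s = 0
        · refine ⟨1, 0, ?_, ?_⟩
          · rw [eval₂_one]; exact one_ne_zero
          · rw [hs, div_zero] at hrs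
            rw [eval₂_one, one_mul, eval₂_zero]
            exact hrs
        · refine ⟨s, rename ι r, hs, ?_⟩
          rw [hren]
          have h1 : algebraMap E ℂ c = aeval (xp a) r / aeval (xp a) s := hrs
          rw [h1]
          exact mul_div_cancel₀ _ hs
      | add x y _ _ hx hy =>
        obtain ⟨D, Q, h1, h2⟩ := hx
        obtain ⟨D', Q', h1', h2'⟩ := hy
        refine ⟨D * D', rename ι D' * Q + rename ι D * Q', ?_, ?_⟩
        · rw [eval₂_mul]; exact mul_ne_zero h1 h1'
        · rw [eval₂_mul, eval₂_add, eval₂_mul, eval₂_mul, hren, hren, ← h2, ← h2']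
          ring
      | mul x y _ _ hx hy =>
        obtain ⟨D, Q, h1, h2⟩ := hx
        obtain ⟨D', Q', h1', h2'⟩ := hy
        refine ⟨D * D', Q * Q', ?_, ?_⟩
        · rw [eval₂_mul]; exact mul_ne_zero h1 h1'
        · rw [eval₂_mul, eval₂_mul, ← h2, ← h2']
          ring
    obtain ⟨D, Q, hD, hDQ⟩ := hfrac _ hinv
    have h1 : eval₂ K.subtype (gg a) (rename ι D - Q * P) = 0 := by
      rw [eval₂_sub, eval₂_mul, hren, ← hDQ, mul_assoc, inv_mul_cancel₀ hP, mul_one, sub_self]
    have h2 := hfwd _ h1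
    rw [eval₂_sub, eval₂_mul, hren, sub_eq_zero] at h2
    intro h3
    rw [h3, mul_zero] at h2
    -- the value at a' is conjugate
    obtain ⟨σ, hσK, hσa, hσe⟩ := hL
    have hMc : (M : ℂ) ≠ 0 := by exact_mod_cast hM.ne'
    have h4 : σ (eval₂ K.subtype (xp a) D) = eval₂ K.subtype (xp a') D := by
      rw [← RingHom.coe_coe σ, hom_eval₂]
      congr 1
      · exact RingHom.ext fun c => hσK _ c.2
      · funext i
        rcases i with i | i
        · exact hσa i
        · change σ (Complex.exp (a i)) = Complex.exp (a' i)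
          have e : ∀ b : ℂ, Complex.exp b = Complex.exp (b / M) ^ M := by
            intro b
            rw [← Complex.exp_nat_mul, mul_div_cancel₀ _ hMc]
          rw [e (a i), e (a' i), map_pow, hσe]
    rw [h2] at h4
    exact hD ((map_eq_zero σ).1 h4)
  obtain ⟨σ, hσ1, hσ2⟩ := aut_tuple (K := K) (ι := Fin p ⊕ (Fin p → ℚ)) K.subtype K.subtype
    (gg a) (gg a') (fun P => ⟨fun h => hfwd P h, fun h => by
      by_contra hne
      exact hbwd P hne h⟩)
  exact ⟨σ, fun c hc => hσ1 ⟨c, hc⟩, fun i => hσ2 (Sum.inl i), fun r => hσ2 (Sum.inr r)⟩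

end Kum

end Pool.Agent.V9h68
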