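import Pool.Agent.V9h68.GF

/-!
Ax's theorem for pairs `x`, `y` with `D y = y D x`.
-/

set_option autoImplicit false

open Filter Finset
open scoped Topology PeriodPair ComplexConjugate

noncomputable section

namespace Pool.Agent.V9h68

open H667R3 Pool.Agent.W245.EB Pool.Agent.TH813.Ell MvPolynomial Pool.Agent.Y685
open Pool.Agent.TH813.G (NoHom rosM)
open Pool.Agent.TH813.Rel (DF MK)

/-- the form `dx - dy / y` -/
def Tp (δ : Derivation ℚ ℂ ℂ) (u v : ℂ) : ℂ := δ u - δ v / v

theorem D_Tp {D δ : Derivation ℚ ℂ ℂ} {u v : ℂ} (hv : v ≠ 0) (h : D v = v * D u) :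
    D (Tp δ u v) = Tp ⁅D, δ⁆ u v := by
  unfold Tp
  rw [map_sub, Derivation.leibniz_div, Derivation.commutator_apply, Derivation.commutator_apply, h]
  rw [Derivation.leibniz]
  simp only [smul_eq_mul]
  field_simp
  ring

/-- **Ax's theorem** for pairs -/
theorem pair_ax {D : Derivation ℚ ℂ ℂ} {s : ℕ} (hs : 0 < s) {x y : Fin s → ℂ}
    (hy : ∀ l, y l ≠ 0) (hxy : ∀ l, D (y l) = y l * D (x l))
    (hq : ∀ q : Fin s → ℚ, D (∑ l, q l • x l) = 0 → q = 0) :
    ((s + 1 : ℕ) : ℕ∞) ≤ (MK (Cst D)).eRk (Set.range x ∪ Set.range y) := by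
  classical
  by_contra hcon
  push Not at hcon
  have hx0 : D (x ⟨0, hs⟩) ≠ 0 := by
    intro h0
    have h4 := hq (Pi.single ⟨0, hs⟩ 1) (by
      rw [sum_eq_single (⟨0, hs⟩ : Fin s)]
      · rw [Pi.single_eq_same, one_smul]; exact h0
      · intro j _ hj
        rw [Pi.single_eq_of_ne hj, zero_smul]
      · intro h; exact absurd (mem_univ _) h)
    have h5 := congrFun h4 ⟨0, hs⟩
    rw [Pi.single_eq_same] at h5
    exact one_ne_zero h5
  have hTD : ∀ l, Tp D (x l) (y l) = 0 := by
    intro l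
    unfold Tp
    rw [hxy, mul_div_assoc, mul_div_cancel₀ _ (hy l), sub_self]
  let f : DF (Cst D) →ₗ[ℂ] (Option (Fin s) → ℂ) :=
    { toFun := fun δ o => o.elim ((δ : Derivation ℚ ℂ ℂ) (x ⟨0, hs⟩))
        (fun l => Tp (δ : Derivation ℚ ℂ ℂ) (x l) (y l))
      map_add' := fun δ δ' => by
        funext o
        rcases o with _ | l
        · rfl
        · change (δ + δ' : Derivation ℚ ℂ ℂ) (x l) - (δ + δ' : Derivation ℚ ℂ ℂ) (y l) / y l =
            Tp _ _ _ + Tp _ _ _
          unfold Tp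
          rw [Derivation.add_apply, Derivation.add_apply]
          ring
      map_smul' := fun c δ => by
        funext o
        rcases o with _ | l
        · rfl
        · change (c • δ : Derivation ℚ ℂ ℂ) (x l) - (c • δ : Derivation ℚ ℂ ℂ) (y l) / y l =
            c * Tp _ _ _
          unfold Tp
          rw [Derivation.smul_apply, Derivation.smul_apply, smul_eq_mul, smul_eq_mul]
          ring }
  obtain ⟨a, ha0, ha⟩ := exists_rel ((Set.finite_range x).union (Set.finite_range y)) f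
    (fun δ hδ => by
      funext o
      rcases o with _ | l
      · exact hδ _ (Or.inl ⟨_, rfl⟩)
      · change Tp _ _ _ = 0
        unfold Tp
        rw [hδ _ (Or.inl ⟨l, rfl⟩), hδ _ (Or.inr ⟨l, rfl⟩)]
        simp) (by
    rw [Fintype.card_option, Fintype.card_fin]
    exact hcon)
  have haN : a none = 0 := by
    have h1 := ha ⟨D, D_DF⟩
    rw [Fintype.sum_option] at h1
    have h4 : ∀ l, f ⟨D, D_DF⟩ (some l) = 0 := fun l => hTD l
    simp only [h4, mul_zero, sum_const_zero, add_zero] at h1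
    exact (mul_eq_zero.1 h1).resolve_right hx0
  let W : Set (Fin s → ℂ) :=
    {a | ∀ δ : DF (Cst D), ∑ l, a l * Tp (δ : Derivation ℚ ℂ ℂ) (x l) (y l) = 0}
  have haW : (fun l => a (some l)) ∈ W := by
    intro δ
    have h1 := ha δ
    rw [Fintype.sum_option, haN, zero_mul, zero_add] at h1
    exact h1
  have ha' : (fun l => a (some l)) ≠ 0 := by
    intro h0
    apply ha0
    funext o
    rcases o with _ | l
    · exact haN
    · exact congrFun h0 l
  obtain ⟨c, hcW, hc0, hcD⟩ := exists_const_vec D W (fun a ha i _ δ => by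
      have := ha δ
      have e : ∑ j, a j / a i * Tp (δ : Derivation ℚ ℂ ℂ) (x j) (y j) =
          (∑ j, a j * Tp (δ : Derivation ℚ ℂ ℂ) (x j) (y j)) / a i := by
        rw [sum_div]
        exact sum_congr rfl (fun j _ => by ring)
      rw [e, this, zero_div]) (fun a ha δ => by
      have h1 := congrArg D (ha δ)
      rw [map_zero, map_sum] at h1
      let δ' : DF (Cst D) := ⟨⁅D, (δ : Derivation ℚ ℂ ℂ)⁆,
        Pool.Agent.TH813.Rel.bracket_mem _ D_DF δ.2⟩
      have h5 : ∀ l, D (a l * Tp (δ : Derivation ℚ ℂ ℂ) (x l) (y l)) =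
          a l * Tp (δ' : Derivation ℚ ℂ ℂ) (x l) (y l) +
            D (a l) * Tp (δ : Derivation ℚ ℂ ℂ) (x l) (y l) := by
        intro l
        rw [D_mul, D_Tp (hy l) (hxy l)]
        ring
      rw [sum_congr rfl (fun k _ => h5 k), sum_add_distrib, ha δ', zero_add] at h1
      exact h1) haW ha'
  -- the relation
  have hrel : ∀ δ ∈ DF (Cst D), ∑ l, c l * Tp δ (x l) (y l) = 0 := fun δ hδ => hcW ⟨δ, hδ⟩
  obtain ⟨r1, -⟩ := rosM (q := 0) (n := 0) (Λ := Fin.elim0) (κ := Fin.elim0) (fun c => c.elim0)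
    (fun c => c.elim0) (Cst D) (fun c => c.elim0) (fun c => c.elim0) (fun c => c.elim0)
    (fun c => c.elim0) c y (fun l => hcD l) hy Fin.elim0 Fin.elim0 Fin.elim0 Fin.elim0
    (fun i => i.elim0) (fun i => i.elim0) (∑ l, c l * x l) (by
      intro δ hδ
      have h1 := hrel δ hδ
      have e : ∀ l x, δ (c l * x) = c l * δ x := fun l x => by
        rw [D_mul, hδ _ (hcD l)]
        ring
      rw [map_sum]
      simp only [e, Finset.univ_eq_empty, sum_empty, add_zero]
      rw [← sub_eq_zero, ← sum_sub_distrib]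
      rw [← h1]
      refine sum_congr rfl fun l _ => ?_
      unfold Tp
      ring)
  have hD' : ∀ w ∈ Cst D, D w = 0 := fun w hw => hw
  apply hc0
  funext l
  by_contra hne
  obtain ⟨ψ, hψ⟩ := exists_psi hne
  have h1 := r1 ψ D hD'
  have h4 : D (∑ l, ψ (c l) • x l) = 0 := by
    rw [map_sum, ← h1]
    refine sum_congr rfl (fun l _ => ?_)
    rw [Derivation.map_smul, Rat.smul_def, hxy, mul_div_cancel_left₀ _ (hy l)]
  exact hψ (congrFun (hq _ h4) l)

end Pool.Agent.V9h68
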