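import Mathlib

/-!
An ultrapower of the complex numbers, identified with the complex numbers.
-/

set_option autoImplicit false

open Filter Set Cardinal

noncomputable section

namespace Pool.Agent.V9h68

/-- the ultrapower -/
abbrev UP : Type := Germ (hyperfilter ℕ : Filter ℕ) ℂ

/-- the projection -/
def upi : (ℕ → ℂ) →+* UP := Germ.coeRingHom (hyperfilter ℕ : Filter ℕ)

theorem upi_surj : Function.Surjective upi := by
  intro g
  induction g using Quotient.inductionOn' with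
  | h f => exact ⟨f, rfl⟩

theorem upi_zero (f : ℕ → ℂ) : upi f = 0 ↔ ∀ᶠ j in (hyperfilter ℕ : Filter ℕ), f j = 0 :=
  Germ.coe_eq

instance : CharZero UP := by
  have h : Function.Injective (upi.comp (Pi.constRingHom ℕ ℂ)) :=
    (upi.comp (Pi.constRingHom ℕ ℂ)).injective
  exact charZero_of_injective_ringHom h

instance : IsAlgClosed UP := by
  apply IsAlgClosed.of_exists_root
  intro p hm hirr
  have hl : p ∈ Polynomial.lifts upi := by
    rw [Polynomial.lifts_iff_coeff_lifts]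
    intro n
    exact upi_surj _
  obtain ⟨P, hP, hdeg, hmon⟩ := Polynomial.lifts_and_natDegree_eq_and_monic hl hm
  have hpos : 0 < P.natDegree := by
    rw [hdeg]
    exact hirr.natDegree_pos
  have h1 : ∀ j, ∃ z : ℂ, (P.map (Pi.evalRingHom (fun _ : ℕ => ℂ) j)).eval z = 0 := by
    intro j
    have h2 : (P.map (Pi.evalRingHom (fun _ : ℕ => ℂ) j)).degree ≠ 0 := by
      intro h3
      have h4 := hmon.natDegree_map (Pi.evalRingHom (fun _ : ℕ => ℂ) j)
      rw [Polynomial.natDegree_eq_zero_iff_degree_le_zero.2 h3.le] at h4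
      omega
    exact IsAlgClosed.exists_root _ h2
  choose z hz using h1
  refine ⟨upi z, ?_⟩
  rw [← hP, Polynomial.eval_map, Polynomial.eval₂_at_apply]
  have h5 : P.eval z = 0 := by
    funext j
    have h6 := Polynomial.eval₂_at_apply (p := P) (Pi.evalRingHom (fun _ : ℕ => ℂ) j) z
    rw [← Polynomial.eval_map] at h6
    have h7 := hz j
    change _ = (Polynomial.eval z P) j at h6
    rw [← h6]
    exact h7
  rw [h5, map_zero]

theorem card_UP : #UP = #ℂ := by
  apply le_antisymm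
  · have h1 : #UP ≤ #(ℕ → ℂ) := Cardinal.mk_le_of_surjective upi_surj
    refine h1.trans (le_of_eq ?_)
    rw [← Cardinal.power_def, Cardinal.mk_complex, Cardinal.mk_nat, Cardinal.continuum_power_aleph0]
  · exact Cardinal.mk_le_of_injective (f := upi.comp (Pi.constRingHom ℕ ℂ))
      (upi.comp (Pi.constRingHom ℕ ℂ)).injective

/-- **The star map.** -/
theorem exists_star : ∃ Θ : (ℕ → ℂ) →+* ℂ, Function.Surjective Θ ∧
    ∀ f, Θ f = 0 ↔ ∀ᶠ j in (hyperfilter ℕ : Filter ℕ), f j = 0 := by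
  obtain ⟨e⟩ := IsAlgClosed.ringEquiv_of_equiv_of_charZero (K := UP) (L := ℂ)
    (by rw [card_UP, Cardinal.mk_complex]; exact Cardinal.aleph0_lt_continuum)
    (Cardinal.eq.1 card_UP)
  refine ⟨(e : UP →+* ℂ).comp upi, e.surjective.comp upi_surj, fun f => ?_⟩
  rw [← upi_zero]
  exact map_eq_zero_iff e e.injective

section Star

variable {Θ : (ℕ → ℂ) →+* ℂ} (hs : Function.Surjective Θ)
  (h0 : ∀ f, Θ f = 0 ↔ ∀ᶠ j in (hyperfilter ℕ : Filter ℕ), f j = 0)

include h0 in
theorem star_eq {f g : ℕ → ℂ} : Θ f = Θ g ↔ ∀ᶠ j in (hyperfilter ℕ : Filter ℕ), f j = g j := by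
  rw [← sub_eq_zero, ← map_sub, h0]
  exact Filter.eventually_congr (Eventually.of_forall fun j => by
    rw [Pi.sub_apply, sub_eq_zero])

include h0 in
theorem star_ne {f : ℕ → ℂ} (h : ∀ᶠ j in (hyperfilter ℕ : Filter ℕ), f j ≠ 0) : Θ f ≠ 0 := by
  intro h1
  have h2 := (h0 f).1 h1
  obtain ⟨j, hj⟩ := (h.and h2).exists
  exact hj.1 hj.2

include h0 in
theorem star_inv (f : ℕ → ℂ) : Θ (fun j => (f j)⁻¹) = (Θ f)⁻¹ := by
  by_cases h : Θ f = 0
  · rw [h, inv_zero, h0]
    filter_upwards [(h0 f).1 h] with j hj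
    rw [hj, inv_zero]
  · apply eq_inv_of_mul_eq_one_left
    rw [← map_mul, ← map_one Θ, star_eq h0]
    have h1 : ¬ ∀ᶠ j in (hyperfilter ℕ : Filter ℕ), f j = 0 := fun h2 => h ((h0 f).2 h2)
    have h2 := Ultrafilter.eventually_not.2 h1
    filter_upwards [h2] with j hj
    rw [Pi.mul_apply, Pi.one_apply, inv_mul_cancel₀ hj]

include hs h0 in
/-- internal derivations -/
theorem star_der (D : ℕ → Derivation ℚ ℂ ℂ) :
    ∃ D' : Derivation ℚ ℂ ℂ, ∀ f, D' (Θ f) = Θ fun j => D j (f j) := by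
  let s : ℂ → (ℕ → ℂ) := fun z => (hs z).choose
  have hsz : ∀ z, Θ (s z) = z := fun z => (hs z).choose_spec
  have hw : ∀ f, Θ (fun j => D j (s (Θ f) j)) = Θ fun j => D j (f j) := by
    intro f
    have h1 := (star_eq h0).1 (hsz (Θ f))
    rw [star_eq h0]
    filter_upwards [h1] with j hj
    rw [hj]
  let A : ℂ →+ ℂ :=
    { toFun := fun z => Θ fun j => D j (s z j)
      map_zero' := by
        have h1 := hw 0
        rw [map_zero] at h1
        rw [h1, h0]
        exact Eventually.of_forall fun j => by simp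
      map_add' := fun z w => by
        have h1 : z + w = Θ (s z + s w) := by rw [map_add, hsz, hsz]
        rw [h1, hw, ← map_add]
        congr 1
        funext j
        simp }
  refine ⟨Derivation.mk' A.toRatLinearMap ?_, ?_⟩
  · intro z w
    change Θ (fun j => D j (s (z * w) j)) = z * Θ (fun j => D j (s w j)) +
      w * Θ (fun j => D j (s z j))
    have h1 : z * w = Θ (s z * s w) := by rw [map_mul, hsz, hsz]
    rw [h1, hw]
    conv_rhs => rw [← hsz z, ← hsz w]
    rw [hw, hw, ← map_mul, ← map_mul, ← map_add]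
    congr 1
    funext j
    simp
  · intro f
    exact hw f

/-- internal subfields -/
def starF (h0 : ∀ f, Θ f = 0 ↔ ∀ᶠ j in (hyperfilter ℕ : Filter ℕ), f j = 0)
    (K : Subfield ℂ) : Subfield ℂ where
  carrier := {z | ∃ f : ℕ → ℂ, (∀ j, f j ∈ K) ∧ Θ f = z}
  mul_mem' := by
    rintro _ _ ⟨f, hf, rfl⟩ ⟨g, hg, rfl⟩
    exact ⟨f * g, fun j => mul_mem (hf j) (hg j), map_mul _ _ _⟩
  one_mem' := ⟨1, fun _ => one_mem _, map_one _⟩
  add_mem' := by
    rintro _ _ ⟨f, hf, rfl⟩ ⟨g, hg, rfl⟩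
    exact ⟨f + g, fun j => add_mem (hf j) (hg j), map_add _ _ _⟩
  zero_mem' := ⟨0, fun _ => zero_mem _, map_zero _⟩
  neg_mem' := by
    rintro _ ⟨f, hf, rfl⟩
    exact ⟨-f, fun j => neg_mem (hf j), map_neg _ _⟩
  inv_mem' := by
    rintro _ ⟨f, hf, rfl⟩
    exact ⟨fun j => (f j)⁻¹, fun j => inv_mem (hf j), star_inv h0 f⟩

theorem mem_starF {K : Subfield ℂ} {z : ℂ} : z ∈ starF h0 K ↔ ∃ f : ℕ → ℂ, (∀ j, f j ∈ K) ∧ Θ f = z :=
  Iff.rfl

theorem star_mem {K : Subfield ℂ} {f : ℕ → ℂ} :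
    Θ f ∈ starF h0 K ↔ ∀ᶠ j in (hyperfilter ℕ : Filter ℕ), f j ∈ K := by
  classical
  constructor
  · rintro ⟨g, hg, hgf⟩
    filter_upwards [(star_eq h0).1 hgf] with j hj
    rw [← hj]
    exact hg j
  · intro h
    refine ⟨fun j => if f j ∈ K then f j else 0, fun j => ?_, ?_⟩
    · dsimp only
      split_ifs with hj
      · exact hj
      · exact zero_mem _
    · rw [star_eq h0]
      filter_upwards [h] with j hj
      rw [if_pos hj]

end Star

end Pool.Agent.V9h68
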