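import Pool.Agent.V9h68.Sti
import Pool.Agent.V9h68.Tr
import Pool.Agent.V9h68.Ku4
import Pool.Agent.V9h68.Px
import Pool.Agent.V9h68.Us

/-!
Preparations for the existence of generic solutions.
-/

set_option autoImplicit false

open MvPolynomial Set Filter

noncomputable section

namespace Pool.Agent.V9h68

open Pool.Agent.Y776 Pool.Agent.Y685
open Pool.Agent.TH813.Rel (MK mem_cl subset_cl rk_le_of_subset_cl cl_add cl_mul cl_inv cl_of_base)

/-- a good field with derivations -/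
structure GD (K : Subfield ℂ) : Prop extends GF K where
  der : ∀ (n : ℕ) (x : Fin n → ℂ) (j : Fin n), x j ∉ K → ∃ D : Derivation ℚ ℂ ℂ,
      (∀ c ∈ K, D c = 0) ∧ D (x j) = 1 ∧ ∀ i, Tf D (x i) = 0

/-- change of the base field along a homomorphism -/
theorem cl_hom' {k k' : Type} [Field k] [Field k'] [Algebra k ℂ] [Algebra k' ℂ] (θ : ℂ →+* ℂ)
    {S T : Set ℂ} (h : ∀ c : k, θ (algebraMap k ℂ c) ∈ (MK k').closure T)
    (hST : ∀ s ∈ S, θ s ∈ (MK k').closure T) {z : ℂ}
    (hz : z ∈ (MK k).closure S) : θ z ∈ (MK k').closure T := by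
  rw [mem_cl] at hz
  obtain ⟨p, hp, hpz⟩ := hz
  have hadj : ∀ x ∈ Algebra.adjoin k S, θ x ∈ clF k' T := by
    intro x hx
    induction hx using Algebra.adjoin_induction with
    | mem x hx => exact hST x hx
    | algebraMap c => exact h c
    | add x y _ _ hx hy => rw [map_add]; exact add_mem hx hy
    | mul x y _ _ hx hy => rw [map_mul]; exact mul_mem hx hy
  refine cl_root (f := p.map (θ.comp (algebraMap (Algebra.adjoin k S) ℂ))) ?_ ?_ ?_
  · rw [Ne, Polynomial.map_eq_zero_iff]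
    · exact hp
    · exact θ.injective.comp (FaithfulSMul.algebraMap_injective _ _)
  · intro i
    rw [Polynomial.coeff_map]
    exact hadj _ (p.coeff i).2
  · rw [Polynomial.eval_map, ← Polynomial.hom_eval₂]
    rw [Polynomial.aeval_def] at hpz
    rw [hpz, map_zero]

theorem cl_hom {θ : ℂ →+* ℂ} {K K' : Subfield ℂ} (h : ∀ c ∈ K, θ c ∈ K') {S : Set ℂ} {z : ℂ}
    (hz : z ∈ (MK K).closure S) : θ z ∈ (MK K').closure (θ '' S) :=
  cl_hom' (T := θ '' S) θ (fun c : K => cl_of_base (k := K') _ (⟨θ c, h c c.2⟩ : K'))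
    (fun _ hs => subset_cl _ (Set.mem_image_of_mem θ hs)) hz

theorem rk_hom {θ : ℂ →+* ℂ} {K K' : Subfield ℂ} (h : ∀ c ∈ K, θ c ∈ K') (S : Set ℂ) :
    (MK K').eRk (θ '' S) ≤ (MK K).eRk S := by
  obtain ⟨I, hI⟩ := (MK K).exists_isBasis S (Set.subset_univ _)
  have h1 : θ '' S ⊆ (MK K').closure (θ '' I) := by
    rintro _ ⟨s, hs, rfl⟩
    exact cl_hom h (hI.subset_closure hs)
  refine (rk_le_of_subset_cl h1).trans (((MK K').eRk_le_encard _).trans ?_)
  rw [hI.eRk_eq_encard]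
  exact Set.encard_image_le _ _

/-- change of the base to a larger field which contains the old parameters -/
theorem cl_up {k k' : Type} [Field k] [Field k'] [Algebra k ℂ] [Algebra k' ℂ]
    {S T : Set ℂ} (h : ∀ c : k, algebraMap k ℂ c ∈ (MK k').closure T)
    (hST : S ⊆ (MK k').closure T) {z : ℂ}
    (hz : z ∈ (MK k).closure S) : z ∈ (MK k').closure T :=
  cl_hom' (RingHom.id ℂ) h hST hz

/-- the derivations of a good field -/
theorem der_gen {K : Subfield ℂ} (hder : ∀ (n : ℕ) (x : Fin n → ℂ) (j : Fin n), x j ∉ K →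
    ∃ D : Derivation ℚ ℂ ℂ, (∀ c ∈ K, D c = 0) ∧ D (x j) = 1 ∧ ∀ i, Tf D (x i) = 0)
    {n : ℕ} (x : Fin n → ℂ) :
    ∃ D : Derivation ℚ ℂ ℂ, (∀ c ∈ K, D c = 0) ∧ (∀ i, Tf D (x i) = 0) ∧
      ∀ q : Fin n → ℚ, D (lc x q) = 0 → lc x q ∈ K := by
  let V : Submodule ℂ (Derivation ℚ ℂ ℂ) :=
    { carrier := {D | (∀ c ∈ K, D c = 0) ∧ ∀ i, Tf D (x i) = 0}
      add_mem' := by
        rintro a b ⟨ha1, ha2⟩ ⟨hb1, hb2⟩
        refine ⟨fun c hcK => ?_, fun i => ?_⟩
        · rw [Derivation.add_apply, ha1 c hcK, hb1 c hcK, add_zero]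
        · rw [Tf_add_der, ha2, hb2, add_zero]
      zero_mem' := by
        refine ⟨fun c _ => rfl, fun i => ?_⟩
        unfold Tf lg
        simp
      smul_mem' := by
        rintro a D ⟨h1, h2⟩
        refine ⟨fun c hcK => ?_, fun i => ?_⟩
        · rw [Derivation.smul_apply, h1 c hcK, smul_zero]
        · rw [Tf_smul_der, h2, mul_zero] }
  let ev : V →ₗ[ℂ] (Fin n → ℂ) :=
    { toFun := fun D i => (D : Derivation ℚ ℂ ℂ) (x i)
      map_add' := fun _ _ => rfl
      map_smul' := fun _ _ => rfl }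
  have hev : ∀ (D : V) (q : Fin n → ℚ), ∑ j, (q j : ℂ) * ev D j =
      (D : Derivation ℚ ℂ ℂ) (lc x q) := by
    intro D q
    unfold lc
    rw [map_sum]
    refine Finset.sum_congr rfl fun j _ => ?_
    rw [Derivation.map_smul, Rat.smul_def]
    rfl
  obtain ⟨D, hD⟩ := exists_generic ev (S := (fun q : Fin n → ℚ => fun i => (q i : ℂ)) ''
    {q | lc x q ∉ K}) ((Set.to_countable _).image _) (by
      rintro _ ⟨q, hq, rfl⟩
      obtain ⟨D, h1, h2, h3⟩ := hder (n + 1) (Fin.cons (lc x q) x) 0 (by simpa using hq)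
      refine ⟨⟨D, h1, fun i => by simpa using h3 i.succ⟩, ?_⟩
      rw [hev]
      simp only [Fin.cons_zero] at h2
      change D (lc x q) ≠ 0
      rw [h2]
      exact one_ne_zero)
  refine ⟨D, D.2.1, D.2.2, fun q hq0 => ?_⟩
  by_contra hne
  apply hD _ ⟨q, hne, rfl⟩
  rw [hev, hq0]

theorem exists_GD {S : Set ℂ} (hS : S.Countable) : ∃ K : Subfield ℂ, GD K ∧ S ⊆ K := by
  obtain ⟨K, hc, hSK, halg, hder⟩ := exists_der hS
  refine ⟨K, ⟨⟨hc, halg, ?_, ?_⟩, hder⟩, hSK⟩
  · intro x hx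
    by_contra hex
    obtain ⟨D, h1, h2, h3⟩ := hder 2 ![Complex.exp x, x] 0 hex
    have h4 := D_exp (h3 1)
    simp only [Matrix.cons_val_one, Matrix.cons_val_zero] at h2 h4
    rw [h2, h1 x hx, mul_zero] at h4
    exact one_ne_zero h4
  · intro n x hn hx
    obtain ⟨D, h1, h2, h3⟩ := der_gen hder x
    refine (ax_one hn h2 fun q hq => hx q (h3 q hq)).trans ?_
    refine eRk_base (K := K) (K' := Cst (D : Derivation ℚ ℂ ℂ))
      { toFun := fun c => ⟨c, h1 c c.2⟩
        map_one' := rfl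
        map_mul' := fun _ _ => rfl
        map_zero' := rfl
        map_add' := fun _ _ => rfl } (fun x => rfl) _

/-- removal of known elements from a rank -/
theorem rk_remove {K K' : Subfield ℂ} (hKK : K ≤ K') {X W : Set ℂ}
    (hW : W ⊆ (MK K).closure X) (hWK : W ⊆ K') {a b : ℕ} (hX : (MK K).eRk X ≤ a)
    (hWr : (b : ℕ∞) ≤ (MK K).eRk W) : (MK K').eRk X ≤ (a - b : ℕ) := by
  classical
  obtain ⟨I₀, hI₀⟩ := (MK K).exists_isBasis W (Set.subset_univ _)
  obtain ⟨I, hI, hII⟩ := hI₀.indep.subset_isBasis_of_subset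
    (hI₀.subset.trans (Set.subset_union_left (s := W) (t := X))) (Set.subset_univ _)
  have h1 : (MK K).eRk (W ∪ X) ≤ a := by
    refine le_trans (rk_le_of_subset_cl (Set.union_subset hW (subset_cl _))) hX
  rw [hI.eRk_eq_encard] at h1
  rw [hI₀.eRk_eq_encard] at hWr
  have hb : ∀ T : Set ℂ, (K' : Set ℂ) ⊆ (MK K').closure T := fun T z hz =>
    cl_of_base (k := K') T (⟨z, hz⟩ : K')
  have h2 : X ⊆ (MK K').closure (I \ I₀) := by
    intro z hz
    have h3 : z ∈ (MK K).closure I := hI.subset_closure (Or.inr hz)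
    refine cl_up (k := K) (k' := K') (S := I) (fun c => hb _ (hKK c.2)) ?_ h3
    intro w hw
    by_cases hw0 : w ∈ I₀
    · exact hb _ (hWK (hI₀.subset hw0))
    · exact subset_cl _ ⟨hw, hw0⟩
  refine (rk_le_of_subset_cl h2).trans (((MK K').eRk_le_encard _).trans ?_)
  have h4 : (I \ I₀).encard + I₀.encard = I.encard := Set.encard_sdiff_add_encard_of_subset hII
  have h5 : I.encard ≠ ⊤ := ne_top_of_le_ne_top (ENat.natCast_ne_top a) h1
  have h6 : (I \ I₀).encard ≠ ⊤ := fun h => h5 (by rw [← h4, h, top_add])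
  have h7 : I₀.encard ≠ ⊤ := fun h => h5 (by rw [← h4, h, add_top])
  lift (I \ I₀).encard to ℕ using h6 with u
  lift I₀.encard to ℕ using h7 with v
  rw [← h4] at h1
  norm_cast at h1 hWr ⊢
  omega

/-- an algebraic number over the field of a polynomial ring: a relation with nonzero constant
coefficient and nonzero leading coefficient -/
theorem exists_relp {F : Type} [Field F] [Algebra F ℂ] {n : ℕ} {c : Fin n → ℂ}
    (hc : AlgebraicIndependent F c) {z : ℂ} (hz : z ∈ (MK F).closure (range c)) (hz0 : z ≠ 0) :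
    ∃ R : Polynomial (MvPolynomial (Fin n) F), R.leadingCoeff ≠ 0 ∧ R.coeff 0 ≠ 0 ∧
      R.eval₂ ((aeval c : MvPolynomial (Fin n) F →ₐ[F] ℂ) : MvPolynomial (Fin n) F →+* ℂ) z = 0 := by
  classical
  obtain ⟨p, hp, hpz⟩ := mem_cl.1 hz
  let f : MvPolynomial (Fin n) F →+* ℂ :=
    ((aeval c : MvPolynomial (Fin n) F →ₐ[F] ℂ) : MvPolynomial (Fin n) F →+* ℂ)
  let R₀ := p.map (hc.aevalEquiv.symm : _ →+* MvPolynomial (Fin n) F)
  have hR₀ : R₀ ≠ 0 := by
    rw [Ne, Polynomial.map_eq_zero_iff]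
    · exact hp
    · exact hc.aevalEquiv.symm.injective
  have hR₀z : R₀.eval₂ f z = 0 := by
    rw [Polynomial.eval₂_map]
    have h4 : f.comp (hc.aevalEquiv.symm : _ →+* MvPolynomial (Fin n) F) =
        algebraMap (Algebra.adjoin F (range c)) ℂ := by
      refine RingHom.ext fun a => ?_
      have h2 := hc.algebraMap_aevalEquiv (hc.aevalEquiv.symm a)
      rw [AlgEquiv.apply_symm_apply] at h2
      exact h2.symm
    rw [h4]
    exact hpz
  obtain ⟨R, hR, hR0⟩ := Polynomial.exists_eq_pow_rootMultiplicity_mul_and_not_dvd R₀ hR₀ 0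
  rw [Polynomial.C_0, sub_zero] at hR hR0
  have hRne : R ≠ 0 := by
    rintro rfl
    exact hR0 (dvd_zero _)
  refine ⟨R, Polynomial.leadingCoeff_ne_zero.2 hRne, fun h => hR0 (Polynomial.X_dvd_iff.2 h), ?_⟩
  have h5 := congrArg (fun P => Polynomial.eval₂ f z P) hR
  simp only [Polynomial.eval₂_mul, Polynomial.eval₂_pow, Polynomial.eval₂_X] at h5
  rw [hR₀z] at h5
  exact (mul_eq_zero.1 h5.symm).resolve_left (pow_ne_zero _ hz0)

end Pool.Agent.V9h68
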