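import Pool.Agent.V9h68.Gs1

/-!
Solutions of a system which are not generic satisfy linear relations.
-/

set_option autoImplicit false

open MvPolynomial Set Filter

noncomputable section

namespace Pool.Agent.V9h68

open Pool.Agent.Y776 Pool.Agent.Y685
open Pool.Agent.TH813.Rel (MK mem_cl subset_cl rk_le_of_subset_cl cl_add cl_mul cl_inv cl_of_base)

/-- dependence over a closure -/
theorem exists_dep {K : Subfield ℂ} {S : Set ℂ} {n : ℕ} {x : Fin n → ℂ} {d : MvPolynomial (Fin n) ℂ}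
    (hd : d ≠ 0) (hdc : ∀ m, d.coeff m ∈ (MK K).closure S) (hdx : eval x d = 0) :
    ∃ i, x i ∈ (MK K).closure (S ∪ x '' {i}ᶜ) := by
  classical
  set L := clF K S with hL
  have hnot : ¬ AlgebraicIndependent L x := by
    intro h
    rw [algebraicIndependent_iff] at h
    have h1 : d ∈ Set.range (MvPolynomial.map (algebraMap L ℂ) :
        MvPolynomial (Fin n) L → MvPolynomial (Fin n) ℂ) := by
      rw [MvPolynomial.mem_range_map_iff_coeffs_subset]
      intro z hz
      rw [Finset.mem_coe, MvPolynomial.mem_coeffs_iff] at hz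
      obtain ⟨m, -, rfl⟩ := hz
      exact ⟨⟨_, hdc m⟩, rfl⟩
    obtain ⟨d', rfl⟩ := h1
    have h2 := h d' (by
      rw [eval_map] at hdx
      exact hdx)
    exact hd (by rw [h2, map_zero])
  by_contra hcon
  push Not at hcon
  apply hnot
  refine algebraicIndependent_of_finite_type' (FaithfulSMul.algebraMap_injective _ _) ?_
  intro T _ _ j hjT halg
  have h1 : x j ∈ (MK K).closure ((L : Set ℂ) ∪ x '' {j}ᶜ) := by
    refine (MK K).closure_subset_closure (Set.union_subset_union_right _ ?_)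
      (cl_base_change (K := K) (M := L) ?_ (mem_cl.2 halg))
    · exact Set.image_mono fun i hi h0 => hjT (by rw [Set.mem_singleton_iff] at h0; rwa [← h0])
    · intro z hz
      exact cl_of_base (k := K) S (⟨z, hz⟩ : K)
  apply hcon j
  refine cl_sub_of ?_ h1
  refine Set.union_subset ?_ (Set.subset_union_right.trans (subset_cl _))
  intro z hz
  exact (MK K).closure_subset_closure Set.subset_union_left hz

/-- the closure of the image of the field of coefficients -/
theorem tau_mem {K : Subfield ℂ} {p : ℕ} {b : Fin p → ℂ} {σ : ℂ →+* ℂ} (hσ : ∀ c ∈ K, σ c = c)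
    (f : IntermediateField.adjoin K (range (xp b))) :
    σ (f : ℂ) ∈ (MK K).closure (σ '' ET b) := by
  have h1 : (f : ℂ) ∈ (MK K).closure (ET b) := by
    refine Pool.Agent.TH813.Rel.adjoin_subset_cl ?_ f.2
    rintro _ ⟨i, rfl⟩
    rcases i with i | i
    · exact subset_cl _ (Or.inl ⟨i, rfl⟩)
    · exact subset_cl _ (Or.inr ⟨i, rfl⟩)
  exact cl_hom (θ := σ) (fun c hc => by rw [hσ c hc]; exact hc) h1

variable {K : Subfield ℂ} {n : ℕ} {c : Fin n → ℂ} {F : Type} [Field F] [Algebra F ℂ] {T : Set ℂ}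

/-- nongeneric solutions -/
theorem nongeneric {τ : F →+* ℂ} (hτ : ∀ f, τ f ∈ (MK K).closure T)
    (hc : AlgebraicIndependent F c)
    (hdom : ∀ i, Complex.exp (c i) ∈ (MK F).closure (range c))
    {x : Fin n → ℂ} (hx : ∀ f : MvPolynomial (Fin n ⊕ Fin n) F, aeval (ep c) f = 0 →
      eval₂ τ (ep x) f = 0)
    {H : MvPolynomial (Fin n ⊕ Fin n) F}
    (hH : aeval (ep c) H ≠ 0) (hHx : eval₂ τ (ep x) H = 0) :
    ∃ i, x i ∈ (MK K).closure (T ∪ x '' {i}ᶜ) := by
  classical
  have hHcl : aeval (ep c) H ∈ (MK F).closure (range c) := by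
    rw [aeval_def, eval₂_eq]
    refine sum_mem (S := clF F (range c)) fun e _ => mul_mem (cl_of_base _ _)
      (prod_mem fun i _ => pow_mem ?_ _)
    rcases i with i | i
    · exact subset_cl _ ⟨i, rfl⟩
    · exact hdom i
  obtain ⟨R, -, hR0, hRz⟩ := exists_relp hc hHcl hH
  -- the relation as a polynomial
  let f : MvPolynomial (Fin n ⊕ Fin n) F :=
    R.eval₂ ((rename Sum.inl : MvPolynomial (Fin n) F →ₐ[F] MvPolynomial (Fin n ⊕ Fin n) F) :
      MvPolynomial (Fin n) F →+* MvPolynomial (Fin n ⊕ Fin n) F) H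
  have hf : ∀ (g : F →+* ℂ) (u : Fin n ⊕ Fin n → ℂ), eval₂ g u f =
      R.eval₂ (eval₂Hom g (u ∘ Sum.inl)) (eval₂ g u H) := by
    intro g u
    have h1 := Polynomial.hom_eval₂ R
      ((rename Sum.inl : MvPolynomial (Fin n) F →ₐ[F] MvPolynomial (Fin n ⊕ Fin n) F) :
        MvPolynomial (Fin n) F →+* MvPolynomial (Fin n ⊕ Fin n) F) (eval₂Hom g u) H
    have h2 : (eval₂Hom g u).comp ((rename Sum.inl : MvPolynomial (Fin n) F →ₐ[F]
        MvPolynomial (Fin n ⊕ Fin n) F) : MvPolynomial (Fin n) F →+* MvPolynomial (Fin n ⊕ Fin n) F) =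
        eval₂Hom g (u ∘ Sum.inl) := by
      refine RingHom.ext fun q => ?_
      exact eval₂_rename _ _ _ _
    rw [h2] at h1
    exact h1
  have h1 : aeval (ep c) f = 0 := by
    rw [aeval_def, hf]
    exact hRz
  have h2 := hx f h1
  rw [hf, hHx, Polynomial.eval₂_at_zero] at h2
  have h3 : eval x (MvPolynomial.map τ (R.coeff 0)) = 0 := by
    rw [eval_map]
    exact h2
  refine exists_dep (d := MvPolynomial.map τ (R.coeff 0)) ?_ ?_ h3
  · intro h4
    apply hR0
    exact MvPolynomial.map_injective _ (RingHom.injective _) (by rw [h4, map_zero])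
  · intro m
    rw [coeff_map]
    exact hτ _

/-- the exponentials are algebraic over the coordinates if the leading coefficient does not
vanish -/
theorem exp_alg {τ : F →+* ℂ} (hτ : ∀ f, τ f ∈ (MK K).closure T)
    {x : Fin n → ℂ} (hx : ∀ f : MvPolynomial (Fin n ⊕ Fin n) F, aeval (ep c) f = 0 →
      eval₂ τ (ep x) f = 0)
    {R : Polynomial (MvPolynomial (Fin n) F)} {i : Fin n}
    (hR : R.eval₂ ((aeval c : MvPolynomial (Fin n) F →ₐ[F] ℂ) : MvPolynomial (Fin n) F →+* ℂ)
        (Complex.exp (c i)) = 0)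
    (hRx : eval₂ τ x R.leadingCoeff ≠ 0) :
    Complex.exp (x i) ∈ (MK K).closure (T ∪ range x) := by
  classical
  let f : MvPolynomial (Fin n ⊕ Fin n) F :=
    R.eval₂ ((rename Sum.inl : MvPolynomial (Fin n) F →ₐ[F] MvPolynomial (Fin n ⊕ Fin n) F) :
      MvPolynomial (Fin n) F →+* MvPolynomial (Fin n ⊕ Fin n) F) (X (Sum.inr i))
  have hf : ∀ (g : F →+* ℂ) (u : Fin n ⊕ Fin n → ℂ), eval₂ g u f =
      R.eval₂ (eval₂Hom g (u ∘ Sum.inl)) (u (Sum.inr i)) := by
    intro g u
    have h1 := Polynomial.hom_eval₂ R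
      ((rename Sum.inl : MvPolynomial (Fin n) F →ₐ[F] MvPolynomial (Fin n ⊕ Fin n) F) :
        MvPolynomial (Fin n) F →+* MvPolynomial (Fin n ⊕ Fin n) F) (eval₂Hom g u) (X (Sum.inr i))
    have h2 : (eval₂Hom g u).comp ((rename Sum.inl : MvPolynomial (Fin n) F →ₐ[F]
        MvPolynomial (Fin n ⊕ Fin n) F) : MvPolynomial (Fin n) F →+* MvPolynomial (Fin n ⊕ Fin n) F) =
        eval₂Hom g (u ∘ Sum.inl) := by
      refine RingHom.ext fun q => ?_
      exact eval₂_rename _ _ _ _
    rw [h2] at h1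
    have h3 : eval₂Hom g u (X (Sum.inr i)) = u (Sum.inr i) := eval₂_X _ _ _
    rw [h3] at h1
    exact h1
  have h1 : aeval (ep c) f = 0 := by
    rw [aeval_def, hf]
    exact hR
  have h2 := hx f h1
  rw [hf] at h2
  set g : MvPolynomial (Fin n) F →+* ℂ := eval₂Hom τ (ep x ∘ Sum.inl)
    with hg
  refine cl_root (f := R.map g) ?_ ?_ ?_
  · intro h0
    have h3 := congrArg (fun P => P.coeff R.natDegree) h0
    simp only [Polynomial.coeff_map, Polynomial.coeff_natDegree, Polynomial.coeff_zero] at h3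
    exact hRx h3
  · intro m
    rw [Polynomial.coeff_map, hg, coe_eval₂Hom, eval₂_eq]
    refine sum_mem (S := clF K (T ∪ range x)) fun e _ => mul_mem ?_
      (prod_mem fun l _ => pow_mem ?_ _)
    · exact (MK K).closure_subset_closure Set.subset_union_left (hτ _)
    · exact subset_cl _ (Or.inr ⟨l, rfl⟩)
  · rw [Polynomial.eval_map]
    exact h2

end Pool.Agent.V9h68
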