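import Pool.Agent.V9h68.Gs2

/-!
Existence of generic solutions of dominated systems.
-/

set_option autoImplicit false

open MvPolynomial Set Filter

noncomputable section

namespace Pool.Agent.V9h68

open Pool.Agent.Y776 Pool.Agent.Y685
open Pool.Agent.TH813.Rel (MK mem_cl subset_cl rk_le_of_subset_cl cl_add cl_mul cl_inv cl_of_base)

/-- equality of the types of `(a, e^a)` -/
def Lv (K : Subfield ℂ) {p : ℕ} (a a' : Fin p → ℂ) : Prop :=
  ∃ σ : ℂ ≃+* ℂ, (∀ c ∈ K, σ c = c) ∧ (∀ i, σ (a i) = a' i) ∧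
    ∀ i, σ (Complex.exp (a i)) = Complex.exp (a' i)

theorem lc_smul {p : ℕ} (a : Fin p → ℂ) (t : ℚ) (r : Fin p → ℚ) : lc a (t • r) = t • lc a r := by
  unfold lc
  rw [Finset.smul_sum]
  exact Finset.sum_congr rfl fun i _ => by rw [Pi.smul_apply, smul_smul, smul_eq_mul]

theorem lc_map {p : ℕ} (f : ℂ →+* ℂ) (a : Fin p → ℂ) (r : Fin p → ℚ) :
    f (lc a r) = lc (fun i => f (a i)) r := by
  unfold lc
  rw [map_sum]
  exact Finset.sum_congr rfl fun i _ => map_rat_smul f _ _

theorem lc_sum {p : ℕ} (a : Fin p → ℂ) {ι : Type} (s : Finset ι) (r : ι → Fin p → ℚ) :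
    lc a (∑ i ∈ s, r i) = ∑ i ∈ s, lc a (r i) := by
  classical
  induction s using Finset.induction_on with
  | empty => rw [Finset.sum_empty, Finset.sum_empty, lc_zero]
  | insert i s hi ih => rw [Finset.sum_insert hi, Finset.sum_insert hi, lc_add, ih]

theorem lc_append {p n : ℕ} (a : Fin p → ℂ) (c : Fin n → ℂ) (q : Fin (p + n) → ℚ) :
    lc (Fin.append a c) q = lc a (fun i => q (Fin.castAdd n i)) +
      lc c (fun i => q (Fin.natAdd p i)) := by
  unfold lc
  rw [Fin.sum_univ_add]
  simp only [Fin.append_left, Fin.append_right]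

theorem enc_compl {n : ℕ} (i : Fin n) : (({i}ᶜ : Set (Fin n)).encard) = (n - 1 : ℕ) := by
  have h1 := Set.encard_add_encard_compl ({i} : Set (Fin n))
  rw [Set.encard_singleton, Set.encard_univ, ENat.card_eq_coe_fintype_card, Fintype.card_fin] at h1
  have h2 : ({i}ᶜ : Set (Fin n)).encard ≠ ⊤ := by
    intro h
    rw [h, add_top] at h1
    exact absurd h1.symm (ENat.natCast_ne_top n)
  lift ({i}ᶜ : Set (Fin n)).encard to ℕ using h2 with m
  norm_cast at h1 ⊢
  omega

/-- a rank bound -/
theorem rk_bound {K : Subfield ℂ} {T X : Set ℂ} {p n : ℕ} {x : Fin n → ℂ} {i : Fin n}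
    (hT : (MK K).eRk T ≤ (p + 1 : ℕ)) (hX : X ⊆ (MK K).closure (T ∪ x '' {i}ᶜ)) :
    (MK K).eRk X ≤ (p + n : ℕ) := by
  refine (rk_le_of_subset_cl hX).trans (((MK K).eRk_union_le_eRk_add_eRk _ _).trans ?_)
  have h1 : (MK K).eRk (x '' {i}ᶜ) ≤ (n - 1 : ℕ) := by
    refine ((MK K).eRk_le_encard _).trans ((Set.encard_image_le _ _).trans ?_)
    rw [enc_compl]
  refine (add_le_add hT h1).trans ?_
  have hn : 0 < n := i.pos
  norm_cast
  omega

theorem star_zpow {Θ : (ℕ → ℂ) →+* ℂ}
    (h0 : ∀ f, Θ f = 0 ↔ ∀ᶠ j in (hyperfilter ℕ : Filter ℕ), f j = 0) (f : ℕ → ℂ) (m : ℤ) :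
    Θ (fun j => f j ^ m) = Θ f ^ m := by
  rcases m with m | m
  · simp only [Int.ofNat_eq_natCast, zpow_natCast]
    exact map_pow Θ f m
  · simp only [zpow_negSucc]
    rw [star_inv h0]
    congr 1
    exact map_pow Θ f (m + 1)

theorem star_pigeon {n : ℕ} {i : ℕ → Fin n} :
    ∃ i₀, ∀ᶠ j in (hyperfilter ℕ : Filter ℕ), i j = i₀ := by
  by_contra hcon
  push Not at hcon
  have h1 : ∀ i₀, ∀ᶠ j in (hyperfilter ℕ : Filter ℕ), i j ≠ i₀ := fun i₀ => hcon i₀
  have h2 : ∀ᶠ j in (hyperfilter ℕ : Filter ℕ), ∀ i₀, i j ≠ i₀ := eventually_all.2 h1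
  obtain ⟨j, hj⟩ := h2.exists
  exact hj _ rfl

theorem exists_int {p : ℕ} (r : Fin p → ℚ) :
    ∃ m : ℕ, 0 < m ∧ ∃ s : Fin p → ℤ, ∀ l, (m : ℚ) * r l = s l := by
  classical
  refine ⟨∏ i, (r i).den, Finset.prod_pos fun i _ => (r i).den_pos,
    fun i => (∏ j ∈ Finset.univ.erase i, (r j).den : ℕ) * (r i).num, fun i => ?_⟩
  have h1 : ∏ i, (r i).den = (r i).den * ∏ j ∈ Finset.univ.erase i, (r j).den :=
    (Finset.mul_prod_erase Finset.univ (fun j => (r j).den) (Finset.mem_univ i)).symm
  rw [h1]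
  push_cast
  have h2 : ((r i).den : ℚ) * r i = (r i).num := by
    rw [mul_comm]; exact Rat.mul_den_eq_num (r i)
  rw [mul_comm ((r i).den : ℚ), mul_assoc, h2]

theorem exp_lc_int {p : ℕ} (a : Fin p → ℂ) (s : Fin p → ℤ) :
    Complex.exp (lc a fun l => (s l : ℚ)) = ∏ l, Complex.exp (a l) ^ s l := by
  unfold lc
  rw [Complex.exp_sum]
  refine Finset.prod_congr rfl fun l _ => ?_
  rw [← Complex.exp_int_mul, Rat.smul_def]
  norm_cast

/-- unit vectors which form a basis modulo a subspace -/
theorem exists_quot_basis {N : ℕ} (V : Submodule ℚ (Fin N → ℚ)) :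
    ∃ (s : ℕ) (ι : Fin s → Fin N), LinearIndependent ℚ (fun j => V.mkQ (Pi.single (ι j) 1)) ∧
      s + Module.finrank ℚ V = N := by
  classical
  let y : Fin N → ((Fin N → ℚ) ⧸ V) := fun l => V.mkQ (Pi.single l 1)
  obtain ⟨B, hB1, hB2, hB3⟩ := exists_linearIndependent ℚ (range y)
  have hBf : B.Finite := (Set.finite_range y).subset hB1
  let e := hBf.toFinset.equivFin
  have hBmem : ∀ j : Fin hBf.toFinset.card, ((e.symm j : (Fin N → ℚ) ⧸ V)) ∈ B := fun j =>
    hBf.mem_toFinset.1 (e.symm j).2
  have hι : ∀ j : Fin hBf.toFinset.card, ∃ l, y l = (e.symm j : (Fin N → ℚ) ⧸ V) :=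
    fun j => hB1 (hBmem j)
  choose ι hι using hι
  have hind : LinearIndependent ℚ (fun j => y (ι j)) := by
    have h1 := hB3.comp (fun j => (⟨e.symm j, hBmem j⟩ : B)) (by
      intro j j' hjj
      have h2 := congrArg (fun w : B => (w : (Fin N → ℚ) ⧸ V)) hjj
      exact e.symm.injective (Subtype.ext h2))
    have h2 : (fun j => y (ι j)) = (fun w : B => (w : (Fin N → ℚ) ⧸ V)) ∘
        (fun j => (⟨e.symm j, hBmem j⟩ : B)) := by
      funext j
      exact hι j
    rw [h2]
    exact h1
  have hspan : Submodule.span ℚ (range fun j => y (ι j)) = ⊤ := by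
    have h1 : (range fun j => y (ι j)) = B := by
      ext w
      constructor
      · rintro ⟨j, rfl⟩
        simp only [hι]
        exact hBmem j
      · intro hw
        refine ⟨e ⟨w, hBf.mem_toFinset.2 hw⟩, ?_⟩
        simp only [hι, Equiv.symm_apply_apply]
    rw [h1, hB2]
    have h2 : range y = V.mkQ '' range (fun l : Fin N => (Pi.single l (1 : ℚ))) := by
      rw [← Set.range_comp]
      rfl
    have h3 : range (fun l : Fin N => (Pi.single l (1 : ℚ) : Fin N → ℚ)) =
        range (Pi.basisFun ℚ (Fin N)) := by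
      congr 1
      funext l
      rw [Pi.basisFun_apply]
    rw [h2, ← Submodule.map_span, h3, (Pi.basisFun ℚ (Fin N)).span_eq, Submodule.map_top,
      Submodule.range_mkQ]
  refine ⟨_, ι, hind, ?_⟩
  have h1 := V.finrank_quotient_add_finrank
  rw [Module.finrank_fintype_fun_eq_card, Fintype.card_fin] at h1
  have h2 := finrank_span_eq_card hind
  rw [hspan, finrank_top, Fintype.card_fin] at h2
  rw [← h2]
  exact h1

section Main

variable {K : Subfield ℂ} {p n : ℕ} {b b' : Fin p → ℂ} {c : Fin n → ℂ}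

/-- the data at infinity -/
theorem gsec_aux (hK : GD K) {F : IntermediateField K ℂ} [Countable F] (hbF : ∀ i, b i ∈ F)
    (heF : ∀ i, Complex.exp (b i) ∈ F)
    (hp : 0 < p) (hrb : (MK K).eRk (ET b) ≤ (p + 1 : ℕ))
    (hbc : ∀ q : Fin (p + n) → ℚ, lc (Fin.append b c) q ∈ K → q = 0)
    (hdom : ∀ i, Complex.exp (c i) ∈ (MK K).closure (ET b ∪ range c))
    {σ : ℂ ≃+* ℂ} (hσK : ∀ c ∈ K, σ c = c) (hσb : ∀ i, σ (b i) = b' i)
    (hσe : ∀ i, σ (Complex.exp (b i)) = Complex.exp (b' i))
    {τ : F →+* ℂ} (hτ : ∀ f : F, τ f = σ (f : ℂ))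
    (x : ℕ → Fin n → ℂ)
    (hx : ∀ j, ∀ f : MvPolynomial (Fin n ⊕ Fin n) F, aeval (ep c) f = 0 → eval₂ τ (ep (x j)) f = 0)
    (hxH : ∀ H : MvPolynomial (Fin n ⊕ Fin n) F, aeval (ep c) H ≠ 0 →
      ∀ᶠ j in (hyperfilter ℕ : Filter ℕ), eval₂ τ (ep (x j)) H ≠ 0)
    (hrel : ∀ j, ∃ q : Fin (p + n) → ℚ, lc (Fin.append b' (x j)) q ∈ K ∧
      ∃ i : Fin n, q (Fin.natAdd p i) ≠ 0) : False := by
  classical
  obtain ⟨Θ, hs, h0⟩ := exists_star
  let θ : ℂ →+* ℂ := Θ.comp (Pi.constRingHom ℕ ℂ)
  have hθ : ∀ z, θ z = Θ fun _ => z := fun z => rfl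
  let z : ℕ → Fin (p + n) → ℂ := fun j => Fin.append b' (x j)
  choose D hD1 hD2 hD3 using fun j => der_gen hK.der (z j)
  obtain ⟨D', hD'⟩ := star_der hs h0 D
  set K' := starF h0 K with hK'
  let zz : Fin (p + n) → ℂ := fun l => Θ fun j => z j l
  let ww : Fin (p + n) → ℂ := fun l => Θ fun j => Complex.exp (z j l)
  let z₀ : Fin (p + n) → ℂ := Fin.append b c
  have hlc : ∀ q, lc zz q = Θ fun j => lc (z j) q := by
    intro q
    have e : (fun j => lc (z j) q) = ∑ i, q i • (fun j => z j i) := by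
      funext j
      unfold lc
      rw [Finset.sum_apply]
      rfl
    rw [e, map_sum]
    unfold lc
    refine Finset.sum_congr rfl fun i _ => ?_
    exact (map_rat_smul Θ (q i) (fun j => z j i)).symm
  have hww0 : ∀ l, ww l ≠ 0 := fun l =>
    star_ne h0 (Eventually.of_forall fun j => Complex.exp_ne_zero _)
  have hDw : ∀ l, D' (ww l) = ww l * D' (zz l) := by
    intro l
    rw [hD', hD', ← map_mul]
    congr 1
    funext j
    exact D_exp (hD2 j l)
  have hDK : ∀ w ∈ K', D' w = 0 := by
    rintro _ ⟨f, hf, rfl⟩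
    rw [hD', h0]
    exact Eventually.of_forall fun j => hD1 j _ (hf j)
  have hDq : ∀ q, D' (lc zz q) = 0 → lc zz q ∈ K' := by
    intro q hq
    rw [hlc, hD', h0] at hq
    rw [hlc, hK', star_mem]
    filter_upwards [hq] with j hj
    exact hD3 j q hj
  have hcK : ∀ w ∈ K, θ w ∈ K' := fun w hw => ⟨fun _ => w, fun _ => hw, rfl⟩
  -- the isomorphism
  have hFK : ∀ w : K, (w : ℂ) ∈ F := fun w => F.algebraMap_mem w
  have hev : ∀ P : MvPolynomial (Fin n ⊕ Fin n) F, eval₂ (θ.comp τ)
      (Sum.elim (fun i => Θ fun j => x j i) (fun i => Θ fun j => Complex.exp (x j i))) P =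
      Θ fun j => eval₂ τ (ep (x j)) P := by
    intro P
    have e : (eval₂Hom (θ.comp τ) (Sum.elim (fun i => Θ fun j => x j i)
        (fun i => Θ fun j => Complex.exp (x j i)))) =
        Θ.comp (RingHom.pi fun j => eval₂Hom τ (ep (x j))) := by
      refine MvPolynomial.ringHom_ext (fun a => ?_) (fun i => ?_)
      · rw [eval₂Hom_C]
        change Θ (fun _ => τ a) = Θ (fun j => eval₂Hom τ (ep (x j)) (C a))
        congr 1
        funext j
        exact (eval₂Hom_C _ _ _).symm
      · rw [eval₂Hom_X', RingHom.comp_apply]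
        have e1 : (RingHom.pi fun j => eval₂Hom τ (ep (x j)))
            (X i : MvPolynomial (Fin n ⊕ Fin n) F) = fun j => ep (x j) i := by
          funext j
          exact eval₂Hom_X' _ _ _
        rw [e1]
        rcases i with i | i
        · rfl
        · rfl
    exact RingHom.congr_fun e P
  obtain ⟨ρ, hρF, hρx⟩ := aut_tuple (K := F) (ι := Fin n ⊕ Fin n) (algebraMap F ℂ) (θ.comp τ)
    (ep c) (Sum.elim (fun i => Θ fun j => x j i) (fun i => Θ fun j => Complex.exp (x j i)))
    (fun P => by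
      rw [hev]
      constructor
      · intro h
        rw [h0]
        exact Eventually.of_forall fun j => hx j P h
      · intro h
        by_contra hne
        exact star_ne h0 (hxH P hne) h)
  have hρF' : ∀ w : ℂ, ∀ hw : w ∈ F, ρ w = θ (σ w) := by
    intro w hw
    have := hρF ⟨w, hw⟩
    rw [RingHom.comp_apply, hτ] at this
    exact this
  have hρz : ∀ l, ρ (z₀ l) = zz l := by
    intro l
    refine Fin.addCases (fun i => ?_) (fun i => ?_) l
    · simp only [z₀, zz, z, Fin.append_left]
      rw [hρF' _ (hbF i), hσb]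
      rfl
    · simp only [z₀, zz, z, Fin.append_right]
      exact hρx (Sum.inl i)
  have hρw : ∀ l, ρ (Complex.exp (z₀ l)) = ww l := by
    intro l
    refine Fin.addCases (fun i => ?_) (fun i => ?_) l
    · simp only [z₀, ww, z, Fin.append_left]
      rw [hρF' _ (heF i), hσe]
      rfl
    · simp only [z₀, ww, z, Fin.append_right]
      exact hρx (Sum.inr i)
  have hρK : ∀ w ∈ K, ρ w = θ w := by
    intro w hw
    rw [hρF' w (hFK ⟨w, hw⟩), hσK w hw]
  -- the set
  set XX : Set ℂ := range zz ∪ range ww with hXX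
  have hXim : XX = ρ '' ET z₀ := by
    unfold ET
    rw [Set.image_union, hXX]
    congr 1
    · rw [← Set.range_comp]
      congr 1
      funext l
      exact (hρz l).symm
    · rw [← Set.range_comp]
      congr 1
      funext l
      exact (hρw l).symm
  -- ranks
  have hTb : θ '' ET b' = ρ '' ET b := by
    unfold ET
    rw [Set.image_union, Set.image_union, ← Set.range_comp, ← Set.range_comp, ← Set.range_comp,
      ← Set.range_comp]
    congr 1
    · congr 1
      funext i
      simp only [Function.comp_apply]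
      rw [hρF' _ (hbF i), hσb]
    · congr 1
      funext i
      simp only [Function.comp_apply]
      rw [hρF' _ (heF i), hσe]
  have hz₀rk : (MK K).eRk (ET z₀) ≤ (p + n + 1 : ℕ) := by
    have h1 : ET z₀ ⊆ (MK K).closure (ET b ∪ range c) := by
      rintro _ (⟨l, rfl⟩ | ⟨l, rfl⟩)
      · refine Fin.addCases (fun i => ?_) (fun i => ?_) l
        · simp only [z₀, Fin.append_left]
          exact subset_cl _ (Or.inl (Or.inl ⟨i, rfl⟩))
        · simp only [z₀, Fin.append_right]
          exact subset_cl _ (Or.inr ⟨i, rfl⟩)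
      · refine Fin.addCases (fun i => ?_) (fun i => ?_) l
        · simp only [z₀, Fin.append_left]
          exact subset_cl _ (Or.inl (Or.inr ⟨i, rfl⟩))
        · simp only [z₀, Fin.append_right]
          exact hdom i
    refine (rk_le_of_subset_cl h1).trans (((MK K).eRk_union_le_eRk_add_eRk _ _).trans ?_)
    have h2 : (MK K).eRk (range c) ≤ (n : ℕ) := by
      refine ((MK K).eRk_le_encard _).trans ?_
      rw [← Set.image_univ]
      refine (Set.encard_image_le _ _).trans ?_
      rw [Set.encard_univ, ENat.card_eq_coe_fintype_card, Fintype.card_fin]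
    refine (add_le_add hrb h2).trans ?_
    norm_cast
    omega
  -- the relations
  let V : Submodule ℚ (Fin (p + n) → ℚ) :=
    { carrier := {q | lc zz q ∈ K'}
      add_mem' := fun {q r} hq hr => by
        change lc zz (q + r) ∈ K'
        rw [lc_add]
        exact add_mem hq hr
      zero_mem' := by
        change lc zz 0 ∈ K'
        rw [lc_zero]
        exact zero_mem _
      smul_mem' := fun t q hq => by
        change lc zz (t • q) ∈ K'
        rw [lc_smul]
        exact SubfieldClass.qsmul_mem K' t hq }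
  obtain ⟨s, ι, hind, hsV⟩ := exists_quot_basis V
  have hb'K : ∀ i, b' i ∉ K := by
    intro i hi
    have h1 : b i ∈ K := by
      have h2 : σ.symm (b' i) = b i := by rw [← hσb, RingEquiv.symm_apply_apply]
      have h3 : σ.symm (b' i) = b' i := by
        rw [RingEquiv.symm_apply_eq]
        exact (hσK _ hi).symm
      rw [← h2, h3]
      exact hi
    have h4 := hbc (Pi.single (Fin.castAdd n i) 1) (by
      rw [lc_single, one_smul, Fin.append_left]
      exact h1)
    have h5 := congrFun h4 (Fin.castAdd n i)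
    rw [Pi.single_eq_same] at h5
    exact one_ne_zero h5
  have hspos : 0 < s := by
    rw [Nat.pos_iff_ne_zero]
    intro hs0
    have h1 : Module.finrank ℚ V = p + n := by omega
    have h2 : V = ⊤ := by
      apply Submodule.eq_top_of_finrank_eq
      rw [h1, Module.finrank_fintype_fun_eq_card, Fintype.card_fin]
    have h3 : (Pi.single (Fin.castAdd n ⟨0, hp⟩) 1 : Fin (p + n) → ℚ) ∈ V := by
      rw [h2]
      exact Submodule.mem_top
    have h4 : lc zz (Pi.single (Fin.castAdd n ⟨0, hp⟩) 1) ∈ K' := h3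
    rw [hlc, hK', star_mem] at h4
    obtain ⟨j, hj⟩ := h4.exists
    rw [lc_single, one_smul] at hj
    simp only [z, Fin.append_left] at hj
    exact hb'K _ hj
  -- the lower bound
  have hlow : ((s + 1 : ℕ) : ℕ∞) ≤ (MK K').eRk XX := by
    have h1 := pair_ax (D := D') hspos (x := fun l => zz (ι l)) (y := fun l => ww (ι l))
      (fun l => hww0 _) (fun l => hDw _) (by
        intro q hq
        have h2 : ∑ l, q l • zz (ι l) = lc zz (∑ l, q l • Pi.single (ι l) 1) := by
          rw [lc_sum]
          refine Finset.sum_congr rfl fun l _ => ?_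
          rw [lc_smul, lc_single, one_smul]
        rw [h2] at hq
        have h3 := hDq _ hq
        have h4 : V.mkQ (∑ l, q l • Pi.single (ι l) 1) = 0 := by
          rw [Submodule.mkQ_apply, Submodule.Quotient.mk_eq_zero]
          exact h3
        rw [map_sum] at h4
        simp only [map_smul] at h4
        exact funext fun l => Fintype.linearIndependent_iff.1 hind q h4 l)
    have h5 : range (fun l => zz (ι l)) ∪ range (fun l => ww (ι l)) ⊆ XX := by
      refine Set.union_subset_union ?_ ?_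
      · rintro _ ⟨l, rfl⟩
        exact ⟨_, rfl⟩
      · rintro _ ⟨l, rfl⟩
        exact ⟨_, rfl⟩
    refine h1.trans (((MK (Cst D')).eRk_mono h5).trans ?_)
    exact eRk_base (K := K') (K' := Cst D')
      { toFun := fun c => ⟨c, hDK c c.2⟩
        map_one' := rfl
        map_mul' := fun _ _ => rfl
        map_zero' := rfl
        map_add' := fun _ _ => rfl } (fun x => rfl) _
  by_cases hV : V = ⊥
  · -- a relation with infinite coefficients
    have hk0 : Module.finrank ℚ V = 0 := by
      rw [hV]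
      exact finrank_bot ℚ _
    choose q hq i hi using hrel
    obtain ⟨i₀, hi₀⟩ := star_pigeon (i := i)
    let Q : Fin (p + n) → ℂ := fun l => Θ fun j => ((q j l : ℚ) : ℂ)
    have hQK : ∀ l, Q l ∈ K' := fun l => ⟨_, fun j => by
      exact SubfieldClass.ratCast_mem K (q j l), rfl⟩
    have hQ0 : Q (Fin.natAdd p i₀) ≠ 0 := by
      apply star_ne h0
      filter_upwards [hi₀] with j hj
      rw [← hj]
      exact_mod_cast hi j
    have hrelQ : ∑ l, Q l * zz l ∈ K' := by
      have e1 : ∑ l, Q l * zz l = Θ fun j => lc (z j) (q j) := by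
        simp only [Q, zz]
        simp only [← map_mul]
        rw [← map_sum]
        congr 1
        funext j
        rw [Finset.sum_apply]
        unfold lc
        refine Finset.sum_congr rfl fun l _ => ?_
        rw [Rat.smul_def]
        rfl
      rw [e1]
      exact ⟨_, hq, rfl⟩
    have hKcl : ∀ (T : Set ℂ) (w : ℂ), w ∈ K' → w ∈ (MK K').closure T := fun T w hw =>
      cl_of_base (k := K') T (⟨w, hw⟩ : K')
    have hz₁ : ∀ l, l ≠ Fin.natAdd p i₀ → zz l ∈ (MK K').closure
        (θ '' ET b' ∪ (fun i => zz (Fin.natAdd p i)) '' {i₀}ᶜ) := by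
      intro l
      refine Fin.addCases (fun i => ?_) (fun i => ?_) l
      · intro _
        refine subset_cl _ (Or.inl ⟨b' i, Or.inl ⟨i, rfl⟩, ?_⟩)
        simp only [zz, z, Fin.append_left]
        rfl
      · intro hne
        exact subset_cl _ (Or.inr ⟨i, fun h => hne (by rw [Set.mem_singleton_iff.1 h]), rfl⟩)
    have hz₂ : zz (Fin.natAdd p i₀) ∈ (MK K').closure
        (θ '' ET b' ∪ (fun i => zz (Fin.natAdd p i)) '' {i₀}ᶜ) := by
      have h1 : zz (Fin.natAdd p i₀) = (Q (Fin.natAdd p i₀))⁻¹ * (∑ l, Q l * zz l -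
          ∑ l ∈ Finset.univ.erase (Fin.natAdd p i₀), Q l * zz l) := by
        rw [← Finset.add_sum_erase Finset.univ (fun l => Q l * zz l) (Finset.mem_univ
          (Fin.natAdd p i₀)), add_sub_cancel_right, inv_mul_cancel_left₀ hQ0]
      rw [h1]
      have h2 : (Q (Fin.natAdd p i₀))⁻¹ * (∑ l, Q l * zz l -
          ∑ l ∈ Finset.univ.erase (Fin.natAdd p i₀), Q l * zz l) ∈ clF K'
          (θ '' ET b' ∪ (fun i => zz (Fin.natAdd p i)) '' {i₀}ᶜ) := by
        refine mul_mem (inv_mem (hKcl _ _ (hQK _))) (sub_mem (hKcl _ _ hrelQ)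
          (sum_mem fun l hl => mul_mem (hKcl _ _ (hQK _)) (hz₁ l (Finset.ne_of_mem_erase hl))))
      exact h2
    have hz₃ : ∀ l, zz l ∈ (MK K').closure
        (θ '' ET b' ∪ (fun i => zz (Fin.natAdd p i)) '' {i₀}ᶜ) := by
      intro l
      by_cases hl : l = Fin.natAdd p i₀
      · rw [hl]; exact hz₂
      · exact hz₁ l hl
    have hup : XX ⊆ (MK K').closure (θ '' ET b' ∪ (fun i => zz (Fin.natAdd p i)) '' {i₀}ᶜ) := by
      rintro _ (⟨l, rfl⟩ | ⟨l, rfl⟩)
      · exact hz₃ l
      · refine Fin.addCases (fun i => ?_) (fun i => ?_) l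
        · refine subset_cl _ (Or.inl ⟨Complex.exp (b' i), Or.inr ⟨i, rfl⟩, ?_⟩)
          simp only [ww, z, Fin.append_left]
          rfl
        · have h1 := cl_hom' (k := K) (k' := K') (ρ : ℂ →+* ℂ)
            (T := θ '' ET b' ∪ (fun i => zz (Fin.natAdd p i)) '' {i₀}ᶜ)
            (fun w => by
              have := hρK w w.2
              change ρ (w : ℂ) ∈ _
              rw [this]
              exact hKcl _ _ (hcK _ w.2)) (by
              rintro w (hw | ⟨l, rfl⟩)
              · refine subset_cl _ (Or.inl ?_)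
                rw [hTb]
                exact ⟨w, hw, rfl⟩
              · have := hρz (Fin.natAdd p l)
                simp only [z₀, Fin.append_right] at this
                change ρ (c l) ∈ _
                rw [this]
                exact hz₃ _) (hdom i)
          have h2 := hρw (Fin.natAdd p i)
          simp only [z₀, Fin.append_right] at h2
          rw [← h2]
          exact h1
    have h3 := rk_bound (K := K') (p := p) ((rk_hom (K := K) (K' := K') hcK (ET b')).trans (by
      have h4 := rk_hom (θ := (σ : ℂ →+* ℂ)) (K := K) (K' := K) (fun c hc => by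
        change σ c ∈ K
        rw [hσK c hc]; exact hc) (ET b)
      have h5 : (σ : ℂ →+* ℂ) '' ET b = ET b' := by
        unfold ET
        rw [Set.image_union, ← Set.range_comp, ← Set.range_comp]
        congr 1
        · congr 1
          funext i
          exact hσb i
        · congr 1
          funext i
          exact hσe i
      rw [h5] at h4
      exact h4.trans hrb)) hup
    have h6 := hlow.trans h3
    norm_cast at h6
    omega
  · -- standard relations
    have hk0 : 0 < Module.finrank ℚ V :=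
      Module.finrank_pos_iff.2 (Submodule.nontrivial_iff_ne_bot.2 hV)
    let vb := Module.finBasis ℚ V
    choose m hm sI hsI using fun i => exists_int (vb i : Fin (p + n) → ℚ)
    let sq : Fin (Module.finrank ℚ V) → Fin (p + n) → ℚ := fun i l => sI i l
    have hsq : ∀ i, sq i = (m i : ℚ) • (vb i : Fin (p + n) → ℚ) := by
      intro i
      funext l
      rw [Pi.smul_apply, smul_eq_mul]
      exact (hsI i l).symm
    have hsqV : ∀ i, sq i ∈ V := by
      intro i
      rw [hsq]
      exact V.smul_mem _ (vb i).2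
    let u : Fin (Module.finrank ℚ V) → ℂ := fun i => lc z₀ (sq i)
    have hu : ∀ r : Fin (Module.finrank ℚ V) → ℚ, ∑ i, r i • u i ∈ K → r = 0 := by
      intro r hr
      have h1 : ∑ i, r i • u i = lc z₀ (∑ i, r i • sq i) := by
        rw [lc_sum]
        exact Finset.sum_congr rfl fun i _ => (lc_smul _ _ _).symm
      rw [h1] at hr
      have h2 := hbc _ hr
      have h3 : ∑ i, (r i * m i) • vb i = 0 := by
        apply Subtype.ext
        rw [AddSubmonoidClass.coe_finsetSum]
        refine Eq.trans (Finset.sum_congr rfl fun i _ => ?_) h2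
        rw [hsq, smul_smul]
        rfl
      have h4 := Fintype.linearIndependent_iff.1 vb.linearIndependent _ h3
      funext i
      have h5 : (m i : ℚ) ≠ 0 := by exact_mod_cast (hm i).ne'
      exact (mul_eq_zero.1 (h4 i)).resolve_right h5
    have hrku := hK.rk _ u hk0 hu
    let K₁ : Subfield ℂ := K.map θ
    have hK₁ : ∀ w ∈ K, θ w ∈ K₁ := fun w hw => Subfield.mem_map.2 ⟨w, hw, rfl⟩
    have hK₁K' : K₁ ≤ K' := by
      intro w hw
      obtain ⟨v, hv, rfl⟩ := Subfield.mem_map.1 hw
      exact hcK v hv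
    have hρK₁ : ∀ w ∈ K, (ρ : ℂ →+* ℂ) w ∈ K₁ := fun w hw => by
      change ρ w ∈ K₁
      rw [hρK w hw]
      exact hK₁ w hw
    have hWcl : (ρ : ℂ →+* ℂ) '' ET u ⊆ (MK K₁).closure XX := by
      rintro _ ⟨w, hw, rfl⟩
      have h1 : w ∈ (MK K).closure (ET z₀) := by
        rcases hw with ⟨i, rfl⟩ | ⟨i, rfl⟩
        · exact (sum_cl z₀ (sq i)).1
        · exact (sum_cl z₀ (sq i)).2
      have h2 := cl_hom hρK₁ h1
      rw [hXim]
      exact h2
    have hWK : (ρ : ℂ →+* ℂ) '' ET u ⊆ K' := by
      rintro _ ⟨w, (⟨i, rfl⟩ | ⟨i, rfl⟩), rfl⟩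
      · change ρ (u i) ∈ K'
        have h1 : ρ (u i) = lc zz (sq i) := by
          have h2 := lc_map (ρ : ℂ →+* ℂ) z₀ (sq i)
          change ρ (lc z₀ (sq i)) = lc (fun l => ρ (z₀ l)) (sq i) at h2
          simp only [u]
          rw [h2]
          congr 1
          funext l
          exact hρz l
        rw [h1]
        exact hsqV i
      · change ρ (Complex.exp (u i)) ∈ K'
        have h1 : ρ (Complex.exp (u i)) = Θ fun j => Complex.exp (lc (z j) (sq i)) := by
          simp only [u, sq]
          rw [exp_lc_int, map_prod]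
          have h2 : (fun j => Complex.exp (lc (z j) fun l => ((sI i l : ℤ) : ℚ))) =
              ∏ l, fun j => Complex.exp (z j l) ^ sI i l := by
            funext j
            rw [Finset.prod_apply]
            exact exp_lc_int _ _
          rw [h2, map_prod]
          refine Finset.prod_congr rfl fun l _ => ?_
          rw [map_zpow₀, hρw, star_zpow h0]
        have h3 : lc zz (sq i) ∈ K' := hsqV i
        rw [hlc, hK', star_mem] at h3
        rw [h1, hK', star_mem]
        filter_upwards [h3] with j hj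
        exact hK.exp _ hj
    have h6 : (MK K₁).eRk XX ≤ (p + n + 1 : ℕ) := by
      rw [hXim]
      exact (rk_hom (θ := (ρ : ℂ →+* ℂ)) hρK₁ (ET z₀)).trans hz₀rk
    have h7 : ((Module.finrank ℚ V + 1 : ℕ) : ℕ∞) ≤ (MK K₁).eRk ((ρ : ℂ →+* ℂ) '' ET u) := by
      have h8 := rk_hom (θ := (ρ.symm : ℂ →+* ℂ)) (K := K₁) (K' := K) (fun w hw => by
        obtain ⟨v, hv, rfl⟩ := Subfield.mem_map.1 hw
        change ρ.symm (θ v) ∈ K
        rw [← hρK v hv, RingEquiv.symm_apply_apply]
        exact hv) ((ρ : ℂ →+* ℂ) '' ET u)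
      have h9 : (ρ.symm : ℂ →+* ℂ) '' ((ρ : ℂ →+* ℂ) '' ET u) = ET u := by
        rw [Set.image_image]
        refine Eq.trans (Set.image_congr fun w _ => ?_) (Set.image_id (ET u))
        exact RingEquiv.symm_apply_apply ρ w
      rw [h9] at h8
      exact hrku.trans h8
    have h10 := rk_remove hK₁K' hWcl hWK h6 h7
    have h11 := hlow.trans h10
    norm_cast at h11
    omega

end Main

end Pool.Agent.V9h68
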