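import Pool.Agent.V9h68.Gs4
import Pool.Agent.V9h68.Ch

/-!
Existence of generic solutions of dominated systems over a chain of fields.
-/

set_option autoImplicit false

open MvPolynomial Set Filter

noncomputable section

namespace Pool.Agent.V9h68

open Pool.Agent.Y776 Pool.Agent.Y685
open Pool.Agent.TH813.Rel (MK mem_cl subset_cl rk_le_of_subset_cl cl_add cl_mul cl_inv cl_of_base)

/-- a chain of fields for a tuple -/
structure Chn (K : Subfield ℂ) {p : ℕ} (b : Fin p → ℂ) (d : ℕ) (L : ℕ → Subfield ℂ) : Prop where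
  zero : L 0 = K
  mono : ∀ i, L i ≤ L (i + 1)
  gd : ∀ i, GD (L i)
  str : ∀ i < d, ∃ q, lc b q ∉ L i ∧ (i + 1 < d → lc b q ∈ L (i + 1))

/-- a rank bound -/
theorem rk_bound' {K : Subfield ℂ} {T X : Set ℂ} {a n : ℕ} {x : Fin n → ℂ} {i : Fin n}
    (hT : (MK K).eRk T ≤ (a : ℕ)) (hX : X ⊆ (MK K).closure (T ∪ x '' {i}ᶜ)) :
    (MK K).eRk X ≤ (a + (n - 1) : ℕ) := by
  refine (rk_le_of_subset_cl hX).trans (((MK K).eRk_union_le_eRk_add_eRk _ _).trans ?_)
  have h1 : (MK K).eRk (x '' {i}ᶜ) ≤ (n - 1 : ℕ) := by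
    refine ((MK K).eRk_le_encard _).trans ((Set.encard_image_le _ _).trans ?_)
    rw [enc_compl]
  refine (add_le_add hT h1).trans ?_
  norm_cast

section Main

variable {K : Subfield ℂ} {p n : ℕ} {b b' : Fin p → ℂ} {c : Fin n → ℂ}

/-- the data at infinity -/
theorem gsec_auxd (hK : GD K) {F : IntermediateField K ℂ} [Countable F] (hbF : ∀ i, b i ∈ F)
    (heF : ∀ i, Complex.exp (b i) ∈ F)
    {d : ℕ} (hd : 0 < d) {L : ℕ → Subfield ℂ} (hL : Chn K b' d L)
    (hrb : (MK K).eRk (ET b) ≤ (p + d : ℕ))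
    (hbc : ∀ q : Fin (p + n) → ℚ, lc (Fin.append b c) q ∈ K → q = 0)
    (hdom : ∀ i, Complex.exp (c i) ∈ (MK K).closure (ET b ∪ range c))
    {σ : ℂ ≃+* ℂ} (hσK : ∀ c ∈ K, σ c = c) (hσb : ∀ i, σ (b i) = b' i)
    (hσe : ∀ i, σ (Complex.exp (b i)) = Complex.exp (b' i))
    {τ : F →+* ℂ} (hτ : ∀ f : F, τ f = σ (f : ℂ))
    (x : ℕ → Fin n → ℂ)
    (hx : ∀ j, ∀ f : MvPolynomial (Fin n ⊕ Fin n) F, aeval (ep c) f = 0 → eval₂ τ (ep (x j)) f = 0)
    (hxH : ∀ H : MvPolynomial (Fin n ⊕ Fin n) F, aeval (ep c) H ≠ 0 →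
      ∀ᶠ j in (hyperfilter ℕ : Filter ℕ), eval₂ τ (ep (x j)) H ≠ 0)
    (hrel : ∀ j, ∃ q : Fin (p + n) → ℚ, lc (Fin.append b' (x j)) q ∈ K ∧
      ∃ i : Fin n, q (Fin.natAdd p i) ≠ 0) : False := by
  classical
  obtain ⟨Θ, hs, h0⟩ := exists_star
  let θ : ℂ →+* ℂ := Θ.comp (Pi.constRingHom ℕ ℂ)
  have hθ : ∀ z, θ z = Θ fun _ => z := fun z => rfl
  let z : ℕ → Fin (p + n) → ℂ := fun j => Fin.append b' (x j)
  set K' := starF h0 K with hK'
  let zz : Fin (p + n) → ℂ := fun l => Θ fun j => z j l
  let ww : Fin (p + n) → ℂ := fun l => Θ fun j => Complex.exp (z j l)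
  let z₀ : Fin (p + n) → ℂ := Fin.append b c
  have hlc : ∀ q, lc zz q = Θ fun j => lc (z j) q := by
    intro q
    have e : (fun j => lc (z j) q) = ∑ i, q i • (fun j => z j i) := by
      funext j
      unfold lc
      rw [Finset.sum_apply]
      rfl
    rw [e, map_sum]
    unfold lc
    refine Finset.sum_congr rfl fun i _ => ?_
    exact (map_rat_smul Θ (q i) (fun j => z j i)).symm
  have hww0 : ∀ l, ww l ≠ 0 := fun l =>
    star_ne h0 (Eventually.of_forall fun j => Complex.exp_ne_zero _)
  have hDD : ∀ i, ∃ D' : Derivation ℚ ℂ ℂ, (∀ c ∈ starF h0 (L i), D' c = 0) ∧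
      (∀ l, D' (ww l) = ww l * D' (zz l)) ∧ ∀ q, D' (lc zz q) = 0 → lc zz q ∈ starF h0 (L i) := by
    intro i
    choose D hD1 hD2 hD3 using fun j => der_gen (hL.gd i).der (z j)
    obtain ⟨D', hD'⟩ := star_der hs h0 D
    refine ⟨D', ?_, ?_, ?_⟩
    · rintro _ ⟨f, hf, rfl⟩
      rw [hD', h0]
      exact Eventually.of_forall fun j => hD1 j _ (hf j)
    · intro l
      rw [hD', hD', ← map_mul]
      congr 1
      funext j
      exact D_exp (hD2 j l)
    · intro q hq
      rw [hlc, hD', h0] at hq
      rw [hlc, star_mem]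
      filter_upwards [hq] with j hj
      exact hD3 j q hj
  have hmonΘ : ∀ s : Fin (p + n) → ℤ, mon ww s =
      Θ fun j => Complex.exp (lc (z j) fun l => (s l : ℚ)) := by
    intro s
    have h2 : (fun j => Complex.exp (lc (z j) fun l => ((s l : ℤ) : ℚ))) =
        ∏ l, fun j => Complex.exp (z j l) ^ s l := by
      funext j
      rw [Finset.prod_apply]
      exact exp_lc_int _ _
    rw [h2, map_prod]
    unfold mon
    refine Finset.prod_congr rfl fun l _ => ?_
    rw [star_zpow h0]
  have hmonL : ∀ (i : ℕ) (s : Fin (p + n) → ℤ), lc zz (fun l => (s l : ℚ)) ∈ starF h0 (L i) →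
      mon ww s ∈ starF h0 (L i) := by
    intro i s h3
    rw [hlc, star_mem] at h3
    rw [hmonΘ, star_mem]
    filter_upwards [h3] with j hj
    exact (hL.gd i).exp _ hj
  have hstr : ∀ i < d, ∃ q, lc zz q ∉ starF h0 (L i) ∧
      (i + 1 < d → lc zz q ∈ starF h0 (L (i + 1))) := by
    intro i hi
    obtain ⟨q, hq1, hq2⟩ := hL.str i hi
    have hq3 : ∀ j, lc (z j) (Fin.append q (0 : Fin n → ℚ)) = lc b' q := by
      intro j
      simp only [z]
      rw [lc_append]
      simp only [Fin.append_left, Fin.append_right]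
      have h6 : lc (x j) (fun i => (0 : Fin n → ℚ) i) = 0 := lc_zero (x j)
      rw [h6, add_zero]
    refine ⟨Fin.append q 0, ?_, fun h => ?_⟩
    · rw [hlc, star_mem]
      intro hcon
      obtain ⟨j, hj⟩ := hcon.exists
      rw [hq3] at hj
      exact hq1 hj
    · rw [hlc, star_mem]
      refine Eventually.of_forall fun j => ?_
      rw [hq3]
      exact hq2 h
  have hlow : ∀ a : ℕ, (MK (starF h0 K)).eRk (range zz ∪ range ww) ≤ a →
      (p + n) + d ≤ Module.finrank ℚ (rels (starF h0 K) zz) + a := by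
    intro a ha
    exact chain_low' (z := zz) (w := ww) hww0 (d := d) (L := fun i => starF h0 (L i))
      (K := starF h0 K) (congrArg (starF h0) hL.zero) (fun i => by
        rintro _ ⟨f, hf, rfl⟩
        exact ⟨f, fun j => hL.mono i (hf j), rfl⟩) (fun i _ => hDD i) (fun i _ => hmonL i)
      hstr hd ha
  have hcK : ∀ w ∈ K, θ w ∈ K' := fun w hw => ⟨fun _ => w, fun _ => hw, rfl⟩
  -- the isomorphism
  have hFK : ∀ w : K, (w : ℂ) ∈ F := fun w => F.algebraMap_mem w
  have hev : ∀ P : MvPolynomial (Fin n ⊕ Fin n) F, eval₂ (θ.comp τ)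
      (Sum.elim (fun i => Θ fun j => x j i) (fun i => Θ fun j => Complex.exp (x j i))) P =
      Θ fun j => eval₂ τ (ep (x j)) P := by
    intro P
    have e : (eval₂Hom (θ.comp τ) (Sum.elim (fun i => Θ fun j => x j i)
        (fun i => Θ fun j => Complex.exp (x j i)))) =
        Θ.comp (RingHom.pi fun j => eval₂Hom τ (ep (x j))) := by
      refine MvPolynomial.ringHom_ext (fun a => ?_) (fun i => ?_)
      · rw [eval₂Hom_C]
        change Θ (fun _ => τ a) = Θ (fun j => eval₂Hom τ (ep (x j)) (C a))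
        congr 1
        funext j
        exact (eval₂Hom_C _ _ _).symm
      · rw [eval₂Hom_X', RingHom.comp_apply]
        have e1 : (RingHom.pi fun j => eval₂Hom τ (ep (x j)))
            (X i : MvPolynomial (Fin n ⊕ Fin n) F) = fun j => ep (x j) i := by
          funext j
          exact eval₂Hom_X' _ _ _
        rw [e1]
        rcases i with i | i
        · rfl
        · rfl
    exact RingHom.congr_fun e P
  obtain ⟨ρ, hρF, hρx⟩ := aut_tuple (K := F) (ι := Fin n ⊕ Fin n) (algebraMap F ℂ) (θ.comp τ)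
    (ep c) (Sum.elim (fun i => Θ fun j => x j i) (fun i => Θ fun j => Complex.exp (x j i)))
    (fun P => by
      rw [hev]
      constructor
      · intro h
        rw [h0]
        exact Eventually.of_forall fun j => hx j P h
      · intro h
        by_contra hne
        exact star_ne h0 (hxH P hne) h)
  have hρF' : ∀ w : ℂ, ∀ hw : w ∈ F, ρ w = θ (σ w) := by
    intro w hw
    have := hρF ⟨w, hw⟩
    rw [RingHom.comp_apply, hτ] at this
    exact this
  have hρz : ∀ l, ρ (z₀ l) = zz l := by
    intro l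
    refine Fin.addCases (fun i => ?_) (fun i => ?_) l
    · simp only [z₀, zz, z, Fin.append_left]
      rw [hρF' _ (hbF i), hσb]
      rfl
    · simp only [z₀, zz, z, Fin.append_right]
      exact hρx (Sum.inl i)
  have hρw : ∀ l, ρ (Complex.exp (z₀ l)) = ww l := by
    intro l
    refine Fin.addCases (fun i => ?_) (fun i => ?_) l
    · simp only [z₀, ww, z, Fin.append_left]
      rw [hρF' _ (heF i), hσe]
      rfl
    · simp only [z₀, ww, z, Fin.append_right]
      exact hρx (Sum.inr i)
  have hρK : ∀ w ∈ K, ρ w = θ w := by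
    intro w hw
    rw [hρF' w (hFK ⟨w, hw⟩), hσK w hw]
  -- the set
  set XX : Set ℂ := range zz ∪ range ww with hXX
  have hXim : XX = ρ '' ET z₀ := by
    unfold ET
    rw [Set.image_union, hXX]
    congr 1
    · rw [← Set.range_comp]
      congr 1
      funext l
      exact (hρz l).symm
    · rw [← Set.range_comp]
      congr 1
      funext l
      exact (hρw l).symm
  -- ranks
  have hTb : θ '' ET b' = ρ '' ET b := by
    unfold ET
    rw [Set.image_union, Set.image_union, ← Set.range_comp, ← Set.range_comp, ← Set.range_comp,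
      ← Set.range_comp]
    congr 1
    · congr 1
      funext i
      simp only [Function.comp_apply]
      rw [hρF' _ (hbF i), hσb]
    · congr 1
      funext i
      simp only [Function.comp_apply]
      rw [hρF' _ (heF i), hσe]
  have hz₀rk : (MK K).eRk (ET z₀) ≤ (p + d + n : ℕ) := by
    have h1 : ET z₀ ⊆ (MK K).closure (ET b ∪ range c) := by
      rintro _ (⟨l, rfl⟩ | ⟨l, rfl⟩)
      · refine Fin.addCases (fun i => ?_) (fun i => ?_) l
        · simp only [z₀, Fin.append_left]
          exact subset_cl _ (Or.inl (Or.inl ⟨i, rfl⟩))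
        · simp only [z₀, Fin.append_right]
          exact subset_cl _ (Or.inr ⟨i, rfl⟩)
      · refine Fin.addCases (fun i => ?_) (fun i => ?_) l
        · simp only [z₀, Fin.append_left]
          exact subset_cl _ (Or.inl (Or.inr ⟨i, rfl⟩))
        · simp only [z₀, Fin.append_right]
          exact hdom i
    refine (rk_le_of_subset_cl h1).trans (((MK K).eRk_union_le_eRk_add_eRk _ _).trans ?_)
    have h2 : (MK K).eRk (range c) ≤ (n : ℕ) := by
      refine ((MK K).eRk_le_encard _).trans ?_
      rw [← Set.image_univ]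
      refine (Set.encard_image_le _ _).trans ?_
      rw [Set.encard_univ, ENat.card_eq_coe_fintype_card, Fintype.card_fin]
    refine (add_le_add hrb h2).trans ?_
    norm_cast
  -- the relations
  set V : Submodule ℚ (Fin (p + n) → ℚ) := rels (starF h0 K) zz with hVdef
  by_cases hV : V = ⊥
  · -- a relation with infinite coefficients
    have hk0 : Module.finrank ℚ V = 0 := by
      rw [hV]
      exact finrank_bot ℚ _
    choose q hq i hi using hrel
    obtain ⟨i₀, hi₀⟩ := star_pigeon (i := i)
    let Q : Fin (p + n) → ℂ := fun l => Θ fun j => ((q j l : ℚ) : ℂ)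
    have hQK : ∀ l, Q l ∈ K' := fun l => ⟨_, fun j => by
      exact SubfieldClass.ratCast_mem K (q j l), rfl⟩
    have hQ0 : Q (Fin.natAdd p i₀) ≠ 0 := by
      apply star_ne h0
      filter_upwards [hi₀] with j hj
      rw [← hj]
      exact_mod_cast hi j
    have hrelQ : ∑ l, Q l * zz l ∈ K' := by
      have e1 : ∑ l, Q l * zz l = Θ fun j => lc (z j) (q j) := by
        simp only [Q, zz]
        simp only [← map_mul]
        rw [← map_sum]
        congr 1
        funext j
        rw [Finset.sum_apply]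
        unfold lc
        refine Finset.sum_congr rfl fun l _ => ?_
        rw [Rat.smul_def]
        rfl
      rw [e1]
      exact ⟨_, hq, rfl⟩
    have hKcl : ∀ (T : Set ℂ) (w : ℂ), w ∈ K' → w ∈ (MK K').closure T := fun T w hw =>
      cl_of_base (k := K') T (⟨w, hw⟩ : K')
    have hz₁ : ∀ l, l ≠ Fin.natAdd p i₀ → zz l ∈ (MK K').closure
        (θ '' ET b' ∪ (fun i => zz (Fin.natAdd p i)) '' {i₀}ᶜ) := by
      intro l
      refine Fin.addCases (fun i => ?_) (fun i => ?_) l
      · intro _
        refine subset_cl _ (Or.inl ⟨b' i, Or.inl ⟨i, rfl⟩, ?_⟩)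
        simp only [zz, z, Fin.append_left]
        rfl
      · intro hne
        exact subset_cl _ (Or.inr ⟨i, fun h => hne (by rw [Set.mem_singleton_iff.1 h]), rfl⟩)
    have hz₂ : zz (Fin.natAdd p i₀) ∈ (MK K').closure
        (θ '' ET b' ∪ (fun i => zz (Fin.natAdd p i)) '' {i₀}ᶜ) := by
      have h1 : zz (Fin.natAdd p i₀) = (Q (Fin.natAdd p i₀))⁻¹ * (∑ l, Q l * zz l -
          ∑ l ∈ Finset.univ.erase (Fin.natAdd p i₀), Q l * zz l) := by
        rw [← Finset.add_sum_erase Finset.univ (fun l => Q l * zz l) (Finset.mem_univ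
          (Fin.natAdd p i₀)), add_sub_cancel_right, inv_mul_cancel_left₀ hQ0]
      rw [h1]
      have h2 : (Q (Fin.natAdd p i₀))⁻¹ * (∑ l, Q l * zz l -
          ∑ l ∈ Finset.univ.erase (Fin.natAdd p i₀), Q l * zz l) ∈ clF K'
          (θ '' ET b' ∪ (fun i => zz (Fin.natAdd p i)) '' {i₀}ᶜ) := by
        refine mul_mem (inv_mem (hKcl _ _ (hQK _))) (sub_mem (hKcl _ _ hrelQ)
          (sum_mem fun l hl => mul_mem (hKcl _ _ (hQK _)) (hz₁ l (Finset.ne_of_mem_erase hl))))
      exact h2
    have hz₃ : ∀ l, zz l ∈ (MK K').closure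
        (θ '' ET b' ∪ (fun i => zz (Fin.natAdd p i)) '' {i₀}ᶜ) := by
      intro l
      by_cases hl : l = Fin.natAdd p i₀
      · rw [hl]; exact hz₂
      · exact hz₁ l hl
    have hup : XX ⊆ (MK K').closure (θ '' ET b' ∪ (fun i => zz (Fin.natAdd p i)) '' {i₀}ᶜ) := by
      rintro _ (⟨l, rfl⟩ | ⟨l, rfl⟩)
      · exact hz₃ l
      · refine Fin.addCases (fun i => ?_) (fun i => ?_) l
        · refine subset_cl _ (Or.inl ⟨Complex.exp (b' i), Or.inr ⟨i, rfl⟩, ?_⟩)
          simp only [ww, z, Fin.append_left]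
          rfl
        · have h1 := cl_hom' (k := K) (k' := K') (ρ : ℂ →+* ℂ)
            (T := θ '' ET b' ∪ (fun i => zz (Fin.natAdd p i)) '' {i₀}ᶜ)
            (fun w => by
              have := hρK w w.2
              change ρ (w : ℂ) ∈ _
              rw [this]
              exact hKcl _ _ (hcK _ w.2)) (by
              rintro w (hw | ⟨l, rfl⟩)
              · refine subset_cl _ (Or.inl ?_)
                rw [hTb]
                exact ⟨w, hw, rfl⟩
              · have := hρz (Fin.natAdd p l)
                simp only [z₀, Fin.append_right] at this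
                change ρ (c l) ∈ _
                rw [this]
                exact hz₃ _) (hdom i)
          have h2 := hρw (Fin.natAdd p i)
          simp only [z₀, Fin.append_right] at h2
          rw [← h2]
          exact h1
    have h3 := rk_bound' (K := K') (a := p + d) ((rk_hom (K := K) (K' := K') hcK (ET b')).trans (by
      have h4 := rk_hom (θ := (σ : ℂ →+* ℂ)) (K := K) (K' := K) (fun c hc => by
        change σ c ∈ K
        rw [hσK c hc]; exact hc) (ET b)
      have h5 : (σ : ℂ →+* ℂ) '' ET b = ET b' := by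
        unfold ET
        rw [Set.image_union, ← Set.range_comp, ← Set.range_comp]
        congr 1
        · congr 1
          funext i
          exact hσb i
        · congr 1
          funext i
          exact hσe i
      rw [h5] at h4
      exact h4.trans hrb)) hup
    have h6 := hlow _ h3
    have hn := i₀.pos
    omega
  · -- standard relations
    have hk0 : 0 < Module.finrank ℚ V :=
      Module.finrank_pos_iff.2 (Submodule.nontrivial_iff_ne_bot.2 hV)
    let vb := Module.finBasis ℚ V
    choose m hm sI hsI using fun i => exists_int (vb i : Fin (p + n) → ℚ)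
    let sq : Fin (Module.finrank ℚ V) → Fin (p + n) → ℚ := fun i l => sI i l
    have hsq : ∀ i, sq i = (m i : ℚ) • (vb i : Fin (p + n) → ℚ) := by
      intro i
      funext l
      rw [Pi.smul_apply, smul_eq_mul]
      exact (hsI i l).symm
    have hsqV : ∀ i, sq i ∈ V := by
      intro i
      rw [hsq]
      exact V.smul_mem _ (vb i).2
    let u : Fin (Module.finrank ℚ V) → ℂ := fun i => lc z₀ (sq i)
    have hu : ∀ r : Fin (Module.finrank ℚ V) → ℚ, ∑ i, r i • u i ∈ K → r = 0 := by
      intro r hr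
      have h1 : ∑ i, r i • u i = lc z₀ (∑ i, r i • sq i) := by
        rw [lc_sum]
        exact Finset.sum_congr rfl fun i _ => (lc_smul _ _ _).symm
      rw [h1] at hr
      have h2 := hbc _ hr
      have h3 : ∑ i, (r i * m i) • vb i = 0 := by
        apply Subtype.ext
        rw [AddSubmonoidClass.coe_finsetSum]
        refine Eq.trans (Finset.sum_congr rfl fun i _ => ?_) h2
        rw [hsq, smul_smul]
        rfl
      have h4 := Fintype.linearIndependent_iff.1 vb.linearIndependent _ h3
      funext i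
      have h5 : (m i : ℚ) ≠ 0 := by exact_mod_cast (hm i).ne'
      exact (mul_eq_zero.1 (h4 i)).resolve_right h5
    have hrku := hK.rk _ u hk0 hu
    let K₁ : Subfield ℂ := K.map θ
    have hK₁ : ∀ w ∈ K, θ w ∈ K₁ := fun w hw => Subfield.mem_map.2 ⟨w, hw, rfl⟩
    have hK₁K' : K₁ ≤ K' := by
      intro w hw
      obtain ⟨v, hv, rfl⟩ := Subfield.mem_map.1 hw
      exact hcK v hv
    have hρK₁ : ∀ w ∈ K, (ρ : ℂ →+* ℂ) w ∈ K₁ := fun w hw => by
      change ρ w ∈ K₁
      rw [hρK w hw]
      exact hK₁ w hw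
    have hWcl : (ρ : ℂ →+* ℂ) '' ET u ⊆ (MK K₁).closure XX := by
      rintro _ ⟨w, hw, rfl⟩
      have h1 : w ∈ (MK K).closure (ET z₀) := by
        rcases hw with ⟨i, rfl⟩ | ⟨i, rfl⟩
        · exact (sum_cl z₀ (sq i)).1
        · exact (sum_cl z₀ (sq i)).2
      have h2 := cl_hom hρK₁ h1
      rw [hXim]
      exact h2
    have hWK : (ρ : ℂ →+* ℂ) '' ET u ⊆ K' := by
      rintro _ ⟨w, (⟨i, rfl⟩ | ⟨i, rfl⟩), rfl⟩
      · change ρ (u i) ∈ K'
        have h1 : ρ (u i) = lc zz (sq i) := by
          have h2 := lc_map (ρ : ℂ →+* ℂ) z₀ (sq i)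
          change ρ (lc z₀ (sq i)) = lc (fun l => ρ (z₀ l)) (sq i) at h2
          simp only [u]
          rw [h2]
          congr 1
          funext l
          exact hρz l
        rw [h1]
        exact hsqV i
      · change ρ (Complex.exp (u i)) ∈ K'
        have h1 : ρ (Complex.exp (u i)) = Θ fun j => Complex.exp (lc (z j) (sq i)) := by
          simp only [u, sq]
          rw [exp_lc_int, map_prod]
          have h2 : (fun j => Complex.exp (lc (z j) fun l => ((sI i l : ℤ) : ℚ))) =
              ∏ l, fun j => Complex.exp (z j l) ^ sI i l := by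
            funext j
            rw [Finset.prod_apply]
            exact exp_lc_int _ _
          rw [h2, map_prod]
          refine Finset.prod_congr rfl fun l _ => ?_
          rw [map_zpow₀, hρw, star_zpow h0]
        have h3 : lc zz (sq i) ∈ K' := hsqV i
        rw [hlc, hK', star_mem] at h3
        rw [h1, hK', star_mem]
        filter_upwards [h3] with j hj
        exact hK.exp _ hj
    have h6 : (MK K₁).eRk XX ≤ (p + d + n : ℕ) := by
      rw [hXim]
      exact (rk_hom (θ := (ρ : ℂ →+* ℂ)) hρK₁ (ET z₀)).trans hz₀rk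
    have h7 : ((Module.finrank ℚ V + 1 : ℕ) : ℕ∞) ≤ (MK K₁).eRk ((ρ : ℂ →+* ℂ) '' ET u) := by
      have h8 := rk_hom (θ := (ρ.symm : ℂ →+* ℂ)) (K := K₁) (K' := K) (fun w hw => by
        obtain ⟨v, hv, rfl⟩ := Subfield.mem_map.1 hw
        change ρ.symm (θ v) ∈ K
        rw [← hρK v hv, RingEquiv.symm_apply_apply]
        exact hv) ((ρ : ℂ →+* ℂ) '' ET u)
      have h9 : (ρ.symm : ℂ →+* ℂ) '' ((ρ : ℂ →+* ℂ) '' ET u) = ET u := by
        rw [Set.image_image]
        refine Eq.trans (Set.image_congr fun w _ => ?_) (Set.image_id (ET u))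
        exact RingEquiv.symm_apply_apply ρ w
      rw [h9] at h8
      exact hrku.trans h8
    have h10 := rk_remove hK₁K' hWcl hWK h6 h7
    have h11 := hlow _ h10
    have h12 : Module.finrank ℚ V ≤ p + n := by
      have := V.finrank_le
      rwa [Module.finrank_fintype_fun_eq_card, Fintype.card_fin] at this
    omega

end Main

end Pool.Agent.V9h68
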