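import Pool.Agent.V9h68.Gs5

/-!
Existence of generic solutions of dominated systems over a chain of fields.
-/

set_option autoImplicit false

open MvPolynomial Set Filter

noncomputable section

namespace Pool.Agent.V9h68

open Pool.Agent.Y776 Pool.Agent.Y685
open Pool.Agent.TH813.Rel (MK mem_cl subset_cl rk_le_of_subset_cl cl_add cl_mul cl_inv cl_of_base)

theorem Chn.append {K : Subfield ℂ} {p n d : ℕ} {b : Fin p → ℂ} {L : ℕ → Subfield ℂ}
    (h : Chn K b d L) (x : Fin n → ℂ) : Chn K (Fin.append b x) d L := by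
  refine ⟨h.zero, h.mono, h.gd, fun i hi => ?_⟩
  obtain ⟨q, hq1, hq2⟩ := h.str i hi
  have hq3 : lc (Fin.append b x) (Fin.append q (0 : Fin n → ℚ)) = lc b q := by
    rw [lc_append]
    simp only [Fin.append_left, Fin.append_right]
    have h6 : lc x (fun i => (0 : Fin n → ℚ) i) = 0 := lc_zero x
    rw [h6, add_zero]
  exact ⟨Fin.append q 0, by rw [hq3]; exact hq1, fun hh => by rw [hq3]; exact hq2 hh⟩

/-- the lower bound for ranks -/
theorem Chn.low {K : Subfield ℂ} {p d : ℕ} {b : Fin p → ℂ} {L : ℕ → Subfield ℂ}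
    (h : Chn K b d L) (hd : 0 < d) (hb : ∀ q : Fin p → ℚ, lc b q ∈ K → q = 0) {a : ℕ}
    (ha : (MK K).eRk (ET b) ≤ a) : p + d ≤ a := by
  have h1 := chain_low' (z := b) (w := fun l => Complex.exp (b l))
    (fun l => Complex.exp_ne_zero _) (d := d) (L := L) h.zero h.mono (fun i _ => by
      obtain ⟨D, hD1, hD2, hD3⟩ := der_gen (h.gd i).der b
      exact ⟨D, hD1, fun l => D_exp (hD2 l), hD3⟩) (fun i _ s hs => by
      have h2 := (h.gd i).exp _ hs
      rw [exp_lc_int] at h2
      exact h2) h.str hd (a := a) ha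
  have h2 : rels K b = ⊥ := by
    rw [Submodule.eq_bot_iff]
    exact fun q hq => hb q hq
  rw [h2, finrank_bot] at h1
  omega

/-- **Generic solutions.** -/
theorem gsecd {K : Subfield ℂ} (hK : GD K) {p n d : ℕ} {b b' : Fin p → ℂ} {c : Fin n → ℂ}
    (hd : 0 < d) {L : ℕ → Subfield ℂ} (hLc : Chn K b' d L)
    (hrb : (MK K).eRk (ET b) ≤ (p + d : ℕ))
    (hbc : ∀ q : Fin (p + n) → ℚ, lc (Fin.append b c) q ∈ K → q = 0)
    (hc : AlgebraicIndependent (IntermediateField.adjoin K (range (xp b))) c)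
    (hdom : ∀ i, Complex.exp (c i) ∈ (MK K).closure (ET b ∪ range c))
    (hL : Lv K b b') : ∃ c' : Fin n → ℂ, Lv K (Fin.append b c) (Fin.append b' c') := by
  classical
  obtain ⟨σ, hσK, hσb, hσe⟩ := hL
  have : Countable K := hK.cnt.to_subtype
  have hFc : Countable (IntermediateField.adjoin K (range (xp b))) := adj_countable (xp b)
  have hFcl : ∀ f : IntermediateField.adjoin K (range (xp b)), (σ : ℂ →+* ℂ) (f : ℂ) ∈
      (MK K).closure (ET b') := by
    intro f
    have h1 := tau_mem (σ := (σ : ℂ →+* ℂ)) hσK f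
    rwa [image_ET hσb hσe] at h1
  have hbF : ∀ i, b i ∈ IntermediateField.adjoin K (range (xp b)) := fun i =>
    IntermediateField.subset_adjoin _ _ ⟨Sum.inl i, rfl⟩
  have heF : ∀ i, Complex.exp (b i) ∈ IntermediateField.adjoin K (range (xp b)) := fun i =>
    IntermediateField.subset_adjoin _ _ ⟨Sum.inr i, rfl⟩
  generalize IntermediateField.adjoin K (range (xp b)) = F at *
  have hFK : ∀ w : K, (w : ℂ) ∈ F := fun w => F.algebraMap_mem w
  let τ : F →+* ℂ := (σ : ℂ →+* ℂ).comp (algebraMap F ℂ)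
  have hτ : ∀ f : F, τ f = σ (f : ℂ) := fun f => rfl
  have hdomF : ∀ i, Complex.exp (c i) ∈ (MK F).closure (range c) := by
    intro i
    refine cl_up (k := K) (k' := F) (fun w => ?_) ?_ (hdom i)
    · exact cl_of_base (k := F) _ (⟨w, hFK w⟩ : F)
    · rintro _ ((⟨l, rfl⟩ | ⟨l, rfl⟩) | ⟨l, rfl⟩)
      · exact cl_of_base (k := F) _ (⟨b l, hbF l⟩ : F)
      · exact cl_of_base (k := F) _ (⟨Complex.exp (b l), heF l⟩ : F)
      · exact subset_cl _ ⟨l, rfl⟩
  choose R hRl _ hRz using fun i => exists_relp hc (hdomF i) (Complex.exp_ne_zero (c i))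
  let Hs : MvPolynomial (Fin n) F := ∏ i, (R i).leadingCoeff
  have hHs : Hs ≠ 0 := Finset.prod_ne_zero_iff.2 fun i _ => hRl i
  have hHsc : aeval (ep c) (rename Sum.inl Hs : MvPolynomial (Fin n ⊕ Fin n) F) ≠ 0 := by
    rw [aeval_rename]
    intro h
    have h1 : aeval c Hs = 0 := h
    rw [algebraicIndependent_iff] at hc
    exact hHs (hc _ h1)
  -- the sequence
  have hne : Nonempty {H : MvPolynomial (Fin n ⊕ Fin n) F // aeval (ep c) H ≠ 0} :=
    ⟨⟨1, by rw [map_one]; exact one_ne_zero⟩⟩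
  have hcount : Countable (MvPolynomial (Fin n ⊕ Fin n) F) := by
    rw [← Cardinal.mk_le_aleph0_iff]
    refine MvPolynomial.cardinalMk_le_max.trans ?_
    simp
  obtain ⟨e, he⟩ := exists_surjective_nat {H : MvPolynomial (Fin n ⊕ Fin n) F // aeval (ep c) H ≠ 0}
  have hseq : ∀ j : ℕ, ∃ x' : Fin n → ℂ, (∀ f : MvPolynomial (Fin n ⊕ Fin n) F,
      aeval (ep c) f = 0 → eval₂ τ (ep x') f = 0) ∧
      eval₂ τ x' Hs ≠ 0 ∧ ∀ i ≤ j, eval₂ τ (ep x') (e i).1 ≠ 0 := by
    intro j
    obtain ⟨x', h1, h2, -⟩ := transfer τ c hc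
      (rename Sum.inl Hs * ∏ i ∈ Finset.range (j + 1), (e i).1) (by
        rw [map_mul]
        refine mul_ne_zero hHsc ?_
        rw [map_prod]
        exact Finset.prod_ne_zero_iff.2 fun i _ => (e i).2) 1 one_ne_zero
    rw [eval₂_mul] at h2
    refine ⟨x', h1, ?_, fun i hi => ?_⟩
    · have h3 := left_ne_zero_of_mul h2
      rw [eval₂_rename] at h3
      exact h3
    · have h3 := right_ne_zero_of_mul h2
      have h4 : eval₂ τ (ep x') (∏ i ∈ Finset.range (j + 1), (e i).1) =
          ∏ i ∈ Finset.range (j + 1), eval₂ τ (ep x') (e i).1 :=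
        map_prod (eval₂Hom τ (ep x')) _ _
      rw [h4] at h3
      exact Finset.prod_ne_zero_iff.1 h3 i (Finset.mem_range.2 (Nat.lt_succ_of_le hi))
  choose x hx1 hx2 hx3 using hseq
  by_cases hgen : ∃ j, ∀ H : MvPolynomial (Fin n ⊕ Fin n) F, aeval (ep c) H ≠ 0 →
      eval₂ τ (ep (x j)) H ≠ 0
  · obtain ⟨j, hj⟩ := hgen
    obtain ⟨ρ, hρF, hρx⟩ := aut_tuple (K := F) (ι := Fin n ⊕ Fin n) (algebraMap F ℂ) τ
      (ep c) (ep (x j)) (fun P => ⟨fun h => hx1 j P h, fun h => by
        by_contra h1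
        exact hj P h1 h⟩)
    refine ⟨x j, ρ, fun w hw => ?_, fun l => ?_, fun l => ?_⟩
    · exact (hρF ⟨w, hFK ⟨w, hw⟩⟩).trans (hσK w hw)
    · refine Fin.addCases (fun i => ?_) (fun i => ?_) l
      · rw [Fin.append_left, Fin.append_left]
        exact (hρF ⟨b i, hbF i⟩).trans (hσb i)
      · rw [Fin.append_right, Fin.append_right]
        exact hρx (Sum.inl i)
    · refine Fin.addCases (fun i => ?_) (fun i => ?_) l
      · rw [Fin.append_left, Fin.append_left]
        exact (hρF ⟨Complex.exp (b i), heF i⟩).trans (hσe i)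
      · rw [Fin.append_right, Fin.append_right]
        exact hρx (Sum.inr i)
  exfalso
  push Not at hgen
  have hb'ind : ∀ q : Fin p → ℚ, lc b' q ∈ K → q = 0 := by
    intro q hq
    have h1 : lc b q ∈ K := by
      have h2 := lc_map (σ : ℂ →+* ℂ) b q
      have h3 : (fun i => (σ : ℂ →+* ℂ) (b i)) = b' := funext hσb
      rw [h3] at h2
      have h4 : σ (lc b q) = σ (lc b' q) := by
        rw [hσK _ hq]
        exact h2
      rw [σ.injective h4]
      exact hq
    have h5 := hbc (Fin.append q 0) (by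
      rw [lc_append]
      simp only [Fin.append_left, Fin.append_right]
      have h6 : lc c (fun i => (0 : Fin n → ℚ) i) = 0 := lc_zero c
      rw [h6, add_zero]
      exact h1)
    funext i
    have h7 := congrFun h5 (Fin.castAdd n i)
    rw [Fin.append_left] at h7
    exact h7
  have hrb' : (MK K).eRk (ET b') ≤ (p + d : ℕ) := by
    have h1 := rk_hom (θ := (σ : ℂ →+* ℂ)) (K := K) (K' := K) (fun w hw => by
      change σ w ∈ K
      rw [hσK w hw]
      exact hw) (ET b)
    rw [image_ET hσb hσe] at h1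
    exact h1.trans hrb
  refine gsec_auxd hK hbF heF hd hLc hrb hbc hdom hσK hσb hσe hτ x hx1 ?_ ?_
  · intro H hH
    obtain ⟨i, hi⟩ := he ⟨H, hH⟩
    have h1 : ∀ᶠ j : ℕ in (hyperfilter ℕ : Filter ℕ), i ≤ j := by
      refine (Nat.hyperfilter_le_atTop) ?_
      exact eventually_ge_atTop i
    filter_upwards [h1] with j hj
    have h2 := hx3 j i hj
    rw [hi] at h2
    exact h2
  · intro j
    by_contra hcon
    push Not at hcon
    obtain ⟨H, hH, hHx⟩ := hgen j
    obtain ⟨i, hi⟩ := nongeneric (K := K) (T := ET b') (τ := τ) hFcl hc hdomF (hx1 j) hH hHx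
    have hexpj : ∀ l, Complex.exp (x j l) ∈ (MK K).closure (ET b' ∪ range (x j)) := by
      intro l
      refine exp_alg (K := K) (T := ET b') (τ := τ) hFcl (hx1 j) (hRz l) ?_
      have h1 := hx2 j
      have h4 : eval₂ τ (x j) Hs = ∏ i, eval₂ τ (x j) (R i).leadingCoeff :=
        map_prod (eval₂Hom τ (x j)) _ _
      rw [h4] at h1
      exact Finset.prod_ne_zero_iff.1 h1 l (Finset.mem_univ _)
    have hxcl : ∀ l, x j l ∈ (MK K).closure (ET b' ∪ x j '' {i}ᶜ) := by
      intro l
      by_cases hl : l = i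
      · rw [hl]; exact hi
      · exact subset_cl _ (Or.inr ⟨l, hl, rfl⟩)
    have hETcl : ET (Fin.append b' (x j)) ⊆ (MK K).closure (ET b' ∪ x j '' {i}ᶜ) := by
      rintro _ (⟨l, rfl⟩ | ⟨l, rfl⟩)
      · refine Fin.addCases (fun i => ?_) (fun i => ?_) l
        · rw [Fin.append_left]
          exact subset_cl _ (Or.inl (Or.inl ⟨i, rfl⟩))
        · rw [Fin.append_right]
          exact hxcl i
      · refine Fin.addCases (fun i => ?_) (fun i => ?_) l
        · simp only [Fin.append_left]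
          exact subset_cl _ (Or.inl (Or.inr ⟨i, rfl⟩))
        · simp only [Fin.append_right]
          refine cl_sub_of ?_ (hexpj i)
          refine Set.union_subset (Set.subset_union_left.trans (subset_cl _)) ?_
          rintro _ ⟨l, rfl⟩
          exact hxcl l
    have h1 := rk_bound' hrb' hETcl
    have h2 := (hLc.append (x j)).low hd (fun q hq => by
      have hq' : lc (Fin.append b' (x j)) q ∈ K := hq
      have h3 := hcon q hq'
      rw [lc_append] at hq'
      have h4 : lc (x j) (fun i => q (Fin.natAdd p i)) = 0 := by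
        have h5 : (fun i => q (Fin.natAdd p i)) = 0 := funext h3
        rw [h5, lc_zero]
      rw [h4, add_zero] at hq'
      have h6 := hb'ind _ hq'
      funext l
      refine Fin.addCases (fun i => ?_) (fun i => ?_) l
      · exact congrFun h6 i
      · exact h3 i) h1
    have hn := i.pos
    omega

end Pool.Agent.V9h68
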