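import Pool.Agent.V9h68.Pz

/-!
The derivation of the field of germs, and Ax's theorem for regular germs.
-/

set_option autoImplicit false

open Topology Filter Set

noncomputable section

namespace Pool.Agent.V9h68.Rt

open Pool.Agent.Y776 Pool.Agent.Y685
open Pool.Agent.TH813.Rel (MK mem_cl subset_cl rk_le_of_subset_cl cl_add cl_mul cl_inv cl_of_base DF
  kills_clF)

/-- derivations of a subfield extend to the complex numbers -/
theorem ext_der {F : Type} [Field F] [CharZero F] (ι : F →+* ℂ) (δ : F → F)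
    (hadd : ∀ a b, δ (a + b) = δ a + δ b) (hmul : ∀ a b, δ (a * b) = a * δ b + b * δ a) :
    ∃ D : Derivation ℚ ℂ ℂ, ∀ g, D (ι g) = ι (δ g) := by
  classical
  obtain ⟨B, hB⟩ := exists_isTranscendenceBasis ℚ F
  have hι : AlgebraicIndependent ℚ (fun b : B => ι (b : F)) :=
    hB.1.map' (f := ι.toRatAlgHom) ι.injective
  obtain ⟨D, hD⟩ := Pool.Agent.H135R2.VS.exists_der hι (fun b => ι (δ b))
  refine ⟨D, ?_⟩
  have h1 : δ 1 = 0 := by
    have := hmul 1 1
    simp only [one_mul] at this
    exact left_eq_add.1 this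
  have h0 : δ 0 = 0 := by
    have := hadd 0 0
    simp only [add_zero] at this
    exact left_eq_add.1 this
  have hneg : ∀ a, δ (-a) = -δ a := by
    intro a
    have := hadd a (-a)
    rw [add_neg_cancel, h0] at this
    exact (neg_eq_of_add_eq_zero_right this.symm).symm
  have hinv : ∀ a, a ≠ 0 → δ a⁻¹ = -(a⁻¹ * a⁻¹ * δ a) := by
    intro a ha
    have := hmul a a⁻¹
    rw [mul_inv_cancel₀ ha, h1] at this
    have h2 : a⁻¹ * (a * δ a⁻¹ + a⁻¹ * δ a) = 0 := by rw [← this, mul_zero]
    rw [mul_add, inv_mul_cancel_left₀ ha, ← mul_assoc] at h2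
    exact eq_neg_of_add_eq_zero_left h2
  let Z : Subfield F :=
    { carrier := {g | D (ι g) = ι (δ g)}
      mul_mem' := fun {a b} ha hb => by
        change D (ι a) = ι (δ a) at ha
        change D (ι b) = ι (δ b) at hb
        change D (ι (a * b)) = ι (δ (a * b))
        rw [map_mul, Derivation.leibniz, ha, hb, hmul, map_add, map_mul, map_mul]
        rfl
      one_mem' := by
        change D (ι 1) = ι (δ 1)
        rw [h1, map_one, map_zero]
        exact D.map_one_eq_zero
      add_mem' := fun {a b} ha hb => by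
        change D (ι a) = ι (δ a) at ha
        change D (ι b) = ι (δ b) at hb
        change D (ι (a + b)) = ι (δ (a + b))
        rw [map_add, map_add, ha, hb, hadd, map_add]
      zero_mem' := by
        change D (ι 0) = ι (δ 0)
        rw [h0, map_zero, map_zero]
      neg_mem' := fun {a} ha => by
        change D (ι a) = ι (δ a) at ha
        change D (ι (-a)) = ι (δ (-a))
        rw [map_neg, map_neg, ha, hneg, map_neg]
      inv_mem' := fun a ha => by
        change D (ι a) = ι (δ a) at ha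
        change D (ι a⁻¹) = ι (δ a⁻¹)
        by_cases h : a = 0
        · rw [h, inv_zero, h0, map_zero, map_zero]
        · rw [hinv a h, map_inv₀, Derivation.leibniz_inv, ha, map_neg, map_mul, map_mul, map_inv₀]
          simp only [smul_eq_mul]
          ring }
  let E : F → ℂ := fun g => D (ι g) - ι (δ g)
  have hE0 : E 0 = 0 := by
    change D (ι 0) - ι (δ 0) = 0
    rw [h0, map_zero, map_zero, sub_zero]
  have hEadd : ∀ a b, E (a + b) = E a + E b := by
    intro a b
    change D (ι (a + b)) - ι (δ (a + b)) = (D (ι a) - ι (δ a)) + (D (ι b) - ι (δ b))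
    rw [map_add, map_add, hadd, map_add]
    ring
  have hEmul : ∀ a b, E (a * b) = ι a * E b + ι b * E a := by
    intro a b
    change D (ι (a * b)) - ι (δ (a * b)) =
      ι a * (D (ι b) - ι (δ b)) + ι b * (D (ι a) - ι (δ a))
    rw [map_mul, Derivation.leibniz, hmul, map_add, map_mul, map_mul]
    simp only [smul_eq_mul]
    ring
  have hEZ : ∀ a : Z, E a = 0 := fun a => sub_eq_zero.2 a.2
  have hEp : ∀ (g : F) (q : Polynomial Z), E (Polynomial.aeval g q) =
      ι (Polynomial.aeval g q.derivative) * E g := by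
    intro g q
    induction q using Polynomial.induction_on with
    | C a =>
      rw [Polynomial.aeval_C, Polynomial.derivative_C, map_zero, map_zero, zero_mul]
      exact hEZ a
    | add p q hp hq =>
      rw [map_add, hEadd, hp, hq, Polynomial.derivative_add, map_add, map_add]
      ring
    | monomial n a h =>
      have e1 : Polynomial.C a * Polynomial.X ^ (n + 1) =
          (Polynomial.C a * Polynomial.X ^ n) * Polynomial.X := by ring
      rw [e1]
      generalize Polynomial.C a * Polynomial.X ^ n = P at *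
      rw [map_mul, hEmul, h, Polynomial.derivative_mul, Polynomial.derivative_X, mul_one,
        map_add, map_mul, map_add, map_mul, Polynomial.aeval_X]
      ring
  intro g
  -- `g` is algebraic over `Z`
  have hBZ : B ⊆ Z := fun b hb => hD ⟨b, hb⟩
  have halg : IsAlgebraic Z g := by
    have h2 : Algebra.IsAlgebraic (IntermediateField.adjoin ℚ (range (Subtype.val : B → F))) F :=
      hB.isAlgebraic_field
    obtain ⟨p, hp, hpg⟩ := h2.isAlgebraic g
    have hZr : ∀ r : ℚ, algebraMap ℚ F r ∈ Z := fun r => by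
      rw [eq_ratCast]
      exact SubfieldClass.ratCast_mem Z r
    let Z' : IntermediateField ℚ F := { Z with algebraMap_mem' := hZr }
    have h3 : IntermediateField.adjoin ℚ (range (Subtype.val : B → F)) ≤ Z' := by
      rw [IntermediateField.adjoin_le_iff, Subtype.range_coe]
      exact hBZ
    let g' : IntermediateField.adjoin ℚ (range (Subtype.val : B → F)) →+* Z :=
      { toFun := fun a => ⟨a, h3 a.2⟩
        map_one' := rfl
        map_mul' := fun _ _ => rfl
        map_zero' := rfl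
        map_add' := fun _ _ => rfl }
    refine ⟨p.map g', ?_, ?_⟩
    · rw [Ne, Polynomial.map_eq_zero_iff g'.injective]
      exact hp
    · rw [Polynomial.aeval_def, Polynomial.eval₂_map]
      exact hpg
  have hint := halg.isIntegral
  have h2 := hEp g (minpoly Z g)
  rw [minpoly.aeval, hE0] at h2
  rcases mul_eq_zero.1 h2.symm with h3 | h3
  · exfalso
    rw [map_eq_zero] at h3
    have h4 : (minpoly Z g).derivative ≠ 0 := by
      intro h5
      have h6 := Polynomial.natDegree_eq_zero_of_derivative_eq_zero h5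
      exact (minpoly.natDegree_pos hint).ne' h6
    have h5 := minpoly.degree_le_of_ne_zero Z g h4 h3
    exact absurd (Polynomial.degree_derivative_lt (minpoly.ne_zero hint)) (not_lt.2 h5)
  · exact sub_eq_zero.1 h3

/-- an embedding of the field of germs with a compatible derivation -/
theorem exists_io : ∃ (ι : MG →+* ℂ) (D : Derivation ℚ ℂ ℂ), ∀ g, D (ι g) = ι (dM g) := by
  obtain ⟨Θ, -, h0⟩ := exists_star
  let sq : FS →+* (ℕ → ℂ) :=
    { toFun := fun f k => (f : ℂ → ℂ) (((k : ℂ) + 1)⁻¹)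
      map_one' := rfl
      map_mul' := fun _ _ => rfl
      map_zero' := rfl
      map_add' := fun _ _ => rfl }
  let ι : MG →+* ℂ := Ideal.Quotient.lift JJ (Θ.comp sq) fun f hf => by
    rw [RingHom.comp_apply, h0]
    obtain ⟨ε, hε, h⟩ := ev_iff.1 (mem_JJ.1 hf)
    have h1 : ∀ᶠ k : ℕ in atTop, ((k : ℝ) + 1)⁻¹ < ε := by
      have h2 : Tendsto (fun k : ℕ => ((k : ℝ) + 1)⁻¹) atTop (𝓝 0) :=
        tendsto_inv_atTop_zero.comp (tendsto_atTop_add_const_right _ _ tendsto_natCast_atTop_atTop)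
      exact h2.eventually (gt_mem_nhds hε)
    filter_upwards [Nat.hyperfilter_le_atTop h1] with k hk
    have h2 : ((k : ℂ) + 1) ≠ 0 := by exact_mod_cast Nat.succ_ne_zero k
    refine h _ (inv_ne_zero h2) ?_
    have h3 : ‖((k : ℂ) + 1)‖ = (k : ℝ) + 1 := by
      have : ((k : ℂ) + 1) = ((k + 1 : ℕ) : ℂ) := by push_cast; rfl
      rw [this, Complex.norm_natCast]
      push_cast
      rfl
    rw [norm_inv, h3]
    exact hk
  obtain ⟨D, hD⟩ := ext_der ι dM dM_add dM_mul
  exact ⟨ι, D, hD⟩

/-- **Ax's theorem for regular germs** -/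
theorem germ_ax {ι : MG →+* ℂ} {D : Derivation ℚ ℂ ℂ} (hD : ∀ g, D (ι g) = ι (dM g)) {r : ℕ}
    {u e : Fin r → MG} (he : ∀ j, e j ≠ 0) (hde : ∀ j, dM (e j) = e j * dM (u j))
    (hu : ∀ q : Fin r → ℚ, D (∑ j, q j • ι (u j)) = 0 → q = 0) {y : ℂ}
    (hcl : ∀ j, ι (u j) ∈ (MK (Cst D).toSubfield).closure {y}) {d : MvPolynomial (Fin r) ℂ}
    (hd : d ≠ 0) (hdc : ∀ m, d.coeff m ∈ (MK (Cst D).toSubfield).closure {y}) :
    MvPolynomial.eval (fun j => ι (e j)) d ≠ 0 := by
  classical
  intro h0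
  obtain ⟨i, hi⟩ := exists_dep hd hdc h0
  have hr : 0 < r := i.pos
  have h1 := pair_ax (D := D) hr (x := fun j => ι (u j)) (y := fun j => ι (e j))
    (fun j => (map_ne_zero ι).2 (he j)) (fun j => by rw [hD, hD, hde, map_mul]) hu
  have h2 : (MK (Cst D)).eRk (range (fun j => ι (u j)) ∪ range (fun j => ι (e j))) ≤
      (MK (Cst D).toSubfield).eRk (range (fun j => ι (u j)) ∪ range (fun j => ι (e j))) :=
    eRk_base (K := (Cst D).toSubfield) (K' := Cst D)
      { toFun := fun c => ⟨c, c.2⟩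
        map_one' := rfl
        map_mul' := fun _ _ => rfl
        map_zero' := rfl
        map_add' := fun _ _ => rfl } (fun x => rfl) _
  have h3 : range (fun j => ι (u j)) ∪ range (fun j => ι (e j)) ⊆
      (MK (Cst D).toSubfield).closure ({y} ∪ (fun j => ι (e j)) '' {i}ᶜ) := by
    rintro _ (⟨j, rfl⟩ | ⟨j, rfl⟩)
    · exact (MK _).closure_subset_closure Set.subset_union_left (hcl j)
    · by_cases hj : j = i
      · rw [hj]; exact hi
      · exact subset_cl _ (Or.inr ⟨j, hj, rfl⟩)
  have h4 := rk_bound' (a := 1) (by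
    refine ((MK (Cst D).toSubfield).eRk_le_encard _).trans ?_
    rw [Set.encard_singleton]
    rfl) h3
  have h5 := h1.trans (h2.trans h4)
  norm_cast at h5
  omega

/-- the place as an automorphism -/
theorem place_aut {A : Subfield ℂ} [Countable A] (σ : A →+* ℂ) (ι : MG →+* ℂ) {n : ℕ}
    {c : Fin n → ℂ} {X : Fin n → MG} (h : ∀ P : MvPolynomial (Fin n) A,
        MvPolynomial.aeval c P = 0 ↔ MvPolynomial.eval₂ (cst.comp σ) X P = 0) :
    ∃ ρ : ℂ ≃+* ℂ, (∀ a : A, ρ a = ι (cst (σ a))) ∧ ∀ i, ρ (c i) = ι (X i) := by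
  refine aut_tuple (K := A) (algebraMap A ℂ) (ι.comp (cst.comp σ)) c (fun i => ι (X i)) fun P => ?_
  have h1 : MvPolynomial.eval₂ (ι.comp (cst.comp σ)) (fun i => ι (X i)) P =
      ι (MvPolynomial.eval₂ (cst.comp σ) X P) := by
    rw [MvPolynomial.eval₂_comp_left]
    rfl
  rw [h1, map_eq_zero]
  exact h P

theorem cst_const {ι : MG →+* ℂ} {D : Derivation ℚ ℂ ℂ} (hD : ∀ g, D (ι g) = ι (dM g)) (z : ℂ) :
    ι (cst z) ∈ (Cst D).toSubfield := by
  change D (ι (cst z)) = 0
  rw [hD, dM_cst, map_zero]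

theorem D_pole {ι : MG →+* ℂ} {D : Derivation ℚ ℂ ℂ} (hD : ∀ g, D (ι g) = ι (dM g)) {e : ℕ}
    (he : 0 < e) : D (ι (T ^ e)⁻¹) ≠ 0 := by
  have hT : D (ι T) = 1 := by rw [hD, dM_T, map_one]
  have hT0 : ι T ≠ 0 := (map_ne_zero ι).2 T_ne
  rw [map_inv₀, map_pow, Derivation.leibniz_inv, Derivation.leibniz_pow, hT]
  simp only [smul_eq_mul, mul_one, nsmul_eq_mul]
  refine mul_ne_zero (neg_ne_zero.2 (pow_ne_zero _ (inv_ne_zero (pow_ne_zero _ hT0)))) ?_
  exact mul_ne_zero (by exact_mod_cast he.ne') (pow_ne_zero _ hT0)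

/-- constants of the place -/
theorem place_const {A : Subfield ℂ} (hA : ∀ x, IsAlgebraic A x → x ∈ A) {σ : A →+* ℂ}
    {ι : MG →+* ℂ} {D : Derivation ℚ ℂ ℂ} (hD : ∀ g, D (ι g) = ι (dM g)) {z : ℂ} {ρ : ℂ ≃+* ℂ}
    (hρ : ∀ a : A, ρ a = ι (cst (σ a))) (hz : D (ρ z) ≠ 0) {y : ℂ}
    (hy : y ∈ (MK A).closure {z}) (hDy : D (ρ y) = 0) : y ∈ A := by
  by_contra hyA
  have h0 : ∀ w ∈ (MK A).closure (∅ : Set ℂ), w ∈ A :=
    cl_le_alg (K := A) (F := A) le_rfl hA (Set.empty_subset _)
  have h1 : z ∈ (MK A).closure (insert y ∅) \ (MK A).closure ∅ :=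
    Matroid.closure_exchange ⟨by rwa [insert_empty_eq], fun h => hyA (h0 y h)⟩
  have h2 := h1.1
  rw [insert_empty_eq] at h2
  have h3 : ρ z ∈ (MK (Cst D)).closure {ρ y} := by
    refine cl_hom' (k := A) (k' := Cst D) (ρ : ℂ →+* ℂ) (fun a => ?_) ?_ h2
    · have h4 : ρ (a : ℂ) ∈ Cst D := by
        rw [hρ]
        exact cst_const hD _
      exact cl_of_base (k := Cst D) _ (⟨ρ a, h4⟩ : Cst D)
    · rintro w rfl
      exact subset_cl _ rfl
  apply hz
  refine kills_clF (Cst D) (S := {ρ y}) (D := D) (fun x hx => hx) ?_ h3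
  rintro w rfl
  exact hDy

end Pool.Agent.V9h68.Rt
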