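import Mathlib

/-!
Hensel's lemma for analytic functions.
-/

set_option autoImplicit false

open Polynomial Topology Filter

noncomputable section

namespace Pool.Agent.V9h68.Rt

section Pl

variable {R S : Type} [CommRing R] [CommRing S]

/-- polynomials of degree less than `k` -/
def ln (k : ℕ) (u : Fin k → R) : R[X] := ∑ j, C (u j) * X ^ (j : ℕ)

/-- monic polynomials of degree `k` -/
def pl (k : ℕ) (u : Fin k → R) : R[X] := X ^ k + ln k u

theorem coeff_ln (k : ℕ) (u : Fin k → R) (a : ℕ) :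
    (ln k u).coeff a = if h : a < k then u ⟨a, h⟩ else 0 := by
  unfold ln
  rw [finsetSum_coeff]
  simp only [coeff_C_mul, coeff_X_pow]
  split_ifs with h
  · rw [Finset.sum_eq_single ⟨a, h⟩]
    · simp
    · intro b _ hb
      rw [if_neg, mul_zero]
      intro hab
      exact hb (Fin.ext hab.symm)
    · intro hh
      exact absurd (Finset.mem_univ _) hh
  · refine Finset.sum_eq_zero fun b _ => ?_
    rw [if_neg, mul_zero]
    intro hab
    exact h (hab ▸ b.2)

theorem degree_ln (k : ℕ) (u : Fin k → R) : (ln k u).degree < k := by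
  rw [degree_lt_iff_coeff_zero]
  intro m hm
  rw [coeff_ln, dif_neg (not_lt.2 hm)]

theorem pl_monic (k : ℕ) (u : Fin k → R) : (pl k u).Monic := monic_X_pow_add (degree_ln k u)

theorem pl_natDegree [Nontrivial R] (k : ℕ) (u : Fin k → R) : (pl k u).natDegree = k := by
  unfold pl
  rw [natDegree_add_eq_left_of_degree_lt]
  · exact natDegree_X_pow k
  · rw [degree_X_pow]
    exact degree_ln k u

theorem coeff_pl (k : ℕ) (u : Fin k → R) (a : ℕ) :
    (pl k u).coeff a = (if a = k then 1 else 0) + if h : a < k then u ⟨a, h⟩ else 0 := by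
  unfold pl
  rw [coeff_add, coeff_X_pow, coeff_ln]

theorem eq_pl {p : R[X]} {k : ℕ} (hp : p.Monic) (hk : p.natDegree = k) :
    p = pl k (fun j => p.coeff j) := by
  ext a
  rw [coeff_pl]
  by_cases h : a < k
  · rw [if_neg h.ne, dif_pos h, zero_add]
  · rw [dif_neg h, add_zero]
    by_cases h2 : a = k
    · rw [if_pos h2, h2, ← hk]
      exact hp.coeff_natDegree
    · rw [if_neg h2]
      exact coeff_eq_zero_of_natDegree_lt (by omega)

theorem pl_map (f : R →+* S) (k : ℕ) (u : Fin k → R) : (pl k u).map f = pl k fun j => f (u j) := by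
  unfold pl ln
  rw [Polynomial.map_add, Polynomial.map_pow, map_X, Polynomial.map_sum]
  congr 1
  refine Finset.sum_congr rfl fun j _ => ?_
  rw [Polynomial.map_mul, map_C, Polynomial.map_pow, map_X]

theorem pl_add (k : ℕ) (u w : Fin k → R) (t : R) : pl k (u + t • w) = pl k u + C t * ln k w := by
  unfold pl ln
  rw [add_assoc, Finset.mul_sum, ← Finset.sum_add_distrib]
  congr 1
  refine Finset.sum_congr rfl fun j _ => ?_
  rw [Pi.add_apply, Pi.smul_apply, smul_eq_mul, C_add, C_mul]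
  ring

end Pl

/-- the product of monic polynomials in terms of coefficients -/
def Fm (k m : ℕ) (p : (Fin k → ℂ) × (Fin m → ℂ)) : Fin (k + m) → ℂ :=
  fun i => (pl k p.1 * pl m p.2).coeff i

theorem Fm_contDiff (k m : ℕ) : ContDiff ℂ ⊤ (Fm k m) := by
  have h1 : ∀ a, ContDiff ℂ ⊤ fun p : (Fin k → ℂ) × (Fin m → ℂ) => (pl k p.1).coeff a := by
    intro a
    simp only [coeff_pl]
    refine ContDiff.add contDiff_const ?_
    split_ifs with h
    · exact (contDiff_apply ℂ ℂ _).comp contDiff_fst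
    · exact contDiff_const
  have h2 : ∀ a, ContDiff ℂ ⊤ fun p : (Fin k → ℂ) × (Fin m → ℂ) => (pl m p.2).coeff a := by
    intro a
    simp only [coeff_pl]
    refine ContDiff.add contDiff_const ?_
    split_ifs with h
    · exact (contDiff_apply ℂ ℂ _).comp contDiff_snd
    · exact contDiff_const
  rw [contDiff_pi]
  intro i
  simp only [Fm, coeff_mul]
  exact ContDiff.sum fun x _ => (h1 x.1).mul (h2 x.2)

theorem Fm_analytic (k m : ℕ) (p : (Fin k → ℂ) × (Fin m → ℂ)) : ContDiffAt ℂ ⊤ (Fm k m) p :=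
  (Fm_contDiff k m).contDiffAt

theorem Fm_deriv (k m : ℕ) (p w : (Fin k → ℂ) × (Fin m → ℂ)) (i : Fin (k + m)) :
    fderiv ℂ (Fm k m) p w i = (ln k w.1 * pl m p.2 + pl k p.1 * ln m w.2).coeff i := by
  have hd : DifferentiableAt ℂ (Fm k m) p := (Fm_analytic k m p).differentiableAt (by simp)
  have h1 : HasDerivAt (fun t : ℂ => Fm k m (p + t • w)) (fderiv ℂ (Fm k m) p w) 0 := by
    have h2 : HasFDerivAt (Fm k m) (fderiv ℂ (Fm k m) p) (p + (0 : ℂ) • w) := by
      rw [zero_smul, add_zero]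
      exact hd.hasFDerivAt
    have h3 : HasDerivAt (fun t : ℂ => p + t • w) w 0 := by
      have h4 := ((hasDerivAt_id (0 : ℂ)).smul_const w).const_add p
      simpa using h4
    exact h2.comp_hasDerivAt (0 : ℂ) h3
  have h2 : HasDerivAt (fun t : ℂ => Fm k m (p + t • w) i) (fderiv ℂ (Fm k m) p w i) 0 :=
    (hasDerivAt_pi.1 h1) i
  have h3 : (fun t : ℂ => Fm k m (p + t • w) i) = fun t : ℂ => (pl k p.1 * pl m p.2).coeff i +
      t * (ln k w.1 * pl m p.2 + pl k p.1 * ln m w.2).coeff i +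
      t ^ 2 * (ln k w.1 * ln m w.2).coeff i := by
    funext t
    unfold Fm
    rw [Prod.fst_add, Prod.snd_add, Prod.smul_fst, Prod.smul_snd, pl_add, pl_add]
    rw [← coeff_C_mul, ← coeff_C_mul, ← coeff_add, ← coeff_add]
    congr 1
    rw [C_pow]
    ring
  have h4 : HasDerivAt (fun t : ℂ => (pl k p.1 * pl m p.2).coeff i +
      t * (ln k w.1 * pl m p.2 + pl k p.1 * ln m w.2).coeff i +
      t ^ 2 * (ln k w.1 * ln m w.2).coeff i)
      ((ln k w.1 * pl m p.2 + pl k p.1 * ln m w.2).coeff i) 0 := by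
    have h5 := HasDerivAt.fun_add (((hasDerivAt_id (0 : ℂ)).mul_const
      ((ln k w.1 * pl m p.2 + pl k p.1 * ln m w.2).coeff i)).const_add
      ((pl k p.1 * pl m p.2).coeff i))
      ((hasDerivAt_pow 2 (0 : ℂ)).mul_const ((ln k w.1 * ln m w.2).coeff i))
    simpa using h5
  rw [h3] at h2
  exact h2.unique h4

/-- **Hensel's lemma** -/
theorem hensel {k m : ℕ} (g₀ : Fin k → ℂ) (h₀ : Fin m → ℂ) (hco : IsCoprime (pl k g₀) (pl m h₀))
    {c : ℂ → Fin (k + m) → ℂ} (hc : AnalyticAt ℂ c 0) (hc0 : c 0 = Fm k m (g₀, h₀)) :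
    ∃ (u : ℂ → Fin k → ℂ) (v : ℂ → Fin m → ℂ), AnalyticAt ℂ u 0 ∧ AnalyticAt ℂ v 0 ∧ u 0 = g₀ ∧
      v 0 = h₀ ∧ ∀ᶠ t in 𝓝 (0 : ℂ), Fm k m (u t, v t) = c t := by
  have hinj : Function.Injective (fderiv ℂ (Fm k m) (g₀, h₀)) := by
    rw [injective_iff_map_eq_zero]
    intro w hw
    have h1 : ln k w.1 * pl m h₀ + pl k g₀ * ln m w.2 = 0 := by
      ext a
      by_cases ha : a < k + m
      · have h2 := Fm_deriv k m (g₀, h₀) w ⟨a, ha⟩
        rw [hw] at h2
        exact h2.symm
      · have hdeg : (ln k w.1 * pl m h₀ + pl k g₀ * ln m w.2).degree < (k + m : ℕ) := by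
          refine (degree_add_le _ _).trans_lt (max_lt ?_ ?_)
          · rw [degree_mul, degree_eq_natDegree (pl_monic m h₀).ne_zero, pl_natDegree, Nat.cast_add]
            exact WithBot.add_lt_add_right (by simp) (degree_ln k w.1)
          · rw [degree_mul, degree_eq_natDegree (pl_monic k g₀).ne_zero, pl_natDegree, Nat.cast_add]
            exact WithBot.add_lt_add_left (by simp) (degree_ln m w.2)
        rw [coeff_zero]
        exact coeff_eq_zero_of_degree_lt (hdeg.trans_le (by exact_mod_cast not_lt.1 ha))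
    have h2 : pl k g₀ ∣ ln k w.1 := by
      refine hco.dvd_of_dvd_mul_right ?_
      have : ln k w.1 * pl m h₀ = -(pl k g₀ * ln m w.2) := eq_neg_of_add_eq_zero_left h1
      rw [this]
      exact (Dvd.intro _ rfl : pl k g₀ ∣ pl k g₀ * ln m w.2).neg_right
    have h3 : ln k w.1 = 0 := by
      refine eq_zero_of_dvd_of_degree_lt h2 ?_
      rw [degree_eq_natDegree (pl_monic k g₀).ne_zero, pl_natDegree]
      exact degree_ln k w.1
    have h4 : ln m w.2 = 0 := by
      rw [h3, zero_mul, zero_add] at h1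
      exact (mul_eq_zero.1 h1).resolve_left (pl_monic k g₀).ne_zero
    refine Prod.ext (funext fun j => ?_) (funext fun j => ?_)
    · have h5 := congrArg (fun p => p.coeff (j : ℕ)) h3
      simp only [coeff_ln, coeff_zero, dif_pos j.2] at h5
      exact h5
    · have h5 := congrArg (fun p => p.coeff (j : ℕ)) h4
      simp only [coeff_ln, coeff_zero, dif_pos j.2] at h5
      exact h5
  let e : ((Fin k → ℂ) × (Fin m → ℂ)) ≃L[ℂ] (Fin (k + m) → ℂ) :=
    (LinearEquiv.ofInjectiveOfFinrankEq (fderiv ℂ (Fm k m) (g₀, h₀)).toLinearMap hinj (by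
      simp)).toContinuousLinearEquiv
  have he : HasFDerivAt (Fm k m) (e : ((Fin k → ℂ) × (Fin m → ℂ)) →L[ℂ] (Fin (k + m) → ℂ))
      (g₀, h₀) := by
    have h1 := ((Fm_analytic k m (g₀, h₀)).differentiableAt (by simp)).hasFDerivAt
    have h2 : (e : ((Fin k → ℂ) × (Fin m → ℂ)) →L[ℂ] (Fin (k + m) → ℂ)) =
        fderiv ℂ (Fm k m) (g₀, h₀) := ContinuousLinearMap.ext fun w => rfl
    rw [h2]
    exact h1
  have hn : (⊤ : WithTop ℕ∞) ≠ 0 := by simp
  have h1 := (Fm_analytic k m (g₀, h₀)).to_localInverse he hn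
  set Ψ := (Fm_analytic k m (g₀, h₀)).localInverse he hn with hΨ
  have h2 : Ψ (Fm k m (g₀, h₀)) = (g₀, h₀) :=
    (Fm_analytic k m (g₀, h₀)).localInverse_apply_image he hn
  have h3 : ∀ᶠ y in 𝓝 (Fm k m (g₀, h₀)), Fm k m (Ψ y) = y :=
    ((Fm_analytic k m (g₀, h₀)).hasStrictFDerivAt' he hn).eventually_right_inverse
  have h4 : AnalyticAt ℂ Ψ (c 0) := by
    rw [hc0]
    exact h1.analyticAt
  have h5 : AnalyticAt ℂ (fun t => Ψ (c t)) 0 := h4.comp hc
  refine ⟨fun t => (Ψ (c t)).1, fun t => (Ψ (c t)).2, ?_, ?_, ?_, ?_, ?_⟩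
  · exact analyticAt_fst.comp h5
  · exact analyticAt_snd.comp h5
  · simp only
    rw [hc0, h2]
  · simp only
    rw [hc0, h2]
  · have h6 : Tendsto c (𝓝 0) (𝓝 (Fm k m (g₀, h₀))) := by
      rw [← hc0]
      exact hc.continuousAt
    exact h6.eventually h3

end Pool.Agent.V9h68.Rt
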