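import Pool.Agent.V9h68.Dom
import Pool.Agent.V9h68.Cons

/-!
Relations which are invariant under the isomorphisms of the closures of one parameter.
-/

set_option autoImplicit false

open MvPolynomial Set Filter Cardinal

noncomputable section

namespace Pool.Agent.V9h68

open Pool.Agent.Y776 Pool.Agent.Y685 Pool.Agent.TH735.BF Pool.Agent.TH735.QM Pool.Agent.TH735.FO
open Pool.Agent.TH813.Rel (MK mem_cl subset_cl rk_le_of_subset_cl cl_add cl_mul cl_inv cl_of_base)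

/-- relations with their number of variables -/
abbrev Rl : Type := Σ n : ℕ, Set (Fin n → ℂ)

/-- isomorphisms of closures -/
structure PI (K : Subfield ℂ) (t t' : ℂ) (𝓡 : Set Rl)
    (σ : CE ((K : Set ℂ) ∪ {t}) ≃ CE ((K : Set ℂ) ∪ {t'})) : Prop where
  fix : ∀ (z : ℂ) (hz : z ∈ K), (σ ⟨z, CE_base (Or.inl hz)⟩ : ℂ) = z
  top : (σ ⟨t, CE_base (Or.inr rfl)⟩ : ℂ) = t'
  add : ∀ a b c : CE ((K : Set ℂ) ∪ {t}), (a : ℂ) + b = c ↔ (σ a : ℂ) + σ b = σ c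
  mul : ∀ a b c : CE ((K : Set ℂ) ∪ {t}), (a : ℂ) * b = c ↔ (σ a : ℂ) * σ b = σ c
  exp : ∀ a b : CE ((K : Set ℂ) ∪ {t}), Complex.exp a = b ↔ Complex.exp (σ a) = σ b
  rel : ∀ X ∈ 𝓡, ∀ v : Fin X.1 → CE ((K : Set ℂ) ∪ {t}),
    (fun a => (v a : ℂ)) ∈ X.2 ↔ (fun a => (σ (v a) : ℂ)) ∈ X.2

theorem PI.mono {K : Subfield ℂ} {t t' : ℂ} {𝓡 𝓡' : Set Rl}
    {σ : CE ((K : Set ℂ) ∪ {t}) ≃ CE ((K : Set ℂ) ∪ {t'})} (h : PI K t t' 𝓡 σ) (h' : 𝓡' ⊆ 𝓡) :
    PI K t t' 𝓡' σ :=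
  ⟨h.fix, h.top, h.add, h.mul, h.exp, fun X hX => h.rel X (h' hX)⟩

theorem PI.symm {K : Subfield ℂ} {t t' : ℂ} {𝓡 : Set Rl}
    {σ : CE ((K : Set ℂ) ∪ {t}) ≃ CE ((K : Set ℂ) ∪ {t'})} (h : PI K t t' 𝓡 σ) :
    PI K t' t 𝓡 σ.symm := by
  refine ⟨?_, ?_, ?_, ?_, ?_, ?_⟩
  · intro z hz
    have h1 : σ ⟨z, CE_base (Or.inl hz)⟩ = ⟨z, CE_base (Or.inl hz)⟩ := Subtype.ext (h.fix z hz)
    rw [← h1, Equiv.symm_apply_apply]
  · have h1 : σ ⟨t, CE_base (Or.inr rfl)⟩ = ⟨t', CE_base (Or.inr rfl)⟩ := Subtype.ext h.top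
    rw [← h1, Equiv.symm_apply_apply]
  · intro a b c
    have := h.add (σ.symm a) (σ.symm b) (σ.symm c)
    simp only [Equiv.apply_symm_apply] at this
    exact this.symm
  · intro a b c
    have := h.mul (σ.symm a) (σ.symm b) (σ.symm c)
    simp only [Equiv.apply_symm_apply] at this
    exact this.symm
  · intro a b
    have := h.exp (σ.symm a) (σ.symm b)
    simp only [Equiv.apply_symm_apply] at this
    exact this.symm
  · intro X hX v
    have := h.rel X hX (fun a => σ.symm (v a))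
    simp only [Equiv.apply_symm_apply] at this
    exact this.symm

/-- the homomorphism of fields -/
theorem PI.hom {K : Subfield ℂ} {t t' : ℂ} {𝓡 : Set Rl}
    {σ : CE ((K : Set ℂ) ∪ {t}) ≃ CE ((K : Set ℂ) ∪ {t'})} (h : PI K t t' 𝓡 σ) :
    ∃ φ : (CE_ec ((K : Set ℂ) ∪ {t})).fld →+* ℂ,
      ∀ a : (CE_ec ((K : Set ℂ) ∪ {t})).fld, φ a = σ ⟨a, a.2⟩ :=
  exists_hom (CE_ec _) σ σ.injective (fun a b c => (h.add a b c).1) (fun a b c => (h.mul a b c).1)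

/-- invariant relations -/
def Inv (m : ℕ) (T : Set (Fin m → ℂ)) : Prop :=
  ∃ (A : Set ℂ) (𝓡 : Set Rl), A.Countable ∧ 𝓡.Countable ∧ (∀ X ∈ 𝓡, CQ X.1 X.2) ∧
    ∀ K : Subfield ℂ, GF K → A ⊆ K → ∀ t t' : ℂ, t ∉ K → t' ∉ K →
      ∀ σ, PI K t t' 𝓡 σ → ∀ v : Fin m → CE ((K : Set ℂ) ∪ {t}),
        (fun a => (v a : ℂ)) ∈ T ↔ (fun a => (σ (v a) : ℂ)) ∈ T

/-- one direction suffices -/
theorem Inv.of_imp {m : ℕ} {T : Set (Fin m → ℂ)}
    (h : ∃ (A : Set ℂ) (𝓡 : Set Rl), A.Countable ∧ 𝓡.Countable ∧ (∀ X ∈ 𝓡, CQ X.1 X.2) ∧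
      ∀ K : Subfield ℂ, GF K → A ⊆ K → ∀ t t' : ℂ, t ∉ K → t' ∉ K →
        ∀ σ, PI K t t' 𝓡 σ → ∀ v : Fin m → CE ((K : Set ℂ) ∪ {t}),
          (fun a => (v a : ℂ)) ∈ T → (fun a => (σ (v a) : ℂ)) ∈ T) : Inv m T := by
  obtain ⟨A, 𝓡, hA, h𝓡, hCQ, h⟩ := h
  refine ⟨A, 𝓡, hA, h𝓡, hCQ, ?_⟩
  intro K hK hAK t t' ht ht' σ hσ v
  refine ⟨h K hK hAK t t' ht ht' σ hσ v, fun h1 => ?_⟩
  have h2 := h K hK hAK t' t ht' ht σ.symm hσ.symm (fun a => σ (v a)) h1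
  simpa using h2

theorem Inv.base {m : ℕ} {X : Set (Fin m → ℂ)} (hX : CQ m X) : Inv m X :=
  ⟨∅, {⟨m, X⟩}, countable_empty, countable_singleton _, by rintro _ rfl; exact hX,
    fun _ _ _ _ _ _ _ _ hσ v => hσ.rel ⟨m, X⟩ rfl v⟩

theorem Inv.compl {m : ℕ} {X : Set (Fin m → ℂ)} (hX : Inv m X) : Inv m Xᶜ := by
  obtain ⟨A, 𝓡, hA, h𝓡, hCQ, h⟩ := hX
  exact ⟨A, 𝓡, hA, h𝓡, hCQ, fun K hK hAK t t' ht ht' σ hσ v =>
    not_congr (h K hK hAK t t' ht ht' σ hσ v)⟩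

theorem Inv.iUnion {m : ℕ} {X : ℕ → Set (Fin m → ℂ)} (hX : ∀ i, Inv m (X i)) :
    Inv m (⋃ i, X i) := by
  choose A 𝓡 hA h𝓡 hCQ h using hX
  refine ⟨⋃ i, A i, ⋃ i, 𝓡 i, countable_iUnion hA, countable_iUnion h𝓡, ?_, ?_⟩
  · intro Y hY
    obtain ⟨i, hi⟩ := mem_iUnion.1 hY
    exact hCQ i Y hi
  · intro K hK hAK t t' ht ht' σ hσ v
    simp only [mem_iUnion]
    exact exists_congr fun i => h i K hK ((subset_iUnion A i).trans hAK) t t' ht ht' σ
      (hσ.mono (subset_iUnion 𝓡 i)) v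

/-- exponential terms -/
inductive ExpTerm (n : ℕ) : ((Fin n → ℂ) → ℂ) → Prop
  | const (c : ℂ) : ExpTerm n fun _ => c
  | coord (i : Fin n) : ExpTerm n fun s => s i
  | add (f g : (Fin n → ℂ) → ℂ) : ExpTerm n f → ExpTerm n g → ExpTerm n fun s => f s + g s
  | mul (f g : (Fin n → ℂ) → ℂ) : ExpTerm n f → ExpTerm n g → ExpTerm n fun s => f s * g s
  | exp (f : (Fin n → ℂ) → ℂ) : ExpTerm n f → ExpTerm n fun s => Complex.exp (f s)

/-- functions which are respected by the isomorphisms -/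
def Resp (n : ℕ) (f : (Fin n → ℂ) → ℂ) : Prop :=
  ∃ A : Set ℂ, A.Countable ∧ ∀ K : Subfield ℂ, A ⊆ K → ∀ t t' : ℂ, ∀ 𝓡,
      ∀ σ, PI K t t' 𝓡 σ → ∀ v : Fin n → CE ((K : Set ℂ) ∪ {t}),
        ∃ w : CE ((K : Set ℂ) ∪ {t}), (w : ℂ) = f (fun a => (v a : ℂ)) ∧
          (σ w : ℂ) = f (fun a => (σ (v a) : ℂ))

theorem ExpTerm.resp {n : ℕ} {f : (Fin n → ℂ) → ℂ} (hf : ExpTerm n f) : Resp n f := by
  induction hf with
  | const c =>
    refine ⟨{c}, countable_singleton c, fun K hK t t' 𝓡 σ hσ v => ?_⟩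
    have hc : c ∈ K := hK rfl
    exact ⟨⟨c, CE_base (Or.inl hc)⟩, rfl, hσ.fix c hc⟩
  | coord i => exact ⟨∅, countable_empty, fun K hK t t' 𝓡 σ hσ v => ⟨v i, rfl, rfl⟩⟩
  | add f g _ _ hf hg =>
    obtain ⟨A, hA, h1⟩ := hf
    obtain ⟨B, hB, h2⟩ := hg
    refine ⟨A ∪ B, hA.union hB, fun K hK t t' 𝓡 σ hσ v => ?_⟩
    obtain ⟨w, hw, hw'⟩ := h1 K (subset_union_left.trans hK) t t' 𝓡 σ hσ v
    obtain ⟨z, hz, hz'⟩ := h2 K (subset_union_right.trans hK) t t' 𝓡 σ hσ v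
    refine ⟨⟨(w : ℂ) + z, (CE_ec _).add_mem w.2 z.2⟩, ?_, ?_⟩
    · show (w : ℂ) + z = _
      rw [hw, hz]
    · rw [← (hσ.add w z ⟨(w : ℂ) + z, (CE_ec _).add_mem w.2 z.2⟩).1 rfl, hw', hz']
  | mul f g _ _ hf hg =>
    obtain ⟨A, hA, h1⟩ := hf
    obtain ⟨B, hB, h2⟩ := hg
    refine ⟨A ∪ B, hA.union hB, fun K hK t t' 𝓡 σ hσ v => ?_⟩
    obtain ⟨w, hw, hw'⟩ := h1 K (subset_union_left.trans hK) t t' 𝓡 σ hσ v
    obtain ⟨z, hz, hz'⟩ := h2 K (subset_union_right.trans hK) t t' 𝓡 σ hσ v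
    refine ⟨⟨(w : ℂ) * z, (CE_ec _).mul_mem w.2 z.2⟩, ?_, ?_⟩
    · show (w : ℂ) * z = _
      rw [hw, hz]
    · rw [← (hσ.mul w z ⟨(w : ℂ) * z, (CE_ec _).mul_mem w.2 z.2⟩).1 rfl, hw', hz']
  | exp f _ hf =>
    obtain ⟨A, hA, h1⟩ := hf
    refine ⟨A, hA, fun K hK t t' 𝓡 σ hσ v => ?_⟩
    obtain ⟨w, hw, hw'⟩ := h1 K hK t t' 𝓡 σ hσ v
    refine ⟨⟨Complex.exp (w : ℂ), (CE_ec _).exp_mem w.2⟩, ?_, ?_⟩
    · show Complex.exp (w : ℂ) = _
      rw [hw]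
    · rw [← (hσ.exp w ⟨Complex.exp (w : ℂ), (CE_ec _).exp_mem w.2⟩).1 rfl, hw']

theorem Inv.preimage {m n : ℕ} {h : Fin m → (Fin n → ℂ) → ℂ} (hh : ∀ i, ExpTerm n (h i))
    {X : Set (Fin m → ℂ)} (hX : Inv m X) : Inv n {s | (fun i => h i s) ∈ X} := by
  obtain ⟨A, 𝓡, hA, h𝓡, hCQ, hX⟩ := hX
  have hr : ∀ i, Resp n (h i) := fun i => (hh i).resp
  choose B hB hr using hr
  refine ⟨A ∪ ⋃ i, B i, 𝓡, hA.union (countable_iUnion hB), h𝓡, hCQ, ?_⟩
  intro K hK hAK t t' ht ht' σ hσ v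
  have h1 : ∀ i, ∃ w : CE ((K : Set ℂ) ∪ {t}), (w : ℂ) = h i (fun a => (v a : ℂ)) ∧
      (σ w : ℂ) = h i (fun a => (σ (v a) : ℂ)) := fun i =>
    hr i K ((subset_iUnion B i).trans (subset_union_right.trans hAK)) t t' 𝓡 σ hσ v
  choose w hw hw' using h1
  have h2 := hX K hK (subset_union_left.trans hAK) t t' ht ht' σ hσ w
  simp only [Set.mem_ofPred_eq]
  rw [← funext hw, ← funext hw']
  exact h2

/-- the function of the guard -/
def Gf {m : ℕ} (P : MvPolynomial (Fin m ⊕ (Fin m ⊕ Fin 2)) ℂ) (s : Fin m → ℂ) (x : ℂ) : ℂ :=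
  eval (Sum.elim s (Sum.elim (fun i => Complex.exp (s i)) ![x, Complex.exp x])) P

theorem Gf_eq {m : ℕ} (P : MvPolynomial (Fin m ⊕ (Fin m ⊕ Fin 2)) ℂ) :
    ∃ (r : ℕ) (p : Fin r → ℂ) (D : MvPolynomial (Fin (m + r) ⊕ (Fin (m + r) ⊕ Fin 2)) ℤ),
      ∀ s x, Gf P s x = EPf D (Fin.append s p) x := by
  obtain ⟨r, p, hp⟩ := exists_params (K := ℂ) (fun _ : Unit => Set.range fun α => P.coeff α)
    (fun i => coeffs_finite _)
  obtain ⟨D, hD⟩ := spread p P fun α => hp () _ ⟨α, rfl⟩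
  let ρ : Fin r ⊕ (Fin m ⊕ (Fin m ⊕ Fin 2)) → Fin (m + r) ⊕ (Fin (m + r) ⊕ Fin 2) :=
    Sum.elim (fun i => Sum.inl (Fin.natAdd m i)) (Sum.elim (fun i => Sum.inl (Fin.castAdd r i))
      (Sum.elim (fun i => Sum.inr (Sum.inl (Fin.castAdd r i))) fun i => Sum.inr (Sum.inr i)))
  refine ⟨r, p, rename ρ D, fun s x => ?_⟩
  rw [EPf, aeval_rename, Gf, ← hD]
  have h1 := eval_sp p (RingHom.id ℂ)
    (Sum.elim s (Sum.elim (fun i => Complex.exp (s i)) ![x, Complex.exp x])) D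
  rw [aeval_def]
  refine h1.trans ?_
  congr 1
  funext a
  rcases a with a | a | a | a
  · show p a = Fin.append s p (Fin.natAdd m a)
    rw [Fin.append_right]
  · show s a = Fin.append s p (Fin.castAdd r a)
    rw [Fin.append_left]
  · show Complex.exp (s a) = Complex.exp (Fin.append s p (Fin.castAdd r a))
    rw [Fin.append_left]
  · rfl

theorem Inv.guard {m : ℕ} (P : MvPolynomial (Fin m ⊕ (Fin m ⊕ Fin 2)) ℂ)
    {X : Set (Fin (m + 1) → ℂ)} (hX : Inv (m + 1) X) (κ : Cardinal.{0}) :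
    Inv m {s | κ ≤ #({x : ℂ | IsZero (Gf P) s x ∧
      (Fin.snoc (α := fun _ => ℂ) s x : Fin (m + 1) → ℂ) ∈ X} : Set ℂ)} := by
  obtain ⟨r, p, D, hD⟩ := Gf_eq P
  obtain ⟨A, 𝓡, hA, h𝓡, hCQ, hX⟩ := hX
  have hfo := EPf_fo D
  refine Inv.of_imp ⟨A ∪ range p, 𝓡 ∪ ({⟨m + r, {s | ∀ z, EPf D s z = 0}⟩,
    ⟨m + r + 1, {s | EPf D (Fin.init s) (s (Fin.last _)) = 0}⟩} : Set Rl),
    hA.union (countable_range p), h𝓡.union (Set.toFinite _).countable, ?_, ?_⟩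
  · rintro Y (hY | rfl | rfl)
    · exact hCQ Y hY
    · exact CQ_allzero hfo
    · exact CQ_joint hfo
  · intro K hK hAK t t' ht ht' σ hσ v hv
    have hpK : ∀ i, p i ∈ K := fun i => hAK (Or.inr ⟨i, rfl⟩)
    let p' : Fin r → CE ((K : Set ℂ) ∪ {t}) := fun i => ⟨p i, CE_base (Or.inl (hpK i))⟩
    let y : Fin (m + r) → CE ((K : Set ℂ) ∪ {t}) := Fin.append v p'
    have hy : (fun a => (y a : ℂ)) = Fin.append (fun a => (v a : ℂ)) p := by
      funext a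
      refine Fin.addCases (fun a => ?_) (fun a => ?_) a
      · simp only [y, Fin.append_left]
      · simp only [y, Fin.append_right, p']
    have hσy : (fun a => (σ (y a) : ℂ)) = Fin.append (fun a => (σ (v a) : ℂ)) p := by
      funext a
      refine Fin.addCases (fun a => ?_) (fun a => ?_) a
      · simp only [y, Fin.append_left]
      · simp only [y, Fin.append_right, p']
        exact hσ.fix _ (hpK a)
    have hne : (∀ z, Gf P (fun a => (v a : ℂ)) z = 0) ↔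
        ∀ z, Gf P (fun a => (σ (v a) : ℂ)) z = 0 := by
      have h1 := hσ.rel ⟨m + r, {s | ∀ z, EPf D s z = 0}⟩ (Or.inr (Or.inl rfl)) y
      simp only [Set.mem_ofPred_eq] at h1
      rw [hy, hσy] at h1
      simp only [hD]
      exact h1
    have hzero : ∀ x : CE ((K : Set ℂ) ∪ {t}), Gf P (fun a => (v a : ℂ)) x = 0 ↔
        Gf P (fun a => (σ (v a) : ℂ)) (σ x) = 0 := by
      intro x
      have h1 := hσ.rel ⟨m + r + 1, {s | EPf D (Fin.init s) (s (Fin.last _)) = 0}⟩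
        (Or.inr (Or.inr rfl)) (Fin.snoc (α := fun _ => CE ((K : Set ℂ) ∪ {t})) y x)
      have h2 : (fun a => ((Fin.snoc (α := fun _ => CE ((K : Set ℂ) ∪ {t})) y x :
          Fin (m + r + 1) → CE ((K : Set ℂ) ∪ {t})) a : ℂ)) =
          Fin.snoc (α := fun _ => ℂ) (fun a => (y a : ℂ)) (x : ℂ) := by
        funext a
        refine Fin.lastCases ?_ (fun a => ?_) a
        · simp only [Fin.snoc_last]
        · simp only [Fin.snoc_castSucc]
      have h3 : (fun a => (σ ((Fin.snoc (α := fun _ => CE ((K : Set ℂ) ∪ {t})) y x :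
          Fin (m + r + 1) → CE ((K : Set ℂ) ∪ {t})) a) : ℂ)) =
          Fin.snoc (α := fun _ => ℂ) (fun a => (σ (y a) : ℂ)) (σ x : ℂ) := by
        funext a
        refine Fin.lastCases ?_ (fun a => ?_) a
        · simp only [Fin.snoc_last]
        · simp only [Fin.snoc_castSucc]
      rw [h2, h3] at h1
      simp only [Set.mem_ofPred_eq, Fin.init_snoc, Fin.snoc_last] at h1
      rw [hy, hσy] at h1
      rw [hD, hD]
      exact h1
    -- the zeros are in the closure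
    have hin : ∀ x, IsZero (Gf P) (fun a => (v a : ℂ)) x → x ∈ CE ((K : Set ℂ) ∪ {t}) := by
      rintro x ⟨⟨x', hx'⟩, hx⟩
      rw [hD] at hx' hx
      refine (CE_ec _).cl D (Fin.append (fun a => (v a : ℂ)) p) ?_ ⟨x', hx'⟩ x hx
      intro a
      rw [← hy]
      exact (y a).2
    refine le_trans (b := #({x : ℂ | IsZero (Gf P) (fun a => (v a : ℂ)) x ∧
        (Fin.snoc (α := fun _ => ℂ) (fun a => (v a : ℂ)) x : Fin (m + 1) → ℂ) ∈ X} : Set ℂ)) hv ?_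
    have hmap : ∀ x : ({x : ℂ | IsZero (Gf P) (fun a => (v a : ℂ)) x ∧
        (Fin.snoc (α := fun _ => ℂ) (fun a => (v a : ℂ)) x : Fin (m + 1) → ℂ) ∈ X} : Set ℂ),
        (σ ⟨x, hin x x.2.1⟩ : ℂ) ∈ {x : ℂ | IsZero (Gf P) (fun a => (σ (v a) : ℂ)) x ∧
          (Fin.snoc (α := fun _ => ℂ) (fun a => (σ (v a) : ℂ)) x : Fin (m + 1) → ℂ) ∈ X} := by
      rintro ⟨x, hx1, hx2⟩
      refine ⟨⟨?_, ?_⟩, ?_⟩
      · by_contra hcon
        push Not at hcon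
        obtain ⟨z, hz⟩ := hx1.1
        exact hz (hne.2 hcon z)
      · exact (hzero ⟨x, hin x hx1⟩).1 hx1.2
      · have h1 := hX K hK (subset_union_left.trans hAK) t t' ht ht' σ
          (hσ.mono subset_union_left) (Fin.snoc (α := fun _ => CE ((K : Set ℂ) ∪ {t})) v
            ⟨x, hin x hx1⟩)
        have h2 : (fun a => ((Fin.snoc (α := fun _ => CE ((K : Set ℂ) ∪ {t})) v ⟨x, hin x hx1⟩ :
            Fin (m + 1) → CE ((K : Set ℂ) ∪ {t})) a : ℂ)) =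
            Fin.snoc (α := fun _ => ℂ) (fun a => (v a : ℂ)) x := by
          funext a
          refine Fin.lastCases ?_ (fun a => ?_) a
          · simp only [Fin.snoc_last]
          · simp only [Fin.snoc_castSucc]
        have h3 : (fun a => (σ ((Fin.snoc (α := fun _ => CE ((K : Set ℂ) ∪ {t})) v
            ⟨x, hin x hx1⟩ : Fin (m + 1) → CE ((K : Set ℂ) ∪ {t})) a) : ℂ)) =
            Fin.snoc (α := fun _ => ℂ) (fun a => (σ (v a) : ℂ)) (σ ⟨x, hin x hx1⟩ : ℂ) := by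
          funext a
          refine Fin.lastCases ?_ (fun a => ?_) a
          · simp only [Fin.snoc_last]
          · simp only [Fin.snoc_castSucc]
        rw [h2, h3] at h1
        exact h1.1 hx2
    refine Cardinal.mk_le_of_injective (f := fun x => ⟨_, hmap x⟩) ?_
    intro x x' hxx
    have h1 := congrArg Subtype.val hxx
    have h2 := σ.injective (Subtype.ext h1)
    have h3 : (x : ℂ) = x' := congrArg (fun z : CE ((K : Set ℂ) ∪ {t}) => (z : ℂ)) h2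
    exact Subtype.ext h3

/-- the solutions of a system -/
def SolD {m n : ℕ} (E : Set (Fin (m + (n + n)) → ℂ)) (s : Fin m → ℂ) : Set (Fin n → ℂ) :=
  {x | (Fin.append s (Fin.append x fun i => Complex.exp (x i)) : Fin (m + (n + n)) → ℂ) ∈ E}

/-- a constructible set and integral polynomials -/
theorem Con.int {m n : ℕ} {E : Set (Fin (m + (n + n)) → ℂ)} (hE : Con (m + (n + n)) E) :
    ∃ (r N : ℕ) (p : Fin r → ℂ) (F : Fin N → MvPolynomial (Fin (m + r) ⊕ (Fin n ⊕ Fin n)) ℤ)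
      (R : Set (Set (Fin N))), ∀ (s : Fin m → ℂ) (x y : Fin n → ℂ),
        (Fin.append s (Fin.append x y) : Fin (m + (n + n)) → ℂ) ∈ E ↔
          {j | aeval (Sum.elim (Fin.append s p) (Sum.elim x y)) (F j) = 0} ∈ R := by
  classical
  obtain ⟨ι, hι, F, R, h⟩ := hE
  obtain ⟨r, p, hp⟩ := exists_params (K := ℂ) (fun i : ι => Set.range fun α => (F i).coeff α)
    (fun i => coeffs_finite _)
  have hD : ∀ i, ∃ D : MvPolynomial (Fin r ⊕ Fin (m + (n + n))) ℤ, sp p D = F i := fun i =>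
    spread p _ fun α => hp i _ ⟨α, rfl⟩
  choose D hD using hD
  have : Fintype ι := Fintype.ofFinite ι
  let e := Fintype.equivFin ι
  let ρ : Fin r ⊕ Fin (m + (n + n)) → Fin (m + r) ⊕ (Fin n ⊕ Fin n) :=
    Sum.elim (fun j => Sum.inl (Fin.natAdd m j))
      (Fin.addCases (fun i => Sum.inl (Fin.castAdd r i))
        (Fin.addCases (fun i => Sum.inr (Sum.inl i)) fun i => Sum.inr (Sum.inr i)))
  refine ⟨r, Fintype.card ι, p, fun j => rename ρ (D (e.symm j)), {Z | e ⁻¹' Z ∈ R}, ?_⟩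
  intro s x y
  have hval : ∀ i : ι, aeval (Sum.elim (Fin.append s p) (Sum.elim x y))
      (rename ρ (D (e.symm (e i)))) = eval (Fin.append s (Fin.append x y)) (F i) := by
    intro i
    rw [Equiv.symm_apply_apply, aeval_rename]
    have h1 : (Sum.elim (Fin.append s p) (Sum.elim x y)) ∘ ρ =
        Sum.elim p (Fin.append s (Fin.append x y)) := by
      funext a
      rcases a with j | i
      · simp [ρ]
      · refine Fin.addCases (fun i => ?_) (fun i => ?_) i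
        · simp [ρ]
        · refine Fin.addCases (fun i => ?_) (fun i => ?_) i
          · simp [ρ]
          · simp only [Function.comp_apply, ρ, Sum.elim_inr, Fin.addCases_right, Fin.append_right]
    rw [h1, aeval_def, ← hD i]
    exact (eval_sp p (RingHom.id ℂ) _ (D i)).symm
  rw [h]
  have h2 : {i | eval (Fin.append s (Fin.append x y)) (F i) = 0} =
      e ⁻¹' {j | aeval (Sum.elim (Fin.append s p) (Sum.elim x y)) (rename ρ (D (e.symm j))) = 0} := by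
    ext i
    simp only [Set.mem_ofPred_eq, Set.mem_preimage]
    rw [hval]
  rw [h2]
  rfl

/-- a dominated system has only countably many solutions -/
theorem dom_countable {k n N : ℕ} (F : Fin N → MvPolynomial (Fin k ⊕ (Fin n ⊕ Fin n)) ℤ)
    (R : Set (Set (Fin N))) (v : Fin k → ℂ)
    (hfin : ∀ x : Fin n → ℂ, {y : Fin n → ℂ | {j | aeval (Sum.elim v (Sum.elim x y)) (F j) = 0}
      ∈ R}.Finite) : (Sol F R v).Countable := by
  obtain ⟨K, hK, hvK⟩ := exists_GF (Set.countable_range v)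
  have hv : ∀ i, v i ∈ K := fun i => hvK ⟨i, rfl⟩
  have hall : ∀ x ∈ Sol F R v, ∀ i, x i ∈ K := by
    intro x hx
    obtain ⟨d, u, A, m, N', ι, hN', hu, hxu, hιu⟩ := exists_red K x
    have hxcl : range x ⊆ (MK K).closure (range u) := by
      rintro _ ⟨i, rfl⟩
      rw [hxu i]
      refine cl_add ?_ (cl_of_base (range u) (m i))
      have h1 : ∀ j ∈ Finset.univ, (A i j : ℂ) * u j ∈ clF K (range u) := fun j _ =>
        mul_mem (intCast_mem _ _) (subset_cl _ ⟨j, rfl⟩)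
      exact sum_mem h1
    have hyx : ∀ i, Complex.exp (x i) ∈ (MK K).closure (range u) := by
      intro i
      have h1 := fin_alg (M := K) F R (fun i => ⟨v i, hv i⟩) x (fun i => Complex.exp (x i)) hx
        (hfin x) i
      exact cl_sub_of hxcl h1
    have hET : ET u ⊆ (MK K).closure (range u) := by
      rintro _ (⟨j, rfl⟩ | ⟨j, rfl⟩)
      · exact subset_cl _ ⟨j, rfl⟩
      · apply cl_of_pow hN'
        show Complex.exp (u j) ^ N' ∈ _
        rw [← Complex.exp_nat_mul, hιu]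
        exact hyx _
    rcases Nat.eq_zero_or_pos d with hd | hd
    · subst hd
      intro i
      rw [hxu i]
      simp
    · exfalso
      have h1 := hK.rk d u hd hu
      have h2 : (MK K).eRk (ET u) ≤ (d : ℕ∞) := by
        refine (rk_le_of_subset_cl hET).trans (((MK K).eRk_le_encard _).trans ?_)
        rw [← Set.image_univ]
        refine (Set.encard_image_le _ _).trans ?_
        rw [Set.encard_univ]
        simp
      have h3 := h1.trans h2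
      rw [Nat.cast_le] at h3
      omega
  have hc : (Set.pi univ fun _ : Fin n => (K : Set ℂ)).Countable :=
    Set.countable_univ_pi fun _ => hK.cnt
  refine hc.mono ?_
  intro x hx i _
  exact hall x hx i

theorem Inv.dominated {m n : ℕ} {E : Set (Fin (m + (n + n)) → ℂ)} (hE : Con (m + (n + n)) E)
    (hfin : ∀ (s : Fin m → ℂ) (x : Fin n → ℂ), {y : Fin n → ℂ |
      (Fin.append s (Fin.append x y) : Fin (m + (n + n)) → ℂ) ∈ E}.Finite) (κ : Cardinal.{0}) :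
    Inv m {s | κ ≤ #(SolD E s)} := by
  obtain ⟨r, N, p, F, R, hF⟩ := hE.int
  have hSol : ∀ s : Fin m → ℂ, SolD E s = Sol F R (Fin.append s p) := by
    intro s
    ext x
    exact hF s x fun i => Complex.exp (x i)
  refine Inv.of_imp ⟨range p, ∅, countable_range p, countable_empty, fun X hX => hX.elim, ?_⟩
  intro K hK hAK t t' ht ht' σ hσ v hv
  have hpK : ∀ i, p i ∈ K := fun i => hAK ⟨i, rfl⟩
  obtain ⟨φ, hφ⟩ := hσ.hom
  obtain ⟨M, hM, hMm, φ, hφ⟩ : ∃ (M : Subfield ℂ) (_ : M = (CE_ec ((K : Set ℂ) ∪ {t})).fld)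
      (hMm : ∀ a, a ∈ M ↔ a ∈ CE ((K : Set ℂ) ∪ {t})) (φ : M →+* ℂ),
      ∀ a : M, φ a = σ ⟨a, (hMm a).1 a.2⟩ := ⟨_, rfl, fun a => Iff.rfl, φ, hφ⟩
  have hexp : ∀ a b : M, Complex.exp a = b → Complex.exp (φ a) = φ b := by
    intro a b hab
    rw [hφ, hφ]
    exact (hσ.exp _ _).1 hab
  let w : Fin (m + r) → M := Fin.append (fun i => ⟨v i, (hMm _).2 (v i).2⟩)
    (fun i => ⟨p i, (hMm _).2 (CE_base (Or.inl (hpK i)))⟩)
  have hw : (fun i => (w i : ℂ)) = Fin.append (fun i => (v i : ℂ)) p := by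
    funext a
    refine Fin.addCases (fun a => ?_) (fun a => ?_) a
    · simp only [w, Fin.append_left]
    · simp only [w, Fin.append_right]
  have hφw : (fun i => φ (w i)) = Fin.append (fun i => (σ (v i) : ℂ)) p := by
    funext a
    refine Fin.addCases (fun a => ?_) (fun a => ?_) a
    · simp only [w, Fin.append_left]
      rw [hφ]
    · simp only [w, Fin.append_right]
      rw [hφ]
      exact hσ.fix _ (hpK a)
  simp only [Set.mem_ofPred_eq] at hv ⊢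
  rw [hSol] at hv ⊢
  rw [← hw] at hv
  rw [← hφw]
  have hfinw : ∀ x : Fin n → ℂ, {y : Fin n → ℂ |
      {j | aeval (Sum.elim (fun i => (w i : ℂ)) (Sum.elim x y)) (F j) = 0} ∈ R}.Finite := by
    intro x
    rw [hw]
    refine (hfin (fun i => (v i : ℂ)) x).subset ?_
    intro y hy
    exact (hF _ x y).2 hy
  by_cases hin : ∀ x ∈ Sol F R (fun i => (w i : ℂ)), ∀ i, x i ∈ M
  · refine hv.trans ?_
    let f : Sol F R (fun i => (w i : ℂ)) → Sol F R (fun i => φ (w i)) := fun x =>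
      ⟨fun i => φ ⟨x.1 i, hin x.1 x.2 i⟩, sol_inner φ hexp F R w (fun i => ⟨x.1 i, hin x.1 x.2 i⟩)
        (fun i => ⟨Complex.exp (x.1 i), (hMm _).2 ((CE_ec _).exp_mem
          ((hMm _).1 (hin x.1 x.2 i)))⟩) (fun i => rfl) x.2⟩
    have hf : Function.Injective f := by
      intro x y hxy
      apply Subtype.ext
      funext i
      have h1 := congrFun (congrArg Subtype.val hxy) i
      have h2 := φ.injective h1
      exact congrArg Subtype.val h2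
    exact Cardinal.mk_le_of_injective hf
  · push Not at hin
    obtain ⟨x, hx, i, hi⟩ := hin
    have hκ : κ ≤ ℵ₀ := hv.trans
      (Cardinal.le_aleph0_iff_set_countable.2 (dom_countable F R _ hfinw))
    refine hκ.trans ?_
    rw [Cardinal.aleph0_le_mk_iff, Set.infinite_coe_iff]
    exact dom_inf hK ht hM φ hexp F R w x hx (hfinw x) fun hall => hi (hall i)

/-- existence of the isomorphisms -/
theorem exists_PI {K : Subfield ℂ} (hK : (K : Set ℂ).Countable) {𝓡 : Set Rl} (h𝓡 : 𝓡.Countable)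
    (hCQ : ∀ X ∈ 𝓡, CQ X.1 X.2) : ∃ B : Set ℂ, B.Countable ∧ ∀ t t' : ℂ, t ∉ B → t' ∉ B →
      ∃ σ, PI K t t' 𝓡 σ := by
  have : Countable 𝓡 := h𝓡.to_subtype
  let n : Unit ⊕ Unit ⊕ Unit ⊕ 𝓡 → ℕ := fun
    | Sum.inl _ => 3
    | Sum.inr (Sum.inl _) => 3
    | Sum.inr (Sum.inr (Sum.inl _)) => 2
    | Sum.inr (Sum.inr (Sum.inr X)) => X.1.1
  let R : (j : Unit ⊕ Unit ⊕ Unit ⊕ 𝓡) → Set (Fin (n j) → ℂ) := fun
    | Sum.inl _ => {v : Fin 3 → ℂ | v 0 + v 1 = v 2}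
    | Sum.inr (Sum.inl _) => {v : Fin 3 → ℂ | v 0 * v 1 = v 2}
    | Sum.inr (Sum.inr (Sum.inl _)) => {v : Fin 2 → ℂ | Complex.exp (v 0) = v 1}
    | Sum.inr (Sum.inr (Sum.inr X)) => X.1.2
  have hR : ∀ j, CQ (n j) (R j) := by
    rintro (_ | _ | _ | X)
    · exact RR_CQ (Sum.inl ())
    · exact RR_CQ (Sum.inr (Sum.inl ()))
    · exact RR_CQ (Sum.inr (Sum.inr (Sum.inl ())))
    · exact hCQ X.1 X.2
  obtain ⟨B, hB, h⟩ := closures (F := fun k => EPf (en1 k).2) (fun k => (EPf_fo (en1 k).2).an)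
    (fun k => (EPf_fo (en1 k).2).ord) hR hK isOpen_univ isPreconnected_univ (d := 0)
    (γ := fun t _ => t) (fun t _ => analyticAt_pi_iff.2 fun _ => analyticAt_id)
  refine ⟨B, hB, fun t t' ht ht' => ?_⟩
  have key : ∀ S S' : Set ℂ, (hS : (K : Set ℂ) ∪ range (fun _ : Fin 1 => t) = S) →
      (hS' : (K : Set ℂ) ∪ range (fun _ : Fin 1 => t') = S') →
      ∃ σ : CE S ≃ CE S', (∀ (z : ℂ) (hz : z ∈ K), (σ ⟨z, CE_base (hS ▸ Or.inl hz)⟩ : ℂ) = z) ∧
        ((σ ⟨t, CE_base (hS ▸ Or.inr ⟨0, rfl⟩)⟩ : ℂ) = t') ∧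
        ∀ j, ∀ v : Fin (n j) → CE S,
          (fun a => (v a : ℂ)) ∈ R j ↔ (fun a => (σ (v a) : ℂ)) ∈ R j := by
    rintro _ _ rfl rfl
    obtain ⟨σ, h1, h2, h3⟩ := h t (Set.mem_univ _) t' (Set.mem_univ _) ht ht'
    exact ⟨σ, fun z hz => h2 z (Cl.base hz), h1 0, h3⟩
  obtain ⟨σ, h1, h2, h3⟩ := key ((K : Set ℂ) ∪ {t}) ((K : Set ℂ) ∪ {t'})
    (by rw [Set.range_const]) (by rw [Set.range_const])
  refine ⟨σ, h1, h2, ?_, ?_, ?_, ?_⟩
  · intro a b c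
    have h4 := h3 (Sum.inl ()) (![a, b, c] : Fin 3 → CE ((K : Set ℂ) ∪ {t}))
    exact h4
  · intro a b c
    have h4 := h3 (Sum.inr (Sum.inl ())) (![a, b, c] : Fin 3 → CE ((K : Set ℂ) ∪ {t}))
    exact h4
  · intro a b
    have h4 := h3 (Sum.inr (Sum.inr (Sum.inl ()))) (![a, b] : Fin 2 → CE ((K : Set ℂ) ∪ {t}))
    exact h4
  · intro X hX v
    exact h3 (Sum.inr (Sum.inr (Sum.inr ⟨X, hX⟩))) v

/-- invariant sets of complex numbers are countable or cocountable -/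
theorem Inv.qm {X : Set ℂ} (hX : Inv 1 {v : Fin 1 → ℂ | v 0 ∈ X}) : X.Countable ∨ Xᶜ.Countable := by
  obtain ⟨A, 𝓡, hA, h𝓡, hCQ, h⟩ := hX
  obtain ⟨K, hK, hAK⟩ := exists_GF hA
  obtain ⟨B, hB, hσ⟩ := exists_PI hK.cnt h𝓡 hCQ
  have hBK : (B ∪ K).Countable := hB.union hK.cnt
  have key : ∀ t t' : ℂ, t ∉ B ∪ K → t' ∉ B ∪ K → t ∈ X → t' ∈ X := by
    intro t t' ht ht' htX
    obtain ⟨σ, hσ⟩ := hσ t t' (fun h => ht (Or.inl h)) (fun h => ht' (Or.inl h))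
    have h1 := h K hK hAK t t' (fun h => ht (Or.inr h)) (fun h => ht' (Or.inr h)) σ hσ
      (fun _ => ⟨t, CE_base (Or.inr rfl)⟩)
    have h2 : (σ ⟨t, CE_base (Or.inr rfl)⟩ : ℂ) ∈ X := h1.1 htX
    rw [hσ.top] at h2
    exact h2
  by_cases hex : ∃ t, t ∉ B ∪ K ∧ t ∈ X
  · obtain ⟨t, ht, htX⟩ := hex
    right
    refine hBK.mono ?_
    intro t' ht'
    by_contra hnot
    exact ht' (key t t' ht hnot htX)
  · push Not at hex
    left
    refine hBK.mono ?_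
    intro t' ht'
    by_contra hnot
    exact hex t' hnot ht'

end Pool.Agent.V9h68
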