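import Pool.Agent.V9h68.Sj

/-!
Nondegenerate systems and ranks.
-/

set_option autoImplicit false

open MvPolynomial Set Filter Topology

noncomputable section

namespace Pool.Agent.V9h68

open Pool.Agent.Y776 Pool.Agent.Y685
open Pool.Agent.TH813.Rel (MK mem_cl subset_cl rk_le_of_subset_cl cl_add cl_mul cl_inv cl_of_base)

/-- the tuple `x` is a nondegenerate solution of a system of as many equations in `x`, `e^x` with
coefficients in `C` -/
def NonDeg (C : Set ℂ) {n : ℕ} (x : Fin n → ℂ) : Prop :=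
  ∃ P : Fin n → MvPolynomial (Fin n ⊕ Fin n) ℂ, (∀ i α, (P i).coeff α ∈ C) ∧
    (∀ i, eval (Sum.elim x fun i => Complex.exp (x i)) (P i) = 0) ∧
    (Matrix.of fun i j => eval (Sum.elim x fun i => Complex.exp (x i))
      (pderiv (Sum.inl j) (P i) + X (Sum.inr j) * pderiv (Sum.inr j) (P i))).det ≠ 0

/-- the chain rule -/
theorem der_aevalF {F : Subfield ℂ} {D : Derivation ℚ ℂ ℂ} (hD : ∀ a ∈ F, D a = 0) {ι : Type}
    [Fintype ι] (v : ι → ℂ) (Q : MvPolynomial ι F) :
    D (aeval v Q) = ∑ i, aeval v (pderiv i Q) * D (v i) := by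
  classical
  induction Q using MvPolynomial.induction_on with
  | C a =>
    rw [aeval_C]
    have h1 : D (algebraMap F ℂ a) = 0 := hD a a.2
    rw [h1]
    symm
    refine Finset.sum_eq_zero fun i _ => ?_
    rw [pderiv_C, map_zero, zero_mul]
  | add p q hp hq =>
    rw [map_add, map_add, hp, hq, ← Finset.sum_add_distrib]
    refine Finset.sum_congr rfl fun i _ => ?_
    rw [map_add, map_add, add_mul]
  | mul_X p j hp =>
    rw [map_mul, aeval_X, Derivation.leibniz, hp]
    simp only [smul_eq_mul, Derivation.leibniz, pderiv_X, map_add, map_mul, aeval_X, add_mul,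
      Finset.sum_add_distrib]
    congr 1
    · rw [Finset.sum_eq_single j]
      · rw [Pi.single_eq_same, map_one, mul_one]
      · intro i _ hi
        rw [Pi.single_eq_of_ne hi.symm, map_zero, mul_zero, zero_mul]
      · intro h
        exact absurd (Finset.mem_univ _) h
    · rw [Finset.mul_sum]
      refine Finset.sum_congr rfl fun i _ => ?_
      ring

theorem der_eval {F : Subfield ℂ} {D : Derivation ℚ ℂ ℂ} (hD : ∀ a ∈ F, D a = 0) {ι : Type}
    [Fintype ι] (v : ι → ℂ) {P : MvPolynomial ι ℂ} (hP : ∀ α, P.coeff α ∈ F) :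
    D (eval v P) = ∑ i, eval v (pderiv i P) * D (v i) := by
  have h1 : P ∈ Set.range (MvPolynomial.map (algebraMap F ℂ) :
      MvPolynomial ι F → MvPolynomial ι ℂ) := by
    rw [MvPolynomial.mem_range_map_iff_coeffs_subset]
    intro z hz
    rw [Finset.mem_coe, MvPolynomial.mem_coeffs_iff] at hz
    obtain ⟨m, -, rfl⟩ := hz
    exact ⟨⟨_, hP m⟩, rfl⟩
  obtain ⟨Q, rfl⟩ := h1
  have h2 : ∀ Q : MvPolynomial ι F, eval v (MvPolynomial.map (algebraMap F ℂ) Q) = aeval v Q := by
    intro Q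
    rw [eval_map]
    rfl
  rw [h2, der_aevalF hD v Q]
  refine Finset.sum_congr rfl fun i _ => ?_
  rw [pderiv_map, h2]

/-- **the rank of a nondegenerate solution** -/
theorem jac_rank {F : Subfield ℂ} {n : ℕ} {x : Fin n → ℂ} (hx : NonDeg F x) (U : Submodule ℚ ℂ)
    (hU : ∀ u ∈ U, u ∈ F ∧ Complex.exp u ∈ F) {m : ℕ} {ι : Fin m → Fin n}
    (hι : ∀ i, ∃ q : Fin m → ℚ, x i - ∑ j, q j • x (ι j) ∈ U) :
    (MK F).eRk (ET fun j => x (ι j)) ≤ (m : ℕ) := by
  classical
  obtain ⟨P, hPF, hP0, hdet⟩ := hx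
  obtain ⟨I, hI⟩ := (MK F).exists_isBasis (ET fun j => x (ι j)) (Set.subset_univ _)
  by_contra hcon
  rw [not_le, hI.eRk_eq_encard] at hcon
  have hcon' : ((m + 1 : ℕ) : ℕ∞) ≤ I.encard := by
    have := Order.add_one_le_of_lt hcon
    exact_mod_cast this
  obtain ⟨J, hJI, hJc⟩ := Set.exists_subset_encard_eq hcon'
  have hJf : J.Finite := Set.finite_of_encard_eq_coe hJc
  have hJcard : hJf.toFinset.card = m + 1 := by
    have h1 := hJf.encard_eq_coe_toFinset_card
    rw [hJc] at h1
    exact_mod_cast h1.symm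
  let e := hJf.toFinset.equivFinOfCardEq hJcard
  let y : Fin (m + 1) → ℂ := fun a => (e.symm a : ℂ)
  have hyJ : ∀ a, y a ∈ J := fun a => hJf.mem_toFinset.1 (e.symm a).2
  have hyT : ∀ a, y a ∈ ET fun j => x (ι j) := fun a => hI.subset (hJI (hyJ a))
  have hyind : AlgebraicIndependent F y := by
    have h1 : AlgebraicIndependent F (fun i : I => (i : ℂ)) := hI.indep
    have h2 := h1.comp (fun a => (⟨y a, hJI (hyJ a)⟩ : I)) (by
      intro a a' haa
      have h2 := congrArg (fun z : I => (z : ℂ)) haa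
      exact e.symm.injective (Subtype.ext h2))
    exact h2
  choose Da hDaF hDa using fun a : Fin (m + 1) => exists_derA hyind (fun b => if b = a then 1 else 0)
  -- the combination of the derivations
  let Φ : (Fin (m + 1) → ℂ) →ₗ[ℂ] (Fin m → ℂ) :=
    { toFun := fun lam j => Tf (∑ a, lam a • Da a) (x (ι j))
      map_add' := fun lam lam' => by
        funext j
        change Tf (∑ a, (lam a + lam' a) • Da a) (x (ι j)) = _
        simp only [add_smul, Finset.sum_add_distrib]
        exact Tf_add_der _ _ _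
      map_smul' := fun c lam => by
        funext j
        change Tf (∑ a, (c * lam a) • Da a) (x (ι j)) = _
        simp only [mul_smul]
        rw [← Finset.smul_sum]
        exact Tf_smul_der _ _ _ }
  obtain ⟨lam, hlam, hlam0⟩ : ∃ lam ∈ LinearMap.ker Φ, lam ≠ 0 := by
    have h1 : LinearMap.ker Φ ≠ ⊥ := LinearMap.ker_ne_bot_of_finrank_lt (by
      rw [Module.finrank_fintype_fun_eq_card, Module.finrank_fintype_fun_eq_card, Fintype.card_fin,
        Fintype.card_fin]
      omega)
    exact (Submodule.ne_bot_iff _).1 h1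
  set D : Derivation ℚ ℂ ℂ := ∑ a, lam a • Da a with hDdef
  have hDval : ∀ w, D w = ∑ a, lam a * Da a w := by
    intro w
    rw [hDdef]
    have : (∑ a, lam a • Da a) w = ∑ a, (lam a • Da a) w := by
      rw [← Derivation.coeFnAddMonoidHom_apply]
      rw [map_sum, Finset.sum_apply]
      rfl
    rw [this]
    rfl
  have hDF : ∀ a ∈ F, D a = 0 := by
    intro a ha
    rw [hDval]
    refine Finset.sum_eq_zero fun b _ => ?_
    rw [hDaF b a ha, mul_zero]
  have hTf : ∀ j, Tf D (x (ι j)) = 0 := fun j => congrFun (LinearMap.mem_ker.1 hlam) j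
  have hTfx : ∀ i, Tf D (x i) = 0 := by
    intro i
    obtain ⟨q, hq⟩ := hι i
    have h1 : x i = (x i - ∑ j, q j • x (ι j)) + ∑ j, q j • x (ι j) := by ring
    rw [h1, Tf_add, Tf_lin]
    have h2 := hU _ hq
    rw [Tf_of_kill (hDF _ h2.1) (hDF _ h2.2), zero_add]
    refine Finset.sum_eq_zero fun j _ => ?_
    rw [hTf j]
    simp
  have hDe : ∀ i, D (Complex.exp (x i)) = Complex.exp (x i) * D (x i) := fun i => D_exp (hTfx i)
  -- the system
  have hsys : (Matrix.of fun i j => eval (Sum.elim x fun i => Complex.exp (x i))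
      (pderiv (Sum.inl j) (P i) + X (Sum.inr j) * pderiv (Sum.inr j) (P i))).mulVec
      (fun j => D (x j)) = 0 := by
    funext i
    have h1 := der_eval hDF (Sum.elim x fun i => Complex.exp (x i)) (hPF i)
    rw [hP0 i, map_zero, Fintype.sum_sum_type] at h1
    simp only [Sum.elim_inl, Sum.elim_inr, hDe] at h1
    rw [Matrix.mulVec, dotProduct]
    simp only [Matrix.of_apply, map_add, map_mul, eval_X, Sum.elim_inr, add_mul,
      Finset.sum_add_distrib]
    rw [Pi.zero_apply, h1]
    congr 1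
    refine Finset.sum_congr rfl fun j _ => ?_
    ring
  have hDx : ∀ j, D (x j) = 0 := fun j => congrFun (Matrix.eq_zero_of_mulVec_eq_zero hdet hsys) j
  have hDT : ∀ w ∈ ET fun j => x (ι j), D w = 0 := by
    rintro w (⟨j, rfl⟩ | ⟨j, rfl⟩)
    · exact hDx _
    · change D (Complex.exp (x (ι j))) = 0
      rw [hDe, hDx, mul_zero]
  apply hlam0
  funext b
  have h1 := hDT _ (hyT b)
  rw [hDval, Finset.sum_eq_single b] at h1
  · rw [hDa, if_pos rfl, mul_one] at h1
    exact h1
  · intro a _ ha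
    rw [hDa, if_neg ha.symm, mul_zero]
  · intro h
    exact absurd (Finset.mem_univ _) h

/-- **extension by a nondegenerate solution on a curve** -/
theorem Wt.crv {K : Subfield ℂ} (hK : GD K) (w : Wt K) {n : ℕ} (x : Fin n → ℂ)
    (hnd : NonDeg ((MK K).closure (ET w.b)) x) {z : ℂ}
    (hz : ∀ i, x i ∈ (MK K).closure (ET w.b ∪ {z})) :
    ∃ w1 : Wt K, w.Le w1 ∧ ∀ i, x i ∈ w1.V := by
  classical
  obtain ⟨s, ι, h1, h2⟩ := exists_basis_mod (VsM K w.b) x
  have h2' : ∀ i, ∃ q : Fin s → ℚ, x i - lc (fun j => x (ι j)) q ∈ Vs K w.b := h2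
  have hrk := jac_rank (F := clF K (ET w.b)) hnd (VsM K w.b) (fun u hu => Vs_cl hK.exp hu) h2
  have hrk2 := rk_add w.wc.src.rk hrk
  rw [← ET_append] at hrk2
  obtain ⟨w1, hw1, hw2⟩ := Wt.crv_ind hK s w (fun j => x (ι j)) z (by
    intro q hq
    rw [lc_append] at hq
    have h3 : lc (fun j => x (ι j)) (fun i => q (Fin.natAdd w.p i)) ∈ Vs K w.b := by
      refine ⟨-fun i => q (Fin.castAdd s i), ?_⟩
      rw [lc_neg, sub_neg_eq_add, add_comm]
      exact hq
    have h4 := h1 _ h3
    rw [h4, lc_zero, add_zero] at hq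
    have h5 := w.wc.src.ind _ hq
    funext l
    refine Fin.addCases (fun i => ?_) (fun i => ?_) l
    · exact congrFun h5 i
    · exact congrFun h4 i) (by
    intro j
    refine cl_up (k := K) (k' := clF K (ET w.b)) (fun a => ?_) ?_ (hz (ι j))
    · exact cl_of_base (k := clF K (ET w.b)) _ (⟨a, cl_of_base (k := K) _ a⟩ : clF K (ET w.b))
    · rintro y (hy | hy)
      · exact cl_of_base (k := clF K (ET w.b)) _ (⟨y, subset_cl _ hy⟩ : clF K (ET w.b))
      · exact subset_cl _ hy) hrk2
  refine ⟨w1, hw1, fun i => ?_⟩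
  obtain ⟨q, hq⟩ := h2' i
  have h3 : x i = (x i - lc (fun j => x (ι j)) q) + lc (fun j => x (ι j)) q := by ring
  rw [h3]
  exact Vs_add (hw1.1 hq) (Vs_lc hw2 q)

/-- good fields contain the nondegenerate solutions -/
theorem GF.nonDeg {K : Subfield ℂ} (hK : GF K) {n : ℕ} {x : Fin n → ℂ} (hx : NonDeg K x) (i : Fin n) :
    x i ∈ K := by
  let U : Submodule ℚ ℂ :=
    { carrier := K
      add_mem' := K.add_mem
      zero_mem' := K.zero_mem
      smul_mem' := fun q x hx => SubfieldClass.qsmul_mem K q hx }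
  obtain ⟨s, ι, h1, h2⟩ := exists_basis_mod U x
  have hrk := jac_rank hx U (fun u hu => ⟨hu, hK.exp u hu⟩) h2
  have hs : s = 0 := by
    by_contra hs
    have h3 := hK.rk s (fun j => x (ι j)) (Nat.pos_of_ne_zero hs) h1
    have h4 := h3.trans hrk
    norm_cast at h4
    omega
  subst hs
  obtain ⟨q, hq⟩ := h2 i
  have h3 : ∑ j : Fin 0, q j • x (ι j) = 0 := Finset.sum_empty
  rw [h3, sub_zero] at hq
  exact hq

end Pool.Agent.V9h68
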