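import Pool.Agent.V9h68.LA
import Pool.Agent.V9h68.Fo
import Pool.Agent.TH735.BF.Closure

/-!
Jumps of the rank of matrices of functions of finite order.
-/

set_option autoImplicit false
set_option linter.unusedSectionVars false

namespace Pool.Agent.V9h68

open Set Filter Topology Complex Metric Cardinal
open Pool.Agent.TH735.QM Pool.Agent.TH735.FO Pool.Agent.TH735.BF

variable {m : ℕ}

theorem CQ_inter {X Y : Set (Fin m → ℂ)} (hX : CQ m X) (hY : CQ m Y) : CQ m (X ∩ Y) := by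
  intro U hU hUc γ hγ
  exact (hX U hU hUc γ hγ).inter (hY U hU hUc γ hγ)

theorem CQ_union {X Y : Set (Fin m → ℂ)} (hX : CQ m X) (hY : CQ m Y) : CQ m (X ∪ Y) := by
  intro U hU hUc γ hγ
  exact (hX U hU hUc γ hγ).union (hY U hU hUc γ hγ)

theorem CQ_iInter {ι : Type*} [Countable ι] {X : ι → Set (Fin m → ℂ)}
    (hX : ∀ i, CQ m (X i)) : CQ m (⋂ i, X i) := by
  intro U hU hUc γ hγ
  rw [preimage_iInter]
  exact QmOn.iInter fun i => hX i U hU hUc γ hγ

/-- vanishing at one `z` -/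
theorem CQ_at {F : (Fin m → ℂ) → ℂ → ℂ} (hF : Fo F) (z : ℂ) : CQ m {s | F s z = 0} := by
  refine CQ.zero ?_
  intro s _
  have h2 : AnalyticAt ℂ (fun s : Fin m → ℂ => ((s, z) : (Fin m → ℂ) × ℂ)) s :=
    analyticAt_id.prod analyticAt_const
  exact (hF.an _ (mem_univ _)).comp (f := fun s : Fin m → ℂ => ((s, z) : (Fin m → ℂ) × ℂ)) h2

/-- vanishing for all `z` -/
theorem CQ_allzero {F : (Fin m → ℂ) → ℂ → ℂ} (hF : Fo F) : CQ m {s | ∀ z, F s z = 0} := by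
  have h1 : {s : Fin m → ℂ | ∀ z, F s z = 0} =
      ⋂ k : ℕ, {s | F s (TopologicalSpace.denseSeq ℂ k) = 0} := by
    ext s
    simp only [Set.mem_ofPred_eq, mem_iInter]
    constructor
    · intro h k
      exact h _
    · intro h z
      have hc : Continuous (F s) := (slice_diff hF.an s).continuous
      have h2 : IsClosed {z | F s z = 0} := isClosed_singleton.preimage hc
      have h3 : Dense {z | F s z = 0} :=
        (TopologicalSpace.denseRange_denseSeq ℂ).mono (by rintro _ ⟨k, rfl⟩; exact h k)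
      have h4 : {z | F s z = 0} = Set.univ := by rw [← h2.closure_eq, h3.closure_eq]
      have : z ∈ {z | F s z = 0} := by rw [h4]; exact mem_univ z
      exact this
  rw [h1]
  exact CQ_iInter fun k => CQ_at hF _

/-- the joint function of `(s, z)` -/
theorem joint_an {F : (Fin m → ℂ) → ℂ → ℂ} (hF : Fo F) :
    AnalyticOnNhd ℂ (fun p : Fin (m + 1) → ℂ => F (Fin.init p) (p (Fin.last m))) univ := by
  intro p _
  have h1 : AnalyticAt ℂ (fun p : Fin (m + 1) → ℂ => ((Fin.init p, p (Fin.last m)) :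
      (Fin m → ℂ) × ℂ)) p := by
    refine AnalyticAt.prod ?_ ?_
    · refine analyticAt_pi_iff.2 fun i => ?_
      exact (ContinuousLinearMap.proj (R := ℂ) (φ := fun _ : Fin (m + 1) => ℂ)
        (Fin.castSucc i)).analyticAt p
    · exact (ContinuousLinearMap.proj (R := ℂ) (φ := fun _ : Fin (m + 1) => ℂ)
        (Fin.last m)).analyticAt p
  exact (hF.an _ (mem_univ _)).comp (f := fun p : Fin (m + 1) → ℂ =>
    ((Fin.init p, p (Fin.last m)) : (Fin m → ℂ) × ℂ)) h1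

theorem CQ_joint {F : (Fin m → ℂ) → ℂ → ℂ} (hF : Fo F) :
    CQ (m + 1) {p | F (Fin.init p) (p (Fin.last m)) = 0} := CQ.zero (joint_an hF)

/-- an existential quantifier guarded by an equation -/
theorem CQ_guard_ex {F : (Fin m → ℂ) → ℂ → ℂ} (hF : Fo F) {X : Set (Fin (m + 1) → ℂ)}
    (hX : CQ (m + 1) X) :
    CQ m {s | ∃ z, IsZero F s z ∧ (Fin.snoc (α := fun _ => ℂ) s z : Fin (m + 1) → ℂ) ∈ X} := by
  have h1 := CQ.guard hF.an hF.ord hX (P := fun E => E = ∅) (Q := fun _ => False)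
    (fun E hE => by
      subst hE
      intro U hU hUc γ hγ
      left
      simp)
    (fun D hD => hD.elim) (R := {p | p.1 ∈ (∅ : Set (Fin m → ℂ))}) (Rect.left ∅ rfl) 1
  convert h1 using 1
  ext s
  simp only [Set.mem_ofPred_eq, mem_empty_iff_false, and_false, or_false]
  rw [Cardinal.one_le_iff_ne_zero, Cardinal.mk_ne_zero_iff]
  constructor
  · rintro ⟨z, hz⟩
    exact ⟨⟨z, hz⟩⟩
  · rintro ⟨⟨z, hz⟩⟩
    exact ⟨z, hz⟩

section Jump

variable {I I' J : Type} [Fintype I] [Fintype I'] [Fintype J] [DecidableEq I] [DecidableEq I']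
  [DecidableEq J]

/-- the minors -/
noncomputable def Mn (S : (Fin m → ℂ) → ℂ → Matrix I J ℂ) (r : ℕ) (f : Fin r → I)
    (g : Fin r → J) : (Fin m → ℂ) → ℂ → ℂ := fun s z => ((S s z).submatrix f g).det

theorem Mn_fo {S : (Fin m → ℂ) → ℂ → Matrix I J ℂ} (hS : MFo S) (r : ℕ) (f : Fin r → I)
    (g : Fin r → J) : Fo (Mn S r f g) :=
  MFo.det (A := fun s z => (S s z).submatrix f g) fun i j => hS (f i) (g j)

/-- the rank of `S'` is larger than the rank of `S` -/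
def Jp (S : (Fin m → ℂ) → ℂ → Matrix I J ℂ) (S' : (Fin m → ℂ) → ℂ → Matrix I' J ℂ)
    (s : Fin m → ℂ) (z : ℂ) : Prop := (S s z).rank < (S' s z).rank

/-- the same for generic `z` -/
def GJp (S : (Fin m → ℂ) → ℂ → Matrix I J ℂ) (S' : (Fin m → ℂ) → ℂ → Matrix I' J ℂ)
    (s : Fin m → ℂ) : Prop :=
  ∃ (r : ℕ) (f' : Fin r → I') (g' : Fin r → J), (¬ ∀ z, Mn S' r f' g' s z = 0) ∧
    ∀ (f : Fin r → I) (g : Fin r → J), ∀ z, Mn S r f g s z = 0

theorem jp_iff (S : (Fin m → ℂ) → ℂ → Matrix I J ℂ) (S' : (Fin m → ℂ) → ℂ → Matrix I' J ℂ)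
    (s : Fin m → ℂ) (z : ℂ) : Jp S S' s z ↔ ∃ (r : ℕ) (f' : Fin r → I') (g' : Fin r → J),
      Mn S' r f' g' s z ≠ 0 ∧ ∀ (f : Fin r → I) (g : Fin r → J), Mn S r f g s z = 0 := by
  constructor
  · intro h
    obtain ⟨f', g', h1⟩ := (le_rank_iff (S' s z) (S' s z).rank).1 le_rfl
    refine ⟨_, f', g', h1, ?_⟩
    intro f g
    by_contra h2
    have h3 := (le_rank_iff (S s z) (S' s z).rank).2 ⟨f, g, h2⟩
    exact absurd h (not_lt.2 h3)
  · rintro ⟨r, f', g', h1, h2⟩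
    have h3 := (le_rank_iff (S' s z) r).2 ⟨f', g', h1⟩
    refine lt_of_lt_of_le ?_ h3
    by_contra h4
    obtain ⟨f, g, h5⟩ := (le_rank_iff (S s z) r).1 (not_lt.1 h4)
    exact h5 (h2 f g)

theorem gjp_countable {S : (Fin m → ℂ) → ℂ → Matrix I J ℂ}
    {S' : (Fin m → ℂ) → ℂ → Matrix I' J ℂ} (hS' : MFo S') {s : Fin m → ℂ} (h : GJp S S' s) :
    {z | ¬ Jp S S' s z}.Countable := by
  obtain ⟨r, f', g', h1, h2⟩ := h
  push Not at h1
  refine (zeros_countable (slice_diff (Mn_fo hS' r f' g').an s) h1).mono ?_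
  intro z hz
  simp only [Set.mem_ofPred_eq] at hz ⊢
  by_contra h3
  exact hz ((jp_iff S S' s z).2 ⟨r, f', g', h3, fun f g => h2 f g z⟩)

theorem jp_cases {S : (Fin m → ℂ) → ℂ → Matrix I J ℂ} {S' : (Fin m → ℂ) → ℂ → Matrix I' J ℂ}
    {s : Fin m → ℂ} {z : ℂ} (h : Jp S S' s z) : GJp S S' s ∨
      ∃ (r : ℕ) (f : Fin r → I) (g : Fin r → J), IsZero (Mn S r f g) s z := by
  obtain ⟨r, f', g', h1, h2⟩ := (jp_iff S S' s z).1 h
  by_cases h3 : ∀ (f : Fin r → I) (g : Fin r → J), ∀ z, Mn S r f g s z = 0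
  · exact Or.inl ⟨r, f', g', fun h4 => h1 (h4 z), h3⟩
  · push Not at h3
    obtain ⟨f, g, z', h4⟩ := h3
    exact Or.inr ⟨r, f, g, ⟨z', h4⟩, h2 f g⟩

theorem CQ_jp {S : (Fin m → ℂ) → ℂ → Matrix I J ℂ} {S' : (Fin m → ℂ) → ℂ → Matrix I' J ℂ}
    (hS : MFo S) (hS' : MFo S') :
    CQ (m + 1) {p | Jp S S' (Fin.init p) (p (Fin.last m))} := by
  have h1 : {p : Fin (m + 1) → ℂ | Jp S S' (Fin.init p) (p (Fin.last m))} =
      ⋃ i : Σ r : ℕ, (Fin r → I') × (Fin r → J),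
        ({p | Mn S' i.1 i.2.1 i.2.2 (Fin.init p) (p (Fin.last m)) = 0}ᶜ ∩
          ⋂ j : (Fin i.1 → I) × (Fin i.1 → J),
            {p | Mn S i.1 j.1 j.2 (Fin.init p) (p (Fin.last m)) = 0}) := by
    ext p
    simp only [Set.mem_ofPred_eq, mem_iUnion, mem_inter_iff, mem_compl_iff, mem_iInter]
    rw [jp_iff]
    constructor
    · rintro ⟨r, f', g', h2, h3⟩
      exact ⟨⟨r, f', g'⟩, h2, fun j => h3 j.1 j.2⟩
    · rintro ⟨⟨r, f', g'⟩, h2, h3⟩
      exact ⟨r, f', g', h2, fun f g => h3 (f, g)⟩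
  rw [h1]
  exact CQ.iUnion fun i => CQ_inter (CQ_joint (Mn_fo hS' _ _ _)).compl
    (CQ_iInter fun j => CQ_joint (Mn_fo hS _ _ _))

theorem CQ_gjp {S : (Fin m → ℂ) → ℂ → Matrix I J ℂ} {S' : (Fin m → ℂ) → ℂ → Matrix I' J ℂ}
    (hS : MFo S) (hS' : MFo S') : CQ m {s | GJp S S' s} := by
  have h1 : {s : Fin m → ℂ | GJp S S' s} =
      ⋃ i : Σ r : ℕ, (Fin r → I') × (Fin r → J),
        ({s | ∀ z, Mn S' i.1 i.2.1 i.2.2 s z = 0}ᶜ ∩
          ⋂ j : (Fin i.1 → I) × (Fin i.1 → J), {s | ∀ z, Mn S i.1 j.1 j.2 s z = 0}) := by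
    ext s
    simp only [Set.mem_ofPred_eq, mem_iUnion, mem_inter_iff, mem_compl_iff, mem_iInter]
    constructor
    · rintro ⟨r, f', g', h2, h3⟩
      exact ⟨⟨r, f', g'⟩, h2, fun j => h3 j.1 j.2⟩
    · rintro ⟨⟨r, f', g'⟩, h2, h3⟩
      exact ⟨r, f', g', h2, fun f g => h3 (f, g)⟩
  rw [h1]
  exact CQ.iUnion fun i => CQ_inter (CQ_allzero (Mn_fo hS' _ _ _)).compl
    (CQ_iInter fun j => CQ_allzero (Mn_fo hS _ _ _))

theorem CQ_exjp {S : (Fin m → ℂ) → ℂ → Matrix I J ℂ} {S' : (Fin m → ℂ) → ℂ → Matrix I' J ℂ}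
    (hS : MFo S) (hS' : MFo S') : CQ m {s | ∃ z, Jp S S' s z} := by
  have h1 : {s : Fin m → ℂ | ∃ z, Jp S S' s z} = {s | GJp S S' s} ∪
      ⋃ i : Σ r : ℕ, (Fin r → I) × (Fin r → J),
        {s | ∃ z, IsZero (Mn S i.1 i.2.1 i.2.2) s z ∧
          (Fin.snoc (α := fun _ => ℂ) s z : Fin (m + 1) → ℂ) ∈
            {p : Fin (m + 1) → ℂ | Jp S S' (Fin.init p) (p (Fin.last m))}} := by
    ext s
    simp only [Set.mem_ofPred_eq, mem_iUnion, mem_union, Fin.init_snoc, Fin.snoc_last]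
    constructor
    · rintro ⟨z, hz⟩
      rcases jp_cases hz with h | ⟨r, f, g, h⟩
      · exact Or.inl h
      · exact Or.inr ⟨⟨r, f, g⟩, z, h, hz⟩
    · rintro (h | ⟨i, z, -, hz⟩)
      · have h2 := gjp_countable hS' h
        by_contra hcon
        push Not at hcon
        apply uncountable_univ
        refine h2.mono ?_
        intro z _
        exact hcon z
      · exact ⟨z, hz⟩
  rw [h1]
  exact CQ_union (CQ_gjp hS hS') (CQ.iUnion fun i => CQ_guard_ex (Mn_fo hS _ _ _) (CQ_jp hS hS'))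

end Jump

end Pool.Agent.V9h68
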