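import Mathlib

/-!
Irreducible polynomials at points of transcendence degree one less than the number of variables.
-/

set_option autoImplicit false

open MvPolynomial Set

noncomputable section

namespace Pool.Agent.V9h68

/-- Gauss' lemma for a point over a factorial domain -/
theorem irr_dvd0 {A : Type} [CommRing A] [IsDomain A] [UniqueFactorizationMonoid A] (f : A →+* ℂ)
    (hf : Function.Injective f) {z : ℂ} {P Q : Polynomial A} (hP : Irreducible P)
    (h1 : P.eval₂ f z = 0) (h2 : Q.eval₂ f z = 0) : P ∣ Q := by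
  classical
  let _ : StrongNormalizationMonoid A := UniqueFactorizationMonoid.strongNormalizationMonoid
  let _ : NormalizedGCDMonoid A := UniqueFactorizationMonoid.toNormalizedGCDMonoid A
  rcases eq_or_ne Q 0 with rfl | hQ
  · exact dvd_zero _
  have hdeg : P.natDegree ≠ 0 := by
    intro h0
    obtain ⟨c, hc⟩ := Polynomial.natDegree_eq_zero.1 h0
    rw [← hc, Polynomial.eval₂_C] at h1
    have h3 : c = 0 := hf (by rw [h1, map_zero])
    rw [h3, map_zero] at hc
    exact hP.ne_zero hc.symm
  have hprim : P.IsPrimitive := hP.isPrimitive hdeg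
  let L := FractionRing A
  let g : L →+* ℂ := IsFractionRing.lift hf
  have hg : ∀ a, g (algebraMap A L a) = f a := fun a => IsFractionRing.lift_algebraMap hf a
  have hgc : g.comp (algebraMap A L) = f := RingHom.ext hg
  have hPi : Irreducible (P.map (algebraMap A L)) :=
    (hprim.irreducible_iff_irreducible_map_fraction_map).1 hP
  have hdvd : P.map (algebraMap A L) ∣ Q.map (algebraMap A L) := by
    rcases EuclideanDomain.dvd_or_coprime _ (Q.map (algebraMap A L)) hPi with h | h
    · exact h
    · exfalso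
      obtain ⟨u, v, huv⟩ := h
      have h3 := congrArg (fun p => Polynomial.eval₂ g z p) huv
      simp only [Polynomial.eval₂_add, Polynomial.eval₂_mul, Polynomial.eval₂_map, hgc, h1, h2,
        mul_zero, add_zero, Polynomial.eval₂_one] at h3
      exact zero_ne_one h3
  have h4 : P.map (algebraMap A L) ∣ Q.primPart.map (algebraMap A L) := by
    have h5 := Q.eq_C_content_mul_primPart
    have h6 : algebraMap A L Q.content ≠ 0 := by
      rw [Ne, IsFractionRing.to_map_eq_zero_iff, Polynomial.content_eq_zero_iff]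
      exact hQ
    rw [h5, Polynomial.map_mul, Polynomial.map_C] at hdvd
    have h7 : IsUnit (Polynomial.C (algebraMap A L Q.content)) :=
      Polynomial.isUnit_C.2 (isUnit_iff_ne_zero.2 h6)
    exact (h7.dvd_mul_left).1 hdvd
  have h8 : P ∣ Q.primPart :=
    hprim.dvd_of_fraction_map_dvd_fraction_map h4
  exact h8.trans ⟨Polynomial.C Q.content, by rw [mul_comm]; exact Q.eq_C_content_mul_primPart⟩

variable {K : Type} [Field K] {d : ℕ}

/-- the point `(x, z)` -/
def pt (x : Fin d → ℂ) (z : ℂ) : Option (Fin d) → ℂ := fun o => o.elim z x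

theorem pt_eval [Algebra K ℂ] (x : Fin d → ℂ) (z : ℂ) (P : MvPolynomial (Option (Fin d)) K) :
    (optionEquivLeft K (Fin d) P).eval₂ ((aeval x : MvPolynomial (Fin d) K →ₐ[K] ℂ) :
      MvPolynomial (Fin d) K →+* ℂ) z = aeval (pt x z) P := by
  have h : (Polynomial.eval₂RingHom ((aeval x : MvPolynomial (Fin d) K →ₐ[K] ℂ) :
      MvPolynomial (Fin d) K →+* ℂ) z).comp
      (optionEquivLeft K (Fin d) : MvPolynomial (Option (Fin d)) K →+* _) =
      ((aeval (pt x z) : MvPolynomial (Option (Fin d)) K →ₐ[K] ℂ) :
        MvPolynomial (Option (Fin d)) K →+* ℂ) := by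
    refine MvPolynomial.ringHom_ext (fun c => ?_) (fun o => ?_)
    · simp [optionEquivLeft_C]
    · rcases o with _ | i
      · simp [optionEquivLeft_X_none, pt]
      · simp [optionEquivLeft_X_some, pt]
  exact RingHom.congr_fun h P

theorem irr_dvd [Algebra K ℂ] {x : Fin d → ℂ} (hx : AlgebraicIndependent K x) {z : ℂ}
    {P Q : MvPolynomial (Option (Fin d)) K} (hP : Irreducible P)
    (h1 : aeval (pt x z) P = 0) (h2 : aeval (pt x z) Q = 0) : P ∣ Q := by
  have h3 := irr_dvd0 ((aeval x : MvPolynomial (Fin d) K →ₐ[K] ℂ) : MvPolynomial (Fin d) K →+* ℂ)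
    hx (P := optionEquivLeft K (Fin d) P) (Q := optionEquivLeft K (Fin d) Q) (z := z)
    ((MulEquiv.irreducible_iff (optionEquivLeft K (Fin d))).2 hP)
    (by rw [pt_eval]; exact h1) (by rw [pt_eval]; exact h2)
  exact (map_dvd_iff (optionEquivLeft K (Fin d))).1 h3

theorem exists_irr [Algebra K ℂ] {x : Fin d → ℂ} {z : ℂ} {Q : MvPolynomial (Option (Fin d)) K} (hQ : Q ≠ 0)
    (h : aeval (pt x z) Q = 0) : ∃ P : MvPolynomial (Option (Fin d)) K,
      Irreducible P ∧ aeval (pt x z) P = 0 := by
  let I : Ideal (MvPolynomial (Option (Fin d)) K) :=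
    RingHom.ker (aeval (pt x z) : MvPolynomial (Option (Fin d)) K →ₐ[K] ℂ)
  have hI : I.IsPrime := RingHom.ker_isPrime _
  obtain ⟨P, hP, hPp⟩ := hI.exists_mem_prime_of_ne_bot (fun h0 => hQ (by
    have : Q ∈ I := h
    rw [h0] at this
    exact this))
  exact ⟨P, hPp.irreducible, hP⟩

/-- scaling of the last variable -/
def scl (c : K) : MvPolynomial (Option (Fin d)) K →ₐ[K] MvPolynomial (Option (Fin d)) K :=
  aeval fun o => o.elim (C c * X none) (fun i => X (some i))

theorem scl_scl (c e : K) (P : MvPolynomial (Option (Fin d)) K) :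
    scl c (scl e P) = scl (e * c) P := by
  have h : (scl c).comp (scl e) = scl (d := d) (e * c) := by
    apply MvPolynomial.algHom_ext
    intro o
    rcases o with _ | i
    · simp only [scl, AlgHom.comp_apply, aeval_X, Option.elim_none, map_mul, algHom_C,
        algebraMap_eq, mul_assoc]
    · simp [scl]
  exact DFunLike.congr_fun h P

theorem scl_one (P : MvPolynomial (Option (Fin d)) K) : scl (1 : K) P = P := by
  have h : scl (d := d) (1 : K) = AlgHom.id K _ := by
    apply MvPolynomial.algHom_ext
    intro o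
    rcases o with _ | i
    · simp [scl]
    · simp [scl]
  rw [h]
  rfl

/-- scaling as an automorphism -/
def sclE (c : K) (hc : c ≠ 0) :
    MvPolynomial (Option (Fin d)) K ≃ₐ[K] MvPolynomial (Option (Fin d)) K :=
  AlgEquiv.ofAlgHom (scl c) (scl c⁻¹)
    (by
      refine AlgHom.ext fun P => ?_
      rw [AlgHom.comp_apply, scl_scl, inv_mul_cancel₀ hc, scl_one]
      rfl)
    (by
      refine AlgHom.ext fun P => ?_
      rw [AlgHom.comp_apply, scl_scl, mul_inv_cancel₀ hc, scl_one]
      rfl)

theorem scl_eval [Algebra K ℂ] (x : Fin d → ℂ) (z : ℂ) (c : K) (P : MvPolynomial (Option (Fin d)) K) :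
    aeval (pt x z) (scl c P) = aeval (pt x (algebraMap K ℂ c * z)) P := by
  have h : (aeval (pt x z)).comp (scl (d := d) c) = aeval (pt x (algebraMap K ℂ c * z)) := by
    apply MvPolynomial.algHom_ext
    intro o
    rcases o with _ | i
    · simp [scl, pt]
    · simp [scl, pt]
  exact DFunLike.congr_fun h P

theorem scl_degreeOf_le (c : K) (P : MvPolynomial (Option (Fin d)) K) (j : Fin d) :
    (scl c P).degreeOf (some j) ≤ P.degreeOf (some j) := by
  classical
  conv_lhs => rw [P.as_sum]
  rw [map_sum]
  refine (degreeOf_sum_le _ _ _).trans (Finset.sup_le fun m hm => ?_)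
  have h1 : scl c (monomial m (P.coeff m)) = C (P.coeff m * c ^ (m none)) * monomial m 1 := by
    rw [scl, aeval_monomial, C_mul, algebraMap_eq, mul_assoc]
    congr 1
    rw [monomial_eq, C_1, one_mul]
    rw [Finsupp.prod_fintype _ _ (fun i => pow_zero _), Finsupp.prod_fintype _ _ (fun i => pow_zero _)]
    rw [Fintype.prod_option, Fintype.prod_option]
    simp only [Option.elim_none, Option.elim_some]
    rw [mul_pow, C_pow]
    ring
  rw [h1]
  refine (degreeOf_C_mul_le _ _ _).trans ?_
  rw [degreeOf_le_iff]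
  intro m' hm'
  have h2 : m' = m := by
    have h3 := support_monomial_subset hm'
    exact Finset.mem_singleton.1 h3
  rw [h2]
  exact (degreeOf_le_iff.1 le_rfl) m hm

theorem scl_degreeOf {c : K} (hc : c ≠ 0) (P : MvPolynomial (Option (Fin d)) K) (j : Fin d) :
    (scl c P).degreeOf (some j) = P.degreeOf (some j) := by
  refine le_antisymm (scl_degreeOf_le c P j) ?_
  have h := scl_degreeOf_le c⁻¹ (scl c P) j
  rwa [scl_scl, mul_inv_cancel₀ hc, scl_one] at h

end Pool.Agent.V9h68
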