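import Pool.Agent.V9h68.Ku1

/-!
Bounds for the degrees of the irreducible polynomials of roots of monomials.
-/

set_option autoImplicit false

open MvPolynomial Set

noncomputable section

namespace Pool.Agent.V9h68

variable {K : Type} [Field K] [Algebra K ℂ] {d N : ℕ}

/-- `z` acts on the vector `ω` by a matrix of polynomials with the denominator `q ^ L` -/
def SL (x : Fin d → ℂ) (ω : Fin N → ℂ) (q : MvPolynomial (Fin d) K) (δ : ℕ) (L : ℕ) (z : ℂ) :
    Prop :=
  ∃ M : Matrix (Fin N) (Fin N) (MvPolynomial (Fin d) K),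
    (∀ k l j, (M k l).degreeOf j ≤ δ * L) ∧
    ∀ k, ∑ l, aeval x (M k l) * ω l = aeval x q ^ L * z * ω k

variable {x : Fin d → ℂ} {ω : Fin N → ℂ} {q : MvPolynomial (Fin d) K} {δ : ℕ}

theorem SL.mul {L L' : ℕ} {z z' : ℂ} (h : SL x ω q δ L z) (h' : SL x ω q δ L' z') :
    SL x ω q δ (L + L') (z * z') := by
  obtain ⟨M, h1, h2⟩ := h
  obtain ⟨M', h1', h2'⟩ := h'
  refine ⟨M * M', fun k l j => ?_, fun k => ?_⟩
  · rw [Matrix.mul_apply]
    refine (degreeOf_sum_le _ _ _).trans (Finset.sup_le fun i _ => ?_)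
    refine (degreeOf_mul_le _ _ _).trans ?_
    rw [mul_add]
    exact add_le_add (h1 _ _ _) (h1' _ _ _)
  · have e : ∀ l, aeval x ((M * M') k l) * ω l =
        ∑ i, aeval x (M k i) * (aeval x (M' i l) * ω l) := by
      intro l
      rw [Matrix.mul_apply, map_sum, Finset.sum_mul]
      refine Finset.sum_congr rfl fun i _ => ?_
      rw [map_mul, mul_assoc]
    rw [Finset.sum_congr rfl fun l _ => e l, Finset.sum_comm]
    have e2 : ∀ i, ∑ l, aeval x (M k i) * (aeval x (M' i l) * ω l) =
        (aeval x q ^ L' * z') * (aeval x (M k i) * ω i) := by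
      intro i
      rw [← Finset.mul_sum, h2']
      ring
    rw [Finset.sum_congr rfl fun i _ => e2 i, ← Finset.mul_sum, h2]
    ring

theorem SL.one : SL x ω q δ 0 1 := by
  refine ⟨1, fun k l j => ?_, fun k => ?_⟩
  · rw [mul_zero, Nat.le_zero]
    by_cases h : k = l
    · rw [h, Matrix.one_apply_eq, ← C_1, degreeOf_C]
    · rw [Matrix.one_apply_ne h, degreeOf_zero]
  · rw [Finset.sum_eq_single k]
    · rw [Matrix.one_apply_eq, map_one, pow_zero]
      ring
    · intro l _ hl
      rw [Matrix.one_apply_ne hl.symm, map_zero, zero_mul]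
    · intro h
      exact absurd (Finset.mem_univ _) h

theorem SL.pow {z : ℂ} {L : ℕ} (h : SL x ω q δ L z) (n : ℕ) : SL x ω q δ (n * L) (z ^ n) := by
  induction n with
  | zero => rw [zero_mul, pow_zero]; exact SL.one
  | succ n ih =>
    rw [pow_succ, add_mul, one_mul]
    exact ih.mul h

theorem SL.prod {ι : Type} (s : Finset ι) {z : ι → ℂ} {L : ι → ℕ}
    (h : ∀ i ∈ s, SL x ω q δ (L i) (z i)) : SL x ω q δ (∑ i ∈ s, L i) (∏ i ∈ s, z i) := by
  classical
  induction s using Finset.induction_on with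
  | empty => rw [Finset.sum_empty, Finset.prod_empty]; exact SL.one
  | insert a s ha ih =>
    rw [Finset.sum_insert ha, Finset.prod_insert ha]
    exact (h a (Finset.mem_insert_self _ _)).mul
      (ih fun i hi => h i (Finset.mem_insert_of_mem hi))

theorem aeval_rename_some (z : ℂ) (f : MvPolynomial (Fin d) K) :
    aeval (pt x z) (rename some f) = aeval x f := by
  rw [aeval_rename]
  rfl

/-- the characteristic relation -/
theorem SL.rel (hω : ω ≠ 0) (hq : aeval x q ≠ 0)
    (hqd : ∀ j, q.degreeOf j ≤ δ) {L : ℕ} {z : ℂ} (h : SL x ω q δ L z) :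
    ∃ Q : MvPolynomial (Option (Fin d)) K, (∃ z', aeval (pt x z') Q ≠ 0) ∧
      aeval (pt x z) Q = 0 ∧ (∀ j, Q.degreeOf (some j) ≤ N * (δ * L)) ∧ Q.degreeOf none ≤ N := by
  classical
  obtain ⟨M, h1, h2⟩ := h
  let B : Matrix (Fin N) (Fin N) (MvPolynomial (Option (Fin d)) K) := fun k l =>
    (if k = l then rename some (q ^ L) * X none else 0) - rename some (M k l)
  have hB : ∀ z', aeval (pt x z') B.det =
      (Matrix.scalar (Fin N) (aeval x q ^ L * z') - M.map (aeval x)).det := by
    intro z'
    have e : aeval (pt x z') B.det = (((aeval (pt x z') : MvPolynomial (Option (Fin d)) K →ₐ[K] ℂ) :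
      MvPolynomial (Option (Fin d)) K →+* ℂ).mapMatrix B).det := by
      rw [← RingHom.map_det]
      rfl
    rw [e]
    congr 1
    refine Matrix.ext fun k l => ?_
    change aeval (pt x z') ((if k = l then rename some (q ^ L) * X none else 0) -
      rename some (M k l)) = (Matrix.scalar (Fin N) (aeval x q ^ L * z')) k l - aeval x (M k l)
    rw [Matrix.scalar_apply, Matrix.diagonal_apply, map_sub, aeval_rename_some]
    congr 1
    split_ifs with hkl
    · rw [map_mul, aeval_rename_some, map_pow, aeval_X]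
      rfl
    · rw [map_zero]
  refine ⟨B.det, ?_, ?_, fun j => ?_, ?_⟩
  · -- some value is not zero
    have h3 : (M.map (aeval x)).charpoly ≠ 0 := (Matrix.charpoly_monic _).ne_zero
    obtain ⟨w, hw⟩ : ∃ w : ℂ, (M.map (aeval x)).charpoly.eval w ≠ 0 := by
      by_contra hcon
      push Not at hcon
      exact h3 (Polynomial.funext fun w => by rw [hcon w, Polynomial.eval_zero])
    refine ⟨w / aeval x q ^ L, ?_⟩
    rw [hB, mul_div_cancel₀ _ (pow_ne_zero _ hq), ← Matrix.eval_charpoly]
    exact hw
  · rw [hB, ← Matrix.exists_mulVec_eq_zero_iff]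
    refine ⟨ω, hω, ?_⟩
    funext k
    rw [Matrix.sub_mulVec, Pi.sub_apply, Pi.zero_apply, sub_eq_zero, Matrix.scalar_apply,
      Matrix.mulVec_diagonal]
    rw [← h2 k]
    rfl
  · rw [Matrix.det_apply]
    refine (degreeOf_sum_le _ _ _).trans (Finset.sup_le fun τ _ => ?_)
    have e1 : (Equiv.Perm.sign τ • ∏ i, B (τ i) i).degreeOf (some j) ≤
        (∏ i, B (τ i) i).degreeOf (some j) := by
      rcases Int.units_eq_one_or (Equiv.Perm.sign τ) with h | h
      · rw [h, one_smul]
      · rw [h, Units.smul_def, Units.val_neg, Units.val_one, neg_smul, one_smul, degreeOf_neg]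
    refine e1.trans ((degreeOf_prod_le _ _ _).trans ?_)
    have e2 : ∀ i, (B (τ i) i).degreeOf (some j) ≤ δ * L := by
      intro i
      refine (degreeOf_sub_le _ _ _).trans (max_le ?_ ?_)
      · split_ifs
        · refine (degreeOf_mul_le _ _ _).trans ?_
          have e3 : (X none : MvPolynomial (Option (Fin d)) K).degreeOf (some j) = 0 := by
            rw [degreeOf_X]
            simp
          rw [e3, add_zero, degreeOf_rename_of_injective (Option.some_injective _)]
          refine (degreeOf_pow_le _ _ _).trans ?_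
          rw [mul_comm]
          exact Nat.mul_le_mul_right _ (hqd j)
        · rw [degreeOf_zero]
          exact Nat.zero_le _
      · rw [degreeOf_rename_of_injective (Option.some_injective _)]
        exact h1 _ _ _
    refine (Finset.sum_le_sum fun i _ => e2 i).trans ?_
    rw [Finset.sum_const, Finset.card_univ, Fintype.card_fin, smul_eq_mul]
  · rw [Matrix.det_apply]
    refine (degreeOf_sum_le _ _ _).trans (Finset.sup_le fun τ _ => ?_)
    have e1 : (Equiv.Perm.sign τ • ∏ i, B (τ i) i).degreeOf none ≤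
        (∏ i, B (τ i) i).degreeOf none := by
      rcases Int.units_eq_one_or (Equiv.Perm.sign τ) with h | h
      · rw [h, one_smul]
      · rw [h, Units.smul_def, Units.val_neg, Units.val_one, neg_smul, one_smul, degreeOf_neg]
    refine e1.trans ((degreeOf_prod_le _ _ _).trans ?_)
    have e4 : ∀ f : MvPolynomial (Fin d) K, (rename some f).degreeOf none = 0 := by
      intro f
      rw [← Nat.le_zero, degreeOf_le_iff]
      intro m hm
      by_contra hne
      have h5 : none ∈ (rename some f).vars := by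
        rw [mem_vars_iff_mem_support]
        exact ⟨m, hm, by rw [Finsupp.mem_support_iff]; omega⟩
      have h6 := vars_rename some f h5
      rw [Finset.mem_image] at h6
      obtain ⟨a, _, ha⟩ := h6
      exact absurd ha (by simp)
    have e2 : ∀ i, (B (τ i) i).degreeOf none ≤ 1 := by
      intro i
      refine (degreeOf_sub_le _ _ _).trans (max_le ?_ ?_)
      · split_ifs
        · refine (degreeOf_mul_le _ _ _).trans ?_
          rw [e4, zero_add]
          rw [degreeOf_X]
          simp
        · rw [degreeOf_zero]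
          exact Nat.zero_le _
      · rw [e4]
        exact Nat.zero_le _
    refine (Finset.sum_le_sum fun i _ => e2 i).trans ?_
    rw [Finset.sum_const, Finset.card_univ, Fintype.card_fin, smul_eq_mul, mul_one]

/-- the specialization of the first variables -/
theorem roots_le (hx : AlgebraicIndependent K x) {P : MvPolynomial (Option (Fin d)) K} (hP : P ≠ 0)
    (S : Finset ℂ) (hS : ∀ z ∈ S, aeval (pt x z) P = 0) : S.card ≤ P.degreeOf none := by
  classical
  let f : MvPolynomial (Fin d) K →+* ℂ := ((aeval x : MvPolynomial (Fin d) K →ₐ[K] ℂ) :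
    MvPolynomial (Fin d) K →+* ℂ)
  let p : Polynomial ℂ := (optionEquivLeft K (Fin d) P).map f
  have hp0 : p ≠ 0 := by
    rw [Ne, Polynomial.map_eq_zero_iff (show Function.Injective f from hx)]
    exact fun h => hP ((map_eq_zero_iff _ (optionEquivLeft K (Fin d)).injective).1 h)
  have hpd : p.natDegree ≤ P.degreeOf none := by
    refine Polynomial.natDegree_map_le.trans ?_
    rw [natDegree_optionEquivLeft]
  refine le_trans ?_ hpd
  by_contra hlt
  push Not at hlt
  apply hp0
  apply Polynomial.eq_zero_of_natDegree_lt_card_of_eval_eq_zero' p S ?_ hlt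
  intro z hz
  rw [Polynomial.eval_map]
  rw [pt_eval]
  exact hS z hz

/-- substitution of a power of the last variable -/
def pwr (m : ℕ) : MvPolynomial (Option (Fin d)) K →ₐ[K] MvPolynomial (Option (Fin d)) K :=
  aeval fun o => o.elim (X none ^ m) (fun i => X (some i))

theorem pwr_eval (x : Fin d → ℂ) (z : ℂ) (m : ℕ) (P : MvPolynomial (Option (Fin d)) K) :
    aeval (pt x z) (pwr m P) = aeval (pt x (z ^ m)) P := by
  have h : (aeval (pt x z)).comp (pwr (K := K) (d := d) m) = aeval (pt x (z ^ m)) := by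
    apply MvPolynomial.algHom_ext
    intro o
    rcases o with _ | i
    · simp [pwr, pt]
    · simp [pwr, pt]
  exact DFunLike.congr_fun h P

omit [Algebra K ℂ] in
theorem pwr_degreeOf_le (m : ℕ) (P : MvPolynomial (Option (Fin d)) K) (j : Fin d) :
    (pwr m P).degreeOf (some j) ≤ P.degreeOf (some j) := by
  classical
  conv_lhs => rw [P.as_sum]
  rw [map_sum]
  refine (degreeOf_sum_le _ _ _).trans (Finset.sup_le fun e he => ?_)
  have h1 : pwr m (monomial e (P.coeff e)) = C (P.coeff e) *
      ((X none ^ m) ^ (e none) * ∏ i : Fin d, X (some i) ^ (e (some i))) := by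
    rw [pwr, aeval_monomial, algebraMap_eq]
    congr 1
    rw [Finsupp.prod_fintype _ _ (fun i => pow_zero _), Fintype.prod_option]
    simp only [Option.elim_none, Option.elim_some]
  rw [h1]
  refine (degreeOf_C_mul_le _ _ _).trans ?_
  refine (degreeOf_mul_le _ _ _).trans ?_
  have h2 : ((X none ^ m) ^ (e none) : MvPolynomial (Option (Fin d)) K).degreeOf (some j) = 0 := by
    rw [← Nat.le_zero]
    rw [← pow_mul]
    refine (degreeOf_pow_le _ _ _).trans ?_
    rw [degreeOf_X]
    simp
  rw [h2, zero_add]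
  refine (degreeOf_prod_le _ _ _).trans ?_
  have h3 : ∀ i : Fin d, (X (some i) ^ (e (some i)) : MvPolynomial (Option (Fin d)) K).degreeOf
      (some j) ≤ if i = j then e (some j) else 0 := by
    intro i
    refine (degreeOf_pow_le _ _ _).trans ?_
    rw [degreeOf_X]
    by_cases hij : i = j
    · rw [hij]; simp
    · rw [if_neg hij, if_neg (fun h => hij (Option.some_injective _ h).symm), mul_zero]
  refine (Finset.sum_le_sum fun i _ => h3 i).trans ?_
  rw [Finset.sum_ite_eq' Finset.univ j, if_pos (Finset.mem_univ _)]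
  exact (degreeOf_le_iff.1 le_rfl) e he

omit [Algebra K ℂ] in
theorem scl_degreeOf_none_le (c : K) (P : MvPolynomial (Option (Fin d)) K) :
    (scl c P).degreeOf none ≤ P.degreeOf none := by
  classical
  conv_lhs => rw [P.as_sum]
  rw [map_sum]
  refine (degreeOf_sum_le _ _ _).trans (Finset.sup_le fun e he => ?_)
  have h1 : scl c (monomial e (P.coeff e)) = C (P.coeff e * c ^ (e none)) * monomial e 1 := by
    rw [scl, aeval_monomial, C_mul, algebraMap_eq, mul_assoc]
    congr 1
    rw [monomial_eq, C_1, one_mul]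
    rw [Finsupp.prod_fintype _ _ (fun i => pow_zero _), Finsupp.prod_fintype _ _ (fun i => pow_zero _)]
    rw [Fintype.prod_option, Fintype.prod_option]
    simp only [Option.elim_none, Option.elim_some]
    rw [mul_pow, C_pow]
    ring
  rw [h1]
  refine (degreeOf_C_mul_le _ _ _).trans ?_
  rw [degreeOf_le_iff]
  intro m' hm'
  have h2 : m' = e := by
    have h3 := support_monomial_subset hm'
    exact Finset.mem_singleton.1 h3
  rw [h2]
  exact (degreeOf_le_iff.1 le_rfl) e he

/-- the degree of the irreducible polynomial of an `m`-th root -/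
theorem root_bound (hx : AlgebraicIndependent K x) (hω : ω ≠ 0) (hq : aeval x q ≠ 0)
    (hqd : ∀ j, q.degreeOf j ≤ δ) {L m : ℕ} {z : ℂ} (hz : z ≠ 0) (hm : 0 < m)
    (h : SL x ω q δ L (z ^ m)) {ζ : K} (hζ : IsPrimitiveRoot ζ m)
    {P Q₀ : MvPolynomial (Option (Fin d)) K} (hP : Irreducible P) (hPz : aeval (pt x z) P = 0)
    (hQ₀ : Q₀ ≠ 0) (hQz : aeval (pt x z) Q₀ = 0) (hQN : Q₀.degreeOf none ≤ N) (j : Fin d) :
    m * P.degreeOf (some j) ≤ N * (N * (δ * L)) := by
  classical
  obtain ⟨Q, ⟨z₁, hz₁⟩, hQ2, hQ3, -⟩ := h.rel hω hq hqd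
  have hP0 : P ≠ 0 := hP.ne_zero
  have hζ0 : ζ ≠ 0 := hζ.ne_zero hm.ne'
  -- the polynomial for the roots
  have hR0 : pwr m Q ≠ 0 := by
    intro h0
    obtain ⟨w, hw⟩ := IsAlgClosed.exists_pow_nat_eq z₁ hm
    have h1 := pwr_eval x w m Q
    rw [h0, map_zero, hw] at h1
    exact hz₁ h1.symm
  let f : Fin m → MvPolynomial (Option (Fin d)) K := fun i => scl ((ζ ^ (i : ℕ))⁻¹) P
  have hf0 : ∀ i, f i ≠ 0 := by
    intro i h0
    apply hP0
    have h1 : scl (ζ ^ (i : ℕ)) (f i) = P := by
      simp only [f]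
      rw [scl_scl, inv_mul_cancel₀ (pow_ne_zero _ hζ0), scl_one]
    rw [← h1, h0, map_zero]
  have hfirr : ∀ i, Irreducible (f i) := fun i =>
    (MulEquiv.irreducible_iff (sclE (d := d) ((ζ ^ (i : ℕ))⁻¹)
      (inv_ne_zero (pow_ne_zero _ hζ0)))).2 hP
  let zz : Fin m → ℂ := fun i => algebraMap K ℂ (ζ ^ (i : ℕ)) * z
  have hfz : ∀ i, aeval (pt x (zz i)) (f i) = 0 := by
    intro i
    simp only [f, zz]
    rw [scl_eval, ← mul_assoc, ← map_mul, inv_mul_cancel₀ (pow_ne_zero _ hζ0), map_one, one_mul]
    exact hPz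
  have hzzm : ∀ i, zz i ^ m = z ^ m := by
    intro i
    simp only [zz]
    rw [mul_pow, ← map_pow, ← pow_mul, mul_comm (i : ℕ) m, pow_mul, hζ.pow_eq_one, one_pow,
      map_one, one_mul]
  have hdvd : ∀ i, f i ∣ pwr m Q := fun i =>
    irr_dvd hx (hfirr i) (hfz i) (by rw [pwr_eval, hzzm]; exact hQ2)
  have hzinj : Function.Injective zz := by
    intro i i' hii
    have h1 : ζ ^ (i : ℕ) = ζ ^ (i' : ℕ) :=
      (algebraMap K ℂ).injective (mul_right_cancel₀ hz hii)
    exact Fin.ext (hζ.pow_inj i.2 i'.2 h1)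
  have hPN : P.degreeOf none ≤ N := by
    obtain ⟨c, hc⟩ := irr_dvd hx hP hPz hQz
    have hc0 : c ≠ 0 := by
      rintro rfl
      rw [mul_zero] at hc
      exact hQ₀ hc
    rw [hc, degreeOf_mul_eq hP0 hc0] at hQN
    omega
  -- the classes
  let g : Fin m → Associates (MvPolynomial (Option (Fin d)) K) := fun i => Associates.mk (f i)
  have hcls : m ≤ N * (Finset.univ.image g).card := by
    have h1 := Finset.card_le_mul_card_image (f := g) Finset.univ N (by
      intro b hb
      obtain ⟨i₀, -, rfl⟩ := Finset.mem_image.1 hb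
      rw [← Finset.card_image_of_injective _ hzinj]
      refine (roots_le hx (hf0 i₀) _ ?_).trans ((scl_degreeOf_none_le _ _).trans hPN)
      intro w hw
      obtain ⟨i, hi, rfl⟩ := Finset.mem_image.1 hw
      have h2 : g i = g i₀ := (Finset.mem_filter.1 hi).2
      obtain ⟨u, hu⟩ := Associates.mk_eq_mk_iff_associated.1 h2
      rw [← hu, map_mul, hfz, zero_mul])
    rwa [Finset.card_univ, Fintype.card_fin] at h1
  -- the product
  have hrep : ∀ b ∈ Finset.univ.image g, ∃ i, g i = b := fun b hb => by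
    obtain ⟨i, -, hi⟩ := Finset.mem_image.1 hb
    exact ⟨i, hi⟩
  have hne : Nonempty (Fin m) := ⟨⟨0, hm⟩⟩
  choose! r hr using hrep
  have hprod : ∏ b ∈ Finset.univ.image g, f (r b) ∣ pwr m Q := by
    rw [← Associates.mk_dvd_mk, ← Associates.finsetProd_mk]
    have h1 : ∀ b ∈ Finset.univ.image g, Associates.mk (f (r b)) = b := hr
    rw [Finset.prod_congr rfl h1]
    refine Finset.prod_primes_dvd _ ?_ ?_
    · intro b hb
      rw [← h1 b hb, Associates.prime_mk]
      exact (hfirr _).prime
    · intro b hb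
      rw [← h1 b hb]
      exact Associates.mk_dvd_mk.2 (hdvd _)
  obtain ⟨c, hc⟩ := hprod
  have hc0 : c ≠ 0 := by
    rintro rfl
    rw [mul_zero] at hc
    exact hR0 hc
  have hp0 : ∏ b ∈ Finset.univ.image g, f (r b) ≠ 0 :=
    Finset.prod_ne_zero_iff.2 fun b _ => hf0 _
  have h4 : (Finset.univ.image g).card * P.degreeOf (some j) ≤ N * (δ * L) := by
    have h5 := (pwr_degreeOf_le m Q j).trans (hQ3 j)
    rw [hc, degreeOf_mul_eq hp0 hc0, degreeOf_prod_eq _ _ (fun b _ => hf0 _)] at h5
    have h6 : ∑ b ∈ Finset.univ.image g, (f (r b)).degreeOf (some j) =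
        (Finset.univ.image g).card * P.degreeOf (some j) := by
      rw [Finset.sum_congr rfl fun b _ => scl_degreeOf (inv_ne_zero (pow_ne_zero _ hζ0)) P j,
        Finset.sum_const, smul_eq_mul]
    omega
  calc m * P.degreeOf (some j) ≤ (N * (Finset.univ.image g).card) * P.degreeOf (some j) :=
        Nat.mul_le_mul_right _ hcls
    _ = N * ((Finset.univ.image g).card * P.degreeOf (some j)) := by ring
    _ ≤ N * (N * (δ * L)) := Nat.mul_le_mul_left _ h4

end Pool.Agent.V9h68
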