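import Pool.Agent.V9h68.Ku2
import Pool.Agent.V9h68.GF

/-!
The exponents of the monomials in exponentials which are contained in a finitely generated field
have bounded denominators.
-/

set_option autoImplicit false

open MvPolynomial Set

noncomputable section

namespace Pool.Agent.V9h68

open Pool.Agent.TH813.Rel (MK mem_cl subset_cl rk_le_of_subset_cl cl_add cl_mul cl_inv cl_of_base)

section Den

variable {K : Type} [Field K] [Algebra K ℂ] {d : ℕ}

/-- common denominators -/
theorem common_den (x : Fin d → ℂ) {ι : Type} [Fintype ι]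
    (c : ι → ℂ) (hc : ∀ i, c i ∈ IntermediateField.adjoin K (range x)) :
    ∃ (q : MvPolynomial (Fin d) K) (f : ι → MvPolynomial (Fin d) K), aeval x q ≠ 0 ∧
      ∀ i, aeval x (f i) = aeval x q * c i := by
  classical
  have h1 : ∀ i, ∃ r s : MvPolynomial (Fin d) K, aeval x s ≠ 0 ∧ aeval x r = aeval x s * c i := by
    intro i
    obtain ⟨r, s, hrs⟩ := (IntermediateField.mem_adjoin_range_iff K x (c i)).1 (hc i)
    by_cases hs : aeval x s = 0
    · rw [hs, div_zero] at hrs
      exact ⟨0, 1, by rw [map_one]; exact one_ne_zero, by rw [hrs, map_zero, mul_zero]⟩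
    · refine ⟨r, s, hs, ?_⟩
      rw [hrs]
      field_simp
  choose r s hs hr using h1
  refine ⟨∏ i, s i, fun i => r i * ∏ j ∈ Finset.univ.erase i, s j, ?_, fun i => ?_⟩
  · rw [map_prod]
    exact Finset.prod_ne_zero_iff.2 fun i _ => hs i
  · rw [map_mul, hr, ← Finset.mul_prod_erase Finset.univ s (Finset.mem_univ i), map_mul]
    ring

/-- the action of finitely many elements on a basis -/
theorem exists_SL (x : Fin d → ℂ) (E : IntermediateField (IntermediateField.adjoin K (range x)) ℂ)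
    [FiniteDimensional (IntermediateField.adjoin K (range x)) E] :
    ∃ (N : ℕ) (ω : Fin N → ℂ), ω ≠ 0 ∧ ∀ {ι : Type} [Fintype ι] (z : ι → ℂ), (∀ i, z i ∈ E) →
      ∃ (q : MvPolynomial (Fin d) K) (δ : ℕ), aeval x q ≠ 0 ∧ (∀ j, q.degreeOf j ≤ δ) ∧
        ∀ i, SL x ω q δ 1 (z i) := by
  classical
  let E₀ := IntermediateField.adjoin K (range x)
  let b := Module.finBasis E₀ E
  refine ⟨Module.finrank E₀ E, fun k => (b k : ℂ), ?_, ?_⟩
  · intro h0
    have hpos : 0 < Module.finrank E₀ E := Module.finrank_pos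
    have h1 := congrFun h0 ⟨0, hpos⟩
    have h2 : b ⟨0, hpos⟩ = 0 := Subtype.ext h1
    exact b.ne_zero _ h2
  · intro ι _ z hz
    let c : ι × Fin (Module.finrank E₀ E) × Fin (Module.finrank E₀ E) → ℂ := fun i =>
      ((b.repr (⟨z i.1, hz i.1⟩ * b i.2.1) i.2.2 : E₀) : ℂ)
    obtain ⟨q, f, hq, hf⟩ := common_den (K := K) x c (fun i => (b.repr _ _).2)
    refine ⟨q, (∑ j, q.degreeOf j) + ∑ i, ∑ j, (f i).degreeOf j, hq, fun j => ?_, fun i => ?_⟩
    · exact (Finset.single_le_sum (f := fun j => q.degreeOf j) (fun _ _ => Nat.zero_le _)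
        (Finset.mem_univ j)).trans (Nat.le_add_right _ _)
    · refine ⟨Matrix.of fun k l => f (i, k, l), fun k l j => ?_, fun k => ?_⟩
      · rw [mul_one, Matrix.of_apply]
        refine le_trans ?_ (Nat.le_add_left _ _)
        refine le_trans ?_ (Finset.single_le_sum (f := fun i => ∑ j, (f i).degreeOf j)
          (fun _ _ => Nat.zero_le _) (Finset.mem_univ (i, k, l)))
        exact Finset.single_le_sum (f := fun j => (f (i, k, l)).degreeOf j)
          (fun _ _ => Nat.zero_le _) (Finset.mem_univ j)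
      · rw [pow_one]
        have h1 : ∀ l, aeval x ((Matrix.of fun k l => f (i, k, l)) k l) * (b l : ℂ) =
            aeval x q * (c (i, k, l) * (b l : ℂ)) := by
          intro l
          rw [Matrix.of_apply, hf, mul_assoc]
        rw [Finset.sum_congr rfl fun l _ => h1 l, ← Finset.mul_sum, mul_assoc]
        congr 1
        have h2 := b.sum_repr (⟨z i, hz i⟩ * b k)
        have h3 := congrArg (fun w : E => (w : ℂ)) h2
        simp only [IntermediateField.coe_mul] at h3
        rw [← h3]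
        rw [AddSubmonoidClass.coe_finsetSum]
        refine Finset.sum_congr rfl fun l _ => ?_
        rfl

end Den

/-- a transcendence basis among finitely many numbers -/
theorem exists_tb {K : Subfield ℂ} {S : Set ℂ} (hS : S.Finite) : ∃ (d : ℕ) (x : Fin d → ℂ),
    AlgebraicIndependent K x ∧ range x ⊆ S ∧
      ∀ s ∈ S, IsAlgebraic (IntermediateField.adjoin K (range x)) s := by
  classical
  obtain ⟨I, hI⟩ := (MK K).exists_isBasis S (Set.subset_univ _)
  have hIf : I.Finite := hS.subset hI.subset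
  let e := hIf.toFinset.equivFin
  have hmem : ∀ i : Fin hIf.toFinset.card, (e.symm i : ℂ) ∈ I := fun i =>
    hIf.mem_toFinset.1 (e.symm i).2
  have hrange : range (fun i : Fin hIf.toFinset.card => (e.symm i : ℂ)) = I := by
    ext z
    constructor
    · rintro ⟨i, rfl⟩
      exact hmem i
    · intro hz
      exact ⟨e ⟨z, hIf.mem_toFinset.2 hz⟩, by simp⟩
  refine ⟨hIf.toFinset.card, fun i => (e.symm i : ℂ), ?_, ?_, ?_⟩
  · have h1 : AlgebraicIndependent K ((↑) : I → ℂ) :=
      AlgebraicIndependent.matroid_indep_iff.1 hI.indep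
    exact h1.comp (fun i : Fin hIf.toFinset.card => (⟨e.symm i, hmem i⟩ : I)) (fun i j h => by
      have h2 := congrArg (fun z : I => (z : ℂ)) h
      exact e.symm.injective (Subtype.ext h2))
  · rw [hrange]
    exact hI.subset
  · intro s hs
    rw [hrange]
    have h2 : IsAlgebraic (Algebra.adjoin K I) s := mem_cl.1 (hI.subset_closure hs)
    have hle : Algebra.adjoin K I ≤ (IntermediateField.adjoin K I).toSubalgebra :=
      IntermediateField.algebra_adjoin_le_adjoin K I
    obtain ⟨p, hp, hps⟩ := h2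
    let g : Algebra.adjoin K I →+* IntermediateField.adjoin K I :=
      { toFun := fun z => ⟨z, hle z.2⟩
        map_one' := rfl
        map_mul' := fun _ _ => rfl
        map_zero' := rfl
        map_add' := fun _ _ => rfl }
    have hg : Function.Injective g := fun z w h =>
      Subtype.ext (congrArg (fun y : IntermediateField.adjoin K I => (y : ℂ)) h)
    refine ⟨p.map g, ?_, ?_⟩
    · rw [Ne, Polynomial.map_eq_zero_iff hg]
      exact hp
    · rw [Polynomial.aeval_def] at hps ⊢
      rw [Polynomial.eval₂_map]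
      exact hps

theorem prim_root_mem {K : Subfield ℂ} (hK : ∀ x, IsAlgebraic K x → x ∈ K) {m : ℕ} (hm : 0 < m) :
    ∃ ζ : K, IsPrimitiveRoot ζ m := by
  have h1 := Complex.isPrimitiveRoot_exp m hm.ne'
  have h2 : Complex.exp (2 * Real.pi * Complex.I / m) ∈ K := by
    apply hK
    refine ⟨Polynomial.X ^ m - 1, Polynomial.X_pow_sub_C_ne_zero hm 1, ?_⟩
    rw [map_sub, map_pow, Polynomial.aeval_X, map_one, h1.pow_eq_one, sub_self]
  refine ⟨⟨_, h2⟩, ?_⟩
  exact IsPrimitiveRoot.of_map_of_injective (f := K.subtype) h1 K.subtype.injective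

/-- small exponents -/
theorem small_exp {K : Subfield ℂ} (hK : ∀ x, IsAlgebraic K x → x ∈ K) {p : ℕ} (a : Fin p → ℂ)
    {S : Set ℂ} (hS : S.Finite) (haS : ∀ i, Complex.exp (a i) ∈ S) :
    ∃ ε : ℚ, 0 < ε ∧ ∀ r : Fin p → ℚ, ∑ i, |r i| < ε →
      Complex.exp (∑ i, r i • a i) ∈ IntermediateField.adjoin K S →
      Complex.exp (∑ i, r i • a i) ∈ K := by
  classical
  obtain ⟨d, x, hx, hxS, halg⟩ := exists_tb (K := K) hS
  have : Finite S := hS
  have hfd : FiniteDimensional (IntermediateField.adjoin K (range x))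
      (IntermediateField.adjoin (IntermediateField.adjoin K (range x)) S) :=
    IntermediateField.finiteDimensional_adjoin fun s hs => (halg s hs).isIntegral
  obtain ⟨N, ω, hω, hrep⟩ := exists_SL x
    (IntermediateField.adjoin (IntermediateField.adjoin K (range x)) S)
  set E₁ := IntermediateField.adjoin (IntermediateField.adjoin K (range x)) S with hE₁
  have hSE : S ⊆ E₁ := IntermediateField.subset_adjoin _ _
  have hle : ∀ z ∈ IntermediateField.adjoin K S, z ∈ E₁ := by
    have h1 : IntermediateField.adjoin K S ≤ E₁.restrictScalars K :=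
      IntermediateField.adjoin_le_iff.2 hSE
    exact fun z hz => h1 hz
  obtain ⟨q, δ, hq, hqd, hSL⟩ := hrep (ι := Fin p ⊕ Fin p)
    (Sum.elim (fun i => Complex.exp (a i)) (fun i => (Complex.exp (a i))⁻¹)) (by
      rintro (i | i)
      · exact hSE (haS i)
      · exact inv_mem (hSE (haS i)))
  refine ⟨1 / (N * N * δ + 1 : ℚ), by positivity, fun r hr hE => ?_⟩
  set h := Complex.exp (∑ i, r i • a i) with hh
  have hh0 : h ≠ 0 := Complex.exp_ne_zero _
  -- the common denominator
  let m : ℕ := ∏ i, (r i).den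
  have hm : 0 < m := Finset.prod_pos fun i _ => (r i).den_pos
  have hs : ∀ i, ∃ s : ℤ, (m : ℚ) * r i = s := by
    intro i
    refine ⟨(∏ j ∈ Finset.univ.erase i, (r j).den : ℕ) * (r i).num, ?_⟩
    have h1 : m = (r i).den * ∏ j ∈ Finset.univ.erase i, (r j).den :=
      (Finset.mul_prod_erase Finset.univ (fun j => (r j).den) (Finset.mem_univ i)).symm
    rw [h1]
    push_cast
    have h2 : ((r i).den : ℚ) * r i = (r i).num := by
      rw [mul_comm]; exact Rat.mul_den_eq_num (r i)
    rw [mul_comm ((r i).den : ℚ), mul_assoc, h2]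
  choose s hs using hs
  have hhm : h ^ m = ∏ i, Complex.exp (a i) ^ s i := by
    rw [hh, ← Complex.exp_nat_mul, Finset.mul_sum, Complex.exp_sum]
    refine Finset.prod_congr rfl fun i _ => ?_
    rw [← Complex.exp_int_mul]
    congr 1
    rw [Rat.smul_def, ← mul_assoc]
    congr 1
    have := hs i
    have h2 := congrArg (fun y : ℚ => (y : ℂ)) this
    push_cast at h2
    exact h2
  have hSLs : ∀ i, SL x ω q δ ((s i).natAbs) (Complex.exp (a i) ^ s i) := by
    intro i
    rcases Int.natAbs_eq (s i) with h1 | h1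
    · have h2 := (hSL (Sum.inl i)).pow (s i).natAbs
      rw [mul_one] at h2
      conv_rhs => rw [h1, zpow_natCast]
      exact h2
    · have h2 := (hSL (Sum.inr i)).pow (s i).natAbs
      rw [mul_one] at h2
      conv_rhs => rw [h1, zpow_neg, zpow_natCast, ← inv_pow]
      exact h2
  have hSLm : SL x ω q δ (∑ i, (s i).natAbs) (h ^ m) := by
    rw [hhm]
    exact SL.prod Finset.univ fun i _ => hSLs i
  -- the relation of h
  obtain ⟨q', δ', hq', hqd', hSL'⟩ := hrep (ι := Unit) (fun _ => h) (fun _ => hle h hE)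
  obtain ⟨Q₀, ⟨z₀, hz₀⟩, hQz, -, hQN⟩ := (hSL' ()).rel hω hq' hqd'
  have hQ₀ : Q₀ ≠ 0 := by
    rintro rfl
    exact hz₀ (map_zero _)
  obtain ⟨P, hP, hPz⟩ := exists_irr hQ₀ hQz
  obtain ⟨ζ, hζ⟩ := prim_root_mem hK hm
  have hdeg : ∀ j, P.degreeOf (some j) = 0 := by
    intro j
    by_contra hne
    have h1 := root_bound hx hω hq hqd hh0 hm hSLm hζ hP hPz hQ₀ hQz hQN j
    have h2 : m ≤ N * (N * (δ * ∑ i, (s i).natAbs)) := by
      refine le_trans ?_ h1
      exact Nat.le_mul_of_pos_right _ (Nat.pos_of_ne_zero hne)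
    have h3 : ((∑ i, (s i).natAbs : ℕ) : ℚ) = m * ∑ i, |r i| := by
      push_cast
      rw [Finset.mul_sum]
      refine Finset.sum_congr rfl fun i _ => ?_
      rw [Nat.cast_natAbs, Int.cast_abs, ← hs i, abs_mul, Nat.abs_cast]
    have h4 : (m : ℚ) ≤ N * (N * (δ * (m * ∑ i, |r i|))) := by
      rw [← h3]
      exact_mod_cast h2
    have hmq : (0 : ℚ) < m := by exact_mod_cast hm
    have h5 : (1 : ℚ) ≤ (N * N * δ) * ∑ i, |r i| := by
      have h6 : (m : ℚ) * 1 ≤ m * ((N * N * δ) * ∑ i, |r i|) := by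
        rw [mul_one]
        refine h4.trans (le_of_eq ?_)
        ring
      exact le_of_mul_le_mul_left h6 hmq
    rw [lt_div_iff₀ (by positivity)] at hr
    have h7 : (0 : ℚ) ≤ ∑ i, |r i| := Finset.sum_nonneg fun i _ => abs_nonneg _
    nlinarith
  -- so h is algebraic over K
  have hvars : (↑P.vars : Set (Option (Fin d))) ⊆ range (fun _ : Unit => (none : Option (Fin d))) := by
    intro o ho
    rcases o with _ | j
    · exact ⟨(), rfl⟩
    · exfalso
      have h1 : some j ∈ P.vars := ho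
      rw [mem_vars_iff_mem_support] at h1
      obtain ⟨e, he, hej⟩ := h1
      have h2 := (degreeOf_le_iff.1 (le_of_eq (hdeg j))) e he
      rw [Finsupp.mem_support_iff] at hej
      omega
  obtain ⟨P', hP'⟩ := exists_rename_eq_of_vars_subset_range P _ (fun _ _ _ => rfl) hvars
  have h8 : aeval (fun _ : Unit => h) P' = 0 := by
    rw [← hP', aeval_rename] at hPz
    exact hPz
  apply hK
  by_contra htr
  have h9 : AlgebraicIndependent K (fun _ : Unit => h) := algebraicIndependent_unique_type_iff.2 htr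
  rw [algebraicIndependent_iff] at h9
  have h10 := h9 P' h8
  rw [h10, map_zero] at hP'
  exact hP.ne_zero hP'.symm

/-- the exponents have bounded denominators -/
theorem bounded_den {K : Subfield ℂ} (hK : ∀ x, IsAlgebraic K x → x ∈ K) {p : ℕ} (a : Fin p → ℂ)
    (ha : ∀ r : Fin p → ℚ, Complex.exp (∑ i, r i • a i) ∈ K → r = 0)
    {S : Set ℂ} (hS : S.Finite) (haS : ∀ i, Complex.exp (a i) ∈ S) :
    ∃ M : ℕ, 0 < M ∧ ∀ r : Fin p → ℚ,
      Complex.exp (∑ i, r i • a i) ∈ IntermediateField.adjoin K S →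
      ∃ s : Fin p → ℤ, ∀ i, (M : ℚ) * r i = s i := by
  classical
  obtain ⟨ε, hε, hsm⟩ := small_exp hK a hS haS
  obtain ⟨n, hn⟩ := exists_nat_gt ((p : ℚ) / ε)
  have hn0 : 0 < n := by
    rcases Nat.eq_zero_or_pos n with h | h
    · rw [h] at hn
      exfalso
      have : (0 : ℚ) ≤ (p : ℚ) / ε := by positivity
      push_cast at hn
      linarith
    · exact h
  have hnq : (0 : ℚ) < n := by exact_mod_cast hn0
  refine ⟨(n ^ p).factorial, Nat.factorial_pos _, fun r hr => ?_⟩
  let f : Fin (n ^ p + 1) → (Fin p → Fin n) := fun k i =>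
    ⟨(⌊(n : ℚ) * Int.fract ((k : ℕ) * r i)⌋).toNat, by
      have h1 : (n : ℚ) * Int.fract ((k : ℕ) * r i) < n := by
        have := Int.fract_lt_one (((k : ℕ) : ℚ) * r i)
        nlinarith
      have h2 : (0 : ℚ) ≤ (n : ℚ) * Int.fract ((k : ℕ) * r i) :=
        mul_nonneg hnq.le (Int.fract_nonneg _)
      have h3 : ⌊(n : ℚ) * Int.fract ((k : ℕ) * r i)⌋ < (n : ℤ) := by
        rw [Int.floor_lt]
        exact_mod_cast h1
      have h4 : 0 ≤ ⌊(n : ℚ) * Int.fract ((k : ℕ) * r i)⌋ := Int.floor_nonneg.2 h2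
      omega⟩
  obtain ⟨k, k', hkk, hf⟩ := Fintype.exists_ne_map_eq_of_card_lt f (by
    rw [Fintype.card_fin, Fintype.card_fun, Fintype.card_fin, Fintype.card_fin]
    exact Nat.lt_succ_self _)
  wlog hlt : k < k' generalizing k k'
  · exact this k' k hkk.symm hf.symm (lt_of_le_of_ne (not_lt.1 hlt) hkk.symm)
  let c : ℕ := (k' : ℕ) - k
  have hc : 0 < c := Nat.sub_pos_of_lt hlt
  have hcle : c ≤ n ^ p := by
    have := k'.2
    omega
  have hcq : ((c : ℕ) : ℚ) = ((k' : ℕ) : ℚ) - ((k : ℕ) : ℚ) := by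
    have h1 : (k : ℕ) ≤ (k' : ℕ) := hlt.le
    simp only [c]
    push_cast [h1]
    ring
  let z : Fin p → ℤ := fun i => ⌊((k' : ℕ) : ℚ) * r i⌋ - ⌊((k : ℕ) : ℚ) * r i⌋
  let r' : Fin p → ℚ := fun i => c * r i - z i
  have hr'f : ∀ i, r' i = Int.fract (((k' : ℕ) : ℚ) * r i) - Int.fract (((k : ℕ) : ℚ) * r i) := by
    intro i
    simp only [r', z, Int.fract]
    rw [hcq]
    push_cast
    ring
  have hr'lt : ∀ i, |r' i| < 1 / n := by
    intro i
    have h1 := congrFun hf i
    have h2 := congrArg (fun y : Fin n => (y : ℕ)) h1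
    simp only [f] at h2
    set u := Int.fract (((k' : ℕ) : ℚ) * r i)
    set v := Int.fract (((k : ℕ) : ℚ) * r i)
    have hu0 : (0 : ℚ) ≤ (n : ℚ) * u := mul_nonneg hnq.le (Int.fract_nonneg _)
    have hv0 : (0 : ℚ) ≤ (n : ℚ) * v := mul_nonneg hnq.le (Int.fract_nonneg _)
    have h3 : ⌊(n : ℚ) * v⌋ = ⌊(n : ℚ) * u⌋ := by
      have h4 := Int.floor_nonneg.2 hu0
      have h5 := Int.floor_nonneg.2 hv0
      omega
    have h6 := Int.floor_le ((n : ℚ) * v)
    have h7 := Int.lt_floor_add_one ((n : ℚ) * v)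
    have h8 := Int.floor_le ((n : ℚ) * u)
    have h9 := Int.lt_floor_add_one ((n : ℚ) * u)
    rw [h3] at h6 h7
    rw [hr'f, abs_lt]
    constructor
    · rw [neg_lt, div_eq_inv_mul, mul_one, ← one_div, lt_div_iff₀ hnq]
      linarith
    · rw [lt_div_iff₀ hnq]
      linarith
  have hr'E : Complex.exp (∑ i, r' i • a i) ∈ IntermediateField.adjoin K S := by
    have h1 : ∑ i, r' i • a i = (c : ℂ) * ∑ i, r i • a i - ∑ i, (z i : ℂ) * a i := by
      rw [Finset.mul_sum, ← Finset.sum_sub_distrib]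
      refine Finset.sum_congr rfl fun i _ => ?_
      simp only [r']
      rw [Rat.smul_def, Rat.smul_def]
      push_cast
      ring
    rw [h1, Complex.exp_sub, Complex.exp_nat_mul]
    refine div_mem (pow_mem hr _) ?_
    rw [Complex.exp_sum]
    refine prod_mem fun i _ => ?_
    rw [Complex.exp_int_mul]
    exact zpow_mem (IntermediateField.subset_adjoin _ _ (haS i)) _
  have hr'sum : ∑ i, |r' i| < ε := by
    rcases Nat.eq_zero_or_pos p with hp | hp
    · subst hp
      simpa using hε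
    · have hp' : Nonempty (Fin p) := ⟨⟨0, hp⟩⟩
      have h1 : ∑ i : Fin p, |r' i| < ∑ _i : Fin p, (1 / n : ℚ) :=
        Finset.sum_lt_sum_of_nonempty Finset.univ_nonempty fun i _ => hr'lt i
      rw [Finset.sum_const, Finset.card_univ, Fintype.card_fin, nsmul_eq_mul] at h1
      refine h1.trans ?_
      rw [mul_one_div, div_lt_iff₀ hnq]
      rw [div_lt_iff₀ hε] at hn
      linarith
  have hr'0 : r' = 0 := ha r' (hsm r' hr'sum hr'E)
  have hcr : ∀ i, (c : ℚ) * r i = z i := by
    intro i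
    have h1 := congrFun hr'0 i
    simp only [r', Pi.zero_apply] at h1
    linarith
  obtain ⟨e, he⟩ : c ∣ (n ^ p).factorial := Nat.dvd_factorial hc hcle
  refine ⟨fun i => e * z i, fun i => ?_⟩
  rw [he]
  push_cast
  rw [← hcr i]
  ring

end Pool.Agent.V9h68
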