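import Mathlib

/-!
Linear algebra: minors and the rank; eigenvectors in kernels of commuting matrices.
-/

set_option autoImplicit false

namespace Pool.Agent.V9h68

open Matrix

section Minor

variable {I J : Type} [Fintype I] [Fintype J] [DecidableEq I] [DecidableEq J]

/-- the rank is at least `r` if and only if there is a nonzero minor of size `r` -/
theorem le_rank_iff (M : Matrix I J ℂ) (r : ℕ) :
    r ≤ M.rank ↔ ∃ (f : Fin r → I) (g : Fin r → J), (M.submatrix f g).det ≠ 0 := by
  constructor
  · intro h
    -- independent columns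
    obtain ⟨κ, a, ha, hsp, hli⟩ := exists_linearIndependent' ℂ M.col
    have hκ : Finite κ := Finite.of_injective a ha
    have := Fintype.ofFinite κ
    have hcard : M.rank = Fintype.card κ := by
      rw [Matrix.rank_eq_finrank_span_cols, ← hsp, finrank_span_eq_card hli]
    obtain ⟨e⟩ : Nonempty (Fin r ↪ κ) := by
      rw [Function.Embedding.nonempty_iff_card_le, Fintype.card_fin, ← hcard]
      exact h
    set g : Fin r → J := a ∘ e with hg
    have hli2 : LinearIndependent ℂ (M.submatrix id g).col :=
      hli.comp e e.injective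
    have hr2 : (M.submatrix id g).rank = r := by
      rw [Matrix.rank_eq_finrank_span_cols, finrank_span_eq_card hli2, Fintype.card_fin]
    -- independent rows
    obtain ⟨κ', a', ha', hsp', hli'⟩ := exists_linearIndependent' ℂ (M.submatrix id g).row
    have hκ' : Finite κ' := Finite.of_injective a' ha'
    have := Fintype.ofFinite κ'
    have hcard' : Fintype.card κ' = r := by
      rw [← finrank_span_eq_card hli', hsp', ← Matrix.rank_eq_finrank_span_row, hr2]
    obtain ⟨e'⟩ : Nonempty (Fin r ≃ κ') := by
      rw [← hcard']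
      exact ⟨(Fintype.equivFin κ').symm⟩
    refine ⟨a' ∘ e', g, ?_⟩
    have hli3 : LinearIndependent ℂ (M.submatrix (a' ∘ e') g).row :=
      hli'.comp e' e'.injective
    have := Matrix.linearIndependent_rows_iff_isUnit.1 hli3
    exact ((Matrix.isUnit_iff_isUnit_det _).1 this).ne_zero
  · rintro ⟨f, g, h⟩
    have h1 : (M.submatrix f g).rank = r := by
      rw [Matrix.rank_of_isUnit _ ((Matrix.isUnit_iff_isUnit_det _).2 (isUnit_iff_ne_zero.2 h)),
        Fintype.card_fin]
    -- columns
    have h2 : (M.submatrix f g).rank ≤ (M.submatrix f id).rank := by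
      have h3 : M.submatrix f g = (M.submatrix f id) * (Matrix.of fun (j : J) (k : Fin r) => if j = g k then (1 : ℂ) else 0) := by
        ext i k
        simp [Matrix.mul_apply]
      rw [h3]
      exact Matrix.rank_mul_le_left _ _
    have h4 : (M.submatrix f id).rank ≤ M.rank := by
      have h3 : M.submatrix f id = (Matrix.of fun (k : Fin r) (i : I) => if f k = i then (1 : ℂ) else 0) * M := by
        ext i k
        simp [Matrix.mul_apply]
      rw [h3]
      exact Matrix.rank_mul_le_right _ _
    rw [← h1]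
    exact h2.trans h4

end Minor

section Eigen

/-- Fitting: if `B`, `C_j`, `A` commute with `A` and `B ^ n` does not vanish on the common kernel
of the `C_j ^ n` (`n` at least the dimension), then there is an eigenvector `v` of `A` with
`C_j ^ n v = 0` and `B v ≠ 0`, which is moreover an eigenvector. -/
theorem exists_eigen {V : Type} [AddCommGroup V] [Module ℂ V] [FiniteDimensional ℂ V]
    {ι : Type} (A B : Module.End ℂ V) (C : ι → Module.End ℂ V) (hAB : Commute A B)
    (hAC : ∀ j, Commute A (C j)) (hBC : ∀ j, Commute B (C j)) {n : ℕ}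
    (hn : Module.finrank ℂ V ≤ n) {w : V} (hC : ∀ j, (C j ^ n) w = 0) (hB : (B ^ n) w ≠ 0) :
    ∃ (μ : ℂ) (v : V), v ≠ 0 ∧ A v = μ • v ∧ (∀ j, (C j ^ n) v = 0) ∧ B v ≠ 0 := by
  -- the space `N`
  set N : Submodule ℂ V := ⨅ j, LinearMap.ker (C j ^ n) with hN
  set R : Submodule ℂ V := N.map (B ^ n) with hR
  have hCpow : ∀ j (D : Module.End ℂ V), Commute D (C j) → ∀ x, (C j ^ n) x = 0 →
      (C j ^ n) (D x) = 0 := by
    intro j D hD x hx
    have h1 : (C j ^ n) (D x) = D ((C j ^ n) x) := by
      have := (hD.pow_right n).eq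
      have h2 := LinearMap.congr_fun this x
      exact h2.symm
    rw [h1, hx, map_zero]
  have hRne : R ≠ ⊥ := by
    intro h
    have : (B ^ n) w ∈ R := Submodule.mem_map_of_mem (by
      rw [hN, Submodule.mem_iInf]
      intro j
      exact hC j)
    rw [h, Submodule.mem_bot] at this
    exact hB this
  have hAR : ∀ x ∈ R, A x ∈ R := by
    rintro _ ⟨y, hy, rfl⟩
    refine ⟨A y, ?_, ?_⟩
    · rw [hN, SetLike.mem_coe, Submodule.mem_iInf] at hy ⊢
      intro j
      exact hCpow j A (hAC j) y (hy j)
    · have := LinearMap.congr_fun (hAB.pow_right n).eq y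
      exact this.symm
  have hnt : Nontrivial R := Submodule.nontrivial_iff_ne_bot.2 hRne
  obtain ⟨μ, hμ⟩ := Module.End.exists_eigenvalue (A.restrict hAR)
  obtain ⟨⟨v, hvR⟩, hv⟩ := hμ.exists_hasEigenvector
  have hv0 : v ≠ 0 := fun h => hv.2 (Subtype.ext h)
  have hAv : A v = μ • v := by
    have := hv.apply_eq_smul
    exact congrArg Subtype.val this
  refine ⟨μ, v, hv0, hAv, ?_, ?_⟩
  · intro j
    obtain ⟨y, hy, rfl⟩ := hvR
    rw [hN, SetLike.mem_coe, Submodule.mem_iInf] at hy
    exact hCpow j (B ^ n) ((hBC j).pow_left n) y (hy j)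
  · intro hBv
    obtain ⟨y, hy, hyv⟩ := hvR
    -- `B ^ (n + 1) y = 0`, so `B ^ n y = 0`
    have h1 : (B ^ (n + 1)) y = 0 := by
      rw [pow_succ', Module.End.mul_apply, hyv, hBv]
    have h2 : LinearMap.ker (B ^ (n + 1)) ≤ LinearMap.ker (B ^ n) := by
      have h3 := Module.End.ker_pow_eq_ker_pow_finrank_of_le (f := B) (m := n) hn
      have h4 := Module.End.ker_pow_eq_ker_pow_finrank_of_le (f := B) (m := n + 1) (by omega)
      rw [h3, h4]
    have h5 : (B ^ n) y = 0 := h2 h1
    rw [h5] at hyv
    exact hv0 hyv.symm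

end Eigen

end Pool.Agent.V9h68
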