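import Pool.Agent.V9h68.Gs6
import Pool.Agent.V9h68.Gx

/-!
Linear disjointness, and specializations.
-/

set_option autoImplicit false

open MvPolynomial Set Filter

noncomputable section

namespace Pool.Agent.V9h68

open Pool.Agent.Y776 Pool.Agent.Y685
open Pool.Agent.TH813.Rel (MK mem_cl subset_cl rk_le_of_subset_cl cl_add cl_mul cl_inv cl_of_base
  DF kills_clF)

/-- a derivation over a field kills the closure of a set which it kills -/
theorem der_kill {A : Subfield ℂ} {D : Derivation ℚ ℂ ℂ} (hA : ∀ a ∈ A, D a = 0) {S : Set ℂ}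
    (hS : ∀ s ∈ S, D s = 0) {u : ℂ} (hu : u ∈ (MK A).closure S) : D u = 0 := by
  refine kills_clF (Cst D) (S := S) (D := D) (fun x hx => hx) hS ?_
  refine cl_up (k := A) (k' := Cst D) (fun a => ?_) (subset_cl _) hu
  exact cl_of_base (k := Cst D) _ (⟨a, hA a a.2⟩ : Cst D)

/-- derivations over a field with prescribed values -/
theorem exists_derA {A : Subfield ℂ} {ι : Type} {x : ι → ℂ} (hx : AlgebraicIndependent A x)
    (v : ι → ℂ) : ∃ D : Derivation ℚ ℂ ℂ, (∀ a ∈ A, D a = 0) ∧ ∀ i, D (x i) = v i := by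
  obtain ⟨D, hD⟩ := Pool.Agent.H135R2.VS.exists_der hx v
  exact ⟨D.restrictScalars ℚ, fun y hy => D.map_algebraMap (⟨y, hy⟩ : A), hD⟩

theorem exists_der_one {B : Subfield ℂ} (hB : ∀ x, IsAlgebraic B x → x ∈ B) {y : ℂ}
    (hy : y ∉ B) : ∃ D : Derivation ℚ ℂ ℂ, (∀ a ∈ B, D a = 0) ∧ D y = 1 := by
  have h1 : AlgebraicIndependent B (fun _ : Unit => y) := by
    rw [algebraicIndependent_unique_type_iff]
    exact fun h => hy (hB _ h)
  obtain ⟨D, h2, h3⟩ := exists_derA h1 fun _ => 1
  exact ⟨D, h2, h3 ()⟩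

/-- stability of algebraically closed fields under derivations -/
theorem der_stable {A B : Subfield ℂ} (hB : ∀ x, IsAlgebraic B x → x ∈ B) (hAB : A ≤ B)
    {D : Derivation ℚ ℂ ℂ} (hA : ∀ a ∈ A, D a = 0) {S : Set ℂ} (hSB : S ⊆ B)
    (hS : ∀ s ∈ S, D s ∈ B) {x : ℂ} (hx : x ∈ (MK A).closure S) : D x ∈ B := by
  by_contra hcon
  obtain ⟨η, h1, h2⟩ := exists_der_one hB hcon
  have hcl : (MK A).closure S ⊆ B := cl_le_alg hAB hB hSB
  have h3 : ⁅η, D⁆ x = 0 := by
    refine der_kill (A := A) (S := S) ?_ ?_ hx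
    · intro a ha
      rw [Derivation.commutator_apply, hA a ha, h1 a (hAB ha), map_zero, map_zero, sub_zero]
    · intro s hs
      rw [Derivation.commutator_apply, h1 _ (hS s hs), h1 s (hSB hs), map_zero, sub_zero]
  rw [Derivation.commutator_apply, h2, h1 x (hcl hx), map_zero, sub_zero] at h3
  exact one_ne_zero h3

/-- **linear disjointness** -/
theorem lin_disj {A B : Subfield ℂ} (hA : ∀ x, IsAlgebraic A x → x ∈ A)
    (hB : ∀ x, IsAlgebraic B x → x ∈ B) (hAB : A ≤ B) {z : ℂ} (hz : z ∉ B) {n : ℕ}
    {f : Fin n → ℂ} (hf : ∀ i, f i ∈ (MK A).closure {z})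
    (hind : ∀ β : Fin n → ℂ, (∀ i, β i ∈ A) → ∑ i, β i * f i = 0 → β = 0)
    {β : Fin n → ℂ} (hβ : ∀ i, β i ∈ B) (hβ0 : ∑ i, β i * f i = 0) : β = 0 := by
  classical
  -- induction on the size of the support
  have key : ∀ (m : ℕ) (β : Fin n → ℂ), (Finset.univ.filter fun i => β i ≠ 0).card = m →
      (∀ i, β i ∈ B) → ∑ i, β i * f i = 0 → β = 0 := by
    intro m
    induction m using Nat.strong_induction_on with
    | _ m ih =>
      intro β hm hβ hβ0
      by_contra hne
      obtain ⟨i₀, hi₀⟩ : ∃ i, β i ≠ 0 := by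
        by_contra hcon
        push Not at hcon
        exact hne (funext hcon)
      -- normalize
      let γ : Fin n → ℂ := fun i => (β i₀)⁻¹ * β i
      have hγB : ∀ i, γ i ∈ B := fun i => mul_mem (inv_mem (hβ i₀)) (hβ i)
      have hγ1 : γ i₀ = 1 := inv_mul_cancel₀ hi₀
      have hγ0 : ∑ i, γ i * f i = 0 := by
        have : ∑ i, γ i * f i = (β i₀)⁻¹ * ∑ i, β i * f i := by
          rw [Finset.mul_sum]
          refine Finset.sum_congr rfl fun i _ => ?_
          rw [mul_assoc]
        rw [this, hβ0, mul_zero]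
      by_cases hγA : ∀ i, γ i ∈ A
      · have := congrFun (hind γ hγA hγ0) i₀
        rw [hγ1] at this
        exact one_ne_zero this
      push Not at hγA
      obtain ⟨i₁, hi₁⟩ := hγA
      -- a derivation of `B`
      have hI₀ : (MK A).Indep {γ i₁} := by
        have h1 : AlgebraicIndependent A (fun _ : Unit => γ i₁) := by
          rw [algebraicIndependent_unique_type_iff]
          exact fun h => hi₁ (hA _ h)
        have h2 := h1.coe_range
        have h3 : range (fun _ : Unit => γ i₁) = {γ i₁} := Set.range_const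
        rw [h3] at h2
        exact h2
      obtain ⟨I, hI, hiI⟩ := hI₀.subset_isBasis_of_subset (X := (B : Set ℂ))
        (Set.singleton_subset_iff.2 (hγB i₁)) (Set.subset_univ _)
      have hclI : (MK A).closure I ⊆ B := cl_le_alg hAB hB hI.subset
      have hzI : z ∉ (MK A).closure I := fun h => hz (hclI h)
      have hins := ((hI.indep.notMem_closure_iff (Set.mem_univ _)).1 hzI).1
      have hind' : AlgebraicIndependent A (fun i : ↥(insert z I) => (i : ℂ)) := hins
      obtain ⟨D, hDA, hD⟩ := exists_derA hind' (fun i => if (i : ℂ) = γ i₁ then 1 else 0)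
      have hγI : γ i₁ ∈ I := hiI rfl
      have hzγ : z ≠ γ i₁ := fun h => hz (h ▸ hγB i₁)
      have hDz : D z = 0 := by
        have h1 := hD ⟨z, Set.mem_insert _ _⟩
        simp only [hzγ, if_false] at h1
        exact h1
      have hDγ : D (γ i₁) = 1 := by
        have h1 := hD ⟨γ i₁, Set.mem_insert_of_mem _ hγI⟩
        simp only [if_true] at h1
        exact h1
      have hDI : ∀ s ∈ I, D s ∈ B := by
        intro s hs
        have h1 := hD ⟨s, Set.mem_insert_of_mem _ hs⟩
        have h2 : D s = if s = γ i₁ then 1 else 0 := h1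
        rw [h2]
        split_ifs
        · exact B.one_mem
        · exact B.zero_mem
      have hDB : ∀ x ∈ B, D x ∈ B := fun x hx =>
        der_stable hB hAB hDA hI.subset hDI (hI.subset_closure hx)
      have hDf : ∀ i, D (f i) = 0 := fun i => der_kill hDA (S := {z}) (by
        rintro s rfl
        exact hDz) (hf i)
      have hrel : ∑ i, D (γ i) * f i = 0 := by
        have h1 := congrArg D hγ0
        rw [map_sum, map_zero] at h1
        rw [← h1]
        refine Finset.sum_congr rfl fun i _ => ?_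
        have e1 : ∀ g : ℂ, D (g * f i) = D g * f i := by
          intro g
          rw [Derivation.leibniz, hDf i, smul_zero, zero_add, smul_eq_mul, mul_comm]
        exact (e1 _).symm
      have hlt : (Finset.univ.filter fun i => D (γ i) ≠ 0).card < m := by
        rw [← hm]
        refine Finset.card_lt_card ⟨?_, ?_⟩
        · intro i hi
          rw [Finset.mem_filter] at hi ⊢
          refine ⟨Finset.mem_univ _, fun h0 => hi.2 ?_⟩
          have : γ i = 0 := by
            change (β i₀)⁻¹ * β i = 0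
            rw [h0, mul_zero]
          rw [this, map_zero]
        · intro hsub
          have h1 : i₀ ∈ Finset.univ.filter fun i => D (γ i) ≠ 0 :=
            hsub (Finset.mem_filter.2 ⟨Finset.mem_univ _, hi₀⟩)
          rw [Finset.mem_filter, hγ1, D.map_one_eq_zero] at h1
          exact h1.2 rfl
      have h1 := ih _ hlt (fun i => D (γ i)) rfl (fun i => hDB _ (hγB i)) hrel
      have h2 : D (γ i₁) = 0 := congrFun h1 i₁
      rw [hDγ] at h2
      exact one_ne_zero h2
  exact key _ β rfl hβ hβ0

/-- closed fields -/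
theorem clF_alg {K : Subfield ℂ} (S : Set ℂ) (x : ℂ) (hx : IsAlgebraic (clF K S) x) :
    x ∈ clF K S := by
  obtain ⟨p, hp, hpz⟩ := hx
  refine cl_root (f := p.map (algebraMap (clF K S) ℂ)) ?_ ?_ ?_
  · rw [Ne, Polynomial.map_eq_zero_iff (algebraMap (clF K S) ℂ).injective]
    exact hp
  · intro i
    rw [Polynomial.coeff_map]
    exact (p.coeff i).2
  · rw [Polynomial.eval_map_algebraMap]
    exact hpz

/-- a basis modulo a subspace, for an arbitrary field -/
theorem exists_basis_mod' {k : Type} [Field k] {V : Type} [AddCommGroup V] [Module k V]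
    (U : Submodule k V) {n : ℕ} (x : Fin n → V) :
    ∃ (s : ℕ) (ι : Fin s → Fin n), (∀ q : Fin s → k, ∑ j, q j • x (ι j) ∈ U → q = 0) ∧
      ∀ i, ∃ q : Fin s → k, x i - ∑ j, q j • x (ι j) ∈ U := by
  classical
  let y : Fin n → V ⧸ U := fun i => U.mkQ (x i)
  obtain ⟨b, hb1, hb2, hb3⟩ := exists_linearIndependent k (range y)
  have hbf : b.Finite := (Set.finite_range y).subset hb1
  let e := hbf.toFinset.equivFin
  have hbmem : ∀ j : Fin (Finset.card hbf.toFinset), ((e.symm j : V ⧸ U)) ∈ b := fun j =>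
    hbf.mem_toFinset.1 (e.symm j).2
  have hι : ∀ j, ∃ i, y i = (e.symm j : V ⧸ U) := fun j => hb1 (hbmem j)
  choose ι hι using hι
  have hind : LinearIndependent k (fun j => y (ι j)) := by
    have h1 := hb3.comp (fun j => (⟨e.symm j, hbmem j⟩ : b)) (by
      intro j j' hjj
      have h2 := congrArg (fun z : b => (z : V ⧸ U)) hjj
      exact e.symm.injective (Subtype.ext h2))
    have h2 : (fun j => y (ι j)) = Subtype.val ∘ (fun j => (⟨e.symm j, hbmem j⟩ : b)) :=
      funext fun j => hι j
    rw [h2]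
    exact h1
  refine ⟨_, ι, ?_, ?_⟩
  · intro r hr
    have h3 : ∑ j, r j • y (ι j) = 0 := by
      have h4 : ∑ j, r j • y (ι j) = U.mkQ (∑ j, r j • x (ι j)) := by
        rw [map_sum]
        simp only [map_smul]
        rfl
      rw [h4, Submodule.mkQ_apply, Submodule.Quotient.mk_eq_zero]
      exact hr
    exact funext (Fintype.linearIndependent_iff.1 hind r h3)
  · intro i
    have h1 : y i ∈ Submodule.span k (range fun j => y (ι j)) := by
      have h2 : (range fun j => y (ι j)) = b := by
        ext z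
        constructor
        · rintro ⟨j, rfl⟩
          show y (ι j) ∈ b
          rw [hι]
          exact hbmem j
        · intro hz
          refine ⟨e ⟨z, hbf.mem_toFinset.2 hz⟩, ?_⟩
          show y (ι _) = z
          rw [hι]
          simp
      rw [h2, hb2]
      exact Submodule.subset_span ⟨i, rfl⟩
    obtain ⟨q, hq⟩ := (Submodule.mem_span_range_iff_exists_fun k).1 h1
    refine ⟨q, ?_⟩
    rw [← Submodule.Quotient.mk_eq_zero, ← Submodule.mkQ_apply, map_sub, map_sum]
    simp only [map_smul]
    rw [sub_eq_zero]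
    exact hq.symm

/-- **specializations which are not generic drop the rank** -/
theorem spec_rank {A : Subfield ℂ} {ι : Type} [Finite ι] {u v : ι → ℂ}
    (h : ∀ P : MvPolynomial ι A, aeval u P = 0 → aeval v P = 0) {H : MvPolynomial ι A}
    (hH : aeval u H ≠ 0) (hH' : aeval v H = 0) {m : ℕ}
    (hm : (MK A).eRk (range u) ≤ (m + 1 : ℕ)) : (MK A).eRk (range v) ≤ (m : ℕ) := by
  classical
  obtain ⟨I, hI⟩ := (MK A).exists_isBasis (range v) (Set.subset_univ _)
  have hIf : I.Finite := (Set.finite_range v).subset hI.subset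
  rw [hI.eRk_eq_encard]
  by_contra hcon
  rw [not_le] at hcon
  let e := hIf.toFinset.equivFin
  have hmem : ∀ j : Fin hIf.toFinset.card, ((e.symm j : ℂ)) ∈ I := fun j =>
    hIf.mem_toFinset.1 (e.symm j).2
  have hg : ∀ j, ∃ i, v i = (e.symm j : ℂ) := fun j => hI.subset (hmem j)
  choose g hg using hg
  have hvg : AlgebraicIndependent A (fun j => v (g j)) := by
    have h1 : AlgebraicIndependent A (fun i : I => (i : ℂ)) := hI.indep
    have h2 := h1.comp (fun j => (⟨e.symm j, hmem j⟩ : I)) (by
      intro j j' hjj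
      have h2 := congrArg (fun z : I => (z : ℂ)) hjj
      exact e.symm.injective (Subtype.ext h2))
    have h3 : (fun j => v (g j)) = (fun i : I => (i : ℂ)) ∘
        (fun j => (⟨e.symm j, hmem j⟩ : I)) := funext fun j => hg j
    rw [h3]
    exact h2
  have hug : AlgebraicIndependent A (fun j => u (g j)) := by
    rw [algebraicIndependent_iff] at hvg ⊢
    intro P hP
    apply hvg
    have h1 := h (rename g P) (by rw [aeval_rename]; exact hP)
    rw [aeval_rename] at h1
    exact h1
  have hcard : (I.encard : ℕ∞) = (hIf.toFinset.card : ℕ) := by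
    rw [hIf.encard_eq_coe_toFinset_card]
  rw [hcard] at hcon
  have hcon' : m + 1 ≤ hIf.toFinset.card := by
    have : m < hIf.toFinset.card := by exact_mod_cast hcon
    omega
  -- the range is a basis
  have hJ : (MK A).Indep (range fun j => u (g j)) := by
    rw [AlgebraicIndependent.matroid_indep_iff]
    exact hug.coe_range
  have hJe : (range fun j => u (g j)).encard = (hIf.toFinset.card : ℕ) := by
    rw [← Set.image_univ, hug.injective.encard_image, Set.encard_univ,
      ENat.card_eq_coe_fintype_card, Fintype.card_fin]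
  have hcl : range u ⊆ (MK A).closure (range fun j => u (g j)) := by
    intro y hy
    by_contra hyc
    have h1 := (hJ.notMem_closure_iff (Set.mem_univ _)).1 hyc
    have h2 : insert y (range fun j => u (g j)) ⊆ range u := by
      refine Set.insert_subset hy ?_
      rintro _ ⟨j, rfl⟩
      exact ⟨_, rfl⟩
    have h3 := (MK A).eRk_mono h2
    rw [h1.1.eRk_eq_encard, Set.encard_insert_of_notMem h1.2, hJe] at h3
    have h4 := h3.trans hm
    norm_cast at h4
    omega
  have hHcl : aeval u H ∈ (MK A).closure (range fun j => u (g j)) := by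
    rw [aeval_def, eval₂_eq]
    exact sum_mem (S := clF A (range fun j => u (g j))) fun e _ => mul_mem (cl_of_base _ _)
      (prod_mem fun i _ => pow_mem (hcl ⟨i, rfl⟩) _)
  obtain ⟨R, -, hR0, hRz⟩ := exists_relp hug hHcl hH
  let f : MvPolynomial ι A :=
    R.eval₂ ((rename g : MvPolynomial (Fin hIf.toFinset.card) A →ₐ[A] MvPolynomial ι A) :
      MvPolynomial (Fin hIf.toFinset.card) A →+* MvPolynomial ι A) H
  have hf : ∀ (w : ι → ℂ), aeval w f =
      R.eval₂ ((aeval (fun j => w (g j)) : MvPolynomial (Fin hIf.toFinset.card) A →ₐ[A] ℂ) :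
        MvPolynomial (Fin hIf.toFinset.card) A →+* ℂ) (aeval w H) := by
    intro w
    have h1 := Polynomial.hom_eval₂ R
      ((rename g : MvPolynomial (Fin hIf.toFinset.card) A →ₐ[A] MvPolynomial ι A) :
        MvPolynomial (Fin hIf.toFinset.card) A →+* MvPolynomial ι A)
      ((aeval w : MvPolynomial ι A →ₐ[A] ℂ) : MvPolynomial ι A →+* ℂ) H
    have h2 : ((aeval w : MvPolynomial ι A →ₐ[A] ℂ) : MvPolynomial ι A →+* ℂ).comp
        ((rename g : MvPolynomial (Fin hIf.toFinset.card) A →ₐ[A] MvPolynomial ι A) :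
        MvPolynomial (Fin hIf.toFinset.card) A →+* MvPolynomial ι A) =
        ((aeval (fun j => w (g j)) : MvPolynomial (Fin hIf.toFinset.card) A →ₐ[A] ℂ) :
        MvPolynomial (Fin hIf.toFinset.card) A →+* ℂ) := by
      refine RingHom.ext fun q => ?_
      exact aeval_rename _ _ _
    rw [h2] at h1
    exact h1
  have h1 : aeval u f = 0 := by
    rw [hf]
    exact hRz
  have h2 := h f h1
  rw [hf, hH', Polynomial.eval₂_at_zero] at h2
  rw [algebraicIndependent_iff] at hvg
  exact hR0 (hvg _ h2)

/-- additivity of the rank -/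
theorem rk_add {K : Subfield ℂ} {T X : Set ℂ} {a m : ℕ} (hT : (MK K).eRk T ≤ (a : ℕ))
    (hX : (MK (clF K T)).eRk X ≤ (m : ℕ)) : (MK K).eRk (T ∪ X) ≤ (a + m : ℕ) := by
  obtain ⟨J, hJ⟩ := (MK (clF K T)).exists_isBasis X (Set.subset_univ _)
  have h1 : T ∪ X ⊆ (MK K).closure (T ∪ J) := by
    rintro x (hx | hx)
    · exact subset_cl _ (Or.inl hx)
    · have h2 : x ∈ (MK (clF K T)).closure J := hJ.subset_closure hx
      have h3 := cl_base_change (K := K) (M := clF K T) (fun c hc => cl_of_base (k := K) T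
        (⟨c, hc⟩ : K)) h2
      refine cl_sub_of ?_ h3
      refine Set.union_subset ?_ (Set.subset_union_right.trans (subset_cl _))
      intro y hy
      exact (MK K).closure_subset_closure Set.subset_union_left hy
  refine (rk_le_of_subset_cl h1).trans (((MK K).eRk_union_le_eRk_add_eRk _ _).trans ?_)
  have h2 : (MK K).eRk J ≤ (m : ℕ) := by
    refine ((MK K).eRk_le_encard _).trans ?_
    rw [← hJ.eRk_eq_encard]
    exact hX
  refine (add_le_add hT h2).trans ?_
  norm_cast

/-- the rank over the closure -/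
theorem rk_over {K : Subfield ℂ} {T X : Set ℂ} {a m : ℕ} (hT : (a : ℕ∞) ≤ (MK K).eRk T)
    (hX : (MK K).eRk (T ∪ X) ≤ (a + m : ℕ)) : (MK (clF K T)).eRk X ≤ (m : ℕ) := by
  have h1 := rk_remove (K := K) (K' := clF K T) (X := T ∪ X) (W := T)
    (fun c hc => cl_of_base (k := K) T (⟨c, hc⟩ : K)) (Set.subset_union_left.trans (subset_cl _))
    (subset_cl _) hX hT
  rw [Nat.add_sub_cancel_left] at h1
  exact ((MK _).eRk_mono Set.subset_union_right).trans h1

end Pool.Agent.V9h68
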