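import Pool.Agent.V9h68.Mg

/-!
The multiplicities of the zeros of exponential polynomials near a puncture.
-/

set_option autoImplicit false

open Set Filter Topology

noncomputable section

namespace Pool.Agent.V9h68.Rt

theorem pdisc_conn {ε : ℝ} (hε : 0 < ε) : IsPreconnected {s : ℂ | s ≠ 0 ∧ ‖s‖ < ε} := by
  have h1 : {s : ℂ | s ≠ 0 ∧ ‖s‖ < ε} = Complex.exp '' {w : ℂ | w.re < Real.log ε} := by
    ext s
    constructor
    · rintro ⟨h1, h2⟩
      refine ⟨Complex.log s, ?_, Complex.exp_log h1⟩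
      change (Complex.log s).re < Real.log ε
      rw [Complex.log_re]
      exact Real.log_lt_log (norm_pos_iff.2 h1) h2
    · rintro ⟨w, hw, rfl⟩
      refine ⟨Complex.exp_ne_zero w, ?_⟩
      rw [Complex.norm_exp, ← Real.lt_log_iff_exp_lt hε]
      exact hw
  rw [h1]
  exact (convex_halfSpace_re_lt (Real.log ε)).isPreconnected.image _
    Complex.continuous_exp.continuousOn

theorem pdisc_open (ε : ℝ) : IsOpen {s : ℂ | s ≠ 0 ∧ ‖s‖ < ε} :=
  isOpen_ne.inter (isOpen_lt continuous_norm continuous_const)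

theorem ev_ev {p : ℂ → Prop} (h : ∀ᶠ s in 𝓝[≠] (0 : ℂ), p s) :
    ∀ᶠ s in 𝓝[≠] (0 : ℂ), ∀ᶠ w in 𝓝 s, p w := by
  obtain ⟨ε, hε, h1⟩ := ev_iff.1 h
  rw [ev_iff]
  refine ⟨ε, hε, fun s hs hn => ?_⟩
  filter_upwards [(pdisc_open ε).mem_nhds ⟨hs, hn⟩] with w hw using h1 w hw.1 hw.2

/-- the order is finite -/
theorem order_fin {f : ℂ → ℂ} (hf : Hol f) (hne : ¬ ∀ᶠ s in 𝓝[≠] (0 : ℂ), f s = 0) :
    ∀ᶠ s in 𝓝[≠] (0 : ℂ), analyticOrderAt f s ≠ ⊤ := by
  obtain ⟨ε, hε, h⟩ := hf.exists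
  rw [ev_iff]
  refine ⟨ε, hε, fun s hs hn => ?_⟩
  have h1 : ∃ s₀, s₀ ≠ 0 ∧ ‖s₀‖ < ε ∧ f s₀ ≠ 0 := by
    by_contra hcon
    push Not at hcon
    exact hne (ev_iff.2 ⟨ε, hε, hcon⟩)
  obtain ⟨s₀, h2, h3, h4⟩ := h1
  have h5 : AnalyticOnNhd ℂ f {s : ℂ | s ≠ 0 ∧ ‖s‖ < ε} := fun w hw => h w hw.1 hw.2
  refine h5.analyticOrderAt_ne_top_of_isPreconnected (pdisc_conn hε) (x := s₀) ⟨h2, h3⟩
    ⟨hs, hn⟩ ?_
  rw [(analyticOrderAt_eq_zero).2 (Or.inr h4)]
  exact ENat.zero_ne_top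

theorem ord_sum {ι : Type} (S : Finset ι) {F : ι → ℂ → ℂ} {s : ℂ} {k : ℕ∞}
    (h : ∀ i ∈ S, k ≤ analyticOrderAt (F i) s) :
    k ≤ analyticOrderAt (fun w => ∑ i ∈ S, F i w) s := by
  classical
  induction S using Finset.induction_on with
  | empty =>
    have h1 : analyticOrderAt (fun w : ℂ => ∑ i ∈ (∅ : Finset ι), F i w) s = ⊤ := by
      rw [analyticOrderAt_eq_top]
      exact Eventually.of_forall fun w => Finset.sum_empty
    rw [h1]
    exact le_top
  | insert a S ha ih =>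
    have h1 : (fun w => ∑ i ∈ insert a S, F i w) = F a + fun w => ∑ i ∈ S, F i w := by
      funext w
      rw [Pi.add_apply, Finset.sum_insert ha]
    rw [h1]
    exact (le_min (h a (Finset.mem_insert_self _ _))
      (ih fun i hi => h i (Finset.mem_insert_of_mem hi))).trans le_analyticOrderAt_add

/-- the coefficients of the derivatives -/
def cD {ι : Type} (a E : ι → ℂ → ℂ) : ℕ → ι → ℂ → ℂ
  | 0 => a
  | j + 1 => fun i s => deriv (cD a E j i) s + deriv (E i) s * cD a E j i s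

theorem cD_mero {ι : Type} {a E : ι → ℂ → ℂ} (ha : ∀ i, MeromorphicAt (a i) 0)
    (hE : ∀ i, MeromorphicAt (E i) 0) (j : ℕ) (i : ι) : MeromorphicAt (cD a E j i) 0 := by
  induction j with
  | zero => exact ha i
  | succ j ih => exact ih.deriv.add ((hE i).deriv.mul ih)

theorem cD_deriv {ι : Type} (S : Finset ι) {a E : ι → ℂ → ℂ} (ha : ∀ i, MeromorphicAt (a i) 0)
    (hE : ∀ i, MeromorphicAt (E i) 0) {f : ℂ → ℂ}
    (hfe : ∀ᶠ s in 𝓝[≠] (0 : ℂ), f s = ∑ i ∈ S, a i s * Complex.exp (E i s)) (j : ℕ) :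
    ∀ᶠ s in 𝓝[≠] (0 : ℂ), (deriv^[j] f) s = ∑ i ∈ S, cD a E j i s * Complex.exp (E i s) := by
  induction j with
  | zero => exact hfe
  | succ j ih =>
    rw [Function.iterate_succ']
    have h1 : ∀ᶠ s in 𝓝[≠] (0 : ℂ), ∀ i ∈ S, AnalyticAt ℂ (cD a E j i) s ∧ AnalyticAt ℂ (E i) s := by
      rw [Finset.eventually_all]
      intro i _
      exact (cD_mero ha hE j i).hol.and (hE i).hol
    filter_upwards [ev_deriv ih, h1] with s h2 h3
    rw [Function.comp_apply, h2]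
    have h4 : HasDerivAt (fun s => ∑ i ∈ S, cD a E j i s * Complex.exp (E i s))
        (∑ i ∈ S, (deriv (cD a E j i) s * Complex.exp (E i s) +
          cD a E j i s * (Complex.exp (E i s) * deriv (E i) s))) s := by
      refine HasDerivAt.fun_sum fun i hi => ?_
      exact (h3 i hi).1.differentiableAt.hasDerivAt.mul
        (h3 i hi).2.differentiableAt.hasDerivAt.cexp
    rw [h4.deriv]
    refine Finset.sum_congr rfl fun i _ => ?_
    change _ = (deriv (cD a E j i) s + deriv (E i) s * cD a E j i s) * Complex.exp (E i s)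
    ring

/-- **the multiplicities are bounded** -/
theorem mult_bound {ι : Type} (S : Finset ι) {a E : ι → ℂ → ℂ} (ha : ∀ i, MeromorphicAt (a i) 0)
    (hE : ∀ i, MeromorphicAt (E i) 0) {f : ℂ → ℂ} (hf : Hol f)
    (hfe : ∀ᶠ s in 𝓝[≠] (0 : ℂ), f s = ∑ i ∈ S, a i s * Complex.exp (E i s))
    (hne : ¬ ∀ᶠ s in 𝓝[≠] (0 : ℂ), f s = 0) :
    ∃ N : ℕ, 0 < N ∧ ∀ᶠ s in 𝓝[≠] (0 : ℂ), analyticOrderAt f s ≤ N := by
  classical
  let v : Fin (S.card + 1) → (S → MG) := fun j i => mk (cD a E j i) (cD_mero ha hE j i)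
  have hdep : ¬ LinearIndependent MG v := by
    intro h
    have h1 := h.fintype_card_le_finrank
    rw [Module.finrank_fintype_fun_eq_card, Fintype.card_fin, Fintype.card_coe] at h1
    omega
  obtain ⟨g, hg, j₀, hj₀⟩ := Fintype.not_linearIndependent_iff.1 hdep
  choose gf hgf hgg using fun j => exists_rep (g j)
  -- the top index
  obtain ⟨J, hJ, hJm⟩ := Finset.exists_max_image (Finset.univ.filter fun j => g j ≠ 0)
    (fun j => j) ⟨j₀, Finset.mem_filter.2 ⟨Finset.mem_univ _, hj₀⟩⟩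
  have hgJ : g J ≠ 0 := (Finset.mem_filter.1 hJ).2
  have hgt : ∀ j, J < j → g j = 0 := by
    intro j hj
    by_contra h
    exact absurd (hJm j (Finset.mem_filter.2 ⟨Finset.mem_univ _, h⟩)) (not_le.2 hj)
  refine ⟨S.card + 1, Nat.succ_pos _, ?_⟩
  -- the equation
  have heq : ∀ᶠ s in 𝓝[≠] (0 : ℂ), ∑ j, gf j s * (deriv^[(j : ℕ)] f) s = 0 := by
    have h1 : ∀ i : S, ∀ᶠ s in 𝓝[≠] (0 : ℂ), ∑ j, gf j s * cD a E j i s = 0 := by
      intro i
      have h2 := congrFun hg i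
      rw [Finset.sum_apply] at h2
      have h3 : ∑ j, ti (⟨gf j, hgf j⟩ * ⟨cD a E j i, cD_mero ha hE j i⟩) = 0 := by
        refine Eq.trans ?_ h2
        refine Finset.sum_congr rfl fun j _ => ?_
        rw [map_mul, Pi.smul_apply, smul_eq_mul, hgg]
        rfl
      rw [← map_sum, ti_zero] at h3
      filter_upwards [h3] with s hs
      rw [← hs]
      have h4 : ((∑ j, (⟨gf j, hgf j⟩ * ⟨cD a E j i, cD_mero ha hE j i⟩ : FS) : FS) : ℂ → ℂ) s =
          ((Pi.evalRingHom (fun _ : ℂ => ℂ) s).comp FS.subtype)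
            (∑ j, (⟨gf j, hgf j⟩ * ⟨cD a E j i, cD_mero ha hE j i⟩ : FS)) := rfl
      rw [h4, map_sum]
      rfl
    have h2 : ∀ᶠ s in 𝓝[≠] (0 : ℂ), ∀ i : S, ∑ j, gf j s * cD a E j i s = 0 :=
      eventually_all.2 h1
    have h3 : ∀ᶠ s in 𝓝[≠] (0 : ℂ), ∀ j : Fin (S.card + 1),
        (deriv^[(j : ℕ)] f) s = ∑ i ∈ S, cD a E j i s * Complex.exp (E i s) :=
      eventually_all.2 fun j => cD_deriv S ha hE hfe j
    filter_upwards [h2, h3] with s h4 h5
    have h6 : ∑ j, gf j s * (deriv^[(j : ℕ)] f) s =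
        ∑ i ∈ S, (∑ j, gf j s * cD a E j i s) * Complex.exp (E i s) := by
      simp only [h5, Finset.mul_sum, Finset.sum_mul]
      rw [Finset.sum_comm]
      refine Finset.sum_congr rfl fun i _ => Finset.sum_congr rfl fun j _ => ?_
      ring
    rw [h6]
    refine Finset.sum_eq_zero fun i hi => ?_
    rw [h4 ⟨i, hi⟩, zero_mul]
  have hgJ' : ∀ᶠ s in 𝓝[≠] (0 : ℂ), gf J s ≠ 0 := by
    have h1 : mk (gf J) (hgf J) ≠ 0 := by rw [← hgg]; exact hgJ
    exact ti_ne h1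
  have hgt' : ∀ᶠ s in 𝓝[≠] (0 : ℂ), ∀ j, J < j → gf j s = 0 := by
    rw [eventually_all]
    intro j
    by_cases hj : J < j
    · have h1 := hgt j hj
      rw [hgg, mk_zero] at h1
      filter_upwards [h1] with s hs _ using hs
    · exact Eventually.of_forall fun s h => absurd h hj
  have hgan : ∀ᶠ s in 𝓝[≠] (0 : ℂ), ∀ j, AnalyticAt ℂ (gf j) s :=
    eventually_all.2 fun j => (hgf j).hol
  filter_upwards [ev_ev heq, hgJ', ev_ev hgt', hgan, order_fin hf hne, hf] with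
    s h1 h2 h3 h4 h5 h6
  by_contra hcon
  push Not at hcon
  obtain ⟨n, hn⟩ := ENat.ne_top_iff_exists.1 h5
  rw [← hn] at hcon
  have hn1 : S.card + 1 < n := by exact_mod_cast hcon
  have hJ1 : (J : ℕ) < S.card + 1 := J.2
  -- orders
  have hord : ∀ j : Fin (S.card + 1), analyticOrderAt (deriv^[(j : ℕ)] f) s = (n - j : ℕ) := by
    intro j
    have := j.2
    exact analyticOrderAt_iterated_deriv h6 hn (by omega) (by omega)
  have hand : ∀ j : ℕ, AnalyticAt ℂ (deriv^[j] f) s := fun j => h6.iterated_deriv j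
  have h7 : analyticOrderAt (fun w => gf J w * (deriv^[(J : ℕ)] f) w) s = (n - J : ℕ) := by
    have h8 := analyticOrderAt_mul (h4 J) (hand J)
    rw [(analyticOrderAt_eq_zero).2 (Or.inr h2), zero_add, hord J] at h8
    exact h8
  have h8 : ((n - J + 1 : ℕ) : ℕ∞) ≤ analyticOrderAt (fun w => ∑ j ∈ Finset.univ.erase J,
      -(gf j w * (deriv^[(j : ℕ)] f) w)) s := by
    refine ord_sum _ fun j hj => ?_
    have hne' : j ≠ J := Finset.ne_of_mem_erase hj
    have h9 : analyticOrderAt (fun w => -(gf j w * (deriv^[(j : ℕ)] f) w)) s =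
        analyticOrderAt (fun w => gf j w * (deriv^[(j : ℕ)] f) w) s := analyticOrderAt_neg
    rw [h9]
    rcases lt_or_gt_of_ne hne' with h10 | h10
    · have h11 : analyticOrderAt (fun w => gf j w * (deriv^[(j : ℕ)] f) w) s =
          analyticOrderAt (gf j) s + analyticOrderAt (deriv^[(j : ℕ)] f) s :=
        analyticOrderAt_mul (h4 j) (hand j)
      rw [h11, hord j]
      have h12 : ((n - J + 1 : ℕ) : ℕ∞) ≤ ((n - j : ℕ) : ℕ∞) := by
        have : (j : ℕ) < J := h10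
        exact_mod_cast (by omega)
      exact h12.trans le_add_self
    · have h11 : analyticOrderAt (fun w => gf j w * (deriv^[(j : ℕ)] f) w) s = ⊤ := by
        rw [analyticOrderAt_eq_top]
        filter_upwards [h3] with w hw
        rw [hw j h10, zero_mul]
      rw [h11]
      exact le_top
  have h9 : (fun w => gf J w * (deriv^[(J : ℕ)] f) w) =ᶠ[𝓝 s]
      (fun w => ∑ j ∈ Finset.univ.erase J, -(gf j w * (deriv^[(j : ℕ)] f) w)) := by
    filter_upwards [h1] with w hw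
    rw [← Finset.add_sum_erase _ _ (Finset.mem_univ J)] at hw
    rw [Finset.sum_neg_distrib]
    exact eq_neg_of_add_eq_zero_left hw
  rw [← analyticOrderAt_congr h9, h7] at h8
  have h10 : n - J + 1 ≤ n - J := by exact_mod_cast h8
  omega

/-- **the quotient** -/
theorem exists_quot {f G : ℂ → ℂ} (hf : Hol f) (hG : Hol G) {N : ℕ}
    (hord : ∀ᶠ s in 𝓝[≠] (0 : ℂ), analyticOrderAt f s ≤ N)
    (hz : ∀ᶠ s in 𝓝[≠] (0 : ℂ), f s = 0 → G s = 0) :
    ∃ h, Hol h ∧ ∀ᶠ s in 𝓝[≠] (0 : ℂ), G s ^ N = h s * f s := by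
  obtain ⟨ε, hε, h⟩ := ev_iff.1 ((hf.and hG).and (hord.and hz))
  set U : Set ℂ := {s : ℂ | s ≠ 0 ∧ ‖s‖ < ε} with hU
  have hfa : ∀ s ∈ U, AnalyticAt ℂ f s := fun s hs => (h s hs.1 hs.2).1.1
  have hGa : ∀ s ∈ U, AnalyticAt ℂ G s := fun s hs => (h s hs.1 hs.2).1.2
  set F : ℂ → ℂ := fun s => G s ^ N / f s with hF
  have hFm : MeromorphicOn F U := fun s hs =>
    ((hGa s hs).meromorphicAt.pow N).div (hfa s hs).meromorphicAt
  have hF0 : ∀ s ∈ U, 0 ≤ meromorphicOrderAt F s ∧ ∀ᶠ z in 𝓝[≠] s, f z ≠ 0 := by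
    intro s hs
    obtain ⟨-, h1, h2⟩ := h s hs.1 hs.2
    have hnt : analyticOrderAt f s ≠ ⊤ := ne_top_of_le_ne_top (ENat.natCast_ne_top N) h1
    obtain ⟨m, hm⟩ := ENat.ne_top_iff_exists.1 hnt
    rw [← hm] at h1
    have hmN : m ≤ N := by exact_mod_cast h1
    obtain ⟨g, hg1, hg2, hg3⟩ := (hfa s hs).analyticOrderAt_eq_natCast.1 hm.symm
    have hgne : ∀ᶠ z in 𝓝 s, g z ≠ 0 := hg1.continuousAt.eventually_ne hg2
    have hzs : ∀ᶠ z in 𝓝[≠] s, z ≠ s := self_mem_nhdsWithin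
    have hfne : ∀ᶠ z in 𝓝[≠] s, f z ≠ 0 := by
      filter_upwards [hg3.filter_mono nhdsWithin_le_nhds, hgne.filter_mono nhdsWithin_le_nhds,
        hzs] with z h3 h4 h5
      rw [h3, smul_eq_mul]
      exact mul_ne_zero (pow_ne_zero _ (sub_ne_zero.2 h5)) h4
    refine ⟨?_, hfne⟩
    have hk : ∃ k : ℂ → ℂ, AnalyticAt ℂ k s ∧ ∀ᶠ z in 𝓝 s, G z ^ N = (z - s) ^ m * k z := by
      have h3 : (m : ℕ∞) ≤ analyticOrderAt (fun z => G z ^ N) s := by
        rcases Nat.eq_zero_or_pos m with hm0 | hm0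
        · rw [hm0]
          exact zero_le
        · have hfs : f s = 0 := by
            by_contra hne
            have h4 := (analyticOrderAt_eq_zero (f := f) (z₀ := s)).2 (Or.inr hne)
            rw [← hm] at h4
            have : m = 0 := by exact_mod_cast h4
            omega
          have hGs := h2 hfs
          have h5 : 1 ≤ analyticOrderAt G s := by
            rw [Order.one_le_iff_ne_zero]
            exact (hGa s hs).analyticOrderAt_ne_zero.2 hGs
          have h6 : analyticOrderAt (fun z => G z ^ N) s = N • analyticOrderAt G s :=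
            analyticOrderAt_pow (hGa s hs) N
          rw [h6, nsmul_eq_mul]
          calc (m : ℕ∞) ≤ (N : ℕ∞) := by exact_mod_cast hmN
            _ = (N : ℕ∞) * 1 := (mul_one _).symm
            _ ≤ N * analyticOrderAt G s := mul_le_mul_right h5 _
      obtain ⟨k, hk1, hk2⟩ := (natCast_le_analyticOrderAt ((hGa s hs).pow N)).1 h3
      exact ⟨k, hk1, hk2⟩
    obtain ⟨k, hk1, hk2⟩ := hk
    have h3 : F =ᶠ[𝓝[≠] s] fun z => k z / g z := by
      filter_upwards [hg3.filter_mono nhdsWithin_le_nhds, hgne.filter_mono nhdsWithin_le_nhds,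
        hzs, hk2.filter_mono nhdsWithin_le_nhds] with z h3 h4 h5 h6
      have h7 : (z - s) ^ m ≠ 0 := pow_ne_zero _ (sub_ne_zero.2 h5)
      change G z ^ N / f z = k z / g z
      rw [h3, h6, smul_eq_mul, mul_div_mul_left _ _ h7]
    rw [meromorphicOrderAt_congr h3]
    exact (hk1.div hg1 hg2).meromorphicOrderAt_nonneg
  set q := toMeromorphicNFOn F U with hq
  have hqa : ∀ s ∈ U, AnalyticAt ℂ q s := by
    intro s hs
    refine ((meromorphicNFOn_toMeromorphicNFOn F U hs).meromorphicOrderAt_nonneg_iff_analyticAt).1 ?_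
    rw [meromorphicOrderAt_toMeromorphicNFOn hFm hs]
    exact (hF0 s hs).1
  refine ⟨q, ev_iff.2 ⟨ε, hε, fun s hs hn => hqa s ⟨hs, hn⟩⟩, ev_iff.2 ⟨ε, hε, fun s hs hn => ?_⟩⟩
  have hsU : s ∈ U := ⟨hs, hn⟩
  have h1 : (fun z => G z ^ N) =ᶠ[𝓝[≠] s] fun z => q z * f z := by
    filter_upwards [hFm.toMeromorphicNFOn_eq_self_on_nhdsNE hsU, (hF0 s hsU).2] with z h2 h3
    rw [hq, h2, hF]
    field_simp
  have h2 : ContinuousAt (fun z => G z ^ N) s := ((hGa s hsU).pow N).continuousAt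
  have h3 : ContinuousAt (fun z => q z * f z) s := ((hqa s hsU).mul (hfa s hsU)).continuousAt
  have h4 := (ContinuousAt.eventuallyEq_nhds_iff_eventuallyEq_nhdsNE h2 h3).1 h1
  exact h4.eq_of_nhds

end Pool.Agent.V9h68.Rt
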