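import Pool.Agent.V9h68.Rt6
import Pool.Agent.V9h68.Hn

/-!
The field of germs of meromorphic functions.
-/

set_option autoImplicit false

open Set Filter Topology

noncomputable section

namespace Pool.Agent.V9h68.Rt

/-- the functions which are meromorphic at the origin -/
def FS : Subring (ℂ → ℂ) where
  carrier := {f | MeromorphicAt f 0}
  mul_mem' := fun h h' => MeromorphicAt.mul h h'
  one_mem' := MeromorphicAt.const 1 0
  add_mem' := fun h h' => MeromorphicAt.add h h'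
  zero_mem' := MeromorphicAt.const 0 0
  neg_mem' := fun h => MeromorphicAt.neg h

/-- the functions which vanish near the origin -/
def JJ : Ideal FS where
  carrier := {f | ∀ᶠ s in 𝓝[≠] (0 : ℂ), (f : ℂ → ℂ) s = 0}
  add_mem' := fun {a b} ha hb => by
    change ∀ᶠ s in 𝓝[≠] (0 : ℂ), ((a + b : FS) : ℂ → ℂ) s = 0
    filter_upwards [ha, hb] with s h1 h2
    rw [Subring.coe_add, Pi.add_apply, h1, h2, add_zero]
  zero_mem' := by
    change ∀ᶠ s in 𝓝[≠] (0 : ℂ), ((0 : FS) : ℂ → ℂ) s = 0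
    exact Eventually.of_forall fun _ => rfl
  smul_mem' := fun c {a} ha => by
    change ∀ᶠ s in 𝓝[≠] (0 : ℂ), ((c * a : FS) : ℂ → ℂ) s = 0
    filter_upwards [ha] with s h1
    rw [Subring.coe_mul, Pi.mul_apply, h1, mul_zero]

theorem mem_JJ {f : FS} : f ∈ JJ ↔ ∀ᶠ s in 𝓝[≠] (0 : ℂ), (f : ℂ → ℂ) s = 0 := Iff.rfl

theorem ne_of_not_JJ {f : FS} (h : f ∉ JJ) : ∀ᶠ s in 𝓝[≠] (0 : ℂ), (f : ℂ → ℂ) s ≠ 0 := by
  have h1 : MeromorphicAt (f : ℂ → ℂ) 0 := f.2
  rcases h1.eventually_eq_zero_or_eventually_ne_zero with h2 | h2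
  · exact absurd h2 h
  · exact h2

instance JJ_max : JJ.IsMaximal := by
  rw [Ideal.isMaximal_iff]
  refine ⟨fun h => ?_, fun I f hI hf hfI => ?_⟩
  · have h1 : ∀ᶠ s in 𝓝[≠] (0 : ℂ), (1 : ℂ) = 0 := mem_JJ.1 h
    obtain ⟨s, hs⟩ := h1.exists
    exact one_ne_zero hs
  · let g : FS := ⟨(f : ℂ → ℂ)⁻¹, MeromorphicAt.inv f.2⟩
    have h1 : 1 - g * f ∈ JJ := by
      rw [mem_JJ]
      filter_upwards [ne_of_not_JJ hf] with s hs
      rw [AddSubgroupClass.coe_sub, Subring.coe_mul, Pi.sub_apply, Pi.mul_apply, Subring.coe_one,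
        Pi.one_apply]
      change 1 - ((f : ℂ → ℂ) s)⁻¹ * (f : ℂ → ℂ) s = 0
      rw [inv_mul_cancel₀ hs, sub_self]
    have h2 : (1 : FS) = (1 - g * f) + g * f := by ring
    rw [h2]
    exact I.add_mem (hI h1) (I.mul_mem_left _ hfI)

/-- the field of germs -/
abbrev MG : Type := FS ⧸ JJ

instance MG_field : Field MG := Ideal.Quotient.field JJ

/-- the germ of a function -/
def ti : FS →+* MG := Ideal.Quotient.mk JJ

theorem ti_surj : Function.Surjective ti := Ideal.Quotient.mk_surjective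

theorem ti_zero {f : FS} : ti f = 0 ↔ ∀ᶠ s in 𝓝[≠] (0 : ℂ), (f : ℂ → ℂ) s = 0 :=
  Ideal.Quotient.eq_zero_iff_mem

theorem ti_ne {f : FS} (h : ti f ≠ 0) : ∀ᶠ s in 𝓝[≠] (0 : ℂ), (f : ℂ → ℂ) s ≠ 0 :=
  ne_of_not_JJ fun h1 => h (ti_zero.2 h1)

theorem ti_eq {f g : FS} : ti f = ti g ↔ ∀ᶠ s in 𝓝[≠] (0 : ℂ), (f : ℂ → ℂ) s = (g : ℂ → ℂ) s := by
  rw [← sub_eq_zero, ← map_sub, ti_zero]
  constructor
  · intro h
    filter_upwards [h] with s hs
    rw [AddSubgroupClass.coe_sub, Pi.sub_apply] at hs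
    exact sub_eq_zero.1 hs
  · intro h
    filter_upwards [h] with s hs
    rw [AddSubgroupClass.coe_sub, Pi.sub_apply]
    exact sub_eq_zero.2 hs

/-- constants as functions -/
def cstF : ℂ →+* FS where
  toFun := fun c => ⟨fun _ => c, MeromorphicAt.const c 0⟩
  map_one' := rfl
  map_mul' := fun _ _ => rfl
  map_zero' := rfl
  map_add' := fun _ _ => rfl

/-- constants -/
def cst : ℂ →+* MG := ti.comp cstF

instance MG_char : CharZero MG := charZero_of_injective_ringHom cst.injective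

/-- the germ of a meromorphic function -/
def mk (f : ℂ → ℂ) (hf : MeromorphicAt f 0) : MG := ti ⟨f, hf⟩

theorem exists_rep (g : MG) : ∃ (f : ℂ → ℂ) (hf : MeromorphicAt f 0), g = mk f hf := by
  obtain ⟨f, rfl⟩ := ti_surj g
  exact ⟨f, f.2, rfl⟩

theorem mk_eq {f g : ℂ → ℂ} {hf : MeromorphicAt f 0} {hg : MeromorphicAt g 0} :
    mk f hf = mk g hg ↔ ∀ᶠ s in 𝓝[≠] (0 : ℂ), f s = g s := ti_eq

theorem mk_zero {f : ℂ → ℂ} {hf : MeromorphicAt f 0} :
    mk f hf = 0 ↔ ∀ᶠ s in 𝓝[≠] (0 : ℂ), f s = 0 := ti_zero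

theorem mk_add {f g : ℂ → ℂ} (hf : MeromorphicAt f 0) (hg : MeromorphicAt g 0) :
    mk f hf + mk g hg = mk (fun s => f s + g s) (hf.add hg) := rfl

theorem mk_mul {f g : ℂ → ℂ} (hf : MeromorphicAt f 0) (hg : MeromorphicAt g 0) :
    mk f hf * mk g hg = mk (fun s => f s * g s) (hf.mul hg) := rfl

theorem mk_inv {f : ℂ → ℂ} (hf : MeromorphicAt f 0) : (mk f hf)⁻¹ = mk (f⁻¹) hf.inv := by
  by_cases h : mk f hf = 0
  · rw [h, inv_zero]
    symm
    rw [mk_zero] at h ⊢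
    filter_upwards [h] with s hs
    rw [Pi.inv_apply, hs, inv_zero]
  · refine inv_eq_of_mul_eq_one_right ?_
    have h1 : (1 : MG) = mk (fun _ => 1) (MeromorphicAt.const 1 0) := rfl
    rw [h1, mk_mul, mk_eq]
    have h2 : ∀ᶠ s in 𝓝[≠] (0 : ℂ), f s ≠ 0 := ti_ne h
    filter_upwards [h2] with s hs
    rw [Pi.inv_apply, mul_inv_cancel₀ hs]

/-- the parameter -/
def T : MG := mk (fun s => s) (analyticAt_id.meromorphicAt)

theorem T_ne : T ≠ 0 := by
  intro h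
  have h1 : ∀ᶠ s in 𝓝[≠] (0 : ℂ), s = 0 := mk_zero.1 h
  have h2 : ∀ᶠ s in 𝓝[≠] (0 : ℂ), s ≠ 0 := self_mem_nhdsWithin
  obtain ⟨s, h3, h4⟩ := (h1.and h2).exists
  exact h4 h3

theorem T_pow (n : ℕ) : T ^ n = mk (fun s => s ^ n) ((analyticAt_id.pow n).meromorphicAt) := by
  unfold T mk
  rw [← map_pow]
  rfl

theorem T_zpow (n : ℤ) : T ^ n = mk (fun s => s ^ n) (analyticAt_id.meromorphicAt.zpow n) := by
  rcases n with n | n
  · simp only [Int.ofNat_eq_natCast, zpow_natCast]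
    exact T_pow n
  · rw [zpow_negSucc, T_pow, mk_inv, mk_eq]
    refine Eventually.of_forall fun s => ?_
    rw [Pi.inv_apply, zpow_negSucc]

/-- the normal form of a germ -/
theorem exists_form (g : MG) (hg : g ≠ 0) : ∃ (v : ℤ) (f : ℂ → ℂ) (hf : AnalyticAt ℂ f 0),
    f 0 ≠ 0 ∧ g = T ^ v * mk f hf.meromorphicAt := by
  obtain ⟨f, hf, rfl⟩ := exists_rep g
  have h1 : meromorphicOrderAt f 0 ≠ ⊤ := by
    intro h
    exact hg (mk_zero.2 (meromorphicOrderAt_eq_top_iff.1 h))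
  obtain ⟨v, hv⟩ := WithTop.ne_top_iff_exists.1 h1
  obtain ⟨g, hg1, hg2, hg3⟩ := (meromorphicOrderAt_eq_int_iff hf).1 hv.symm
  refine ⟨v, g, hg1, hg2, ?_⟩
  rw [T_zpow, mk_mul, mk_eq]
  filter_upwards [hg3] with s hs
  rw [hs, sub_zero, smul_eq_mul]

theorem tendsto_pw {e : ℕ} (he : 0 < e) : Tendsto (fun s : ℂ => s ^ e) (𝓝[≠] 0) (𝓝[≠] 0) := by
  rw [tendsto_nhdsWithin_iff]
  constructor
  · have h1 : Tendsto (fun s : ℂ => s ^ e) (𝓝 0) (𝓝 (0 ^ e)) := (continuous_pow e).tendsto 0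
    rw [zero_pow he.ne'] at h1
    exact h1.mono_left nhdsWithin_le_nhds
  · have h2 : ∀ᶠ s in 𝓝[≠] (0 : ℂ), s ≠ 0 := self_mem_nhdsWithin
    filter_upwards [h2] with s hs
    exact pow_ne_zero e hs

theorem mero_pw {e : ℕ} (he : 0 < e) {f : ℂ → ℂ} (hf : MeromorphicAt f 0) :
    MeromorphicAt (fun s => f (s ^ e)) 0 := by
  have h1 : MeromorphicAt f ((fun s : ℂ => s ^ e) 0) := by
    simp only [zero_pow he.ne']
    exact hf
  exact h1.comp_analyticAt (g := fun s : ℂ => s ^ e) (analyticAt_id.pow e)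

/-- the substitution `s ↦ s ^ e` for functions -/
def sbF (e : ℕ) (he : 0 < e) : FS →+* FS where
  toFun := fun f => ⟨fun s => (f : ℂ → ℂ) (s ^ e), mero_pw he f.2⟩
  map_one' := rfl
  map_mul' := fun _ _ => rfl
  map_zero' := rfl
  map_add' := fun _ _ => rfl

/-- the substitution `s ↦ s ^ e` -/
def sb (e : ℕ) (he : 0 < e) : MG →+* MG :=
  Ideal.Quotient.lift JJ (ti.comp (sbF e he)) fun f hf => by
    rw [RingHom.comp_apply, ti_zero]
    exact (tendsto_pw he).eventually (mem_JJ.1 hf)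

theorem sb_mk {e : ℕ} (he : 0 < e) {f : ℂ → ℂ} (hf : MeromorphicAt f 0) :
    sb e he (mk f hf) = mk (fun s => f (s ^ e)) (mero_pw he hf) := rfl

theorem sb_cst {e : ℕ} (he : 0 < e) (c : ℂ) : sb e he (cst c) = cst c := rfl

theorem sb_T {e : ℕ} (he : 0 < e) : sb e he T = T ^ e := by
  rw [T_pow]
  rfl

theorem sb_sb {e e' : ℕ} (he : 0 < e) (he' : 0 < e') (g : MG) :
    sb e' he' (sb e he g) = sb (e' * e) (Nat.mul_pos he' he) g := by
  obtain ⟨f, hf, rfl⟩ := exists_rep g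
  rw [sb_mk, sb_mk, sb_mk, mk_eq]
  exact Eventually.of_forall fun s => by rw [pow_mul]

/-- the derivative of a germ -/
def dM (g : MG) : MG := mk (deriv (exists_rep g).choose) (exists_rep g).choose_spec.choose.deriv

theorem dM_mk {f : ℂ → ℂ} (hf : MeromorphicAt f 0) : dM (mk f hf) = mk (deriv f) hf.deriv := by
  unfold dM
  rw [mk_eq]
  have h1 := (exists_rep (mk f hf)).choose_spec.choose_spec
  have h2 := mk_eq.1 h1
  filter_upwards [ev_deriv h2] with s hs using hs.symm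

theorem dM_add (g h : MG) : dM (g + h) = dM g + dM h := by
  obtain ⟨f, hf, rfl⟩ := exists_rep g
  obtain ⟨f', hf', rfl⟩ := exists_rep h
  rw [mk_add, dM_mk, dM_mk, dM_mk, mk_add, mk_eq]
  filter_upwards [hf.hol, hf'.hol] with s h1 h2
  exact (h1.differentiableAt.hasDerivAt.add h2.differentiableAt.hasDerivAt).deriv

theorem dM_mul (g h : MG) : dM (g * h) = g * dM h + h * dM g := by
  obtain ⟨f, hf, rfl⟩ := exists_rep g
  obtain ⟨f', hf', rfl⟩ := exists_rep h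
  rw [mk_mul, dM_mk, dM_mk, dM_mk, mk_mul, mk_mul, mk_add, mk_eq]
  filter_upwards [hf.hol, hf'.hol] with s h1 h2
  refine ((h1.differentiableAt.hasDerivAt.mul h2.differentiableAt.hasDerivAt).deriv).trans ?_
  ring

theorem dM_cst (c : ℂ) : dM (cst c) = 0 := by
  have h1 : cst c = mk (fun _ => c) (MeromorphicAt.const c 0) := rfl
  rw [h1, dM_mk, mk_zero]
  exact Eventually.of_forall fun s => deriv_const s c

theorem dM_T : dM T = 1 := by
  have h1 : (1 : MG) = mk (fun _ => 1) (MeromorphicAt.const 1 0) := rfl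
  rw [h1]
  unfold T
  rw [dM_mk, mk_eq]
  exact Eventually.of_forall fun s => deriv_id s

end Pool.Agent.V9h68.Rt
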