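import Pool.Agent.V9h68.Nv

/-!
Invariant sets: quantifiers guarded by dominated systems or by one equation.
-/

set_option autoImplicit false

open MvPolynomial Set Filter Cardinal

noncomputable section

namespace Pool.Agent.V9h68

open Pool.Agent.Y776 Pool.Agent.Y685
open Pool.Agent.TH813.Rel (MK mem_cl subset_cl rk_le_of_subset_cl cl_add cl_mul cl_inv cl_of_base)

theorem InvN.union {m : ℕ} {X Y : Set (Fin m → ℂ)} (hX : InvN m X) (hY : InvN m Y) :
    InvN m (X ∪ Y) := by
  obtain ⟨A, hA, h⟩ := hX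
  obtain ⟨B, hB, h'⟩ := hY
  refine ⟨A ∪ B, hA.union hB, fun K hK hAK w s hs hsX => ?_⟩
  rcases hsX with hsX | hsX
  · exact Or.inl (h K hK (Set.subset_union_left.trans hAK) w s hs hsX)
  · exact Or.inr (h' K hK (Set.subset_union_right.trans hAK) w s hs hsX)

theorem InvN.inter {m : ℕ} {X Y : Set (Fin m → ℂ)} (hX : InvN m X) (hY : InvN m Y) :
    InvN m (X ∩ Y) := by
  have h := (hX.compl.union hY.compl).compl
  rwa [Set.compl_union, compl_compl, compl_compl] at h

/-- the closure over the rational numbers as a field -/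
theorem cl_rat_countable {S : Set ℂ} (hS : S.Countable) : ((MK ℚ).closure S).Countable := by
  refine (dcl_countable hS).mono ?_
  intro z hz
  rw [mem_cl] at hz
  refine (dcl_closed S).alg z ?_
  rw [← mem_cl] at hz ⊢
  exact (MK ℚ).closure_subset_closure (subset_dcl S) hz

theorem transc_of_notin {S : Set ℂ} {y : ℂ} (hy : y ∉ (MK ℚ).closure S) :
    Transcendental (clF ℚ S) y := by
  rintro ⟨p, hp, hpz⟩
  apply hy
  refine cl_root (f := p.map (algebraMap (clF ℚ S) ℂ)) ?_ ?_ ?_
  · rw [Ne, Polynomial.map_eq_zero_iff (algebraMap (clF ℚ S) ℂ).injective]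
    exact hp
  · intro i
    rw [Polynomial.coeff_map]
    exact (p.coeff i).2
  · rw [Polynomial.eval_map_algebraMap]
    exact hpz

/-- a transcendental number can be moved by an automorphism -/
theorem exists_move {S : Set ℂ} (hS : S.Countable) {y : ℂ} (hy : y ∉ (MK ℚ).closure S) (c : ℕ) :
    ∃ σ : ℂ ≃+* ℂ, (∀ z ∈ (MK ℚ).closure S, σ z = z) ∧ σ y = y + c := by
  have hc : Countable (clF ℚ S) := (cl_rat_countable hS).to_subtype
  have hy' : y + c ∉ (MK ℚ).closure S := by
    intro h
    apply hy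
    have h1 : y + c - c ∈ clF ℚ S := sub_mem h (natCast_mem _ c)
    rwa [add_sub_cancel_right] at h1
  have h1 : AlgebraicIndependent (clF ℚ S) (fun _ : Unit => y) :=
    algebraicIndependent_unique_type_iff.2 (transc_of_notin hy)
  have h2 : AlgebraicIndependent (clF ℚ S) (fun _ : Unit => y + c) :=
    algebraicIndependent_unique_type_iff.2 (transc_of_notin hy')
  rw [algebraicIndependent_iff] at h1 h2
  obtain ⟨σ, h3, h4⟩ := aut_tuple (K := clF ℚ S) (ι := Unit) (algebraMap (clF ℚ S) ℂ)
    (algebraMap (clF ℚ S) ℂ) (fun _ => y) (fun _ => y + c) (fun P => by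
      constructor
      · intro h
        rw [h1 P h, eval₂_zero]
      · intro h
        rw [h2 P h, eval₂_zero])
  exact ⟨σ, fun z hz => h3 ⟨z, hz⟩, h4 ()⟩

/-- the solutions of a dominated system are in the closure -/
theorem dom_mem_dcl {m n : ℕ} {E : Set (Fin (m + (n + n)) → ℂ)} {A : Set ℂ} (hA : A.Countable)
    (hE : ∀ σ : ℂ ≃+* ℂ, (∀ c ∈ A, σ c = c) → ∀ s, s ∈ E → (fun i => σ (s i)) ∈ E)
    {s : Fin m → ℂ} {x y : Fin n → ℂ}
    (hfin : {y : Fin n → ℂ | (Fin.append s (Fin.append x y) : Fin (m + (n + n)) → ℂ) ∈ E}.Finite)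
    (hy : (Fin.append s (Fin.append x y) : Fin (m + (n + n)) → ℂ) ∈ E) (i : Fin n) :
    y i ∈ (MK ℚ).closure ((A ∪ range s) ∪ range x) := by
  by_contra hcon
  have hS : ((A ∪ range s) ∪ range x).Countable :=
    (hA.union (Set.countable_range s)).union (Set.countable_range x)
  choose σ h1 h2 using fun c => exists_move hS hcon c
  have hmem : ∀ c, (fun l => σ c (y l)) ∈ {y : Fin n → ℂ |
      (Fin.append s (Fin.append x y) : Fin (m + (n + n)) → ℂ) ∈ E} := by
    intro c
    have h3 := hE (σ c) (fun a ha => h1 c a (subset_cl _ (Or.inl (Or.inl ha)))) _ hy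
    have h4 : (fun l => σ c ((Fin.append s (Fin.append x y) : Fin (m + (n + n)) → ℂ) l)) =
        Fin.append s (Fin.append x fun l => σ c (y l)) := by
      funext l
      refine Fin.addCases (fun l => ?_) (fun l => ?_) l
      · rw [Fin.append_left, Fin.append_left]
        exact h1 c _ (subset_cl _ (Or.inl (Or.inr ⟨l, rfl⟩)))
      · rw [Fin.append_right, Fin.append_right]
        refine Fin.addCases (fun l => ?_) (fun l => ?_) l
        · rw [Fin.append_left, Fin.append_left]
          exact h1 c _ (subset_cl _ (Or.inr ⟨l, rfl⟩))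
        · rw [Fin.append_right, Fin.append_right]
    rw [h4] at h3
    exact h3
  have hinj : Function.Injective fun c : ℕ => (fun l => σ c (y l)) := by
    intro c c' hcc
    have h5 := congrFun hcc i
    simp only [h2] at h5
    exact_mod_cast add_left_cancel h5
  exact (Set.infinite_of_injective_forall_mem hinj hmem) hfin

/-- **dominated systems as guards** -/
theorem InvN.dominated {m n : ℕ} {E : Set (Fin (m + (n + n)) → ℂ)} (hE : AutInv (m + (n + n)) E)
    (hfin : ∀ (s : Fin m → ℂ) (x : Fin n → ℂ), {y : Fin n → ℂ |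
      (Fin.append s (Fin.append x y) : Fin (m + (n + n)) → ℂ) ∈ E}.Finite)
    {X : Set (Fin (m + n) → ℂ)} (hX : InvN (m + n) X) (κ : Cardinal.{0}) :
    InvN m {s | κ ≤ #({x : Fin n → ℂ |
      (Fin.append s (Fin.append x fun i => Complex.exp (x i)) : Fin (m + (n + n)) → ℂ) ∈ E ∧
      (Fin.append s x : Fin (m + n) → ℂ) ∈ X} : Set (Fin n → ℂ))} := by
  obtain ⟨A, hA, hEA⟩ := id hE
  let h : Fin (m + (n + n)) → (Fin (m + n) → ℂ) → ℂ :=
    Fin.addCases (fun i v => v (Fin.castAdd n i))
      (Fin.addCases (fun i v => v (Fin.natAdd m i)) fun i v => Complex.exp (v (Fin.natAdd m i)))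
  have hh : ∀ i, ExpT (m + n) (h i) := by
    intro i
    refine Fin.addCases (fun i => ?_) (fun i => ?_) i
    · simp only [h, Fin.addCases_left]
      exact ExpT.coord _
    · refine Fin.addCases (fun i => ?_) (fun i => ?_) i
      · simp only [h, Fin.addCases_right, Fin.addCases_left]
        exact ExpT.coord _
      · simp only [h, Fin.addCases_right]
        exact ExpT.exp _ (ExpT.coord _)
  have hv : ∀ (s : Fin m → ℂ) (x : Fin n → ℂ), (fun i => h i (Fin.append s x)) =
      Fin.append s (Fin.append x fun i => Complex.exp (x i)) := by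
    intro s x
    funext l
    refine Fin.addCases (fun l => ?_) (fun l => ?_) l
    · simp only [h, Fin.addCases_left, Fin.append_left]
    · rw [Fin.append_right]
      refine Fin.addCases (fun l => ?_) (fun l => ?_) l
      · simp only [h, Fin.addCases_right, Fin.addCases_left, Fin.append_right, Fin.append_left]
      · simp only [h, Fin.addCases_right, Fin.append_right]
  have h1 := ((InvN.preimage hh hE.invN).inter hX).bounded hA κ
  convert h1 using 1
  ext s
  have h2 : {x : Fin n → ℂ |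
      (Fin.append s (Fin.append x fun i => Complex.exp (x i)) : Fin (m + (n + n)) → ℂ) ∈ E ∧
      (Fin.append s x : Fin (m + n) → ℂ) ∈ X} =
      {x : Fin n → ℂ | (∀ i, x i ∈ dcl (A ∪ range s)) ∧
        (Fin.append s x : Fin (m + n) → ℂ) ∈ {v | (fun i => h i v) ∈ E} ∩ X} := by
    ext x
    simp only [Set.mem_ofPred_eq, Set.mem_inter_iff, hv]
    constructor
    · rintro ⟨hx1, hx2⟩
      refine ⟨(dcl_closed _).dom n x fun i => ?_, hx1, hx2⟩
      rw [← mem_cl]
      refine (MK ℚ).closure_subset_closure (Set.union_subset_union_left _ (subset_dcl _))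
        (dom_mem_dcl hA hEA (hfin s x) hx1 i)
    · rintro ⟨-, h3⟩
      exact h3
  simp only [Set.mem_ofPred_eq]
  rw [h2]

/-- the solutions of one equation are in the closure -/
theorem guard_mem_dcl {m : ℕ} (P : MvPolynomial (Fin m ⊕ Fin 2) ℂ) {s : Fin m → ℂ} {x : ℂ}
    (hne : ∃ x', eval (Sum.elim s ![x', Complex.exp x']) P ≠ 0)
    (hx : eval (Sum.elim s ![x, Complex.exp x]) P = 0) :
    x ∈ dcl (range (fun α => P.coeff α) ∪ range s) := by
  classical
  set C := dcl (range (fun α => P.coeff α) ∪ range s) with hC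
  have hCc : DomClosed C := dcl_closed _
  have hfield : (MK ℚ).closure C ⊆ C := fun z hz => hCc.alg z (mem_cl.1 hz)
  let L : Subfield ℂ := clF ℚ C
  have hL : ∀ z, z ∈ L ↔ z ∈ C := fun z => ⟨fun h => hfield h, fun h => subset_cl _ h⟩
  have hPL : ∀ α, P.coeff α ∈ L := fun α => (hL _).2 (subset_dcl _ (Or.inl ⟨α, rfl⟩))
  have hsL : ∀ i, s i ∈ L := fun i => (hL _).2 (subset_dcl _ (Or.inr ⟨i, rfl⟩))
  -- the polynomial in two variables
  let θ : MvPolynomial (Fin m ⊕ Fin 2) ℂ →+* Polynomial (Polynomial ℂ) :=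
    eval₂Hom (Polynomial.C.comp Polynomial.C) (Sum.elim (fun i => Polynomial.C (Polynomial.C (s i)))
      ![Polynomial.C Polynomial.X, Polynomial.X])
  have hθ : ∀ u v : ℂ, ((θ P).map (Polynomial.evalRingHom u)).eval v =
      eval (Sum.elim s ![u, v]) P := by
    intro u v
    have h1 : ((Polynomial.evalRingHom v).comp
        ((Polynomial.mapRingHom (Polynomial.evalRingHom u)).comp θ)) =
        (eval (Sum.elim s ![u, v]) : MvPolynomial (Fin m ⊕ Fin 2) ℂ →+* ℂ) := by
      apply MvPolynomial.ringHom_ext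
      · intro r
        simp [θ]
      · intro i
        rcases i with i | i
        · simp [θ]
        · fin_cases i
          · simp [θ]
          · simp [θ]
    exact RingHom.congr_fun h1 P
  have hθL : ∀ i j, ((θ P).coeff i).coeff j ∈ L := by
    have hgen : ∀ Q : MvPolynomial (Fin m ⊕ Fin 2) ℂ, (∀ α, Q.coeff α ∈ L) →
        ∀ i j, ((θ Q).coeff i).coeff j ∈ L := by
      intro Q hQ
      -- lift to `L`
      obtain ⟨Q', rfl⟩ : Q ∈ Set.range (MvPolynomial.map (algebraMap L ℂ) :
          MvPolynomial (Fin m ⊕ Fin 2) L → MvPolynomial (Fin m ⊕ Fin 2) ℂ) := by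
        rw [MvPolynomial.mem_range_map_iff_coeffs_subset]
        intro z hz
        rw [Finset.mem_coe, MvPolynomial.mem_coeffs_iff] at hz
        obtain ⟨m, -, rfl⟩ := hz
        exact ⟨⟨_, hQ m⟩, rfl⟩
      let θ' : MvPolynomial (Fin m ⊕ Fin 2) L →+* Polynomial (Polynomial L) :=
        eval₂Hom (Polynomial.C.comp Polynomial.C)
          (Sum.elim (fun i => Polynomial.C (Polynomial.C ⟨s i, hsL i⟩))
            ![Polynomial.C Polynomial.X, Polynomial.X])
      have h2 : θ.comp (MvPolynomial.map (algebraMap L ℂ)) =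
          (Polynomial.mapRingHom (Polynomial.mapRingHom (algebraMap L ℂ))).comp θ' := by
        apply MvPolynomial.ringHom_ext
        · intro r
          simp [θ, θ']
        · intro i
          rcases i with i | i
          · simp [θ, θ']
            rfl
          · fin_cases i
            · simp [θ, θ']
            · simp [θ, θ']
      intro i j
      have h3 := RingHom.congr_fun h2 Q'
      simp only [RingHom.comp_apply] at h3
      have h4 : θ (MvPolynomial.map (algebraMap L ℂ) Q') =
          (θ' Q').map (Polynomial.mapRingHom (algebraMap L ℂ)) := h3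
      rw [h4, Polynomial.coeff_map, Polynomial.coe_mapRingHom, Polynomial.coeff_map]
      exact (((θ' Q').coeff i).coeff j).2
    exact hgen P hPL
  by_contra hxC
  have hxL : x ∉ (MK ℚ).closure C := fun h => hxC (hfield h)
  -- some coefficient is not zero
  obtain ⟨x', hx'⟩ := hne
  rw [← hθ] at hx'
  have hne2 : θ P ≠ 0 := by
    rintro h0
    rw [h0, Polynomial.map_zero, Polynomial.eval_zero] at hx'
    exact hx' rfl
  obtain ⟨i, hi⟩ : ∃ i, (θ P).coeff i ≠ 0 := by
    by_contra hcon
    push Not at hcon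
    exact hne2 (Polynomial.ext fun i => by rw [hcon i, Polynomial.coeff_zero])
  have hval : ((θ P).coeff i).eval x ≠ 0 := by
    intro h0
    apply hxL
    refine cl_root hi (fun j => subset_cl _ ((hL _).1 (hθL i j))) h0
  have h5 : Complex.exp x ∈ (MK ℚ).closure (C ∪ range fun _ : Fin 1 => x) := by
    refine cl_root (f := (θ P).map (Polynomial.evalRingHom x)) ?_ ?_ ?_
    · intro h0
      have h6 := congrArg (fun p => p.coeff i) h0
      simp only [Polynomial.coeff_map, Polynomial.coe_evalRingHom, Polynomial.coeff_zero] at h6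
      exact hval h6
    · intro j
      rw [Polynomial.coeff_map, Polynomial.coe_evalRingHom, Polynomial.eval_eq_sum_range]
      refine sum_mem (S := clF ℚ (C ∪ range fun _ : Fin 1 => x)) fun l _ => mul_mem ?_
        (pow_mem (subset_cl _ (Or.inr ⟨0, rfl⟩)) _)
      exact subset_cl _ (Or.inl ((hL _).1 (hθL j l)))
    · rw [hθ]
      exact hx
  exact hxC (hCc.dom 1 (fun _ => x) (fun _ => mem_cl.1 h5) 0)

/-- evaluation and automorphisms -/
theorem eval_aut {m : ℕ} (P : MvPolynomial (Fin m ⊕ Fin 2) ℂ) {σ : ℂ ≃+* ℂ}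
    (hσ : ∀ α, σ (P.coeff α) = P.coeff α) (v : Fin m ⊕ Fin 2 → ℂ) :
    σ (eval v P) = eval (fun i => σ (v i)) P := by
  have h2 := eval₂_comp_left (σ : ℂ →+* ℂ) (RingHom.id ℂ) v P
  rw [← eval₂_id]
  have h3 : σ (eval₂ (RingHom.id ℂ) v P) = (σ : ℂ →+* ℂ) (eval₂ (RingHom.id ℂ) v P) := rfl
  rw [h3, h2, eval₂_eq, ← eval₂_id, eval₂_eq]
  refine Finset.sum_congr rfl fun α _ => ?_
  have h5 : ((σ : ℂ →+* ℂ).comp (RingHom.id ℂ)) (P.coeff α) = (RingHom.id ℂ) (P.coeff α) := hσ α
  rw [h5]
  rfl

theorem InvN.nonzero {m : ℕ} (P : MvPolynomial (Fin m ⊕ Fin 2) ℂ) :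
    InvN m {s | ∃ x', eval (Sum.elim s ![x', Complex.exp x']) P ≠ 0} := by
  refine ⟨range fun α => P.coeff α, Set.countable_range _, fun K hK hAK w s hs hsX => ?_⟩
  obtain ⟨G, G', hG, hG', hgen⟩ := w.gen hK
  have hopen : IsOpen {x : ℂ | eval (Sum.elim s ![x, Complex.exp x]) P ≠ 0} := by
    refine isOpen_ne_fun ?_ continuous_const
    refine (MvPolynomial.continuous_eval P).comp ?_
    refine continuous_pi fun i => ?_
    rcases i with i | i
    · exact continuous_const
    · fin_cases i
      · exact continuous_id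
      · exact Complex.continuous_exp
  obtain ⟨x, hx1, hx2⟩ := (hG.dense_compl ℝ).inter_open_nonempty _ hopen hsX
  obtain ⟨x', -, hx'⟩ := (hG'.dense_compl ℝ).inter_open_nonempty _ isOpen_univ ⟨0, trivial⟩
  obtain ⟨w1, h1, h2, h3⟩ := hgen x hx2 x' hx'
  refine ⟨x', ?_⟩
  have h4 : (Sum.elim (fun i => w.σ (s i)) ![x', Complex.exp x']) =
      fun i => w1.σ (Sum.elim s ![x, Complex.exp x] i) := by
    funext i
    rcases i with i | i
    · exact (h1.2 _ (hs i)).symm
    · fin_cases i
      · exact h3.symm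
      · change Complex.exp x' = w1.σ (Complex.exp x)
        rw [w1.wc.cexp hK.exp h2, h3]
  rw [h4, ← eval_aut P fun α => w1.wc.fix _ (hAK ⟨α, rfl⟩)]
  intro h5
  exact hx1 ((map_eq_zero w1.σ).1 h5)

/-- **one equation as a guard** -/
theorem InvN.guard {m : ℕ} (P : MvPolynomial (Fin m ⊕ Fin 2) ℂ) {X : Set (Fin (m + 1) → ℂ)}
    (hX : InvN (m + 1) X) (κ : Cardinal.{0}) :
    InvN m {s | κ ≤ #({x : ℂ | (∃ x', eval (Sum.elim s ![x', Complex.exp x']) P ≠ 0) ∧
      eval (Sum.elim s ![x, Complex.exp x]) P = 0 ∧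
      (Fin.snoc (α := fun _ => ℂ) s x : Fin (m + 1) → ℂ) ∈ X} : Set ℂ)} := by
  classical
  have hpre : InvN (m + 1) {v : Fin (m + 1) → ℂ | (fun i : Fin m => v i.castSucc) ∈
      {s : Fin m → ℂ | ∃ x', eval (Sum.elim s ![x', Complex.exp x']) P ≠ 0}} :=
    InvN.preimage (h := fun i v => v i.castSucc) (fun i => ExpT.coord _) (InvN.nonzero P)
  -- the zero set
  let Q : MvPolynomial (Fin (m + 2)) ℂ := rename (Sum.elim (fun i : Fin m => Fin.castAdd 2 i)
    (fun i => Fin.natAdd m i)) P
  let h : Fin (m + 2) → (Fin (m + 1) → ℂ) → ℂ :=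
    Fin.addCases (fun i v => v i.castSucc) (![fun v => v (Fin.last m),
      fun v => Complex.exp (v (Fin.last m))])
  have hh : ∀ i, ExpT (m + 1) (h i) := by
    intro i
    refine Fin.addCases (fun i => ?_) (fun i => ?_) i
    · simp only [h, Fin.addCases_left]
      exact ExpT.coord _
    · simp only [h, Fin.addCases_right]
      fin_cases i
      · exact ExpT.coord _
      · exact ExpT.exp _ (ExpT.coord _)
  have hQ : ∀ (s : Fin m → ℂ) (x : ℂ), eval (fun i => h i (Fin.snoc (α := fun _ => ℂ) s x)) Q =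
      eval (Sum.elim s ![x, Complex.exp x]) P := by
    intro s x
    rw [eval_rename]
    congr 2
    funext i
    rcases i with i | i
    · simp only [h, Function.comp_apply, Sum.elim_inl, Fin.addCases_left, Fin.snoc_castSucc]
    · simp only [h, Function.comp_apply, Sum.elim_inr, Fin.addCases_right]
      fin_cases i
      · simp
      · simp
  have hzero : InvN (m + 1) {v : Fin (m + 1) → ℂ | (fun i => h i v) ∈ {u | eval u Q = 0}} :=
    InvN.preimage hh (AutInv.zero Q).invN
  have h1 := ((hpre.inter hzero).inter hX).bounded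
    (A := range fun α => P.coeff α) (Set.countable_range _) κ
  convert h1 using 1
  ext s
  simp only [Set.mem_ofPred_eq]
  have hcard : #({x : ℂ | (∃ x', eval (Sum.elim s ![x', Complex.exp x']) P ≠ 0) ∧
      eval (Sum.elim s ![x, Complex.exp x]) P = 0 ∧
      (Fin.snoc (α := fun _ => ℂ) s x : Fin (m + 1) → ℂ) ∈ X} : Set ℂ) =
      #({x : Fin 1 → ℂ | (∀ i, x i ∈ dcl ((range fun α => P.coeff α) ∪ range s)) ∧
        (Fin.append s x : Fin (m + 1) → ℂ) ∈ ({v : Fin (m + 1) → ℂ |
          ∃ x', eval (Sum.elim (fun i : Fin m => v i.castSucc) ![x', Complex.exp x']) P ≠ 0} ∩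
          {v : Fin (m + 1) → ℂ | eval (fun i => h i v) Q = 0}) ∩ X} : Set (Fin 1 → ℂ)) := by
    refine Cardinal.mk_congr ?_
    refine (Equiv.subtypeEquiv (Equiv.funUnique (Fin 1) ℂ) ?_).symm
    intro x
    have e1 : (Fin.append s x : Fin (m + 1) → ℂ) = Fin.snoc (α := fun _ => ℂ) s (x 0) :=
      Fin.append_right_eq_snoc s x
    have e2 : (Equiv.funUnique (Fin 1) ℂ) x = x 0 := rfl
    simp only [Set.mem_inter_iff, Set.mem_ofPred_eq, e1, e2, hQ, Fin.snoc_castSucc]
    constructor
    · rintro ⟨-, ⟨⟨h2, h3⟩, h4⟩⟩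
      exact ⟨h2, h3, h4⟩
    · rintro ⟨h2, h3, h4⟩
      refine ⟨fun i => ?_, ⟨⟨h2, h3⟩, h4⟩⟩
      rw [Subsingleton.elim i 0]
      exact guard_mem_dcl P h2 h3
  rw [hcard]

end Pool.Agent.V9h68
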