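import Pool.Agent.V9h68.Cn
import Pool.Agent.V9h68.Cc
import Pool.Agent.V9h68.Nv2

/-!
Countable solution sets are in the closure.
-/

set_option autoImplicit false

open MvPolynomial Set Filter Topology Cardinal

noncomputable section

namespace Pool.Agent.V9h68

open Pool.Agent.Y776 Pool.Agent.Y685
open Pool.Agent.TH735.QM (zeros_countableOn)
open Pool.Agent.TH813.Rel (MK mem_cl subset_cl rk_le_of_subset_cl cl_add cl_mul cl_inv cl_of_base)

theorem ball_uncountable {r : ℝ} (hr : 0 < r) : ¬ (Metric.ball (0 : ℂ) r).Countable := by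
  intro h
  obtain ⟨z, hz, hz'⟩ := (h.dense_compl ℝ).inter_open_nonempty _ Metric.isOpen_ball
    ⟨0, Metric.mem_ball_self hr⟩
  exact hz' hz

/-- **the elements of a countable set of solutions are nondegenerate solutions** -/
theorem nonDeg_of_countable {F : Subfield ℂ} [Countable F] {n : ℕ} {x : Fin n → ℂ}
    {Z : Set (Fin n → ℂ)} (hZ : Z.Countable) (haut : ∀ (x' : Fin n → ℂ) (σ : ℂ ≃+* ℂ),
      (∀ a ∈ F, σ a = a) → (∀ i, σ (x i) = x' i) →
      (∀ i, σ (Complex.exp (x i)) = Complex.exp (x' i)) → x' ∈ Z) : NonDeg F x := by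
  classical
  by_contra hcon
  obtain ⟨γ, a, hγa, hγ0, hγx, hγQ⟩ := exists_leaf hcon
  -- a ball
  obtain ⟨r, hr, hball⟩ : ∃ r > 0, ∀ t ∈ Metric.ball (0 : ℂ) r, AnalyticAt ℂ γ t ∧
      γ t a = x a + t := by
    obtain ⟨r, hr, h⟩ := Metric.eventually_nhds_iff_ball.1
      (hγa.eventually_analyticAt.and hγx)
    exact ⟨r, hr, h⟩
  have hpc : IsPreconnected (Metric.ball (0 : ℂ) r) := (convex_ball _ _).isPreconnected
  have hQa : ∀ Q : MvPolynomial (Fin n ⊕ Fin n) F,
      AnalyticOnNhd ℂ (fun t => aeval (ep (γ t)) Q) (Metric.ball 0 r) := fun Q t ht =>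
    an_comp Q (hball t ht).1
  have hQ0 : ∀ Q : MvPolynomial (Fin n ⊕ Fin n) F, aeval (ep x) Q = 0 →
      ∀ t ∈ Metric.ball (0 : ℂ) r, aeval (ep (γ t)) Q = 0 := by
    intro Q hQ t ht
    exact (hQa Q).eqOn_zero_of_preconnected_of_eventuallyEq_zero hpc (Metric.mem_ball_self hr)
      (hγQ Q hQ) ht
  have hcount : Countable (MvPolynomial (Fin n ⊕ Fin n) F) := by
    rw [← Cardinal.mk_le_aleph0_iff]
    refine MvPolynomial.cardinalMk_le_max.trans ?_
    simp
  let Bad : Set ℂ := ⋃ Q : {Q : MvPolynomial (Fin n ⊕ Fin n) F // aeval (ep x) Q ≠ 0},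
    (Metric.ball 0 r ∩ {t | aeval (ep (γ t)) Q.1 = 0})
  have hBad : Bad.Countable := by
    refine Set.countable_iUnion fun Q => zeros_countableOn hpc (hQa Q.1)
      ⟨0, Metric.mem_ball_self hr, ?_⟩
    rw [hγ0]
    exact Q.2
  have hgood : ∀ t ∈ Metric.ball (0 : ℂ) r \ Bad, γ t ∈ Z := by
    intro t ht
    obtain ⟨σ, h1, h2⟩ := aut_tuple (K := F) (ι := Fin n ⊕ Fin n) (algebraMap F ℂ)
      (algebraMap F ℂ) (ep x) (ep (γ t)) (fun P => by
        constructor
        · exact fun h => hQ0 P h t ht.1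
        · intro h
          by_contra h3
          exact ht.2 (Set.mem_iUnion.2 ⟨⟨P, h3⟩, ht.1, h⟩))
    exact haut (γ t) σ (fun a ha => h1 ⟨a, ha⟩) (fun i => h2 (Sum.inl i)) fun i => h2 (Sum.inr i)
  have hinj : Set.InjOn γ (Metric.ball (0 : ℂ) r \ Bad) := by
    intro t ht t' ht' h
    have h1 := congrFun h a
    rw [(hball t ht.1).2, (hball t' ht'.1).2] at h1
    exact add_left_cancel h1
  have h1 : (Metric.ball (0 : ℂ) r \ Bad).Countable := by
    refine Set.countable_of_injective_of_countable_image hinj (hZ.mono ?_)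
    rintro _ ⟨t, ht, rfl⟩
    exact hgood t ht
  apply ball_uncountable hr
  refine (h1.union hBad).mono fun t ht => ?_
  by_cases h2 : t ∈ Bad
  · exact Or.inr h2
  · exact Or.inl ⟨ht, h2⟩

/-- closed sets as fields -/
theorem CrvClosed.cl {A C : Set ℂ} (hC : CrvClosed A C) : (MK ℚ).closure C ⊆ C := fun z hz =>
  hC.alg z (mem_cl.1 hz)

/-- **nondegenerate solutions in two unknowns are in the closure** -/
theorem CrvClosed.two {A C : Set ℂ} (hC : CrvClosed A C) {x : Fin 2 → ℂ} (hx : NonDeg C x) :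
    ∀ i, x i ∈ C := by
  classical
  let L : Subfield ℂ := clF ℚ C
  have hL : ∀ z, z ∈ L ↔ z ∈ C := fun z => ⟨fun h => hC.cl h, fun h => subset_cl _ h⟩
  have hLC : (L : Set ℂ) = C := Set.ext hL
  have hdown : ∀ (T : Set ℂ) (z : ℂ), z ∈ (MK L).closure T → z ∈ (MK ℚ).closure (C ∪ T) := by
    intro T z hz
    refine cl_up (k := L) (k' := ℚ) (fun a => ?_) (Set.subset_union_right.trans (subset_cl _)) hz
    exact subset_cl _ (Or.inl ((hL _).1 a.2))
  by_cases h1 : ∃ z, ∀ i, x i ∈ (MK L).closure {z}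
  · obtain ⟨z, hz⟩ := h1
    exact hC.crv 2 x z hx fun i => mem_cl.1 (hdown _ _ (hz i))
  -- the coordinates are independent
  push Not at h1
  have hind : (MK L).Indep (range x) ∧ (range x).encard = 2 := by
    have h01 : x 1 ∉ (MK L).closure {x 0} := by
      intro h2
      obtain ⟨i, hi⟩ := h1 (x 0)
      apply hi
      fin_cases i
      · exact subset_cl _ rfl
      · exact h2
    have h0 : x 0 ∉ (MK L).closure ∅ := by
      intro h2
      obtain ⟨i, hi⟩ := h1 (x 1)
      apply hi
      fin_cases i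
      · exact (MK L).closure_subset_closure (Set.empty_subset _) h2
      · exact subset_cl _ rfl
    have h2 := ((MK L).empty_indep.notMem_closure_iff (Set.mem_univ _)).1 h0
    rw [insert_empty_eq] at h2
    have h3 := (h2.1.notMem_closure_iff (Set.mem_univ _)).1 h01
    have h4 : range x = {x 1, x 0} := by
      ext z
      constructor
      · rintro ⟨i, rfl⟩
        fin_cases i
        · exact Or.inr rfl
        · exact Or.inl rfl
      · rintro (rfl | rfl)
        · exact ⟨1, rfl⟩
        · exact ⟨0, rfl⟩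
    rw [h4]
    exact ⟨h3.1, Set.encard_pair fun h => h3.2 h⟩
  have hxL : NonDeg L x := by
    rw [hLC]
    exact hx
  have hrk := jac_rank (F := L) hxL ⊥ (fun u hu => by
    rw [(Submodule.mem_bot ℚ).1 hu, Complex.exp_zero]
    exact ⟨L.zero_mem, L.one_mem⟩) (m := 2) (ι := id) (fun i => ⟨Pi.single i 1, by
      rw [Submodule.mem_bot, sub_eq_zero, Finset.sum_eq_single i]
      · rw [Pi.single_eq_same, one_smul]
        rfl
      · intro j _ hj
        rw [Pi.single_eq_of_ne hj, zero_smul]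
      · intro h
        exact absurd (Finset.mem_univ _) h⟩)
  have hdom : ∀ i, Complex.exp (x i) ∈ (MK L).closure (range x) := by
    intro i
    by_contra h2
    have h3 := (hind.1.notMem_closure_iff (Set.mem_univ _)).1 h2
    have h4 : insert (Complex.exp (x i)) (range x) ⊆ ET fun j => x (id j) := by
      refine Set.insert_subset (mem_ET_r _ i) ?_
      rintro _ ⟨j, rfl⟩
      exact mem_ET_l _ j
    have h5 := ((MK L).eRk_mono h4).trans hrk
    rw [h3.1.eRk_eq_encard, Set.encard_insert_of_notMem h3.2, hind.2] at h5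
    norm_num at h5
  exact hC.dom 2 x fun i => mem_cl.1 (hdown _ _ (hdom i))

end Pool.Agent.V9h68
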