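import Pool.Agent.V9h68.N3

/-!
Quantifiers over the solutions of systems in two unknowns, and of systems on curves.
-/

set_option autoImplicit false

open MvPolynomial Set Filter Topology Cardinal

noncomputable section

namespace Pool.Agent.V9h68

open Pool.Agent.Y776 Pool.Agent.Y685
open Pool.Agent.TH813.Rel (MK mem_cl subset_cl rk_le_of_subset_cl cl_add cl_mul cl_inv cl_of_base)

/-- the solutions `x` of `(s, x, e^x) ∈ E` -/
def Zs {m n : ℕ} (E : Set (Fin (m + (n + n)) → ℂ)) (s : Fin m → ℂ) : Set (Fin n → ℂ) :=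
  {x | (Fin.append s (Fin.append x fun i => Complex.exp (x i)) : Fin (m + (n + n)) → ℂ) ∈ E}

theorem Zs_map {m n : ℕ} {E : Set (Fin (m + (n + n)) → ℂ)} {σ : ℂ ≃+* ℂ}
    (hE : ∀ s, s ∈ E → (fun i => σ (s i)) ∈ E) {s s' : Fin m → ℂ} {x x' : Fin n → ℂ}
    (hs : ∀ i, σ (s i) = s' i) (hx : ∀ i, σ (x i) = x' i)
    (he : ∀ i, σ (Complex.exp (x i)) = Complex.exp (x' i)) (h : x ∈ Zs E s) : x' ∈ Zs E s' := by
  have h1 := hE _ h
  have h2 : (fun i => σ ((Fin.append s (Fin.append x fun i => Complex.exp (x i)) :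
      Fin (m + (n + n)) → ℂ) i)) = Fin.append s' (Fin.append x' fun i => Complex.exp (x' i)) := by
    funext l
    refine Fin.addCases (fun l => ?_) (fun l => ?_) l
    · rw [Fin.append_left, Fin.append_left, hs]
    · rw [Fin.append_right, Fin.append_right]
      refine Fin.addCases (fun l => ?_) (fun l => ?_) l
      · rw [Fin.append_left, Fin.append_left, hx]
      · rw [Fin.append_right, Fin.append_right, he]
  rw [h2] at h1
  exact h1

/-- countable sets of solutions consist of nondegenerate solutions -/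
theorem Zs_nonDeg {m n : ℕ} {E : Set (Fin (m + (n + n)) → ℂ)} {A : Set ℂ} (hA : A.Countable)
    (hE : ∀ σ : ℂ ≃+* ℂ, (∀ c ∈ A, σ c = c) → ∀ s, s ∈ E → (fun i => σ (s i)) ∈ E)
    {s : Fin m → ℂ} (hc : (Zs E s).Countable) {x : Fin n → ℂ} (hx : x ∈ Zs E s) :
    NonDeg ((MK ℚ).closure (A ∪ range s)) x := by
  have : Countable (clF ℚ (A ∪ range s)) :=
    (cl_rat_countable (hA.union (Set.countable_range s))).to_subtype
  have h1 : NonDeg (clF ℚ (A ∪ range s)) x := by
    refine nonDeg_of_countable hc fun x' σ hσ h1 h2 => ?_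
    refine Zs_map (hE σ fun c hc => hσ c (subset_cl _ (Or.inl hc))) (s := s) (fun i => ?_) h1 h2 hx
    exact hσ _ (subset_cl _ (Or.inr ⟨i, rfl⟩))
  exact h1

theorem cl_sub_ccl (A S : Set ℂ) : (MK ℚ).closure (A ∪ S) ⊆ ccl A S := fun _ hz =>
  (ccl_closed A S).alg _ (mem_cl.1 ((MK ℚ).closure_subset_closure (subset_ccl A S) hz))

/-- countable sets of solutions in two unknowns are in the closure -/
theorem Zs_two {m : ℕ} {E : Set (Fin (m + (2 + 2)) → ℂ)} {A : Set ℂ} (hA : A.Countable)
    (hE : ∀ σ : ℂ ≃+* ℂ, (∀ c ∈ A, σ c = c) → ∀ s, s ∈ E → (fun i => σ (s i)) ∈ E)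
    {s : Fin m → ℂ} (hc : (Zs E s).Countable) {x : Fin 2 → ℂ} (hx : x ∈ Zs E s) (i : Fin 2) :
    x i ∈ ccl A (range s) :=
  (ccl_closed _ _).two ((Zs_nonDeg hA hE hc hx).mono (cl_sub_ccl _ _)) i

/-- **uncountable sets of solutions in two unknowns** -/
theorem two_big {K : Subfield ℂ} (hK : GD K) {m : ℕ} {E : Set (Fin (m + (2 + 2)) → ℂ)}
    (hE : ∀ σ : ℂ ≃+* ℂ, (∀ c ∈ K, σ c = c) → ∀ s, s ∈ E → (fun i => σ (s i)) ∈ E) (w : Wt K)
    {s : Fin m → ℂ} (hs : ∀ i, s i ∈ w.V) (hunc : ¬ (Zs E s).Countable) :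
    #ℂ ≤ #(Zs E fun i => w.σ (s i)) := by
  classical
  obtain ⟨G, G', hG, hG', hgen⟩ := w.gen hK
  obtain ⟨x, hx, i, hi⟩ : ∃ x ∈ Zs E s, ∃ i, x i ∉ G := by
    by_contra hcon
    push Not at hcon
    apply hunc
    have hc : (Set.pi univ fun _ : Fin 2 => G).Countable := Set.countable_univ_pi fun _ => hG
    refine hc.mono ?_
    intro x hx i _
    exact hcon x hx i
  have hmain : ∀ y' ∉ G', ∃ x' ∈ Zs E fun i => w.σ (s i), x' i = y' := by
    intro y' hy'
    obtain ⟨w1, hw1, hxi, hσxi⟩ := hgen (x i) hi y' hy'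
    -- the other coordinate
    obtain ⟨j, hj⟩ : ∃ j : Fin 2, ∀ l, l = i ∨ l = j := by
      fin_cases i
      · exact ⟨1, fun l => by fin_cases l <;> simp⟩
      · exact ⟨0, fun l => by fin_cases l <;> simp⟩
    obtain ⟨σ2, h1, h2, h3, h4⟩ : ∃ σ2 : ℂ ≃+* ℂ, (∀ a ∈ K, σ2 a = a) ∧
        (∀ z ∈ w1.V, σ2 z = w1.σ z) ∧ σ2 (Complex.exp (x i)) = Complex.exp (σ2 (x i)) ∧
        σ2 (Complex.exp (x j)) = Complex.exp (σ2 (x j)) := by
      have hW : ∀ w2 : Wt K, w1.Le w2 → x j ∈ w2.V → ∃ σ2 : ℂ ≃+* ℂ, (∀ a ∈ K, σ2 a = a) ∧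
        (∀ z ∈ w1.V, σ2 z = w1.σ z) ∧ σ2 (Complex.exp (x i)) = Complex.exp (σ2 (x i)) ∧
        σ2 (Complex.exp (x j)) = Complex.exp (σ2 (x j)) := fun w2 h5 h6 =>
        ⟨w2.σ, w2.wc.fix, h5.2, w2.wc.cexp hK.exp (h5.1 hxi), w2.wc.cexp hK.exp h6⟩
      by_cases hc1 : x j ∈ (MK K).closure (ET w1.b)
      · obtain ⟨w2, h5, h6⟩ := w1.alg hK hc1
        exact hW w2 h5 h6
      by_cases hc2 : Complex.exp (x j) ∈ (MK K).closure (ET w1.b ∪ range fun _ : Fin 1 => x j)
      · obtain ⟨w2, h5, h6⟩ := w1.dom hK (fun _ : Fin 1 => x j) fun _ => hc2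
        exact hW w2 h5 (h6 0)
      have hind : AlgebraicIndependent (clF K (ET w1.b)) ![x j, Complex.exp (x j)] := by
        apply indep_crit0
        intro l hl
        have hbase : ∀ T : Set ℂ, (MK (clF K (ET w1.b))).closure T ⊆
            (MK K).closure (ET w1.b ∪ T) := by
          intro T z hz
          refine cl_up (k := clF K (ET w1.b)) (k' := K) (fun a => ?_)
            (Set.subset_union_right.trans (subset_cl _)) hz
          exact (MK K).closure_subset_closure Set.subset_union_left a.2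
        have h0 : x j ∉ (MK (clF K (ET w1.b))).closure ∅ := by
          intro h
          have h5 := hbase _ h
          rw [Set.union_empty] at h5
          exact hc1 h5
        have h01 : Complex.exp (x j) ∉ (MK (clF K (ET w1.b))).closure {x j} := by
          intro h
          have h5 := hbase _ h
          rw [Set.range_const] at hc2
          exact hc2 h5
        fin_cases l
        · have e1 : (![x j, Complex.exp (x j)] : Fin 2 → ℂ) '' {0}ᶜ = {Complex.exp (x j)} := by
            ext z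
            constructor
            · rintro ⟨l, hl, rfl⟩
              fin_cases l
              · exact absurd rfl hl
              · rfl
            · rintro rfl
              exact ⟨1, by simp, rfl⟩
          have h5 : x j ∈ (MK (clF K (ET w1.b))).closure {Complex.exp (x j)} := by
            have h6 := hl
            simp only [Fin.zero_eta] at h6
            rw [e1] at h6
            exact h6
          have h6 : Complex.exp (x j) ∈ (MK (clF K (ET w1.b))).closure (insert (x j) ∅) \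
              (MK (clF K (ET w1.b))).closure ∅ :=
            Matroid.closure_exchange ⟨by rwa [insert_empty_eq], h0⟩
          rw [insert_empty_eq] at h6
          exact h01 h6.1
        · have e1 : (![x j, Complex.exp (x j)] : Fin 2 → ℂ) '' {1}ᶜ = {x j} := by
            ext z
            constructor
            · rintro ⟨l, hl, rfl⟩
              fin_cases l
              · rfl
              · exact absurd rfl hl
            · rintro rfl
              exact ⟨0, by simp, rfl⟩
          have h6 := hl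
          simp only [Fin.mk_one] at h6
          rw [e1] at h6
          exact h01 h6
      -- a generic element on the other side
      obtain ⟨G2, hG2, hG2S⟩ := exists_GD (S := (K : Set ℂ) ∪ ET w1.b')
        (hK.cnt.union (ET_countable _))
      obtain ⟨z', -, hz'⟩ := (hG2.cnt.dense_compl ℝ).inter_open_nonempty _ isOpen_univ
        ⟨0, trivial⟩
      have hind' : AlgebraicIndependent (clF K (ET w1.b')) ![z', Complex.exp z'] := by
        have h5 := indep_pair hG2.toGF (x := z') hz' one_pos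
        simp only [Nat.cast_one, div_one] at h5
        have hcl : (MK K).closure (ET w1.b') ⊆ G2 :=
          cl_le_alg (fun z hz => hG2S (Or.inl hz)) hG2.alg fun z hz => hG2S (Or.inr hz)
        exact indep_base (K := clF K (ET w1.b')) (K' := G2)
          { toFun := fun z => ⟨z, hcl z.2⟩
            map_one' := rfl
            map_mul' := fun _ _ => rfl
            map_zero' := rfl
            map_add' := fun _ _ => rfl } (fun z => rfl) h5
      have hσe : ∀ i, w1.σ (Complex.exp (w1.b i)) = Complex.exp (w1.b' i) := by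
        intro i
        have h4 := w1.wc.exp (Pi.single i 1)
        rw [lc_single, lc_single, one_smul, one_smul] at h4
        exact h4
      have hETσ : w1.σ '' ET w1.b = ET w1.b' := image_ET (σ := (w1.σ : ℂ →+* ℂ)) w1.wc.map hσe
      obtain ⟨σ2, h5, h6⟩ := indep_aut (K := K) hK.cnt w1.wc.fix (ET_countable w1.b) hETσ
        hind hind'
      have hj0 : σ2 (x j) = z' := h6 0
      have hj1 : σ2 (Complex.exp (x j)) = Complex.exp z' := h6 1
      have hcl := Vs_cl hK.exp hxi
      refine ⟨σ2, fun a ha => ?_, fun z hz => h5 z (Vs_cl hK.exp hz).1, ?_, by rw [hj0, hj1]⟩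
      · rw [h5 a (cl_of_base (k := K) _ (⟨a, ha⟩ : K)), w1.wc.fix a ha]
      · rw [h5 _ hcl.1, h5 _ hcl.2]
        exact w1.wc.cexp hK.exp hxi
    refine ⟨fun l => σ2 (x l), Zs_map (hE σ2 h1) (fun l => ?_) (fun l => rfl) (fun l => ?_) hx, ?_⟩
    · rw [h2 _ (hw1.1 (hs l)), hw1.2 _ (hs l)]
    · rcases hj l with rfl | rfl
      · exact h3
      · exact h4
    · rw [← hσxi]
      exact h2 _ hxi
  choose f hf1 hf2 using hmain
  have h2 : #(G'ᶜ : Set ℂ) = #ℂ := by
    have h3 : #G' < #ℂ := by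
      refine lt_of_le_of_lt (Cardinal.le_aleph0_iff_set_countable.2 hG') ?_
      rw [Cardinal.mk_complex]
      exact Cardinal.aleph0_lt_continuum
    rw [Cardinal.mk_compl_of_infinite _ h3]
  rw [← h2]
  refine Cardinal.mk_le_of_injective (f := fun y : (G'ᶜ : Set ℂ) =>
    (⟨f y.1 y.2, hf1 y.1 y.2⟩ : Zs E fun i => w.σ (s i))) ?_
  intro y y' hyy
  have h3 := congrFun (congrArg Subtype.val hyy) i
  simp only [hf2] at h3
  exact Subtype.ext h3

theorem not_countable_of_le {Z : Set (Fin 2 → ℂ)} (h : #ℂ ≤ #Z) : ¬ Z.Countable := by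
  intro hc
  have h1 := h.trans (Cardinal.le_aleph0_iff_set_countable.2 hc)
  rw [Cardinal.mk_complex] at h1
  exact absurd Cardinal.aleph0_lt_continuum (not_lt.2 h1)

/-- countability of sets of solutions in two unknowns is invariant -/
theorem InvN.cnt2 {m : ℕ} {E : Set (Fin (m + (2 + 2)) → ℂ)} (hE : AutInv (m + (2 + 2)) E) :
    InvN m {s | (Zs E s).Countable} := by
  obtain ⟨A, hA, hEA⟩ := hE
  refine ⟨A, hA, fun K hK hAK w s hs hsX => ?_⟩
  by_contra hcon
  have h1 := two_big hK (fun σ hσ => hEA σ fun c hc => hσ c (hAK hc)) w.symm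
    (s := fun i => w.σ (s i)) (fun i => w.mapV (hs i)) hcon
  simp only [Wt.symm_σ] at h1
  exact not_countable_of_le h1 hsX

/-- the substitution of the exponentials -/
theorem InvN.subst {m n : ℕ} {E : Set (Fin (m + (n + n)) → ℂ)} (hE : InvN (m + (n + n)) E) :
    InvN (m + n) {v | (fun i => v (Fin.natAdd m i)) ∈ Zs E fun i => v (Fin.castAdd n i)} := by
  let h : Fin (m + (n + n)) → (Fin (m + n) → ℂ) → ℂ :=
    Fin.addCases (fun i v => v (Fin.castAdd n i))
      (Fin.addCases (fun i v => v (Fin.natAdd m i)) fun i v => Complex.exp (v (Fin.natAdd m i)))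
  have hh : ∀ i, ExpT (m + n) (h i) := by
    intro i
    refine Fin.addCases (fun i => ?_) (fun i => ?_) i
    · simp only [h, Fin.addCases_left]
      exact ExpT.coord _
    · refine Fin.addCases (fun i => ?_) (fun i => ?_) i
      · simp only [h, Fin.addCases_right, Fin.addCases_left]
        exact ExpT.coord _
      · simp only [h, Fin.addCases_right]
        exact ExpT.exp _ (ExpT.coord _)
  have hv : ∀ v : Fin (m + n) → ℂ, (fun i => h i v) =
      Fin.append (fun i => v (Fin.castAdd n i)) (Fin.append (fun i => v (Fin.natAdd m i))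
        fun i => Complex.exp (v (Fin.natAdd m i))) := by
    intro v
    funext l
    refine Fin.addCases (fun l => ?_) (fun l => ?_) l
    · simp only [h, Fin.addCases_left, Fin.append_left]
    · rw [Fin.append_right]
      refine Fin.addCases (fun l => ?_) (fun l => ?_) l
      · simp only [h, Fin.addCases_right, Fin.addCases_left, Fin.append_left]
      · simp only [h, Fin.addCases_right, Fin.append_right]
  have h1 := InvN.preimage hh hE
  simp only [hv] at h1
  exact h1

theorem InvN.left {m n : ℕ} {N : Set (Fin m → ℂ)} (hN : InvN m N) :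
    InvN (m + n) {v | (fun i => v (Fin.castAdd n i)) ∈ N} :=
  InvN.preimage (h := fun i v => v (Fin.castAdd n i)) (fun i => ExpT.coord _) hN

/-- **systems in two unknowns** -/
theorem InvN.twoC {m : ℕ} {E : Set (Fin (m + (2 + 2)) → ℂ)} (hE : AutInv (m + (2 + 2)) E)
    {X : Set (Fin (m + 2) → ℂ)} (hX : InvN (m + 2) X) (κ : Cardinal.{0}) :
    InvN m {s | κ ≤ #({x : Fin 2 → ℂ | (Zs E s).Countable ∧ x ∈ Zs E s ∧
      (Fin.append s x : Fin (m + 2) → ℂ) ∈ X} : Set (Fin 2 → ℂ))} := by
  obtain ⟨A, hA, hEA⟩ := id hE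
  have h1 := ((InvN.left (InvN.cnt2 hE)).inter ((InvN.subst hE.invN).inter hX)).boundedC hA κ
  convert h1 using 1
  ext s
  have h2 : {x : Fin 2 → ℂ | (Zs E s).Countable ∧ x ∈ Zs E s ∧
      (Fin.append s x : Fin (m + 2) → ℂ) ∈ X} =
      {x : Fin 2 → ℂ | (∀ i, x i ∈ ccl A (range s)) ∧ (Fin.append s x : Fin (m + 2) → ℂ) ∈
        {v : Fin (m + 2) → ℂ | (fun i => v (Fin.castAdd 2 i)) ∈ {s | (Zs E s).Countable}} ∩
        ({v : Fin (m + 2) → ℂ |
          (fun i => v (Fin.natAdd m i)) ∈ Zs E fun i => v (Fin.castAdd 2 i)} ∩ X)} := by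
    ext x
    simp only [Set.mem_ofPred_eq, Set.mem_inter_iff, Fin.append_left, Fin.append_right]
    constructor
    · rintro ⟨h3, h4, h5⟩
      exact ⟨fun i => Zs_two hA hEA h3 h4 i, h3, h4, h5⟩
    · rintro ⟨-, h3⟩
      exact h3
  rw [Set.mem_ofPred_eq, Set.mem_ofPred_eq, h2]

/-- **the unguarded quantifier over two unknowns** -/
theorem InvN.twoU {m : ℕ} {E : Set (Fin (m + (2 + 2)) → ℂ)} (hE : AutInv (m + (2 + 2)) E)
    (κ : Cardinal.{0}) : InvN m {s | κ ≤ #(Zs E s)} := by
  have hU : InvN (m + 2) (Set.univ : Set (Fin (m + 2) → ℂ)) :=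
    ⟨∅, Set.countable_empty, fun _ _ _ _ _ _ _ => trivial⟩
  obtain ⟨B, hB, hBi⟩ := InvN.twoC hE hU κ
  obtain ⟨A, hA, hEA⟩ := hE
  refine ⟨A ∪ B, hA.union hB, fun K hK hAK w s hs hsX => ?_⟩
  have hsX' : κ ≤ #(Zs E s) := hsX
  by_cases hc : (Zs E s).Countable
  · have h1 := hBi K hK (Set.subset_union_right.trans hAK) w s hs (by
      refine le_trans hsX' (le_of_eq ?_)
      congr 1
      have : {x : Fin 2 → ℂ | (Zs E s).Countable ∧ x ∈ Zs E s ∧
          (Fin.append s x : Fin (m + 2) → ℂ) ∈ Set.univ} = Zs E s := by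
        ext x
        exact ⟨fun h => h.2.1, fun h => ⟨hc, h, trivial⟩⟩
      rw [this])
    refine le_trans h1 (Cardinal.mk_le_mk_of_subset ?_)
    exact fun x hx => hx.2.1
  · have h1 := two_big hK (fun σ hσ => hEA σ fun c hc => hσ c (hAK (Or.inl hc))) w hs hc
    refine le_trans hsX' (le_trans ?_ h1)
    have h2 : #(Fin 2 → ℂ) = #ℂ := by
      have h3 : (ℵ₀ : Cardinal) ≤ #ℂ := by
        rw [Cardinal.mk_complex]
        exact Cardinal.aleph0_lt_continuum.le
      rw [← Cardinal.power_def, Cardinal.mk_fin]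
      exact Cardinal.power_nat_eq h3 (by norm_num)
    rw [← h2]
    exact Cardinal.mk_set_le _

/-- solutions on curves are algebraic over the first coordinate -/
theorem curve_mem {m n : ℕ} {E : Set (Fin (m + ((n + 1) + (n + 1))) → ℂ)} {A : Set ℂ}
    (hA : A.Countable)
    (hE : ∀ σ : ℂ ≃+* ℂ, (∀ c ∈ A, σ c = c) → ∀ s, s ∈ E → (fun i => σ (s i)) ∈ E)
    {s : Fin m → ℂ} {x : Fin (n + 1) → ℂ}
    (hfin : {x' : Fin (n + 1) → ℂ | x' 0 = x 0 ∧ ∃ y : Fin (n + 1) → ℂ,
      (Fin.append s (Fin.append x' y) : Fin (m + ((n + 1) + (n + 1))) → ℂ) ∈ E}.Finite)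
    (hx : x ∈ Zs E s) (i : Fin (n + 1)) :
    x i ∈ (MK ℚ).closure ((A ∪ range s) ∪ {x 0}) := by
  by_contra hcon
  have hS : ((A ∪ range s) ∪ {x 0}).Countable :=
    (hA.union (Set.countable_range s)).union (Set.countable_singleton _)
  choose σ h1 h2 using fun c => exists_move hS hcon c
  have hmem : ∀ c, (fun l => σ c (x l)) ∈ {x' : Fin (n + 1) → ℂ | x' 0 = x 0 ∧
      ∃ y : Fin (n + 1) → ℂ,
      (Fin.append s (Fin.append x' y) : Fin (m + ((n + 1) + (n + 1))) → ℂ) ∈ E} := by
    intro c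
    refine ⟨h1 c _ (subset_cl _ (Or.inr rfl)), fun l => σ c (Complex.exp (x l)), ?_⟩
    have h3 := hE (σ c) (fun a ha => h1 c a (subset_cl _ (Or.inl (Or.inl ha)))) _ hx
    have h4 : (fun l => σ c ((Fin.append s (Fin.append x fun i => Complex.exp (x i)) :
        Fin (m + ((n + 1) + (n + 1))) → ℂ) l)) =
        Fin.append s (Fin.append (fun l => σ c (x l)) fun l => σ c (Complex.exp (x l))) := by
      funext l
      refine Fin.addCases (fun l => ?_) (fun l => ?_) l
      · rw [Fin.append_left, Fin.append_left]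
        exact h1 c _ (subset_cl _ (Or.inl (Or.inr ⟨l, rfl⟩)))
      · rw [Fin.append_right, Fin.append_right]
        refine Fin.addCases (fun l => ?_) (fun l => ?_) l
        · rw [Fin.append_left, Fin.append_left]
        · rw [Fin.append_right, Fin.append_right]
    rw [h4] at h3
    exact h3
  have hinj : Function.Injective fun c : ℕ => (fun l => σ c (x l)) := by
    intro c c' hcc
    have h5 := congrFun hcc i
    simp only [h2] at h5
    exact_mod_cast add_left_cancel h5
  exact (Set.infinite_of_injective_forall_mem hinj hmem) hfin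

/-- **systems on curves** -/
theorem InvN.curveC {m n : ℕ} {E : Set (Fin (m + ((n + 1) + (n + 1))) → ℂ)}
    (hE : AutInv (m + ((n + 1) + (n + 1))) E)
    (hcount : ∀ s : Fin m → ℂ, (Zs E s).Countable)
    (hfin : ∀ (s : Fin m → ℂ) (z : ℂ), {x' : Fin (n + 1) → ℂ | x' 0 = z ∧
      ∃ y : Fin (n + 1) → ℂ,
      (Fin.append s (Fin.append x' y) : Fin (m + ((n + 1) + (n + 1))) → ℂ) ∈ E}.Finite)
    {X : Set (Fin (m + (n + 1)) → ℂ)} (hX : InvN (m + (n + 1)) X) (κ : Cardinal.{0}) :
    InvN m {s | κ ≤ #({x : Fin (n + 1) → ℂ | x ∈ Zs E s ∧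
      (Fin.append s x : Fin (m + (n + 1)) → ℂ) ∈ X} : Set (Fin (n + 1) → ℂ))} := by
  obtain ⟨A, hA, hEA⟩ := id hE
  have h1 := ((InvN.subst hE.invN).inter hX).boundedC hA κ
  convert h1 using 1
  ext s
  have h2 : {x : Fin (n + 1) → ℂ | x ∈ Zs E s ∧
      (Fin.append s x : Fin (m + (n + 1)) → ℂ) ∈ X} =
      {x : Fin (n + 1) → ℂ | (∀ i, x i ∈ ccl A (range s)) ∧
        (Fin.append s x : Fin (m + (n + 1)) → ℂ) ∈
        ({v : Fin (m + (n + 1)) → ℂ |
          (fun i => v (Fin.natAdd m i)) ∈ Zs E fun i => v (Fin.castAdd (n + 1) i)} ∩ X)} := by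
    ext x
    simp only [Set.mem_ofPred_eq, Set.mem_inter_iff, Fin.append_left, Fin.append_right]
    constructor
    · rintro ⟨h4, h5⟩
      refine ⟨fun i => ?_, h4, h5⟩
      refine (ccl_closed _ _).crv (n + 1) x (x 0)
        ((Zs_nonDeg hA hEA (hcount s) h4).mono (cl_sub_ccl _ _)) (fun i => ?_) i
      rw [← mem_cl]
      refine (MK ℚ).closure_subset_closure (Set.union_subset_union_left _ (subset_ccl _ _))
        (curve_mem hA hEA (hfin s _) h4 i)
    · rintro ⟨-, h3⟩
      exact h3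
  rw [Set.mem_ofPred_eq, Set.mem_ofPred_eq, h2]

end Pool.Agent.V9h68
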