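import Pool.Agent.V9h68.N4

/-!
Isomorphisms of closures.
-/

set_option autoImplicit false

open MvPolynomial Set Filter Topology Cardinal

noncomputable section

namespace Pool.Agent.V9h68

open Pool.Agent.Y776 Pool.Agent.Y685
open Pool.Agent.TH813.Rel (MK mem_cl subset_cl rk_le_of_subset_cl cl_add cl_mul cl_inv cl_of_base)

theorem Wt.Le.symm {K : Subfield ℂ} {w w1 : Wt K} (h : w.Le w1) : w.symm.Le w1.symm := by
  have key : ∀ z ∈ w.symm.V, w.symm.σ z ∈ w.V ∧ w1.σ (w.symm.σ z) = z := by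
    intro z hz
    have h1 : w.symm.σ z ∈ w.V := w.symm.mapV hz
    refine ⟨h1, ?_⟩
    rw [h.2 _ h1]
    exact w.σ.apply_symm_apply z
  constructor
  · intro z hz
    obtain ⟨h1, h2⟩ := key z hz
    have h3 := w1.mapV (h.1 h1)
    rwa [h2] at h3
  · intro z hz
    obtain ⟨h1, h2⟩ := key z hz
    have h3 := w1.symm_σ (w.symm.σ z)
    rwa [h2] at h3

/-- reachability on the other side -/
theorem reachC_back {K : Subfield ℂ} (hK : GD K) {A : Set ℂ} (hA : A ⊆ K) {w : Wt K} {B : Set ℂ}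
    (hB : B ⊆ w.V) {z : ℂ} (hz : z ∈ ccl A (w.σ '' B)) (w1 : Wt K) (h : w.Le w1) :
    ∃ w2 : Wt K, w1.Le w2 ∧ ∃ u ∈ w2.V, u ∈ ccl A B ∧ w2.σ u = z := by
  have hB' : w.σ '' B ⊆ w.symm.V := by
    rintro _ ⟨u, hu, rfl⟩
    exact w.mapV (hB hu)
  obtain ⟨w2, h1, h2, h3⟩ := reachC hK hA (w := w.symm) hB' hz w1.symm h.symm
  have hBB : w.symm.σ '' (w.σ '' B) = B := by
    ext u
    constructor
    · rintro ⟨_, ⟨v, hv, rfl⟩, rfl⟩
      rw [w.symm_σ]
      exact hv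
    · intro hu
      exact ⟨w.σ u, ⟨u, hu, rfl⟩, w.symm_σ u⟩
  rw [hBB] at h3
  exact ⟨w2.symm, h1.symm, w2.σ z, w2.mapV h2, h3, w2.symm_σ z⟩

/-- isomorphisms of exponential subsets of `ℂ` -/
structure CIso (C C' : Set ℂ) (f : ℂ → ℂ) : Prop where
  bij : BijOn f C C'
  add : ∀ z ∈ C, ∀ w ∈ C, f (z + w) = f z + f w
  mul : ∀ z ∈ C, ∀ w ∈ C, f (z * w) = f z * f w
  exp : ∀ z ∈ C, f (Complex.exp z) = Complex.exp (f z)

theorem CrvClosed.add {A C : Set ℂ} (h : CrvClosed A C) {z w : ℂ} (hz : z ∈ C) (hw : w ∈ C) :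
    z + w ∈ C := by
  refine h.alg _ ?_
  rw [← mem_cl]
  exact cl_add (subset_cl _ hz) (subset_cl _ hw)

theorem CrvClosed.mul {A C : Set ℂ} (h : CrvClosed A C) {z w : ℂ} (hz : z ∈ C) (hw : w ∈ C) :
    z * w ∈ C := by
  refine h.alg _ ?_
  rw [← mem_cl]
  exact cl_mul (subset_cl _ hz) (subset_cl _ hw)

/-- **isomorphisms of the closures** -/
theorem exists_ciso {K : Subfield ℂ} (hK : GD K) {A : Set ℂ} (hA : A ⊆ K) {w : Wt K} {B : Set ℂ}
    (hB : B ⊆ w.V) (hBc : B.Countable) : ∃ f : ℂ → ℂ,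
      CIso (ccl A B) (ccl A (w.σ '' B)) f ∧
      ∀ T : Set ℂ, T.Finite → T ⊆ ccl A B →
        ∃ w1 : Wt K, w.Le w1 ∧ ∀ z ∈ T, z ∈ w1.V ∧ f z = w1.σ z := by
  classical
  have hAc : A.Countable := hK.cnt.mono hA
  set C := ccl A B with hC
  set C' := ccl A (w.σ '' B) with hC'
  have hCc : CrvClosed A C := ccl_closed _ _
  have hCn : C.Countable := ccl_countable (hAc.union hBc)
  have hCn' : C'.Countable := ccl_countable (hAc.union (hBc.image _))
  have h0 : ∀ D : Set ℂ, CrvClosed A D → D.Nonempty := by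
    intro D hD
    refine ⟨0, hD.alg 0 isAlgebraic_zero⟩
  obtain ⟨e, he⟩ := hCn.exists_eq_range (h0 C hCc)
  obtain ⟨e', he'⟩ := hCn'.exists_eq_range (h0 C' (ccl_closed _ _))
  have step : ∀ (n : ℕ) (w1 : {w1 : Wt K // w.Le w1}), ∃ w2 : {w2 : Wt K // w.Le w2},
      w1.1.Le w2.1 ∧ (e n ∈ w2.1.V ∧ w2.1.σ (e n) ∈ C') ∧
        ∃ u ∈ w2.1.V, u ∈ C ∧ w2.1.σ u = e' n := by
    intro n w1
    obtain ⟨w2, h1, h2, h3⟩ := reachC hK hA hB (z := e n) (by
      rw [← hC, he]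
      exact ⟨n, rfl⟩) w1.1 w1.2
    obtain ⟨w3, h4, u, h5, h6, h7⟩ := reachC_back hK hA hB (z := e' n) (by
      rw [← hC', he']
      exact ⟨n, rfl⟩) w2 (w1.2.trans h1)
    refine ⟨⟨w3, (w1.2.trans h1).trans h4⟩, h1.trans h4, ⟨h4.1 h2, ?_⟩, u, h5, h6, h7⟩
    change w3.σ (e n) ∈ C'
    rw [h4.2 _ h2]
    exact h3
  choose g hg1 hg2 hg3 using step
  let W : ℕ → {w1 : Wt K // w.Le w1} := fun n =>
    Nat.rec ⟨w, Wt.Le.refl w⟩ (fun n w1 => g n w1) n
  have hW : ∀ n, W (n + 1) = g n (W n) := fun n => rfl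
  have hle1 : ∀ n, (W n).1.Le (W (n + 1)).1 := fun n => by
    rw [hW]
    exact hg1 n (W n)
  have hle : ∀ i j, i ≤ j → (W i).1.Le (W j).1 := by
    intro i j hij
    induction hij with
    | refl => exact Wt.Le.refl _
    | step _ ih => exact ih.trans (hle1 _)
  let f : ℂ → ℂ := fun z => if h : ∃ k, z ∈ (W k).1.V then (W (Classical.choose h)).1.σ z else 0
  have hf : ∀ k z, z ∈ (W k).1.V → f z = (W k).1.σ z := by
    intro k z hz
    have h : ∃ k, z ∈ (W k).1.V := ⟨k, hz⟩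
    have h1 : f z = (W (Classical.choose h)).1.σ z := dif_pos h
    rw [h1]
    rcases le_total (Classical.choose h) k with h2 | h2
    · exact ((hle _ _ h2).2 z (Classical.choose_spec h)).symm
    · exact (hle _ _ h2).2 z hz
  have hmem : ∀ z ∈ C, ∃ k, z ∈ (W k).1.V := by
    intro z hz
    rw [he] at hz
    obtain ⟨n, rfl⟩ := hz
    exact ⟨n + 1, (hg2 n (W n)).1⟩
  have hfin : ∀ T : Set ℂ, T.Finite → T ⊆ C → ∃ k, ∀ z ∈ T, z ∈ (W k).1.V := by
    intro T hT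
    induction T, hT using Set.Finite.induction_on with
    | empty => exact fun _ => ⟨0, fun z hz => hz.elim⟩
    | @insert a I _ _ ih =>
      intro hI
      obtain ⟨k, hk⟩ := ih ((Set.subset_insert _ _).trans hI)
      obtain ⟨l, hl⟩ := hmem a (hI (Set.mem_insert a I))
      refine ⟨max k l, ?_⟩
      rintro z (rfl | hz)
      · exact (hle _ _ (le_max_right k l)).1 hl
      · exact (hle _ _ (le_max_left k l)).1 (hk z hz)
  refine ⟨f, ⟨⟨?_, ?_, ?_⟩, ?_, ?_, ?_⟩, ?_⟩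
  · intro z hz
    rw [he] at hz
    obtain ⟨n, rfl⟩ := hz
    rw [hf (n + 1) _ (hg2 n (W n)).1]
    exact (hg2 n (W n)).2
  · intro z hz v hv hzv
    obtain ⟨k, hk⟩ := hfin {z, v} (Set.toFinite _) (by
      rintro y (rfl | rfl)
      · exact hz
      · exact hv)
    rw [hf k z (hk z (by simp)), hf k v (hk v (by simp))] at hzv
    exact (W k).1.σ.injective hzv
  · intro z hz
    rw [he'] at hz
    obtain ⟨n, rfl⟩ := hz
    obtain ⟨u, h1, h2, h3⟩ := hg3 n (W n)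
    refine ⟨u, h2, ?_⟩
    rw [hf (n + 1) u h1]
    exact h3
  · intro z hz v hv
    obtain ⟨k, hk⟩ := hfin {z, v, z + v} (Set.toFinite _) (by
      rintro y (rfl | rfl | rfl)
      · exact hz
      · exact hv
      · exact hCc.add hz hv)
    rw [hf k z (hk z (by simp)), hf k v (hk v (by simp)), hf k _ (hk _ (by simp)), map_add]
  · intro z hz v hv
    obtain ⟨k, hk⟩ := hfin {z, v, z * v} (Set.toFinite _) (by
      rintro y (rfl | rfl | rfl)
      · exact hz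
      · exact hv
      · exact hCc.mul hz hv)
    rw [hf k z (hk z (by simp)), hf k v (hk v (by simp)), hf k _ (hk _ (by simp)), map_mul]
  · intro z hz
    obtain ⟨k, hk⟩ := hfin {z, Complex.exp z} (Set.toFinite _) (by
      rintro y (rfl | rfl)
      · exact hz
      · exact hCc.exp _ hz)
    rw [hf k z (hk z (by simp)), hf k _ (hk _ (by simp))]
    exact (W k).1.wc.cexp hK.exp (hk z (by simp))
  · intro T hT hTC
    obtain ⟨k, hk⟩ := hfin T hT hTC
    exact ⟨(W k).1, (W k).2, fun z hz => ⟨hk z hz, hf k z (hk z hz)⟩⟩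

/-- isomorphisms of the closures of tuples over a set, which preserve given sets -/
def CIsoX {m : ℕ} (A : Set ℂ) {n : ℕ → ℕ} (X : ∀ j, Set (Fin (n j) → ℂ)) (s s' : Fin m → ℂ)
    (f : ℂ → ℂ) : Prop :=
  CIso (ccl A (range s)) (ccl A (range s')) f ∧ (∀ a ∈ A, f a = a) ∧ (∀ i, f (s i) = s' i) ∧
    ∀ (j : ℕ) (x : Fin (n j) → ℂ), (∀ i, x i ∈ ccl A (range s)) →
      (x ∈ X j ↔ (fun i => f (x i)) ∈ X j)

/-- **isomorphisms which preserve countably many invariant sets** -/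
theorem exists_cisoX {n : ℕ → ℕ} {X : ∀ j, Set (Fin (n j) → ℂ)} (hX : ∀ j, InvN (n j) (X j)) :
    ∃ B : Set ℂ, B.Countable ∧ ∀ (K : Subfield ℂ) (A : Set ℂ), GD K → B ⊆ K → A ⊆ K →
      ∀ (w : Wt K) (m : ℕ) (s : Fin m → ℂ), (∀ i, s i ∈ w.V) →
        ∃ f : ℂ → ℂ, CIsoX A X s (fun i => w.σ (s i)) f := by
  choose B hB hXB using fun j => (hX j).iff
  refine ⟨⋃ j, B j, Set.countable_iUnion hB, fun K A hK hBK hAK w m s hs => ?_⟩
  have hσs : w.σ '' range s = range fun i => w.σ (s i) := (Set.range_comp _ _).symm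
  obtain ⟨f, hf, hfw⟩ := exists_ciso hK hAK (w := w) (B := range s) (by
    rintro _ ⟨i, rfl⟩
    exact hs i) (Set.countable_range s)
  rw [hσs] at hf
  refine ⟨f, hf, fun a ha => ?_, fun i => ?_, fun j x hx => ?_⟩
  · obtain ⟨w1, -, h1⟩ := hfw {a} (Set.finite_singleton a) (by
      rintro z rfl
      exact subset_ccl _ _ (Or.inl ha))
    rw [(h1 a rfl).2]
    exact w1.wc.fix _ (hAK ha)
  · obtain ⟨w1, h0, h1⟩ := hfw {s i} (Set.finite_singleton _) (by
      rintro z rfl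
      exact subset_ccl _ _ (Or.inr ⟨i, rfl⟩))
    rw [(h1 _ rfl).2]
    exact h0.2 _ (hs i)
  · obtain ⟨w1, h0, h1⟩ := hfw (range x) (Set.finite_range x) (by
      rintro _ ⟨i, rfl⟩
      exact hx i)
    have h2 := hXB j K hK ((Set.subset_iUnion B j).trans hBK) w1 x fun i => (h1 _ ⟨i, rfl⟩).1
    have h3 : (fun i => f (x i)) = fun i => w1.σ (x i) := by
      funext i
      exact (h1 _ ⟨i, rfl⟩).2
    rw [h3]
    exact h2

/-- **properties of the closure** -/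
theorem InvN.iso {m : ℕ} {A : Set ℂ} (hA : A.Countable) {n : ℕ → ℕ}
    {X : ∀ j, Set (Fin (n j) → ℂ)} (hX : ∀ j, InvN (n j) (X j)) {Y : Set (Fin m → ℂ)}
    (hY : ∀ s s' : Fin m → ℂ, (∃ f : ℂ → ℂ, CIsoX A X s s' f) → s ∈ Y → s' ∈ Y) : InvN m Y := by
  obtain ⟨B, hB, h⟩ := exists_cisoX hX
  refine ⟨A ∪ B, hA.union hB, fun K hK hABK w s hs hsY => ?_⟩
  exact hY s _ (h K A hK (Set.subset_union_right.trans hABK)
    (Set.subset_union_left.trans hABK) w m s hs) hsY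

/-- **generic numbers have isomorphic closures** -/
theorem generic_iso {A : Set ℂ} (hA : A.Countable) {n : ℕ → ℕ}
    {X : ∀ j, Set (Fin (n j) → ℂ)} (hX : ∀ j, InvN (n j) (X j)) :
    ∃ G : Set ℂ, G.Countable ∧ ∀ t ∉ G, ∀ t' ∉ G,
      ∃ f : ℂ → ℂ, CIsoX A X (fun _ : Fin 1 => t) (fun _ : Fin 1 => t') f := by
  obtain ⟨B, hB, h⟩ := exists_cisoX hX
  obtain ⟨K, hK, hABK⟩ := exists_GD (hA.union hB)
  obtain ⟨G, G', hG, hG', hgen⟩ := (Wt.nil hK).gen hK
  refine ⟨G ∪ G', hG.union hG', fun t ht t' ht' => ?_⟩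
  obtain ⟨w, -, h2, h3⟩ := hgen t (fun h => ht (Or.inl h)) t' (fun h => ht' (Or.inr h))
  obtain ⟨f, hf⟩ := h K A hK (Set.subset_union_right.trans hABK)
    (Set.subset_union_left.trans hABK) w 1 (fun _ => t) (fun _ => h2)
  refine ⟨f, ?_⟩
  have h4 : (fun _ : Fin 1 => w.σ t) = fun _ : Fin 1 => t' := by rw [h3]
  rw [← h4]
  exact hf

/-- membership in the closure is invariant -/
theorem InvN.mem_ccl {m : ℕ} {A : Set ℂ} (hA : A.Countable) :
    InvN (m + 1) {v | v (Fin.last m) ∈ ccl A (range fun i : Fin m => v i.castSucc)} := by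
  refine ⟨A, hA, fun K hK hAK w s hs hsX => ?_⟩
  have hσs : w.σ '' (range fun i : Fin m => s i.castSucc) =
      range fun i : Fin m => w.σ (s i.castSucc) := (Set.range_comp _ _).symm
  obtain ⟨w2, h1, h2, h3⟩ := reachC hK hAK (w := w) (B := range fun i : Fin m => s i.castSucc) (by
    rintro _ ⟨i, rfl⟩
    exact hs _) hsX w (Wt.Le.refl w)
  rw [h1.2 _ (hs _), hσs] at h3
  exact h3

end Pool.Agent.V9h68
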