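import Pool.Agent.V9h68.N5

/-!
The quantifiers over solutions: at most two unknowns, dominated systems, systems on curves.
-/

set_option autoImplicit false

open MvPolynomial Set Filter Topology Cardinal

noncomputable section

namespace Pool.Agent.V9h68

open Pool.Agent.Y776 Pool.Agent.Y685
open Pool.Agent.TH813.Rel (MK mem_cl subset_cl rk_le_of_subset_cl cl_add cl_mul cl_inv cl_of_base)

/-- the systems: at most two unknowns, or dominated, or on curves -/
def Grd (m n : ℕ) (E : Set (Fin (m + (n + n)) → ℂ)) : Prop :=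
  n ≤ 2 ∨
  (∀ (s : Fin m → ℂ) (x : Fin n → ℂ), {y : Fin n → ℂ |
    (Fin.append s (Fin.append x y) : Fin (m + (n + n)) → ℂ) ∈ E}.Finite) ∨
  ∃ i : Fin n, ∀ (s : Fin m → ℂ) (z : ℂ), {x : Fin n → ℂ | x i = z ∧ ∃ y : Fin n → ℂ,
    (Fin.append s (Fin.append x y) : Fin (m + (n + n)) → ℂ) ∈ E}.Finite

theorem Grd.cases {m n : ℕ} {E : Set (Fin (m + (n + n)) → ℂ)} (h : Grd m n E) :
    n = 2 ∨
  (∀ (s : Fin m → ℂ) (x : Fin n → ℂ), {y : Fin n → ℂ |
    (Fin.append s (Fin.append x y) : Fin (m + (n + n)) → ℂ) ∈ E}.Finite) ∨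
  ∃ i : Fin n, ∀ (s : Fin m → ℂ) (z : ℂ), {x : Fin n → ℂ | x i = z ∧ ∃ y : Fin n → ℂ,
    (Fin.append s (Fin.append x y) : Fin (m + (n + n)) → ℂ) ∈ E}.Finite := by
  rcases h with h | h | h
  · obtain rfl | rfl | rfl : n = 0 ∨ n = 1 ∨ n = 2 := by omega
    · right; left
      intro s x
      exact Set.toFinite _
    · right; right
      refine ⟨0, fun s z => ?_⟩
      refine (Set.finite_singleton (fun _ : Fin 1 => z)).subset ?_
      rintro x ⟨hx, -⟩
      rw [Set.mem_singleton_iff]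
      funext i
      rw [Subsingleton.elim i 0]
      exact hx
    · exact Or.inl rfl
  · exact Or.inr (Or.inl h)
  · exact Or.inr (Or.inr h)

/-- solutions on curves are algebraic over the first coordinate -/
theorem curve_mem' {m n : ℕ} {E : Set (Fin (m + (n + n)) → ℂ)} {A : Set ℂ}
    (hA : A.Countable)
    (hE : ∀ σ : ℂ ≃+* ℂ, (∀ c ∈ A, σ c = c) → ∀ s, s ∈ E → (fun i => σ (s i)) ∈ E)
    {s : Fin m → ℂ} {x : Fin n → ℂ} (j : Fin n)
    (hfin : {x' : Fin n → ℂ | x' j = x j ∧ ∃ y : Fin n → ℂ,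
      (Fin.append s (Fin.append x' y) : Fin (m + (n + n)) → ℂ) ∈ E}.Finite)
    (hx : x ∈ Zs E s) (i : Fin n) :
    x i ∈ (MK ℚ).closure ((A ∪ range s) ∪ {x j}) := by
  by_contra hcon
  have hS : ((A ∪ range s) ∪ {x j}).Countable :=
    (hA.union (Set.countable_range s)).union (Set.countable_singleton _)
  choose σ h1 h2 using fun c => exists_move hS hcon c
  have hmem : ∀ c, (fun l => σ c (x l)) ∈ {x' : Fin n → ℂ | x' j = x j ∧
      ∃ y : Fin n → ℂ,
      (Fin.append s (Fin.append x' y) : Fin (m + (n + n)) → ℂ) ∈ E} := by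
    intro c
    refine ⟨h1 c _ (subset_cl _ (Or.inr rfl)), fun l => σ c (Complex.exp (x l)), ?_⟩
    have h3 := hE (σ c) (fun a ha => h1 c a (subset_cl _ (Or.inl (Or.inl ha)))) _ hx
    have h4 : (fun l => σ c ((Fin.append s (Fin.append x fun i => Complex.exp (x i)) :
        Fin (m + (n + n)) → ℂ) l)) =
        Fin.append s (Fin.append (fun l => σ c (x l)) fun l => σ c (Complex.exp (x l))) := by
      funext l
      refine Fin.addCases (fun l => ?_) (fun l => ?_) l
      · rw [Fin.append_left, Fin.append_left]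
        exact h1 c _ (subset_cl _ (Or.inl (Or.inr ⟨l, rfl⟩)))
      · rw [Fin.append_right, Fin.append_right]
        refine Fin.addCases (fun l => ?_) (fun l => ?_) l
        · rw [Fin.append_left, Fin.append_left]
        · rw [Fin.append_right, Fin.append_right]
    rw [h4] at h3
    exact h3
  have hinj : Function.Injective fun c : ℕ => (fun l => σ c (x l)) := by
    intro c c' hcc
    have h5 := congrFun hcc i
    simp only [h2] at h5
    exact_mod_cast add_left_cancel h5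
  exact (Set.infinite_of_injective_forall_mem hinj hmem) hfin

/-- **countable sets of solutions are in the closure** -/
theorem Zs_ccl {m n : ℕ} {E : Set (Fin (m + (n + n)) → ℂ)} {A : Set ℂ} (hA : A.Countable)
    (hE : ∀ σ : ℂ ≃+* ℂ, (∀ c ∈ A, σ c = c) → ∀ s, s ∈ E → (fun i => σ (s i)) ∈ E)
    (hG : Grd m n E) {s : Fin m → ℂ} (hc : (Zs E s).Countable) {x : Fin n → ℂ}
    (hx : x ∈ Zs E s) (i : Fin n) : x i ∈ ccl A (range s) := by
  rcases hG.cases with h | h | ⟨j, h⟩
  · subst h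
    exact Zs_two hA hE hc hx i
  · refine (ccl_closed _ _).dom n x (fun i => ?_) i
    rw [← mem_cl]
    refine (MK ℚ).closure_subset_closure (Set.union_subset_union_left _ (subset_ccl _ _))
      (dom_mem_dcl hA hE (h s x) hx i)
  · refine (ccl_closed _ _).crv n x (x j)
      ((Zs_nonDeg hA hE hc hx).mono (cl_sub_ccl _ _)) (fun i => ?_) i
    rw [← mem_cl]
    refine (MK ℚ).closure_subset_closure (Set.union_subset_union_left _ (subset_ccl _ _))
      (curve_mem' hA hE j (h s _) hx i)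

/-- uncountable sets of solutions on curves -/
theorem curve_big {K : Subfield ℂ} (hK : GD K) {A : Set ℂ} (hAK : A ⊆ K) {m n : ℕ}
    {E : Set (Fin (m + (n + n)) → ℂ)}
    (hE : ∀ σ : ℂ ≃+* ℂ, (∀ c ∈ A, σ c = c) → ∀ s, s ∈ E → (fun i => σ (s i)) ∈ E)
    (j : Fin n) (hfin : ∀ (s : Fin m → ℂ) (z : ℂ), {x : Fin n → ℂ | x j = z ∧
      ∃ y : Fin n → ℂ, (Fin.append s (Fin.append x y) : Fin (m + (n + n)) → ℂ) ∈ E}.Finite)
    (w : Wt K) {s : Fin m → ℂ} (hs : ∀ i, s i ∈ w.V) (hunc : ¬ (Zs E s).Countable) :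
    #ℂ ≤ #(Zs E fun i => w.σ (s i)) := by
  classical
  have hA : A.Countable := hK.cnt.mono hAK
  obtain ⟨G, G', hG, hG', hgen⟩ := w.gen hK
  obtain ⟨x, hx, hi⟩ : ∃ x ∈ Zs E s, x j ∉ G := by
    by_contra hcon
    push Not at hcon
    apply hunc
    have hc : (⋃ z ∈ G, {x : Fin n → ℂ | x j = z ∧ ∃ y : Fin n → ℂ,
        (Fin.append s (Fin.append x y) : Fin (m + (n + n)) → ℂ) ∈ E}).Countable :=
      hG.biUnion fun z _ => (hfin s z).countable
    refine hc.mono ?_
    intro x hx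
    simp only [Set.mem_iUnion]
    exact ⟨x j, hcon x hx, rfl, _, hx⟩
  have hmain : ∀ y' ∉ G', ∃ x' ∈ Zs E fun i => w.σ (s i), x' j = y' := by
    intro y' hy'
    obtain ⟨w1, hw1, hxi, hσxi⟩ := hgen (x j) hi y' hy'
    obtain ⟨w2, h1, h2⟩ := reachC_fin hK hAK (w := w1) (B := range s ∪ {x j}) (by
      rintro z (⟨i, rfl⟩ | hz)
      · exact hw1.1 (hs i)
      · rw [Set.mem_singleton_iff.1 hz]
        exact hxi) (Set.finite_range x) (by
      rintro _ ⟨i, rfl⟩
      apply cl_sub_ccl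
      rw [← Set.union_assoc]
      exact curve_mem' hA hE j (hfin s _) hx i)
    have h3 : ∀ i, x i ∈ w2.V := fun i => (h2 _ ⟨i, rfl⟩).1
    refine ⟨fun i => w2.σ (x i), Zs_map (σ := w2.σ)
      (hE w2.σ fun c hc => w2.wc.fix _ (hAK hc)) (fun i => ?_) (fun i => rfl) (fun i => ?_) hx, ?_⟩
    · rw [h1.2 _ (hw1.1 (hs i)), hw1.2 _ (hs i)]
    · exact w2.wc.cexp hK.exp (h3 i)
    · change w2.σ (x j) = y'
      rw [h1.2 _ hxi]
      exact hσxi
  choose f hf1 hf2 using hmain
  have h2 : #(G'ᶜ : Set ℂ) = #ℂ := by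
    have h3 : #G' < #ℂ := by
      refine lt_of_le_of_lt (Cardinal.le_aleph0_iff_set_countable.2 hG') ?_
      rw [Cardinal.mk_complex]
      exact Cardinal.aleph0_lt_continuum
    rw [Cardinal.mk_compl_of_infinite _ h3]
  rw [← h2]
  refine Cardinal.mk_le_of_injective (f := fun y : (G'ᶜ : Set ℂ) =>
    (⟨f y.1 y.2, hf1 y.1 y.2⟩ : Zs E fun i => w.σ (s i))) ?_
  intro y y' hyy
  have h3 := congrFun (congrArg Subtype.val hyy) j
  simp only [hf2] at h3
  exact Subtype.ext h3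

/-- dominated systems have countably many solutions -/
theorem dom_countable {m n : ℕ} {E : Set (Fin (m + (n + n)) → ℂ)} (hE : AutInv (m + (n + n)) E)
    (h : ∀ (s : Fin m → ℂ) (x : Fin n → ℂ), {y : Fin n → ℂ |
      (Fin.append s (Fin.append x y) : Fin (m + (n + n)) → ℂ) ∈ E}.Finite) (s : Fin m → ℂ) :
    (Zs E s).Countable := by
  obtain ⟨A, hA, hEA⟩ := hE
  have hc : (Set.pi univ fun _ : Fin n => ccl A (range s)).Countable :=
    Set.countable_univ_pi fun _ => ccl_countable (hA.union (Set.countable_range s))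
  refine hc.mono ?_
  intro x hx i _
  refine (ccl_closed _ _).dom n x (fun i => ?_) i
  rw [← mem_cl]
  exact (MK ℚ).closure_subset_closure (Set.union_subset_union_left _ (subset_ccl _ _))
    (dom_mem_dcl hA hEA (h s x) hx i)

/-- uncountable sets of solutions -/
theorem grd_big {m n : ℕ} {E : Set (Fin (m + (n + n)) → ℂ)} (hE : AutInv (m + (n + n)) E)
    (hG : Grd m n E) : ∃ A : Set ℂ, A.Countable ∧ ∀ K : Subfield ℂ, GD K → A ⊆ K → ∀ w : Wt K,
      ∀ s : Fin m → ℂ, (∀ i, s i ∈ w.V) → ¬ (Zs E s).Countable →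
        #ℂ ≤ #(Zs E fun i => w.σ (s i)) := by
  obtain ⟨A, hA, hEA⟩ := id hE
  refine ⟨A, hA, fun K hK hAK w s hs hunc => ?_⟩
  rcases hG.cases with h | h | ⟨j, h⟩
  · subst h
    exact two_big hK (fun σ hσ => hEA σ fun c hc => hσ c (hAK hc)) w hs hunc
  · exact absurd (dom_countable hE h s) hunc
  · exact curve_big hK hAK hEA j h w hs hunc

theorem not_countable_of_le' {n : ℕ} {Z : Set (Fin n → ℂ)} (h : #ℂ ≤ #Z) : ¬ Z.Countable := by
  intro hc
  have h1 := h.trans (Cardinal.le_aleph0_iff_set_countable.2 hc)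
  rw [Cardinal.mk_complex] at h1
  exact absurd Cardinal.aleph0_lt_continuum (not_lt.2 h1)

theorem InvN.cnt {m n : ℕ} {E : Set (Fin (m + (n + n)) → ℂ)} (hE : AutInv (m + (n + n)) E)
    (hG : Grd m n E) : InvN m {s | (Zs E s).Countable} := by
  obtain ⟨A, hA, hbig⟩ := grd_big hE hG
  refine ⟨A, hA, fun K hK hAK w s hs hsX => ?_⟩
  by_contra hcon
  have h1 := hbig K hK hAK w.symm (fun i => w.σ (s i)) (fun i => w.mapV (hs i)) hcon
  simp only [Wt.symm_σ] at h1
  exact not_countable_of_le' h1 hsX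

/-- **the quantifiers over countable sets of solutions** -/
theorem InvN.sol {m n : ℕ} {E : Set (Fin (m + (n + n)) → ℂ)} (hE : AutInv (m + (n + n)) E)
    (hG : Grd m n E) {X : Set (Fin (m + n) → ℂ)} (hX : InvN (m + n) X) (κ : Cardinal.{0}) :
    InvN m {s | κ ≤ #({x : Fin n → ℂ | (Zs E s).Countable ∧ x ∈ Zs E s ∧
      (Fin.append s x : Fin (m + n) → ℂ) ∈ X} : Set (Fin n → ℂ))} := by
  obtain ⟨A, hA, hEA⟩ := id hE
  have h1 := ((InvN.left (InvN.cnt hE hG)).inter ((InvN.subst hE.invN).inter hX)).boundedC hA κ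
  convert h1 using 1
  ext s
  have h2 : {x : Fin n → ℂ | (Zs E s).Countable ∧ x ∈ Zs E s ∧
      (Fin.append s x : Fin (m + n) → ℂ) ∈ X} =
      {x : Fin n → ℂ | (∀ i, x i ∈ ccl A (range s)) ∧ (Fin.append s x : Fin (m + n) → ℂ) ∈
        {v : Fin (m + n) → ℂ | (fun i => v (Fin.castAdd n i)) ∈ {s | (Zs E s).Countable}} ∩
        ({v : Fin (m + n) → ℂ |
          (fun i => v (Fin.natAdd m i)) ∈ Zs E fun i => v (Fin.castAdd n i)} ∩ X)} := by
    ext x
    simp only [Set.mem_ofPred_eq, Set.mem_inter_iff, Fin.append_left, Fin.append_right]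
    constructor
    · rintro ⟨h3, h4, h5⟩
      exact ⟨Zs_ccl hA hEA hG h3 h4, h3, h4, h5⟩
    · rintro ⟨-, h3⟩
      exact h3
  rw [Set.mem_ofPred_eq, Set.mem_ofPred_eq, h2]

/-- **the unguarded quantifiers over solutions** -/
theorem InvN.unguarded {m n : ℕ} {E : Set (Fin (m + (n + n)) → ℂ)}
    (hE : AutInv (m + (n + n)) E) (hG : Grd m n E) (κ : Cardinal.{0}) :
    InvN m {s | κ ≤ #(Zs E s)} := by
  have hU : InvN (m + n) (Set.univ : Set (Fin (m + n) → ℂ)) :=
    ⟨∅, Set.countable_empty, fun _ _ _ _ _ _ _ => trivial⟩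
  obtain ⟨B, hB, hBi⟩ := InvN.sol hE hG hU κ
  obtain ⟨A, hA, hbig⟩ := grd_big hE hG
  refine ⟨A ∪ B, hA.union hB, fun K hK hAK w s hs hsX => ?_⟩
  have hsX' : κ ≤ #(Zs E s) := hsX
  by_cases hc : (Zs E s).Countable
  · have h1 := hBi K hK (Set.subset_union_right.trans hAK) w s hs (by
      refine le_trans hsX' (le_of_eq ?_)
      congr 1
      have : {x : Fin n → ℂ | (Zs E s).Countable ∧ x ∈ Zs E s ∧
          (Fin.append s x : Fin (m + n) → ℂ) ∈ Set.univ} = Zs E s := by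
        ext x
        exact ⟨fun h => h.2.1, fun h => ⟨hc, h, trivial⟩⟩
      rw [this])
    refine le_trans h1 (Cardinal.mk_le_mk_of_subset ?_)
    exact fun x hx => hx.2.1
  · have h1 := hbig K hK (Set.subset_union_left.trans hAK) w s hs hc
    refine le_trans hsX' (le_trans ?_ h1)
    have h3 : (ℵ₀ : Cardinal) ≤ #ℂ := by
      rw [Cardinal.mk_complex]
      exact Cardinal.aleph0_lt_continuum.le
    have h2 : #(Fin n → ℂ) ≤ #ℂ := by
      rw [← Cardinal.power_def, Cardinal.mk_fin]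
      exact Cardinal.power_nat_le h3
    exact (Cardinal.mk_set_le _).trans h2

end Pool.Agent.V9h68
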