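import Pool.Agent.V9h68.N6

/-!
The quantifiers over tame sets: the points which are isolated over some of their coordinates are in
the closure.
-/

set_option autoImplicit false

open MvPolynomial Set Filter Topology Cardinal

noncomputable section

namespace Pool.Agent.V9h68

open Pool.Agent.Y776 Pool.Agent.Y685
open Pool.Agent.TH813.Rel (MK mem_cl subset_cl rk_le_of_subset_cl cl_add cl_mul cl_inv cl_of_base)

/-- tame sets -/
def TameC (A : Set ℂ) {m n : ℕ} (X : Set (Fin (m + n) → ℂ)) : Prop :=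
  ∀ (s : Fin m → ℂ) (x : Fin n → ℂ) (J : Set (Fin n)), (Fin.append s x : Fin (m + n) → ℂ) ∈ X →
    {x' : Fin n → ℂ | (Fin.append s x' : Fin (m + n) → ℂ) ∈ X ∧ ∀ j ∈ J, x' j = x j}.Countable →
    ∀ i, x i ∈ ccl A (range s ∪ x '' J)

/-- extension to a point with given coordinates -/
theorem tame_ext {K : Subfield ℂ} (hK : GD K) {A : Set ℂ} (hAK : A ⊆ K) {m n : ℕ}
    {X : Set (Fin (m + n) → ℂ)}
    (hX : ∀ w : Wt K, ∀ v : Fin (m + n) → ℂ, (∀ i, v i ∈ w.V) → v ∈ X → (fun i => w.σ (v i)) ∈ X)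
    (hT : TameC A X) {w : Wt K} {s : Fin m → ℂ} (hs : ∀ i, s i ∈ w.V) (k : ℕ) :
    ∀ (w1 : Wt K), w.Le w1 → ∀ (J : Finset (Fin n)), Jᶜ.card ≤ k → ∀ x : Fin n → ℂ,
      (∀ j ∈ J, x j ∈ w1.V) → (Fin.append s x : Fin (m + n) → ℂ) ∈ X →
      ∃ x' : Fin n → ℂ, (Fin.append (fun i => w.σ (s i)) x' : Fin (m + n) → ℂ) ∈ X ∧
        ∀ j ∈ J, x' j = w1.σ (x j) := by
  classical
  -- the conclusion from a structure which contains all coordinates
  have hfin : ∀ (w1 w2 : Wt K), w.Le w1 → w1.Le w2 → ∀ (J : Finset (Fin n)) (x : Fin n → ℂ),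
      (∀ j ∈ J, x j ∈ w1.V) → (Fin.append s x : Fin (m + n) → ℂ) ∈ X → (∀ i, x i ∈ w2.V) →
      ∃ x' : Fin n → ℂ, (Fin.append (fun i => w.σ (s i)) x' : Fin (m + n) → ℂ) ∈ X ∧
        ∀ j ∈ J, x' j = w1.σ (x j) := by
    intro w1 w2 h01 h12 J x hJ hx hxV
    have h1 := hX w2 (Fin.append s x) (fun l => by
      refine Fin.addCases (fun i => ?_) (fun i => ?_) l
      · rw [Fin.append_left]
        exact h12.1 (h01.1 (hs i))
      · rw [Fin.append_right]
        exact hxV i) hx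
    refine ⟨fun i => w2.σ (x i), ?_, fun j hj => h12.2 _ (hJ j hj)⟩
    convert h1 using 1
    funext l
    refine Fin.addCases (fun i => ?_) (fun i => ?_) l
    · simp only [Fin.append_left]
      rw [h12.2 _ (h01.1 (hs i)), h01.2 _ (hs i)]
    · simp only [Fin.append_right]
  induction k with
  | zero =>
    intro w1 h01 J hJ x hx hxX
    have hJ' : ∀ i, i ∈ J := by
      intro i
      by_contra hi
      have h1 : i ∈ Jᶜ := Finset.mem_compl.2 hi
      have h2 := Finset.card_pos.2 ⟨i, h1⟩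
      omega
    exact hfin w1 w1 h01 (Wt.Le.refl _) J x hx hxX fun i => hx i (hJ' i)
  | succ k ih =>
    intro w1 h01 J hJ x hx hxX
    by_cases hc : {x' : Fin n → ℂ | (Fin.append s x' : Fin (m + n) → ℂ) ∈ X ∧
        ∀ j ∈ (J : Set (Fin n)), x' j = x j}.Countable
    · have h1 := hT s x J hxX hc
      obtain ⟨w2, h2, h3⟩ := reachC_fin hK hAK (w := w1) (B := range s ∪ x '' J) (by
        rintro z (⟨i, rfl⟩ | ⟨j, hj, rfl⟩)
        · exact h01.1 (hs i)
        · exact hx j hj) (Set.finite_range x) (by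
        rintro _ ⟨i, rfl⟩
        exact h1 i)
      exact hfin w1 w2 h01 h2 J x hx hxX fun i => (h3 _ ⟨i, rfl⟩).1
    · obtain ⟨G, G', hG, hG', hgen⟩ := w1.gen hK
      obtain ⟨x'', hx'', i, hiJ, hi⟩ : ∃ x'' ∈ {x' : Fin n → ℂ |
          (Fin.append s x' : Fin (m + n) → ℂ) ∈ X ∧ ∀ j ∈ (J : Set (Fin n)), x' j = x j},
          ∃ i, i ∉ J ∧ x'' i ∉ G := by
        by_contra hcon
        push Not at hcon
        apply hc
        have hc2 : (Set.pi univ fun _ : Fin n => G ∪ range x).Countable :=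
          Set.countable_univ_pi fun _ => hG.union (Set.countable_range x)
        refine hc2.mono ?_
        intro x' hx' i _
        by_cases hiJ : i ∈ J
        · right
          exact ⟨i, (hx'.2 i hiJ).symm⟩
        · left
          exact hcon x' hx' i hiJ
      obtain ⟨y', hy'⟩ : ∃ y', y' ∉ G' := by
        by_contra hcon
        push Not at hcon
        have h1 : (Set.univ : Set ℂ).Countable := hG'.mono fun z _ => hcon z
        rw [← Cardinal.le_aleph0_iff_set_countable, Cardinal.mk_univ, Cardinal.mk_complex] at h1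
        exact absurd Cardinal.aleph0_lt_continuum (not_lt.2 h1)
      obtain ⟨w2, h2, h3, -⟩ := hgen (x'' i) hi y' hy'
      obtain ⟨x', h4, h5⟩ := ih w2 (h01.trans h2) (insert i J) (by
        have h6 : i ∈ Jᶜ := Finset.mem_compl.2 hiJ
        rw [Finset.compl_insert, Finset.card_erase_of_mem h6]
        omega) x'' (by
        intro j hj
        rcases Finset.mem_insert.1 hj with rfl | hj
        · exact h3
        · rw [hx''.2 j hj]
          exact h2.1 (hx j hj)) hx''.1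
      refine ⟨x', h4, fun j hj => ?_⟩
      rw [h5 j (Finset.mem_insert_of_mem hj), hx''.2 j hj]
      exact h2.2 _ (hx j hj)

/-- uncountable fibres of tame sets -/
theorem tame_big {K : Subfield ℂ} (hK : GD K) {A : Set ℂ} (hAK : A ⊆ K) {m n : ℕ}
    {X : Set (Fin (m + n) → ℂ)}
    (hX : ∀ w : Wt K, ∀ v : Fin (m + n) → ℂ, (∀ i, v i ∈ w.V) → v ∈ X → (fun i => w.σ (v i)) ∈ X)
    (hT : TameC A X) (w : Wt K) {s : Fin m → ℂ} (hs : ∀ i, s i ∈ w.V)
    (hunc : ¬ {x : Fin n → ℂ | (Fin.append s x : Fin (m + n) → ℂ) ∈ X}.Countable) :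
    #ℂ ≤ #({x : Fin n → ℂ | (Fin.append (fun i => w.σ (s i)) x : Fin (m + n) → ℂ) ∈ X} :
      Set (Fin n → ℂ)) := by
  classical
  obtain ⟨G, G', hG, hG', hgen⟩ := w.gen hK
  obtain ⟨x, hx, i, hi⟩ : ∃ x ∈ {x : Fin n → ℂ | (Fin.append s x : Fin (m + n) → ℂ) ∈ X},
      ∃ i, x i ∉ G := by
    by_contra hcon
    push Not at hcon
    apply hunc
    have hc : (Set.pi univ fun _ : Fin n => G).Countable := Set.countable_univ_pi fun _ => hG
    refine hc.mono ?_
    intro x hx i _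
    exact hcon x hx i
  have hmain : ∀ y' ∉ G', ∃ x' ∈ {x : Fin n → ℂ |
      (Fin.append (fun i => w.σ (s i)) x : Fin (m + n) → ℂ) ∈ X}, x' i = y' := by
    intro y' hy'
    obtain ⟨w1, hw1, hxi, hσxi⟩ := hgen (x i) hi y' hy'
    obtain ⟨x', h1, h2⟩ := tame_ext hK hAK hX hT hs ({i}ᶜ : Finset (Fin n)).card w1 hw1 {i} le_rfl x
      (fun j hj => by
        rw [Finset.mem_singleton.1 hj]
        exact hxi) hx
    refine ⟨x', h1, ?_⟩
    rw [h2 i (Finset.mem_singleton_self i)]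
    exact hσxi
  choose f hf1 hf2 using hmain
  have h2 : #(G'ᶜ : Set ℂ) = #ℂ := by
    have h3 : #G' < #ℂ := by
      refine lt_of_le_of_lt (Cardinal.le_aleph0_iff_set_countable.2 hG') ?_
      rw [Cardinal.mk_complex]
      exact Cardinal.aleph0_lt_continuum
    rw [Cardinal.mk_compl_of_infinite _ h3]
  rw [← h2]
  refine Cardinal.mk_le_of_injective (f := fun y : (G'ᶜ : Set ℂ) =>
    (⟨f y.1 y.2, hf1 y.1 y.2⟩ : {x : Fin n → ℂ |
      (Fin.append (fun i => w.σ (s i)) x : Fin (m + n) → ℂ) ∈ X})) ?_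
  intro y y' hyy
  have h3 := congrFun (congrArg Subtype.val hyy) i
  simp only [hf2] at h3
  exact Subtype.ext h3

/-- **the quantifiers over tame sets** -/
theorem InvN.tame {m n : ℕ} {X : Set (Fin (m + n) → ℂ)} (hX : InvN (m + n) X) {A : Set ℂ}
    (hA : A.Countable) (hT : TameC A X) (κ : Cardinal.{0}) :
    InvN m {s | κ ≤ #({x : Fin n → ℂ | (Fin.append s x : Fin (m + n) → ℂ) ∈ X} :
      Set (Fin n → ℂ))} := by
  obtain ⟨C, hC, hCi⟩ := hX.boundedC hA κ
  obtain ⟨B, hB, hXB⟩ := hX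
  refine ⟨(A ∪ B) ∪ C, (hA.union hB).union hC, fun K hK hAK w s hs hsX => ?_⟩
  have hAK' : A ⊆ K := (Set.subset_union_left.trans Set.subset_union_left).trans hAK
  have hBK' : B ⊆ K := (Set.subset_union_right.trans Set.subset_union_left).trans hAK
  have hCK' : C ⊆ K := Set.subset_union_right.trans hAK
  have hsX' : κ ≤ #({x : Fin n → ℂ | (Fin.append s x : Fin (m + n) → ℂ) ∈ X} :
      Set (Fin n → ℂ)) := hsX
  by_cases hc : {x : Fin n → ℂ | (Fin.append s x : Fin (m + n) → ℂ) ∈ X}.Countable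
  · have h0 : {x : Fin n → ℂ | (Fin.append s x : Fin (m + n) → ℂ) ∈ X} ⊆
        {x : Fin n → ℂ | (∀ i, x i ∈ ccl A (range s)) ∧ (Fin.append s x : Fin (m + n) → ℂ) ∈ X} := by
      intro x hx
      refine ⟨fun i => ?_, hx⟩
      have h2 := hT s x ∅ hx (hc.mono fun x' hx' => hx'.1) i
      rwa [Set.image_empty, Set.union_empty] at h2
    have h1 := hCi K hK hCK' w s hs (hsX'.trans (Cardinal.mk_le_mk_of_subset h0))
    refine le_trans h1 (Cardinal.mk_le_mk_of_subset ?_)
    exact fun x hx => hx.2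
  · have h1 := tame_big hK hAK' (fun w => hXB K hK hBK' w) hT w hs hc
    refine le_trans hsX' (le_trans ?_ h1)
    have h3 : (ℵ₀ : Cardinal) ≤ #ℂ := by
      rw [Cardinal.mk_complex]
      exact Cardinal.aleph0_lt_continuum.le
    have h2 : #(Fin n → ℂ) ≤ #ℂ := by
      rw [← Cardinal.power_def, Cardinal.mk_fin]
      exact Cardinal.power_nat_le h3
    exact (Cardinal.mk_set_le _).trans h2

end Pool.Agent.V9h68
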