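import Mathlib

/-!
A generic copy of finitely many complex numbers which are algebraically independent over a
subfield: extension of a field embedding to an embedding of `ℂ` into a large field.
-/

set_option autoImplicit false

namespace Pool.Agent.V9h68

open MvPolynomial

/-- the large field -/
abbrev Om : Type := AlgebraicClosure (FractionRing (MvPolynomial ℂ ℂ))

/-- the generic elements -/
noncomputable def om (b : ℂ) : Om :=
  algebraMap (FractionRing (MvPolynomial ℂ ℂ)) Om
    (algebraMap (MvPolynomial ℂ ℂ) (FractionRing (MvPolynomial ℂ ℂ)) (X b))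

theorem om_indep : AlgebraicIndependent ℂ om := by
  have h1 : AlgebraicIndependent ℂ (X : ℂ → MvPolynomial ℂ ℂ) := algebraicIndependent_X ℂ ℂ
  have h2 : Function.Injective (IsScalarTower.toAlgHom ℂ (MvPolynomial ℂ ℂ) Om) := by
    have h3 : Function.Injective (algebraMap (MvPolynomial ℂ ℂ) Om) := by
      rw [IsScalarTower.algebraMap_eq (MvPolynomial ℂ ℂ) (FractionRing (MvPolynomial ℂ ℂ)) Om]
      exact (algebraMap (FractionRing (MvPolynomial ℂ ℂ)) Om).injective.comp
        (IsFractionRing.injective (MvPolynomial ℂ ℂ) (FractionRing (MvPolynomial ℂ ℂ)))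
    exact h3
  have h4 := h1.map' h2
  have h5 : om = (IsScalarTower.toAlgHom ℂ (MvPolynomial ℂ ℂ) Om) ∘ X := by
    funext b
    simp only [om, Function.comp_apply, IsScalarTower.coe_toAlgHom']
    rw [IsScalarTower.algebraMap_apply (MvPolynomial ℂ ℂ)
      (FractionRing (MvPolynomial ℂ ℂ)) Om]
  rw [h5]
  exact h4

theorem exists_embedding {Ω : Type} [Field Ω] [Algebra ℂ Ω] [IsAlgClosed Ω] {om : ℂ → Ω}
    (om_indep : AlgebraicIndependent ℂ om) {K : Type} [Field K] [Algebra K ℂ] (σ : K →+* ℂ)
    {n : ℕ} (x : Fin n → ℂ) (hx : AlgebraicIndependent K x) :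
    ∃ ι : ℂ →+* Ω, (∀ i, ι (x i) = om (x i)) ∧
      ∀ k : K, ι (algebraMap K ℂ k) = algebraMap ℂ Ω (σ k) := by
  have hxr : AlgebraicIndepOn K id (Set.range x) := AlgebraicIndependent.coe_range hx
  obtain ⟨B, hxB, hB⟩ := exists_isTranscendenceBasis_superset hxr
  have hind : AlgebraicIndependent K ((↑) : B → ℂ) := hB.1
  let e := hind.aevalEquiv
  let a : MvPolynomial B K →+* ℂ := (aeval (fun b : B => (b : ℂ)) : MvPolynomial B K →ₐ[K] ℂ)
  let ψ : MvPolynomial B K →+* Ω :=
    MvPolynomial.eval₂Hom ((algebraMap ℂ Ω).comp σ) (fun b => om b)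
  have hψ : Function.Injective ψ := by
    have h1 : Function.Injective (aeval (fun b : B => om b) : MvPolynomial B ℂ →ₐ[ℂ] Ω) :=
      om_indep.comp _ Subtype.val_injective
    have h2 : Function.Injective (MvPolynomial.map (σ := B) σ) :=
      MvPolynomial.map_injective _ σ.injective
    have h3 : ∀ p, ψ p = aeval (fun b : B => om b) (MvPolynomial.map σ p) := by
      intro p
      simp only [ψ, MvPolynomial.coe_eval₂Hom, MvPolynomial.aeval_def, MvPolynomial.eval₂_map]
    intro p q hpq
    rw [h3, h3] at hpq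
    exact h2 (h1 hpq)
  let _ : Algebra (MvPolynomial B K) Ω := ψ.toAlgebra
  let _ : Algebra (MvPolynomial B K) ℂ := a.toAlgebra
  have hf1 : FaithfulSMul (MvPolynomial B K) Ω :=
    (faithfulSMul_iff_algebraMap_injective (MvPolynomial B K) Ω).2 hψ
  have hf2 : FaithfulSMul (MvPolynomial B K) ℂ :=
    (faithfulSMul_iff_algebraMap_injective (MvPolynomial B K) ℂ).2 hind
  have halg : Algebra.IsAlgebraic (MvPolynomial B K) ℂ := by
    constructor
    intro z
    obtain ⟨p, hp, hpz⟩ := hB.isAlgebraic.isAlgebraic z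
    refine ⟨p.map (e.symm : _ →+* MvPolynomial B K), ?_, ?_⟩
    · rw [Ne, Polynomial.map_eq_zero_iff e.symm.injective]
      exact hp
    · rw [Polynomial.aeval_def, Polynomial.eval₂_map]
      rw [Polynomial.aeval_def] at hpz
      convert hpz using 2
      ext r
      change a (e.symm r) = r
      have h1 : e (e.symm r) = r := e.apply_symm_apply r
      have h2 : a (e.symm r) = ((e (e.symm r) : _) : ℂ) :=
        (hind.algebraMap_aevalEquiv (e.symm r)).symm
      rw [h2, h1]
  let f : ℂ →ₐ[MvPolynomial B K] Ω := IsAlgClosed.lift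
  have hfR : ∀ r : MvPolynomial B K, f (a r) = ψ r := fun r => f.commutes r
  refine ⟨f, ?_, ?_⟩
  · intro i
    have hi : x i ∈ B := hxB ⟨i, rfl⟩
    have h1 := hfR (X ⟨x i, hi⟩)
    simpa [a, ψ] using h1
  · intro k
    have h1 := hfR (C k)
    simpa [a, ψ] using h1

end Pool.Agent.V9h68
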