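import Pool.Agent.V9h68.Rb3

/-!
Loci of points over countable algebraically closed fields, and their generic points.
-/

set_option autoImplicit false

open MvPolynomial Set Filter

noncomputable section

namespace Pool.Agent.V9h68

open Pool.Agent.Y776 Pool.Agent.Y685
open Pool.Agent.TH813.Rel (MK mem_cl subset_cl rk_le_of_subset_cl cl_add cl_mul cl_inv cl_of_base)

/-- the locus of the point `P` over the field `k` -/
def Loc (k : Subfield ℂ) {ι : Type} (P : ι → ℂ) : Set (ι → ℂ) :=
  {v | ∀ f : MvPolynomial ι ℂ, (∀ α, f.coeff α ∈ k) → eval P f = 0 → eval v f = 0}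

theorem exists_pol {k : Subfield ℂ} {ι : Type} {f : MvPolynomial ι ℂ} (h : ∀ α, f.coeff α ∈ k) :
    ∃ g : MvPolynomial ι k, MvPolynomial.map (algebraMap k ℂ) g = f := by
  have h1 : f ∈ Set.range (MvPolynomial.map (algebraMap k ℂ) :
      MvPolynomial ι k → MvPolynomial ι ℂ) := by
    rw [MvPolynomial.mem_range_map_iff_coeffs_subset]
    intro z hz
    rw [Finset.mem_coe, MvPolynomial.mem_coeffs_iff] at hz
    obtain ⟨m, -, rfl⟩ := hz
    exact ⟨⟨_, h m⟩, rfl⟩
  exact h1

theorem eval_pol {k : Subfield ℂ} {ι : Type} (v : ι → ℂ) (g : MvPolynomial ι k) :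
    eval v (MvPolynomial.map (algebraMap k ℂ) g) = aeval v g := by
  rw [eval_map]
  rfl

theorem coeff_pol {k : Subfield ℂ} {ι : Type} (g : MvPolynomial ι k) (α : ι →₀ ℕ) :
    (MvPolynomial.map (algebraMap k ℂ) g).coeff α ∈ k := by
  rw [coeff_map]
  exact (g.coeff α).2

/-- finitely many independent numbers -/
theorem exists_fin_indep {F : Subfield ℂ} (hF : (F : Set ℂ).Countable) (N : ℕ) :
    ∃ g : Fin N → ℂ, AlgebraicIndependent F g := by
  induction N with
  | zero =>
    refine ⟨fun i => i.elim0, ?_⟩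
    exact algebraicIndependent_empty_type
  | succ N ih =>
    obtain ⟨g, hg⟩ := ih
    obtain ⟨z, hz⟩ : ∃ z, z ∉ (MK F).closure (range g) := by
      by_contra hcon
      push Not at hcon
      have h1 : (Set.univ : Set ℂ).Countable :=
        (cl_countable hF (Set.countable_range g)).mono fun z _ => hcon z
      rw [← Cardinal.le_aleph0_iff_set_countable, Cardinal.mk_univ, Cardinal.mk_complex] at h1
      exact absurd Cardinal.aleph0_lt_continuum (not_lt.2 h1)
    have h1 : (MK F).Indep (range g) := by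
      have h2 := hg.to_subtype_range
      exact h2
    have h2 := (h1.notMem_closure_iff (Set.mem_univ _)).1 hz
    have h3 : AlgebraicIndependent F (fun i : (insert z (range g) : Set ℂ) => (i : ℂ)) := h2.1
    have hinj := hg.injective
    refine ⟨Fin.cons z g, ?_⟩
    let f : Fin (N + 1) → (insert z (range g) : Set ℂ) :=
      Fin.cons ⟨z, Or.inl rfl⟩ fun i => ⟨g i, Or.inr ⟨i, rfl⟩⟩
    have hf : ∀ i, ((f i : (insert z (range g) : Set ℂ)) : ℂ) = (Fin.cons z g : Fin (N + 1) → ℂ) i := by
      intro i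
      refine Fin.cases ?_ (fun i => ?_) i
      · rfl
      · rfl
    have h4 := h3.comp f (by
      intro i j hij
      have h5 : (Fin.cons z g : Fin (N + 1) → ℂ) i = (Fin.cons z g : Fin (N + 1) → ℂ) j := by
        rw [← hf, ← hf, hij]
      revert h5
      refine Fin.cases ?_ (fun i => ?_) i <;> refine Fin.cases ?_ (fun j => ?_) j
      · intro _; rfl
      · intro h5
        exact absurd ⟨j, h5.symm⟩ h2.2
      · intro h5
        exact absurd ⟨i, h5⟩ h2.2
      · intro h5
        rw [hinj (show g i = g j from h5)])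
    have h5 : (fun i : Fin (N + 1) => ((f i : (insert z (range g) : Set ℂ)) : ℂ)) = Fin.cons z g :=
      funext hf
    have h6 : AlgebraicIndependent F (fun i : Fin (N + 1) =>
      ((f i : (insert z (range g) : Set ℂ)) : ℂ)) := h4
    rwa [h5] at h6

/-- bases which contain a given independent set -/
theorem exists_basis_tuple {k : Subfield ℂ} {ι : Type} [Finite ι] (P : ι → ℂ) {I₀ : Set ℂ}
    (h0 : I₀ ⊆ range P) (hI₀ : (MK k).Indep I₀) :
    ∃ (m : ℕ) (J : Fin m → ι), AlgebraicIndependent k (fun a => P (J a)) ∧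
      (∀ i, P i ∈ (MK k).closure (range fun a => P (J a))) ∧ I₀ ⊆ range (fun a => P (J a)) := by
  classical
  obtain ⟨T, hT, hIT⟩ := hI₀.subset_isBasis_of_subset h0 (Set.subset_univ _)
  have hTf : T.Finite := (Set.finite_range P).subset hT.subset
  let e := hTf.toFinset.equivFin
  have hmem : ∀ a, ((e.symm a : hTf.toFinset) : ℂ) ∈ T := fun a => hTf.mem_toFinset.1 (e.symm a).2
  choose J hJ using fun a => hT.subset (hmem a)
  have hrange : range (fun a => P (J a)) = T := by
    ext z
    constructor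
    · rintro ⟨a, rfl⟩
      simp only [hJ]
      exact hmem a
    · intro hz
      refine ⟨e ⟨z, hTf.mem_toFinset.2 hz⟩, ?_⟩
      simp only [hJ]
      simp
  refine ⟨_, J, ?_, fun i => ?_, ?_⟩
  · have h1 : AlgebraicIndependent k (fun t : T => (t : ℂ)) := hT.indep
    have h2 := h1.comp (fun a => (⟨_, hmem a⟩ : T)) (by
      intro a a' haa
      have h3 := congrArg (fun z : T => (z : ℂ)) haa
      exact e.symm.injective (Subtype.ext h3))
    have h3 : (fun a => P (J a)) = fun a => ((e.symm a : hTf.toFinset) : ℂ) := funext hJ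
    rw [h3]
    exact h2
  · rw [hrange]
    exact hT.subset_closure ⟨i, rfl⟩
  · rw [hrange]
    exact hIT

/-- **generic points of a locus** -/
theorem gen_point {k : Subfield ℂ} (hk : ∀ x, IsAlgebraic k x → x ∈ k)
    (hkc : (k : Set ℂ).Countable) {ι : Type} {P : ι → ℂ} {m : ℕ} {J : Fin m → ι}
    (hJ : AlgebraicIndependent k (fun a => P (J a)))
    (hP : ∀ i, P i ∈ (MK k).closure (range fun a => P (J a))) {S : Set ℂ} (hS : S.Countable) :
    ∃ (F : Subfield ℂ) (τ : ℂ ≃+* ℂ), S ⊆ F ∧ k ≤ F ∧ (∀ x, IsAlgebraic F x → x ∈ F) ∧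
      (∀ a ∈ k, τ a = a) ∧ AlgebraicIndependent F (fun a => τ (P (J a))) ∧
      ∀ f : MvPolynomial ι ℂ, (∀ α, f.coeff α ∈ F) → eval (fun i => τ (P i)) f = 0 →
        ∀ v ∈ Loc k P, eval v f = 0 := by
  classical
  obtain ⟨F, hFdef⟩ : ∃ F, F = clF k S := ⟨_, rfl⟩
  have hFc : (F : Set ℂ).Countable := by
    rw [hFdef]
    exact cl_countable hkc hS
  have hkF : k ≤ F := by
    rw [hFdef]
    exact fun z hz => cl_of_base (k := k) _ (⟨z, hz⟩ : k)
  have hSF : S ⊆ F := by
    rw [hFdef]
    exact subset_cl _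
  have hFa : ∀ x, IsAlgebraic F x → x ∈ F := by
    rw [hFdef]
    exact clF_alg' _
  obtain ⟨g, hg⟩ := exists_fin_indep hFc m
  have hgk : AlgebraicIndependent k g := indep_base (K := k) (K' := F) (Subfield.inclusion hkF)
    (fun x => rfl) hg
  have : Countable k := hkc.to_subtype
  obtain ⟨τ, hτ1, hτ2⟩ := aut_tuple (K := k) (algebraMap k ℂ) (algebraMap k ℂ)
    (fun a => P (J a)) g (fun Q => by
      rw [algebraicIndependent_iff] at hJ hgk
      constructor
      · intro h
        rw [hJ Q h, eval₂_zero]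
      · intro h
        rw [hgk Q h, eval₂_zero])
  have hτk : ∀ a ∈ k, τ a = a := fun a ha => hτ1 ⟨a, ha⟩
  have hτg : (fun a => τ (P (J a))) = g := funext hτ2
  refine ⟨F, τ, hSF, hkF, hFa, hτk, by rw [hτg]; exact hg, fun f hf hf0 v hv => ?_⟩
  obtain ⟨f', rfl⟩ := exists_pol hf
  rw [eval_pol] at hf0 ⊢
  have h1 := rel_base (A₀ := k) (A := F) hk hFa hkF (u := fun i => τ (P i))
    (T := range g) hg.to_subtype_range (fun i => ?_) (τ := algebraMap F ℂ) (v := v)
    (fun g0 hg0 => ?_) f' hf0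
  · exact h1
  · have h2 := cl_hom (θ := (τ : ℂ →+* ℂ)) (K := k) (K' := k) (fun c hc => by
      change τ c ∈ k
      rw [hτk c hc]; exact hc) (hP i)
    have h3 : (τ : ℂ →+* ℂ) '' (range fun a => P (J a)) = range g := by
      rw [← hτg, ← Set.range_comp]
      rfl
    rw [h3] at h2
    exact h2
  · have h2 := hv (MvPolynomial.map (algebraMap k ℂ) g0) (coeff_pol g0) (by
      have h3 : (τ : ℂ →+* ℂ) (aeval P g0) = aeval (fun i => τ (P i)) g0 := by
        rw [aeval_def, aeval_def]
        have h4 := eval₂_comp_left (τ : ℂ →+* ℂ) (algebraMap k ℂ) P g0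
        rw [h4]
        have h5 : (τ : ℂ →+* ℂ).comp (algebraMap k ℂ) = algebraMap k ℂ := by
          ext z
          exact hτk z z.2
        rw [h5]
        rfl
      rw [hg0] at h3
      rw [eval_pol]
      exact (map_eq_zero (τ : ℂ →+* ℂ)).1 h3)
    rw [eval_pol] at h2
    exact h2

theorem mem_loc {k : Subfield ℂ} {ι : Type} {P : ι → ℂ} {τ : ℂ ≃+* ℂ} (hτ : ∀ a ∈ k, τ a = a) :
    (fun i => τ (P i)) ∈ Loc k P := by
  intro f hf hf0
  obtain ⟨g, rfl⟩ := exists_pol hf
  have h1 : MvPolynomial.map (τ : ℂ →+* ℂ) (MvPolynomial.map (algebraMap k ℂ) g) =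
      MvPolynomial.map (algebraMap k ℂ) g := by
    have h5 : (τ : ℂ →+* ℂ).comp (algebraMap k ℂ) = algebraMap k ℂ :=
      RingHom.ext fun z => hτ z z.2
    rw [MvPolynomial.map_map, h5]
  have h2 := eval₂_comp_left (τ : ℂ →+* ℂ) (RingHom.id ℂ) P (MvPolynomial.map (algebraMap k ℂ) g)
  rw [← h1, eval_map]
  rw [eval₂_id, hf0, map_zero] at h2
  exact h2.symm

theorem self_mem_loc {k : Subfield ℂ} {ι : Type} (P : ι → ℂ) : P ∈ Loc k P :=
  fun _ _ h => h

/-- the vanishing ideal of a locus -/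
def vI (k : Subfield ℂ) {ι : Type} (P : ι → ℂ) : Ideal (MvPolynomial ι ℂ) where
  carrier := {f | ∀ v ∈ Loc k P, eval v f = 0}
  add_mem' := fun {f g} hf hg v hv => by rw [map_add, hf v hv, hg v hv, add_zero]
  zero_mem' := fun v _ => map_zero _
  smul_mem' := fun c f hf v hv => by rw [smul_eq_mul, map_mul, hf v hv, mul_zero]

theorem coeffs_countable {ι : Type} [Countable ι] (f : MvPolynomial ι ℂ) :
    (range fun α => f.coeff α).Countable := Set.countable_range _

section

variable {k : Subfield ℂ} (hk : ∀ x, IsAlgebraic k x → x ∈ k) (hkc : (k : Set ℂ).Countable)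
  {ι : Type} [Finite ι] {P : ι → ℂ} {m : ℕ} {J : Fin m → ι}
  (hJ : AlgebraicIndependent k (fun a => P (J a)))
  (hP : ∀ i, P i ∈ (MK k).closure (range fun a => P (J a)))

include hk hkc hJ hP

/-- polynomials which do not vanish on the locus do not vanish at a generic point -/
theorem vI_prime : (vI k P).IsPrime := by
  classical
  refine ⟨fun h => ?_, fun {f g} hfg => ?_⟩
  · have h1 : (1 : MvPolynomial ι ℂ) ∈ vI k P := by
      rw [h]
      trivial
    have h2 := h1 P (self_mem_loc P)
    rw [map_one] at h2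
    exact one_ne_zero h2
  · obtain ⟨F, τ, hS, -, -, hτ, -, hF⟩ := gen_point hk hkc hJ hP
      (S := (range fun α => f.coeff α) ∪ range fun α => g.coeff α)
      ((coeffs_countable f).union (coeffs_countable g))
    have h1 := hfg _ (mem_loc (P := P) hτ)
    rw [map_mul] at h1
    rcases mul_eq_zero.1 h1 with h2 | h2
    · left
      exact hF f (fun α => hS (Or.inl ⟨α, rfl⟩)) h2
    · right
      exact hF g (fun α => hS (Or.inr ⟨α, rfl⟩)) h2

end

end Pool.Agent.V9h68
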