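import Pool.Agent.V9h68.Pl9

/-!
Tuples of linear forms in hereditary general position modulo a subspace.
-/

set_option autoImplicit false

open MvPolynomial Set Filter

noncomputable section

namespace Pool.Agent.V9h68

open Pool.Agent.Y776 Pool.Agent.Y685
open Pool.Agent.TH813.Rel (MK mem_cl subset_cl rk_le_of_subset_cl cl_add cl_mul cl_inv cl_of_base)
open Pool.Agent.Results.MP_209724_lc.LinearSpacesAtInfinity (GeneralPosition)

theorem lc_forms {n d : ℕ} {c : Fin n → Fin d → ℂ} {p : Fin d → ℂ} {x : Fin n → ℂ}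
    (hx : ∀ i, x i = ∑ l, c i l * p l) (v : Fin n → ℚ) :
    ∑ l, (∑ i, (v i : ℂ) * c i l) * p l = lc x v := by
  rw [← sum_eq_lc]
  simp only [hx, Finset.mul_sum, Finset.sum_mul]
  rw [Finset.sum_comm]
  refine Finset.sum_congr rfl fun i _ => Finset.sum_congr rfl fun l _ => ?_
  ring

/-- a tuple of linear forms modulo a subspace -/
theorem lin_data {K F : Subfield ℂ} (hKF : K ≤ F) (U : Submodule ℚ ℂ) (hU : ∀ u ∈ U, u ∈ F)
    {n d : ℕ} {c : Fin n → Fin d → ℂ} (hc : ∀ i l, c i l ∈ K) (hG : HG c) (hdn : d ≤ n)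
    {p : Fin d → ℂ} {x : Fin n → ℂ} (hx : ∀ i, x i = ∑ l, c i l * p l) :
    (∀ l, p l ∈ F) ∨ ∃ (s e : ℕ) (ι : Fin s → Fin n) (κ : Fin e → Fin s) (C : Fin s → Fin e → ℂ)
      (B : Fin s → ℂ) (D : Fin d → ℂ) (D' : Fin d → Fin e → ℂ),
      0 < e ∧ s + d = n + e ∧
      (∀ q : Fin s → ℚ, lc (fun j => x (ι j)) q ∈ U → q = 0) ∧
      (∀ i, ∃ q : Fin s → ℚ, x i - lc (fun j => x (ι j)) q ∈ U) ∧
      (∀ j m, C j m ∈ K) ∧ (∀ j, B j ∈ F) ∧ (∀ l, D l ∈ F) ∧ (∀ l m, D' l m ∈ K) ∧
      (∀ j, x (ι j) = ∑ m, C j m * x (ι (κ m)) + B j) ∧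
      (∀ l, p l = D l + ∑ m, D' l m * x (ι (κ m))) ∧
      (2 ≤ e → GeneralPosition e (DS C κ)) := by
  classical
  obtain ⟨s, k, ι, N, hks, h1, h2, hN, hNli, hsp⟩ := rel_data x U
  have hrow : ∀ (v : Fin n → ℚ) l, ∑ i, (v i : ℂ) * c i l ∈ K := fun v l =>
    sum_mem fun i _ => mul_mem (SubfieldClass.ratCast_mem K (v i)) (hc i l)
  have hNl : LinearIndependent ℚ N := by
    have h3 := hNli.comp Sum.inl Sum.inl_injective
    exact h3
  by_cases hkd : d ≤ k
  · left
    obtain ⟨e, κ, C, B, D, D', he, -, -, hD, -, -, hp, -⟩ := kform2 (K := K)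
      (b := fun (r : Fin d) l => ∑ i, (N (Fin.castLE hkd r) i : ℂ) * c i l)
      (a := fun j l => c (ι j) l) (fun r l => hrow _ l) (fun j l => hc _ l)
      (fun μ hμ => hG.rows le_rfl (N := fun r => N (Fin.castLE hkd r))
        (hNl.comp _ (Fin.castLE_injective hkd)) hμ)
      (fun q hq _ => square_inj (fun μ hμ => hG.rows le_rfl (N := fun r => N (Fin.castLE hkd r))
        (hNl.comp _ (Fin.castLE_injective hkd)) hμ) hq)
    have he0 : e = 0 := by omega
    subst he0
    intro l
    rw [hp p l]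
    refine add_mem (sum_mem fun r _ => ?_) (sum_mem fun m _ => m.elim0)
    rw [lc_forms hx]
    exact mul_mem (hKF (hD l r)) (hU _ (hN _))
  · right
    obtain ⟨e, κ, C, B, D, D', he, hC, hB, hD, hD', hexp, hp, hsur⟩ := kform2 (K := K)
      (b := fun (r : Fin k) l => ∑ i, (N r i : ℂ) * c i l)
      (a := fun j l => c (ι j) l) (fun r l => hrow _ l) (fun j l => hc _ l)
      (fun μ hμ => hG.rows (by omega) hNl hμ)
      (fun q hq1 hq2 => hG.inj hdn fun i => by
        obtain ⟨α, β, hαβ⟩ := hsp (Pi.single i 1)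
        have h3 : ∀ v : Fin n → ℚ, lc (fun i => ∑ l, c i l * q l) v =
            ∑ l, (∑ i, (v i : ℂ) * c i l) * q l := fun v => (lc_forms (fun i => rfl) v).symm
        have h4 : lc (fun i => ∑ l, c i l * q l) (Pi.single i 1) = ∑ l, c i l * q l := by
          rw [lc_single, one_smul]
        rw [← h4, hαβ, lc_add, ← lc_lc, ← lc_lc]
        have h5 : ∀ r, lc (fun i => ∑ l, c i l * q l) (N r) = 0 := fun r => by
          rw [h3]
          exact hq1 r
        have h6 : ∀ j, lc (fun i => ∑ l, c i l * q l) (Pi.single (ι j) 1) = 0 := fun j => by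
          rw [lc_single, one_smul]
          exact hq2 j
        simp only [h5, h6, smul_zero, Finset.sum_const_zero, add_zero])
    have hxN : ∀ r, ∑ l, (∑ i, (N r i : ℂ) * c i l) * p l = lc x (N r) := fun r => lc_forms hx _
    refine ⟨s, e, ι, κ, C, fun j => ∑ r, B j r * lc x (N r), fun l => ∑ r, D l r * lc x (N r), D',
      by omega, by omega, h1, h2, hC, fun j => sum_mem fun r _ => mul_mem (hKF (hB j r))
        (hU _ (hN r)), fun l => sum_mem fun r _ => mul_mem (hKF (hD l r)) (hU _ (hN r)), hD',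
      fun j => ?_, fun l => ?_, fun he2 => gp_dir hG hNli he he2 hexp hsur⟩
    · rw [hx (ι j)]
      have h3 : ∑ l, c (ι j) l * p l = ∑ l, (∑ r, B j r * ∑ i, (N r i : ℂ) * c i l +
          ∑ m, C j m * c (ι (κ m)) l) * p l := by
        refine Finset.sum_congr rfl fun l _ => ?_
        rw [← hexp j l]
      rw [h3]
      simp only [← hxN, hx]
      simp only [add_mul, Finset.sum_add_distrib]
      rw [add_comm]
      congr 1
      · simp only [Finset.sum_mul, Finset.mul_sum]
        rw [Finset.sum_comm]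
        refine Finset.sum_congr rfl fun r _ => Finset.sum_congr rfl fun l _ => ?_
        ring
      · simp only [Finset.sum_mul, Finset.mul_sum]
        rw [Finset.sum_comm]
        refine Finset.sum_congr rfl fun r _ => Finset.sum_congr rfl fun l _ =>
          Finset.sum_congr rfl fun i _ => ?_
        ring
    · rw [hp p l]
      simp only [hxN, hx]

end Pool.Agent.V9h68
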