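import Pool.Agent.V9h68.Pl10

/-!
The exponential points are dense in loci over affine spaces with directions in general position.
-/

set_option autoImplicit false

open MvPolynomial Set Filter

noncomputable section

namespace Pool.Agent.V9h68

open Pool.Agent.Y776 Pool.Agent.Y685
open Pool.Agent.TH813.Rel (MK mem_cl subset_cl rk_le_of_subset_cl cl_add cl_mul cl_inv cl_of_base)
open Pool.Agent.Results.MP_209724_lc.LinearSpacesAtInfinity (IsVariety Indep HasDim GeneralPosition
  OverTranslate Translate ExpPoint)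

/-- **density of exponential points over affine spaces in general position** -/
theorem loc_dense_g {k : Subfield ℂ} (hk : ∀ x, IsAlgebraic k x → x ∈ k)
    (hkc : (k : Set ℂ).Countable) {n : ℕ} {P : Fin n ⊕ Fin n → ℂ} (hP0 : ∀ j, P (Sum.inr j) ≠ 0)
    (hrk : (n : ℕ∞) ≤ (MK k).eRk (range P)) {e : ℕ} (he : 1 ≤ e) {κ : Fin e → Fin n}
    {C : Fin n → Fin e → ℂ} {B : Fin n → ℂ} (hL : GeneralPosition e (DS C κ))
    (hC : ∀ i m, C i m ∈ k) (hB : ∀ i, B i ∈ k)
    (hPL : ∀ i, P (Sum.inl i) = ∑ m, C i m * P (Sum.inl (κ m)) + B i)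
    (hind : AlgebraicIndependent k fun m => P (Sum.inl (κ m)))
    {H : MvPolynomial (Fin n ⊕ Fin n) ℂ}
    (hH : ∀ z : Fin n → ℂ, Sum.elim z (fun i => Complex.exp (z i)) ∈ Loc k P →
      eval (Sum.elim z (fun i => Complex.exp (z i))) H = 0) :
    ∀ v ∈ Loc k P, eval v H = 0 := by
  classical
  obtain ⟨m, J, hJ, hP, hI⟩ := exists_basis_tuple (k := k) P
    (I₀ := range fun m => P (Sum.inl (κ m))) (by
      rintro _ ⟨i, rfl⟩
      exact ⟨_, rfl⟩) hind.to_subtype_range
  have hI' : ∀ l : Fin e, ∃ a, P (J a) = P (Sum.inl (κ l)) := fun l => hI ⟨l, rfl⟩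
  choose a ha using hI'
  have hainj : Function.Injective a := by
    intro l l' hl
    apply hind.injective
    change P (Sum.inl (κ l)) = P (Sum.inl (κ l'))
    rw [← ha, ← ha, hl]
  have hnm : n ≤ m := by
    have h1 : (MK k).eRk (range P) ≤ (m : ℕ) := by
      have h5 : range P ⊆ (MK k).closure (range fun a => P (J a)) := by
        rintro _ ⟨j, rfl⟩
        exact hP j
      exact (rk_le_of_subset_cl h5).trans (((MK _).eRk_le_encard _).trans (encard_range_le _))
    exact_mod_cast hrk.trans h1
  have hOT : OverTranslate (GV k P) (DS C κ) := by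
    refine ⟨AffineSubspace.mk' (fun i => P (Sum.inl i)) (DS C κ),
      AffineSubspace.direction_mk' _ _, fun p hp => ?_, fun f hf => ?_⟩
    · rw [AffineSubspace.mem_mk', mem_DS]
      intro i
      have h1 := hp.1 (MvPolynomial.map (algebraMap k ℂ) (X (Sum.inl i) -
        ∑ m, MvPolynomial.C ⟨C i m, hC i m⟩ * X (Sum.inl (κ m)) - MvPolynomial.C ⟨B i, hB i⟩))
        (coeff_pol _) (by
          rw [eval_pol]
          simp only [map_sub, map_sum, map_mul, aeval_X, aeval_C]
          change P (Sum.inl i) - ∑ m, C i m * P (Sum.inl (κ m)) - B i = 0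
          rw [hPL i]
          ring)
      rw [eval_pol] at h1
      simp only [map_sub, map_sum, map_mul, aeval_X, aeval_C] at h1
      have h2 : p (Sum.inl i) - ∑ m, C i m * p (Sum.inl (κ m)) - B i = 0 := h1
      change p (Sum.inl i) - P (Sum.inl i) = ∑ m, C i m * (p (Sum.inl (κ m)) - P (Sum.inl (κ m)))
      simp only [mul_sub, Finset.sum_sub_distrib]
      rw [hPL i]
      linear_combination h2
    · obtain ⟨h, hh⟩ : ∃ h : MvPolynomial (Fin e) ℂ, ∀ t : Fin e → ℂ,
          eval t h = eval (fun i => ∑ m, C i m * t m + B i) f := by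
        refine ⟨bind₁ (fun i => ∑ m, MvPolynomial.C (C i m) * X m + MvPolynomial.C (B i)) f,
          fun t => ?_⟩
        have h1 : eval t (bind₁ (fun i => ∑ m, MvPolynomial.C (C i m) * X m +
            MvPolynomial.C (B i)) f) =
            aeval t (bind₁ (fun i => ∑ m, MvPolynomial.C (C i m) * X m +
              MvPolynomial.C (B i)) f) := rfl
        rw [h1, aeval_bind₁]
        simp only [map_add, map_sum, map_mul, aeval_X, aeval_C]
        rfl
      obtain ⟨F, τ, hS, -, -, hτ, hτJ, -⟩ := gen_point hk hkc hJ hP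
        (S := range fun α => h.coeff α) (coeffs_countable h)
      have hc := hf _ (gen_mem hP0 hτ)
      have hce : (fun i => τ (P (Sum.inl i))) =
          fun i => ∑ m, C i m * τ (P (Sum.inl (κ m))) + B i := by
        funext i
        rw [hPL i, map_add, map_sum, hτ _ (hB i)]
        congr 1
        refine Finset.sum_congr rfl fun m _ => ?_
        rw [map_mul, hτ _ (hC i m)]
      have hc' : eval (fun i => τ (P (Sum.inl i))) f = 0 := hc
      rw [hce, ← hh fun m => τ (P (Sum.inl (κ m)))] at hc'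
      have hτ2 : AlgebraicIndependent F fun m => τ (P (Sum.inl (κ m))) := by
        have h1 := hτJ.comp a hainj
        convert h1 using 1
        funext i
        change τ (P (Sum.inl (κ i))) = τ (P (J (a i)))
        rw [ha]
      have h0 : h = 0 := pol_zero (F := F) (c := fun m => τ (P (Sum.inl (κ m))))
        (J := id) Function.injective_id hτ2 (fun α => hS ⟨α, rfl⟩) (by simp) hc'
      intro x hx
      rw [AffineSubspace.mem_mk', mem_DS] at hx
      have h1 := hh fun m => x (κ m)
      rw [h0, map_zero] at h1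
      rw [h1]
      congr 2
      funext i
      have h2 : x i - P (Sum.inl i) = ∑ m, C i m * (x (κ m) - P (Sum.inl (κ m))) := hx i
      simp only [mul_sub, Finset.sum_sub_distrib] at h2
      rw [hPL i] at h2
      linear_combination h2
  intro v hv
  by_contra hcon
  obtain ⟨F, τ, hS, -, -, hτ, -, hF⟩ := gen_point hk hkc hJ hP
    (S := range fun α => H.coeff α) (coeffs_countable H)
  have hcH : eval (fun i => τ (P i)) H ≠ 0 := fun h0 => hcon (hF H (fun α => hS ⟨α, rfl⟩) h0 v hv)
  obtain ⟨c1, hc1⟩ : ∃ c1 : Fin n ⊕ Fin n → ℂ, c1 = Sum.elim (fun _ => (0 : ℂ)) fun _ => 1 :=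
    ⟨_, rfl⟩
  have htr : ∀ p, p ∈ Translate c1 (GV k P) ↔ p ∈ GV k P := by
    intro p
    have h1 : ∀ u : Fin n ⊕ Fin n → ℂ, Sum.elim
        (fun i : Fin n => u (Sum.inl i) + c1 (Sum.inl i))
        (fun i : Fin n => c1 (Sum.inr i) * u (Sum.inr i)) = u := by
      intro u
      funext i
      rcases i with i | i
      · simp [hc1]
      · simp [hc1]
    constructor
    · rintro ⟨u, hu, rfl⟩
      rw [h1]
      exact hu
    · intro hp
      exact ⟨p, hp, (h1 p).symm⟩
  obtain ⟨z, hz, hzH⟩ := (Pool.Agent.Results.MP_209724_lc.LinearSpacesAtInfinity.result.1 n e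
    (DS C κ) he hL (vI k P) (GV k P) (isVariety hk hkc hP0 hJ hP) m hnm
    (hasDim hk hkc hP0 hJ hP) (Or.inl hOT)).1
    c1 (fun i => by simp [hc1]) H
    ⟨_, (htr _).2 (gen_mem hP0 hτ), hcH⟩
  exact hzH (hH z ((htr _).1 hz).1)

end Pool.Agent.V9h68
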