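import Pool.Agent.V9h68.Pl11
import Pool.Agent.V9h68.Cc

/-!
Extension of isomorphisms by independent tuples over affine spaces in general position.
-/

set_option autoImplicit false

open MvPolynomial Set Filter

noncomputable section

namespace Pool.Agent.V9h68

open Pool.Agent.Y776 Pool.Agent.Y685
open Pool.Agent.TH813.Rel (MK mem_cl subset_cl rk_le_of_subset_cl cl_add cl_mul cl_inv cl_of_base)
open Pool.Agent.Results.MP_209724_lc.LinearSpacesAtInfinity (GeneralPosition)

theorem algInd_of_rk {F : Subfield ℂ} {e : ℕ} {y : Fin e → ℂ}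
    (h : (e : ℕ∞) ≤ (MK F).eRk (range y)) : AlgebraicIndependent F y := by
  classical
  apply indep_crit0
  intro l hl
  have h1 : range y ⊆ (MK F).closure (y '' {l}ᶜ) := by
    rintro _ ⟨m, rfl⟩
    by_cases hm : m = l
    · rw [hm]
      exact hl
    · exact subset_cl _ ⟨m, hm, rfl⟩
  have h2 : (y '' {l}ᶜ).encard ≤ ((e - 1 : ℕ) : ℕ∞) := by
    have h3 : y '' {l}ᶜ ⊆ (((Finset.univ.erase l).image y : Finset ℂ) : Set ℂ) := by
      rintro _ ⟨m, hm, rfl⟩
      rw [Finset.mem_coe]
      exact Finset.mem_image_of_mem _ (Finset.mem_erase.2 ⟨hm, Finset.mem_univ _⟩)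
    refine (Set.encard_le_encard h3).trans ?_
    rw [Set.encard_coe_eq_coe_finsetCard]
    have h4 := Finset.card_image_le (s := Finset.univ.erase l) (f := y)
    rw [Finset.card_erase_of_mem (Finset.mem_univ _), Finset.card_univ, Fintype.card_fin] at h4
    exact_mod_cast h4
  have h3 := h.trans ((rk_le_of_subset_cl h1).trans (((MK F).eRk_le_encard _).trans h2))
  norm_cast at h3
  have := l.pos
  omega

theorem le_rk_of {F : Subfield ℂ} {N : ℕ} {X : Set ℂ}
    (h : ∀ a : ℕ, (MK F).eRk X ≤ (a : ℕ) → N ≤ a) : (N : ℕ∞) ≤ (MK F).eRk X := by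
  by_contra hcon
  rw [not_le] at hcon
  obtain ⟨a, ha⟩ := ENat.ne_top_iff_exists.1 (ne_top_of_lt hcon)
  have h1 := h a (le_of_eq ha.symm)
  rw [← ha] at hcon
  have h2 : a < N := by exact_mod_cast hcon
  omega

/-- extension by an independent tuple over an affine space in general position -/
theorem Wt.lin_ind {K : Subfield ℂ} (hK : GD K) (w : Wt K) {n : ℕ} {c : Fin n → ℂ}
    (hbc : ∀ q : Fin (w.p + n) → ℚ, lc (Fin.append w.b c) q ∈ K → q = 0)
    (hrk : (MK K).eRk (ET (Fin.append w.b c)) ≤ (w.p + w.d + n : ℕ))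
    {e : ℕ} (he : 1 ≤ e) {κ : Fin e → Fin n} {C : Fin n → Fin e → ℂ} {B : Fin n → ℂ}
    (hL : GeneralPosition e (DS C κ)) (hC : ∀ i m, C i m ∈ K) (hB : ∀ i, B i ∈ clF K (ET w.b))
    (hcL : ∀ i, c i = ∑ m, C i m * c (κ m) + B i)
    (hind : (e : ℕ∞) ≤ (MK (clF K (ET w.b))).eRk (range fun m => c (κ m))) :
    ∃ w1 : Wt K, w.Le w1 ∧ ∀ i, c i ∈ w1.V := by
  classical
  have hn : 0 < n := (κ ⟨0, he⟩).pos
  rcases Nat.eq_zero_or_pos w.d with hd | hd
  · exfalso
    have hp : w.p = 0 := by
      have h1 : Sc K w.b 0 := by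
        have := w.wc.src
        rwa [hd] at this
      exact h1.zero hK.toGF
    have h1 := hK.rk (w.p + n) (Fin.append w.b c) (by omega) hbc
    have h2 := h1.trans hrk
    norm_cast at h2
    omega
  have : Countable K := hK.cnt.to_subtype
  obtain ⟨M, hM, hkum⟩ := kum (a := Fin.append w.b c) hK.alg (exp_ind hK.toGF hbc)
  have hM0 : (M : ℂ) ≠ 0 := by exact_mod_cast hM.ne'
  have hσb : ∀ i, w.σ (dvM M w.b i) = dvM M w.b' i := by
    intro i
    unfold dvM
    rw [map_div₀, map_natCast, w.wc.map]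
  have hσe : ∀ i, w.σ (Complex.exp (dvM M w.b i)) = Complex.exp (dvM M w.b' i) := by
    intro i
    have h1 : ∀ a : Fin w.p → ℂ, dvM M a i = lc a (Pi.single i (M : ℚ)⁻¹) := by
      intro a
      rw [lc_single, Rat.smul_def]
      unfold dvM
      push_cast
      ring
    rw [h1, h1, w.wc.exp]
  obtain ⟨A, hAdef⟩ : ∃ A, A = clF K (ET (dvM M w.b)) := ⟨_, rfl⟩
  have hAc' : (A : Set ℂ).Countable := by
    rw [hAdef]
    exact cl_countable hK.cnt (ET_countable _)
  have hAc : Countable A := hAc'.to_subtype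
  have hAalg : ∀ x, IsAlgebraic A x → x ∈ A := by
    rw [hAdef]
    exact clF_alg' _
  have hKA : ∀ z ∈ K, z ∈ A := fun z hz => by
    rw [hAdef]
    exact cl_of_base (k := K) _ (⟨z, hz⟩ : K)
  have hFA : clF K (ET w.b) ≤ A := by
    rw [hAdef]
    refine cl_sub_of ?_
    rintro _ (⟨i, rfl⟩ | ⟨i, rfl⟩)
    · have h1 : w.b i = (M : ℚ) • dvM M w.b i := by
        rw [Rat.smul_def]
        unfold dvM
        push_cast
        field_simp
      rw [h1]
      exact cl_rat _ (subset_cl _ (mem_ET_l _ i))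
    · have h1 : w.b i = (M : ℚ) • dvM M w.b i := by
        rw [Rat.smul_def]
        unfold dvM
        push_cast
        field_simp
      change Complex.exp (w.b i) ∈ _
      rw [h1]
      exact cl_exp_rat _ (subset_cl _ (mem_ET_r _ i))
  have hAF : A = clF K (ET w.b) := by
    refine le_antisymm ?_ hFA
    rw [hAdef]
    exact cl_sub_of (ET_dvM (K := K) w.b)
  obtain ⟨u, hu⟩ : ∃ u, u = dvM M c := ⟨_, rfl⟩
  have hind' : ∀ q, lc (Fin.append (dvM M w.b) u) q ∈ K → q = 0 := by
    intro q hq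
    rw [hu, dvM_append, lc_dvM_mem hM] at hq
    exact hbc q hq
  have hrk' : (MK K).eRk (ET (Fin.append (dvM M w.b) u)) ≤ (w.p + w.d + n : ℕ) := by
    rw [hu, dvM_append]
    exact (rk_le_of_subset_cl (ET_dvM _)).trans hrk
  -- the rank over `A`
  have hlow : (n : ℕ∞) ≤ (MK A).eRk (ET u) := by
    refine le_rk_of fun a ha => ?_
    rw [hAdef] at ha
    have h1 := rk_add (w.wc.src.dvM hM).rk ha
    rw [← ET_append] at h1
    obtain ⟨L, hL⟩ := w.wc.src.chn
    have h2 := ((hL.dvM hM).append u).low hd hind' h1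
    omega
  have hindu : (e : ℕ∞) ≤ (MK A).eRk (range fun m => u (κ m)) := by
    rw [← hAF] at hind
    refine hind.trans (rk_le_of_subset_cl ?_)
    rintro _ ⟨m, rfl⟩
    have h1 : c (κ m) = (M : ℚ) • u (κ m) := by
      rw [Rat.smul_def, hu]
      unfold dvM
      push_cast
      field_simp
    change c (κ m) ∈ _
    rw [h1]
    exact cl_rat _ (subset_cl _ ⟨m, rfl⟩)
  have huL : ∀ i, u i = ∑ m, C i m * u (κ m) + B i / M := by
    intro i
    rw [hu]
    change c i / M = ∑ m, C i m * (c (κ m) / M) + B i / M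
    rw [hcL i, add_div, Finset.sum_div]
    congr 1
    refine Finset.sum_congr rfl fun m _ => ?_
    ring
  -- the conjugate
  obtain ⟨k, hkdef⟩ : ∃ k : Subfield ℂ, k = A.map (w.σ : ℂ →+* ℂ) := ⟨_, rfl⟩
  have hmk : ∀ z, z ∈ A → w.σ z ∈ k := fun z hz => by
    rw [hkdef]
    exact ⟨z, hz, rfl⟩
  have hkm : ∀ z, z ∈ k → w.σ.symm z ∈ A := fun z hz => by
    rw [hkdef] at hz
    obtain ⟨y, hy, rfl⟩ := hz
    change w.σ.symm (w.σ y) ∈ A
    rw [RingEquiv.symm_apply_apply]
    exact hy
  have hkc : (k : Set ℂ).Countable := by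
    refine (hAc'.image w.σ).mono ?_
    intro z hz
    exact ⟨w.σ.symm z, hkm z hz, RingEquiv.apply_symm_apply _ _⟩
  have hkalg : ∀ x, IsAlgebraic k x → x ∈ k := by
    intro x hx
    have h1 : x ∈ (MK k).closure ∅ := by
      obtain ⟨q, hq, hqx⟩ := hx
      refine cl_root (f := q.map (algebraMap k ℂ)) ?_ ?_ ?_
      · rw [Ne, Polynomial.map_eq_zero_iff (algebraMap k ℂ).injective]
        exact hq
      · intro i
        rw [Polynomial.coeff_map]
        exact cl_of_base (k := k) _ _
      · rw [Polynomial.eval_map]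
        exact hqx
    have h2 := cl_hom (θ := (w.σ.symm : ℂ →+* ℂ)) (K := k) (K' := A) (fun c hc => hkm c hc) h1
    rw [Set.image_empty] at h2
    have h3 : w.σ.symm x ∈ A := cl_le_alg (K := A) (F := A) le_rfl hAalg (Set.empty_subset _) h2
    have h4 := hmk _ h3
    rwa [RingEquiv.apply_symm_apply] at h4
  have hrkσ : ∀ S : Set ℂ, (MK A).eRk S ≤ (MK k).eRk (w.σ '' S) := by
    intro S
    have h1 := rk_hom (θ := (w.σ.symm : ℂ →+* ℂ)) (K := k) (K' := A) (fun c hc => hkm c hc)
      (w.σ '' S)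
    have h2 : (w.σ.symm : ℂ →+* ℂ) '' (w.σ '' S) = S := by
      rw [Set.image_image]
      refine Eq.trans (Set.image_congr fun z _ => ?_) (Set.image_id S)
      exact RingEquiv.symm_apply_apply _ _
    rwa [h2] at h1
  obtain ⟨c'', σ1, hσ1, hσc, hσc'⟩ := gsecg hK (w.wc.src.dvM hM) (w.wc.tgt.dvM hM) hd hind' hAdef
    hrk' hn w.wc.fix hσb hσe (by
      intro H hH
      by_contra hcon
      push Not at hcon
      have h1 := loc_dense_g (k := k) hkalg hkc (P := fun i => w.σ (ep u i)) (fun j => by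
          rw [Ne, map_eq_zero]
          exact Complex.exp_ne_zero _) (by
          refine hlow.trans ((hrkσ _).trans (le_of_eq ?_))
          rw [← range_ep, ← Set.range_comp]
          rfl) he (C := C) (B := fun i => w.σ (B i / M)) hL
        (fun i m => by
          rw [← w.wc.fix _ (hC i m)]
          exact hmk _ (hKA _ (hC i m))) (fun i => hmk _ (div_mem (hFA (hB i)) (natCast_mem A M)))
        (fun i => by
          change w.σ (u i) = ∑ m, C i m * w.σ (u (κ m)) + w.σ (B i / M)
          conv_lhs => rw [huL i]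
          rw [map_add, map_sum]
          congr 1
          refine Finset.sum_congr rfl fun m _ => ?_
          rw [map_mul, w.wc.fix _ (hC i m)])
        (algInd_of_rk (by
          refine hindu.trans ((hrkσ _).trans (le_of_eq ?_))
          rw [← Set.range_comp]
          rfl))
        (H := MvPolynomial.map ((w.σ : ℂ →+* ℂ).comp (algebraMap A ℂ)) H) (fun z hz => ?_)
        (fun i => w.σ (ep u i)) (fun f _ hf0 => hf0)
      · rw [eval_map] at h1
        have h2 := eval₂_comp_left (w.σ : ℂ →+* ℂ) (algebraMap A ℂ) (ep u) H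
        have h3 : w.σ (aeval (ep u) H) = 0 := h2.trans h1
        exact hH ((map_eq_zero w.σ).1 h3)
      · rw [eval_map]
        refine hcon z fun f hf => ?_
        have h2 := hz (MvPolynomial.map ((w.σ : ℂ →+* ℂ).comp (algebraMap A ℂ)) f) (fun α => by
          rw [coeff_map]
          exact hmk _ (f.coeff α).2) (by
          rw [eval_map]
          have h3 := eval₂_comp_left (w.σ : ℂ →+* ℂ) (algebraMap A ℂ) (ep u) f
          have h4 : w.σ (aeval (ep u) f) = 0 := by rw [hf, map_zero]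
          exact h3.symm.trans h4)
        rw [eval_map] at h2
        exact h2)
  obtain ⟨c', rfl⟩ : ∃ c' : Fin n → ℂ, c'' = dvM M c' := by
    refine ⟨fun i => M * c'' i, ?_⟩
    funext i
    unfold dvM
    field_simp
  have hbA : ∀ z ∈ ET (dvM M w.b), z ∈ A := fun z hz => by
    rw [hAdef]
    exact subset_cl _ hz
  have hlv : Lv K (dvM M (Fin.append w.b c)) (dvM M (Fin.append w.b' c')) := by
    rw [← dvM_append, ← dvM_append]
    refine ⟨σ1, fun z hz => ?_, fun l => ?_, fun l => ?_⟩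
    · rw [hσ1 z (hKA z hz), w.wc.fix z hz]
    · refine Fin.addCases (fun i => ?_) (fun i => ?_) l
      · rw [Fin.append_left, Fin.append_left, hσ1 _ (hbA _ (mem_ET_l _ i)), hσb]
      · rw [Fin.append_right, Fin.append_right, ← hu, hσc]
    · refine Fin.addCases (fun i => ?_) (fun i => ?_) l
      · rw [Fin.append_left, Fin.append_left, hσ1 _ (hbA _ (mem_ET_r _ i)), hσe]
      · rw [Fin.append_right, Fin.append_right, ← hu, hσc']
  obtain ⟨σ2, hw, hle⟩ := w.mk'' hbc hrk (hkum _ (liso_of_lv hM hlv))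
  exact ⟨_, hle, fun i => Vs_append_right c i⟩

end Pool.Agent.V9h68
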