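import Pool.Agent.V9h68.Pl12

/-!
Extension of isomorphisms by solutions of systems in linear forms in hereditary general position.
-/

set_option autoImplicit false

open MvPolynomial Set Filter

noncomputable section

namespace Pool.Agent.V9h68

open Pool.Agent.Y776 Pool.Agent.Y685
open Pool.Agent.TH813.Rel (MK mem_cl subset_cl rk_le_of_subset_cl cl_add cl_mul cl_inv cl_of_base)
open Pool.Agent.Results.MP_209724_lc.LinearSpacesAtInfinity (GeneralPosition)

/-- closures grow -/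
theorem Wt.Le.cl {K : Subfield ℂ} (hK : GD K) {w w1 : Wt K} (h : w.Le w1) {z : ℂ}
    (hz : z ∈ (MK K).closure (ET w.b)) : z ∈ (MK K).closure (ET w1.b) := by
  refine cl_sub_of ?_ hz
  have h1 : ∀ i, w.b i ∈ w1.V := fun i => h.1 ⟨Pi.single i 1, by
    rw [lc_single, one_smul, sub_self]
    exact K.zero_mem⟩
  rintro _ (⟨i, rfl⟩ | ⟨i, rfl⟩)
  · exact (Vs_cl hK.exp (h1 i)).1
  · exact (Vs_cl hK.exp (h1 i)).2

/-- extension by finitely many algebraic elements -/
theorem Wt.algs {K : Subfield ℂ} (hK : GD K) (w : Wt K) {N : ℕ} {z : Fin N → ℂ}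
    (hz : ∀ l, z l ∈ (MK K).closure (ET w.b)) : ∃ w1 : Wt K, w.Le w1 ∧ ∀ l, z l ∈ w1.V := by
  induction N with
  | zero => exact ⟨w, Wt.Le.refl w, fun l => l.elim0⟩
  | succ N ih =>
    obtain ⟨w1, h1, h2⟩ := ih (z := fun l => z l.castSucc) fun l => hz _
    obtain ⟨w2, h3, h4⟩ := w1.alg hK (h1.cl hK (hz (Fin.last N)))
    refine ⟨w2, h1.trans h3, fun l => ?_⟩
    refine Fin.lastCases ?_ (fun l => ?_) l
    · exact h4
    · exact h3.1 (h2 l)

/-- the rank of the basis -/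
theorem lin_rank {F : Subfield ℂ} {n d s e : ℕ} {p : Fin d → ℂ} {x : Fin n → ℂ}
    {ι : Fin s → Fin n} {κ : Fin e → Fin s} {C : Fin s → Fin e → ℂ} {B : Fin s → ℂ}
    {D : Fin d → ℂ} {D' : Fin d → Fin e → ℂ} (hC : ∀ j m, C j m ∈ F) (hB : ∀ j, B j ∈ F)
    (hD : ∀ l, D l ∈ F) (hD' : ∀ l m, D' l m ∈ F)
    (hxa : ∀ j, x (ι j) = ∑ m, C j m * x (ι (κ m)) + B j)
    (hpa : ∀ l, p l = D l + ∑ m, D' l m * x (ι (κ m))) {b : ℕ}
    (hrk : (MK (clF F (range p))).eRk (range fun i => Complex.exp (x i)) ≤ (b : ℕ)) {a : ℕ}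
    (ha : (MK F).eRk (range fun m => x (ι (κ m))) ≤ (a : ℕ)) :
    (MK F).eRk (ET fun j => x (ι j)) ≤ (a + b : ℕ) := by
  classical
  obtain ⟨T, hT⟩ : ∃ T, T = range fun m => x (ι (κ m)) := ⟨_, rfl⟩
  rw [← hT] at ha
  have hF : ∀ z ∈ F, ∀ S : Set ℂ, z ∈ clF F S := fun z hz S => cl_of_base (k := F) _ (⟨z, hz⟩ : F)
  have hp : clF F (range p) ≤ clF F T := by
    refine cl_sub_of ?_
    rintro _ ⟨l, rfl⟩
    have h1 : p l ∈ clF F T := by
      rw [hpa l]
      refine add_mem (hF _ (hD l) _) (sum_mem fun m _ => mul_mem (hF _ (hD' l m) _) ?_)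
      refine subset_cl _ ?_
      rw [hT]
      exact ⟨m, rfl⟩
    exact h1
  have h1 := rk_add ha ((rk_mono_base hp _).trans hrk)
  refine (rk_le_of_subset_cl ?_).trans h1
  rintro _ (⟨j, rfl⟩ | ⟨j, rfl⟩)
  · have h2 : x (ι j) ∈ clF F (T ∪ range fun i => Complex.exp (x i)) := by
      rw [hxa j]
      refine add_mem (sum_mem fun m _ => mul_mem (hF _ (hC j m) _) ?_) (hF _ (hB j) _)
      refine subset_cl _ (Or.inl ?_)
      rw [hT]
      exact ⟨m, rfl⟩
    exact h2
  · exact subset_cl _ (Or.inr ⟨ι j, rfl⟩)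

/-- **extension by solutions of systems of linear forms** -/
theorem Wt.lin {K : Subfield ℂ} (hK : GD K) (w : Wt K) {n d : ℕ} {c : Fin n → Fin d → ℂ}
    (hc : ∀ i l, c i l ∈ K) (hG : HG c) (hdn : d ≤ n) {p : Fin d → ℂ} {x : Fin n → ℂ}
    (hx : ∀ i, x i = ∑ l, c i l * p l)
    (hrk : (MK (clF (clF K (ET w.b)) (range p))).eRk (range fun i => Complex.exp (x i)) ≤
      (n - d : ℕ)) :
    ∃ w1 : Wt K, w.Le w1 ∧ ∀ l, p l ∈ w1.V := by
  classical
  obtain ⟨F, hF⟩ : ∃ F, F = clF K (ET w.b) := ⟨_, rfl⟩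
  have hKF : K ≤ F := by
    rw [hF]
    exact fun z hz => cl_of_base (k := K) _ (⟨z, hz⟩ : K)
  rcases lin_data (K := K) (F := F) hKF (VsM K w.b) (fun u hu => by
    rw [hF]
    exact (Vs_cl hK.exp hu).1) hc hG hdn hx with
    hp | ⟨s, e, ι, κ, C, B, D, D', he, hse, h1, h2, hC, hB, hD, hD', hxa, hpa, hgp⟩
  · refine w.algs hK fun l => ?_
    have h1 := hp l
    rw [hF] at h1
    exact h1
  obtain ⟨y, hy⟩ : ∃ y : Fin s → ℂ, y = fun j => x (ι j) := ⟨_, rfl⟩
  have hyj : ∀ j, y j = x (ι j) := fun j => by rw [hy]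
  have hrk1 : ∀ a : ℕ, (MK F).eRk (range fun m => y (κ m)) ≤ (a : ℕ) →
      (MK F).eRk (ET y) ≤ (a + (n - d) : ℕ) := by
    intro a ha
    rw [hy]
    refine lin_rank (fun j m => hKF (hC j m)) hB hD (fun l m => hKF (hD' l m)) hxa hpa ?_ ?_
    · rw [hF]
      exact hrk
    · simp only [hyj] at ha
      exact ha
  have hs : s = e + (n - d) := by omega
  have hrky : (MK F).eRk (ET y) ≤ (s : ℕ) := by
    refine (hrk1 e (((MK F).eRk_le_encard _).trans (encard_range_le _))).trans ?_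
    exact_mod_cast hs.ge
  have hind : ∀ q : Fin (w.p + s) → ℚ, lc (Fin.append w.b y) q ∈ K → q = 0 := by
    intro q hq
    rw [lc_append] at hq
    have h3 : lc y (fun i => q (Fin.natAdd w.p i)) ∈ Vs K w.b := by
      refine ⟨-fun i => q (Fin.castAdd s i), ?_⟩
      rw [lc_neg, sub_neg_eq_add, add_comm]
      exact hq
    rw [hy] at h3
    have h4 := h1 _ h3
    rw [h4, lc_zero, add_zero] at hq
    have h5 := w.wc.src.ind _ hq
    funext l
    refine Fin.addCases (fun i => ?_) (fun i => ?_) l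
    · exact congrFun h5 i
    · exact congrFun h4 i
  have hrkF : ∀ a : ℕ, (MK F).eRk (ET y) ≤ (a : ℕ) →
      (MK K).eRk (ET (Fin.append w.b y)) ≤ (w.p + w.d + a : ℕ) := by
    intro a ha
    rw [hF] at ha
    have h3 := rk_add w.wc.src.rk ha
    rwa [← ET_append] at h3
  have hfin : (∃ w1 : Wt K, w.Le w1 ∧ ∀ j, y j ∈ w1.V) → ∃ w1 : Wt K, w.Le w1 ∧ ∀ l, p l ∈ w1.V := by
    rintro ⟨w1, hw1, hy1⟩
    obtain ⟨w2, hw2, hp2⟩ := w1.algs hK (z := p) (fun l => by
      have h3 : p l ∈ clF K (ET w1.b) := by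
        rw [hpa l]
        refine add_mem ?_ (sum_mem fun m _ => mul_mem ?_ ?_)
        · have h4 := hD l
          rw [hF] at h4
          exact hw1.cl hK h4
        · exact cl_of_base (k := K) _ (⟨_, hD' l m⟩ : K)
        · have h4 := hy1 (κ m)
          rw [hyj] at h4
          exact (Vs_cl hK.exp h4).1
      exact h3)
    exact ⟨w2, hw1.trans hw2, hp2⟩
  apply hfin
  have hspos : 0 < s := by omega
  rcases Nat.eq_zero_or_pos w.d with hd | hd
  · exfalso
    have hp : w.p = 0 := by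
      have h1 : Sc K w.b 0 := by
        have := w.wc.src
        rwa [hd] at this
      exact h1.zero hK.toGF
    have h1 := hK.rk (w.p + s) (Fin.append w.b y) (by omega) hind
    have h2 := h1.trans (hrkF s hrky)
    norm_cast at h2
    omega
  by_cases he2 : 2 ≤ e
  · have hlow : (e : ℕ∞) ≤ (MK F).eRk (range fun m => y (κ m)) := by
      refine le_rk_of fun a ha => ?_
      have h3 := hrkF _ (hrk1 a ha)
      obtain ⟨L, hL⟩ := w.wc.src.chn
      have h4 := (hL.append y).low hd hind h3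
      omega
    rw [hF] at hlow
    exact w.lin_ind hK hind (hrkF s hrky) (by omega) (hgp he2) hC (fun i => by
      rw [← hF]
      exact hB i) (fun i => by
      simp only [hyj]
      exact hxa i) hlow
  · have he1 : e = 1 := by omega
    subst he1
    exact Wt.crv_ind hK s w y (y (κ 0)) hind (fun i => by
      have h3 : y i ∈ clF (clF K (ET w.b)) {y (κ 0)} := by
        rw [hyj i, hxa i]
        refine add_mem (sum_mem fun m _ => mul_mem ?_ ?_) ?_
        · exact cl_of_base (k := clF K (ET w.b)) _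
            (⟨_, cl_of_base (k := K) _ (⟨_, hC i m⟩ : K)⟩ : clF K (ET w.b))
        · refine subset_cl _ ?_
          rw [Subsingleton.elim m 0, ← hyj]
          rfl
        · have h4 := hB i
          rw [hF] at h4
          exact cl_of_base (k := clF K (ET w.b)) _ (⟨_, h4⟩ : clF K (ET w.b))
      exact h3) (hrkF s hrky)

/-- good fields contain the solutions -/
theorem GF.lin {K : Subfield ℂ} (hK : GF K) {n d : ℕ} {c : Fin n → Fin d → ℂ}
    (hc : ∀ i l, c i l ∈ K) (hG : HG c) (hdn : d ≤ n) {p : Fin d → ℂ} {x : Fin n → ℂ}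
    (hx : ∀ i, x i = ∑ l, c i l * p l)
    (hrk : (MK (clF K (range p))).eRk (range fun i => Complex.exp (x i)) ≤ (n - d : ℕ))
    (l : Fin d) : p l ∈ K := by
  classical
  let U : Submodule ℚ ℂ :=
    { carrier := K
      add_mem' := K.add_mem
      zero_mem' := K.zero_mem
      smul_mem' := fun q x hx => SubfieldClass.qsmul_mem K q hx }
  rcases lin_data (K := K) (F := K) le_rfl U (fun u hu => hu) hc hG hdn hx with
    hp | ⟨s, e, ι, κ, C, B, D, D', he, hse, h1, h2, hC, hB, hD, hD', hxa, hpa, hgp⟩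
  · exact hp l
  exfalso
  have hrk1 := lin_rank hC hB hD hD' hxa hpa hrk
    (((MK K).eRk_le_encard _).trans (encard_range_le _))
  have h3 := hK.rk s (fun j => x (ι j)) (by omega) h1
  have h4 := h3.trans hrk1
  norm_cast at h4
  omega

end Pool.Agent.V9h68
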