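import Pool.Agent.V9h68.Pl4
import Pool.Agent.V9h68.N7

/-!
Unguarded quantifiers over two unknowns and exponentials of linear forms in general position.
-/

set_option autoImplicit false

open MvPolynomial Set Filter Topology Cardinal

noncomputable section

namespace Pool.Agent.V9h68

open Pool.Agent.Y776 Pool.Agent.Y685
open Pool.Agent.TH813.Rel (MK mem_cl subset_cl rk_le_of_subset_cl cl_add cl_mul cl_inv cl_of_base)

/-- the point `(s, p, e^ℓ(p))`, where `ℓ_i(p) = ∑ c_il p_l` -/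
def LP {m d n : ℕ} (c : Fin n → Fin d → ℂ) (s : Fin m → ℂ) (p : Fin d → ℂ) :
    Fin (m + (d + n)) → ℂ :=
  Fin.append s (Fin.append p fun i => Complex.exp (∑ l, c i l * p l))

theorem ExpT.sum {n : ℕ} {ι : Type} (S : Finset ι) {f : ι → (Fin n → ℂ) → ℂ}
    (hf : ∀ i, ExpT n (f i)) : ExpT n fun s => ∑ i ∈ S, f i s := by
  classical
  induction S using Finset.induction_on with
  | empty => simpa using ExpT.const (n := n) 0
  | insert a S ha ih =>
    simp only [Finset.sum_insert ha]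
    exact .add _ _ (hf a) ih

/-- the set of the `(s, p)` with `(s, p, e^ℓ(p)) ∈ E` -/
theorem InvN.lp {m d n : ℕ} (c : Fin n → Fin d → ℂ) {E : Set (Fin (m + (d + n)) → ℂ)}
    (hE : InvN (m + (d + n)) E) : InvN (m + d) {v : Fin (m + d) → ℂ |
      LP c (fun i => v (Fin.castAdd d i)) (fun l => v (Fin.natAdd m l)) ∈ E} := by
  have h1 := InvN.preimage (h := fun j (v : Fin (m + d) → ℂ) =>
    LP c (fun i => v (Fin.castAdd d i)) (fun l => v (Fin.natAdd m l)) j) (fun j => by
      refine Fin.addCases (fun i => ?_) (fun i => ?_) j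
      · simp only [LP, Fin.append_left]
        exact .coord _
      · simp only [LP, Fin.append_right]
        refine Fin.addCases (fun l => ?_) (fun l => ?_) i
        · simp only [Fin.append_left]
          exact .coord _
        · simp only [Fin.append_right]
          refine .exp _ (ExpT.sum _ fun l' => ?_)
          exact .mul _ _ (.const _) (.coord _)) hE
  exact h1

/-- **tameness** -/
theorem planar_tame {m n : ℕ} {a b : Fin n → ℂ} (hG : GP a b) {i1 i2 : Fin n} (h12 : i1 ≠ i2)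
    {E : Set (Fin (m + (2 + n)) → ℂ)} {A : Set ℂ} (hA : A.Countable)
    (hE : ∀ σ : ℂ ≃+* ℂ, (∀ c ∈ A, σ c = c) → ∀ s, s ∈ E → (fun i => σ (s i)) ∈ E)
    (ha : ∀ i, a i ∈ A) (hb : ∀ i, b i ∈ A) :
    TameC A {v : Fin (m + 2) → ℂ | LP (fun i => ![a i, b i]) (fun i => v (Fin.castAdd 2 i))
      (fun l => v (Fin.natAdd m l)) ∈ E} := by
  classical
  intro s p J hp hJ
  have hd := hG.minor h12
  obtain ⟨det, hdetd⟩ : ∃ det, det = a i1 * b i2 - a i2 * b i1 := ⟨_, rfl⟩
  rw [← hdetd] at hd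
  -- the unknowns as functions of x
  obtain ⟨π, hπ⟩ : ∃ π : (Fin n → ℂ) → Fin 2 → ℂ, π = fun x => ![(b i2 * x i1 - b i1 * x i2) * det⁻¹,
    (a i1 * x i2 - a i2 * x i1) * det⁻¹] := ⟨_, rfl⟩
  obtain ⟨ℓ, hℓ⟩ : ∃ ℓ : (Fin 2 → ℂ) → Fin n → ℂ, ℓ = fun p i => a i * p 0 + b i * p 1 := ⟨_, rfl⟩
  have hπℓ : ∀ p, π (ℓ p) = p := by
    intro p
    rw [hπ, hℓ]
    have h2 : det * det⁻¹ = 1 := mul_inv_cancel₀ hd
    funext l
    fin_cases l
    · change (b i2 * (a i1 * p 0 + b i1 * p 1) - b i1 * (a i2 * p 0 + b i2 * p 1)) * det⁻¹ = p 0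
      have h3 : (b i2 * (a i1 * p 0 + b i1 * p 1) - b i1 * (a i2 * p 0 + b i2 * p 1)) =
        p 0 * det := by rw [hdetd]; ring
      rw [h3, mul_assoc, h2, mul_one]
    · change (a i1 * (a i2 * p 0 + b i2 * p 1) - a i2 * (a i1 * p 0 + b i1 * p 1)) * det⁻¹ = p 1
      have h3 : (a i1 * (a i2 * p 0 + b i2 * p 1) - a i2 * (a i1 * p 0 + b i1 * p 1)) =
        p 1 * det := by rw [hdetd]; ring
      rw [h3, mul_assoc, h2, mul_one]
  -- the parameters
  obtain ⟨t, ht⟩ : ∃ t : Fin 2 → ℂ, t = fun j => if j ∈ J then p j else 0 := ⟨_, rfl⟩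
  -- the system
  let E' : Set (Fin ((m + 2) + (n + n)) → ℂ) := {v |
    (∀ i, v (Fin.natAdd (m + 2) (Fin.castAdd n i)) =
      ℓ (π fun i => v (Fin.natAdd (m + 2) (Fin.castAdd n i))) i) ∧
    (∀ j ∈ J, π (fun i => v (Fin.natAdd (m + 2) (Fin.castAdd n i))) j =
      v (Fin.castAdd (n + n) (Fin.natAdd m j))) ∧
    (Fin.append (fun i => v (Fin.castAdd (n + n) (Fin.castAdd 2 i)))
      (Fin.append (π fun i => v (Fin.natAdd (m + 2) (Fin.castAdd n i)))
        fun i => v (Fin.natAdd (m + 2) (Fin.natAdd n i))) : Fin (m + (2 + n)) → ℂ) ∈ E}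
  have hσπ : ∀ σ : ℂ ≃+* ℂ, (∀ c ∈ A, σ c = c) → ∀ x : Fin n → ℂ, π (fun i => σ (x i)) =
      fun l => σ (π x l) := by
    intro σ hσ x
    have h3 : σ det = det := by
      rw [hdetd, map_sub, map_mul, map_mul, hσ _ (ha _), hσ _ (ha _), hσ _ (hb _), hσ _ (hb _)]
    rw [hπ]
    funext l
    fin_cases l
    · change (b i2 * σ (x i1) - b i1 * σ (x i2)) * det⁻¹ =
        σ ((b i2 * x i1 - b i1 * x i2) * det⁻¹)
      rw [map_mul, map_sub, map_mul, map_mul, map_inv₀, h3, hσ _ (hb _), hσ _ (hb _)]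
    · change (a i1 * σ (x i2) - a i2 * σ (x i1)) * det⁻¹ =
        σ ((a i1 * x i2 - a i2 * x i1) * det⁻¹)
      rw [map_mul, map_sub, map_mul, map_mul, map_inv₀, h3, hσ _ (ha _), hσ _ (ha _)]
  have hσℓ : ∀ σ : ℂ ≃+* ℂ, (∀ c ∈ A, σ c = c) → ∀ (p : Fin 2 → ℂ) (i : Fin n),
      ℓ (fun l => σ (p l)) i = σ (ℓ p i) := by
    intro σ hσ p i
    rw [hℓ]
    change a i * σ (p 0) + b i * σ (p 1) = σ (a i * p 0 + b i * p 1)
    rw [map_add, map_mul, map_mul, hσ _ (ha _), hσ _ (hb _)]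
  have hE' : ∀ σ : ℂ ≃+* ℂ, (∀ c ∈ A, σ c = c) → ∀ v, v ∈ E' → (fun i => σ (v i)) ∈ E' := by
    rintro σ hσ v ⟨h1, h2, h3⟩
    have h4 := hσπ σ hσ fun i => v (Fin.natAdd (m + 2) (Fin.castAdd n i))
    refine ⟨fun i => ?_, fun j hj => ?_, ?_⟩
    · simp only [h4]
      rw [hσℓ σ hσ, ← h1]
    · simp only [h4]
      rw [h2 j hj]
    · simp only [h4]
      have h5 := hE σ hσ _ h3
      convert h5 using 1
      funext l
      refine Fin.addCases (fun i => ?_) (fun i => ?_) l
      · simp only [Fin.append_left]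
      · simp only [Fin.append_right]
        refine Fin.addCases (fun i => ?_) (fun i => ?_) i
        · simp only [Fin.append_left]
        · simp only [Fin.append_right]
  have hmem : ∀ p' : Fin 2 → ℂ, (ℓ p' ∈ Zs E' (Fin.append s t)) ↔
      ((Fin.append s p' : Fin (m + 2) → ℂ) ∈ {v : Fin (m + 2) → ℂ |
        LP (fun i => ![a i, b i]) (fun i => v (Fin.castAdd 2 i))
          (fun l => v (Fin.natAdd m l)) ∈ E} ∧ ∀ j ∈ J, p' j = p j) := by
    intro p'
    have e1 : (fun i => (Fin.append (Fin.append s t : Fin (m + 2) → ℂ) (Fin.append (ℓ p')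
        fun i => Complex.exp (ℓ p' i)) : Fin ((m + 2) + (n + n)) → ℂ)
          (Fin.natAdd (m + 2) (Fin.castAdd n i))) = ℓ p' := by
      funext i
      rw [Fin.append_right, Fin.append_left]
    have e2 : (fun i => Complex.exp (ℓ p' i)) =
        fun i : Fin n => Complex.exp (∑ l, (![a i, b i] : Fin 2 → ℂ) l * p' l) := by
      funext i
      rw [hℓ, Fin.sum_univ_two]
      rfl
    have e3 : ((fun i => (Fin.append (Fin.append s t : Fin (m + 2) → ℂ) (Fin.append (ℓ p')
        fun i => Complex.exp (ℓ p' i)) : Fin ((m + 2) + (n + n)) → ℂ)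
          (Fin.castAdd (n + n) (Fin.castAdd 2 i)))) = s := by
      funext i
      rw [Fin.append_left, Fin.append_left]
    have e4 : ((fun i => (Fin.append (Fin.append s t : Fin (m + 2) → ℂ) (Fin.append (ℓ p')
        fun i => Complex.exp (ℓ p' i)) : Fin ((m + 2) + (n + n)) → ℂ)
          (Fin.natAdd (m + 2) (Fin.natAdd n i)))) = fun i => Complex.exp (ℓ p' i) := by
      funext i
      rw [Fin.append_right, Fin.append_right]
    have e5 : ((Fin.append s p' : Fin (m + 2) → ℂ) ∈ {v : Fin (m + 2) → ℂ |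
        LP (fun i => ![a i, b i]) (fun i => v (Fin.castAdd 2 i))
          (fun l => v (Fin.natAdd m l)) ∈ E}) ↔ (Fin.append s (Fin.append p'
            fun i => Complex.exp (ℓ p' i)) : Fin (m + (2 + n)) → ℂ) ∈ E := by
      rw [e2]
      simp only [Set.mem_ofPred_eq, Fin.append_left, Fin.append_right, LP]
    constructor
    · rintro ⟨h1, h2, h3⟩
      simp only [e1, e3, e4, hπℓ] at h2 h3
      refine ⟨e5.2 h3, fun j hj => ?_⟩
      rw [h2 j hj, Fin.append_left, Fin.append_right, ht]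
      exact if_pos hj
    · rintro ⟨h1, h2⟩
      refine ⟨fun i => ?_, fun j hj => ?_, ?_⟩
      · simp only [e1, hπℓ]
        rw [Fin.append_right, Fin.append_left]
      · simp only [e1, hπℓ]
        rw [h2 j hj, Fin.append_left, Fin.append_right, ht]
        exact (if_pos hj).symm
      · simp only [e1, e3, e4, hπℓ]
        exact e5.1 h1
  have hc : (Zs E' (Fin.append s t)).Countable := by
    refine (hJ.image ℓ).mono ?_
    intro x hx
    have h1 : ∀ i, x i = ℓ (π x) i := by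
      intro i
      have h2 := hx.1 i
      have e1 : (fun i => (Fin.append (Fin.append s t : Fin (m + 2) → ℂ) (Fin.append x
          fun i => Complex.exp (x i)) : Fin ((m + 2) + (n + n)) → ℂ)
            (Fin.natAdd (m + 2) (Fin.castAdd n i))) = x := by
        funext i
        rw [Fin.append_right, Fin.append_left]
      rw [e1, Fin.append_right, Fin.append_left] at h2
      exact h2
    have h2 : x = ℓ (π x) := funext h1
    rw [h2] at hx ⊢
    exact ⟨π x, (hmem _).1 hx, rfl⟩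
  have hx : ℓ p ∈ Zs E' (Fin.append s t) := (hmem p).2 ⟨hp, fun _ _ => rfl⟩
  have hnd := Zs_nonDeg hA hE' hc hx
  -- the closure
  set C := ccl A (range s ∪ p '' J) with hC
  have hCc : CrvClosed A C := ccl_closed _ _
  have hAC : A ⊆ C := Set.subset_union_left.trans (subset_ccl _ _)
  have hnd' : NonDeg C (ℓ p) := by
    refine hnd.mono fun u hu => hCc.cl ((MK ℚ).closure_subset_closure ?_ hu)
    refine Set.union_subset hAC ?_
    rintro _ ⟨l, rfl⟩
    refine Fin.addCases (fun i => ?_) (fun j => ?_) l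
    · rw [Fin.append_left]
      exact subset_ccl _ _ (Or.inr (Or.inl ⟨i, rfl⟩))
    · rw [Fin.append_right, ht]
      by_cases hj : j ∈ J
      · simp only [if_pos hj]
        exact subset_ccl _ _ (Or.inr (Or.inr ⟨j, hj, rfl⟩))
      · simp only [if_neg hj]
        exact hCc.alg 0 isAlgebraic_zero
  have hxC := hCc.planar hAC ha hb hG hnd' (z := p 0) (w := p 1) (fun i => by rw [hℓ])
  let L : Subfield ℂ := clF ℚ C
  have hL : ∀ z, z ∈ L ↔ z ∈ C := fun z => ⟨fun h => hCc.cl h, fun h => subset_cl _ h⟩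
  have hdL : det ∈ L := by
    rw [hdetd]
    exact sub_mem (mul_mem ((hL _).2 (hAC (ha _))) ((hL _).2 (hAC (hb _))))
      (mul_mem ((hL _).2 (hAC (ha _))) ((hL _).2 (hAC (hb _))))
  have hfin : ∀ l, p l ∈ L := by
    intro l
    rw [← hπℓ p, hπ]
    fin_cases l
    · exact mul_mem (sub_mem (mul_mem ((hL _).2 (hAC (hb _))) ((hL _).2 (hxC _)))
        (mul_mem ((hL _).2 (hAC (hb _))) ((hL _).2 (hxC _)))) (inv_mem hdL)
    · exact mul_mem (sub_mem (mul_mem ((hL _).2 (hAC (ha _))) ((hL _).2 (hxC _)))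
        (mul_mem ((hL _).2 (hAC (ha _))) ((hL _).2 (hxC _)))) (inv_mem hdL)
  exact fun l => (hL _).1 (hfin l)

/-- **unguarded quantifiers over two unknowns** -/
theorem InvN.planar {m n : ℕ} {a b : Fin n → ℂ} (hG : GP a b) (hn : 2 ≤ n)
    {E : Set (Fin (m + (2 + n)) → ℂ)} (hE : AutInv (m + (2 + n)) E) (κ : Cardinal.{0}) :
    InvN m {s | κ ≤ #({p : Fin 2 → ℂ | LP (fun i => ![a i, b i]) s p ∈ E} :
      Set (Fin 2 → ℂ))} := by
  obtain ⟨A0, hA0, hE0⟩ := hE
  have h12 : (⟨0, by omega⟩ : Fin n) ≠ ⟨1, by omega⟩ := by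
    intro h
    have := congrArg Fin.val h
    simp at this
  have h1 := (InvN.lp (fun i => ![a i, b i]) (AutInv.invN ⟨A0, hA0, hE0⟩)).tame
    (A := A0 ∪ (range a ∪ range b))
    (hA0.union ((Set.countable_range _).union (Set.countable_range _)))
    (planar_tame hG h12 (hA0.union ((Set.countable_range _).union (Set.countable_range _)))
      (fun σ hσ => hE0 σ fun c hc => hσ c (Or.inl hc))
      (fun i => Or.inr (Or.inl ⟨i, rfl⟩)) (fun i => Or.inr (Or.inr ⟨i, rfl⟩))) κ
  have e : ∀ (s : Fin m → ℂ) (p : Fin 2 → ℂ), (Fin.append s p : Fin (m + 2) → ℂ) ∈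
      {v : Fin (m + 2) → ℂ | LP (fun i => ![a i, b i]) (fun i => v (Fin.castAdd 2 i))
        (fun l => v (Fin.natAdd m l)) ∈ E} ↔ LP (fun i => ![a i, b i]) s p ∈ E := by
    intro s p
    simp only [Set.mem_ofPred_eq, Fin.append_left, Fin.append_right]
  simp only [e] at h1
  exact h1

theorem countable_iff_not_le {α : Type} {S : Set α} :
    S.Countable ↔ ¬ Order.succ ℵ₀ ≤ #S := by
  rw [Order.succ_le_iff, not_lt, Cardinal.le_aleph0_iff_set_countable]

/-- **the quantifiers over countable sets of solutions in two unknowns**, with arbitrary matrix -/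
theorem InvN.planarC {m n : ℕ} {a b : Fin n → ℂ} (hG : GP a b) (hn : 2 ≤ n)
    {E : Set (Fin (m + (2 + n)) → ℂ)} (hE : AutInv (m + (2 + n)) E)
    {X : Set (Fin (m + 2) → ℂ)} (hX : InvN (m + 2) X) (κ : Cardinal.{0}) :
    InvN m {s | κ ≤ #({p : Fin 2 → ℂ | LP (fun i => ![a i, b i]) s p ∈ E ∧
      {p' : Fin 2 → ℂ | LP (fun i => ![a i, b i]) s p' ∈ E}.Countable ∧
      (Fin.append s p : Fin (m + 2) → ℂ) ∈ X} : Set (Fin 2 → ℂ))} := by
  obtain ⟨A0, hA0, hE0⟩ := id hE
  have h12 : (⟨0, by omega⟩ : Fin n) ≠ ⟨1, by omega⟩ := by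
    intro h
    have := congrArg Fin.val h
    simp at this
  have hAc : (A0 ∪ (range a ∪ range b)).Countable :=
    hA0.union ((Set.countable_range _).union (Set.countable_range _))
  have hT := planar_tame hG h12 hAc (fun σ hσ => hE0 σ fun c hc => hσ c (Or.inl hc))
    (fun i => Or.inr (Or.inl ⟨i, rfl⟩)) (fun i => Or.inr (Or.inr ⟨i, rfl⟩))
  have e : ∀ (s : Fin m → ℂ) (p : Fin 2 → ℂ), (Fin.append s p : Fin (m + 2) → ℂ) ∈
      {v : Fin (m + 2) → ℂ | LP (fun i => ![a i, b i]) (fun i => v (Fin.castAdd 2 i))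
        (fun l => v (Fin.natAdd m l)) ∈ E} ↔ LP (fun i => ![a i, b i]) s p ∈ E := by
    intro s p
    simp only [Set.mem_ofPred_eq, Fin.append_left, Fin.append_right]
  have hN : InvN m {s | {p' : Fin 2 → ℂ | LP (fun i => ![a i, b i]) s p' ∈ E}.Countable} := by
    have h1 := (InvN.planar hG hn hE (Order.succ ℵ₀)).compl
    convert h1 using 1
    ext s
    rw [Set.mem_compl_iff, Set.mem_ofPred_eq, Set.mem_ofPred_eq]
    exact countable_iff_not_le
  have hY := (InvN.lp (fun i => ![a i, b i]) hE.invN).inter ((InvN.left (n := 2) hN).inter hX)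
  have h1 := hY.tame hAc (A := A0 ∪ (range a ∪ range b)) (by
    intro s x J hx _ i
    have h2 : {v : Fin (m + 2) → ℂ | (fun i => v (Fin.castAdd 2 i)) ∈
      {s | {p' : Fin 2 → ℂ | LP (fun i => ![a i, b i]) s p' ∈ E}.Countable}}
        (Fin.append s x) := hx.2.1
    have h3 : {p' : Fin 2 → ℂ | LP (fun i => ![a i, b i]) s p' ∈ E}.Countable := by
      have h4 := hx.2.1
      simp only [Set.mem_ofPred_eq, Fin.append_left] at h4
      exact h4
    have h5 := hT s x ∅ hx.1 (by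
      refine h3.mono ?_
      rintro x' ⟨h6, -⟩
      exact (e s x').1 h6) i
    refine ccl_min ?_ (ccl_closed _ _) h5
    rintro z (hz | hz | ⟨j, hj, -⟩)
    · exact subset_ccl _ _ (Or.inl hz)
    · exact subset_ccl _ _ (Or.inr (Or.inl hz))
    · exact absurd hj (Set.notMem_empty j)) κ
  convert h1 using 1
  ext s
  have h2 : {p : Fin 2 → ℂ | LP (fun i => ![a i, b i]) s p ∈ E ∧
      {p' : Fin 2 → ℂ | LP (fun i => ![a i, b i]) s p' ∈ E}.Countable ∧
      (Fin.append s p : Fin (m + 2) → ℂ) ∈ X} =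
      {x : Fin 2 → ℂ | (Fin.append s x : Fin (m + 2) → ℂ) ∈
        {v : Fin (m + 2) → ℂ | LP (fun i => ![a i, b i]) (fun i => v (Fin.castAdd 2 i))
          (fun l => v (Fin.natAdd m l)) ∈ E} ∩
        ({v : Fin (m + 2) → ℂ | (fun i => v (Fin.castAdd 2 i)) ∈
          {s | {p' : Fin 2 → ℂ | LP (fun i => ![a i, b i]) s p' ∈ E}.Countable}} ∩ X)} := by
    ext x
    simp only [Set.mem_ofPred_eq, Set.mem_inter_iff, Fin.append_left, Fin.append_right]
  rw [Set.mem_ofPred_eq, Set.mem_ofPred_eq, h2]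

end Pool.Agent.V9h68
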