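import Pool.Agent.V9h68.Pl13
import Pool.Agent.V9h68.Pl5

/-!
Quantifiers over the solutions of systems in linear forms in hereditary general position.
-/

set_option autoImplicit false

open MvPolynomial Set Filter Topology Cardinal

noncomputable section

namespace Pool.Agent.V9h68

open Pool.Agent.Y776 Pool.Agent.Y685
open Pool.Agent.TH813.Rel (MK mem_cl subset_cl rk_le_of_subset_cl cl_add cl_mul cl_inv cl_of_base)

/-- the fibres of `E` over `(s, p)` have dimension at most `n - d` -/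
def ThinF {m d n : ℕ} (E : Set (Fin (m + (d + n)) → ℂ)) : Prop :=
  ∀ (s : Fin m → ℂ) (p : Fin d → ℂ) (J : Finset (Fin n)), J.card + d = n + 1 →
    ∃ g : MvPolynomial (Fin n) ℂ, g ≠ 0 ∧ g.vars ⊆ J ∧ ∀ y : Fin n → ℂ,
      (Fin.append s (Fin.append p y) : Fin (m + (d + n)) → ℂ) ∈ E → eval y g = 0

/-- ranks of the solutions of thin systems -/
theorem thin_rank {m d n : ℕ} {c : Fin n → Fin d → ℂ} {E : Set (Fin (m + (d + n)) → ℂ)}
    (hT : ThinF E) {A : Set ℂ}
    (hE : ∀ σ : ℂ ≃+* ℂ, (∀ a ∈ A, σ a = a) → ∀ v, v ∈ E → (fun i => σ (v i)) ∈ E)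
    {F : Subfield ℂ} (hF : (F : Set ℂ).Countable) (hAF : A ⊆ F) (hdn : d ≤ n)
    {s : Fin m → ℂ} (hs : ∀ i, s i ∈ F) {p : Fin d → ℂ} (hp : LP c s p ∈ E) :
    (MK (clF F (range p))).eRk (range fun i => Complex.exp (∑ l, c i l * p l)) ≤
      (n - d : ℕ) := by
  classical
  obtain ⟨k, hkdef⟩ : ∃ k : Subfield ℂ, k = clF F (range p) := ⟨_, rfl⟩
  rw [← hkdef]
  have hkc : (k : Set ℂ).Countable := by
    rw [hkdef]
    exact cl_countable hF (Set.countable_range _)
  have hk : ∀ x, IsAlgebraic k x → x ∈ k := by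
    rw [hkdef]
    exact clF_alg' _
  have hFk : ∀ z ∈ F, z ∈ k := fun z hz => by
    rw [hkdef]
    exact cl_of_base (k := F) _ (⟨z, hz⟩ : F)
  have hpk : ∀ l, p l ∈ k := fun l => by
    rw [hkdef]
    exact subset_cl _ ⟨l, rfl⟩
  obtain ⟨P, hP⟩ : ∃ P : Fin n → ℂ, P = fun i => Complex.exp (∑ l, c i l * p l) := ⟨_, rfl⟩
  rw [← hP]
  obtain ⟨m', J, hJ, hPJ, -⟩ := exists_basis_tuple (k := k) P (I₀ := ∅) (Set.empty_subset _)
    (MK k).empty_indep
  have hm : (MK k).eRk (range P) ≤ (m' : ℕ) := by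
    have h5 : range P ⊆ (MK k).closure (range fun a => P (J a)) := by
      rintro _ ⟨j, rfl⟩
      exact hPJ j
    exact (rk_le_of_subset_cl h5).trans (((MK _).eRk_le_encard _).trans (encard_range_le _))
  by_cases hmn : m' ≤ n - d
  · refine hm.trans ?_
    exact_mod_cast hmn
  exfalso
  have hle : n - d + 1 ≤ m' := by omega
  have hJinj : Function.Injective J := fun a b hab => hJ.injective (by
    change P (J a) = P (J b)
    rw [hab])
  obtain ⟨g, hg0, hgv, hg⟩ := hT s p (Finset.univ.image fun a : Fin (n - d + 1) =>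
    J (Fin.castLE hle a)) (by
    have h2 := Finset.card_image_of_injective (Finset.univ : Finset (Fin (n - d + 1)))
      (f := fun a => J (Fin.castLE hle a)) (fun a b hab => Fin.castLE_injective hle (hJinj hab))
    rw [Finset.card_univ, Fintype.card_fin] at h2
    omega)
  obtain ⟨F', τ, hS, hkF', -, hτ, hτJ, -⟩ := gen_point hk hkc hJ hPJ
    (S := range fun α => g.coeff α) (coeffs_countable g)
  have h1 : (Fin.append s (Fin.append p fun i => τ (P i)) : Fin (m + (d + n)) → ℂ) ∈ E := by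
    have h2 := hE τ (fun a ha => hτ a (hFk a (hAF ha))) _ hp
    convert h2 using 1
    funext l
    refine Fin.addCases (fun i => ?_) (fun i => ?_) l
    · simp only [LP, Fin.append_left]
      exact (hτ _ (hFk _ (hs i))).symm
    · simp only [LP, Fin.append_right]
      refine Fin.addCases (fun i => ?_) (fun i => ?_) i
      · simp only [Fin.append_left]
        exact (hτ _ (hpk i)).symm
      · simp only [Fin.append_right]
        rw [hP]
  apply hg0
  refine pol_zero (F := F') (c := fun i => τ (P i)) (J := J) hJinj hτJ (fun α => hS ⟨α, rfl⟩) ?_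
    (hg _ h1)
  intro i hi
  obtain ⟨a, -, rfl⟩ := Finset.mem_image.1 (hgv (Finset.mem_coe.1 hi))
  exact ⟨_, rfl⟩

/-- **quantifiers over countable sets of points which are reached by extensions** -/
theorem InvN.reachQ {m n : ℕ} {Y : Set (Fin (m + n) → ℂ)} (hY : InvN (m + n) Y) {A : Set ℂ}
    (hA : A.Countable)
    (hreach : ∀ K : Subfield ℂ, GD K → A ⊆ K → ∀ (w : Wt K) (s : Fin m → ℂ), (∀ i, s i ∈ w.V) →
      ∀ p : Fin n → ℂ, (Fin.append s p : Fin (m + n) → ℂ) ∈ Y →
      ∃ w1 : Wt K, w.Le w1 ∧ ∀ l, p l ∈ w1.V)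
    (hcount : ∀ s : Fin m → ℂ, {p : Fin n → ℂ | (Fin.append s p : Fin (m + n) → ℂ) ∈ Y}.Countable)
    (κ : Cardinal.{0}) :
    InvN m {s | κ ≤ #({p : Fin n → ℂ | (Fin.append s p : Fin (m + n) → ℂ) ∈ Y} :
      Set (Fin n → ℂ))} := by
  classical
  obtain ⟨B, hB, hY⟩ := hY
  refine ⟨A ∪ B, hA.union hB, fun K hK hAK w s hs hsX => ?_⟩
  have hAK' : A ⊆ K := Set.subset_union_left.trans hAK
  have hBK' : B ⊆ K := Set.subset_union_right.trans hAK
  -- extensions which contain finite sets of solutions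
  have hext : ∀ T : Finset (Fin n → ℂ), (T : Set (Fin n → ℂ)) ⊆
      {p : Fin n → ℂ | (Fin.append s p : Fin (m + n) → ℂ) ∈ Y} →
      ∃ w1 : Wt K, w.Le w1 ∧ ∀ p ∈ T, ∀ l, p l ∈ w1.V := by
    intro T
    induction T using Finset.induction_on with
    | empty => exact fun _ => ⟨w, Wt.Le.refl w, fun p hp => absurd hp (Finset.notMem_empty p)⟩
    | insert a T _ ih =>
      intro hT
      obtain ⟨w1, h1, h2⟩ := ih (fun p hp => hT (Finset.mem_coe.2 (Finset.mem_insert_of_mem
        (Finset.mem_coe.1 hp))))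
      obtain ⟨w2, h3, h4⟩ := hreach K hK hAK' w1 s (fun i => h1.1 (hs i)) a
        (hT (Finset.mem_coe.2 (Finset.mem_insert_self a T)))
      refine ⟨w2, h1.trans h3, fun p hp l => ?_⟩
      rcases Finset.mem_insert.1 hp with rfl | hp
      · exact h4 l
      · exact h3.1 (h2 p hp l)
  have hfin : ∀ T : Finset (Fin n → ℂ), (T : Set (Fin n → ℂ)) ⊆
      {p : Fin n → ℂ | (Fin.append s p : Fin (m + n) → ℂ) ∈ Y} →
      ((T.card : ℕ) : Cardinal.{0}) ≤ #({p : Fin n → ℂ |
        (Fin.append (fun i => w.σ (s i)) p : Fin (m + n) → ℂ) ∈ Y} : Set (Fin n → ℂ)) := by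
    intro T hT
    obtain ⟨w1, h1, h2⟩ := hext T hT
    have h4 : ∀ x ∈ T, (fun i => w1.σ (x i)) ∈ {p : Fin n → ℂ |
        (Fin.append (fun i => w.σ (s i)) p : Fin (m + n) → ℂ) ∈ Y} := by
      intro x hx
      have h5 := hY K hK hBK' w1 (Fin.append s x) (fun l => by
        refine Fin.addCases (fun i => ?_) (fun i => ?_) l
        · rw [Fin.append_left]
          exact h1.1 (hs i)
        · rw [Fin.append_right]
          exact h2 x hx i) (hT hx)
      rw [Set.mem_ofPred_eq]
      convert h5 using 1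
      funext l
      refine Fin.addCases (fun i => ?_) (fun i => ?_) l
      · simp only [Fin.append_left]
        rw [h1.2 _ (hs i)]
      · simp only [Fin.append_right]
    let f : T → {p : Fin n → ℂ |
        (Fin.append (fun i => w.σ (s i)) p : Fin (m + n) → ℂ) ∈ Y} := fun x => ⟨_, h4 x x.2⟩
    have hf : Function.Injective f := by
      intro x y hxy
      apply Subtype.ext
      funext i
      have h6 := congrFun (congrArg Subtype.val hxy) i
      exact w1.σ.injective h6
    have h7 := Cardinal.mk_le_of_injective hf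
    rwa [Cardinal.mk_coe_finset] at h7
  simp only [Set.mem_ofPred_eq] at hsX ⊢
  by_cases hinf : {p : Fin n → ℂ | (Fin.append s p : Fin (m + n) → ℂ) ∈ Y}.Finite
  · have h1 := hfin hinf.toFinset (by rw [Set.Finite.coe_toFinset])
    refine hsX.trans (le_trans (le_of_eq ?_) h1)
    rw [← Cardinal.mk_coe_finset]
    refine Cardinal.mk_congr (Equiv.subtypeEquivRight fun x => ?_)
    rw [Set.Finite.mem_toFinset]
  · refine hsX.trans ((Cardinal.le_aleph0_iff_set_countable.2 (hcount s)).trans ?_)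
    rw [Cardinal.aleph0_le]
    intro k
    obtain ⟨T, hT, hTk⟩ := Set.Infinite.exists_subset_card_eq hinf k
    have h1 := hfin T hT
    rw [hTk] at h1
    exact h1

/-- **quantifiers over the solutions of thin systems** -/
theorem InvN.thin {m d n : ℕ} {c : Fin n → Fin d → ℂ} (hG : HG c) (hdn : d ≤ n)
    {E : Set (Fin (m + (d + n)) → ℂ)} (hE : AutInv (m + (d + n)) E) (hT : ThinF E)
    {X : Set (Fin (m + d) → ℂ)} (hX : InvN (m + d) X) (κ : Cardinal.{0}) :
    InvN m {s | κ ≤ #({p : Fin d → ℂ | LP c s p ∈ E ∧ (Fin.append s p : Fin (m + d) → ℂ) ∈ X} :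
      Set (Fin d → ℂ))} := by
  classical
  obtain ⟨A0, hA0, hE0⟩ := id hE
  obtain ⟨A, hAdef⟩ : ∃ A : Set ℂ, A = A0 ∪ ⋃ i, range (c i) := ⟨_, rfl⟩
  have hA : A.Countable := by
    rw [hAdef]
    exact hA0.union (Set.countable_iUnion fun i => Set.countable_range _)
  have hA0A : A0 ⊆ A := by
    rw [hAdef]
    exact Set.subset_union_left
  have hcA : ∀ i l, c i l ∈ A := fun i l => by
    rw [hAdef]
    exact Or.inr (Set.mem_iUnion.2 ⟨i, l, rfl⟩)
  have e : ∀ (s : Fin m → ℂ) (p : Fin d → ℂ), (Fin.append s p : Fin (m + d) → ℂ) ∈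
      {v : Fin (m + d) → ℂ | LP c (fun i => v (Fin.castAdd d i))
        (fun l => v (Fin.natAdd m l)) ∈ E} ∩ X ↔
      (LP c s p ∈ E ∧ (Fin.append s p : Fin (m + d) → ℂ) ∈ X) := by
    intro s p
    simp only [Set.mem_inter_iff, Set.mem_ofPred_eq, Fin.append_left, Fin.append_right]
  have h1 := ((InvN.lp c hE.invN).inter hX).reachQ hA (fun K hK hAK w s hs p hp => by
    rw [e] at hp
    refine w.lin hK (fun i l => hAK (hcA i l)) hG hdn (x := fun i => ∑ l, c i l * p l)
      (fun i => rfl) ?_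
    exact thin_rank hT hE0 (cl_countable hK.cnt (ET_countable _)) (fun a ha =>
      cl_of_base (k := K) _ (⟨a, hAK (hA0A ha)⟩ : K)) hdn (fun i => (Vs_cl hK.exp (hs i)).1)
      hp.1) (fun s => by
    obtain ⟨K, hK, hAK⟩ := exists_GF (hA.union (Set.countable_range s))
    have hc : (Set.pi univ fun _ : Fin d => (K : Set ℂ)).Countable :=
      Set.countable_univ_pi fun _ => hK.cnt
    refine hc.mono ?_
    intro p hp l _
    rw [Set.mem_ofPred_eq, e] at hp
    refine hK.lin (fun i l => hAK (Or.inl (hcA i l))) hG hdn (x := fun i => ∑ l, c i l * p l)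
      (fun i => rfl) ?_ l
    exact thin_rank hT hE0 hK.cnt (fun a ha => hAK (Or.inl (hA0A ha))) hdn
      (fun i => hAK (Or.inr ⟨i, rfl⟩)) hp.1) κ
  convert h1 using 1
  ext s
  rw [Set.mem_ofPred_eq, Set.mem_ofPred_eq]
  have h2 : {p : Fin d → ℂ | LP c s p ∈ E ∧ (Fin.append s p : Fin (m + d) → ℂ) ∈ X} =
      {p : Fin d → ℂ | (Fin.append s p : Fin (m + d) → ℂ) ∈
      {v : Fin (m + d) → ℂ | LP c (fun i => v (Fin.castAdd d i))
        (fun l => v (Fin.natAdd m l)) ∈ E} ∩ X} := by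
    ext p
    exact (e s p).symm
  rw [h2]

end Pool.Agent.V9h68
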