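import Pool.Agent.V9h68.Pl14

/-!
Unguarded quantifiers over at most two unknowns and exponentials of linear forms.
-/

set_option autoImplicit false

open MvPolynomial Set Filter Topology Cardinal

noncomputable section

namespace Pool.Agent.V9h68

open Pool.Agent.Y776 Pool.Agent.Y685
open Pool.Agent.TH813.Rel (MK mem_cl subset_cl rk_le_of_subset_cl cl_add cl_mul cl_inv cl_of_base)

/-- **tameness of systems in linear forms** -/
theorem forms_tame {m d n : ℕ} {c : Fin n → Fin d → ℂ} {D : Fin d → Fin n → ℂ}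
    (hD : ∀ (p : Fin d → ℂ) (l : Fin d), ∑ i, D l i * ∑ l', c i l' * p l' = p l)
    {E : Set (Fin (m + (d + n)) → ℂ)} {A : Set ℂ} (hA : A.Countable)
    (hE : ∀ σ : ℂ ≃+* ℂ, (∀ c ∈ A, σ c = c) → ∀ s, s ∈ E → (fun i => σ (s i)) ∈ E)
    (hcA : ∀ i l, c i l ∈ A) (hDA : ∀ l i, D l i ∈ A)
    (hcl : ∀ C : Set ℂ, CrvClosed A C → A ⊆ C → ∀ p : Fin d → ℂ,
      NonDeg C (fun i => ∑ l, c i l * p l) → ∀ l, p l ∈ C) :
    TameC A {v : Fin (m + d) → ℂ | LP c (fun i => v (Fin.castAdd d i))
      (fun l => v (Fin.natAdd m l)) ∈ E} := by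
  classical
  intro s p J hp hJ
  -- the unknowns as functions of x
  obtain ⟨π, hπ⟩ : ∃ π : (Fin n → ℂ) → Fin d → ℂ, π = fun x l => ∑ i, D l i * x i := ⟨_, rfl⟩
  obtain ⟨ℓ, hℓ⟩ : ∃ ℓ : (Fin d → ℂ) → Fin n → ℂ, ℓ = fun p i => ∑ l, c i l * p l := ⟨_, rfl⟩
  have hπℓ : ∀ p, π (ℓ p) = p := by
    intro p
    rw [hπ, hℓ]
    exact funext fun l => hD p l
  -- the parameters
  obtain ⟨t, ht⟩ : ∃ t : Fin d → ℂ, t = fun j => if j ∈ J then p j else 0 := ⟨_, rfl⟩
  -- the system
  let E' : Set (Fin ((m + d) + (n + n)) → ℂ) := {v |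
    (∀ i, v (Fin.natAdd (m + d) (Fin.castAdd n i)) =
      ℓ (π fun i => v (Fin.natAdd (m + d) (Fin.castAdd n i))) i) ∧
    (∀ j ∈ J, π (fun i => v (Fin.natAdd (m + d) (Fin.castAdd n i))) j =
      v (Fin.castAdd (n + n) (Fin.natAdd m j))) ∧
    (Fin.append (fun i => v (Fin.castAdd (n + n) (Fin.castAdd d i)))
      (Fin.append (π fun i => v (Fin.natAdd (m + d) (Fin.castAdd n i)))
        fun i => v (Fin.natAdd (m + d) (Fin.natAdd n i))) : Fin (m + (d + n)) → ℂ) ∈ E}
  have hσπ : ∀ σ : ℂ ≃+* ℂ, (∀ c ∈ A, σ c = c) → ∀ x : Fin n → ℂ, π (fun i => σ (x i)) =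
      fun l => σ (π x l) := by
    intro σ hσ x
    rw [hπ]
    funext l
    simp only
    rw [map_sum]
    refine Finset.sum_congr rfl fun i _ => ?_
    rw [map_mul, hσ _ (hDA l i)]
  have hσℓ : ∀ σ : ℂ ≃+* ℂ, (∀ c ∈ A, σ c = c) → ∀ (p : Fin d → ℂ) (i : Fin n),
      ℓ (fun l => σ (p l)) i = σ (ℓ p i) := by
    intro σ hσ p i
    rw [hℓ]
    simp only
    rw [map_sum]
    refine Finset.sum_congr rfl fun l _ => ?_
    rw [map_mul, hσ _ (hcA i l)]
  have hE' : ∀ σ : ℂ ≃+* ℂ, (∀ c ∈ A, σ c = c) → ∀ v, v ∈ E' → (fun i => σ (v i)) ∈ E' := by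
    rintro σ hσ v ⟨h1, h2, h3⟩
    have h4 := hσπ σ hσ fun i => v (Fin.natAdd (m + d) (Fin.castAdd n i))
    refine ⟨fun i => ?_, fun j hj => ?_, ?_⟩
    · simp only [h4]
      rw [hσℓ σ hσ, ← h1]
    · simp only [h4]
      rw [h2 j hj]
    · simp only [h4]
      have h5 := hE σ hσ _ h3
      convert h5 using 1
      funext l
      refine Fin.addCases (fun i => ?_) (fun i => ?_) l
      · simp only [Fin.append_left]
      · simp only [Fin.append_right]
        refine Fin.addCases (fun i => ?_) (fun i => ?_) i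
        · simp only [Fin.append_left]
        · simp only [Fin.append_right]
  have hmem : ∀ p' : Fin d → ℂ, (ℓ p' ∈ Zs E' (Fin.append s t)) ↔
      ((Fin.append s p' : Fin (m + d) → ℂ) ∈ {v : Fin (m + d) → ℂ |
        LP c (fun i => v (Fin.castAdd d i))
          (fun l => v (Fin.natAdd m l)) ∈ E} ∧ ∀ j ∈ J, p' j = p j) := by
    intro p'
    have e1 : (fun i => (Fin.append (Fin.append s t : Fin (m + d) → ℂ) (Fin.append (ℓ p')
        fun i => Complex.exp (ℓ p' i)) : Fin ((m + d) + (n + n)) → ℂ)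
          (Fin.natAdd (m + d) (Fin.castAdd n i))) = ℓ p' := by
      funext i
      rw [Fin.append_right, Fin.append_left]
    have e2 : (fun i => Complex.exp (ℓ p' i)) =
        fun i : Fin n => Complex.exp (∑ l, c i l * p' l) := by
      rw [hℓ]
    have e3 : ((fun i => (Fin.append (Fin.append s t : Fin (m + d) → ℂ) (Fin.append (ℓ p')
        fun i => Complex.exp (ℓ p' i)) : Fin ((m + d) + (n + n)) → ℂ)
          (Fin.castAdd (n + n) (Fin.castAdd d i)))) = s := by
      funext i
      rw [Fin.append_left, Fin.append_left]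
    have e4 : ((fun i => (Fin.append (Fin.append s t : Fin (m + d) → ℂ) (Fin.append (ℓ p')
        fun i => Complex.exp (ℓ p' i)) : Fin ((m + d) + (n + n)) → ℂ)
          (Fin.natAdd (m + d) (Fin.natAdd n i)))) = fun i => Complex.exp (ℓ p' i) := by
      funext i
      rw [Fin.append_right, Fin.append_right]
    have e5 : ((Fin.append s p' : Fin (m + d) → ℂ) ∈ {v : Fin (m + d) → ℂ |
        LP c (fun i => v (Fin.castAdd d i))
          (fun l => v (Fin.natAdd m l)) ∈ E}) ↔ (Fin.append s (Fin.append p'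
            fun i => Complex.exp (ℓ p' i)) : Fin (m + (d + n)) → ℂ) ∈ E := by
      rw [e2]
      simp only [Set.mem_ofPred_eq, Fin.append_left, Fin.append_right, LP]
    constructor
    · rintro ⟨h1, h2, h3⟩
      simp only [e1, e3, e4, hπℓ] at h2 h3
      refine ⟨e5.2 h3, fun j hj => ?_⟩
      rw [h2 j hj, Fin.append_left, Fin.append_right, ht]
      exact if_pos hj
    · rintro ⟨h1, h2⟩
      refine ⟨fun i => ?_, fun j hj => ?_, ?_⟩
      · simp only [e1, hπℓ]
        rw [Fin.append_right, Fin.append_left]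
      · simp only [e1, hπℓ]
        rw [h2 j hj, Fin.append_left, Fin.append_right, ht]
        exact (if_pos hj).symm
      · simp only [e1, e3, e4, hπℓ]
        exact e5.1 h1
  have hc : (Zs E' (Fin.append s t)).Countable := by
    refine (hJ.image ℓ).mono ?_
    intro x hx
    have h1 : ∀ i, x i = ℓ (π x) i := by
      intro i
      have h2 := hx.1 i
      have e1 : (fun i => (Fin.append (Fin.append s t : Fin (m + d) → ℂ) (Fin.append x
          fun i => Complex.exp (x i)) : Fin ((m + d) + (n + n)) → ℂ)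
            (Fin.natAdd (m + d) (Fin.castAdd n i))) = x := by
        funext i
        rw [Fin.append_right, Fin.append_left]
      rw [e1, Fin.append_right, Fin.append_left] at h2
      exact h2
    have h2 : x = ℓ (π x) := funext h1
    rw [h2] at hx ⊢
    exact ⟨π x, (hmem _).1 hx, rfl⟩
  have hx : ℓ p ∈ Zs E' (Fin.append s t) := (hmem p).2 ⟨hp, fun _ _ => rfl⟩
  have hnd := Zs_nonDeg hA hE' hc hx
  -- the closure
  set C := ccl A (range s ∪ p '' J) with hC
  have hCc : CrvClosed A C := ccl_closed _ _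
  have hAC : A ⊆ C := Set.subset_union_left.trans (subset_ccl _ _)
  have hnd' : NonDeg C (ℓ p) := by
    refine hnd.mono fun u hu => hCc.cl ((MK ℚ).closure_subset_closure ?_ hu)
    refine Set.union_subset hAC ?_
    rintro _ ⟨l, rfl⟩
    refine Fin.addCases (fun i => ?_) (fun j => ?_) l
    · rw [Fin.append_left]
      exact subset_ccl _ _ (Or.inr (Or.inl ⟨i, rfl⟩))
    · rw [Fin.append_right, ht]
      by_cases hj : j ∈ J
      · simp only [if_pos hj]
        exact subset_ccl _ _ (Or.inr (Or.inr ⟨j, hj, rfl⟩))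
      · simp only [if_neg hj]
        exact hCc.alg 0 isAlgebraic_zero
  rw [hℓ] at hnd'
  exact hcl C hCc hAC p hnd'

/-- a left inverse -/
theorem HG.left_inv {n d : ℕ} {c : Fin n → Fin d → ℂ} (hc : HG c) (hdn : d ≤ n) :
    ∃ D : Fin d → Fin n → ℂ, ∀ (p : Fin d → ℂ) (l : Fin d),
      ∑ i, D l i * ∑ l', c i l' * p l' = p l := by
  classical
  let f : (Fin d → ℂ) →ₗ[ℂ] (Fin n → ℂ) :=
    { toFun := fun p i => ∑ l, c i l * p l
      map_add' := fun p q => by
        funext i
        simp only [Pi.add_apply, mul_add, Finset.sum_add_distrib]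
      map_smul' := fun t p => by
        funext i
        simp only [Pi.smul_apply, smul_eq_mul, RingHom.id_apply, Finset.mul_sum]
        refine Finset.sum_congr rfl fun l _ => ?_
        ring }
  have hf : LinearMap.ker f = ⊥ := by
    rw [LinearMap.ker_eq_bot']
    intro p hp
    exact hc.inj hdn fun i => congrFun hp i
  obtain ⟨g, hg⟩ := f.exists_leftInverse_of_injective hf
  refine ⟨fun l i => g (Pi.single i 1) l, fun p l => ?_⟩
  have h1 : g (f p) = p := LinearMap.congr_fun hg p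
  have h2 : g (f p) l = ∑ i, f p i * g (Pi.single i 1) l := by
    conv_lhs => rw [pi_sum_single (f p)]
    rw [map_sum, Finset.sum_apply]
    refine Finset.sum_congr rfl fun i _ => ?_
    rw [map_smul, Pi.smul_apply, smul_eq_mul]
  rw [h1] at h2
  rw [h2]
  refine Finset.sum_congr rfl fun i _ => ?_
  rw [mul_comm]
  rfl

theorem HG.gp {n : ℕ} {c : Fin n → Fin 2 → ℂ} (hc : HG c) :
    GP (fun i => c i 0) (fun i => c i 1) where
  real := fun u hu h4 h0 h1 => by
    obtain ⟨l, hl⟩ := hc.real 0 (by omega) u Fin.elim0 Fin.elim0 (by omega) (fun h => hu (by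
      funext i
      have h5 := congrFun h i
      simpa using h5))
    simp only [Finset.univ_eq_empty, Finset.sum_empty, add_zero] at hl
    fin_cases l
    · exact hl h0
    · exact hl h1
  complex := fun u hu h4 h0 h1 => by
    obtain ⟨l, hl⟩ := hc.complex u hu h4
    fin_cases l
    · exact hl h0
    · exact hl h1

/-- closed sets contain the nondegenerate solutions for at most two unknowns -/
theorem HG.closed {n d : ℕ} {c : Fin n → Fin d → ℂ} (hc : HG c) (hdn : d ≤ n) (hd : d ≤ 2)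
    {D : Fin d → Fin n → ℂ}
    (hD : ∀ (p : Fin d → ℂ) (l : Fin d), ∑ i, D l i * ∑ l', c i l' * p l' = p l)
    {A C : Set ℂ} (hC : CrvClosed A C) (hAC : A ⊆ C) (hcA : ∀ i l, c i l ∈ A)
    (hDA : ∀ l i, D l i ∈ A) {p : Fin d → ℂ} (hp : NonDeg C (fun i => ∑ l, c i l * p l)) :
    ∀ l, p l ∈ C := by
  classical
  have hfin : (∀ i, ∑ l, c i l * p l ∈ C) → ∀ l, p l ∈ C := by
    intro h l
    rw [← hD p l]
    refine hC.cl ?_
    have h1 : ∑ i, D l i * ∑ l', c i l' * p l' ∈ clF ℚ C := sum_mem fun i _ =>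
      mul_mem (subset_cl _ (hAC (hDA l i))) (subset_cl _ (h i))
    exact h1
  apply hfin
  interval_cases d
  · intro i
    rw [Finset.univ_eq_empty, Finset.sum_empty]
    exact hC.alg 0 isAlgebraic_zero
  · refine hC.crv n _ (p 0) hp fun i => ?_
    rw [← mem_cl]
    have h1 : ∑ l, c i l * p l ∈ clF ℚ (C ∪ {p 0}) := sum_mem fun l _ => by
      rw [Subsingleton.elim l 0]
      exact mul_mem (subset_cl _ (Or.inl (hAC (hcA i 0)))) (subset_cl _ (Or.inr rfl))
    exact h1
  · exact hC.planar hAC (fun i => hcA i 0) (fun i => hcA i 1) hc.gp hp (z := p 0) (w := p 1)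
      fun i => Fin.sum_univ_two _

/-- the systems in linear forms: at most two unknowns, or thin -/
theorem InvN.forms {m d n : ℕ} {c : Fin n → Fin d → ℂ} (hG : HG c) (hdn : d ≤ n)
    {E : Set (Fin (m + (d + n)) → ℂ)} (hE : AutInv (m + (d + n)) E) (hT : d ≤ 2 ∨ ThinF E)
    (κ : Cardinal.{0}) :
    InvN m {s | κ ≤ #({p : Fin d → ℂ | LP c s p ∈ E} : Set (Fin d → ℂ))} := by
  classical
  rcases hT with hd | hT
  · obtain ⟨D, hD⟩ := hG.left_inv hdn
    obtain ⟨A0, hA0, hE0⟩ := id hE
    obtain ⟨A, hAdef⟩ : ∃ A : Set ℂ, A = A0 ∪ ((⋃ i, range (c i)) ∪ ⋃ l, range (D l)) := ⟨_, rfl⟩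
    have hA : A.Countable := by
      rw [hAdef]
      exact hA0.union ((Set.countable_iUnion fun i => Set.countable_range _).union
        (Set.countable_iUnion fun i => Set.countable_range _))
    have hcA : ∀ i l, c i l ∈ A := fun i l => by
      rw [hAdef]
      exact Or.inr (Or.inl (Set.mem_iUnion.2 ⟨i, l, rfl⟩))
    have hDA : ∀ l i, D l i ∈ A := fun l i => by
      rw [hAdef]
      exact Or.inr (Or.inr (Set.mem_iUnion.2 ⟨l, i, rfl⟩))
    have h1 := (InvN.lp c (AutInv.invN ⟨A0, hA0, hE0⟩)).tame hA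
      (forms_tame hD hA (fun σ hσ => hE0 σ fun a ha => hσ a (by
        rw [hAdef]
        exact Or.inl ha)) hcA hDA fun C hC hAC p hp => hG.closed hdn hd hD hC hAC hcA hDA hp) κ
    have e : ∀ (s : Fin m → ℂ) (p : Fin d → ℂ), (Fin.append s p : Fin (m + d) → ℂ) ∈
        {v : Fin (m + d) → ℂ | LP c (fun i => v (Fin.castAdd d i))
          (fun l => v (Fin.natAdd m l)) ∈ E} ↔ LP c s p ∈ E := by
      intro s p
      simp only [Set.mem_ofPred_eq, Fin.append_left, Fin.append_right]
    simp only [e] at h1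
    exact h1
  · have hU : InvN (m + d) (Set.univ : Set (Fin (m + d) → ℂ)) :=
      ⟨∅, Set.countable_empty, fun _ _ _ _ _ _ _ => trivial⟩
    have h1 := InvN.thin hG hdn hE hT hU κ
    simp only [Set.mem_univ, and_true] at h1
    exact h1

/-- the quantifiers over countable sets of solutions, with arbitrary matrix -/
theorem InvN.formsC {m d n : ℕ} {c : Fin n → Fin d → ℂ} (hG : HG c) (hdn : d ≤ n)
    {E : Set (Fin (m + (d + n)) → ℂ)} (hE : AutInv (m + (d + n)) E) (hT : d ≤ 2 ∨ ThinF E)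
    {X : Set (Fin (m + d) → ℂ)} (hX : InvN (m + d) X) (κ : Cardinal.{0}) :
    InvN m {s | κ ≤ #({p : Fin d → ℂ | LP c s p ∈ E ∧
      {p' : Fin d → ℂ | LP c s p' ∈ E}.Countable ∧
      (Fin.append s p : Fin (m + d) → ℂ) ∈ X} : Set (Fin d → ℂ))} := by
  classical
  have hN : InvN m {s | {p' : Fin d → ℂ | LP c s p' ∈ E}.Countable} := by
    have h1 := (InvN.forms hG hdn hE hT (Order.succ ℵ₀)).compl
    convert h1 using 1
    ext s
    rw [Set.mem_compl_iff, Set.mem_ofPred_eq, Set.mem_ofPred_eq]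
    exact countable_iff_not_le
  rcases hT with hd | hT
  · obtain ⟨D, hD⟩ := hG.left_inv hdn
    obtain ⟨A0, hA0, hE0⟩ := id hE
    obtain ⟨A, hAdef⟩ : ∃ A : Set ℂ, A = A0 ∪ ((⋃ i, range (c i)) ∪ ⋃ l, range (D l)) := ⟨_, rfl⟩
    have hA : A.Countable := by
      rw [hAdef]
      exact hA0.union ((Set.countable_iUnion fun i => Set.countable_range _).union
        (Set.countable_iUnion fun i => Set.countable_range _))
    have hcA : ∀ i l, c i l ∈ A := fun i l => by
      rw [hAdef]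
      exact Or.inr (Or.inl (Set.mem_iUnion.2 ⟨i, l, rfl⟩))
    have hDA : ∀ l i, D l i ∈ A := fun l i => by
      rw [hAdef]
      exact Or.inr (Or.inr (Set.mem_iUnion.2 ⟨l, i, rfl⟩))
    have hTm := forms_tame hD hA (fun σ hσ => hE0 σ fun a ha => hσ a (by
        rw [hAdef]
        exact Or.inl ha)) hcA hDA fun C hC hAC p hp => hG.closed hdn hd hD hC hAC hcA hDA hp
    have e : ∀ (s : Fin m → ℂ) (p : Fin d → ℂ), (Fin.append s p : Fin (m + d) → ℂ) ∈
        {v : Fin (m + d) → ℂ | LP c (fun i => v (Fin.castAdd d i))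
          (fun l => v (Fin.natAdd m l)) ∈ E} ↔ LP c s p ∈ E := by
      intro s p
      simp only [Set.mem_ofPred_eq, Fin.append_left, Fin.append_right]
    have hY := (InvN.lp c hE.invN).inter ((InvN.left (n := d) hN).inter hX)
    have h1 := hY.tame hA (A := A) (by
      intro s x J hx _ i
      have h3 : {p' : Fin d → ℂ | LP c s p' ∈ E}.Countable := by
        have h4 := hx.2.1
        simp only [Set.mem_ofPred_eq, Fin.append_left] at h4
        exact h4
      have h5 := hTm s x ∅ hx.1 (by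
        refine h3.mono ?_
        rintro x' ⟨h6, -⟩
        exact (e s x').1 h6) i
      refine ccl_min ?_ (ccl_closed _ _) h5
      rintro z (hz | hz | ⟨j, hj, -⟩)
      · exact subset_ccl _ _ (Or.inl hz)
      · exact subset_ccl _ _ (Or.inr (Or.inl hz))
      · exact absurd hj (Set.notMem_empty j)) κ
    convert h1 using 1
    ext s
    have h2 : {p : Fin d → ℂ | LP c s p ∈ E ∧
        {p' : Fin d → ℂ | LP c s p' ∈ E}.Countable ∧
        (Fin.append s p : Fin (m + d) → ℂ) ∈ X} =
        {x : Fin d → ℂ | (Fin.append s x : Fin (m + d) → ℂ) ∈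
          {v : Fin (m + d) → ℂ | LP c (fun i => v (Fin.castAdd d i))
            (fun l => v (Fin.natAdd m l)) ∈ E} ∩
          ({v : Fin (m + d) → ℂ | (fun i => v (Fin.castAdd d i)) ∈
            {s | {p' : Fin d → ℂ | LP c s p' ∈ E}.Countable}} ∩ X)} := by
      ext x
      simp only [Set.mem_ofPred_eq, Set.mem_inter_iff, Fin.append_left, Fin.append_right]
    rw [Set.mem_ofPred_eq, Set.mem_ofPred_eq, h2]
  · have h1 := InvN.thin hG hdn hE hT ((InvN.left (n := d) hN).inter hX) κ
    convert h1 using 1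
    ext s
    have h2 : {p : Fin d → ℂ | LP c s p ∈ E ∧
        {p' : Fin d → ℂ | LP c s p' ∈ E}.Countable ∧
        (Fin.append s p : Fin (m + d) → ℂ) ∈ X} =
        {p : Fin d → ℂ | LP c s p ∈ E ∧ (Fin.append s p : Fin (m + d) → ℂ) ∈
          ({v : Fin (m + d) → ℂ | (fun i => v (Fin.castAdd d i)) ∈
            {s | {p' : Fin d → ℂ | LP c s p' ∈ E}.Countable}} ∩ X)} := by
      ext x
      simp only [Set.mem_ofPred_eq, Set.mem_inter_iff, Fin.append_left]
    rw [Set.mem_ofPred_eq, Set.mem_ofPred_eq, h2]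

end Pool.Agent.V9h68
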