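import Pool.Agent.V9h68.Pl1
import Pool.Agent.Results.MP_209724_lc.LinearSpacesAtInfinity

/-!
The exponential points are dense in loci over planes in general position.
-/

set_option autoImplicit false

open MvPolynomial Set Filter

noncomputable section

namespace Pool.Agent.V9h68

open Pool.Agent.Y776 Pool.Agent.Y685
open Pool.Agent.TH813.Rel (MK mem_cl subset_cl rk_le_of_subset_cl cl_add cl_mul cl_inv cl_of_base)
open Pool.Agent.Results.MP_209724_lc.LinearSpacesAtInfinity (IsVariety Indep HasDim GeneralPosition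
  OverTranslate Translate ExpPoint)

/-- polynomials in independent quantities -/
theorem pol_zero {F : Subfield ℂ} {ι κ : Type} {c : ι → ℂ} {J : κ → ι}
    (hJi : Function.Injective J) (hJ : AlgebraicIndependent F fun a => c (J a))
    {f : MvPolynomial ι ℂ} (hf : ∀ α, f.coeff α ∈ F) (hv : ↑f.vars ⊆ range J)
    (h0 : eval c f = 0) : f = 0 := by
  obtain ⟨q, rfl⟩ := MvPolynomial.exists_rename_eq_of_vars_subset_range f J hJi hv
  have h1 : ∀ α, q.coeff α ∈ F := by
    intro α
    have h2 := hf (Finsupp.mapDomain J α)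
    rwa [coeff_rename_mapDomain J hJi] at h2
  obtain ⟨q', rfl⟩ := exists_pol h1
  rw [eval_rename, eval_pol] at h0
  rw [algebraicIndependent_iff] at hJ
  rw [hJ q' h0]
  simp

section

variable {k : Subfield ℂ} (hk : ∀ x, IsAlgebraic k x → x ∈ k) (hkc : (k : Set ℂ).Countable)
  {n : ℕ} {P : Fin n ⊕ Fin n → ℂ} (hP0 : ∀ j, P (Sum.inr j) ≠ 0) {m : ℕ}
  {J : Fin m → Fin n ⊕ Fin n} (hJ : AlgebraicIndependent k (fun a => P (J a)))
  (hP : ∀ i, P i ∈ (MK k).closure (range fun a => P (J a)))

/-- the points of the locus in the group -/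
def GV (k : Subfield ℂ) {n : ℕ} (P : Fin n ⊕ Fin n → ℂ) : Set (Fin n ⊕ Fin n → ℂ) :=
  {p | p ∈ Loc k P ∧ ∀ j : Fin n, p (Sum.inr j) ≠ 0}

include hP0 in
theorem gen_mem {τ : ℂ ≃+* ℂ} (hτ : ∀ a ∈ k, τ a = a) : (fun i => τ (P i)) ∈ GV k P :=
  ⟨mem_loc hτ, fun j h => hP0 j ((map_eq_zero τ).1 h)⟩

include hk hkc hP0 hJ hP

theorem isVariety : IsVariety (vI k P) (GV k P) where
  prime := vI_prime hk hkc hJ hP
  nonempty := ⟨P, self_mem_loc P, hP0⟩
  points := by
    ext p
    constructor
    · rintro ⟨h1, h2⟩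
      exact ⟨fun f hf => hf p h1, h2⟩
    · rintro ⟨h1, h2⟩
      refine ⟨fun f hf hf0 => h1 f fun v hv => hv f hf hf0, h2⟩

theorem hasDim : HasDim (GV k P) m := by
  classical
  have hinj : Function.Injective J := fun a b hab => hJ.injective (by
    change P (J a) = P (J b)
    rw [hab])
  constructor
  · refine ⟨Finset.univ.image J, ?_, fun f hf h0 => ?_⟩
    · rw [Finset.card_image_of_injective _ hinj, Finset.card_univ, Fintype.card_fin]
    · obtain ⟨F, τ, hS, -, -, hτ, hτJ, -⟩ := gen_point hk hkc hJ hP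
        (S := range fun α => f.coeff α) (coeffs_countable f)
      have hc := h0 _ (gen_mem hP0 hτ)
      refine pol_zero (F := F) (c := fun i => τ (P i)) (J := J) hinj hτJ
        (fun α => hS ⟨α, rfl⟩) ?_ hc
      intro i hi
      have h1 := hf (Finset.mem_coe.1 hi)
      obtain ⟨a, -, rfl⟩ := Finset.mem_image.1 h1
      exact ⟨a, rfl⟩
  · intro J' hJ' hind
    have h1 : AlgebraicIndependent k (fun j : J' => P j) := by
      rw [algebraicIndependent_iff]
      intro g hg
      have hvi : Function.Injective (Subtype.val : J' → Fin n ⊕ Fin n) := Subtype.val_injective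
      have h2 : MvPolynomial.map (algebraMap k ℂ) (rename (Subtype.val : J' → Fin n ⊕ Fin n) g) =
          0 := by
        apply hind
        · rw [map_rename]
          intro i hi
          have h3 := MvPolynomial.vars_rename _ _ hi
          obtain ⟨j, -, rfl⟩ := Finset.mem_image.1 h3
          exact j.2
        · intro p hp
          refine hp.1 _ (coeff_pol _) ?_
          rw [eval_pol, aeval_rename]
          exact hg
      have h3 : Function.Injective (MvPolynomial.map (algebraMap k ℂ) :
          MvPolynomial (Fin n ⊕ Fin n) k → MvPolynomial (Fin n ⊕ Fin n) ℂ) :=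
        MvPolynomial.map_injective _ (algebraMap k ℂ).injective
      exact rename_injective _ hvi (h3 (by rw [h2, map_zero, map_zero]))
    have h2 : (MK k).Indep (range fun j : J' => P j) := h1.to_subtype_range
    have h3 : (range fun j : J' => P j).encard = (m + 1 : ℕ) := by
      have h4 : Function.Injective (fun j : J' => P j) := h1.injective
      rw [← Set.image_univ, h4.encard_image, Set.encard_univ, ENat.card_eq_coe_fintype_card,
        Fintype.card_coe, hJ']
    have h4 : (MK k).eRk (range fun j : J' => P j) ≤ (m : ℕ) := by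
      have h5 : (range fun j : J' => P j) ⊆ (MK k).closure (range fun a => P (J a)) := by
        rintro _ ⟨j, rfl⟩
        exact hP j
      exact (rk_le_of_subset_cl h5).trans (((MK _).eRk_le_encard _).trans (encard_range_le _))
    rw [h2.eRk_eq_encard, h3] at h4
    norm_cast at h4
    omega

end

/-- **density of exponential points over planes in general position** -/
theorem loc_dense {k : Subfield ℂ} (hk : ∀ x, IsAlgebraic k x → x ∈ k)
    (hkc : (k : Set ℂ).Countable) {n : ℕ} {P : Fin n ⊕ Fin n → ℂ} (hP0 : ∀ j, P (Sum.inr j) ≠ 0)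
    (hrk : (n : ℕ∞) ≤ (MK k).eRk (range P)) {L : Submodule ℂ (Fin n → ℂ)}
    (hL : GeneralPosition 2 L) {i1 i2 : Fin n} {α β : Fin n → ℂ} (hα : ∀ i, α i ∈ k)
    (hβ : ∀ i, β i ∈ k) (hLe : ∀ x, x ∈ L ↔ ∀ i, x i = α i * x i1 + β i * x i2)
    (hPL : (fun i => P (Sum.inl i)) ∈ L)
    (hind : AlgebraicIndependent k ![P (Sum.inl i1), P (Sum.inl i2)])
    {H : MvPolynomial (Fin n ⊕ Fin n) ℂ}
    (hH : ∀ z : Fin n → ℂ, Sum.elim z (fun i => Complex.exp (z i)) ∈ Loc k P →
      eval (Sum.elim z (fun i => Complex.exp (z i))) H = 0) :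
    ∀ v ∈ Loc k P, eval v H = 0 := by
  classical
  obtain ⟨m, J, hJ, hP, hI⟩ := exists_basis_tuple (k := k) P
    (I₀ := range ![P (Sum.inl i1), P (Sum.inl i2)]) (by
      rintro _ ⟨i, rfl⟩
      fin_cases i
      · exact ⟨_, rfl⟩
      · exact ⟨_, rfl⟩) hind.to_subtype_range
  obtain ⟨a1, ha1⟩ := hI ⟨0, rfl⟩
  obtain ⟨a2, ha2⟩ := hI ⟨1, rfl⟩
  simp only [Matrix.cons_val_zero, Matrix.cons_val_one] at ha1 ha2
  have hne : a1 ≠ a2 := by
    intro h
    have h1 : P (Sum.inl i1) = P (Sum.inl i2) := by rw [← ha1, ← ha2, h]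
    have h2 := hind.injective (a₁ := 0) (a₂ := 1) h1
    exact absurd h2 (by decide)
  have hnm : n ≤ m := by
    have h1 : (MK k).eRk (range P) ≤ (m : ℕ) := by
      have h5 : range P ⊆ (MK k).closure (range fun a => P (J a)) := by
        rintro _ ⟨j, rfl⟩
        exact hP j
      exact (rk_le_of_subset_cl h5).trans (((MK _).eRk_le_encard _).trans (encard_range_le _))
    exact_mod_cast hrk.trans h1
  have hPe : ∀ i, P (Sum.inl i) = α i * P (Sum.inl i1) + β i * P (Sum.inl i2) := (hLe _).1 hPL
  have hOT : OverTranslate (GV k P) L := by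
    refine ⟨L.toAffineSubspace, Submodule.toAffineSubspace_direction L, fun p hp => ?_,
      fun f hf => ?_⟩
    · rw [Submodule.mem_toAffineSubspace, hLe]
      intro i
      have h1 := hp.1 (MvPolynomial.map (algebraMap k ℂ) (X (Sum.inl i) -
        C ⟨α i, hα i⟩ * X (Sum.inl i1) - C ⟨β i, hβ i⟩ * X (Sum.inl i2))) (coeff_pol _) (by
          rw [eval_pol]
          simp only [map_sub, map_mul, aeval_X, aeval_C]
          change P (Sum.inl i) - α i * P (Sum.inl i1) - β i * P (Sum.inl i2) = 0
          rw [hPe i]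
          ring)
      rw [eval_pol] at h1
      simp only [map_sub, map_mul, aeval_X, aeval_C] at h1
      have h2 : p (Sum.inl i) - α i * p (Sum.inl i1) - β i * p (Sum.inl i2) = 0 := h1
      linear_combination h2
    · obtain ⟨h, hh⟩ : ∃ h : MvPolynomial (Fin 2) ℂ, ∀ a b : ℂ,
          eval ![a, b] h = eval (fun i => α i * a + β i * b) f := by
        refine ⟨bind₁ (fun i => C (α i) * X 0 + C (β i) * X 1) f, fun a b => ?_⟩
        have h1 : eval ![a, b] (bind₁ (fun i => C (α i) * X 0 + C (β i) * X 1) f) =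
            aeval ![a, b] (bind₁ (fun i => C (α i) * X 0 + C (β i) * X 1) f) := rfl
        rw [h1, aeval_bind₁]
        simp only [map_add, map_mul, aeval_X, aeval_C, Matrix.cons_val_zero, Matrix.cons_val_one]
        rfl
      obtain ⟨F, τ, hS, -, -, hτ, hτJ, -⟩ := gen_point hk hkc hJ hP
        (S := range fun α => h.coeff α) (coeffs_countable h)
      have hc := hf _ (gen_mem hP0 hτ)
      have hce : (fun i => τ (P (Sum.inl i))) =
          fun i => α i * τ (P (Sum.inl i1)) + β i * τ (P (Sum.inl i2)) := by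
        funext i
        rw [hPe i, map_add, map_mul, map_mul, hτ _ (hα i), hτ _ (hβ i)]
      have hc' : eval (fun i => τ (P (Sum.inl i))) f = 0 := hc
      rw [hce, ← hh] at hc'
      have hτ2 : AlgebraicIndependent F ![τ (P (Sum.inl i1)), τ (P (Sum.inl i2))] := by
        have h1 := hτJ.comp ![a1, a2] (by
          intro i j hij
          fin_cases i <;> fin_cases j
          · rfl
          · exact absurd hij hne
          · exact absurd hij hne.symm
          · rfl)
        convert h1 using 1
        funext i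
        fin_cases i
        · change τ (P (Sum.inl i1)) = τ (P (J a1))
          rw [ha1]
        · change τ (P (Sum.inl i2)) = τ (P (J a2))
          rw [ha2]
      have h0 : h = 0 := pol_zero (F := F) (c := ![τ (P (Sum.inl i1)), τ (P (Sum.inl i2))])
        (J := id) Function.injective_id hτ2 (fun α => hS ⟨α, rfl⟩) (by simp) hc'
      intro x hx
      rw [Submodule.mem_toAffineSubspace, hLe] at hx
      have h1 := hh (x i1) (x i2)
      rw [h0, map_zero] at h1
      rw [h1]
      congr 2
      funext i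
      exact hx i
  intro v hv
  by_contra hcon
  obtain ⟨F, τ, hS, -, -, hτ, -, hF⟩ := gen_point hk hkc hJ hP
    (S := range fun α => H.coeff α) (coeffs_countable H)
  have hcH : eval (fun i => τ (P i)) H ≠ 0 := fun h0 => hcon (hF H (fun α => hS ⟨α, rfl⟩) h0 v hv)
  obtain ⟨c1, hc1⟩ : ∃ c1 : Fin n ⊕ Fin n → ℂ, c1 = Sum.elim (fun _ => (0 : ℂ)) fun _ => 1 :=
    ⟨_, rfl⟩
  have htr : ∀ p, p ∈ Translate c1 (GV k P) ↔ p ∈ GV k P := by
    intro p
    have h1 : ∀ u : Fin n ⊕ Fin n → ℂ, Sum.elim
        (fun i : Fin n => u (Sum.inl i) + c1 (Sum.inl i))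
        (fun i : Fin n => c1 (Sum.inr i) * u (Sum.inr i)) = u := by
      intro u
      funext i
      rcases i with i | i
      · simp [hc1]
      · simp [hc1]
    constructor
    · rintro ⟨u, hu, rfl⟩
      rw [h1]
      exact hu
    · intro hp
      exact ⟨p, hp, (h1 p).symm⟩
  obtain ⟨z, hz, hzH⟩ := (Pool.Agent.Results.MP_209724_lc.LinearSpacesAtInfinity.result.1 n 2 L
    one_le_two hL (vI k P) (GV k P) (isVariety hk hkc hP0 hJ hP) m hnm
    (hasDim hk hkc hP0 hJ hP) (Or.inl hOT)).1
    c1 (fun i => by simp [hc1]) H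
    ⟨_, (htr _).2 (gen_mem hP0 hτ), hcH⟩
  exact hzH (hH z ((htr _).1 hz).1)

end Pool.Agent.V9h68
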