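import Pool.Agent.V9h68.Pl2

/-!
Linear forms in two variables in general position.
-/

set_option autoImplicit false

open MvPolynomial Set Filter

noncomputable section

namespace Pool.Agent.V9h68

open Pool.Agent.Results.MP_209724_lc.LinearSpacesAtInfinity (GeneralPosition)

/-- the linear forms `a_i z + b_i w` are in general position -/
structure GP {n : ℕ} (a b : Fin n → ℂ) : Prop where
  real : ∀ c : Fin n → ℝ, c ≠ 0 → Module.finrank ℚ (Submodule.span ℚ (range c)) ≤ 4 →
    ∑ i, (c i : ℂ) * a i = 0 → ∑ i, (c i : ℂ) * b i ≠ 0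
  complex : ∀ c : Fin n → ℂ, c ≠ 0 → Module.finrank ℚ (Submodule.span ℚ (range c)) ≤ 2 →
    ∑ i, c i * a i = 0 → ∑ i, c i * b i ≠ 0

/-- the minors do not vanish -/
theorem GP.minor {n : ℕ} {a b : Fin n → ℂ} (h : GP a b) {i j : Fin n} (hij : i ≠ j) :
    a i * b j - a j * b i ≠ 0 := by
  classical
  intro h0
  -- a relation between two forms
  have key : ∀ u v : ℂ, ¬ (u = 0 ∧ v = 0) → u * a i + v * a j = 0 → u * b i + v * b j ≠ 0 := by
    intro u v huv h1 h2
    obtain ⟨c, hc⟩ : ∃ c : Fin n → ℂ, c = Pi.single i u + Pi.single j v := ⟨_, rfl⟩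
    have hs : ∀ d : Fin n → ℂ, ∑ l, c l * d l = u * d i + v * d j := by
      intro d
      rw [hc]
      simp only [Pi.add_apply, add_mul, Finset.sum_add_distrib]
      rw [Finset.sum_eq_single i, Finset.sum_eq_single j]
      · simp
      · intro l _ hl
        rw [Pi.single_eq_of_ne hl, zero_mul]
      · intro hl
        exact absurd (Finset.mem_univ _) hl
      · intro l _ hl
        rw [Pi.single_eq_of_ne hl, zero_mul]
      · intro hl
        exact absurd (Finset.mem_univ _) hl
    refine h.complex c ?_ ?_ (by rw [hs]; exact h1) (by rw [hs]; exact h2)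
    · intro hc0
      apply huv
      have h3 := congrFun hc0 i
      have h4 := congrFun hc0 j
      rw [hc] at h3 h4
      simp only [Pi.add_apply, Pi.single_eq_same, Pi.zero_apply] at h3 h4
      rw [Pi.single_eq_of_ne hij, add_zero] at h3
      rw [Pi.single_eq_of_ne hij.symm, zero_add] at h4
      exact ⟨h3, h4⟩
    · have h3 : Submodule.span ℚ (range c) ≤ Submodule.span ℚ (range ![u, v]) := by
        rw [Submodule.span_le]
        rintro _ ⟨l, rfl⟩
        have h5 : u ∈ Submodule.span ℚ (range ![u, v]) := Submodule.subset_span ⟨0, rfl⟩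
        have h6 : v ∈ Submodule.span ℚ (range ![u, v]) := Submodule.subset_span ⟨1, rfl⟩
        rw [hc]
        refine Submodule.add_mem _ ?_ ?_
        · by_cases hl : l = i
          · rw [hl, Pi.single_eq_same]
            exact h5
          · rw [Pi.single_eq_of_ne hl]
            exact Submodule.zero_mem _
        · by_cases hl : l = j
          · rw [hl, Pi.single_eq_same]
            exact h6
          · rw [Pi.single_eq_of_ne hl]
            exact Submodule.zero_mem _
      have : Module.Finite ℚ (Submodule.span ℚ (range ![u, v])) :=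
        FiniteDimensional.span_of_finite ℚ (Set.finite_range _)
      refine (Submodule.finrank_mono h3).trans ?_
      have h4 : Module.finrank ℚ (Submodule.span ℚ (range ![u, v])) ≤ Fintype.card (Fin 2) :=
        finrank_range_le_card (R := ℚ) ![u, v]
      exact h4.trans (le_of_eq (Fintype.card_fin 2))
  by_cases h1 : a j = 0 ∧ a i = 0
  · by_cases h2 : b j = 0 ∧ b i = 0
    · exact key 1 0 (by simp) (by rw [h1.2]; simp) (by rw [h2.2]; simp)
    · exact key (b j) (-b i) (fun h3 => h2 ⟨h3.1, neg_eq_zero.1 h3.2⟩) (by rw [h1.1, h1.2]; simp)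
        (by ring)
  · exact key (a j) (-a i) (fun h3 => h1 ⟨h3.1, neg_eq_zero.1 h3.2⟩) (by ring)
      (by linear_combination -h0)

/-- the plane -/
def PL {n : ℕ} (a b : Fin n → ℂ) : Submodule ℂ (Fin n → ℂ) := Submodule.span ℂ {a, b}

theorem mem_PL {n : ℕ} {a b x : Fin n → ℂ} :
    x ∈ PL a b ↔ ∃ z w : ℂ, ∀ i, x i = a i * z + b i * w := by
  unfold PL
  rw [Submodule.mem_span_pair]
  constructor
  · rintro ⟨z, w, rfl⟩
    refine ⟨z, w, fun i => ?_⟩
    simp only [Pi.add_apply, Pi.smul_apply, smul_eq_mul]
    ring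
  · rintro ⟨z, w, h⟩
    refine ⟨z, w, ?_⟩
    funext i
    simp only [Pi.add_apply, Pi.smul_apply, smul_eq_mul]
    rw [h i]
    ring

theorem GP.gen {n : ℕ} {a b : Fin n → ℂ} (h : GP a b) {i j : Fin n} (hij : i ≠ j) :
    GeneralPosition 2 (PL a b) := by
  have ha : a ∈ PL a b := Submodule.subset_span (Or.inl rfl)
  have hb : b ∈ PL a b := Submodule.subset_span (Or.inr rfl)
  refine ⟨?_, fun c hc h4 => ?_, fun c hc h2 => ?_⟩
  · have h1 : LinearIndependent ℂ ![a, b] := by
      rw [LinearIndependent.pair_iff]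
      intro s t hst
      have h2 := congrFun hst i
      have h3 := congrFun hst j
      simp only [Pi.add_apply, Pi.smul_apply, smul_eq_mul, Pi.zero_apply] at h2 h3
      have h4 := h.minor hij
      constructor
      · have h5 : s * (a i * b j - a j * b i) = 0 := by linear_combination b j * h2 - b i * h3
        exact (mul_eq_zero.1 h5).resolve_right h4
      · have h5 : t * (a i * b j - a j * b i) = 0 := by linear_combination a i * h3 - a j * h2
        exact (mul_eq_zero.1 h5).resolve_right h4
    have h2 := finrank_span_eq_card h1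
    have h3 : range ![a, b] = {a, b} := by
      simp [Matrix.range_cons, Matrix.range_empty, Set.pair_comm]
    rw [h3, Fintype.card_fin] at h2
    exact h2
  · by_cases h5 : ∑ i, (c i : ℂ) * a i = 0
    · exact ⟨b, hb, h.real c hc h4 h5⟩
    · exact ⟨a, ha, h5⟩
  · by_cases h5 : ∑ i, c i * a i = 0
    · exact ⟨b, hb, h.complex c hc h2 h5⟩
    · exact ⟨a, ha, h5⟩

/-- equations of the plane -/
theorem GP.eqs {n : ℕ} {a b : Fin n → ℂ} (h : GP a b) {i1 i2 : Fin n} (h12 : i1 ≠ i2)
    (x : Fin n → ℂ) : x ∈ PL a b ↔ ∀ i, x i =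
      (a i * b i2 - a i2 * b i) * (a i1 * b i2 - a i2 * b i1)⁻¹ * x i1 +
      (a i1 * b i - a i * b i1) * (a i1 * b i2 - a i2 * b i1)⁻¹ * x i2 := by
  have hd := h.minor h12
  rw [mem_PL]
  constructor
  · rintro ⟨z, w, hx⟩ i
    rw [hx i, hx i1, hx i2]
    have hD : (a i1 * b i2 - a i2 * b i1)⁻¹ * (a i1 * b i2 - a i2 * b i1) = 1 :=
      inv_mul_cancel₀ hd
    linear_combination -(a i * z + b i * w) * hD
  · intro hx
    refine ⟨(b i2 * x i1 - b i1 * x i2) * (a i1 * b i2 - a i2 * b i1)⁻¹,
      (a i1 * x i2 - a i2 * x i1) * (a i1 * b i2 - a i2 * b i1)⁻¹, fun i => ?_⟩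
    rw [hx i]
    field_simp
    ring

/-- rational combinations of forms in general position -/
theorem GP.map {n k : ℕ} {a b : Fin n → ℂ} (h : GP a b) {N : Fin k → Fin n → ℚ}
    (hN : LinearIndependent ℚ N) :
    GP (fun j => ∑ i, (N j i : ℂ) * a i) (fun j => ∑ i, (N j i : ℂ) * b i) := by
  classical
  -- a right inverse
  obtain ⟨R, hR⟩ : ∃ R : Fin n → Fin k → ℚ, ∀ j l, ∑ i, N j i * R i l = if j = l then 1 else 0 := by
    let f : (Fin k → ℚ) →ₗ[ℚ] (Fin n → ℚ) := Fintype.linearCombination ℚ N
    have hf : LinearMap.ker f = ⊥ := by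
      rw [LinearMap.ker_eq_bot']
      intro v hv
      have h1 := Fintype.linearIndependent_iff.1 hN v (by
        rw [← hv]
        rfl)
      exact funext h1
    obtain ⟨g, hg⟩ := f.exists_leftInverse_of_injective hf
    refine ⟨fun i l => g (Pi.single i 1) l, fun j l => ?_⟩
    have h1 : g (N j) = Pi.single j 1 := by
      have h2 : f (Pi.single j 1) = N j := by
        change Fintype.linearCombination ℚ N (Pi.single j 1) = N j
        rw [Fintype.linearCombination_apply_single, one_smul]
      rw [← h2]
      exact LinearMap.congr_fun hg _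
    have h3 : N j = ∑ i, N j i • (Pi.single i (1 : ℚ) : Fin n → ℚ) := by
      funext l
      rw [Finset.sum_apply, Finset.sum_eq_single l]
      · simp
      · intro i _ hi
        rw [Pi.smul_apply, Pi.single_eq_of_ne hi.symm, smul_zero]
      · intro hl
        exact absurd (Finset.mem_univ _) hl
    have h4 : g (N j) l = ∑ i, N j i * g (Pi.single i 1) l := by
      conv_lhs => rw [h3]
      rw [map_sum, Finset.sum_apply]
      refine Finset.sum_congr rfl fun i _ => ?_
      rw [map_smul, Pi.smul_apply, smul_eq_mul]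
    rw [← h4, h1]
    by_cases hjl : j = l
    · rw [hjl, Pi.single_eq_same, if_pos rfl]
    · rw [Pi.single_eq_of_ne (Ne.symm hjl), if_neg hjl]
  have hsum : ∀ (d : Fin n → ℂ) (c : Fin k → ℂ),
      ∑ j, c j * ∑ i, (N j i : ℂ) * d i = ∑ i, (∑ j, c j * (N j i : ℂ)) * d i := by
    intro d c
    simp only [Finset.mul_sum, Finset.sum_mul]
    rw [Finset.sum_comm]
    refine Finset.sum_congr rfl fun i _ => Finset.sum_congr rfl fun j _ => ?_
    ring
  constructor
  · intro c hc h4 h5
    have h6 : ∀ i, ((∑ j, c j * (N j i : ℝ) : ℝ) : ℂ) = ∑ j, (c j : ℂ) * (N j i : ℂ) := by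
      intro i
      push_cast
      rfl
    rw [hsum] at h5 ⊢
    have h7 := h.real (fun i => ∑ j, c j * (N j i : ℝ)) ?_ ?_ ?_
    · simp only [h6] at h7
      exact h7
    · intro h0
      apply hc
      funext l
      have h8 : c l = ∑ i, (∑ j, c j * (N j i : ℝ)) * (R i l : ℝ) := by
        have h9 : ∑ i, (∑ j, c j * (N j i : ℝ)) * (R i l : ℝ) =
            ∑ j, c j * ((∑ i, N j i * R i l : ℚ) : ℝ) := by
          push_cast
          simp only [Finset.mul_sum, Finset.sum_mul]
          rw [Finset.sum_comm]
          refine Finset.sum_congr rfl fun j _ => Finset.sum_congr rfl fun i _ => ?_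
          ring
        rw [h9]
        simp only [hR]
        rw [Finset.sum_eq_single l]
        · rw [if_pos rfl, Rat.cast_one, mul_one]
        · intro j _ hj
          rw [if_neg hj, Rat.cast_zero, mul_zero]
        · intro hl
          exact absurd (Finset.mem_univ _) hl
      rw [h8]
      refine Finset.sum_eq_zero fun i _ => ?_
      have h9 : ∑ j, c j * (N j i : ℝ) = 0 := congrFun h0 i
      rw [h9, zero_mul]
    · have : Module.Finite ℚ (Submodule.span ℚ (range c)) :=
        FiniteDimensional.span_of_finite ℚ (Set.finite_range _)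
      refine (Submodule.finrank_mono (?_ : _ ≤ Submodule.span ℚ (range c))).trans h4
      rw [Submodule.span_le]
      rintro _ ⟨i, rfl⟩
      refine Submodule.sum_mem _ fun j _ => ?_
      have h8 : c j * (N j i : ℝ) = N j i • c j := by
        rw [Rat.smul_def, mul_comm]
      rw [h8]
      exact Submodule.smul_mem _ _ (Submodule.subset_span ⟨j, rfl⟩)
    · simp only [h6]
      exact h5
  · intro c hc h4 h5
    rw [hsum] at h5 ⊢
    refine h.complex (fun i => ∑ j, c j * (N j i : ℂ)) ?_ ?_ h5
    · intro h0
      apply hc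
      funext l
      have h8 : c l = ∑ i, (∑ j, c j * (N j i : ℂ)) * (R i l : ℂ) := by
        have h9 : ∑ i, (∑ j, c j * (N j i : ℂ)) * (R i l : ℂ) =
            ∑ j, c j * ((∑ i, N j i * R i l : ℚ) : ℂ) := by
          push_cast
          simp only [Finset.mul_sum, Finset.sum_mul]
          rw [Finset.sum_comm]
          refine Finset.sum_congr rfl fun j _ => Finset.sum_congr rfl fun i _ => ?_
          ring
        rw [h9]
        simp only [hR]
        rw [Finset.sum_eq_single l]
        · rw [if_pos rfl, Rat.cast_one, mul_one]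
        · intro j _ hj
          rw [if_neg hj, Rat.cast_zero, mul_zero]
        · intro hl
          exact absurd (Finset.mem_univ _) hl
      rw [h8]
      refine Finset.sum_eq_zero fun i _ => ?_
      have h9 : ∑ j, c j * (N j i : ℂ) = 0 := congrFun h0 i
      rw [h9, zero_mul]
    · have : Module.Finite ℚ (Submodule.span ℚ (range c)) :=
        FiniteDimensional.span_of_finite ℚ (Set.finite_range _)
      refine (Submodule.finrank_mono (?_ : _ ≤ Submodule.span ℚ (range c))).trans h4
      rw [Submodule.span_le]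
      rintro _ ⟨i, rfl⟩
      refine Submodule.sum_mem _ fun j _ => ?_
      have h8 : c j * (N j i : ℂ) = N j i • c j := by
        rw [Rat.smul_def, mul_comm]
      rw [h8]
      exact Submodule.smul_mem _ _ (Submodule.subset_span ⟨j, rfl⟩)

end Pool.Agent.V9h68
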