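import Pool.Agent.V9h68.Pl3
import Pool.Agent.V9h68.N3

/-!
Closed sets contain the nondegenerate solutions of systems over planes in general position.
-/

set_option autoImplicit false

open MvPolynomial Set Filter

noncomputable section

namespace Pool.Agent.V9h68

open Pool.Agent.Y776 Pool.Agent.Y685
open Pool.Agent.TH813.Rel (MK mem_cl subset_cl rk_le_of_subset_cl cl_add cl_mul cl_inv cl_of_base)
open Pool.Agent.Results.MP_209724_lc.LinearSpacesAtInfinity (GeneralPosition)

/-- independent pairs -/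
theorem indep_pair2 {F : Subfield ℂ} {u v : ℂ} (h1 : u ∉ (MK F).closure {v})
    (h2 : v ∉ (MK F).closure {u}) : AlgebraicIndependent F ![u, v] := by
  apply indep_crit0
  intro l hl
  fin_cases l
  · have e1 : (![u, v] : Fin 2 → ℂ) '' {0}ᶜ = {v} := by
      ext z
      constructor
      · rintro ⟨l, hl, rfl⟩
        fin_cases l
        · exact absurd rfl hl
        · rfl
      · rintro rfl
        exact ⟨1, by simp, rfl⟩
    have h6 := hl
    simp only [Fin.zero_eta] at h6
    rw [e1] at h6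
    exact h1 h6
  · have e1 : (![u, v] : Fin 2 → ℂ) '' {1}ᶜ = {u} := by
      ext z
      constructor
      · rintro ⟨l, hl, rfl⟩
        fin_cases l
        · rfl
        · exact absurd rfl hl
      · rintro rfl
        exact ⟨0, by simp, rfl⟩
    have h6 := hl
    simp only [Fin.mk_one] at h6
    rw [e1] at h6
    exact h2 h6

/-- conjugates of loci are loci -/
theorem conj_iff_loc {B : Set ℂ} {σ : ℂ ≃+* ℂ} {n : ℕ} {u : Fin n → ℂ} {v : Fin n ⊕ Fin n → ℂ} :
    Conj B σ u v ↔ v ∈ Loc (clF ℚ (σ '' B)) (fun i => σ (ep u i)) := by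
  constructor
  · intro h f hf hf0
    have h1 := h (MvPolynomial.map (σ.symm : ℂ →+* ℂ) f) (fun α => by
      rw [coeff_map, ← mem_cl]
      refine cl_rat_hom (θ := (σ.symm : ℂ →+* ℂ)) ?_ (hf α)
      rintro _ ⟨s, hs, rfl⟩
      refine subset_cl _ ?_
      change σ.symm (σ s) ∈ B
      rw [RingEquiv.symm_apply_apply]
      exact hs) (by
      have h2 := eval_conj σ.symm (fun i => σ (ep u i)) f
      have h3 : (fun i => σ.symm (σ (ep u i))) = ep u := by
        funext i
        exact σ.symm_apply_apply _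
      rw [h3, hf0, map_zero] at h2
      exact h2)
    rw [MvPolynomial.map_map] at h1
    have h2 : (σ : ℂ →+* ℂ).comp (σ.symm : ℂ →+* ℂ) = RingHom.id ℂ :=
      RingHom.ext fun z => σ.apply_symm_apply z
    rw [h2, MvPolynomial.map_id] at h1
    exact h1
  · intro h P hP hP0
    refine h _ (fun α => ?_) ?_
    · rw [coeff_map]
      exact cl_rat_hom (θ := (σ : ℂ →+* ℂ)) (S := B) (T := σ '' B)
        (fun s hs => subset_cl _ ⟨s, hs, rfl⟩) (mem_cl.2 (hP α))
    · have h1 : eval (ep u) P = 0 := hP0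
      rw [eval_conj, h1, map_zero]

/-- a finite base field -/
theorem small_base {C : Set ℂ} {L : Subfield ℂ} (hL : ∀ z, z ∈ L ↔ z ∈ C) {k : ℕ} {y : Fin k → ℂ}
    (hy : (MK L).eRk (ET y) ≤ (k : ℕ)) :
    ∃ B : Set ℂ, B.Finite ∧ B ⊆ C ∧ ∀ B' : Set ℂ, B ⊆ B' → Small B' y := by
  classical
  obtain ⟨I, hI⟩ := (MK L).exists_isBasis (ET y) (Set.subset_univ _)
  rw [hI.eRk_eq_encard] at hy
  have hdown : ∀ (T : Set ℂ) (z : ℂ), z ∈ (MK L).closure T → z ∈ (MK ℚ).closure (C ∪ T) := by
    intro T z hz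
    refine cl_up (k := L) (k' := ℚ) (fun a => ?_) (Set.subset_union_right.trans (subset_cl _)) hz
    exact subset_cl _ (Or.inl ((hL _).1 a.2))
  have hf : (ET y).Finite := (Set.finite_range _).union (Set.finite_range _)
  obtain ⟨B0, h1, h2, -, h3⟩ := Matroid.exists_subset_finite_closure_of_subset_closure
    (M := MK ℚ) hf (Y := C ∪ I) (fun z hz => hdown I z (hI.subset_closure hz))
  refine ⟨B0 ∩ C, h2.subset Set.inter_subset_left, Set.inter_subset_right, fun B' hB' => ?_⟩
  apply small_of_rank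
  have h4 : ET y ⊆ (MK (clF ℚ B')).closure I := by
    intro z hz
    refine cl_rat_clF ((MK ℚ).closure_subset_closure ?_ (h3 hz))
    intro b hb
    rcases h1 hb with h5 | h5
    · exact Or.inl (hB' ⟨hb, h5⟩)
    · exact Or.inr h5
  exact (rk_le_of_subset_cl h4).trans (((MK _).eRk_le_encard _).trans hy)

/-- rows of compositions -/
theorem li_comp {n k l : ℕ} {N : Fin k → Fin n → ℚ} (hN : LinearIndependent ℚ N)
    {N' : Fin l → Fin k → ℚ} (hN' : LinearIndependent ℚ N') :
    LinearIndependent ℚ (fun j => ∑ i, N' j i • N i) := by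
  have h1 : LinearMap.ker (Fintype.linearCombination ℚ N) = ⊥ := by
    rw [LinearMap.ker_eq_bot']
    intro v hv
    exact funext (Fintype.linearIndependent_iff.1 hN v hv)
  exact hN'.map' (Fintype.linearCombination ℚ N) h1

/-- **nondegenerate solutions over planes in general position are in the closure** -/
theorem CrvClosed.planar {A C : Set ℂ} (hC : CrvClosed A C) (hAC : A ⊆ C) {n : ℕ}
    {a b : Fin n → ℂ} (ha : ∀ i, a i ∈ A) (hb : ∀ i, b i ∈ A) (hG : GP a b) {x : Fin n → ℂ}
    (hx : NonDeg C x) {z w : ℂ} (hxe : ∀ i, x i = a i * z + b i * w) : ∀ i, x i ∈ C := by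
  classical
  let L : Subfield ℂ := clF ℚ C
  have hL : ∀ z, z ∈ L ↔ z ∈ C := fun z => ⟨fun h => hC.cl h, fun h => subset_cl _ h⟩
  have hLC : (L : Set ℂ) = C := Set.ext hL
  have hdown : ∀ (T : Set ℂ) (z : ℂ), z ∈ (MK L).closure T → z ∈ (MK ℚ).closure (C ∪ T) := by
    intro T z hz
    refine cl_up (k := L) (k' := ℚ) (fun a => ?_) (Set.subset_union_right.trans (subset_cl _)) hz
    exact subset_cl _ (Or.inl ((hL _).1 a.2))
  have hbase : ∀ (T : Set ℂ) (z : ℂ), z ∈ C → z ∈ (MK L).closure T := fun T z hz =>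
    cl_of_base (k := L) T ⟨z, (hL z).2 hz⟩
  by_cases h1 : ∃ t, ∀ i, x i ∈ (MK L).closure {t}
  · obtain ⟨t, ht⟩ := h1
    exact hC.crv n x t hx fun i => mem_cl.1 (hdown _ _ (ht i))
  push Not at h1
  exfalso
  -- the unknowns are independent
  have hxc : ∀ (T : Set ℂ), z ∈ (MK L).closure T → w ∈ (MK L).closure T → ∀ i,
      x i ∈ (MK L).closure T := fun T hz hw i => by
    rw [hxe i]
    exact cl_add (cl_mul (hbase T _ (hAC (ha i))) hz) (cl_mul (hbase T _ (hAC (hb i))) hw)
  have hsub : ∀ t, ¬ (z ∈ (MK L).closure {t} ∧ w ∈ (MK L).closure {t}) := by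
    rintro t ⟨h2, h3⟩
    obtain ⟨i, hi⟩ := h1 t
    exact hi (hxc _ h2 h3 i)
  have hlin : ∀ p q : ℂ, p ∈ C → q ∈ C → p * z + q * w ∈ C → p = 0 ∧ q = 0 := by
    intro p q hp hq hpq
    by_contra hcon
    by_cases hq0 : q = 0
    · have hp0 : p ≠ 0 := fun h => hcon ⟨h, hq0⟩
      have h2 : z = p⁻¹ * (p * z + q * w) := by
        rw [hq0]
        field_simp
        ring
      apply hsub w
      refine ⟨?_, subset_cl _ rfl⟩
      rw [h2]
      exact cl_mul (cl_inv (hbase _ _ hp)) (hbase _ _ hpq)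
    · have h2 : w = q⁻¹ * ((p * z + q * w) + -(p * z)) := by
        field_simp
        ring
      apply hsub z
      refine ⟨subset_cl _ rfl, ?_⟩
      rw [h2]
      exact cl_mul (cl_inv (hbase _ _ hq)) (cl_add (hbase _ _ hpq)
        (cl_neg (cl_mul (hbase _ _ hp) (subset_cl _ rfl))))
  -- the rank
  have hxL : NonDeg L x := by
    rw [hLC]
    exact hx
  have hrk := jac_rank (F := L) hxL ⊥ (fun u hu => by
    rw [(Submodule.mem_bot ℚ).1 hu, Complex.exp_zero]
    exact ⟨L.zero_mem, L.one_mem⟩) (m := n) (ι := id) (fun i => ⟨Pi.single i 1, by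
      rw [Submodule.mem_bot, sub_eq_zero, Finset.sum_eq_single i]
      · rw [Pi.single_eq_same, one_smul]
        rfl
      · intro j _ hj
        rw [Pi.single_eq_of_ne hj, zero_smul]
      · intro h
        exact absurd (Finset.mem_univ _) h⟩)
  have hn : 0 < n := by
    obtain ⟨i, -⟩ := h1 0
    exact i.pos
  -- the minimal tuple
  let Q : ℕ → Prop := fun k => 0 < k ∧ ∃ N : Fin k → Fin n → ℚ, LinearIndependent ℚ N ∧
    (MK L).eRk (ET fun j => lc x (N j)) ≤ (k : ℕ)
  have hQn : Q n := by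
    refine ⟨hn, fun j => Pi.single j 1, ?_, ?_⟩
    · rw [Fintype.linearIndependent_iff]
      intro g hg i
      have h2 := congrFun hg i
      rw [Finset.sum_apply, Finset.sum_eq_single i] at h2
      · simpa using h2
      · intro j _ hj
        rw [Pi.smul_apply, Pi.single_eq_of_ne hj.symm, smul_zero]
      · intro h
        exact absurd (Finset.mem_univ _) h
    · have h2 : (fun j => lc x (Pi.single j 1)) = fun j => x (id j) := by
        funext j
        rw [lc_single, one_smul]
        rfl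
      rw [h2]
      exact hrk
  obtain ⟨k, ⟨hk0, N, hN, hNk⟩, hmin⟩ : ∃ k, Q k ∧ ∀ l, l < k → ¬ Q l :=
    ⟨Nat.find ⟨n, hQn⟩, Nat.find_spec ⟨n, hQn⟩, fun l hl => Nat.find_min ⟨n, hQn⟩ hl⟩
  obtain ⟨y, hy⟩ : ∃ y : Fin k → ℂ, y = fun j => lc x (N j) := ⟨_, rfl⟩
  obtain ⟨a', ha'⟩ : ∃ a' : Fin k → ℂ, a' = fun j => ∑ i, (N j i : ℂ) * a i := ⟨_, rfl⟩
  obtain ⟨b', hb'⟩ : ∃ b' : Fin k → ℂ, b' = fun j => ∑ i, (N j i : ℂ) * b i := ⟨_, rfl⟩
  rw [← hy] at hNk
  have hG' : GP a' b' := by
    rw [ha', hb']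
    exact hG.map hN
  have hye : ∀ j, y j = a' j * z + b' j * w := by
    intro j
    rw [hy, ha', hb']
    simp only
    rw [← sum_eq_lc, Finset.sum_mul, Finset.sum_mul, ← Finset.sum_add_distrib]
    refine Finset.sum_congr rfl fun i _ => ?_
    rw [hxe i]
    ring
  have hcl : ∀ (D : Set ℂ), (∀ i, a i ∈ (MK ℚ).closure D) → ∀ j, a' j ∈ (MK ℚ).closure D := by
    intro D hD j
    rw [ha']
    have h2 : ∑ i, (N j i : ℂ) * a i ∈ clF ℚ D := sum_mem fun i _ => by
      have h3 := cl_rat (N j i) (hD i)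
      rw [Rat.smul_def] at h3
      exact h3
    exact h2
  have hcl' : ∀ (D : Set ℂ), (∀ i, b i ∈ (MK ℚ).closure D) → ∀ j, b' j ∈ (MK ℚ).closure D := by
    intro D hD j
    rw [hb']
    have h2 : ∑ i, (N j i : ℂ) * b i ∈ clF ℚ D := sum_mem fun i _ => by
      have h3 := cl_rat (N j i) (hD i)
      rw [Rat.smul_def] at h3
      exact h3
    exact h2
  have haC : ∀ j, a' j ∈ C := fun j => hC.cl (hcl C (fun i => subset_cl _ (hAC (ha i))) j)
  have hbC : ∀ j, b' j ∈ C := fun j => hC.cl (hcl' C (fun i => subset_cl _ (hAC (hb i))) j)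
  have hyC : ∀ j, y j ∉ C := by
    intro j hj
    rw [hye j] at hj
    obtain ⟨h2, h3⟩ := hlin _ _ (haC j) (hbC j) hj
    have h4 := hG'.complex (Pi.single j 1) (fun h => by
      have h5 := congrFun h j
      rw [Pi.single_eq_same] at h5
      exact one_ne_zero h5) (by
      have h5 : Submodule.span ℚ (range (Pi.single j (1 : ℂ) : Fin k → ℂ)) ≤
          Submodule.span ℚ (range ![(1 : ℂ), 1]) := by
        rw [Submodule.span_le]
        rintro _ ⟨l, rfl⟩
        by_cases hl : l = j
        · rw [hl, Pi.single_eq_same]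
          exact Submodule.subset_span ⟨0, rfl⟩
        · rw [Pi.single_eq_of_ne hl]
          exact Submodule.zero_mem _
      have : Module.Finite ℚ (Submodule.span ℚ (range ![(1 : ℂ), 1])) :=
        FiniteDimensional.span_of_finite ℚ (Set.finite_range _)
      refine (Submodule.finrank_mono h5).trans ?_
      have h6 : Module.finrank ℚ (Submodule.span ℚ (range ![(1 : ℂ), 1])) ≤ Fintype.card (Fin 2) :=
        finrank_range_le_card (R := ℚ) ![(1 : ℂ), 1]
      exact h6.trans (le_of_eq (Fintype.card_fin 2)))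
    have h5 : ∀ d : Fin k → ℂ, ∑ i, (Pi.single j (1 : ℂ) : Fin k → ℂ) i * d i = d j := by
      intro d
      rw [Finset.sum_eq_single j]
      · rw [Pi.single_eq_same, one_mul]
      · intro i _ hi
        rw [Pi.single_eq_of_ne hi, zero_mul]
      · intro h
        exact absurd (Finset.mem_univ _) h
    rw [h5, h5] at h4
    exact h4 h2 h3
  by_cases hk1 : k = 1
  · -- one unknown
    subst hk1
    have h2 : y 0 ∉ (MK L).closure ∅ := by
      intro h
      exact hyC 0 (hC.cl (by
        have := hdown _ _ h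
        rwa [Set.union_empty] at this))
    have h3 : Complex.exp (y 0) ∈ (MK L).closure {y 0} := by
      by_contra h4
      have h5 := ((MK L).empty_indep.notMem_closure_iff (Set.mem_univ _)).1 h2
      rw [insert_empty_eq] at h5
      have h6 := (h5.1.notMem_closure_iff (Set.mem_univ _)).1 h4
      have h7 : insert (Complex.exp (y 0)) {y 0} ⊆ ET y := by
        refine Set.insert_subset (mem_ET_r _ 0) ?_
        rintro _ rfl
        exact mem_ET_l _ 0
      have h8 := ((MK L).eRk_mono h7).trans hNk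
      rw [h6.1.eRk_eq_encard, Set.encard_insert_of_notMem h6.2, Set.encard_singleton] at h8
      norm_num at h8
    refine hyC 0 (hC.dom 1 y (fun i => ?_) 0)
    rw [Subsingleton.elim i 0]
    refine mem_cl.1 ((MK ℚ).closure_subset_closure ?_ (hdown _ _ h3))
    refine Set.union_subset_union_right _ ?_
    rintro _ rfl
    exact ⟨0, rfl⟩
  -- at least two unknowns
  have hk2 : 2 ≤ k := by omega
  obtain ⟨i1, i2, h12⟩ : ∃ i1 i2 : Fin k, i1 ≠ i2 :=
    ⟨⟨0, by omega⟩, ⟨1, by omega⟩, fun h => by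
      have := congrArg Fin.val h
      simp at this⟩
  have hdet := hG'.minor h12
  obtain ⟨det, hdetd⟩ : ∃ det, det = a' i1 * b' i2 - a' i2 * b' i1 := ⟨_, rfl⟩
  rw [← hdetd] at hdet
  have hzy : z = (b' i2 * y i1 + -(b' i1 * y i2)) * det⁻¹ := by
    rw [hye i1, hye i2]
    have h2 : det * det⁻¹ = 1 := mul_inv_cancel₀ hdet
    have h3 : (b' i2 * (a' i1 * z + b' i1 * w) + -(b' i1 * (a' i2 * z + b' i2 * w))) =
        z * det := by
      rw [hdetd]
      ring
    rw [h3, mul_assoc, h2, mul_one]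
  have hwy : w = (a' i1 * y i2 + -(a' i2 * y i1)) * det⁻¹ := by
    rw [hye i1, hye i2]
    have h2 : det * det⁻¹ = 1 := mul_inv_cancel₀ hdet
    have h3 : (a' i1 * (a' i2 * z + b' i2 * w) + -(a' i2 * (a' i1 * z + b' i1 * w))) =
        w * det := by
      rw [hdetd]
      ring
    rw [h3, mul_assoc, h2, mul_one]
  have hdetL : ∀ T : Set ℂ, det⁻¹ ∈ (MK L).closure T := by
    intro T
    rw [hdetd, sub_eq_add_neg]
    exact cl_inv (cl_add (cl_mul (hbase _ _ (haC _)) (hbase _ _ (hbC _)))
      (cl_neg (cl_mul (hbase _ _ (haC _)) (hbase _ _ (hbC _)))))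
  have hyy : ∀ t, ¬ (y i1 ∈ (MK L).closure {t} ∧ y i2 ∈ (MK L).closure {t}) := by
    rintro t ⟨h2, h3⟩
    apply hsub t
    constructor
    · rw [hzy]
      exact cl_mul (cl_add (cl_mul (hbase _ _ (hbC _)) h2) (cl_neg (cl_mul (hbase _ _ (hbC _)) h3)))
        (hdetL _)
    · rw [hwy]
      exact cl_mul (cl_add (cl_mul (hbase _ _ (haC _)) h3) (cl_neg (cl_mul (hbase _ _ (haC _)) h2)))
        (hdetL _)
  -- the rank of y is k
  have hyk : (k : ℕ∞) ≤ (MK L).eRk (ET y) := by
    by_contra hcon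
    rw [not_le] at hcon
    obtain ⟨l, rfl⟩ : ∃ l, k = l + 1 := ⟨k - 1, by omega⟩
    refine hmin l (Nat.lt_succ_self l) ⟨by omega, fun j => N j.castSucc, ?_, ?_⟩
    · exact hN.comp Fin.castSucc (Fin.castSucc_injective l)
    · have h2 : ET (fun j : Fin l => lc x (N j.castSucc)) ⊆ ET y := by
        rintro _ (⟨j, rfl⟩ | ⟨j, rfl⟩)
        · rw [hy]
          exact mem_ET_l (fun j => lc x (N j)) j.castSucc
        · rw [hy]
          exact mem_ET_r (fun j => lc x (N j)) j.castSucc
      refine ((MK L).eRk_mono h2).trans ?_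
      have h3 := ENat.lt_add_one_iff (m := (MK L).eRk (ET y)) (n := (l : ℕ∞))
        (ENat.natCast_ne_top l)
      rw [← h3]
      exact_mod_cast hcon
  -- the base
  obtain ⟨B0, hB0f, hB0C, hB0⟩ := small_base hL hNk
  obtain ⟨B, hBdef⟩ : ∃ B, B = B0 ∪ (range a ∪ range b) := ⟨_, rfl⟩
  have hBf : B.Finite := by
    rw [hBdef]
    exact hB0f.union ((Set.finite_range _).union (Set.finite_range _))
  have hBC : B ⊆ C := by
    rw [hBdef]
    refine Set.union_subset hB0C (Set.union_subset ?_ ?_)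
    · rintro _ ⟨i, rfl⟩
      exact hAC (ha i)
    · rintro _ ⟨i, rfl⟩
      exact hAC (hb i)
  have hBL : clF ℚ B ≤ L := fun t ht => (MK ℚ).closure_subset_closure hBC ht
  have hR : Robust A B y := by
    refine ⟨hB0 B (by rw [hBdef]; exact Set.subset_union_left), fun l hl hlk N' hN' hS => ?_,
      fun M hM σ hσA hσB H hH v hv => ?_⟩
    · -- simple
      refine hmin l hlk ⟨hl, fun j => ∑ i, N' j i • N i, li_comp hN hN', ?_⟩
      have h2 := hS.rank
      have h3 : (fun j => lc x (∑ i, N' j i • N i)) = fun j => ∑ i, (N' j i : ℂ) * y i := by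
        funext j
        rw [← lc_lc, hy]
        refine Finset.sum_congr rfl fun i _ => ?_
        rw [Rat.smul_def]
      rw [h3]
      exact (rk_mono_base hBL _).trans h2
    · -- dense
      rw [conj_iff_loc] at hv
      have hM0 : (M : ℂ) ≠ 0 := by exact_mod_cast hM.ne'
      obtain ⟨k1, hk1def⟩ : ∃ k1, k1 = clF ℚ (σ '' B) := ⟨_, rfl⟩
      have hk1a : ∀ i, a i ∈ (MK ℚ).closure (σ '' B) := fun i => by
        refine subset_cl _ ⟨a i, ?_, hσA _ (ha i)⟩
        rw [hBdef]
        exact Or.inr (Or.inl ⟨i, rfl⟩)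
      have hk1b : ∀ i, b i ∈ (MK ℚ).closure (σ '' B) := fun i => by
        refine subset_cl _ ⟨b i, ?_, hσA _ (hb i)⟩
        rw [hBdef]
        exact Or.inr (Or.inr ⟨i, rfl⟩)
      have ha1 : ∀ j, a' j ∈ clF ℚ (σ '' B) := hcl _ hk1a
      have hb1 : ∀ j, b' j ∈ clF ℚ (σ '' B) := hcl' _ hk1b
      have hσa' : ∀ j, σ (a' j) = a' j := by
        intro j
        rw [ha', map_sum]
        refine Finset.sum_congr rfl fun i _ => ?_
        rw [map_mul, hσA _ (ha i), map_ratCast]
      have hσb' : ∀ j, σ (b' j) = b' j := by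
        intro j
        rw [hb', map_sum]
        refine Finset.sum_congr rfl fun i _ => ?_
        rw [map_mul, hσA _ (hb i), map_ratCast]
      have hBM : ∀ t, t ∈ clF ℚ B → σ t ∈ clF ℚ (σ '' B) := fun t ht =>
        cl_rat_hom (θ := (σ : ℂ →+* ℂ)) (S := B) (T := σ '' B)
          (fun s hs => subset_cl _ ⟨s, hs, rfl⟩) ht
      have hBM' : ∀ t, t ∈ clF ℚ (σ '' B) → σ.symm t ∈ clF ℚ B := fun t ht => by
        refine cl_rat_hom (θ := (σ.symm : ℂ →+* ℂ)) ?_ ht
        rintro _ ⟨s, hs, rfl⟩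
        refine subset_cl _ ?_
        change σ.symm (σ s) ∈ B
        rw [RingEquiv.symm_apply_apply]
        exact hs
      -- ranks
      have hrk1 : (k : ℕ∞) ≤ (MK (clF ℚ (σ '' B))).eRk
          (range fun i => σ (ep (fun i => y i / (M : ℂ)) i)) := by
        have h2 : ET y ⊆ (MK L).closure (ET fun i => y i / (M : ℂ)) := by
          rintro _ (⟨i, rfl⟩ | ⟨i, rfl⟩)
          · have h3 : y i = (M : ℚ) • (y i / (M : ℂ)) := by
              rw [Rat.smul_def]
              push_cast
              field_simp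
            rw [h3]
            exact cl_rat _ (subset_cl _ (mem_ET_l (fun i => y i / (M : ℂ)) i))
          · have h3 : y i = (M : ℚ) • (y i / (M : ℂ)) := by
              rw [Rat.smul_def]
              push_cast
              field_simp
            change Complex.exp (y i) ∈ _
            rw [h3]
            exact cl_exp_rat _ (subset_cl _ (mem_ET_r (fun i => y i / (M : ℂ)) i))
        have h3 := hyk.trans (rk_le_of_subset_cl h2)
        have h4 := h3.trans (rk_mono_base hBL _)
        refine h4.trans ?_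
        have h5 := rk_hom (θ := (σ.symm : ℂ →+* ℂ)) (K := clF ℚ (σ '' B)) (K' := clF ℚ B)
          hBM' (range fun i => σ (ep (fun i => y i / (M : ℂ)) i))
        have h6 : (σ.symm : ℂ →+* ℂ) '' (range fun i => σ (ep (fun i => y i / (M : ℂ)) i)) =
            ET fun i => y i / (M : ℂ) := by
          rw [← Set.range_comp, ← range_ep]
          congr 1
          funext i
          exact σ.symm_apply_apply _
        rw [h6] at h5
        exact h5
      -- independence
      have hpair : ∀ j l : Fin k, σ (y j / (M : ℂ)) ∈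
          (MK (clF ℚ (σ '' B))).closure {σ (y l / (M : ℂ))} → y j ∈ (MK L).closure {y l} := by
        intro j l h
        have h2 := cl_hom (θ := (σ.symm : ℂ →+* ℂ)) (K := clF ℚ (σ '' B)) (K' := L)
          (fun t ht => hBL (hBM' t ht)) h
        rw [Set.image_singleton] at h2
        have h3 : ∀ t, (σ.symm : ℂ →+* ℂ) (σ t) = t := fun t => σ.symm_apply_apply t
        rw [h3, h3] at h2
        have h4 : y j = (M : ℚ) • (y j / (M : ℂ)) := by
          rw [Rat.smul_def]
          push_cast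
          field_simp
        rw [h4]
        refine cl_rat _ (cl_sub_of ?_ h2)
        rintro _ rfl
        have h5 : y l / (M : ℂ) = (M : ℚ)⁻¹ • y l := by
          rw [Rat.smul_def]
          push_cast
          field_simp
        rw [h5]
        exact cl_rat _ (subset_cl _ rfl)
      have hind : AlgebraicIndependent (clF ℚ (σ '' B))
          ![σ (ep (fun i => y i / (M : ℂ)) (Sum.inl i1)),
            σ (ep (fun i => y i / (M : ℂ)) (Sum.inl i2))] := by
        apply indep_pair2
        · intro h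
          exact hyy _ ⟨hpair _ _ h, subset_cl _ rfl⟩
        · intro h
          exact hyy _ ⟨subset_cl _ rfl, hpair _ _ h⟩
      refine loc_dense (clF_alg' _) (cl_rat_countable (hBf.countable.image _))
        (P := fun i => σ (ep (fun i => y i / (M : ℂ)) i)) (fun j h => ?_) hrk1
        (hG'.gen h12) (i1 := i1) (i2 := i2)
        (α := fun i => (a' i * b' i2 - a' i2 * b' i) * (a' i1 * b' i2 - a' i2 * b' i1)⁻¹)
        (β := fun i => (a' i1 * b' i - a' i * b' i1) * (a' i1 * b' i2 - a' i2 * b' i1)⁻¹)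
        (fun i => ?_) (fun i => ?_) (fun t => hG'.eqs h12 t) ?_ hind (fun t ht => ?_) v hv
      · exact Complex.exp_ne_zero _ ((map_eq_zero σ).1 h)
      · exact mul_mem (sub_mem (mul_mem (ha1 _) (hb1 _)) (mul_mem (ha1 _) (hb1 _)))
          (inv_mem (sub_mem (mul_mem (ha1 _) (hb1 _)) (mul_mem (ha1 _) (hb1 _))))
      · exact mul_mem (sub_mem (mul_mem (ha1 _) (hb1 _)) (mul_mem (ha1 _) (hb1 _)))
          (inv_mem (sub_mem (mul_mem (ha1 _) (hb1 _)) (mul_mem (ha1 _) (hb1 _))))
      · rw [mem_PL]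
        refine ⟨σ (z / M), σ (w / M), fun i => ?_⟩
        change σ (y i / (M : ℂ)) = _
        rw [← hσa' i, ← hσb' i, ← map_mul, ← map_mul, ← map_add, hye i]
        congr 1
        field_simp
      · refine hH t ?_
        rw [conj_iff_loc]
        exact ht
  exact hyC i1 (hC.rob B k y hBf hBC hR i1)

end Pool.Agent.V9h68
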