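import Pool.Agent.V9h68.Pl3

/-!
Linear algebra over subfields.
-/

set_option autoImplicit false

open MvPolynomial Set Filter

noncomputable section

namespace Pool.Agent.V9h68

open Pool.Agent.Results.MP_209724_lc.LinearSpacesAtInfinity (GeneralPosition)

/-- rational vectors which are independent over the rational numbers are independent over the
complex numbers -/
theorem li_complex {n : ℕ} {κ : Type} [Fintype κ] {N : κ → Fin n → ℚ}
    (hN : LinearIndependent ℚ N) {α : κ → ℂ}
    (h : ∀ i, ∑ j, α j * (N j i : ℂ) = 0) : α = 0 := by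
  classical
  obtain ⟨R, hR⟩ : ∃ R : Fin n → κ → ℚ, ∀ j l, ∑ i, N j i * R i l = if j = l then 1 else 0 := by
    let f : (κ → ℚ) →ₗ[ℚ] (Fin n → ℚ) := Fintype.linearCombination ℚ N
    have hf : LinearMap.ker f = ⊥ := by
      rw [LinearMap.ker_eq_bot']
      intro v hv
      have h1 := Fintype.linearIndependent_iff.1 hN v (by
        rw [← hv]
        rfl)
      exact funext h1
    obtain ⟨g, hg⟩ := f.exists_leftInverse_of_injective hf
    refine ⟨fun i l => g (Pi.single i 1) l, fun j l => ?_⟩
    have h1 : g (N j) = Pi.single j 1 := by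
      have h2 : f (Pi.single j 1) = N j := by
        change Fintype.linearCombination ℚ N (Pi.single j 1) = N j
        rw [Fintype.linearCombination_apply_single, one_smul]
      rw [← h2]
      exact LinearMap.congr_fun hg _
    have h3 : N j = ∑ i, N j i • (Pi.single i (1 : ℚ) : Fin n → ℚ) := by
      funext l
      rw [Finset.sum_apply, Finset.sum_eq_single l]
      · simp
      · intro i _ hi
        rw [Pi.smul_apply, Pi.single_eq_of_ne hi.symm, smul_zero]
      · intro hl
        exact absurd (Finset.mem_univ _) hl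
    have h4 : g (N j) l = ∑ i, N j i * g (Pi.single i 1) l := by
      conv_lhs => rw [h3]
      rw [map_sum, Finset.sum_apply]
      refine Finset.sum_congr rfl fun i _ => ?_
      rw [map_smul, Pi.smul_apply, smul_eq_mul]
    rw [← h4, h1]
    by_cases hjl : j = l
    · rw [hjl, Pi.single_eq_same, if_pos rfl]
    · rw [Pi.single_eq_of_ne (Ne.symm hjl), if_neg hjl]
  funext l
  have h8 : α l = ∑ i, (∑ j, α j * (N j i : ℂ)) * (R i l : ℂ) := by
    have h9 : ∑ i, (∑ j, α j * (N j i : ℂ)) * (R i l : ℂ) =
        ∑ j, α j * ((∑ i, N j i * R i l : ℚ) : ℂ) := by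
      push_cast
      simp only [Finset.mul_sum, Finset.sum_mul]
      rw [Finset.sum_comm]
      refine Finset.sum_congr rfl fun j _ => Finset.sum_congr rfl fun i _ => ?_
      ring
    rw [h9]
    simp only [hR]
    rw [Finset.sum_eq_single l]
    · rw [if_pos rfl, Rat.cast_one, mul_one]
    · intro j _ hj
      rw [if_neg hj, Rat.cast_zero, mul_zero]
    · intro hl
      exact absurd (Finset.mem_univ _) hl
  rw [h8]
  refine Finset.sum_eq_zero fun i _ => ?_
  rw [h i, zero_mul]

/-- **coordinates on the image of an injective matrix over a subfield** -/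
theorem kform {k : Subfield ℂ} {s d : ℕ} {a : Fin s → Fin d → ℂ} (ha : ∀ j m, a j m ∈ k)
    (hinj : ∀ q : Fin d → ℂ, (∀ j, ∑ m, a j m * q m = 0) → q = 0) :
    ∃ (κ : Fin d → Fin s) (C : Fin s → Fin d → ℂ) (D : Fin d → Fin d → ℂ),
      (∀ j m, C j m ∈ k) ∧ (∀ m m', D m m' ∈ k) ∧
      (∀ v : Fin s → ℂ, (∃ q : Fin d → ℂ, ∀ j, v j = ∑ m, a j m * q m) ↔
        ∀ j, v j = ∑ m, C j m * v (κ m)) ∧
      ∀ (q : Fin d → ℂ) (m : Fin d), q m = ∑ m', D m m' * ∑ l, a (κ m') l * q l := by
  classical
  let A : Fin s → Fin d → k := fun j m => ⟨a j m, ha j m⟩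
  -- the rows span
  have hspan : Submodule.span k (range A) = ⊤ := by
    by_contra hne
    obtain ⟨f, hf0, hf⟩ := Submodule.exists_le_ker_of_lt_top _ (lt_top_iff_ne_top.2 hne)
    apply hf0
    have h1 : ∀ v : Fin d → k, f v = ∑ m, v m * f (Pi.single m 1) := by
      intro v
      have h2 : v = ∑ m, v m • (Pi.single m (1 : k) : Fin d → k) := by
        funext l
        rw [Finset.sum_apply, Finset.sum_eq_single l]
        · simp
        · intro i _ hi
          rw [Pi.smul_apply, Pi.single_eq_of_ne hi.symm, smul_zero]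
        · intro hl
          exact absurd (Finset.mem_univ _) hl
      conv_lhs => rw [h2]
      rw [map_sum]
      refine Finset.sum_congr rfl fun m _ => ?_
      rw [map_smul, smul_eq_mul]
    have h2 : (fun m => ((f (Pi.single m 1) : k) : ℂ)) = 0 := by
      apply hinj
      intro j
      have h3 : f (A j) = 0 := hf (Submodule.subset_span ⟨j, rfl⟩)
      rw [h1] at h3
      have h4 := congrArg (fun z : k => (z : ℂ)) h3
      simpa using h4
    refine LinearMap.ext fun v => ?_
    have h3 : f v = 0 := by
      rw [h1]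
      refine Finset.sum_eq_zero fun m _ => ?_
      have h4 : f (Pi.single m 1) = 0 := Subtype.ext (congrFun h2 m)
      rw [h4, mul_zero]
    rw [h3]
    rfl
  obtain ⟨b, hb1, hb2, hb3⟩ := exists_linearIndependent k (range A)
  rw [hspan] at hb2
  let Bs : Module.Basis b k (Fin d → k) := Module.Basis.mk hb3 (by
    rw [Subtype.range_coe_subtype]
    exact le_of_eq hb2.symm)
  have : Fintype b := FiniteDimensional.fintypeBasisIndex Bs
  have hcard : Fintype.card b = d := by
    rw [← Module.finrank_eq_card_basis Bs]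
    simp
  let e : Fin d ≃ b := (Fintype.equivFinOfCardEq hcard).symm
  choose κ hκ using fun m : Fin d => hb1 (e m).2
  let B := Bs.reindex e.symm
  have hB : ∀ m, B m = A (κ m) := by
    intro m
    rw [hκ]
    simp [B, Bs]
  have hBa : ∀ m l, ((B m l : k) : ℂ) = a (κ m) l := by
    intro m l
    rw [hB]
  have hrepr : ∀ (v : Fin d → k) (l : Fin d), (v l : ℂ) = ∑ m, (B.repr v m : ℂ) * a (κ m) l := by
    intro v l
    have h1 := congrFun (B.sum_repr v) l
    rw [Finset.sum_apply] at h1
    have h2 := congrArg (fun z : k => (z : ℂ)) h1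
    simp only [Pi.smul_apply, smul_eq_mul, AddSubmonoidClass.coe_finsetSum, MulMemClass.coe_mul,
      hBa] at h2
    exact h2.symm
  refine ⟨κ, fun j m => B.repr (A j) m, fun m m' => B.repr (Pi.single m 1) m',
    fun j m => (B.repr (A j) m).2, fun m m' => (B.repr (Pi.single m 1) m').2, fun v => ⟨?_, ?_⟩,
    fun q m => ?_⟩
  · rintro ⟨q, hq⟩ j
    rw [hq j]
    have h1 : ∀ m, a j m = ∑ m', (B.repr (A j) m' : ℂ) * a (κ m') m := fun m => hrepr (A j) m
    simp only [hq]
    simp only [Finset.mul_sum]
    rw [Finset.sum_comm]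
    refine Finset.sum_congr rfl fun m _ => ?_
    rw [h1 m, Finset.sum_mul]
    refine Finset.sum_congr rfl fun m' _ => ?_
    ring
  · intro hv
    refine ⟨fun m => ∑ m', (B.repr (Pi.single m 1) m' : ℂ) * v (κ m'), fun j => ?_⟩
    rw [hv j]
    have h1 : ∀ m', (B.repr (A j) m' : ℂ) = ∑ m, a j m * (B.repr (Pi.single m 1) m' : ℂ) := by
      intro m'
      have h2 : A j = ∑ m, A j m • (Pi.single m (1 : k) : Fin d → k) := by
        funext l
        rw [Finset.sum_apply, Finset.sum_eq_single l]
        · simp
        · intro i _ hi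
          rw [Pi.smul_apply, Pi.single_eq_of_ne hi.symm, smul_zero]
        · intro hl
          exact absurd (Finset.mem_univ _) hl
      have h3 : B.repr (A j) m' = ∑ m, A j m * B.repr (Pi.single m 1) m' := by
        conv_lhs => rw [h2]
        rw [map_sum, Finsupp.finsetSum_apply]
        refine Finset.sum_congr rfl fun m _ => ?_
        rw [map_smul, Finsupp.smul_apply, smul_eq_mul]
      rw [h3]
      simp [A]
    simp only [Finset.mul_sum]
    rw [Finset.sum_comm]
    refine Finset.sum_congr rfl fun m' _ => ?_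
    rw [h1 m', Finset.sum_mul]
    refine Finset.sum_congr rfl fun m _ => ?_
    ring
  · have h1 : ∀ l, ((Pi.single m (1 : k) : Fin d → k) l : ℂ) =
        ∑ m', (B.repr (Pi.single m 1) m' : ℂ) * a (κ m') l := fun l => hrepr _ l
    have h2 : q m = ∑ l, ((Pi.single m (1 : k) : Fin d → k) l : ℂ) * q l := by
      rw [Finset.sum_eq_single m]
      · rw [Pi.single_eq_same]
        simp
      · intro l _ hl
        rw [Pi.single_eq_of_ne hl]
        simp
      · intro hl
        exact absurd (Finset.mem_univ _) hl
    rw [h2]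
    simp only [h1, Finset.sum_mul, Finset.mul_sum]
    rw [Finset.sum_comm]
    refine Finset.sum_congr rfl fun m' _ => Finset.sum_congr rfl fun l _ => ?_
    ring

end Pool.Agent.V9h68
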