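import Pool.Agent.V9h68.Pl6

/-!
Linear forms in several variables in hereditary general position: linear algebra.
-/

set_option autoImplicit false

open MvPolynomial Set Filter

noncomputable section

namespace Pool.Agent.V9h68

open Pool.Agent.Y776 Pool.Agent.Y685
open Pool.Agent.TH813.Rel (MK mem_cl subset_cl rk_le_of_subset_cl cl_add cl_mul cl_inv cl_of_base)

/-- the rational relations of a tuple modulo a subspace -/
theorem rel_data {n : ℕ} (x : Fin n → ℂ) (U : Submodule ℚ ℂ) :
    ∃ (s k : ℕ) (ι : Fin s → Fin n) (N : Fin k → Fin n → ℚ), k + s = n ∧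
      (∀ q : Fin s → ℚ, lc (fun j => x (ι j)) q ∈ U → q = 0) ∧
      (∀ i, ∃ q : Fin s → ℚ, x i - lc (fun j => x (ι j)) q ∈ U) ∧
      (∀ r, lc x (N r) ∈ U) ∧
      LinearIndependent ℚ (Sum.elim N fun j => (Pi.single (ι j) 1 : Fin n → ℚ)) ∧
      ∀ v : Fin n → ℚ, ∃ (α : Fin k → ℚ) (β : Fin s → ℚ), v =
        ∑ r, α r • N r + ∑ j, β j • (Pi.single (ι j) 1 : Fin n → ℚ) := by
  classical
  obtain ⟨s, ι, h1, h2⟩ := exists_basis_mod U x
  -- the relations
  let R : Submodule ℚ (Fin n → ℚ) :=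
    { carrier := {q | lc x q ∈ U}
      add_mem' := fun {a b} ha hb => by
        change lc x (a + b) ∈ U
        rw [lc_add]
        exact U.add_mem ha hb
      zero_mem' := by
        change lc x 0 ∈ U
        rw [lc_zero]
        exact U.zero_mem
      smul_mem' := fun t a ha => by
        change lc x (t • a) ∈ U
        rw [lc_smul]
        exact U.smul_mem t ha }
  have hR' : ∀ q, q ∈ R ↔ lc x q ∈ U := fun q => Iff.rfl
  set k := Module.finrank ℚ R with hk
  let N := Module.finBasis ℚ R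
  have hNli : LinearIndependent ℚ fun j => (N j : Fin n → ℚ) :=
    N.linearIndependent.map' R.subtype (Submodule.ker_subtype R)
  have hN0 := Fintype.linearIndependent_iff.1 hNli
  have hli : ∀ q : Fin k ⊕ Fin s → ℚ, ∑ j, q j • (Sum.elim (fun j => (N j : Fin n → ℚ))
      fun j => (Pi.single (ι j) 1 : Fin n → ℚ)) j = 0 → q = 0 := by
    intro q hq
    rw [Fintype.sum_sum_type] at hq
    simp only [Sum.elim_inl, Sum.elim_inr] at hq
    have h4 : ∑ j, q (Sum.inl j) • (N j : Fin n → ℚ) ∈ R :=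
      R.sum_mem fun j _ => R.smul_mem _ (N j).2
    have h5 : lc x (∑ j, q (Sum.inr j) • (Pi.single (ι j) 1 : Fin n → ℚ)) ∈ U := by
      rw [← hR', eq_neg_of_add_eq_zero_right hq]
      exact R.neg_mem h4
    rw [← lc_lc] at h5
    simp only [lc_single, one_smul] at h5
    have h6 := h1 _ h5
    have h7 : ∀ j, q (Sum.inr j) = 0 := fun j => congrFun h6 j
    simp only [h7, zero_smul, Finset.sum_const_zero, add_zero] at hq
    have h8 := hN0 _ hq
    funext j
    rcases j with j | j
    · exact h8 j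
    · exact h7 j
  have hsp : ∀ v : Fin n → ℚ, ∃ (α : Fin k → ℚ) (β : Fin s → ℚ), v =
        ∑ r, α r • (N r : Fin n → ℚ) + ∑ j, β j • (Pi.single (ι j) 1 : Fin n → ℚ) := by
    intro v
    choose q hq using h2
    let r : Fin s → ℚ := fun j => ∑ i, v i * q i j
    have h4 : v - ∑ j, r j • (Pi.single (ι j) 1 : Fin n → ℚ) ∈ R := by
      rw [hR', lc_sub, ← lc_lc]
      simp only [lc_single, one_smul]
      have h5 : lc x v - ∑ j, r j • x (ι j) = ∑ i, v i • (x i - ∑ j, q i j • x (ι j)) := by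
        simp only [smul_sub, Finset.sum_sub_distrib, Finset.smul_sum, r, Finset.sum_smul,
          mul_smul]
        rw [Finset.sum_comm]
        rfl
      rw [h5]
      exact U.sum_mem fun i _ => U.smul_mem _ (hq i)
    have h5 := N.sum_repr ⟨_, h4⟩
    have h6 := congrArg Subtype.val h5
    rw [AddSubmonoidClass.coe_finsetSum] at h6
    refine ⟨fun j => N.repr ⟨_, h4⟩ j, r, ?_⟩
    have h7 : ∑ j, N.repr ⟨_, h4⟩ j • (N j : Fin n → ℚ) =
        v - ∑ j, r j • (Pi.single (ι j) 1 : Fin n → ℚ) := h6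
    rw [h7, sub_add_cancel]
  have hcard : k + s = n := by
    have h3 := card_of_basis (ι := Fin k ⊕ Fin s)
      (b := Sum.elim (fun j => (N j : Fin n → ℚ)) fun j => Pi.single (ι j) 1) hli
      (fun v => by
        obtain ⟨α, β, h⟩ := hsp v
        refine ⟨Sum.elim α β, ?_⟩
        rw [Fintype.sum_sum_type]
        simp only [Sum.elim_inl, Sum.elim_inr]
        exact h)
    simpa using h3
  exact ⟨s, k, ι, fun j => N j, hcard, h1, h2, fun r => (hR' _).1 (N r).2,
    Fintype.linearIndependent_iff.2 fun q hq j => congrFun (hli q hq) j, hsp⟩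

/-- the linear forms `c_i` are in hereditary general position -/
structure HG {n d : ℕ} (c : Fin n → Fin d → ℂ) : Prop where
  complex : ∀ u : Fin n → ℂ, u ≠ 0 → Module.finrank ℚ (Submodule.span ℚ (range u)) ≤ d →
    ∃ l, ∑ i, u i * c i l ≠ 0
  real : ∀ r : ℕ, r + 2 ≤ d → ∀ (u : Fin n → ℝ) (R : Fin r → Fin n → ℚ) (μ : Fin r → ℂ),
    Module.finrank ℚ (Submodule.span ℚ (range u)) + 2 * r ≤ 2 * d →
    (fun i => (u i : ℂ) + ∑ j, μ j * (R j i : ℂ)) ≠ 0 →
    ∃ l, ∑ i, ((u i : ℂ) + ∑ j, μ j * (R j i : ℂ)) * c i l ≠ 0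

theorem finrank_le_of_mem {ι : Type} {k : ℕ} {u : ι → ℂ} {μ : Fin k → ℂ}
    (h : ∀ i, u i ∈ Submodule.span ℚ (range μ)) :
    Module.finrank ℚ (Submodule.span ℚ (range u)) ≤ k := by
  have h3 : Submodule.span ℚ (range u) ≤ Submodule.span ℚ (range μ) := by
    rw [Submodule.span_le]
    rintro _ ⟨i, rfl⟩
    exact h i
  have : Module.Finite ℚ (Submodule.span ℚ (range μ)) :=
    FiniteDimensional.span_of_finite ℚ (Set.finite_range _)
  refine (Submodule.finrank_mono h3).trans ?_
  exact (finrank_range_le_card (R := ℚ) μ).trans (le_of_eq (Fintype.card_fin k))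

theorem mem_span_mul {k : ℕ} (μ : Fin k → ℂ) (a : Fin k → ℚ) :
    ∑ j, μ j * (a j : ℂ) ∈ Submodule.span ℚ (range μ) := by
  refine Submodule.sum_mem _ fun j _ => ?_
  have h1 : μ j * (a j : ℂ) = a j • μ j := by rw [Rat.smul_def, mul_comm]
  rw [h1]
  exact Submodule.smul_mem _ _ (Submodule.subset_span ⟨j, rfl⟩)

/-- at most `d` rational combinations of the forms are linearly independent -/
theorem HG.rows {n d : ℕ} {c : Fin n → Fin d → ℂ} (hc : HG c) {k : ℕ} (hk : k ≤ d)
    {N : Fin k → Fin n → ℚ} (hN : LinearIndependent ℚ N) {μ : Fin k → ℂ}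
    (h : ∀ l, ∑ r, μ r * ∑ i, (N r i : ℂ) * c i l = 0) : μ = 0 := by
  classical
  by_contra hμ
  obtain ⟨l, hl⟩ := hc.complex (fun i => ∑ r, μ r * (N r i : ℂ)) (fun h0 => hμ
    (li_complex hN fun i => congrFun h0 i))
    ((finrank_le_of_mem fun i => mem_span_mul μ fun r => N r i).trans hk)
  apply hl
  rw [← h l]
  simp only [Finset.mul_sum, Finset.sum_mul]
  rw [Finset.sum_comm]
  refine Finset.sum_congr rfl fun r _ => Finset.sum_congr rfl fun i _ => ?_
  ring

/-- linearly independent rows of a square matrix -/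
theorem square_inj {d : ℕ} {a : Fin d → Fin d → ℂ}
    (h : ∀ μ : Fin d → ℂ, (∀ l, ∑ r, μ r * a r l = 0) → μ = 0) {q : Fin d → ℂ}
    (hq : ∀ r, ∑ l, a r l * q l = 0) : q = 0 := by
  classical
  have h1 : (Matrix.of a).det ≠ 0 := by
    intro h0
    obtain ⟨v, hv, hv0⟩ := Matrix.exists_vecMul_eq_zero_iff.2 h0
    apply hv
    refine h v fun l => ?_
    have h2 := congrFun hv0 l
    simpa [Matrix.vecMul, dotProduct] using h2
  by_contra hq0
  apply h1
  refine Matrix.exists_mulVec_eq_zero_iff.1 ⟨q, hq0, ?_⟩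
  funext r
  have h2 := hq r
  simpa [Matrix.mulVec, dotProduct] using h2

/-- the forms span -/
theorem HG.inj {n d : ℕ} {c : Fin n → Fin d → ℂ} (hc : HG c) (hdn : d ≤ n) {q : Fin d → ℂ}
    (hq : ∀ i, ∑ l, c i l * q l = 0) : q = 0 := by
  classical
  refine square_inj (a := fun r l => c (Fin.castLE hdn r) l) (fun μ hμ => ?_) fun r =>
    hq (Fin.castLE hdn r)
  refine hc.rows le_rfl (N := fun r => Pi.single (Fin.castLE hdn r) 1) ?_ fun l => ?_
  · rw [Fintype.linearIndependent_iff]
    intro g hg r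
    have h1 := congrFun hg (Fin.castLE hdn r)
    rw [Finset.sum_apply, Finset.sum_eq_single r] at h1
    · simpa using h1
    · intro b _ hb
      rw [Pi.smul_apply, Pi.single_eq_of_ne, smul_zero]
      intro h2
      exact hb (Fin.castLE_injective hdn h2.symm)
    · intro h2
      exact absurd (Finset.mem_univ _) h2
  · rw [← hμ l]
    refine Finset.sum_congr rfl fun r _ => ?_
    congr 1
    rw [Finset.sum_eq_single (Fin.castLE hdn r)]
    · simp
    · intro i _ hi
      rw [Pi.single_eq_of_ne hi]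
      simp
    · intro h2
      exact absurd (Finset.mem_univ _) h2

end Pool.Agent.V9h68
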