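import Pool.Agent.V9h68.Pl7

/-!
Coordinates over subfields on affine spaces.
-/

set_option autoImplicit false

open MvPolynomial Set Filter

noncomputable section

namespace Pool.Agent.V9h68

open Pool.Agent.Y776 Pool.Agent.Y685
open Pool.Agent.TH813.Rel (MK mem_cl subset_cl rk_le_of_subset_cl cl_add cl_mul cl_inv cl_of_base)

theorem pi_sum_single {k : Type} [Field k] {d : ℕ} (v : Fin d → k) :
    v = ∑ m, v m • (Pi.single m (1 : k) : Fin d → k) := by
  classical
  funext l
  rw [Finset.sum_apply, Finset.sum_eq_single l]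
  · simp
  · intro i _ hi
    rw [Pi.smul_apply, Pi.single_eq_of_ne hi.symm, smul_zero]
  · intro hl
    exact absurd (Finset.mem_univ _) hl

/-- coordinates over a subfield relative to given linear forms -/
theorem kform2 {K : Subfield ℂ} {k s d : ℕ} {b : Fin k → Fin d → ℂ} {a : Fin s → Fin d → ℂ}
    (hb : ∀ r l, b r l ∈ K) (ha : ∀ j l, a j l ∈ K)
    (hli : ∀ μ : Fin k → ℂ, (∀ l, ∑ r, μ r * b r l = 0) → μ = 0)
    (hinj : ∀ q : Fin d → ℂ, (∀ r, ∑ l, b r l * q l = 0) → (∀ j, ∑ l, a j l * q l = 0) → q = 0) :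
    ∃ (e : ℕ) (κ : Fin e → Fin s) (C : Fin s → Fin e → ℂ) (B : Fin s → Fin k → ℂ)
      (D : Fin d → Fin k → ℂ) (D' : Fin d → Fin e → ℂ), k + e = d ∧
      (∀ j m, C j m ∈ K) ∧ (∀ j r, B j r ∈ K) ∧ (∀ l r, D l r ∈ K) ∧ (∀ l m, D' l m ∈ K) ∧
      (∀ j l, a j l = ∑ r, B j r * b r l + ∑ m, C j m * a (κ m) l) ∧
      (∀ (q : Fin d → ℂ) (l : Fin d), q l = ∑ r, D l r * ∑ l', b r l' * q l' +
        ∑ m, D' l m * ∑ l', a (κ m) l' * q l') ∧
      ∀ t : Fin e → ℂ, ∃ q : Fin d → ℂ, (∀ r, ∑ l, b r l * q l = 0) ∧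
        ∀ m, ∑ l, a (κ m) l * q l = t m := by
  classical
  let b' : Fin k → Fin d → K := fun j m => ⟨b j m, hb j m⟩
  let a' : Fin s → Fin d → K := fun j m => ⟨a j m, ha j m⟩
  have hb'0 : ∀ g : Fin k → K, ∑ r, g r • b' r = 0 → ∀ r, g r = 0 := by
    intro g hg r
    have h1 := hli (fun r => (g r : ℂ)) fun l => by
      have h2 := congrArg (fun z : K => (z : ℂ)) (congrFun hg l)
      rw [Finset.sum_apply] at h2
      simpa [b'] using h2
    exact Subtype.ext (congrFun h1 r)
  obtain ⟨e, κ, h1, h2⟩ := exists_basis_mod' (Submodule.span K (range b')) a'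
  choose C hC using h2
  have hBex : ∀ j, ∃ B : Fin k → K, ∑ r, B r • b' r = a' j - ∑ m, C j m • a' (κ m) := fun j =>
    (Submodule.mem_span_range_iff_exists_fun K).1 (hC j)
  choose B hB using hBex
  let f : Fin k ⊕ Fin e → Fin d → K := Sum.elim b' fun m => a' (κ m)
  have hfli : LinearIndependent K f := by
    rw [Fintype.linearIndependent_iff]
    intro g hg
    rw [Fintype.sum_sum_type] at hg
    have hg' : ∑ r, g (Sum.inl r) • b' r + ∑ m, g (Sum.inr m) • a' (κ m) = 0 := hg
    have h3 : ∑ m, g (Sum.inr m) • a' (κ m) ∈ Submodule.span K (range b') := by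
      rw [eq_neg_of_add_eq_zero_right hg']
      refine Submodule.neg_mem _ (Submodule.sum_mem _ fun r _ => Submodule.smul_mem _ _ ?_)
      exact Submodule.subset_span ⟨r, rfl⟩
    have h4 := h1 _ h3
    have h5 : ∀ m, g (Sum.inr m) = 0 := fun m => congrFun h4 m
    simp only [h5, zero_smul, Finset.sum_const_zero, add_zero] at hg'
    have h6 := hb'0 _ hg'
    rintro (r | m)
    · exact h6 r
    · exact h5 m
  have hspan : ⊤ ≤ Submodule.span K (range f) := by
    by_contra hne
    have hne' : Submodule.span K (range f) ≠ ⊤ := fun h => hne (le_of_eq h.symm)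
    obtain ⟨φ, hφ0, hφ⟩ := Submodule.exists_le_ker_of_lt_top _ (lt_top_iff_ne_top.2 hne')
    apply hφ0
    have h3 : ∀ v : Fin d → K, φ v = ∑ m, v m * φ (Pi.single m 1) := by
      intro v
      conv_lhs => rw [pi_sum_single v]
      rw [map_sum]
      refine Finset.sum_congr rfl fun m _ => ?_
      rw [map_smul, smul_eq_mul]
    have hφb : ∀ r, φ (b' r) = 0 := fun r => hφ (Submodule.subset_span ⟨Sum.inl r, rfl⟩)
    have hφa : ∀ j, φ (a' j) = 0 := by
      intro j
      have h4 : a' j = ∑ r, B j r • b' r + ∑ m, C j m • a' (κ m) := by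
        rw [hB j]
        abel
      have h5 : ∀ m, φ (a' (κ m)) = 0 := fun m => hφ (Submodule.subset_span ⟨Sum.inr m, rfl⟩)
      rw [h4, map_add, map_sum, map_sum]
      simp only [map_smul, hφb, h5, smul_zero, Finset.sum_const_zero, add_zero]
    have h4 : (fun m => ((φ (Pi.single m 1) : K) : ℂ)) = 0 := by
      apply hinj
      · intro r
        have h5 := hφb r
        rw [h3] at h5
        have h6 := congrArg (fun z : K => (z : ℂ)) h5
        simpa [b'] using h6
      · intro j
        have h5 := hφa j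
        rw [h3] at h5
        have h6 := congrArg (fun z : K => (z : ℂ)) h5
        simpa [a'] using h6
    refine LinearMap.ext fun v => ?_
    have h5 : φ v = 0 := by
      rw [h3]
      refine Finset.sum_eq_zero fun m _ => ?_
      have h6 : φ (Pi.single m 1) = 0 := Subtype.ext (congrFun h4 m)
      rw [h6, mul_zero]
    rw [h5]
    rfl
  let Bs : Module.Basis (Fin k ⊕ Fin e) K (Fin d → K) := Module.Basis.mk hfli hspan
  have hBsl : ∀ r, Bs (Sum.inl r) = b' r := fun r => by
    change Module.Basis.mk hfli hspan (Sum.inl r) = b' r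
    rw [Module.Basis.mk_apply]
    rfl
  have hBsr : ∀ m, Bs (Sum.inr m) = a' (κ m) := fun m => by
    change Module.Basis.mk hfli hspan (Sum.inr m) = a' (κ m)
    rw [Module.Basis.mk_apply]
    rfl
  have hcard : k + e = d := by
    have h3 := Module.finrank_eq_card_basis Bs
    simpa using h3.symm
  have hrep : ∀ (v : Fin d → K) i, Bs.repr v i = ∑ l, v l * Bs.repr (Pi.single l 1) i := by
    intro v i
    conv_lhs => rw [pi_sum_single v]
    rw [map_sum, Finsupp.finsetSum_apply]
    refine Finset.sum_congr rfl fun m _ => ?_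
    rw [map_smul, Finsupp.smul_apply, smul_eq_mul]
  refine ⟨e, κ, fun j m => C j m, fun j r => B j r, fun l r => Bs.repr (Pi.single l 1) (Sum.inl r),
    fun l m => Bs.repr (Pi.single l 1) (Sum.inr m), hcard, fun j m => (C j m).2,
    fun j r => (B j r).2, fun l r => (Bs.repr (Pi.single l 1) (Sum.inl r)).2,
    fun l m => (Bs.repr (Pi.single l 1) (Sum.inr m)).2, fun j l => ?_, fun q l => ?_, fun t => ?_⟩
  · have h4 : a' j = ∑ r, B j r • b' r + ∑ m, C j m • a' (κ m) := by
      rw [hB j]
      abel
    have h5 := congrArg (fun z : K => (z : ℂ)) (congrFun h4 l)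
    rw [Pi.add_apply, Finset.sum_apply, Finset.sum_apply] at h5
    simpa [a', b'] using h5
  · have h4 := Bs.sum_repr (Pi.single l 1)
    rw [Fintype.sum_sum_type] at h4
    simp only [hBsl, hBsr] at h4
    have h5 : ∀ l', ((Pi.single l (1 : K) : Fin d → K) l' : ℂ) =
        ∑ r, (Bs.repr (Pi.single l 1) (Sum.inl r) : ℂ) * b r l' +
        ∑ m, (Bs.repr (Pi.single l 1) (Sum.inr m) : ℂ) * a (κ m) l' := by
      intro l'
      have h6 := congrArg (fun z : K => (z : ℂ)) (congrFun h4 l')
      rw [Pi.add_apply, Finset.sum_apply, Finset.sum_apply] at h6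
      rw [← h6]
      simp [a', b']
    have h6 : q l = ∑ l', ((Pi.single l (1 : K) : Fin d → K) l' : ℂ) * q l' := by
      rw [Finset.sum_eq_single l]
      · simp
      · intro i _ hi
        rw [Pi.single_eq_of_ne hi]
        simp
      · intro hl
        exact absurd (Finset.mem_univ _) hl
    rw [h6]
    simp only [h5, add_mul, Finset.sum_add_distrib, Finset.sum_mul, Finset.mul_sum]
    congr 1
    · rw [Finset.sum_comm]
      refine Finset.sum_congr rfl fun r _ => Finset.sum_congr rfl fun l' _ => ?_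
      ring
    · rw [Finset.sum_comm]
      refine Finset.sum_congr rfl fun r _ => Finset.sum_congr rfl fun l' _ => ?_
      ring
  · refine ⟨fun l => ∑ m, (Bs.repr (Pi.single l 1) (Sum.inr m) : ℂ) * t m, fun r => ?_,
      fun m => ?_⟩
    · have h4 : ∀ m, ∑ l, b r l * (Bs.repr (Pi.single l 1) (Sum.inr m) : ℂ) = 0 := by
        intro m
        have h5 := hrep (b' r) (Sum.inr m)
        rw [← hBsl, Module.Basis.repr_self, Finsupp.single_apply, if_neg (by simp)] at h5
        have h6 := congrArg (fun z : K => (z : ℂ)) h5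
        simp only [hBsl] at h6
        simpa [b'] using h6.symm
      simp only [Finset.mul_sum]
      rw [Finset.sum_comm]
      refine Finset.sum_eq_zero fun m _ => ?_
      have h5 : ∑ l, b r l * ((Bs.repr (Pi.single l 1) (Sum.inr m) : ℂ) * t m) =
          (∑ l, b r l * (Bs.repr (Pi.single l 1) (Sum.inr m) : ℂ)) * t m := by
        rw [Finset.sum_mul]
        refine Finset.sum_congr rfl fun l _ => ?_
        ring
      rw [h5, h4, zero_mul]
    · have h4 : ∀ m', ∑ l, a (κ m) l * (Bs.repr (Pi.single l 1) (Sum.inr m') : ℂ) =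
          if m = m' then 1 else 0 := by
        intro m'
        have h5 := hrep (a' (κ m)) (Sum.inr m')
        rw [← hBsr, Module.Basis.repr_self, Finsupp.single_apply] at h5
        have h6 := congrArg (fun z : K => (z : ℂ)) h5
        simp only [hBsr, Sum.inr.injEq] at h6
        have h7 : ((if m = m' then (1 : K) else 0 : K) : ℂ) = if m = m' then 1 else 0 := by
          split_ifs <;> rfl
        rw [← h7]
        refine Eq.trans ?_ h6.symm
        simp [a']
      simp only [Finset.mul_sum]
      rw [Finset.sum_comm]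
      rw [Finset.sum_eq_single m]
      · have h5 : ∑ l, a (κ m) l * ((Bs.repr (Pi.single l 1) (Sum.inr m) : ℂ) * t m) =
            (∑ l, a (κ m) l * (Bs.repr (Pi.single l 1) (Sum.inr m) : ℂ)) * t m := by
          rw [Finset.sum_mul]
          refine Finset.sum_congr rfl fun l _ => ?_
          ring
        rw [h5, h4, if_pos rfl, one_mul]
      · intro m' _ hm'
        have h5 : ∑ l, a (κ m) l * ((Bs.repr (Pi.single l 1) (Sum.inr m') : ℂ) * t m') =
            (∑ l, a (κ m) l * (Bs.repr (Pi.single l 1) (Sum.inr m') : ℂ)) * t m' := by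
          rw [Finset.sum_mul]
          refine Finset.sum_congr rfl fun l _ => ?_
          ring
        rw [h5, h4, if_neg hm'.symm, zero_mul]
      · intro hm
        exact absurd (Finset.mem_univ _) hm

end Pool.Agent.V9h68
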