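import Pool.Agent.V9h68.Pl8

/-!
The direction spaces of the affine spaces which are cut out by rational relations between linear
forms in hereditary general position are in general position.
-/

set_option autoImplicit false

open MvPolynomial Set Filter

noncomputable section

namespace Pool.Agent.V9h68

open Pool.Agent.Y776 Pool.Agent.Y685
open Pool.Agent.TH813.Rel (MK mem_cl subset_cl rk_le_of_subset_cl cl_add cl_mul cl_inv cl_of_base)
open Pool.Agent.Results.MP_209724_lc.LinearSpacesAtInfinity (GeneralPosition)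

/-- the space `v_j = ∑ C_jm v_κ(m)` -/
def DS {s e : ℕ} (C : Fin s → Fin e → ℂ) (κ : Fin e → Fin s) : Submodule ℂ (Fin s → ℂ) where
  carrier := {v | ∀ j, v j = ∑ m, C j m * v (κ m)}
  add_mem' := by
    intro v w hv hw j
    simp only [Pi.add_apply, mul_add, Finset.sum_add_distrib]
    rw [← hv j, ← hw j]
  zero_mem' := by
    intro j
    simp
  smul_mem' := by
    intro t v hv j
    simp only [Pi.smul_apply, smul_eq_mul]
    rw [hv j, Finset.mul_sum]
    refine Finset.sum_congr rfl fun m _ => ?_
    ring

theorem mem_DS {s e : ℕ} {C : Fin s → Fin e → ℂ} {κ : Fin e → Fin s} {v : Fin s → ℂ} :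
    v ∈ DS C κ ↔ ∀ j, v j = ∑ m, C j m * v (κ m) := Iff.rfl

theorem ext_single {n s : ℕ} {ι : Fin s → Fin n} {A : Type} [Semiring A] (u : Fin s → A)
    (w : Fin n → A) :
    ∑ i, (∑ j, if ι j = i then u j else 0) * w i = ∑ j, u j * w (ι j) := by
  classical
  simp only [Finset.sum_mul]
  rw [Finset.sum_comm]
  refine Finset.sum_congr rfl fun j _ => ?_
  rw [Finset.sum_eq_single (ι j)]
  · rw [if_pos rfl]
  · intro i _ hi
    rw [if_neg hi.symm, zero_mul]
  · intro h
    exact absurd (Finset.mem_univ _) h

/-- **general position of the direction spaces** -/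
theorem gp_dir {n d k s e : ℕ} {c : Fin n → Fin d → ℂ} (hG : HG c) {ι : Fin s → Fin n}
    {N : Fin k → Fin n → ℚ}
    (hNli : LinearIndependent ℚ (Sum.elim N fun j => (Pi.single (ι j) 1 : Fin n → ℚ)))
    {κ : Fin e → Fin s} {C : Fin s → Fin e → ℂ} {B : Fin s → Fin k → ℂ} (hke : k + e = d)
    (he : 2 ≤ e)
    (hexp : ∀ j l, c (ι j) l = ∑ r, B j r * ∑ i, (N r i : ℂ) * c i l +
      ∑ m, C j m * c (ι (κ m)) l)
    (hsur : ∀ t : Fin e → ℂ, ∃ q : Fin d → ℂ, (∀ r, ∑ l, (∑ i, (N r i : ℂ) * c i l) * q l = 0) ∧
      ∀ m, ∑ l, c (ι (κ m)) l * q l = t m) :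
    GeneralPosition e (DS C κ) := by
  classical
  have haq : ∀ (q : Fin d → ℂ), (∀ r, ∑ l, (∑ i, (N r i : ℂ) * c i l) * q l = 0) →
      ∀ j, ∑ l, c (ι j) l * q l = ∑ m, C j m * ∑ l, c (ι (κ m)) l * q l := by
    intro q hq j
    have h1 : ∑ l, c (ι j) l * q l = ∑ r, B j r * ∑ l, (∑ i, (N r i : ℂ) * c i l) * q l +
        ∑ m, C j m * ∑ l, c (ι (κ m)) l * q l := by
      have h2 : ∑ l, c (ι j) l * q l = ∑ l, (∑ r, B j r * ∑ i, (N r i : ℂ) * c i l +
          ∑ m, C j m * c (ι (κ m)) l) * q l := by
        refine Finset.sum_congr rfl fun l _ => ?_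
        rw [← hexp j l]
      rw [h2]
      simp only [add_mul, Finset.sum_add_distrib]
      congr 1
      · simp only [Finset.sum_mul, Finset.mul_sum]
        rw [Finset.sum_comm]
        refine Finset.sum_congr rfl fun r _ => Finset.sum_congr rfl fun l _ =>
          Finset.sum_congr rfl fun i _ => ?_
        ring
      · simp only [Finset.sum_mul, Finset.mul_sum]
        rw [Finset.sum_comm]
        refine Finset.sum_congr rfl fun r _ => Finset.sum_congr rfl fun l _ => ?_
        ring
    rw [h1]
    simp only [hq, mul_zero, Finset.sum_const_zero, zero_add]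
  have hmem : ∀ t : Fin e → ℂ, ∃ v ∈ DS C κ, (∀ m, v (κ m) = t m) ∧
      ∀ j, v j = ∑ m, C j m * t m := by
    intro t
    obtain ⟨q, hq, hqt⟩ := hsur t
    refine ⟨fun j => ∑ l, c (ι j) l * q l, fun j => haq q hq j, hqt, fun j => ?_⟩
    refine (haq q hq j).trans ?_
    simp only [hqt]
  -- the annihilators
  have hann : ∀ u : Fin s → ℂ, (∀ v ∈ DS C κ, ∑ j, u j * v j = 0) →
      ∃ μ : Fin k → ℂ, ∀ l, ∑ i, ((∑ j, if ι j = i then u j else 0) +
        ∑ r, μ r * (N r i : ℂ)) * c i l = 0 := by
    intro u hu
    have h0 : ∀ m, ∑ j, u j * C j m = 0 := by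
      intro m
      obtain ⟨v, hv, -, h2⟩ := hmem (Pi.single m 1)
      rw [← hu v hv]
      refine Finset.sum_congr rfl fun j _ => ?_
      rw [h2 j, Finset.sum_eq_single m]
      · rw [Pi.single_eq_same, mul_one]
      · intro m' _ hm'
        rw [Pi.single_eq_of_ne hm', mul_zero]
      · intro h
        exact absurd (Finset.mem_univ _) h
    refine ⟨fun r => -∑ j, u j * B j r, fun l => ?_⟩
    simp only [add_mul, Finset.sum_add_distrib]
    rw [ext_single u fun i => c i l]
    have h1 : ∑ j, u j * c (ι j) l = ∑ j, u j * ∑ r, B j r * ∑ i, (N r i : ℂ) * c i l +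
        ∑ m, (∑ j, u j * C j m) * c (ι (κ m)) l := by
      have h2 : ∑ j, u j * c (ι j) l = ∑ j, u j * (∑ r, B j r * ∑ i, (N r i : ℂ) * c i l +
          ∑ m, C j m * c (ι (κ m)) l) := by
        refine Finset.sum_congr rfl fun j _ => ?_
        rw [← hexp j l]
      rw [h2]
      simp only [mul_add, Finset.sum_add_distrib]
      congr 1
      simp only [Finset.sum_mul, Finset.mul_sum]
      rw [Finset.sum_comm]
      refine Finset.sum_congr rfl fun r _ => Finset.sum_congr rfl fun l _ => ?_
      ring
    rw [h1]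
    simp only [h0, zero_mul, Finset.sum_const_zero, add_zero]
    simp only [Finset.sum_mul, Finset.mul_sum, neg_mul, Finset.sum_neg_distrib]
    rw [← sub_eq_add_neg, sub_eq_zero]
    have h3 : ∀ j, ∑ r, ∑ i, u j * (B j r * ((N r i : ℂ) * c i l)) =
        ∑ i, ∑ r, u j * (B j r * ((N r i : ℂ) * c i l)) := fun j => Finset.sum_comm
    simp only [h3]
    rw [Finset.sum_comm]
    refine Finset.sum_congr rfl fun i _ => ?_
    rw [Finset.sum_comm]
    refine Finset.sum_congr rfl fun r _ => Finset.sum_congr rfl fun j _ => ?_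
    ring
  -- the vector is not zero
  have hne : ∀ (u : Fin s → ℂ) (μ : Fin k → ℂ), (fun i => (∑ j, if ι j = i then u j else 0) +
      ∑ r, μ r * (N r i : ℂ)) = 0 → u = 0 := by
    intro u μ h
    have h1 := li_complex (α := Sum.elim μ u) hNli fun i => by
      rw [Fintype.sum_sum_type]
      simp only [Sum.elim_inl, Sum.elim_inr]
      have h2 := congrFun h i
      refine Eq.trans ?_ h2
      rw [add_comm]
      congr 1
      refine Finset.sum_congr rfl fun j _ => ?_
      by_cases hj : ι j = i
      · rw [if_pos hj, hj, Pi.single_eq_same]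
        simp
      · rw [if_neg hj, Pi.single_eq_of_ne (fun h => hj h.symm)]
        simp
    funext j
    exact congrFun h1 (Sum.inr j)
  refine ⟨?_, fun u hu h4 => ?_, fun u hu h2 => ?_⟩
  · -- the dimension
    let T : DS C κ →ₗ[ℂ] (Fin e → ℂ) :=
      { toFun := fun v m => (v : Fin s → ℂ) (κ m)
        map_add' := fun _ _ => rfl
        map_smul' := fun _ _ => rfl }
    have hT : Function.Bijective T := by
      constructor
      · intro v w hvw
        apply Subtype.ext
        funext j
        rw [mem_DS.1 v.2 j, mem_DS.1 w.2 j]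
        refine Finset.sum_congr rfl fun m _ => ?_
        have h1 : (v : Fin s → ℂ) (κ m) = (w : Fin s → ℂ) (κ m) := congrFun hvw m
        rw [h1]
      · intro t
        obtain ⟨v, hv, h1, -⟩ := hmem t
        exact ⟨⟨v, hv⟩, funext h1⟩
    rw [(LinearEquiv.ofBijective T hT).finrank_eq]
    simp
  · by_contra hcon
    push Not at hcon
    obtain ⟨μ, hμ⟩ := hann (fun j => (u j : ℂ)) hcon
    have h5 : ∀ i, (∑ j, if ι j = i then (u j : ℂ) else 0) =
        ((∑ j, if ι j = i then u j else 0 : ℝ) : ℂ) := by
      intro i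
      push_cast
      refine Finset.sum_congr rfl fun j _ => ?_
      split_ifs <;> simp
    simp only [h5] at hμ
    have h6 : Module.finrank ℚ (Submodule.span ℚ (range fun i => ∑ j, if ι j = i then u j else 0)) ≤
        Module.finrank ℚ (Submodule.span ℚ (range u)) := by
      have : Module.Finite ℚ (Submodule.span ℚ (range u)) :=
        FiniteDimensional.span_of_finite ℚ (Set.finite_range _)
      refine Submodule.finrank_mono (Submodule.span_le.2 ?_)
      rintro _ ⟨i, rfl⟩
      refine Submodule.sum_mem _ fun j _ => ?_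
      split_ifs
      · exact Submodule.subset_span ⟨j, rfl⟩
      · exact Submodule.zero_mem _
    obtain ⟨l, hl⟩ := hG.real k (by omega) (fun i => ∑ j, if ι j = i then u j else 0) N μ
      (by omega) (fun h7 => hu (by
        have h8 := hne (fun j => (u j : ℂ)) μ (by
          simp only [h5]
          exact h7)
        funext j
        have h9 : (u j : ℂ) = 0 := congrFun h8 j
        exact Complex.ofReal_eq_zero.1 h9))
    exact hl (hμ l)
  · by_contra hcon
    push Not at hcon
    obtain ⟨μ, hμ⟩ := hann u hcon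
    obtain ⟨l, hl⟩ := hG.complex (fun i => (∑ j, if ι j = i then u j else 0) +
      ∑ r, μ r * (N r i : ℂ)) (fun h7 => hu (hne u μ h7)) (by
      have h3 : Module.Finite ℚ (Submodule.span ℚ (range u)) :=
        FiniteDimensional.span_of_finite ℚ (Set.finite_range _)
      have h4 : Module.Finite ℚ (Submodule.span ℚ (range μ)) :=
        FiniteDimensional.span_of_finite ℚ (Set.finite_range _)
      have h5 : Submodule.span ℚ (range fun i => (∑ j, if ι j = i then u j else 0) +
          ∑ r, μ r * (N r i : ℂ)) ≤ Submodule.span ℚ (range u) ⊔ Submodule.span ℚ (range μ) := by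
        rw [Submodule.span_le]
        rintro _ ⟨i, rfl⟩
        refine Submodule.add_mem_sup ?_ (mem_span_mul μ fun r => N r i)
        refine Submodule.sum_mem _ fun j _ => ?_
        split_ifs
        · exact Submodule.subset_span ⟨j, rfl⟩
        · exact Submodule.zero_mem _
      have h6 := Submodule.finrank_add_le_finrank_add_finrank (Submodule.span ℚ (range u))
        (Submodule.span ℚ (range μ))
      have h7 : Module.finrank ℚ (Submodule.span ℚ (range μ)) ≤ k :=
        (finrank_range_le_card (R := ℚ) μ).trans (le_of_eq (Fintype.card_fin k))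
      have h8 := Submodule.finrank_mono h5
      omega)
    exact hl (hμ l)

end Pool.Agent.V9h68
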