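import Pool.Agent.V9h68.Mg

/-!
Puiseux' theorem for germs of meromorphic functions.
-/

set_option autoImplicit false

open Polynomial Topology Filter

noncomputable section

namespace Pool.Agent.V9h68.Rt

/-- removal of the second coefficient -/
theorem tsch {F : Type} [Field F] [CharZero F] {p : F[X]} {m : ℕ} (hp : p.Monic)
    (hd : p.natDegree = m + 1) : ∃ a : F, (p.comp (X + C a)).coeff m = 0 := by
  refine ⟨-p.coeff m / (m + 1), ?_⟩
  rw [← taylor_apply, taylor_coeff]
  have h1 : (hasseDeriv m p).natDegree < 2 := by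
    have := natDegree_hasseDeriv_le p m
    omega
  rw [eval_eq_sum_range' h1, Finset.sum_range_succ, Finset.sum_range_one, hasseDeriv_coeff,
    hasseDeriv_coeff]
  have h2 : p.coeff (1 + m) = 1 := by
    rw [add_comm, ← hd]
    exact hp.coeff_natDegree
  rw [h2]
  simp only [zero_add, Nat.choose_self, Nat.cast_one, one_mul, pow_zero, mul_one, pow_one]
  have h3 : (1 + m).choose m = m + 1 := by
    rw [add_comm, Nat.choose_succ_self_right]
  rw [h3]
  have h4 : ((m : F) + 1) ≠ 0 := by exact_mod_cast Nat.succ_ne_zero m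
  push_cast
  field_simp
  ring

/-- coprime factors -/
theorem split_pol {m : ℕ} {q : ℂ[X]} (hq : q.Monic) (hd : q.natDegree = m + 1) (h0 : q.coeff m = 0)
    {i₀ : ℕ} (hi₀ : i₀ < m + 1) (hne : q.coeff i₀ ≠ 0) : ∃ (k l : ℕ) (g h : ℂ[X]), 0 < k ∧
      k < m + 1 ∧ k + l = m + 1 ∧ g.Monic ∧ h.Monic ∧ g.natDegree = k ∧ h.natDegree = l ∧
      IsCoprime g h ∧ q = g * h := by
  obtain ⟨r, hr⟩ := IsAlgClosed.exists_root q (by
    rw [degree_eq_natDegree hq.ne_zero, hd]
    exact_mod_cast Nat.succ_ne_zero m)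
  obtain ⟨h, hh1, hh2⟩ := Polynomial.exists_eq_pow_rootMultiplicity_mul_and_not_dvd q hq.ne_zero r
  set k := rootMultiplicity r q with hk
  have hgm : ((X - C r) ^ k).Monic := (monic_X_sub_C r).pow k
  have hhm : h.Monic := by
    rw [hh1] at hq
    exact hgm.of_mul_monic_left hq
  have hkpos : 0 < k := (rootMultiplicity_pos hq.ne_zero).2 hr
  have hgd : ((X - C r) ^ k).natDegree = k := by
    rw [natDegree_pow, natDegree_X_sub_C, mul_one]
  have hdeg : k + h.natDegree = m + 1 := by
    rw [← hd]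
    conv_rhs => rw [hh1]
    rw [hgm.natDegree_mul hhm, hgd]
  refine ⟨k, h.natDegree, _, h, hkpos, ?_, hdeg, hgm, hhm, hgd, rfl, ?_, hh1⟩
  · by_contra hcon
    have h1 : h.natDegree = 0 := by omega
    have h2 : h = 1 := hhm.natDegree_eq_zero.1 h1
    have h3 : k = m + 1 := by omega
    rw [h2, mul_one, h3] at hh1
    have h4 : q.nextCoeff = -((m + 1 : ℕ) * r) := by
      rw [hh1, (monic_X_sub_C r).nextCoeff_pow, nextCoeff_X_sub_C, nsmul_eq_mul, mul_neg]
    have h5 : q.nextCoeff = 0 := by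
      rw [nextCoeff_of_natDegree_pos (by omega), hd]
      exact h0
    rw [h5] at h4
    have h6 : ((m + 1 : ℕ) : ℂ) ≠ 0 := by exact_mod_cast Nat.succ_ne_zero m
    have h7 : r = 0 := by
      have := neg_eq_zero.1 h4.symm
      exact (mul_eq_zero.1 this).resolve_left h6
    rw [h7, C_0, sub_zero] at hh1
    apply hne
    rw [hh1, coeff_X_pow, if_neg (by omega)]
  · refine IsCoprime.pow_left ?_
    exact ((irreducible_X_sub_C r).coprime_iff_not_dvd).2 hh2

theorem pl_cast {R : Type} [CommRing R] {a b : ℕ} (h : a = b) (f : ℕ → R) :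
    pl a (fun i : Fin a => f i) = pl b (fun i : Fin b => f i) := by
  subst h
  rfl

/-- the factorisation of polynomials over the field of germs -/
theorem mul_germ {k l : ℕ} {u : ℂ → Fin k → ℂ} {v : ℂ → Fin l → ℂ} {c : ℂ → Fin (k + l) → ℂ}
    (hu : ∀ j, AnalyticAt ℂ (fun t => u t j) 0) (hv : ∀ j, AnalyticAt ℂ (fun t => v t j) 0)
    (hc : ∀ j, AnalyticAt ℂ (fun t => c t j) 0) (h : ∀ᶠ t in 𝓝 (0 : ℂ), Fm k l (u t, v t) = c t) :
    pl (k + l) (fun j => mk (fun t => c t j) (hc j).meromorphicAt) =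
      pl k (fun j => mk (fun t => u t j) (hu j).meromorphicAt) *
      pl l (fun j => mk (fun t => v t j) (hv j).meromorphicAt) := by
  let U : Fin k → FS := fun j => ⟨fun t => u t j, (hu j).meromorphicAt⟩
  let V : Fin l → FS := fun j => ⟨fun t => v t j, (hv j).meromorphicAt⟩
  let evs : ℂ → FS →+* ℂ := fun s => (Pi.evalRingHom (fun _ : ℂ => ℂ) s).comp FS.subtype
  have h1 : (pl k U * pl l V).map ti =
      pl k (fun j => mk (fun t => u t j) (hu j).meromorphicAt) *
      pl l (fun j => mk (fun t => v t j) (hv j).meromorphicAt) := by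
    rw [Polynomial.map_mul, pl_map, pl_map]
    rfl
  rw [← h1]
  have hm : (pl k U * pl l V).Monic := (pl_monic k U).mul (pl_monic l V)
  have : Nontrivial FS := ti.domain_nontrivial
  have hd : (pl k U * pl l V).natDegree = k + l := by
    rw [(pl_monic k U).natDegree_mul (pl_monic l V), pl_natDegree, pl_natDegree]
  rw [eq_pl (hm.map ti) ((hm.natDegree_map ti).trans hd)]
  congr 1
  funext i
  rw [coeff_map]
  refine ti_eq.2 ?_
  filter_upwards [h.filter_mono nhdsWithin_le_nhds] with s hs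
  have h2 : ((pl k U * pl l V).coeff i : ℂ → ℂ) s = ((pl k U * pl l V).map (evs s)).coeff i := by
    rw [coeff_map]
    rfl
  rw [h2, Polynomial.map_mul, pl_map, pl_map]
  exact (congrFun hs i).symm

/-- **Puiseux' theorem** -/
theorem puiseux (ℓ : ℕ) : 0 < ℓ → ∀ p : MG[X], p.Monic → p.natDegree = ℓ →
    ∃ (e : ℕ) (he : 0 < e) (g : MG), p.eval₂ (sb e he) g = 0 := by
  classical
  induction ℓ using Nat.strong_induction_on with
  | _ ℓ ih =>
    intro hℓ p hp hd
    obtain ⟨m, rfl⟩ : ∃ m, ℓ = m + 1 := ⟨ℓ - 1, by omega⟩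
    obtain ⟨a, ha⟩ := tsch hp hd
    set q := p.comp (X + C a) with hq
    have hqm : q.Monic := hp.comp_X_add_C a
    have hqd : q.natDegree = m + 1 := by
      rw [hq, natDegree_comp, natDegree_X_add_C, mul_one, hd]
    suffices hsuff : ∃ (e : ℕ) (he : 0 < e) (g : MG), q.eval₂ (sb e he) g = 0 by
      obtain ⟨e, he, g, hg⟩ := hsuff
      refine ⟨e, he, g + sb e he a, ?_⟩
      rw [hq, eval₂_comp, eval₂_add, eval₂_X, eval₂_C] at hg
      exact hg
    have hform : ∀ i, ∃ (v : ℤ) (f : ℂ → ℂ) (hf : AnalyticAt ℂ f 0), (q.coeff i ≠ 0 → f 0 ≠ 0) ∧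
        q.coeff i = T ^ v * mk f hf.meromorphicAt := by
      intro i
      by_cases h : q.coeff i = 0
      · refine ⟨0, fun _ => 0, analyticAt_const, fun h' => absurd h h', ?_⟩
        rw [h, zpow_zero, one_mul]
        symm
        rw [mk_zero]
        exact Eventually.of_forall fun _ => rfl
      · obtain ⟨v, f, hf, h1, h2⟩ := exists_form _ h
        exact ⟨v, f, hf, fun _ => h1, h2⟩
    choose v f hf hf0 hqf using hform
    set I := (Finset.range (m + 1)).filter fun i => q.coeff i ≠ 0 with hI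
    rcases I.eq_empty_or_nonempty with hemp | hne
    · refine ⟨1, one_pos, 0, ?_⟩
      rw [eval₂_at_zero]
      have h1 : q.coeff 0 = 0 := by
        by_contra h
        have h2 : 0 ∈ I := Finset.mem_filter.2 ⟨Finset.mem_range.2 (Nat.succ_pos m), h⟩
        rw [hemp] at h2
        exact absurd h2 (Finset.notMem_empty 0)
      rw [h1, map_zero]
    obtain ⟨i₀, hi₀I, hmin⟩ := Finset.exists_min_image I
      (fun i => (v i : ℚ) / ((m + 1 - i : ℕ) : ℚ)) hne
    obtain ⟨hi₀, hqi₀⟩ := Finset.mem_filter.1 hi₀I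
    rw [Finset.mem_range] at hi₀
    obtain ⟨M, hM⟩ : (m + 1 - i₀) ∣ (m + 1).factorial :=
      Nat.dvd_factorial (by omega) (by omega)
    set N := (m + 1).factorial with hN
    have hNpos : 0 < N := Nat.factorial_pos _
    set μ : ℤ := M * v i₀ with hμ
    have hMpos : 0 < M := by
      rcases Nat.eq_zero_or_pos M with h | h
      · rw [h, mul_zero] at hM
        omega
      · exact h
    have hnn : ∀ i ∈ I, 0 ≤ (N : ℤ) * v i - ((m + 1 - i : ℕ) : ℤ) * μ := by
      intro i hi
      obtain ⟨hi1, hi2⟩ := Finset.mem_filter.1 hi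
      rw [Finset.mem_range] at hi1
      have h1 := hmin i hi
      have hp1 : (0 : ℚ) < ((m + 1 - i₀ : ℕ) : ℚ) := by exact_mod_cast (by omega)
      have hp2 : (0 : ℚ) < ((m + 1 - i : ℕ) : ℚ) := by exact_mod_cast (by omega)
      rw [div_le_div_iff₀ hp1 hp2] at h1
      have h2 : v i₀ * ((m + 1 - i : ℕ) : ℤ) ≤ v i * ((m + 1 - i₀ : ℕ) : ℤ) := by exact_mod_cast h1
      have h3 : (N : ℤ) = ((m + 1 - i₀ : ℕ) : ℤ) * M := by exact_mod_cast hM
      rw [h3, hμ]
      have h4 : (0 : ℤ) < M := by exact_mod_cast hMpos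
      nlinarith
    let c : ℕ → ℂ → ℂ := fun i s => if q.coeff i = 0 then 0 else
      s ^ ((N : ℤ) * v i - ((m + 1 - i : ℕ) : ℤ) * μ).toNat * f i (s ^ N)
    have hfN : ∀ i, AnalyticAt ℂ (fun s => f i (s ^ N)) 0 := by
      intro i
      have h1 : AnalyticAt ℂ (f i) ((fun s : ℂ => s ^ N) 0) := by
        simp only [zero_pow hNpos.ne']
        exact hf i
      exact h1.comp (g := f i) (f := fun s : ℂ => s ^ N) (analyticAt_id.pow N)
    have hc : ∀ i, AnalyticAt ℂ (c i) 0 := by
      intro i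
      by_cases h : q.coeff i = 0
      · have h1 : c i = fun _ => 0 := funext fun s => if_pos h
        rw [h1]
        exact analyticAt_const
      · have h1 : c i = fun s => s ^ ((N : ℤ) * v i - ((m + 1 - i : ℕ) : ℤ) * μ).toNat *
            f i (s ^ N) := funext fun s => if_neg h
        rw [h1]
        exact (analyticAt_id.pow _).mul (hfN i)
    have hcoef : ∀ i < m + 1, sb N hNpos (q.coeff i) =
        mk (c i) (hc i).meromorphicAt * (T ^ μ) ^ (m + 1 - i) := by
      intro i hi
      by_cases h : q.coeff i = 0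
      · have h1 : mk (c i) (hc i).meromorphicAt = 0 := by
          rw [mk_zero]
          exact Eventually.of_forall fun s => if_pos h
        rw [h1, h, map_zero, zero_mul]
      · have h0 := hnn i (Finset.mem_filter.2 ⟨Finset.mem_range.2 hi, h⟩)
        have h1 : mk (c i) (hc i).meromorphicAt =
            T ^ ((N : ℤ) * v i - ((m + 1 - i : ℕ) : ℤ) * μ).toNat *
            mk (fun s => f i (s ^ N)) (hfN i).meromorphicAt := by
          rw [T_pow, mk_mul, mk_eq]
          exact Eventually.of_forall fun s => if_neg h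
        rw [h1, hqf i, map_mul, map_zpow₀, sb_T, sb_mk]
        have h2 : T ^ ((N : ℤ) * v i - ((m + 1 - i : ℕ) : ℤ) * μ).toNat =
            T ^ ((N : ℤ) * v i - ((m + 1 - i : ℕ) : ℤ) * μ) := by
          rw [← zpow_natCast, Int.toNat_of_nonneg h0]
        have h3 : (T ^ N) ^ v i = T ^ ((N : ℤ) * v i) := by
          rw [← zpow_natCast, ← zpow_mul]
        have h4 : (T ^ μ) ^ (m + 1 - i) = T ^ (((m + 1 - i : ℕ) : ℤ) * μ) := by
          rw [← zpow_natCast, ← zpow_mul, mul_comm]
        have h5 : T ^ ((N : ℤ) * v i - ((m + 1 - i : ℕ) : ℤ) * μ) *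
            T ^ (((m + 1 - i : ℕ) : ℤ) * μ) = T ^ ((N : ℤ) * v i) := by
          rw [← zpow_add₀ T_ne, sub_add_cancel]
        rw [h2, h3, h4, ← h5]
        ring
    -- the scaled polynomial
    set qt : MG[X] := pl (m + 1) (fun i => mk (c i) (hc i).meromorphicAt) with hqt
    have hscale : q.map (sb N hNpos) = qt.scaleRoots (T ^ μ) := by
      ext i
      rw [coeff_map, coeff_scaleRoots, hqt, pl_natDegree, coeff_pl]
      by_cases hi : i < m + 1
      · rw [if_neg hi.ne, dif_pos hi, zero_add]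
        exact hcoef i hi
      · rw [dif_neg hi, add_zero]
        by_cases h2 : i = m + 1
        · rw [if_pos h2, h2, Nat.sub_self, pow_zero, mul_one, ← hqd, hqm.coeff_natDegree, map_one]
        · rw [if_neg h2, zero_mul, coeff_eq_zero_of_natDegree_lt (by omega), map_zero]
    -- the reduction
    set qb : ℂ[X] := pl (m + 1) (fun i => c i 0) with hqb
    have hcm : c m 0 = 0 := if_pos ha
    have hci₀ : c i₀ 0 ≠ 0 := by
      have h1 : c i₀ 0 = (0 : ℂ) ^ ((N : ℤ) * v i₀ - ((m + 1 - i₀ : ℕ) : ℤ) * μ).toNat *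
          f i₀ (0 ^ N) := if_neg hqi₀
      have h2 : (N : ℤ) * v i₀ - ((m + 1 - i₀ : ℕ) : ℤ) * μ = 0 := by
        have h3 : (N : ℤ) = ((m + 1 - i₀ : ℕ) : ℤ) * M := by exact_mod_cast hM
        rw [h3, hμ]
        ring
      rw [h1, h2, Int.toNat_zero, pow_zero, one_mul, zero_pow hNpos.ne']
      exact hf0 i₀ hqi₀
    obtain ⟨k, l, g, h, hk, hkm, hkl, hgm, hhm, hgd, hhd, hco, hgh⟩ := split_pol (m := m) (q := qb)
      (pl_monic _ _) (pl_natDegree _ _) (by
        rw [hqb, coeff_pl, if_neg (by omega), dif_pos (Nat.lt_succ_self m), zero_add]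
        exact hcm) hi₀ (by
        rw [hqb, coeff_pl, if_neg hi₀.ne, dif_pos hi₀, zero_add]
        exact hci₀)
    have hg' := eq_pl hgm hgd
    have hh' := eq_pl hhm hhd
    rw [hg', hh'] at hco
    obtain ⟨u, w, hu, hw, hu0, hw0, huw⟩ := hensel (fun j : Fin k => g.coeff j)
      (fun j : Fin l => h.coeff j) hco (c := fun t j => c j t)
      (analyticAt_pi_iff.2 fun j => hc j) (by
        funext j
        unfold Fm
        simp only
        rw [← hg', ← hh', ← hgh, hqb, coeff_pl, if_neg (by omega), dif_pos (by omega), zero_add])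
    rw [analyticAt_pi_iff] at hu hw
    have hfac := mul_germ hu hw (fun j => hc j) huw
    have hqt' : qt = pl (k + l) (fun j : Fin (k + l) => mk (c j) (hc j).meromorphicAt) :=
      pl_cast hkl.symm fun i => mk (c i) (hc i).meromorphicAt
    have hqt'' := hqt'.trans hfac
    obtain ⟨e', he', g', hg''⟩ := ih k hkm hk _ (pl_monic _ _) (pl_natDegree k
      (fun j => mk (fun t => u t j) (hu j).meromorphicAt))
    have h1 : qt.eval₂ (sb e' he') g' = 0 := by
      rw [hqt'', eval₂_mul, hg'', zero_mul]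
    have h2 := scaleRoots_eval₂_eq_zero (sb e' he') (s := T ^ μ) h1
    rw [← hscale, eval₂_map] at h2
    refine ⟨e' * N, Nat.mul_pos he' hNpos, sb e' he' (T ^ μ) * g', ?_⟩
    have h3 : (sb e' he').comp (sb N hNpos) = sb (e' * N) (Nat.mul_pos he' hNpos) :=
      RingHom.ext fun z => sb_sb _ _ z
    rw [h3] at h2
    exact h2

end Pool.Agent.V9h68.Rt
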