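import Pool.Agent.V9h68.Wn3

/-!
Extensions of isomorphisms by generic elements.
-/

set_option autoImplicit false

open MvPolynomial Set Filter

noncomputable section

namespace Pool.Agent.V9h68

open Pool.Agent.Y776 Pool.Agent.Y685
open Pool.Agent.TH813.Rel (MK mem_cl subset_cl rk_le_of_subset_cl cl_add cl_mul cl_inv cl_of_base)

theorem indep_crit0 {F : Subfield ℂ} {n : ℕ} {c : Fin n → ℂ}
    (h : ∀ i, c i ∉ (MK F).closure (c '' {i}ᶜ)) : AlgebraicIndependent F c := by
  refine algebraicIndependent_of_finite_type' (FaithfulSMul.algebraMap_injective _ _) ?_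
  intro T _ _ j hjT halg
  apply h j
  refine (MK F).closure_subset_closure ?_ (mem_cl.2 halg)
  exact Set.image_mono fun i hi h0 => hjT (by rw [Set.mem_singleton_iff] at h0; rwa [← h0])

/-- a number outside of a good field and a root of its exponential are independent -/
theorem indep_pair {F : Subfield ℂ} (hF : GF F) {x : ℂ} (hx : x ∉ F) {M : ℕ} (hM : 0 < M) :
    AlgebraicIndependent F ![x, Complex.exp (x / M)] := by
  have hM0 : (M : ℂ) ≠ 0 := by exact_mod_cast hM.ne'
  apply indep_crit0
  intro i hi
  have h1 := hF.rk 1 (fun _ => x / M) one_pos (by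
    intro q hq
    rw [Fin.sum_univ_one] at hq
    by_contra hq0
    have hq1 : q 0 ≠ 0 := by
      intro h0
      apply hq0
      funext i
      rw [Subsingleton.elim i 0]
      exact h0
    apply hx
    have h2 := SubfieldClass.qsmul_mem F ((M : ℚ) * (q 0)⁻¹) hq
    rw [smul_smul, mul_assoc, inv_mul_cancel₀ hq1, mul_one, Rat.smul_def] at h2
    push_cast at h2
    rwa [mul_div_cancel₀ _ hM0] at h2)
  have hall : ∀ l, (![x, Complex.exp (x / M)] : Fin 2 → ℂ) l ∈
      (MK F).closure (![x, Complex.exp (x / M)] '' {i}ᶜ) := by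
    intro l
    by_cases hl : l = i
    · rw [hl]; exact hi
    · exact subset_cl _ ⟨l, hl, rfl⟩
  have h2 : ET (fun _ : Fin 1 => x / M) ⊆ (MK F).closure (![x, Complex.exp (x / M)] '' {i}ᶜ) := by
    rintro _ (⟨j, rfl⟩ | ⟨j, rfl⟩)
    · have h3 := cl_rat (k := F) (M : ℚ)⁻¹ (hall 0)
      simp only [Matrix.cons_val_zero] at h3
      have h4 : (M : ℚ)⁻¹ • x = x / M := by
        rw [Rat.smul_def]
        push_cast
        ring
      rw [h4] at h3
      exact h3
    · have h3 := hall 1
      simp only [Matrix.cons_val_one, Matrix.cons_val_fin_one] at h3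
      exact h3
  have h3 : (MK F).eRk (![x, Complex.exp (x / M)] '' {i}ᶜ) ≤ (2 - 1 : ℕ) := by
    refine ((MK F).eRk_le_encard _).trans ((Set.encard_image_le _ _).trans ?_)
    rw [enc_compl]
  have h4 := h1.trans ((rk_le_of_subset_cl h2).trans h3)
  norm_cast at h4

/-- generic elements of a structure -/
theorem Sc.gen {K : Subfield ℂ} (hK : GD K) {p d : ℕ} {b : Fin p → ℂ} (h : Sc K b d) :
    ∃ G : Subfield ℂ, GD G ∧ K ≤ G ∧ (MK K).closure (ET b) ⊆ G ∧
      ∀ x, x ∉ G → Sc K (Fin.append b (fun _ : Fin 1 => x)) (d + 1) := by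
  classical
  obtain ⟨L, hL⟩ := h.chn
  -- the general construction
  have main : ∀ G : Subfield ℂ, GD G → K ≤ G → (∀ i, b i ∈ G) → (∀ i < d, L i ≤ G) →
      (d = 0 → G = K) → ∃ G : Subfield ℂ, GD G ∧ K ≤ G ∧ (MK K).closure (ET b) ⊆ G ∧
      ∀ x, x ∉ G → Sc K (Fin.append b (fun _ : Fin 1 => x)) (d + 1) := by
    intro G hG hKG hbG hLG hG0
    have hcl : (MK K).closure (ET b) ⊆ G := by
      refine cl_le_alg hKG hG.alg ?_
      rintro _ (⟨i, rfl⟩ | ⟨i, rfl⟩)
      · exact hbG i
      · exact hG.exp _ (hbG i)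
    have hVG : Vs K b ⊆ G := fun z hz => hcl (Vs_cl hK.exp hz).1
    refine ⟨G, hG, hKG, hcl, fun x hx => ?_⟩
    have hxV : x ∉ Vs K b := fun hh => hx (hVG hh)
    refine ⟨ind_append_one h.ind hxV, ?_, fun i => if i < d then L i else G, ?_, ?_, ?_, ?_⟩
    · have h1 : ET (Fin.append b (fun _ : Fin 1 => x)) ⊆
          (MK K).closure (insert x (insert (Complex.exp x) (ET b))) := by
        have hb : ET b ⊆ (MK K).closure (insert x (insert (Complex.exp x) (ET b))) :=
          fun z hz => subset_cl _ (Or.inr (Or.inr hz))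
        rintro _ (⟨l, rfl⟩ | ⟨l, rfl⟩)
        · refine Fin.addCases (fun i => ?_) (fun i => ?_) l
          · rw [Fin.append_left]
            exact hb (Or.inl ⟨i, rfl⟩)
          · rw [Fin.append_right]
            exact subset_cl _ (Or.inl rfl)
        · refine Fin.addCases (fun i => ?_) (fun i => ?_) l
          · simp only [Fin.append_left]
            exact hb (Or.inr ⟨i, rfl⟩)
          · simp only [Fin.append_right]
            exact subset_cl _ (Or.inr (Or.inl rfl))
      refine (rk_le_of_subset_cl h1).trans ((rk_insert _ _).trans ?_)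
      refine (add_le_add ((rk_insert _ _).trans (add_le_add h.rk le_rfl)) le_rfl).trans ?_
      norm_cast
      omega
    · by_cases hd : 0 < d
      · simp only [hd, if_true]
        exact hL.zero
      · simp only [hd, if_false]
        exact hG0 (by omega)
    · intro i
      by_cases h1 : i + 1 < d
      · have h2 : i < d := by omega
        simp only [h1, h2, if_true]
        exact hL.mono i
      · simp only [h1, if_false]
        by_cases h2 : i < d
        · simp only [h2, if_true]
          exact hLG i h2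
        · simp only [h2, if_false]
          exact le_rfl
    · intro i
      by_cases h2 : i < d
      · simp only [h2, if_true]
        exact hL.gd i
      · simp only [h2, if_false]
        exact hG
    · intro i hi
      by_cases h2 : i < d
      · obtain ⟨q, hq1, hq2⟩ := hL.str i h2
        refine ⟨Fin.append q 0, ?_, fun _ => ?_⟩
        · simp only [h2, if_true]
          rw [lc_app]
          exact hq1
        · rw [lc_app]
          by_cases h3 : i + 1 < d
          · simp only [h3, if_true]
            exact hq2 h3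
          · simp only [h3, if_false]
            exact hVG ⟨q, by rw [sub_self]; exact K.zero_mem⟩
      · refine ⟨Pi.single (Fin.natAdd p 0) 1, ?_, fun hh => by omega⟩
        simp only [h2, if_false]
        rw [lc_single, one_smul, Fin.append_right]
        exact hx
  rcases Nat.eq_zero_or_pos d with hd | hd
  · have hp : p = 0 := by
      subst hd
      exact h.zero hK.toGF
    refine main K hK le_rfl (fun i => ?_) (fun i hi => by omega) (fun _ => rfl)
    subst hp
    exact i.elim0
  · obtain ⟨G, hG, hSG⟩ := exists_GD ((hL.gd (d - 1)).cnt.union (Set.countable_range b))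
    have hmono : ∀ i j, i ≤ j → L i ≤ L j := by
      intro i j hij
      induction hij with
      | refl => exact le_rfl
      | step _ ih => exact ih.trans (hL.mono _)
    have hLG : ∀ i < d, L i ≤ G := fun i hi =>
      (hmono i (d - 1) (by omega)).trans fun z hz => hSG (Or.inl hz)
    refine main G hG ?_ (fun i => hSG (Or.inr ⟨i, rfl⟩)) hLG (fun hh => by omega)
    have h1 := hLG 0 hd
    rw [hL.zero] at h1
    exact h1

/-- **extension by a generic element** -/
theorem Wt.gen {K : Subfield ℂ} (hK : GD K) (w : Wt K) : ∃ G G' : Set ℂ, G.Countable ∧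
    G'.Countable ∧ ∀ x, x ∉ G → ∀ x', x' ∉ G' →
      ∃ w1 : Wt K, w.Le w1 ∧ x ∈ w1.V ∧ w1.σ x = x' := by
  classical
  obtain ⟨p, d, b, b', σ, wc⟩ := w
  obtain ⟨G, hG, hKG, hclG, hGS⟩ := wc.src.gen hK
  obtain ⟨G', hG', hKG', hclG', hGS'⟩ := wc.tgt.gen hK
  refine ⟨G, G', hG.cnt, hG'.cnt, fun x hx x' hx' => ?_⟩
  have hsrc := hGS x hx
  have htgt := hGS' x' hx'
  have : Countable K := hK.cnt.to_subtype
  obtain ⟨M, hM, hkum⟩ := kum (a := Fin.append b (fun _ : Fin 1 => x)) hK.alg
    (exp_ind hK.toGF hsrc.ind)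
  have hM0 : (M : ℂ) ≠ 0 := by exact_mod_cast hM.ne'
  have hσe : ∀ i, σ (Complex.exp (b i)) = Complex.exp (b' i) := by
    intro i
    have h4 := wc.exp (Pi.single i 1)
    rw [lc_single, lc_single, one_smul, one_smul] at h4
    exact h4
  have hETσ : σ '' ET b = ET b' := image_ET (σ := (σ : ℂ →+* ℂ)) wc.map hσe
  have hbase : ∀ {G : Subfield ℂ} {S : Set ℂ} {g : Fin 2 → ℂ}, (MK K).closure S ⊆ G →
      AlgebraicIndependent G g → AlgebraicIndependent (clF K S) g := by
    intro G S g hS hg
    exact indep_base (K := clF K S) (K' := G)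
      { toFun := fun z => ⟨z, hS z.2⟩
        map_one' := rfl
        map_mul' := fun _ _ => rfl
        map_zero' := rfl
        map_add' := fun _ _ => rfl } (fun z => rfl) hg
  obtain ⟨σ1, hσ1, hσ2⟩ := indep_aut (K := K) hK.cnt wc.fix (ET_countable b) hETσ
    (hbase hclG (indep_pair hG.toGF hx hM)) (hbase hclG' (indep_pair hG'.toGF hx' hM))
  have hL : LIso K M (Fin.append b (fun _ : Fin 1 => x)) (Fin.append b' (fun _ : Fin 1 => x')) := by
    refine ⟨σ1, fun c hc => ?_, fun l => ?_, fun l => ?_⟩
    · rw [hσ1 c (cl_of_base (k := K) _ (⟨c, hc⟩ : K)), wc.fix c hc]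
    · refine Fin.addCases (fun i => ?_) (fun i => ?_) l
      · rw [Fin.append_left, Fin.append_left, hσ1 _ (subset_cl _ (mem_ET_l b i)), wc.map]
      · rw [Fin.append_right, Fin.append_right]
        exact hσ2 0
    · refine Fin.addCases (fun i => ?_) (fun i => ?_) l
      · rw [Fin.append_left, Fin.append_left]
        have h1 : ∀ a : Fin p → ℂ, a i / M = lc a (Pi.single i (M : ℚ)⁻¹) := by
          intro a
          rw [lc_single, Rat.smul_def]
          push_cast
          ring
        have h2 : Complex.exp (lc b (Pi.single i (M : ℚ)⁻¹)) ∈ (MK K).closure (ET b) :=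
          (sum_cl b _).2
        rw [h1 b, h1 b', hσ1 _ h2, wc.exp]
      · rw [Fin.append_right, Fin.append_right]
        exact hσ2 1
  obtain ⟨w1, h1, h2, h3, -⟩ := Wt.mk' (⟨p, d, b, b', σ, wc⟩ : Wt K) hsrc htgt (hkum _ hL)
  exact ⟨w1, h1, h2 0, h3 0⟩

end Pool.Agent.V9h68
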