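import Pool.Agent.V9h68.Pu
import Pool.Agent.V9h68.Wn4

/-!
Places of function fields of curves with values in the field of germs.
-/

set_option autoImplicit false

open Polynomial Topology Filter Set

noncomputable section

namespace Pool.Agent.V9h68.Rt

open Pool.Agent.Y776 Pool.Agent.Y685
open Pool.Agent.TH813.Rel (MK mem_cl subset_cl rk_le_of_subset_cl cl_add cl_mul cl_inv cl_of_base)

/-- one algebraic element -/
theorem ext_step {F : Subfield ℂ} (Ψ : F →+* MG) {c : ℂ} (hc : IsAlgebraic F c) :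
    ∃ (e : ℕ) (he : 0 < e) (F' : Subfield ℂ) (Ψ' : F' →+* MG), F ≤ F' ∧ c ∈ F' ∧
      ∀ (x : ℂ) (h : x ∈ F) (h' : x ∈ F'), Ψ' ⟨x, h'⟩ = sb e he (Ψ ⟨x, h⟩) := by
  have hint : IsIntegral F c := hc.isIntegral
  obtain ⟨e, he, g, hg⟩ := puiseux _ (minpoly.natDegree_pos hint) ((minpoly F c).map Ψ)
    ((minpoly.monic hint).map Ψ) (natDegree_map Ψ)
  rw [eval₂_map] at hg
  let Ψ₁ : AdjoinRoot (minpoly F c) →+* MG := AdjoinRoot.lift ((sb e he).comp Ψ) g hg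
  let E := IntermediateField.adjoin F {c}
  let eqv := (IntermediateField.adjoinRootEquivAdjoin F hint).symm
  refine ⟨e, he, E.toSubfield, Ψ₁.comp (eqv : E →+* AdjoinRoot (minpoly F c)), ?_, ?_, ?_⟩
  · intro x hx
    exact E.algebraMap_mem ⟨x, hx⟩
  · exact IntermediateField.subset_adjoin F {c} rfl
  · intro x h h'
    have h1 : eqv (algebraMap F E ⟨x, h⟩) = AdjoinRoot.of (minpoly F c) ⟨x, h⟩ :=
      eqv.commutes ⟨x, h⟩
    have h2 : Ψ₁ (AdjoinRoot.of (minpoly F c) ⟨x, h⟩) = sb e he (Ψ ⟨x, h⟩) :=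
      AdjoinRoot.lift_of hg
    change Ψ₁ (eqv (algebraMap F E ⟨x, h⟩)) = _
    rw [h1, h2]

theorem isAlg_mono {F F' : Subfield ℂ} (h : F ≤ F') {c : ℂ} (hc : IsAlgebraic F c) :
    IsAlgebraic F' c := by
  obtain ⟨p, hp, hpc⟩ := hc
  refine ⟨p.map (Subfield.inclusion h), ?_, ?_⟩
  · rw [Ne, Polynomial.map_eq_zero_iff (Subfield.inclusion h).injective]
    exact hp
  · rw [aeval_def, eval₂_map]
    exact hpc

/-- finitely many algebraic elements -/
theorem ext_tuple {F : Subfield ℂ} (Ψ : F →+* MG) (n : ℕ) : ∀ c : Fin n → ℂ,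
    (∀ i, IsAlgebraic F (c i)) →
    ∃ (e : ℕ) (he : 0 < e) (F' : Subfield ℂ) (Ψ' : F' →+* MG), F ≤ F' ∧ (∀ i, c i ∈ F') ∧
      ∀ (x : ℂ) (h : x ∈ F) (h' : x ∈ F'), Ψ' ⟨x, h'⟩ = sb e he (Ψ ⟨x, h⟩) := by
  induction n with
  | zero =>
    intro c _
    refine ⟨1, one_pos, F, Ψ, le_rfl, fun i => i.elim0, fun x h h' => ?_⟩
    obtain ⟨f, hf, h1⟩ := exists_rep (Ψ ⟨x, h⟩)
    rw [h1, sb_mk, mk_eq]
    exact Eventually.of_forall fun s => by rw [pow_one]
  | succ n ih =>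
    intro c hc
    obtain ⟨e, he, F', Ψ', h1, h2, h3⟩ := ih (fun i => c i.castSucc) fun i => hc _
    obtain ⟨e', he', F'', Ψ'', h4, h5, h6⟩ := ext_step Ψ' (isAlg_mono h1 (hc (Fin.last n)))
    refine ⟨e' * e, Nat.mul_pos he' he, F'', Ψ'', h1.trans h4, fun i => ?_, fun x h h' => ?_⟩
    · refine Fin.lastCases h5 (fun i => h4 (h2 i)) i
    · rw [h6 x (h1 h) h', h3 x h (h1 h), sb_sb]

/-- evaluation of polynomials at germs -/
theorem ev_mv {A : Type} [CommRing A] {τ : Type} (σ : A →+* ℂ) (f : τ → FS) (P : MvPolynomial τ A) :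
    MvPolynomial.eval₂ (cst.comp σ) (fun i => ti (f i)) P =
      ti (MvPolynomial.eval₂ (cstF.comp σ) f P) ∧
    ∀ s, ((MvPolynomial.eval₂ (cstF.comp σ) f P : FS) : ℂ → ℂ) s =
      MvPolynomial.eval₂ σ (fun i => (f i : ℂ → ℂ) s) P := by
  constructor
  · rw [MvPolynomial.eval₂_comp_left]
    rfl
  · intro s
    let evs : FS →+* ℂ := (Pi.evalRingHom (fun _ : ℂ => ℂ) s).comp FS.subtype
    change evs (MvPolynomial.eval₂ (cstF.comp σ) f P) = _
    rw [MvPolynomial.eval₂_comp_left]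
    rfl

/-- the inverse of the parameter is transcendental -/
theorem T_inv_transc {A : Type} [Field A] (σ : A →+* ℂ) {P : A[X]}
    (h : P.eval₂ (cst.comp σ) T⁻¹ = 0) : P = 0 := by
  by_contra hne
  have h1 : T⁻¹ = ti ⟨fun s => s⁻¹, analyticAt_id.meromorphicAt.inv⟩ := mk_inv _
  rw [h1] at h
  have h2 : P.eval₂ (cst.comp σ) (ti ⟨fun s => s⁻¹, analyticAt_id.meromorphicAt.inv⟩) =
      ti (P.eval₂ (cstF.comp σ) ⟨fun s => s⁻¹, analyticAt_id.meromorphicAt.inv⟩) := by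
    rw [hom_eval₂]
    rfl
  rw [h2, ti_zero] at h
  have h3 : ∀ s, ((P.eval₂ (cstF.comp σ) ⟨fun s => s⁻¹, analyticAt_id.meromorphicAt.inv⟩ : FS) :
      ℂ → ℂ) s = P.eval₂ σ s⁻¹ := by
    intro s
    let evs : FS →+* ℂ := (Pi.evalRingHom (fun _ : ℂ => ℂ) s).comp FS.subtype
    change evs (P.eval₂ (cstF.comp σ) ⟨fun s => s⁻¹, analyticAt_id.meromorphicAt.inv⟩) = _
    rw [hom_eval₂]
    rfl
  simp only [h3] at h
  have h4 : (P.map σ) ≠ 0 := (Polynomial.map_ne_zero_iff σ.injective).2 hne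
  obtain ⟨ε, hε, h5⟩ := ev_iff.1 h
  apply h4
  refine eq_zero_of_infinite_isRoot _ ?_
  have h6 : Set.Infinite (Set.range fun n : ℕ => ((n : ℂ) + (⌈ε⁻¹⌉₊ + 1 : ℕ))) := by
    refine Set.infinite_range_of_injective fun a b hab => ?_
    simpa using hab
  refine h6.mono ?_
  rintro _ ⟨n, rfl⟩
  have h7 : (n : ℂ) + (⌈ε⁻¹⌉₊ + 1 : ℕ) = ((n + (⌈ε⁻¹⌉₊ + 1) : ℕ) : ℂ) := by push_cast; ring
  have h8 : (0 : ℝ) < ((n + (⌈ε⁻¹⌉₊ + 1) : ℕ) : ℝ) := by positivity
  have h9 : ((n + (⌈ε⁻¹⌉₊ + 1) : ℕ) : ℂ) ≠ 0 := by exact_mod_cast h8.ne'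
  have h10 := h5 (((n + (⌈ε⁻¹⌉₊ + 1) : ℕ) : ℂ))⁻¹ (inv_ne_zero h9) (by
    rw [norm_inv, Complex.norm_natCast]
    rw [inv_lt_comm₀ h8 hε]
    have h11 := Nat.le_ceil ε⁻¹
    push_cast
    have h12 : (0 : ℝ) ≤ n := Nat.cast_nonneg n
    linarith)
  rw [inv_inv] at h10
  change (P.map σ).eval ((n : ℂ) + (⌈ε⁻¹⌉₊ + 1 : ℕ)) = 0
  rw [eval_map, h7]
  exact h10

/-- **a place** -/
theorem place {A : Subfield ℂ} (σ : A →+* ℂ) {n : ℕ} (c : Fin (n + 1) → ℂ)
    (hz : Transcendental A (c 0)) (hc : ∀ i, c i ∈ (MK A).closure {c 0}) :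
    ∃ (e : ℕ) (_ : 0 < e) (X : Fin (n + 1) → MG), X 0 = (T ^ e)⁻¹ ∧
      ∀ P : MvPolynomial (Fin (n + 1)) A,
        MvPolynomial.aeval c P = 0 ↔ MvPolynomial.eval₂ (cst.comp σ) X P = 0 := by
  let φ : A[X] →+* MG := eval₂RingHom (cst.comp σ) T⁻¹
  have hφi : ∀ P, φ P = 0 → P = 0 := fun P hP => T_inv_transc σ hP
  have hφ : nonZeroDivisors A[X] ≤ (nonZeroDivisors MG).comap φ := by
    intro P hP
    rw [Submonoid.mem_comap]
    exact mem_nonZeroDivisors_of_ne_zero fun h => nonZeroDivisors.ne_zero hP (hφi P h)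
  let E := IntermediateField.adjoin A {c 0}
  let eqv : E ≃ₐ[A] RatFunc A := (RatFunc.algEquivOfTranscendental (c 0) hz).symm
  let Ψ₀ : E →+* MG := (RatFunc.liftRingHom φ hφ).comp (eqv : E →+* RatFunc A)
  have hzE : c 0 ∈ E := IntermediateField.subset_adjoin A {c 0} rfl
  have hΨA : ∀ a : A, Ψ₀ (algebraMap A E a) = cst (σ a) := by
    intro a
    change RatFunc.liftRingHom φ hφ (eqv (algebraMap A E a)) = _
    rw [eqv.commutes, RatFunc.algebraMap_eq_C, RatFunc.liftRingHom_C]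
    exact eval₂_C _ _
  have hΨz : Ψ₀ ⟨c 0, hzE⟩ = T⁻¹ := by
    change RatFunc.liftRingHom φ hφ (eqv (IntermediateField.AdjoinSimple.gen A (c 0))) = _
    rw [RatFunc.algEquivOfTranscendental_symm_gen, RatFunc.liftRingHom_X]
    exact eval₂_X _ _
  have halg : ∀ i, IsAlgebraic E.toSubfield (c i) := by
    intro i
    obtain ⟨p, hp, hpc⟩ := mem_cl.1 (hc i)
    have hadj : ∀ x ∈ Algebra.adjoin A {c 0}, x ∈ E := by
      intro x hx
      exact IntermediateField.algebra_adjoin_le_adjoin A {c 0} hx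
    let g : Algebra.adjoin A {c 0} →+* E.toSubfield :=
      { toFun := fun a => ⟨a, hadj a a.2⟩
        map_one' := rfl
        map_mul' := fun _ _ => rfl
        map_zero' := rfl
        map_add' := fun _ _ => rfl }
    refine ⟨p.map g, ?_, ?_⟩
    · rw [Ne, Polynomial.map_eq_zero_iff]
      · exact hp
      · intro a b hab
        apply Subtype.ext
        exact congrArg (fun w : E.toSubfield => (w : ℂ)) hab
    · rw [aeval_def, eval₂_map]
      exact hpc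
  obtain ⟨e, he, F', Ψ', h1, h2, h3⟩ := ext_tuple (F := E.toSubfield) Ψ₀ (n + 1) c halg
  refine ⟨e, he, fun i => Ψ' ⟨c i, h2 i⟩, ?_, fun P => ?_⟩
  · refine (h3 (c 0) hzE (h2 0)).trans ?_
    have h4 := congrArg (sb e he) hΨz
    rw [map_inv₀, sb_T] at h4
    exact h4
  · have hA : ∀ a : A, (a : ℂ) ∈ F' := fun a => h1 (E.algebraMap_mem a)
    let ι : A →+* F' :=
      { toFun := fun a => ⟨a, hA a⟩
        map_one' := rfl
        map_mul' := fun _ _ => rfl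
        map_zero' := rfl
        map_add' := fun _ _ => rfl }
    have h4 : ((MvPolynomial.eval₂ ι (fun i => (⟨c i, h2 i⟩ : F')) P : F') : ℂ) =
        MvPolynomial.aeval c P := by
      have h5 := MvPolynomial.eval₂_comp_left F'.subtype ι (fun i => (⟨c i, h2 i⟩ : F')) P
      exact h5
    have h5 : Ψ' (MvPolynomial.eval₂ ι (fun i => (⟨c i, h2 i⟩ : F')) P) =
        MvPolynomial.eval₂ (cst.comp σ) (fun i => Ψ' ⟨c i, h2 i⟩) P := by
      rw [MvPolynomial.eval₂_comp_left]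
      congr 1
      refine RingHom.ext fun a => ?_
      change Ψ' ⟨a, hA a⟩ = cst (σ a)
      rw [h3 a (E.algebraMap_mem a) (hA a)]
      have h6 := congrArg (sb e he) (hΨA a)
      exact h6
    rw [← h5, ← h4, map_eq_zero, ZeroMemClass.coe_eq_zero]

end Pool.Agent.V9h68.Rt
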