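import Pool.Agent.V9h68.Gs6

/-!
Isomorphisms between finitely generated structures over a chain of fields.
-/

set_option autoImplicit false

open MvPolynomial Set Filter

noncomputable section

namespace Pool.Agent.V9h68

open Pool.Agent.Y776 Pool.Agent.Y685
open Pool.Agent.TH813.Rel (MK mem_cl subset_cl rk_le_of_subset_cl cl_add cl_mul cl_inv cl_of_base)

/-- a tuple over a chain of `d` fields -/
structure Sc (K : Subfield ℂ) {p : ℕ} (b : Fin p → ℂ) (d : ℕ) : Prop where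
  ind : ∀ q : Fin p → ℚ, lc b q ∈ K → q = 0
  rk : (MK K).eRk (ET b) ≤ (p + d : ℕ)
  chn : ∃ L, Chn K b d L

/-- an isomorphism of two such tuples, with all roots of the exponentials -/
structure Wc (K : Subfield ℂ) {p : ℕ} (b b' : Fin p → ℂ) (d : ℕ) (σ : ℂ ≃+* ℂ) : Prop where
  src : Sc K b d
  tgt : Sc K b' d
  fix : ∀ c ∈ K, σ c = c
  map : ∀ i, σ (b i) = b' i
  exp : ∀ r : Fin p → ℚ, σ (Complex.exp (lc b r)) = Complex.exp (lc b' r)

/-- the space spanned by the tuple over the field -/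
def Vs (K : Subfield ℂ) {p : ℕ} (b : Fin p → ℂ) : Set ℂ := {z | ∃ q : Fin p → ℚ, z - lc b q ∈ K}

/-- the bundled structures -/
structure Wt (K : Subfield ℂ) where
  /-- the length -/
  p : ℕ
  /-- the dimension -/
  d : ℕ
  /-- the tuple -/
  b : Fin p → ℂ
  /-- the other tuple -/
  b' : Fin p → ℂ
  /-- the isomorphism -/
  σ : ℂ ≃+* ℂ
  /-- the properties -/
  wc : Wc K b b' d σ

/-- the domain -/
def Wt.V {K : Subfield ℂ} (w : Wt K) : Set ℂ := Vs K w.b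

/-- extensions -/
def Wt.Le {K : Subfield ℂ} (w w1 : Wt K) : Prop := w.V ⊆ w1.V ∧ ∀ z ∈ w.V, w1.σ z = w.σ z

theorem Wt.Le.trans {K : Subfield ℂ} {w w1 w2 : Wt K} (h : w.Le w1) (h' : w1.Le w2) : w.Le w2 :=
  ⟨h.1.trans h'.1, fun z hz => (h'.2 z (h.1 hz)).trans (h.2 z hz)⟩

theorem Wt.Le.refl {K : Subfield ℂ} (w : Wt K) : w.Le w := ⟨subset_rfl, fun _ _ => rfl⟩

theorem symm_fix {K : Subfield ℂ} {σ : ℂ ≃+* ℂ} (h : ∀ c ∈ K, σ c = c) : ∀ c ∈ K, σ.symm c = c := by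
  intro c hc
  rw [RingEquiv.symm_apply_eq, h c hc]

/-- the inverse -/
def Wt.symm {K : Subfield ℂ} (w : Wt K) : Wt K where
  p := w.p
  d := w.d
  b := w.b'
  b' := w.b
  σ := w.σ.symm
  wc :=
    { src := w.wc.tgt
      tgt := w.wc.src
      fix := symm_fix w.wc.fix
      map := fun i => by rw [RingEquiv.symm_apply_eq, w.wc.map]
      exp := fun r => by rw [RingEquiv.symm_apply_eq, w.wc.exp] }

section Basic

variable {K : Subfield ℂ}

theorem lc_app {p n : ℕ} (b : Fin p → ℂ) (x : Fin n → ℂ) (q : Fin p → ℚ) :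
    lc (Fin.append b x) (Fin.append q (0 : Fin n → ℚ)) = lc b q := by
  rw [lc_append]
  simp only [Fin.append_left, Fin.append_right]
  have h6 : lc x (fun i => (0 : Fin n → ℚ) i) = 0 := lc_zero x
  rw [h6, add_zero]

theorem lc_mapσ {p : ℕ} {b b' : Fin p → ℂ} {σ : ℂ ≃+* ℂ} (h : ∀ i, σ (b i) = b' i)
    (q : Fin p → ℚ) : σ (lc b q) = lc b' q := by
  have h2 := lc_map (σ : ℂ →+* ℂ) b q
  have h3 : (fun i => (σ : ℂ →+* ℂ) (b i)) = b' := funext h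
  rw [h3] at h2
  exact h2

theorem Vs_base {p : ℕ} (b : Fin p → ℂ) {z : ℂ} (hz : z ∈ K) : z ∈ Vs K b :=
  ⟨0, by rw [lc_zero, sub_zero]; exact hz⟩

theorem Vs_mem {p : ℕ} (b : Fin p → ℂ) (i : Fin p) : b i ∈ Vs K b :=
  ⟨Pi.single i 1, by rw [lc_single, one_smul, sub_self]; exact K.zero_mem⟩

theorem Vs_add {p : ℕ} {b : Fin p → ℂ} {z w : ℂ} (hz : z ∈ Vs K b) (hw : w ∈ Vs K b) :
    z + w ∈ Vs K b := by
  obtain ⟨q, hq⟩ := hz
  obtain ⟨r, hr⟩ := hw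
  refine ⟨q + r, ?_⟩
  rw [lc_add]
  have := K.add_mem hq hr
  convert this using 1
  ring

theorem Vs_smul {p : ℕ} {b : Fin p → ℂ} {z : ℂ} (t : ℚ) (hz : z ∈ Vs K b) : t • z ∈ Vs K b := by
  obtain ⟨q, hq⟩ := hz
  refine ⟨t • q, ?_⟩
  rw [lc_smul, ← smul_sub]
  exact SubfieldClass.qsmul_mem K t hq

theorem Vs_neg {p : ℕ} {b : Fin p → ℂ} {z : ℂ} (hz : z ∈ Vs K b) : -z ∈ Vs K b := by
  have := Vs_smul (-1) hz
  rwa [neg_smul, one_smul] at this

theorem Vs_lc {p n : ℕ} {b : Fin p → ℂ} {x : Fin n → ℂ} (hx : ∀ i, x i ∈ Vs K b) (q : Fin n → ℚ) :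
    lc x q ∈ Vs K b := by
  classical
  unfold lc
  refine Finset.sum_induction _ (· ∈ Vs K b) (fun _ _ => Vs_add) (Vs_base b K.zero_mem) ?_
  exact fun i _ => Vs_smul _ (hx i)

theorem Vs_sub_append {p n : ℕ} {b : Fin p → ℂ} (x : Fin n → ℂ) :
    Vs K b ⊆ Vs K (Fin.append b x) := by
  rintro z ⟨q, hq⟩
  exact ⟨Fin.append q 0, by rw [lc_app]; exact hq⟩

theorem Vs_append_right {p n : ℕ} {b : Fin p → ℂ} (x : Fin n → ℂ) (i : Fin n) :
    x i ∈ Vs K (Fin.append b x) := by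
  have := Vs_mem (K := K) (Fin.append b x) (Fin.natAdd p i)
  rwa [Fin.append_right] at this

theorem Vs_cl (hexp : ∀ x ∈ K, Complex.exp x ∈ K) {p : ℕ} {b : Fin p → ℂ} {z : ℂ}
    (hz : z ∈ Vs K b) : z ∈ (MK K).closure (ET b) ∧ Complex.exp z ∈ (MK K).closure (ET b) := by
  obtain ⟨q, hq⟩ := hz
  exact comb_cl hexp b hq

/-- the isomorphism commutes with exp -/
theorem Wc.cexp (hexp : ∀ x ∈ K, Complex.exp x ∈ K) {p : ℕ} {b b' : Fin p → ℂ} {d : ℕ}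
    {σ : ℂ ≃+* ℂ} (h : Wc K b b' d σ) {z : ℂ} (hz : z ∈ Vs K b) :
    σ (Complex.exp z) = Complex.exp (σ z) := by
  obtain ⟨q, hq⟩ := hz
  have h1 : z = (z - lc b q) + lc b q := by ring
  rw [h1, Complex.exp_add, map_mul, map_add, Complex.exp_add, h.fix _ hq, h.fix _ (hexp _ hq),
    h.exp, lc_mapσ h.map]

theorem Wc.mapV {p : ℕ} {b b' : Fin p → ℂ} {d : ℕ}
    {σ : ℂ ≃+* ℂ} (h : Wc K b b' d σ) {z : ℂ} (hz : z ∈ Vs K b) : σ z ∈ Vs K b' := by
  obtain ⟨q, hq⟩ := hz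
  refine ⟨q, ?_⟩
  rw [← lc_mapσ h.map, ← map_sub, h.fix _ hq]
  exact hq

/-- transport -/
theorem ind_map {p : ℕ} {a a' : Fin p → ℂ} {σ : ℂ ≃+* ℂ} (hσK : ∀ c ∈ K, σ c = c)
    (hσ : ∀ i, σ (a i) = a' i) (h : ∀ q : Fin p → ℚ, lc a q ∈ K → q = 0) :
    ∀ q : Fin p → ℚ, lc a' q ∈ K → q = 0 := by
  intro q hq
  apply h
  have h1 : σ (lc a q) = σ (lc a' q) := by
    rw [hσK _ hq, lc_mapσ hσ]
  rw [σ.injective h1]
  exact hq

theorem rk_map {p : ℕ} {a a' : Fin p → ℂ} {σ : ℂ ≃+* ℂ} (hσK : ∀ c ∈ K, σ c = c)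
    (hσ : ∀ i, σ (a i) = a' i) (hσe : ∀ i, σ (Complex.exp (a i)) = Complex.exp (a' i)) {m : ℕ}
    (h : (MK K).eRk (ET a) ≤ m) : (MK K).eRk (ET a') ≤ m := by
  have h1 := rk_hom (θ := (σ : ℂ →+* ℂ)) (K := K) (K' := K) (fun w hw => by
    change σ w ∈ K
    rw [hσK w hw]
    exact hw) (ET a)
  rw [image_ET hσ hσe] at h1
  exact h1.trans h

/-- exponentials are not in the field -/
theorem exp_ind (hK : GF K) {p : ℕ} {a : Fin p → ℂ} (h : ∀ q : Fin p → ℚ, lc a q ∈ K → q = 0)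
    (r : Fin p → ℚ) (hr : Complex.exp (lc a r) ∈ K) : r = 0 := by
  by_contra hne
  have hu : lc a r ∉ K := fun hh => hne (h r hh)
  have h1 := hK.rk 1 (fun _ => lc a r) one_pos (by
    intro q hq
    rw [Fin.sum_univ_one] at hq
    by_contra hq0
    have hq1 : q 0 ≠ 0 := by
      intro h0
      apply hq0
      funext i
      rw [Subsingleton.elim i 0]
      exact h0
    apply hu
    have h2 := SubfieldClass.qsmul_mem K (q 0)⁻¹ hq
    rwa [smul_smul, inv_mul_cancel₀ hq1, one_smul] at h2)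
  have h2 : ET (fun _ : Fin 1 => lc a r) ⊆ (MK K).closure {lc a r} := by
    rintro _ (⟨i, rfl⟩ | ⟨i, rfl⟩)
    · exact subset_cl _ rfl
    · exact cl_of_base (k := K) _ (⟨_, hr⟩ : K)
  have h3 := (rk_le_of_subset_cl h2).trans ((MK K).eRk_le_encard _)
  rw [Set.encard_singleton] at h3
  have h4 := h1.trans h3
  norm_cast at h4

/-- no fields: the tuple is empty -/
theorem Sc.zero (hK : GF K) {p : ℕ} {b : Fin p → ℂ} (h : Sc K b 0) : p = 0 := by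
  by_contra hne
  have h1 := hK.rk p b (Nat.pos_of_ne_zero hne) h.ind
  have h2 := h1.trans h.rk
  norm_cast at h2
  omega

theorem Sc.low {p d : ℕ} {b : Fin p → ℂ} (h : Sc K b d) (hd : 0 < d) {a : ℕ}
    (ha : (MK K).eRk (ET b) ≤ a) : p + d ≤ a := by
  obtain ⟨L, hL⟩ := h.chn
  exact hL.low hd h.ind ha

end Basic

/-- the start -/
def Wt.nil {K : Subfield ℂ} (hK : GD K) : Wt K where
  p := 0
  d := 0
  b := Fin.elim0
  b' := Fin.elim0
  σ := RingEquiv.refl ℂ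
  wc := by
    have h : Sc K (Fin.elim0 : Fin 0 → ℂ) 0 := by
      refine ⟨fun q _ => Subsingleton.elim _ _, ?_, ⟨fun _ => K, rfl, fun _ => le_rfl, fun _ => hK,
        fun i hi => absurd hi (Nat.not_lt_zero i)⟩⟩
      have : ET (Fin.elim0 : Fin 0 → ℂ) = ∅ := by
        unfold ET
        rw [Set.range_eq_empty, Set.range_eq_empty, Set.union_empty]
      rw [this, Matroid.eRk_empty]
      exact bot_le
    refine ⟨h, h, fun _ _ => rfl, fun i => i.elim0, fun r => ?_⟩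
    rfl

/-- the extension -/
theorem Wt.mk' {K : Subfield ℂ} (w : Wt K) {n d1 : ℕ} {c c' : Fin n → ℂ}
    (h1 : Sc K (Fin.append w.b c) d1) (h2 : Sc K (Fin.append w.b' c') d1)
    (h : Iso K (Fin.append w.b c) (Fin.append w.b' c')) :
    ∃ w1 : Wt K, w.Le w1 ∧ (∀ i, c i ∈ w1.V) ∧ (∀ i, w1.σ (c i) = c' i) ∧ w1.p = w.p + n ∧
      w1.d = d1 := by
  obtain ⟨σ, hσK, hσa, hσe⟩ := h
  refine ⟨⟨_, _, _, _, σ, ⟨h1, h2, hσK, hσa, hσe⟩⟩, ⟨Vs_sub_append c, ?_⟩,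
    Vs_append_right c, ?_, rfl, rfl⟩
  · rintro z ⟨q, hq⟩
    have e : z = (z - lc w.b q) + lc w.b q := by ring
    rw [e, map_add, map_add, hσK _ hq, w.wc.fix _ hq, lc_mapσ w.wc.map]
    congr 1
    have h3 := lc_mapσ hσa (Fin.append q 0)
    rw [lc_app, lc_app] at h3
    exact h3
  · intro i
    have h3 := hσa (Fin.natAdd w.p i)
    rw [Fin.append_right, Fin.append_right] at h3
    exact h3

end Pool.Agent.V9h68
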