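import Pool.Agent.V9h68.Ld
import Pool.Agent.V9h68.Wn1

/-!
Linear disjointness over several independent elements, and the transport of relations to a larger
base field.
-/

set_option autoImplicit false

open MvPolynomial Set Filter

noncomputable section

namespace Pool.Agent.V9h68

open Pool.Agent.Y776 Pool.Agent.Y685
open Pool.Agent.TH813.Rel (MK mem_cl subset_cl rk_le_of_subset_cl cl_add cl_mul cl_inv cl_of_base)

/-- closed fields -/
theorem clF_alg' {k : Type} [Field k] [Algebra k ℂ] (S : Set ℂ) (x : ℂ)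
    (hx : IsAlgebraic (clF k S) x) : x ∈ clF k S := by
  obtain ⟨p, hp, hpz⟩ := hx
  refine cl_root (f := p.map (algebraMap (clF k S) ℂ)) ?_ ?_ ?_
  · rw [Ne, Polynomial.map_eq_zero_iff (algebraMap (clF k S) ℂ).injective]
    exact hp
  · intro i
    rw [Polynomial.coeff_map]
    exact (p.coeff i).2
  · rw [Polynomial.eval_map_algebraMap]
    exact hpz

/-- independence over a tower -/
theorem indep_tower {A B : Subfield ℂ} (hAB : A ≤ B) {I T : Set ℂ} (hI : (MK A).Indep I)
    (hIB : I ⊆ B) (hT : (MK B).Indep T) :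
    AlgebraicIndependent A (Sum.elim (fun t : T => (t : ℂ)) (fun i : I => (i : ℂ))) := by
  let _ : Algebra A B := (Subfield.inclusion hAB).toAlgebra
  have : IsScalarTower A B ℂ := IsScalarTower.of_algebraMap_eq fun x => rfl
  have h1 : AlgebraicIndependent A (fun i : I => (i : ℂ)) := hI
  have h2 : AlgebraicIndependent B (fun t : T => (t : ℂ)) := hT
  refine h1.sumElim_of_tower (S := B) ?_ h2
  rintro _ ⟨i, rfl⟩
  exact ⟨⟨i, hIB i.2⟩, rfl⟩

/-- **linear disjointness** -/
theorem lin_disj' {A B : Subfield ℂ} (hA : ∀ x, IsAlgebraic A x → x ∈ A)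
    (hB : ∀ x, IsAlgebraic B x → x ∈ B) (hAB : A ≤ B) {T : Set ℂ} (hT : (MK B).Indep T) {n : ℕ}
    {f : Fin n → ℂ} (hf : ∀ i, f i ∈ (MK A).closure T)
    (hind : ∀ β : Fin n → ℂ, (∀ i, β i ∈ A) → ∑ i, β i * f i = 0 → β = 0)
    {β : Fin n → ℂ} (hβ : ∀ i, β i ∈ B) (hβ0 : ∑ i, β i * f i = 0) : β = 0 := by
  classical
  -- induction on the size of the support
  have key : ∀ (m : ℕ) (β : Fin n → ℂ), (Finset.univ.filter fun i => β i ≠ 0).card = m →
      (∀ i, β i ∈ B) → ∑ i, β i * f i = 0 → β = 0 := by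
    intro m
    induction m using Nat.strong_induction_on with
    | _ m ih =>
      intro β hm hβ hβ0
      by_contra hne
      obtain ⟨i₀, hi₀⟩ : ∃ i, β i ≠ 0 := by
        by_contra hcon
        push Not at hcon
        exact hne (funext hcon)
      -- normalize
      let γ : Fin n → ℂ := fun i => (β i₀)⁻¹ * β i
      have hγB : ∀ i, γ i ∈ B := fun i => mul_mem (inv_mem (hβ i₀)) (hβ i)
      have hγ1 : γ i₀ = 1 := inv_mul_cancel₀ hi₀
      have hγ0 : ∑ i, γ i * f i = 0 := by
        have : ∑ i, γ i * f i = (β i₀)⁻¹ * ∑ i, β i * f i := by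
          rw [Finset.mul_sum]
          refine Finset.sum_congr rfl fun i _ => ?_
          rw [mul_assoc]
        rw [this, hβ0, mul_zero]
      by_cases hγA : ∀ i, γ i ∈ A
      · have := congrFun (hind γ hγA hγ0) i₀
        rw [hγ1] at this
        exact one_ne_zero this
      push Not at hγA
      obtain ⟨i₁, hi₁⟩ := hγA
      -- a derivation of `B`
      have hI₀ : (MK A).Indep {γ i₁} := by
        have h1 : AlgebraicIndependent A (fun _ : Unit => γ i₁) := by
          rw [algebraicIndependent_unique_type_iff]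
          exact fun h => hi₁ (hA _ h)
        have h2 := h1.coe_range
        have h3 : range (fun _ : Unit => γ i₁) = {γ i₁} := Set.range_const
        rw [h3] at h2
        exact h2
      obtain ⟨I, hI, hiI⟩ := hI₀.subset_isBasis_of_subset (X := (B : Set ℂ))
        (Set.singleton_subset_iff.2 (hγB i₁)) (Set.subset_univ _)
      obtain ⟨D, hDA, hD⟩ := exists_derA (indep_tower hAB hI.indep hI.subset hT)
        (Sum.elim (fun _ => 0) fun i => if (i : ℂ) = γ i₁ then 1 else 0)
      have hγI : γ i₁ ∈ I := hiI rfl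
      have hDT : ∀ t ∈ T, D t = 0 := fun t ht => hD (Sum.inl ⟨t, ht⟩)
      have hDI' : ∀ s ∈ I, D s = if s = γ i₁ then 1 else 0 := fun s hs => hD (Sum.inr ⟨s, hs⟩)
      have hDγ : D (γ i₁) = 1 := by
        rw [hDI' _ hγI, if_pos rfl]
      have hDI : ∀ s ∈ I, D s ∈ B := by
        intro s hs
        rw [hDI' s hs]
        split_ifs
        · exact B.one_mem
        · exact B.zero_mem
      have hDB : ∀ x ∈ B, D x ∈ B := fun x hx =>
        der_stable hB hAB hDA hI.subset hDI (hI.subset_closure hx)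
      have hDf : ∀ i, D (f i) = 0 := fun i => der_kill hDA (S := T) hDT (hf i)
      have hrel : ∑ i, D (γ i) * f i = 0 := by
        have h1 := congrArg D hγ0
        rw [map_sum, map_zero] at h1
        rw [← h1]
        refine Finset.sum_congr rfl fun i _ => ?_
        have e1 : ∀ g : ℂ, D (g * f i) = D g * f i := by
          intro g
          rw [Derivation.leibniz, hDf i, smul_zero, zero_add, smul_eq_mul, mul_comm]
        exact (e1 _).symm
      have hlt : (Finset.univ.filter fun i => D (γ i) ≠ 0).card < m := by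
        rw [← hm]
        refine Finset.card_lt_card ⟨?_, ?_⟩
        · intro i hi
          rw [Finset.mem_filter] at hi ⊢
          refine ⟨Finset.mem_univ _, fun h0 => hi.2 ?_⟩
          have : γ i = 0 := by
            change (β i₀)⁻¹ * β i = 0
            rw [h0, mul_zero]
          rw [this, map_zero]
        · intro hsub
          have h1 : i₀ ∈ Finset.univ.filter fun i => D (γ i) ≠ 0 :=
            hsub (Finset.mem_filter.2 ⟨Finset.mem_univ _, hi₀⟩)
          rw [Finset.mem_filter, hγ1, D.map_one_eq_zero] at h1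
          exact h1.2 rfl
      have h1 := ih _ hlt (fun i => D (γ i)) rfl (fun i => hDB _ (hγB i)) hrel
      have h2 : D (γ i₁) = 0 := congrFun h1 i₁
      rw [hDγ] at h2
      exact one_ne_zero h2
  exact key _ β rfl hβ hβ0

/-- a linear relation over a closed field which comes from nonstandard rational coefficients -/
theorem rel_star' {A B : Subfield ℂ} (hA : ∀ x, IsAlgebraic A x → x ∈ A)
    (hB : ∀ x, IsAlgebraic B x → x ∈ B) {ρ : ℂ ≃+* ℂ} (hρ : ∀ a ∈ A, ρ a ∈ B) {T : Set ℂ}
    (hT : (MK B).Indep (ρ '' T)) {n : ℕ} {c : Fin n → ℂ} (hc : ∀ i, c i ∈ (MK A).closure T) :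
    ∃ (s : ℕ) (m : Fin n → Fin s → A),
      (∀ q : Fin n → ℚ, (∀ j, ∑ l, (q l : ℂ) * m l j = 0) → lc c q ∈ A) ∧
      ∀ Q : Fin n → ℂ, (∀ l, Q l ∈ B) → ∑ l, Q l * ρ (c l) ∈ B →
        ∀ j, ∑ l, Q l * ρ (m l j) = 0 := by
  classical
  let U : Submodule A ℂ :=
    { carrier := A
      add_mem' := A.add_mem
      zero_mem' := A.zero_mem
      smul_mem' := fun a x hx => A.mul_mem a.2 hx }
  obtain ⟨s, ι, h1, h2⟩ := exists_basis_mod' U c
  choose m hm using h2
  have hm' : ∀ i, c i - ∑ j, (m i j : ℂ) * c (ι j) ∈ A := hm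
  refine ⟨s, m, fun q hq => ?_, fun Q hQ hQr j => ?_⟩
  · have e : lc c q = ∑ l, (q l : ℂ) * (c l - ∑ j, (m l j : ℂ) * c (ι j)) +
        ∑ j, (∑ l, (q l : ℂ) * m l j) * c (ι j) := by
      simp only [mul_sub, Finset.sum_sub_distrib, Finset.sum_mul, Finset.mul_sum]
      rw [Finset.sum_comm (s := Finset.univ) (t := Finset.univ)
        (f := fun (j : Fin s) (l : Fin n) => (q l : ℂ) * (m l j : ℂ) * c (ι j))]
      have e2 : ∑ l, ∑ j, (q l : ℂ) * ((m l j : ℂ) * c (ι j)) =
          ∑ l, ∑ j, (q l : ℂ) * (m l j : ℂ) * c (ι j) := by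
        refine Finset.sum_congr rfl fun l _ => Finset.sum_congr rfl fun j _ => ?_
        rw [mul_assoc]
      rw [e2, sub_add_cancel]
      unfold lc
      refine Finset.sum_congr rfl fun l _ => ?_
      rw [Rat.smul_def]
    rw [e]
    refine A.add_mem (sum_mem fun l _ => A.mul_mem (SubfieldClass.ratCast_mem A _) (hm' l)) ?_
    have e3 : ∑ j, (∑ l, (q l : ℂ) * m l j) * c (ι j) = 0 :=
      Finset.sum_eq_zero fun j _ => by rw [hq j, zero_mul]
    rw [e3]
    exact A.zero_mem
  · -- the family `1, ρ (c (ι j))`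
    let A₁ : Subfield ℂ := A.map (ρ : ℂ →+* ℂ)
    have hA₁B : A₁ ≤ B := by
      rintro _ ⟨a, ha, rfl⟩
      exact hρ a ha
    have hA₁ : ∀ x, IsAlgebraic A₁ x → x ∈ A₁ := by
      intro x hx
      obtain ⟨p, hp, hpx⟩ := hx
      let g : A₁ →+* A :=
        { toFun := fun y => ⟨ρ.symm y, by
            obtain ⟨a, ha, hay⟩ := Subfield.mem_map.1 y.2
            rw [← hay]
            change ρ.symm (ρ a) ∈ A
            rw [RingEquiv.symm_apply_apply]
            exact ha⟩
          map_one' := Subtype.ext (map_one ρ.symm)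
          map_mul' := fun a b => Subtype.ext (map_mul ρ.symm (a : ℂ) b)
          map_zero' := Subtype.ext (map_zero ρ.symm)
          map_add' := fun a b => Subtype.ext (map_add ρ.symm (a : ℂ) b) }
      have h3 : ρ.symm x ∈ A := by
        apply hA
        refine ⟨p.map g, ?_, ?_⟩
        · rw [Ne, Polynomial.map_eq_zero_iff g.injective]
          exact hp
        · rw [Polynomial.aeval_def, Polynomial.eval₂_map]
          have h4 := Polynomial.hom_eval₂ p (algebraMap A₁ ℂ) (ρ.symm : ℂ →+* ℂ) x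
          rw [Polynomial.aeval_def] at hpx
          rw [hpx, map_zero] at h4
          exact h4.symm
      exact Subfield.mem_map.2 ⟨ρ.symm x, h3, ρ.apply_symm_apply x⟩
    let f : Fin (s + 1) → ℂ := Fin.cons 1 fun j => ρ (c (ι j))
    have hf : ∀ i, f i ∈ (MK A₁).closure (ρ '' T) := by
      intro i
      refine Fin.cases ?_ (fun j => ?_) i
      · exact cl_one _
      · exact cl_hom (θ := (ρ : ℂ →+* ℂ)) (K := A) (K' := A₁) (fun a ha =>
          Subfield.mem_map.2 ⟨a, ha, rfl⟩) (hc (ι j))
    have hind : ∀ β : Fin (s + 1) → ℂ, (∀ i, β i ∈ A₁) → ∑ i, β i * f i = 0 → β = 0 := by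
      intro β hβ hβ0
      choose α hα hαβ using fun i => Subfield.mem_map.1 (hβ i)
      have hαβ' : ∀ i, ρ (α i) = β i := hαβ
      have h3 : ρ (α 0 + ∑ j : Fin s, α j.succ * c (ι j)) = 0 := by
        rw [← hβ0, Fin.sum_univ_succ, map_add, map_sum]
        simp only [f, Fin.cons_zero, Fin.cons_succ, mul_one, map_mul, hαβ']
      have h4 := (map_eq_zero ρ).1 h3
      have h5 : ∑ j : Fin s, α j.succ * c (ι j) ∈ A := by
        rw [eq_neg_of_add_eq_zero_right h4]
        exact A.neg_mem (hα 0)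
      have h6 := h1 (fun j => ⟨α j.succ, hα _⟩) h5
      have h7 : ∀ j : Fin s, α j.succ = 0 := fun j =>
        congrArg Subtype.val (congrFun h6 j)
      have h8 : α 0 = 0 := by
        simp only [h7, zero_mul, Finset.sum_const_zero, add_zero] at h4
        exact h4
      funext i
      rw [← hαβ' i]
      refine Fin.cases ?_ (fun j => ?_) i
      · rw [h8, map_zero]
        rfl
      · rw [h7, map_zero]
        rfl
    -- the relation
    let κ : ℂ := ∑ l, Q l * ρ (c l) - ∑ l, Q l * ρ (c l - ∑ j, (m l j : ℂ) * c (ι j))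
    have hκ : κ ∈ B := B.sub_mem hQr (sum_mem fun l _ => B.mul_mem (hQ l) (hρ _ (hm' l)))
    have hrel : ∑ j, (∑ l, Q l * ρ (m l j)) * ρ (c (ι j)) = κ := by
      simp only [κ]
      rw [← Finset.sum_sub_distrib]
      simp only [Finset.sum_mul]
      rw [Finset.sum_comm]
      refine Finset.sum_congr rfl fun l _ => ?_
      rw [map_sub, map_sum, mul_sub, sub_sub_cancel, Finset.mul_sum]
      refine Finset.sum_congr rfl fun j _ => ?_
      rw [map_mul, mul_assoc]
    have h9 := lin_disj' (A := A₁) (B := B) hA₁ hB hA₁B hT hf hind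
      (β := Fin.cons (-κ) fun j => ∑ l, Q l * ρ (m l j)) (by
        intro i
        refine Fin.cases ?_ (fun j => ?_) i
        · exact B.neg_mem hκ
        · change ∑ l, Q l * ρ (m l j) ∈ B
          exact sum_mem fun l _ => B.mul_mem (hQ l) (hρ _ (m l j).2)) (by
        rw [Fin.sum_univ_succ]
        simp only [f, Fin.cons_zero, Fin.cons_succ, mul_one]
        rw [hrel, neg_add_cancel])
    exact congrFun h9 j.succ

/-- **the relations over a larger field follow from the relations over a closed field**, if the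
rank does not drop -/
theorem rel_base {A₀ A : Subfield ℂ} (hA₀ : ∀ x, IsAlgebraic A₀ x → x ∈ A₀)
    (hA : ∀ x, IsAlgebraic A x → x ∈ A) (hle : A₀ ≤ A) {ι : Type} {u : ι → ℂ} {T : Set ℂ}
    (hT : (MK A).Indep T) (hu : ∀ i, u i ∈ (MK A₀).closure T) {τ : A →+* ℂ} {v : ι → ℂ}
    (hv : ∀ g : MvPolynomial ι A₀, aeval u g = 0 →
      eval₂ (τ.comp (Subfield.inclusion hle)) v g = 0)
    (f : MvPolynomial ι A) (hf : aeval u f = 0) : eval₂ τ v f = 0 := by
  classical
  let e := f.support.equivFin.symm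
  let r := f.support.card
  let mo : Fin r → (ι →₀ ℕ) := fun l => (e l : ι →₀ ℕ)
  let co : Fin r → A := fun l => f.coeff (mo l)
  let c : Fin r → ℂ := fun l => ∏ i ∈ (mo l).support, u i ^ (mo l) i
  let w : Fin r → ℂ := fun l => ∏ i ∈ (mo l).support, v i ^ (mo l) i
  have hsum : ∀ F : (ι →₀ ℕ) → ℂ, ∑ l, F (mo l) = ∑ d ∈ f.support, F d := by
    intro F
    rw [← Finset.sum_coe_sort f.support F]
    exact Equiv.sum_comp e (fun d : f.support => F d)
  have hfc : ∑ l, (co l : ℂ) * c l = 0 := by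
    rw [← hf, aeval_def, eval₂_eq]
    exact hsum fun d => ((f.coeff d : A) : ℂ) * ∏ i ∈ d.support, u i ^ d i
  have hfv : ∑ l, τ (co l) * w l = eval₂ τ v f := by
    rw [eval₂_eq]
    exact hsum fun d => τ (f.coeff d) * ∏ i ∈ d.support, v i ^ d i
  obtain ⟨s, κ, h1, h2⟩ := exists_basis_mod' (⊥ : Submodule A₀ ℂ) c
  choose m hm using h2
  have hm' : ∀ l, c l = ∑ j, (m l j : ℂ) * c (κ j) := fun l => sub_eq_zero.1 (hm l)
  have hmonu : ∀ d : ι →₀ ℕ, aeval u (monomial d (1 : A₀)) = ∏ i ∈ d.support, u i ^ d i := by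
    intro d
    rw [aeval_monomial, map_one, one_mul]
    rfl
  have hmonv : ∀ d : ι →₀ ℕ, eval₂ (τ.comp (Subfield.inclusion hle)) v (monomial d (1 : A₀)) =
      ∏ i ∈ d.support, v i ^ d i := by
    intro d
    rw [eval₂_monomial, map_one, one_mul]
    rfl
  have hw : ∀ l, w l = ∑ j, τ (Subfield.inclusion hle (m l j)) * w (κ j) := by
    intro l
    have h3 := hv (monomial (mo l) 1 - ∑ j, C (m l j) * monomial (mo (κ j)) 1) (by
      rw [map_sub, map_sum]
      simp only [map_mul, hmonu, aeval_C]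
      rw [sub_eq_zero]
      exact hm' l)
    have h4 : eval₂ (τ.comp (Subfield.inclusion hle)) v
        (monomial (mo l) 1 - ∑ j, C (m l j) * monomial (mo (κ j)) 1) =
        w l - ∑ j, τ (Subfield.inclusion hle (m l j)) * w (κ j) := by
      rw [eval₂_sub, ← coe_eval₂Hom (R := A₀), map_sum]
      simp only [map_mul, coe_eval₂Hom, hmonv, eval₂_C]
      rfl
    rw [h4] at h3
    exact sub_eq_zero.1 h3
  have h5 := lin_disj' hA₀ hA hle hT (f := fun j => c (κ j)) (fun j => by
      refine prod_mem (S := clF A₀ T) fun i _ => pow_mem (hu i) _) (fun β hβ hβ0 => by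
      have h6 := h1 (fun j => ⟨β j, hβ j⟩) ((Submodule.mem_bot _).2 hβ0)
      funext j
      exact congrArg Subtype.val (congrFun h6 j)) (β := fun j => ∑ l, (co l : ℂ) * m l j)
    (fun j => sum_mem fun l _ => A.mul_mem (co l).2 (hle (m l j).2)) (by
      rw [← hfc]
      simp only [Finset.sum_mul]
      rw [Finset.sum_comm]
      refine Finset.sum_congr rfl fun l _ => ?_
      rw [hm' l, Finset.mul_sum]
      refine Finset.sum_congr rfl fun j _ => ?_
      ring)
  rw [← hfv]
  have h7 : ∀ j, ∑ l, τ (co l) * τ (Subfield.inclusion hle (m l j)) = 0 := by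
    intro j
    have h8 : (∑ l, co l * Subfield.inclusion hle (m l j) : A) = 0 := by
      apply Subtype.ext
      have h9 : ∑ l, (co l : ℂ) * m l j = 0 := congrFun h5 j
      refine Eq.trans ?_ h9
      push_cast
      rfl
    rw [← map_zero τ, ← h8, map_sum]
    simp only [map_mul]
  have h10 : ∑ l, τ (co l) * w l =
      ∑ j, (∑ l, τ (co l) * τ (Subfield.inclusion hle (m l j))) * w (κ j) := by
    simp only [Finset.sum_mul]
    rw [Finset.sum_comm]
    refine Finset.sum_congr rfl fun l _ => ?_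
    rw [hw l, Finset.mul_sum]
    refine Finset.sum_congr rfl fun j _ => ?_
    ring
  rw [h10]
  exact Finset.sum_eq_zero fun j _ => by rw [h7 j, zero_mul]

end Pool.Agent.V9h68
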