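import Pool.Agent.V9h68.Wn1

/-!
Extensions of isomorphisms by solutions of dominated systems.
-/

set_option autoImplicit false

open MvPolynomial Set Filter

noncomputable section

namespace Pool.Agent.V9h68

open Pool.Agent.Y776 Pool.Agent.Y685
open Pool.Agent.TH813.Rel (MK mem_cl subset_cl rk_le_of_subset_cl cl_add cl_mul cl_inv cl_of_base)

/-- division by `M` -/
def dvM (M : ℕ) {p : ℕ} (b : Fin p → ℂ) : Fin p → ℂ := fun i => b i / M

section Scale

variable {K : Subfield ℂ} {M : ℕ}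

theorem dvM_append {p n : ℕ} (b : Fin p → ℂ) (c : Fin n → ℂ) :
    Fin.append (dvM M b) (dvM M c) = dvM M (Fin.append b c) := by
  funext l
  refine Fin.addCases (fun i => ?_) (fun i => ?_) l
  · rw [Fin.append_left]
    unfold dvM
    rw [Fin.append_left]
  · rw [Fin.append_right]
    unfold dvM
    rw [Fin.append_right]

theorem lc_dvM {p : ℕ} (b : Fin p → ℂ) (q : Fin p → ℚ) :
    lc (dvM M b) q = (M : ℚ)⁻¹ • lc b q := by
  unfold lc dvM
  rw [Finset.smul_sum]
  refine Finset.sum_congr rfl fun i _ => ?_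
  rw [Rat.smul_def, Rat.smul_def, Rat.smul_def]
  push_cast
  ring

theorem lc_dvM_mem (hM : 0 < M) {L : Subfield ℂ} {p : ℕ} (b : Fin p → ℂ) (q : Fin p → ℚ) :
    lc (dvM M b) q ∈ L ↔ lc b q ∈ L := by
  rw [lc_dvM]
  constructor
  · intro h
    have h1 := SubfieldClass.qsmul_mem L (M : ℚ) h
    rwa [smul_smul, mul_inv_cancel₀ (by exact_mod_cast hM.ne'), one_smul] at h1
  · exact fun h => SubfieldClass.qsmul_mem L _ h

theorem ET_dvM {p : ℕ} (b : Fin p → ℂ) :
    ET (dvM M b) ⊆ (MK K).closure (ET b) := by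
  have h1 : ∀ i, dvM M b i = lc b (Pi.single i (M : ℚ)⁻¹) := by
    intro i
    rw [lc_single, Rat.smul_def]
    unfold dvM
    push_cast
    ring
  rintro _ (⟨i, rfl⟩ | ⟨i, rfl⟩)
  · rw [h1]
    exact (sum_cl b _).1
  · simp only [h1]
    exact (sum_cl b _).2

theorem Chn.dvM (hM : 0 < M) {p d : ℕ} {b : Fin p → ℂ} {L : ℕ → Subfield ℂ} (h : Chn K b d L) :
    Chn K (dvM M b) d L := by
  refine ⟨h.zero, h.mono, h.gd, fun i hi => ?_⟩
  obtain ⟨q, h1, h2⟩ := h.str i hi
  refine ⟨q, ?_, fun hh => ?_⟩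
  · rw [lc_dvM_mem hM]; exact h1
  · rw [lc_dvM_mem hM]; exact h2 hh

theorem Sc.dvM (hM : 0 < M) {p d : ℕ} {b : Fin p → ℂ} (h : Sc K b d) : Sc K (dvM M b) d := by
  obtain ⟨L, hL⟩ := h.chn
  exact ⟨fun q hq => h.ind q ((lc_dvM_mem hM b q).1 hq),
    (rk_le_of_subset_cl (ET_dvM b)).trans h.rk, L, hL.dvM hM⟩

/-- the two kinds of equality of types -/
theorem Wc.lv (_hM : 0 < M) {p d : ℕ} {b b' : Fin p → ℂ} {σ : ℂ ≃+* ℂ} (h : Wc K b b' d σ) :
    Lv K (dvM M b) (dvM M b') := by
  refine ⟨σ, h.fix, fun i => ?_, fun i => ?_⟩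
  · unfold V9h68.dvM
    rw [map_div₀, map_natCast, h.map]
  · have h1 : ∀ a : Fin p → ℂ, V9h68.dvM M a i = lc a (Pi.single i (M : ℚ)⁻¹) := by
      intro a
      rw [lc_single, Rat.smul_def]
      unfold V9h68.dvM
      push_cast
      ring
    rw [h1, h1, h.exp]

theorem liso_of_lv (hM : 0 < M) {p : ℕ} {a a' : Fin p → ℂ} (h : Lv K (dvM M a) (dvM M a')) :
    LIso K M a a' := by
  obtain ⟨σ, h1, h2, h3⟩ := h
  have hM0 : (M : ℂ) ≠ 0 := by exact_mod_cast hM.ne'
  refine ⟨σ, h1, fun i => ?_, h3⟩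
  have h4 := h2 i
  unfold dvM at h4
  rw [map_div₀, map_natCast, div_left_inj' hM0] at h4
  exact h4

end Scale

/-- independence of the coordinates -/
theorem indep_crit {K : Subfield ℂ} {p n : ℕ} {b : Fin p → ℂ} {c : Fin n → ℂ}
    (h : ∀ i, c i ∉ (MK K).closure (ET b ∪ c '' {i}ᶜ)) :
    AlgebraicIndependent (IntermediateField.adjoin K (range (xp b))) c := by
  classical
  have h1 : AlgebraicIndependent (clF K (ET b)) c := by
    refine algebraicIndependent_of_finite_type' (FaithfulSMul.algebraMap_injective _ _) ?_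
    intro T _ _ j hjT halg
    have h1 : c j ∈ (MK K).closure ((clF K (ET b) : Set ℂ) ∪ c '' {j}ᶜ) := by
      refine (MK K).closure_subset_closure (Set.union_subset_union_right _ ?_)
        (cl_base_change (K := K) (M := clF K (ET b)) ?_ (mem_cl.2 halg))
      · exact Set.image_mono fun i hi h0 => hjT (by rw [Set.mem_singleton_iff] at h0; rwa [← h0])
      · intro z hz
        exact cl_of_base (k := K) (ET b) (⟨z, hz⟩ : K)
    apply h j
    refine cl_sub_of ?_ h1
    refine Set.union_subset ?_ (Set.subset_union_right.trans (subset_cl _))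
    intro z hz
    exact (MK K).closure_subset_closure Set.subset_union_left hz
  refine indep_base (K := IntermediateField.adjoin K (range (xp b))) (K' := clF K (ET b))
    { toFun := fun z => ⟨z, ?_⟩
      map_one' := rfl
      map_mul' := fun _ _ => rfl
      map_zero' := rfl
      map_add' := fun _ _ => rfl } (fun z => rfl) h1
  have h2 : (IntermediateField.adjoin K (range (xp b)) : Set ℂ) ⊆ (MK K).closure (ET b) := by
    apply Pool.Agent.TH813.Rel.adjoin_subset_cl
    rw [range_xp]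
    exact subset_cl _
  exact h2 z.2

/-- extension by an independent solution of a dominated system -/
theorem Wt.dom_ind {K : Subfield ℂ} (hK : GD K) (w : Wt K) {n : ℕ} (c : Fin n → ℂ)
    (hbc : ∀ q : Fin (w.p + n) → ℚ, lc (Fin.append w.b c) q ∈ K → q = 0)
    (hdom : ∀ i, Complex.exp (c i) ∈ (MK K).closure (ET w.b ∪ range c)) :
    ∃ w1 : Wt K, w.Le w1 ∧ ∀ i, c i ∈ w1.V := by
  classical
  have hETc : ET (Fin.append w.b c) ⊆ (MK K).closure (ET w.b ∪ range c) := by
    rintro _ (⟨l, rfl⟩ | ⟨l, rfl⟩)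
    · refine Fin.addCases (fun i => ?_) (fun i => ?_) l
      · rw [Fin.append_left]
        exact subset_cl _ (Or.inl (Or.inl ⟨i, rfl⟩))
      · rw [Fin.append_right]
        exact subset_cl _ (Or.inr ⟨i, rfl⟩)
    · refine Fin.addCases (fun i => ?_) (fun i => ?_) l
      · simp only [Fin.append_left]
        exact subset_cl _ (Or.inl (Or.inr ⟨i, rfl⟩))
      · simp only [Fin.append_right]
        exact hdom i
  have hrc : (MK K).eRk (range c) ≤ (n : ℕ) := by
    refine ((MK K).eRk_le_encard _).trans ?_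
    rw [← Set.image_univ]
    refine (Set.encard_image_le _ _).trans ?_
    rw [Set.encard_univ, ENat.card_eq_coe_fintype_card, Fintype.card_fin]
  have hrk : (MK K).eRk (ET (Fin.append w.b c)) ≤ (w.p + n + w.d : ℕ) := by
    refine (rk_le_of_subset_cl hETc).trans (((MK K).eRk_union_le_eRk_add_eRk _ _).trans ?_)
    refine (add_le_add w.wc.src.rk hrc).trans ?_
    norm_cast
    omega
  obtain ⟨p, d, b, b', σ, wc⟩ := w
  simp only at hbc hdom hETc hrk
  rcases Nat.eq_zero_or_pos d with hd | hd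
  · subst hd
    have hp : p = 0 := wc.src.zero hK.toGF
    rcases Nat.eq_zero_or_pos n with hn | hn
    · subst hn
      exact ⟨_, Wt.Le.refl _, fun i => i.elim0⟩
    · exfalso
      have h1 := hK.rk (p + n) (Fin.append b c) (by omega) hbc
      have h2 := h1.trans hrk
      norm_cast at h2
      omega
  have : Countable K := hK.cnt.to_subtype
  obtain ⟨M, hM, hkum⟩ := kum (a := Fin.append b c) hK.alg (exp_ind hK.toGF hbc)
  obtain ⟨L, hL⟩ := wc.src.chn
  obtain ⟨L', hL'⟩ := wc.tgt.chn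
  have hind' : ∀ q, lc (Fin.append (dvM M b) (dvM M c)) q ∈ K → q = 0 := by
    intro q hq
    rw [dvM_append, lc_dvM_mem hM] at hq
    exact hbc q hq
  have hET2 : ET b ∪ range c ⊆ (MK K).closure (ET (dvM M b) ∪ range (dvM M c)) := by
    have hM0 : (M : ℂ) ≠ 0 := by exact_mod_cast hM.ne'
    rintro _ ((⟨i, rfl⟩ | ⟨i, rfl⟩) | ⟨i, rfl⟩)
    · have h1 : b i = (M : ℚ) • dvM M b i := by
        rw [Rat.smul_def]
        unfold dvM
        push_cast
        field_simp
      rw [h1]
      exact cl_rat _ (subset_cl _ (Or.inl (mem_ET_l _ i)))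
    · have h1 : b i = (M : ℚ) • dvM M b i := by
        rw [Rat.smul_def]
        unfold dvM
        push_cast
        field_simp
      change Complex.exp (b i) ∈ _
      rw [h1]
      exact cl_exp_rat _ (subset_cl _ (Or.inl (mem_ET_r _ i)))
    · have h1 : c i = (M : ℚ) • dvM M c i := by
        rw [Rat.smul_def]
        unfold dvM
        push_cast
        field_simp
      rw [h1]
      exact cl_rat _ (subset_cl _ (Or.inr ⟨i, rfl⟩))
  have hdom' : ∀ i, Complex.exp (dvM M c i) ∈ (MK K).closure (ET (dvM M b) ∪ range (dvM M c)) := by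
    intro i
    have h1 := cl_sub_of hET2 (hdom i)
    have h2 : dvM M c i = (M : ℚ)⁻¹ • c i := by
      rw [Rat.smul_def]
      unfold dvM
      push_cast
      ring
    rw [h2]
    exact cl_exp_rat _ h1
  have hcind : AlgebraicIndependent (IntermediateField.adjoin K (range (xp (dvM M b))))
      (dvM M c) := by
    apply indep_crit
    intro i hi
    have hxcl : ∀ l, dvM M c l ∈ (MK K).closure (ET (dvM M b) ∪ dvM M c '' {i}ᶜ) := by
      intro l
      by_cases hl : l = i
      · rw [hl]; exact hi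
      · exact subset_cl _ (Or.inr ⟨l, hl, rfl⟩)
    have hETcl : ET (Fin.append (dvM M b) (dvM M c)) ⊆
        (MK K).closure (ET (dvM M b) ∪ dvM M c '' {i}ᶜ) := by
      rintro _ (⟨l, rfl⟩ | ⟨l, rfl⟩)
      · refine Fin.addCases (fun i => ?_) (fun i => ?_) l
        · rw [Fin.append_left]
          exact subset_cl _ (Or.inl (Or.inl ⟨i, rfl⟩))
        · rw [Fin.append_right]
          exact hxcl i
      · refine Fin.addCases (fun i => ?_) (fun i => ?_) l
        · simp only [Fin.append_left]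
          exact subset_cl _ (Or.inl (Or.inr ⟨i, rfl⟩))
        · simp only [Fin.append_right]
          refine cl_sub_of ?_ (hdom' i)
          refine Set.union_subset (Set.subset_union_left.trans (subset_cl _)) ?_
          rintro _ ⟨l, rfl⟩
          exact hxcl l
    have h1 := rk_bound' (wc.src.dvM hM).rk hETcl
    have h2 := ((hL.dvM hM).append (dvM M c)).low hd hind' h1
    have hn := i.pos
    omega
  obtain ⟨c'', hc''⟩ := gsecd hK hd (hL'.dvM hM) (wc.src.dvM hM).rk hind' hcind hdom' (wc.lv hM)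
  have hM0 : (M : ℂ) ≠ 0 := by exact_mod_cast hM.ne'
  obtain ⟨c', rfl⟩ : ∃ c' : Fin n → ℂ, c'' = dvM M c' := by
    refine ⟨fun i => M * c'' i, ?_⟩
    funext i
    unfold dvM
    field_simp
  rw [dvM_append, dvM_append] at hc''
  have hiso := hkum _ (liso_of_lv hM hc'')
  have hsrc : Sc K (Fin.append b c) d := ⟨hbc, hrk, L, hL.append c⟩
  have htgt : Sc K (Fin.append b' c') d := by
    obtain ⟨τ, h1, h2, h3⟩ := hiso
    refine ⟨ind_map h1 h2 hbc, rk_map h1 h2 (fun i => ?_) hrk, L', hL'.append c'⟩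
    have h4 := h3 (Pi.single i 1)
    rw [lc_single, lc_single, one_smul, one_smul] at h4
    exact h4
  obtain ⟨w1, h1, h2, -⟩ := Wt.mk' (⟨p, d, b, b', σ, wc⟩ : Wt K) (c := c) (c' := c') hsrc htgt hiso
  exact ⟨w1, h1, h2⟩

/-- a basis modulo a subspace -/
theorem exists_basis_mod (U : Submodule ℚ ℂ) {n : ℕ} (x : Fin n → ℂ) :
    ∃ (s : ℕ) (ι : Fin s → Fin n), (∀ q : Fin s → ℚ, ∑ j, q j • x (ι j) ∈ U → q = 0) ∧
      ∀ i, ∃ q : Fin s → ℚ, x i - ∑ j, q j • x (ι j) ∈ U := by
  classical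
  let y : Fin n → ℂ ⧸ U := fun i => U.mkQ (x i)
  obtain ⟨b, hb1, hb2, hb3⟩ := exists_linearIndependent ℚ (range y)
  have hbf : b.Finite := (Set.finite_range y).subset hb1
  let e := hbf.toFinset.equivFin
  have hbmem : ∀ j : Fin (Finset.card hbf.toFinset), ((e.symm j : ℂ ⧸ U)) ∈ b := fun j =>
    hbf.mem_toFinset.1 (e.symm j).2
  have hι : ∀ j, ∃ i, y i = (e.symm j : ℂ ⧸ U) := fun j => hb1 (hbmem j)
  choose ι hι using hι
  have hind : LinearIndependent ℚ (fun j => y (ι j)) := by
    have h1 := hb3.comp (fun j => (⟨e.symm j, hbmem j⟩ : b)) (by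
      intro j j' hjj
      have h2 := congrArg (fun z : b => (z : ℂ ⧸ U)) hjj
      exact e.symm.injective (Subtype.ext h2))
    have h2 : (fun j => y (ι j)) = Subtype.val ∘ (fun j => (⟨e.symm j, hbmem j⟩ : b)) :=
      funext fun j => hι j
    rw [h2]
    exact h1
  refine ⟨_, ι, ?_, ?_⟩
  · intro r hr
    have h3 : ∑ j, r j • y (ι j) = 0 := by
      have h4 : ∑ j, r j • y (ι j) = U.mkQ (∑ j, r j • x (ι j)) := by
        rw [map_sum]
        simp only [map_smul]
        rfl
      rw [h4, Submodule.mkQ_apply, Submodule.Quotient.mk_eq_zero]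
      exact hr
    exact funext (Fintype.linearIndependent_iff.1 hind r h3)
  · intro i
    have h1 : y i ∈ Submodule.span ℚ (range fun j => y (ι j)) := by
      have h2 : (range fun j => y (ι j)) = b := by
        ext z
        constructor
        · rintro ⟨j, rfl⟩
          show y (ι j) ∈ b
          rw [hι]
          exact hbmem j
        · intro hz
          refine ⟨e ⟨z, hbf.mem_toFinset.2 hz⟩, ?_⟩
          show y (ι _) = z
          rw [hι]
          simp
      rw [h2, hb2]
      exact Submodule.subset_span ⟨i, rfl⟩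
    obtain ⟨q, hq⟩ := (Submodule.mem_span_range_iff_exists_fun ℚ).1 h1
    refine ⟨q, ?_⟩
    rw [← Submodule.Quotient.mk_eq_zero, ← Submodule.mkQ_apply, map_sub, map_sum]
    simp only [map_smul]
    rw [sub_eq_zero]
    exact hq.symm

/-- the space as a subspace -/
def VsM (K : Subfield ℂ) {p : ℕ} (b : Fin p → ℂ) : Submodule ℚ ℂ where
  carrier := Vs K b
  add_mem' := Vs_add
  zero_mem' := Vs_base b K.zero_mem
  smul_mem' := fun t _ h => Vs_smul t h

/-- **extension by a solution of a dominated system** -/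
theorem Wt.dom {K : Subfield ℂ} (hK : GD K) (w : Wt K) {n : ℕ} (x : Fin n → ℂ)
    (hdom : ∀ i, Complex.exp (x i) ∈ (MK K).closure (ET w.b ∪ range x)) :
    ∃ w1 : Wt K, w.Le w1 ∧ ∀ i, x i ∈ w1.V := by
  classical
  obtain ⟨s, ι, h1, h2⟩ := exists_basis_mod (VsM K w.b) x
  have h2' : ∀ i, ∃ q : Fin s → ℚ, x i - lc (fun j => x (ι j)) q ∈ Vs K w.b := h2
  have hxcl : range x ⊆ (MK K).closure (ET w.b ∪ range fun j => x (ι j)) := by
    rintro _ ⟨i, rfl⟩
    obtain ⟨q, hq⟩ := h2' i
    have h3 : x i = (x i - lc (fun j => x (ι j)) q) + lc (fun j => x (ι j)) q := by ring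
    rw [h3]
    refine cl_add ((MK K).closure_subset_closure Set.subset_union_left (Vs_cl hK.exp hq).1) ?_
    have h4 : ∀ j ∈ Finset.univ, q j • x (ι j) ∈ clF K (ET w.b ∪ range fun j => x (ι j)) :=
      fun j _ => cl_rat _ (subset_cl _ (Or.inr ⟨j, rfl⟩))
    exact sum_mem h4
  obtain ⟨w1, hw1, hw2⟩ := w.dom_ind hK (fun j => x (ι j)) (by
    intro q hq
    rw [lc_append] at hq
    have h3 : lc (fun j => x (ι j)) (fun i => q (Fin.natAdd w.p i)) ∈ Vs K w.b := by
      refine ⟨-fun i => q (Fin.castAdd s i), ?_⟩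
      rw [lc_neg, sub_neg_eq_add, add_comm]
      exact hq
    have h4 := h1 _ h3
    rw [h4, lc_zero, add_zero] at hq
    have h5 := w.wc.src.ind _ hq
    funext l
    refine Fin.addCases (fun i => ?_) (fun i => ?_) l
    · exact congrFun h5 i
    · exact congrFun h4 i) (by
    intro j
    refine cl_sub_of ?_ (hdom (ι j))
    exact Set.union_subset (Set.subset_union_left.trans (subset_cl _)) hxcl)
  refine ⟨w1, hw1, fun i => ?_⟩
  obtain ⟨q, hq⟩ := h2' i
  have h3 : x i = (x i - lc (fun j => x (ι j)) q) + lc (fun j => x (ι j)) q := by ring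
  rw [h3]
  exact Vs_add (hw1.1 hq) (Vs_lc hw2 q)

end Pool.Agent.V9h68
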