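import Pool.Agent.V9h68.Sg
import Pool.Agent.V9h68.Wn2

/-!
Generic points of curves.
-/

set_option autoImplicit false

open MvPolynomial Set Filter

noncomputable section

namespace Pool.Agent.V9h68

open Pool.Agent.Y776 Pool.Agent.Y685
open Pool.Agent.TH813.Rel (MK mem_cl subset_cl rk_le_of_subset_cl cl_add cl_mul cl_inv cl_of_base)

theorem Sc.low' {K : Subfield ℂ} {p d : ℕ} {b : Fin p → ℂ} (h : Sc K b d) (hd : 0 < d) :
    ((p + d : ℕ) : ℕ∞) ≤ (MK K).eRk (ET b) := by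
  by_contra hcon
  rw [not_le] at hcon
  have h1 : (MK K).eRk (ET b) ≤ ((p + d - 1 : ℕ) : ℕ∞) := by
    generalize (MK K).eRk (ET b) = e at hcon ⊢
    lift e to ℕ using ne_top_of_lt hcon
    norm_cast at hcon ⊢
    omega
  have h2 := h.low hd h1
  omega

theorem ET_append {p n : ℕ} (b : Fin p → ℂ) (c : Fin n → ℂ) :
    ET (Fin.append b c) = ET b ∪ ET c := by
  ext z
  constructor
  · rintro (⟨l, rfl⟩ | ⟨l, rfl⟩)
    · refine Fin.addCases (fun i => ?_) (fun i => ?_) l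
      · rw [Fin.append_left]
        exact Or.inl (mem_ET_l b i)
      · rw [Fin.append_right]
        exact Or.inr (mem_ET_l c i)
    · refine Fin.addCases (fun i => ?_) (fun i => ?_) l
      · simp only [Fin.append_left]
        exact Or.inl (mem_ET_r b i)
      · simp only [Fin.append_right]
        exact Or.inr (mem_ET_r c i)
  · rintro ((⟨l, rfl⟩ | ⟨l, rfl⟩) | (⟨l, rfl⟩ | ⟨l, rfl⟩))
    · exact Or.inl ⟨Fin.castAdd n l, by rw [Fin.append_left]⟩
    · exact Or.inr ⟨Fin.castAdd n l, by simp only [Fin.append_left]⟩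
    · exact Or.inl ⟨Fin.natAdd p l, by rw [Fin.append_right]⟩
    · exact Or.inr ⟨Fin.natAdd p l, by simp only [Fin.append_right]⟩

theorem range_ep {n : ℕ} (x : Fin n → ℂ) : range (ep x) = ET x := by
  unfold ep ET
  rw [Set.Sum.elim_range]

/-- **Generic points.** -/
theorem gsecc {K : Subfield ℂ} (hK : GD K) {p n d : ℕ} {b b' : Fin p → ℂ} {c : Fin n → ℂ}
    (hb : Sc K b d) (hb' : Sc K b' d) (hd : 0 < d)
    (hbc : ∀ q : Fin (p + n) → ℚ, lc (Fin.append b c) q ∈ K → q = 0)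
    {A : Subfield ℂ} (hAdef : A = clF K (ET b)) [Countable A]
    (hcA : ∀ q : Fin n → ℚ, lc c q ∈ A → q = 0)
    {z₁ : ℂ} (hcz : ∀ i, c i ∈ (MK A).closure {z₁})
    (hz₀rk : (MK K).eRk (ET (Fin.append b c)) ≤ (p + d + n : ℕ))
    {i₁ : Fin n} (hexp : Complex.exp (c i₁) ∈
      (MK A).closure ({z₁} ∪ (fun i => Complex.exp (c i)) '' {i₁}ᶜ))
    {σ : ℂ ≃+* ℂ} (hσK : ∀ c ∈ K, σ c = c) (hσb : ∀ i, σ (b i) = b' i)
    (hσe : ∀ i, σ (Complex.exp (b i)) = Complex.exp (b' i))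
    (hzz : ∀ H : MvPolynomial (Fin n ⊕ Fin n) A, aeval (ep c) H ≠ 0 → ∃ x' : Fin n → ℂ,
      (∀ f : MvPolynomial (Fin n ⊕ Fin n) A, aeval (ep c) f = 0 →
        eval₂ ((σ : ℂ →+* ℂ).comp (algebraMap A ℂ)) (ep x') f = 0) ∧
      eval₂ ((σ : ℂ →+* ℂ).comp (algebraMap A ℂ)) (ep x') H ≠ 0) :
    ∃ (c' : Fin n → ℂ) (σ1 : ℂ ≃+* ℂ), (∀ a ∈ A, σ1 a = σ a) ∧ (∀ i, σ1 (c i) = c' i) ∧
      ∀ i, σ1 (Complex.exp (c i)) = Complex.exp (c' i) := by
  classical
  obtain ⟨L, hL⟩ := hb'.chn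
  let τ : A →+* ℂ := (σ : ℂ →+* ℂ).comp (algebraMap A ℂ)
  -- the sequence
  have hne : Nonempty {H : MvPolynomial (Fin n ⊕ Fin n) A // aeval (ep c) H ≠ 0} :=
    ⟨⟨1, by rw [map_one]; exact one_ne_zero⟩⟩
  have hcount : Countable (MvPolynomial (Fin n ⊕ Fin n) A) := by
    rw [← Cardinal.mk_le_aleph0_iff]
    refine MvPolynomial.cardinalMk_le_max.trans ?_
    simp
  obtain ⟨e, he⟩ := exists_surjective_nat {H : MvPolynomial (Fin n ⊕ Fin n) A // aeval (ep c) H ≠ 0}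
  have hseq : ∀ j : ℕ, ∃ x' : Fin n → ℂ, (∀ f : MvPolynomial (Fin n ⊕ Fin n) A,
      aeval (ep c) f = 0 → eval₂ τ (ep x') f = 0) ∧ ∀ i ≤ j, eval₂ τ (ep x') (e i).1 ≠ 0 := by
    intro j
    obtain ⟨x', h1, h2⟩ := hzz (∏ i ∈ Finset.range (j + 1), (e i).1) (by
        rw [map_prod]
        exact Finset.prod_ne_zero_iff.2 fun i _ => (e i).2)
    refine ⟨x', h1, fun i hi => ?_⟩
    have h4 : eval₂ τ (ep x') (∏ i ∈ Finset.range (j + 1), (e i).1) =
        ∏ i ∈ Finset.range (j + 1), eval₂ τ (ep x') (e i).1 :=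
      map_prod (eval₂Hom τ (ep x')) _ _
    rw [h4] at h2
    exact Finset.prod_ne_zero_iff.1 h2 i (Finset.mem_range.2 (Nat.lt_succ_of_le hi))
  choose x hx1 hx3 using hseq
  by_cases hgen : ∃ j, ∀ H : MvPolynomial (Fin n ⊕ Fin n) A, aeval (ep c) H ≠ 0 →
      eval₂ τ (ep (x j)) H ≠ 0
  · obtain ⟨j, hj⟩ := hgen
    obtain ⟨ρ, hρF, hρx⟩ := aut_tuple (K := A) (ι := Fin n ⊕ Fin n) (algebraMap A ℂ) τ
      (ep c) (ep (x j)) (fun P => ⟨fun h => hx1 j P h, fun h => by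
        by_contra h1
        exact hj P h1 h⟩)
    exact ⟨x j, ρ, fun a ha => hρF ⟨a, ha⟩, fun i => hρx (Sum.inl i), fun i => hρx (Sum.inr i)⟩
  exfalso
  push Not at hgen
  refine gsec_auxc hK hAdef hd hL hb.rk hbc hcA hcz hz₀rk hexp hσK hσb hσe x hx1 ?_ ?_
  · intro H hH
    obtain ⟨i, hi⟩ := he ⟨H, hH⟩
    have h1 : ∀ᶠ j : ℕ in (hyperfilter ℕ : Filter ℕ), i ≤ j := by
      refine (Nat.hyperfilter_le_atTop) ?_
      exact eventually_ge_atTop i
    filter_upwards [h1] with j hj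
    have h2 := hx3 j i hj
    rw [hi] at h2
    exact h2
  · intro j
    by_contra hcon
    push Not at hcon
    obtain ⟨H, hH, hHx⟩ := hgen j
    have hn := i₁.pos
    let v : Fin n ⊕ Fin n → ℂ := fun i => σ.symm (ep (x j) i)
    have hv : ∀ P : MvPolynomial (Fin n ⊕ Fin n) A, σ (aeval v P) = eval₂ τ (ep (x j)) P := by
      intro P
      have h1 := eval₂_comp_left (σ : ℂ →+* ℂ) (algebraMap A ℂ) v P
      have h2 : (σ : ℂ →+* ℂ) ∘ v = ep (x j) := funext fun i => σ.apply_symm_apply _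
      rw [h2] at h1
      exact h1
    have hrkc : (MK A).eRk (range (ep c)) ≤ ((n - 1 + 1 : ℕ) : ℕ∞) := by
      rw [range_ep, hAdef]
      have h1 : n - 1 + 1 = n := by omega
      rw [h1]
      refine rk_over (hb.low' hd) ?_
      rw [← ET_append]
      exact hz₀rk
    have h1 := spec_rank (A := A) (u := ep c) (v := v) (fun P hP => by
      rw [← map_eq_zero σ, hv]
      exact hx1 j P hP) hH (by
      rw [← map_eq_zero σ, hv]
      exact hHx) hrkc
    rw [hAdef] at h1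
    have h2 := rk_add hb.rk h1
    have h3 := rk_hom (θ := (σ : ℂ →+* ℂ)) (K := K) (K' := K) (fun w hw => by
      change σ w ∈ K
      rw [hσK w hw]
      exact hw) (ET b ∪ range v)
    have h4 : ET (Fin.append b' (x j)) ⊆ (σ : ℂ →+* ℂ) '' (ET b ∪ range v) := by
      rw [ET_append, Set.image_union, image_ET hσb hσe]
      refine Set.union_subset_union_right _ ?_
      rw [← range_ep]
      rintro _ ⟨i, rfl⟩
      exact ⟨v i, ⟨i, rfl⟩, σ.apply_symm_apply _⟩
    have h5 : (MK K).eRk (ET (Fin.append b' (x j))) ≤ (p + d + (n - 1) : ℕ) :=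
      ((MK K).eRk_mono h4).trans (h3.trans h2)
    have h6 := (hL.append (x j)).low hd (fun q hq => by
      have hq' : lc (Fin.append b' (x j)) q ∈ K := hq
      have h3 := hcon q hq'
      rw [lc_append] at hq'
      have h4 : lc (x j) (fun i => q (Fin.natAdd p i)) = 0 := by
        have h5 : (fun i => q (Fin.natAdd p i)) = 0 := funext h3
        rw [h5, lc_zero]
      rw [h4, add_zero] at hq'
      have h6 := hb'.ind _ hq'
      funext l
      refine Fin.addCases (fun i => ?_) (fun i => ?_) l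
      · exact congrFun h6 i
      · exact h3 i) h5
    omega

end Pool.Agent.V9h68
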