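import Pool.Agent.V9h68.Rb1
import Pool.Agent.V9h68.Sh

/-!
Existence of generic points of robust systems.
-/

set_option autoImplicit false

open MvPolynomial Set Filter

noncomputable section

namespace Pool.Agent.V9h68

open Pool.Agent.Y776 Pool.Agent.Y685
open Pool.Agent.TH813.Rel (MK mem_cl subset_cl rk_le_of_subset_cl cl_add cl_mul cl_inv cl_of_base)

/-- a set which has enough elements and generates a set of large rank is independent -/
theorem indep_of_low {k : Type} [Field k] [Algebra k ℂ] {T X : Set ℂ} {N : ℕ}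
    (hT : T.encard ≤ (N : ℕ)) (hX : X ⊆ (MK k).closure T)
    (h : ∀ a : ℕ, (MK k).eRk X ≤ (a : ℕ) → N ≤ a) : (MK k).Indep T := by
  have hf : T.Finite := Set.finite_of_encard_le_coe hT
  rw [Matroid.indep_iff_eRk_eq_encard_of_finite hf]
  refine le_antisymm ((MK k).eRk_le_encard _) ?_
  have h1 : (MK k).eRk X ≤ (MK k).eRk T := rk_le_of_subset_cl hX
  have h2 : (MK k).eRk T ≠ ⊤ :=
    ne_top_of_le_ne_top (ENat.natCast_ne_top N) (((MK k).eRk_le_encard _).trans hT)
  refine hT.trans ?_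
  generalize (MK k).eRk T = e at h1 h2 ⊢
  lift e to ℕ using h2
  exact_mod_cast h e h1

section Main

variable {K : Subfield ℂ} {p n : ℕ} {b b' : Fin p → ℂ} {c : Fin n → ℂ}

/-- **the data at infinity** -/
theorem gsec_auxg (hK : GD K) {A : Subfield ℂ} (hKA : ∀ w ∈ K, w ∈ A) (hbA : ∀ i, b i ∈ A)
    (heA : ∀ i, Complex.exp (b i) ∈ A) [Countable A]
    {d : ℕ} (hd : 0 < d) {L : ℕ → Subfield ℂ} (hL : Chn K b' d L)
    (hbc : ∀ q : Fin (p + n) → ℚ, lc (Fin.append b c) q ∈ K → q = 0)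
    (hz₀rk : (MK K).eRk (ET (Fin.append b c)) ≤ (p + d + n : ℕ))
    {σ : ℂ ≃+* ℂ} (hσK : ∀ c ∈ K, σ c = c) (hσb : ∀ i, σ (b i) = b' i)
    (hσe : ∀ i, σ (Complex.exp (b i)) = Complex.exp (b' i))
    (x : ℕ → Fin n → ℂ)
    (hx : ∀ j, ∀ f : MvPolynomial (Fin n ⊕ Fin n) A, aeval (ep c) f = 0 →
      eval₂ ((σ : ℂ →+* ℂ).comp (algebraMap A ℂ)) (ep (x j)) f = 0)
    (hxH : ∀ H : MvPolynomial (Fin n ⊕ Fin n) A, aeval (ep c) H ≠ 0 →
      ∀ᶠ j in (hyperfilter ℕ : Filter ℕ),
        eval₂ ((σ : ℂ →+* ℂ).comp (algebraMap A ℂ)) (ep (x j)) H ≠ 0)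
    (hrel : ∀ j, ∃ q : Fin (p + n) → ℚ, lc (Fin.append b' (x j)) q ∈ K ∧ q ≠ 0) : False := by
  classical
  let τ : A →+* ℂ := (σ : ℂ →+* ℂ).comp (algebraMap A ℂ)
  have hτ : ∀ f : A, τ f = σ (f : ℂ) := fun f => rfl
  obtain ⟨Θ, hs, h0⟩ := exists_star
  let θ : ℂ →+* ℂ := Θ.comp (Pi.constRingHom ℕ ℂ)
  have hθ : ∀ z, θ z = Θ fun _ => z := fun z => rfl
  let z : ℕ → Fin (p + n) → ℂ := fun j => Fin.append b' (x j)
  set K' := starF h0 K with hK'
  let zz : Fin (p + n) → ℂ := fun l => Θ fun j => z j l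
  let ww : Fin (p + n) → ℂ := fun l => Θ fun j => Complex.exp (z j l)
  let z₀ : Fin (p + n) → ℂ := Fin.append b c
  have hlc : ∀ q, lc zz q = Θ fun j => lc (z j) q := by
    intro q
    have e : (fun j => lc (z j) q) = ∑ i, q i • (fun j => z j i) := by
      funext j
      unfold lc
      rw [Finset.sum_apply]
      rfl
    rw [e, map_sum]
    unfold lc
    refine Finset.sum_congr rfl fun i _ => ?_
    exact (map_rat_smul Θ (q i) (fun j => z j i)).symm
  have hww0 : ∀ l, ww l ≠ 0 := fun l =>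
    star_ne h0 (Eventually.of_forall fun j => Complex.exp_ne_zero _)
  have hDD : ∀ i, ∃ D' : Derivation ℚ ℂ ℂ, (∀ c ∈ starF h0 (L i), D' c = 0) ∧
      (∀ l, D' (ww l) = ww l * D' (zz l)) ∧ ∀ q, D' (lc zz q) = 0 → lc zz q ∈ starF h0 (L i) := by
    intro i
    choose D hD1 hD2 hD3 using fun j => der_gen (hL.gd i).der (z j)
    obtain ⟨D', hD'⟩ := star_der hs h0 D
    refine ⟨D', ?_, ?_, ?_⟩
    · rintro _ ⟨f, hf, rfl⟩
      rw [hD', h0]
      exact Eventually.of_forall fun j => hD1 j _ (hf j)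
    · intro l
      rw [hD', hD', ← map_mul]
      congr 1
      funext j
      exact D_exp (hD2 j l)
    · intro q hq
      rw [hlc, hD', h0] at hq
      rw [hlc, star_mem]
      filter_upwards [hq] with j hj
      exact hD3 j q hj
  have hmonΘ : ∀ s : Fin (p + n) → ℤ, mon ww s =
      Θ fun j => Complex.exp (lc (z j) fun l => (s l : ℚ)) := by
    intro s
    have h2 : (fun j => Complex.exp (lc (z j) fun l => ((s l : ℤ) : ℚ))) =
        ∏ l, fun j => Complex.exp (z j l) ^ s l := by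
      funext j
      rw [Finset.prod_apply]
      exact exp_lc_int _ _
    rw [h2, map_prod]
    unfold mon
    refine Finset.prod_congr rfl fun l _ => ?_
    rw [star_zpow h0]
  have hmonL : ∀ (i : ℕ) (s : Fin (p + n) → ℤ), lc zz (fun l => (s l : ℚ)) ∈ starF h0 (L i) →
      mon ww s ∈ starF h0 (L i) := by
    intro i s h3
    rw [hlc, star_mem] at h3
    rw [hmonΘ, star_mem]
    filter_upwards [h3] with j hj
    exact (hL.gd i).exp _ hj
  have hstr : ∀ i < d, ∃ q, lc zz q ∉ starF h0 (L i) ∧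
      (i + 1 < d → lc zz q ∈ starF h0 (L (i + 1))) := by
    intro i hi
    obtain ⟨q, hq1, hq2⟩ := hL.str i hi
    have hq3 : ∀ j, lc (z j) (Fin.append q (0 : Fin n → ℚ)) = lc b' q := by
      intro j
      exact lc_app _ _ _
    refine ⟨Fin.append q 0, ?_, fun h => ?_⟩
    · rw [hlc, star_mem]
      intro hcon
      obtain ⟨j, hj⟩ := hcon.exists
      rw [hq3] at hj
      exact hq1 hj
    · rw [hlc, star_mem]
      refine Eventually.of_forall fun j => ?_
      rw [hq3]
      exact hq2 h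
  have hlow : ∀ a : ℕ, (MK (starF h0 K)).eRk (range zz ∪ range ww) ≤ a →
      (p + n) + d ≤ Module.finrank ℚ (rels (starF h0 K) zz) + a := by
    intro a ha
    exact chain_low' (z := zz) (w := ww) hww0 (d := d) (L := fun i => starF h0 (L i))
      (K := starF h0 K) (congrArg (starF h0) hL.zero) (fun i => by
        rintro _ ⟨f, hf, rfl⟩
        exact ⟨f, fun j => hL.mono i (hf j), rfl⟩) (fun i _ => hDD i) (fun i _ => hmonL i)
      hstr hd ha
  have hcK : ∀ w ∈ K, θ w ∈ K' := fun w hw => ⟨fun _ => w, fun _ => hw, rfl⟩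
  -- the isomorphism
  have hev : ∀ P : MvPolynomial (Fin n ⊕ Fin n) A, eval₂ (θ.comp τ)
      (Sum.elim (fun i => Θ fun j => x j i) (fun i => Θ fun j => Complex.exp (x j i))) P =
      Θ fun j => eval₂ τ (ep (x j)) P := by
    intro P
    have e : (eval₂Hom (θ.comp τ) (Sum.elim (fun i => Θ fun j => x j i)
        (fun i => Θ fun j => Complex.exp (x j i)))) =
        Θ.comp (RingHom.pi fun j => eval₂Hom τ (ep (x j))) := by
      refine MvPolynomial.ringHom_ext (fun a => ?_) (fun i => ?_)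
      · rw [eval₂Hom_C]
        change Θ (fun _ => τ a) = Θ (fun j => eval₂Hom τ (ep (x j)) (C a))
        congr 1
        funext j
        exact (eval₂Hom_C _ _ _).symm
      · rw [eval₂Hom_X', RingHom.comp_apply]
        have e1 : (RingHom.pi fun j => eval₂Hom τ (ep (x j)))
            (X i : MvPolynomial (Fin n ⊕ Fin n) A) = fun j => ep (x j) i := by
          funext j
          exact eval₂Hom_X' _ _ _
        rw [e1]
        rcases i with i | i
        · rfl
        · rfl
    exact RingHom.congr_fun e P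
  obtain ⟨ρ, hρF, hρx⟩ := aut_tuple (K := A) (ι := Fin n ⊕ Fin n) (algebraMap A ℂ) (θ.comp τ)
    (ep c) (Sum.elim (fun i => Θ fun j => x j i) (fun i => Θ fun j => Complex.exp (x j i)))
    (fun P => by
      rw [hev]
      constructor
      · intro h
        rw [h0]
        exact Eventually.of_forall fun j => hx j P h
      · intro h
        by_contra hne
        exact star_ne h0 (hxH P hne) h)
  have hρA : ∀ w : ℂ, ∀ hw : w ∈ A, ρ w = θ (σ w) := by
    intro w hw
    have := hρF ⟨w, hw⟩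
    rw [RingHom.comp_apply, hτ] at this
    exact this
  have hρz : ∀ l, ρ (z₀ l) = zz l := by
    intro l
    refine Fin.addCases (fun i => ?_) (fun i => ?_) l
    · simp only [z₀, zz, z, Fin.append_left]
      rw [hρA _ (hbA i), hσb]
      rfl
    · simp only [z₀, zz, z, Fin.append_right]
      exact hρx (Sum.inl i)
  have hρw : ∀ l, ρ (Complex.exp (z₀ l)) = ww l := by
    intro l
    refine Fin.addCases (fun i => ?_) (fun i => ?_) l
    · simp only [z₀, ww, z, Fin.append_left]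
      rw [hρA _ (heA i), hσe]
      rfl
    · simp only [z₀, ww, z, Fin.append_right]
      exact hρx (Sum.inr i)
  have hρK : ∀ w ∈ K, ρ w = θ w := by
    intro w hw
    rw [hρA w (hKA w hw), hσK w hw]
  -- the set
  set XX : Set ℂ := range zz ∪ range ww with hXX
  have hXim : XX = ρ '' ET z₀ := by
    unfold ET
    rw [Set.image_union, hXX]
    congr 1
    · rw [← Set.range_comp]
      congr 1
      funext l
      exact (hρz l).symm
    · rw [← Set.range_comp]
      congr 1
      funext l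
      exact (hρw l).symm
  -- the relations
  set V : Submodule ℚ (Fin (p + n) → ℚ) := rels (starF h0 K) zz with hVdef
  by_cases hV : V = ⊥
  · have hk0 : Module.finrank ℚ V = 0 := by
      rw [hV]
      exact finrank_bot ℚ _
    set B := clF K' (∅ : Set ℂ) with hB
    have hK'B : ∀ w ∈ K', w ∈ B := fun w hw => cl_of_base (k := K') _ (⟨w, hw⟩ : K')
    have hρB : ∀ w ∈ K, ρ w ∈ B := fun w hw => by
      rw [hρK w hw]
      exact hK'B _ (hcK w hw)
    obtain ⟨T, hT⟩ := (MK K).exists_isBasis (ET z₀) (Set.subset_univ _)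
    have hTc : T.encard ≤ (p + d + n : ℕ) := by
      rw [← hT.eRk_eq_encard]
      exact hz₀rk
    have hTi : (MK B).Indep (ρ '' T) := by
      refine indep_of_low (N := p + d + n) (X := XX) ((Set.encard_image_le _ _).trans hTc) ?_ ?_
      · rw [hXim]
        rintro _ ⟨w, hw, rfl⟩
        exact cl_hom (θ := (ρ : ℂ →+* ℂ)) (K := K) (K' := B) hρB (hT.subset_closure hw)
      · intro a ha
        have h3 := rk_add (K := K') (T := ∅) (a := 0) (m := a) (X := XX) (by
          rw [Matroid.eRk_empty]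
          exact bot_le) ha
        rw [Set.empty_union] at h3
        have h4 := hlow _ h3
        omega
    -- a relation with infinite coefficients
    obtain ⟨s, m, hm1, hm2⟩ := rel_star' (A := K) (B := B) hK.alg (clF_alg' _) hρB hTi
      (c := z₀) (fun l => hT.subset_closure (mem_ET_l z₀ l))
    choose q hq hq0 using hrel
    let Q : Fin (p + n) → ℂ := fun l => Θ fun j => ((q j l : ℚ) : ℂ)
    have hQK : ∀ l, Q l ∈ K' := fun l => ⟨_, fun j => by
      exact SubfieldClass.ratCast_mem K (q j l), rfl⟩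
    have hrelQ : ∑ l, Q l * ρ (z₀ l) ∈ B := by
      have e1 : ∑ l, Q l * ρ (z₀ l) = Θ fun j => lc (z j) (q j) := by
        simp only [Q, hρz, zz]
        simp only [← map_mul]
        rw [← map_sum]
        congr 1
        funext j
        rw [Finset.sum_apply]
        unfold lc
        refine Finset.sum_congr rfl fun l _ => ?_
        rw [Rat.smul_def]
        rfl
      rw [e1]
      exact hK'B _ ⟨_, hq, rfl⟩
    have h2 := hm2 _ (fun l => hK'B _ (hQK l)) hrelQ
    have h3 : ∀ a : Fin s, ∀ᶠ j in (hyperfilter ℕ : Filter ℕ),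
        ∑ l : Fin (p + n), ((q j l : ℚ) : ℂ) * (m l a : ℂ) = 0 := by
      intro a
      rw [← h0]
      have h4 := h2 a
      rw [← h4]
      have h5 : ∀ l : Fin (p + n), ρ (m l a) = Θ fun _ => (m l a : ℂ) := fun l =>
        hρK _ (m l a).2
      simp only [h5, Q]
      simp only [← map_mul]
      rw [← map_sum]
      congr 1
      funext j
      rw [Finset.sum_apply]
      rfl
    have h4 : ∀ᶠ j in (hyperfilter ℕ : Filter ℕ), ∀ a : Fin s,
        ∑ l : Fin (p + n), ((q j l : ℚ) : ℂ) * (m l a : ℂ) = 0 :=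
      eventually_all.2 h3
    obtain ⟨j, hj⟩ := h4.exists
    exact hq0 j (hbc _ (hm1 (q j) hj))
  · -- standard relations
    have hk0 : 0 < Module.finrank ℚ V :=
      Module.finrank_pos_iff.2 (Submodule.nontrivial_iff_ne_bot.2 hV)
    let vb := Module.finBasis ℚ V
    choose m hm sI hsI using fun i => exists_int (vb i : Fin (p + n) → ℚ)
    let sq : Fin (Module.finrank ℚ V) → Fin (p + n) → ℚ := fun i l => sI i l
    have hsq : ∀ i, sq i = (m i : ℚ) • (vb i : Fin (p + n) → ℚ) := by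
      intro i
      funext l
      rw [Pi.smul_apply, smul_eq_mul]
      exact (hsI i l).symm
    have hsqV : ∀ i, sq i ∈ V := by
      intro i
      rw [hsq]
      exact V.smul_mem _ (vb i).2
    let u : Fin (Module.finrank ℚ V) → ℂ := fun i => lc z₀ (sq i)
    have hu : ∀ r : Fin (Module.finrank ℚ V) → ℚ, ∑ i, r i • u i ∈ K → r = 0 := by
      intro r hr
      have h1 : ∑ i, r i • u i = lc z₀ (∑ i, r i • sq i) := by
        rw [lc_sum]
        exact Finset.sum_congr rfl fun i _ => (lc_smul _ _ _).symm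
      rw [h1] at hr
      have h2 := hbc _ hr
      have h3 : ∑ i, (r i * m i) • vb i = 0 := by
        apply Subtype.ext
        rw [AddSubmonoidClass.coe_finsetSum]
        refine Eq.trans (Finset.sum_congr rfl fun i _ => ?_) h2
        rw [hsq, smul_smul]
        rfl
      have h4 := Fintype.linearIndependent_iff.1 vb.linearIndependent _ h3
      funext i
      have h5 : (m i : ℚ) ≠ 0 := by exact_mod_cast (hm i).ne'
      exact (mul_eq_zero.1 (h4 i)).resolve_right h5
    have hrku := hK.rk _ u hk0 hu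
    let K₁ : Subfield ℂ := K.map θ
    have hK₁ : ∀ w ∈ K, θ w ∈ K₁ := fun w hw => Subfield.mem_map.2 ⟨w, hw, rfl⟩
    have hK₁K' : K₁ ≤ K' := by
      intro w hw
      obtain ⟨v, hv, rfl⟩ := Subfield.mem_map.1 hw
      exact hcK v hv
    have hρK₁ : ∀ w ∈ K, (ρ : ℂ →+* ℂ) w ∈ K₁ := fun w hw => by
      change ρ w ∈ K₁
      rw [hρK w hw]
      exact hK₁ w hw
    have hWcl : (ρ : ℂ →+* ℂ) '' ET u ⊆ (MK K₁).closure XX := by
      rintro _ ⟨w, hw, rfl⟩
      have h1 : w ∈ (MK K).closure (ET z₀) := by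
        rcases hw with ⟨i, rfl⟩ | ⟨i, rfl⟩
        · exact (sum_cl z₀ (sq i)).1
        · exact (sum_cl z₀ (sq i)).2
      have h2 := cl_hom hρK₁ h1
      rw [hXim]
      exact h2
    have hWK : (ρ : ℂ →+* ℂ) '' ET u ⊆ K' := by
      rintro _ ⟨w, (⟨i, rfl⟩ | ⟨i, rfl⟩), rfl⟩
      · change ρ (u i) ∈ K'
        have h1 : ρ (u i) = lc zz (sq i) := by
          have h2 := lc_map (ρ : ℂ →+* ℂ) z₀ (sq i)
          change ρ (lc z₀ (sq i)) = lc (fun l => ρ (z₀ l)) (sq i) at h2
          simp only [u]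
          rw [h2]
          congr 1
          funext l
          exact hρz l
        rw [h1]
        exact hsqV i
      · change ρ (Complex.exp (u i)) ∈ K'
        have h1 : ρ (Complex.exp (u i)) = Θ fun j => Complex.exp (lc (z j) (sq i)) := by
          simp only [u, sq]
          rw [exp_lc_int, map_prod]
          have h2 : (fun j => Complex.exp (lc (z j) fun l => ((sI i l : ℤ) : ℚ))) =
              ∏ l, fun j => Complex.exp (z j l) ^ sI i l := by
            funext j
            rw [Finset.prod_apply]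
            exact exp_lc_int _ _
          rw [h2, map_prod]
          refine Finset.prod_congr rfl fun l _ => ?_
          rw [map_zpow₀, hρw, star_zpow h0]
        have h3 : lc zz (sq i) ∈ K' := hsqV i
        rw [hlc, hK', star_mem] at h3
        rw [h1, hK', star_mem]
        filter_upwards [h3] with j hj
        exact hK.exp _ hj
    have h6 : (MK K₁).eRk XX ≤ (p + d + n : ℕ) := by
      rw [hXim]
      exact (rk_hom (θ := (ρ : ℂ →+* ℂ)) hρK₁ (ET z₀)).trans hz₀rk
    have h7 : ((Module.finrank ℚ V + 1 : ℕ) : ℕ∞) ≤ (MK K₁).eRk ((ρ : ℂ →+* ℂ) '' ET u) := by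
      have h8 := rk_hom (θ := (ρ.symm : ℂ →+* ℂ)) (K := K₁) (K' := K) (fun w hw => by
        obtain ⟨v, hv, rfl⟩ := Subfield.mem_map.1 hw
        change ρ.symm (θ v) ∈ K
        rw [← hρK v hv, RingEquiv.symm_apply_apply]
        exact hv) ((ρ : ℂ →+* ℂ) '' ET u)
      have h9 : (ρ.symm : ℂ →+* ℂ) '' ((ρ : ℂ →+* ℂ) '' ET u) = ET u := by
        rw [Set.image_image]
        refine Eq.trans (Set.image_congr fun w _ => ?_) (Set.image_id (ET u))
        exact RingEquiv.symm_apply_apply ρ w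
      rw [h9] at h8
      exact hrku.trans h8
    have h10 := rk_remove hK₁K' hWcl hWK h6 h7
    have h11 := hlow _ h10
    have h12 : Module.finrank ℚ V ≤ p + n := by
      have := V.finrank_le
      rwa [Module.finrank_fintype_fun_eq_card, Fintype.card_fin] at this
    omega

end Main

/-- **Generic points.** -/
theorem gsecg {K : Subfield ℂ} (hK : GD K) {p n d : ℕ} {b b' : Fin p → ℂ} {c : Fin n → ℂ}
    (hb : Sc K b d) (hb' : Sc K b' d) (hd : 0 < d)
    (hbc : ∀ q : Fin (p + n) → ℚ, lc (Fin.append b c) q ∈ K → q = 0)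
    {A : Subfield ℂ} (hAdef : A = clF K (ET b)) [Countable A]
    (hz₀rk : (MK K).eRk (ET (Fin.append b c)) ≤ (p + d + n : ℕ))
    (hn : 0 < n)
    {σ : ℂ ≃+* ℂ} (hσK : ∀ c ∈ K, σ c = c) (hσb : ∀ i, σ (b i) = b' i)
    (hσe : ∀ i, σ (Complex.exp (b i)) = Complex.exp (b' i))
    (hzz : ∀ H : MvPolynomial (Fin n ⊕ Fin n) A, aeval (ep c) H ≠ 0 → ∃ x' : Fin n → ℂ,
      (∀ f : MvPolynomial (Fin n ⊕ Fin n) A, aeval (ep c) f = 0 →
        eval₂ ((σ : ℂ →+* ℂ).comp (algebraMap A ℂ)) (ep x') f = 0) ∧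
      eval₂ ((σ : ℂ →+* ℂ).comp (algebraMap A ℂ)) (ep x') H ≠ 0) :
    ∃ (c' : Fin n → ℂ) (σ1 : ℂ ≃+* ℂ), (∀ a ∈ A, σ1 a = σ a) ∧ (∀ i, σ1 (c i) = c' i) ∧
      ∀ i, σ1 (Complex.exp (c i)) = Complex.exp (c' i) := by
  classical
  obtain ⟨L, hL⟩ := hb'.chn
  let τ : A →+* ℂ := (σ : ℂ →+* ℂ).comp (algebraMap A ℂ)
  -- the sequence
  have hne : Nonempty {H : MvPolynomial (Fin n ⊕ Fin n) A // aeval (ep c) H ≠ 0} :=
    ⟨⟨1, by rw [map_one]; exact one_ne_zero⟩⟩
  have hcount : Countable (MvPolynomial (Fin n ⊕ Fin n) A) := by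
    rw [← Cardinal.mk_le_aleph0_iff]
    refine MvPolynomial.cardinalMk_le_max.trans ?_
    simp
  obtain ⟨e, he⟩ := exists_surjective_nat {H : MvPolynomial (Fin n ⊕ Fin n) A // aeval (ep c) H ≠ 0}
  have hseq : ∀ j : ℕ, ∃ x' : Fin n → ℂ, (∀ f : MvPolynomial (Fin n ⊕ Fin n) A,
      aeval (ep c) f = 0 → eval₂ τ (ep x') f = 0) ∧ ∀ i ≤ j, eval₂ τ (ep x') (e i).1 ≠ 0 := by
    intro j
    obtain ⟨x', h1, h2⟩ := hzz (∏ i ∈ Finset.range (j + 1), (e i).1) (by
        rw [map_prod]
        exact Finset.prod_ne_zero_iff.2 fun i _ => (e i).2)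
    refine ⟨x', h1, fun i hi => ?_⟩
    have h4 : eval₂ τ (ep x') (∏ i ∈ Finset.range (j + 1), (e i).1) =
        ∏ i ∈ Finset.range (j + 1), eval₂ τ (ep x') (e i).1 :=
      map_prod (eval₂Hom τ (ep x')) _ _
    rw [h4] at h2
    exact Finset.prod_ne_zero_iff.1 h2 i (Finset.mem_range.2 (Nat.lt_succ_of_le hi))
  choose x hx1 hx3 using hseq
  by_cases hgen : ∃ j, ∀ H : MvPolynomial (Fin n ⊕ Fin n) A, aeval (ep c) H ≠ 0 →
      eval₂ τ (ep (x j)) H ≠ 0
  · obtain ⟨j, hj⟩ := hgen
    obtain ⟨ρ, hρF, hρx⟩ := aut_tuple (K := A) (ι := Fin n ⊕ Fin n) (algebraMap A ℂ) τ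
      (ep c) (ep (x j)) (fun P => ⟨fun h => hx1 j P h, fun h => by
        by_contra h1
        exact hj P h1 h⟩)
    exact ⟨x j, ρ, fun a ha => hρF ⟨a, ha⟩, fun i => hρx (Sum.inl i), fun i => hρx (Sum.inr i)⟩
  exfalso
  push Not at hgen
  refine gsec_auxg hK (A := A) (fun w hw => by
    rw [hAdef]
    exact cl_of_base (k := K) _ (⟨w, hw⟩ : K)) (fun i => by
    rw [hAdef]
    exact subset_cl _ (mem_ET_l b i)) (fun i => by
    rw [hAdef]
    exact subset_cl _ (mem_ET_r b i)) hd hL hbc hz₀rk hσK hσb hσe x hx1 ?_ ?_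
  · intro H hH
    obtain ⟨i, hi⟩ := he ⟨H, hH⟩
    have h1 : ∀ᶠ j : ℕ in (hyperfilter ℕ : Filter ℕ), i ≤ j := by
      refine (Nat.hyperfilter_le_atTop) ?_
      exact eventually_ge_atTop i
    filter_upwards [h1] with j hj
    have h2 := hx3 j i hj
    rw [hi] at h2
    exact h2
  · intro j
    by_contra hcon
    push Not at hcon
    obtain ⟨H, hH, hHx⟩ := hgen j
    let v : Fin n ⊕ Fin n → ℂ := fun i => σ.symm (ep (x j) i)
    have hv : ∀ P : MvPolynomial (Fin n ⊕ Fin n) A, σ (aeval v P) = eval₂ τ (ep (x j)) P := by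
      intro P
      have h1 := eval₂_comp_left (σ : ℂ →+* ℂ) (algebraMap A ℂ) v P
      have h2 : (σ : ℂ →+* ℂ) ∘ v = ep (x j) := funext fun i => σ.apply_symm_apply _
      rw [h2] at h1
      exact h1
    have hrkc : (MK A).eRk (range (ep c)) ≤ ((n - 1 + 1 : ℕ) : ℕ∞) := by
      rw [range_ep, hAdef]
      have h1 : n - 1 + 1 = n := by omega
      rw [h1]
      refine rk_over (hb.low' hd) ?_
      rw [← ET_append]
      exact hz₀rk
    have h1 := spec_rank (A := A) (u := ep c) (v := v) (fun P hP => by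
      rw [← map_eq_zero σ, hv]
      exact hx1 j P hP) hH (by
      rw [← map_eq_zero σ, hv]
      exact hHx) hrkc
    rw [hAdef] at h1
    have h2 := rk_add hb.rk h1
    have h3 := rk_hom (θ := (σ : ℂ →+* ℂ)) (K := K) (K' := K) (fun w hw => by
      change σ w ∈ K
      rw [hσK w hw]
      exact hw) (ET b ∪ range v)
    have h4 : ET (Fin.append b' (x j)) ⊆ (σ : ℂ →+* ℂ) '' (ET b ∪ range v) := by
      rw [ET_append, Set.image_union, image_ET hσb hσe]
      refine Set.union_subset_union_right _ ?_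
      rw [← range_ep]
      rintro _ ⟨i, rfl⟩
      exact ⟨v i, ⟨i, rfl⟩, σ.apply_symm_apply _⟩
    have h5 : (MK K).eRk (ET (Fin.append b' (x j))) ≤ (p + d + (n - 1) : ℕ) :=
      ((MK K).eRk_mono h4).trans (h3.trans h2)
    have h6 := (hL.append (x j)).low hd (fun q hq => hcon q hq) h5
    omega

end Pool.Agent.V9h68

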