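import Pool.Agent.V9h68.Rb2
import Pool.Agent.V9h68.Jr
import Pool.Agent.V9h68.Dc

/-!
Robust systems: all conjugates have dense solutions. Extensions of isomorphisms.
-/

set_option autoImplicit false

open MvPolynomial Set Filter

noncomputable section

namespace Pool.Agent.V9h68

open Pool.Agent.Y776 Pool.Agent.Y685
open Pool.Agent.TH813.Rel (MK mem_cl subset_cl rk_le_of_subset_cl cl_add cl_mul cl_inv cl_of_base)

/-- the transcendence degree of `(u, e^u)` over `B` is at most the length of `u` -/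
def Small (B : Set ℂ) {k : ℕ} (u : Fin k → ℂ) : Prop :=
  ∃ y : Fin k → ℂ, ∀ j, IsAlgebraic (Algebra.adjoin ℚ (B ∪ range y)) (u j) ∧
    IsAlgebraic (Algebra.adjoin ℚ (B ∪ range y)) (Complex.exp (u j))

/-- the point `v` is on the conjugate by `σ` of the locus of `(u, e^u)` over the algebraic closure
of `ℚ(B)` -/
def Conj (B : Set ℂ) (σ : ℂ ≃+* ℂ) {n : ℕ} (u : Fin n → ℂ) (v : Fin n ⊕ Fin n → ℂ) : Prop :=
  ∀ P : MvPolynomial (Fin n ⊕ Fin n) ℂ, (∀ α, IsAlgebraic (Algebra.adjoin ℚ B) (P.coeff α)) →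
    eval (Sum.elim u fun i => Complex.exp (u i)) P = 0 →
    eval v (MvPolynomial.map (σ : ℂ →+* ℂ) P) = 0

/-- robust tuples: all conjugates over `A` of the loci over `B` have dense exponential points -/
structure Robust (A B : Set ℂ) {n : ℕ} (x : Fin n → ℂ) : Prop where
  small : Small B x
  simple : ∀ k : ℕ, 0 < k → k < n → ∀ N : Fin k → Fin n → ℚ, LinearIndependent ℚ N →
    ¬ Small B (fun j => ∑ i, (N j i : ℂ) * x i)
  dense : ∀ M : ℕ, 0 < M → ∀ σ : ℂ ≃+* ℂ, (∀ a ∈ A, σ a = a) →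
    (∀ b ∈ B, σ (Complex.exp b) = Complex.exp (σ b)) →
    ∀ H : MvPolynomial (Fin n ⊕ Fin n) ℂ,
      (∀ z : Fin n → ℂ, Conj B σ (fun i => x i / M) (Sum.elim z fun i => Complex.exp (z i)) →
        eval (Sum.elim z fun i => Complex.exp (z i)) H = 0) →
      ∀ v : Fin n ⊕ Fin n → ℂ, Conj B σ (fun i => x i / M) v → eval v H = 0

/-- closures over the algebraic closure -/
theorem cl_clF_rat {B S : Set ℂ} {z : ℂ} (hz : z ∈ (MK (clF ℚ B)).closure S) :
    z ∈ (MK ℚ).closure (B ∪ S) := by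
  refine cl_up (k := clF ℚ B) (k' := ℚ) (fun c => ?_) (Set.subset_union_right.trans (subset_cl _)) hz
  exact (MK ℚ).closure_subset_closure Set.subset_union_left c.2

theorem cl_rat_clF {B S : Set ℂ} {z : ℂ} (hz : z ∈ (MK ℚ).closure (B ∪ S)) :
    z ∈ (MK (clF ℚ B)).closure S := by
  refine cl_rat_up (K := clF ℚ B) ?_ hz
  refine Set.union_subset ?_ (subset_cl _)
  intro b hb
  exact cl_of_base (k := clF ℚ B) _ (⟨b, subset_cl _ hb⟩ : clF ℚ B)

theorem encard_range_le {k : ℕ} (y : Fin k → ℂ) : (range y).encard ≤ (k : ℕ) := by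
  rw [← Set.image_univ]
  refine (Set.encard_image_le _ _).trans ?_
  rw [Set.encard_univ, ENat.card_eq_coe_fintype_card, Fintype.card_fin]

theorem Small.rank {B : Set ℂ} {k : ℕ} {u : Fin k → ℂ} (h : Small B u) :
    (MK (clF ℚ B)).eRk (ET u) ≤ (k : ℕ) := by
  obtain ⟨y, hy⟩ := h
  have h1 : ET u ⊆ (MK (clF ℚ B)).closure (range y) := by
    rintro _ (⟨j, rfl⟩ | ⟨j, rfl⟩)
    · exact cl_rat_clF (mem_cl.2 (hy j).1)
    · exact cl_rat_clF (mem_cl.2 (hy j).2)
  exact (rk_le_of_subset_cl h1).trans (((MK _).eRk_le_encard _).trans (encard_range_le y))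

theorem exists_range {I : Set ℂ} {k : ℕ} (h : I.encard ≤ (k : ℕ)) : ∃ y : Fin k → ℂ, I ⊆ range y := by
  have hf : I.Finite := Set.finite_of_encard_le_coe h
  have hc : hf.toFinset.card ≤ k := by
    rw [hf.encard_eq_coe_toFinset_card] at h
    exact_mod_cast h
  let e := hf.toFinset.equivFin
  refine ⟨fun i => if h : (i : ℕ) < hf.toFinset.card then (e.symm ⟨i, h⟩ : ℂ) else 0, ?_⟩
  intro z hz
  let a := e ⟨z, hf.mem_toFinset.2 hz⟩
  refine ⟨⟨a, a.2.trans_le hc⟩, ?_⟩
  have h1 : ((⟨a, a.2.trans_le hc⟩ : Fin k) : ℕ) < hf.toFinset.card := a.2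
  simp only
  rw [dif_pos h1]
  have h2 : (⟨((⟨a, a.2.trans_le hc⟩ : Fin k) : ℕ), h1⟩ : Fin hf.toFinset.card) = a := rfl
  rw [h2]
  simp [a]

theorem small_of_rank {B : Set ℂ} {k : ℕ} {u : Fin k → ℂ}
    (h : (MK (clF ℚ B)).eRk (ET u) ≤ (k : ℕ)) : Small B u := by
  obtain ⟨I, hI⟩ := (MK (clF ℚ B)).exists_isBasis (ET u) (Set.subset_univ _)
  rw [hI.eRk_eq_encard] at h
  obtain ⟨y, hy⟩ := exists_range h
  refine ⟨y, fun j => ?_⟩
  rw [← mem_cl, ← mem_cl]
  have h1 : ∀ z ∈ ET u, z ∈ (MK ℚ).closure (B ∪ range y) := fun z hz =>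
    (MK ℚ).closure_subset_closure (Set.union_subset_union_right _ hy)
      (cl_clF_rat (hI.subset_closure hz))
  exact ⟨h1 _ (mem_ET_l u j), h1 _ (mem_ET_r u j)⟩

theorem sum_eq_lc {n : ℕ} (x : Fin n → ℂ) (q : Fin n → ℚ) : ∑ i, (q i : ℂ) * x i = lc x q := by
  unfold lc
  exact Finset.sum_congr rfl fun i _ => (Rat.smul_def _ _).symm

/-- **the three cases of a robust tuple** -/
theorem Robust.cases {A B : Set ℂ} {n : ℕ} {x : Fin n → ℂ} (hR : Robust A B x) {F : Subfield ℂ}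
    (hBF : clF ℚ B ≤ F) (U : Submodule ℚ ℂ) (hU : ∀ u ∈ U, u ∈ F ∧ Complex.exp u ∈ F) :
    (∀ q : Fin n → ℚ, lc x q ∈ U → q = 0) ∨ (∀ i, x i ∈ U) ∨
      ∃ (s : ℕ) (ι : Fin (s + 1) → Fin n), (∀ q : Fin (s + 1) → ℚ, lc (fun j => x (ι j)) q ∈ U →
        q = 0) ∧ (MK F).eRk (ET fun j => x (ι j)) ≤ (s : ℕ) := by
  classical
  obtain ⟨s, ι, h1, h2⟩ := exists_basis_mod U x
  by_cases hs0 : s = 0
  · right; left
    subst hs0
    intro i
    obtain ⟨q, hq⟩ := h2 i
    have h3 : ∑ j : Fin 0, q j • x (ι j) = 0 := Finset.sum_empty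
    rw [h3, sub_zero] at hq
    exact hq
  -- the relations
  let R : Submodule ℚ (Fin n → ℚ) :=
    { carrier := {q | lc x q ∈ U}
      add_mem' := fun {a b} ha hb => by
        change lc x (a + b) ∈ U
        rw [lc_add]
        exact U.add_mem ha hb
      zero_mem' := by
        change lc x 0 ∈ U
        rw [lc_zero]
        exact U.zero_mem
      smul_mem' := fun t a ha => by
        change lc x (t • a) ∈ U
        rw [lc_smul]
        exact U.smul_mem t ha }
  have hR' : ∀ q, q ∈ R ↔ lc x q ∈ U := fun q => Iff.rfl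
  set k := Module.finrank ℚ R with hk
  let N := Module.finBasis ℚ R
  have hNli : LinearIndependent ℚ fun j => (N j : Fin n → ℚ) :=
    N.linearIndependent.map' R.subtype (Submodule.ker_subtype R)
  have hN0 := Fintype.linearIndependent_iff.1 hNli
  have hcard : k + s = n := by
    have h3 := card_of_basis (ι := Fin k ⊕ Fin s)
      (b := Sum.elim (fun j => (N j : Fin n → ℚ)) fun j => Pi.single (ι j) 1) (fun q hq => ?_)
      (fun v => ?_)
    · simpa using h3
    · rw [Fintype.sum_sum_type] at hq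
      simp only [Sum.elim_inl, Sum.elim_inr] at hq
      have h4 : ∑ j, q (Sum.inl j) • (N j : Fin n → ℚ) ∈ R :=
        R.sum_mem fun j _ => R.smul_mem _ (N j).2
      have h5 : lc x (∑ j, q (Sum.inr j) • (Pi.single (ι j) 1 : Fin n → ℚ)) ∈ U := by
        rw [← hR', eq_neg_of_add_eq_zero_right hq]
        exact R.neg_mem h4
      rw [← lc_lc] at h5
      simp only [lc_single, one_smul] at h5
      have h6 := h1 _ h5
      have h7 : ∀ j, q (Sum.inr j) = 0 := fun j => congrFun h6 j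
      simp only [h7, zero_smul, Finset.sum_const_zero, add_zero] at hq
      have h8 := hN0 _ hq
      funext j
      rcases j with j | j
      · exact h8 j
      · exact h7 j
    · choose q hq using h2
      let r : Fin s → ℚ := fun j => ∑ i, v i * q i j
      have h4 : v - ∑ j, r j • (Pi.single (ι j) 1 : Fin n → ℚ) ∈ R := by
        rw [hR', lc_sub, ← lc_lc]
        simp only [lc_single, one_smul]
        have h5 : lc x v - ∑ j, r j • x (ι j) = ∑ i, v i • (x i - ∑ j, q i j • x (ι j)) := by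
          simp only [smul_sub, Finset.sum_sub_distrib, Finset.smul_sum, r, Finset.sum_smul,
            mul_smul]
          rw [Finset.sum_comm]
          rfl
        rw [h5]
        exact U.sum_mem fun i _ => U.smul_mem _ (hq i)
      have h5 := N.sum_repr ⟨_, h4⟩
      have h6 := congrArg Subtype.val h5
      rw [AddSubmonoidClass.coe_finsetSum] at h6
      refine ⟨Sum.elim (fun j => N.repr ⟨_, h4⟩ j) r, ?_⟩
      rw [Fintype.sum_sum_type]
      simp only [Sum.elim_inl, Sum.elim_inr]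
      have h7 : ∑ j, N.repr ⟨_, h4⟩ j • (N j : Fin n → ℚ) =
          v - ∑ j, r j • (Pi.single (ι j) 1 : Fin n → ℚ) := h6
      rw [h7, sub_add_cancel]
  by_cases hk0 : k = 0
  · left
    intro q hq
    have h3 : R = ⊥ := Submodule.finrank_eq_zero.1 (by rw [← hk]; exact hk0)
    have h4 : q ∈ R := hq
    rw [h3] at h4
    exact (Submodule.mem_bot _).1 h4
  right; right
  obtain ⟨s, rfl⟩ : ∃ s', s = s' + 1 := ⟨s - 1, by omega⟩
  refine ⟨s, ι, h1, ?_⟩
  have h3 := hR.simple k (by omega) (by omega) (fun j => (N j : Fin n → ℚ)) hNli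
  simp only [sum_eq_lc] at h3
  have h4 : ((k + 1 : ℕ) : ℕ∞) ≤ (MK (clF ℚ B)).eRk (ET fun j => lc x (N j : Fin n → ℚ)) := by
    by_contra hcon
    rw [not_le] at hcon
    apply h3
    apply small_of_rank
    have := ENat.lt_add_one_iff (m := (MK (clF ℚ B)).eRk (ET fun j => lc x (N j : Fin n → ℚ)))
      (n := (k : ℕ∞)) (ENat.natCast_ne_top k)
    rw [← this]
    exact_mod_cast hcon
  have h5 := rk_remove (K := clF ℚ B) (K' := F) hBF (X := ET x)
    (W := ET fun j => lc x (N j : Fin n → ℚ)) (by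
      rintro _ (⟨j, rfl⟩ | ⟨j, rfl⟩)
      · exact (sum_cl x _).1
      · exact (sum_cl x _).2) (by
      rintro _ (⟨j, rfl⟩ | ⟨j, rfl⟩)
      · exact (hU _ (N j).2).1
      · exact (hU _ (N j).2).2) hR.small.rank h4
  have h6 : ET (fun j => x (ι j)) ⊆ ET x := by
    rintro _ (⟨j, rfl⟩ | ⟨j, rfl⟩)
    · exact mem_ET_l x _
    · exact mem_ET_r x _
  refine ((MK F).eRk_mono h6).trans (h5.trans ?_)
  exact_mod_cast (by omega : n - (k + 1) ≤ s)

end Pool.Agent.V9h68
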