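import Pool.Agent.V9h68.Rb3

/-!
Extensions of isomorphisms by robust tuples.
-/

set_option autoImplicit false

open MvPolynomial Set Filter

noncomputable section

namespace Pool.Agent.V9h68

open Pool.Agent.Y776 Pool.Agent.Y685
open Pool.Agent.TH813.Rel (MK mem_cl subset_cl rk_le_of_subset_cl cl_add cl_mul cl_inv cl_of_base)

/-- ranks over larger fields -/
theorem rk_mono_base {K K' : Subfield ℂ} (h : K ≤ K') (S : Set ℂ) :
    (MK K').eRk S ≤ (MK K).eRk S := by
  have h1 := rk_hom (θ := RingHom.id ℂ) (K := K) (K' := K') (fun c hc => h hc) S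
  have h2 : (RingHom.id ℂ) '' S = S := Set.image_id S
  rwa [h2] at h1

theorem eval_conj (σ : ℂ ≃+* ℂ) {ι : Type} (v : ι → ℂ) (P : MvPolynomial ι ℂ) :
    eval (fun i => σ (v i)) (MvPolynomial.map (σ : ℂ →+* ℂ) P) = σ (eval v P) := by
  have h1 := eval₂_comp_left (σ : ℂ →+* ℂ) (RingHom.id ℂ) v P
  rw [eval_map, ← eval₂_id]
  refine Eq.trans ?_ h1.symm
  rw [RingHom.comp_id]
  rfl

/-- extension by an independent robust tuple -/
theorem Wt.rob_ind {K : Subfield ℂ} (hK : GD K) (w : Wt K) {n : ℕ} (hn : 0 < n) {c : Fin n → ℂ}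
    {A' B : Set ℂ} (hA' : A' ⊆ K) (hB : B ⊆ w.V) (hR : Robust A' B c)
    (hbc : ∀ q : Fin (w.p + n) → ℚ, lc (Fin.append w.b c) q ∈ K → q = 0) :
    ∃ w1 : Wt K, w.Le w1 ∧ ∀ i, c i ∈ w1.V := by
  classical
  have hBF : clF ℚ B ≤ clF K (ET w.b) := fun z hz =>
    cl_rat_up (fun b hb => (Vs_cl hK.exp (hB hb)).1) hz
  have hrk : (MK K).eRk (ET (Fin.append w.b c)) ≤ (w.p + w.d + n : ℕ) := by
    rw [ET_append]
    exact rk_add w.wc.src.rk ((rk_mono_base hBF _).trans hR.small.rank)
  rcases Nat.eq_zero_or_pos w.d with hd | hd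
  · exfalso
    have hp : w.p = 0 := by
      have h1 : Sc K w.b 0 := by
        have := w.wc.src
        rwa [hd] at this
      exact h1.zero hK.toGF
    have h1 := hK.rk (w.p + n) (Fin.append w.b c) (by omega) hbc
    have h2 := h1.trans hrk
    norm_cast at h2
    omega
  have : Countable K := hK.cnt.to_subtype
  obtain ⟨M, hM, hkum⟩ := kum (a := Fin.append w.b c) hK.alg (exp_ind hK.toGF hbc)
  have hM0 : (M : ℂ) ≠ 0 := by exact_mod_cast hM.ne'
  have hσb : ∀ i, w.σ (dvM M w.b i) = dvM M w.b' i := by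
    intro i
    unfold dvM
    rw [map_div₀, map_natCast, w.wc.map]
  have hσe : ∀ i, w.σ (Complex.exp (dvM M w.b i)) = Complex.exp (dvM M w.b' i) := by
    intro i
    have h1 : ∀ a : Fin w.p → ℂ, dvM M a i = lc a (Pi.single i (M : ℚ)⁻¹) := by
      intro a
      rw [lc_single, Rat.smul_def]
      unfold dvM
      push_cast
      ring
    rw [h1, h1, w.wc.exp]
  obtain ⟨A, hAdef⟩ : ∃ A, A = clF K (ET (dvM M w.b)) := ⟨_, rfl⟩
  have hAc : Countable A := by
    rw [hAdef]
    exact (cl_countable hK.cnt (ET_countable _)).to_subtype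
  have hAalg : ∀ x, IsAlgebraic A x → x ∈ A := by
    rw [hAdef]
    exact clF_alg' _
  have hKA : ∀ z ∈ K, z ∈ A := fun z hz => by
    rw [hAdef]
    exact cl_of_base (k := K) _ (⟨z, hz⟩ : K)
  have hBA : clF ℚ B ≤ A := by
    refine hBF.trans ?_
    rw [hAdef]
    refine cl_sub_of ?_
    rintro _ (⟨i, rfl⟩ | ⟨i, rfl⟩)
    · have h1 : w.b i = (M : ℚ) • dvM M w.b i := by
        rw [Rat.smul_def]
        unfold dvM
        push_cast
        field_simp
      rw [h1]
      exact cl_rat _ (subset_cl _ (mem_ET_l _ i))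
    · have h1 : w.b i = (M : ℚ) • dvM M w.b i := by
        rw [Rat.smul_def]
        unfold dvM
        push_cast
        field_simp
      change Complex.exp (w.b i) ∈ _
      rw [h1]
      exact cl_exp_rat _ (subset_cl _ (mem_ET_r _ i))
  obtain ⟨u, hu⟩ : ∃ u, u = dvM M c := ⟨_, rfl⟩
  have hind' : ∀ q, lc (Fin.append (dvM M w.b) u) q ∈ K → q = 0 := by
    intro q hq
    rw [hu, dvM_append, lc_dvM_mem hM] at hq
    exact hbc q hq
  have hrk' : (MK K).eRk (ET (Fin.append (dvM M w.b) u)) ≤ (w.p + w.d + n : ℕ) := by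
    rw [hu, dvM_append]
    exact (rk_le_of_subset_cl (ET_dvM _)).trans hrk
  -- the basis
  obtain ⟨T, hT⟩ := (MK (clF ℚ B)).exists_isBasis (ET u) (Set.subset_univ _)
  have hTc : T.encard ≤ (n : ℕ) := by
    rw [← hT.eRk_eq_encard, hu]
    exact (rk_le_of_subset_cl (ET_dvM (K := clF ℚ B) c)).trans hR.small.rank
  have hTi : (MK A).Indep T := by
    refine indep_of_low hTc (X := ET u) (fun z hz => ?_) (fun a ha => ?_)
    · refine cl_up (k := clF ℚ B) (k' := A) (fun c => ?_) (subset_cl _) (hT.subset_closure hz)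
      exact cl_of_base (k := A) _ (⟨c, hBA c.2⟩ : A)
    · rw [hAdef] at ha
      have h1 := rk_add (w.wc.src.dvM hM).rk ha
      rw [← ET_append] at h1
      obtain ⟨L, hL⟩ := w.wc.src.chn
      have h2 := ((hL.dvM hM).append u).low hd hind' h1
      omega
  have hσB : ∀ b ∈ B, w.σ (Complex.exp b) = Complex.exp (w.σ b) := fun b hb =>
    w.wc.cexp hK.exp (hB hb)
  obtain ⟨c'', σ1, hσ1, hσc, hσc'⟩ := gsecg hK (w.wc.src.dvM hM) (w.wc.tgt.dvM hM) hd hind' hAdef
    hrk' hn w.wc.fix hσb hσe (by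
      intro H hH
      by_contra hcon
      push Not at hcon
      have h1 := hR.dense M hM w.σ (fun a ha => w.wc.fix a (hA' ha)) hσB
        (MvPolynomial.map ((w.σ : ℂ →+* ℂ).comp (algebraMap A ℂ)) H) (fun z hz => ?_)
        (fun i => w.σ (ep u i)) (fun P _ hP0 => ?_)
      · rw [eval_map] at h1
        have h2 := eval₂_comp_left (w.σ : ℂ →+* ℂ) (algebraMap A ℂ) (ep u) H
        have h3 : w.σ (aeval (ep u) H) = 0 := h2.trans h1
        exact hH ((map_eq_zero w.σ).1 h3)
      · rw [eval_map]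
        refine hcon z fun f hf => ?_
        refine rel_base (A₀ := clF ℚ B) (A := A) (clF_alg' _) hAalg hBA hTi (u := ep u)
          (fun i => ?_) (fun g hg => ?_) f hf
        · refine hT.subset_closure ?_
          rw [← range_ep]
          exact ⟨i, rfl⟩
        · have h4 := hz (MvPolynomial.map (algebraMap (clF ℚ B) ℂ) g) (fun α => by
            rw [coeff_map]
            exact mem_cl.1 (g.coeff α).2) (by
            rw [eval_map]
            have h5 : (Sum.elim (fun i => c i / (M : ℂ)) fun i => Complex.exp (c i / (M : ℂ))) =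
              ep u := by
              rw [hu]
              rfl
            rw [h5]
            exact hg)
          rw [eval_map, eval₂_map] at h4
          exact h4
      · have h5 : (Sum.elim (fun i => c i / (M : ℂ)) fun i => Complex.exp (c i / (M : ℂ))) =
          ep u := by
          rw [hu]
          rfl
        rw [h5] at hP0
        rw [eval_conj, hP0, map_zero])
  obtain ⟨c', rfl⟩ : ∃ c' : Fin n → ℂ, c'' = dvM M c' := by
    refine ⟨fun i => M * c'' i, ?_⟩
    funext i
    unfold dvM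
    field_simp
  have hbA : ∀ z ∈ ET (dvM M w.b), z ∈ A := fun z hz => by
    rw [hAdef]
    exact subset_cl _ hz
  have hlv : Lv K (dvM M (Fin.append w.b c)) (dvM M (Fin.append w.b' c')) := by
    rw [← dvM_append, ← dvM_append]
    refine ⟨σ1, fun z hz => ?_, fun l => ?_, fun l => ?_⟩
    · rw [hσ1 z (hKA z hz), w.wc.fix z hz]
    · refine Fin.addCases (fun i => ?_) (fun i => ?_) l
      · rw [Fin.append_left, Fin.append_left, hσ1 _ (hbA _ (mem_ET_l _ i)), hσb]
      · rw [Fin.append_right, Fin.append_right, ← hu, hσc]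
    · refine Fin.addCases (fun i => ?_) (fun i => ?_) l
      · rw [Fin.append_left, Fin.append_left, hσ1 _ (hbA _ (mem_ET_r _ i)), hσe]
      · rw [Fin.append_right, Fin.append_right, ← hu, hσc']
  obtain ⟨σ2, hw, hle⟩ := w.mk'' hbc hrk (hkum _ (liso_of_lv hM hlv))
  exact ⟨_, hle, fun i => Vs_append_right c i⟩

/-- **extension by a robust tuple** -/
theorem Wt.rob {K : Subfield ℂ} (hK : GD K) (w : Wt K) {n : ℕ} {x : Fin n → ℂ}
    {A B : Set ℂ} (hA : A ⊆ K) (hB : B ⊆ w.V) (hR : Robust A B x) :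
    ∃ w1 : Wt K, w.Le w1 ∧ ∀ i, x i ∈ w1.V := by
  classical
  rcases Nat.eq_zero_or_pos n with hn | hn
  · subst hn
    exact ⟨w, Wt.Le.refl w, fun i => i.elim0⟩
  have hBF : clF ℚ B ≤ clF K (ET w.b) := fun z hz =>
    cl_rat_up (fun b hb => (Vs_cl hK.exp (hB hb)).1) hz
  have hind : ∀ {s : ℕ} (y : Fin s → ℂ), (∀ q : Fin s → ℚ, lc y q ∈ VsM K w.b → q = 0) →
      ∀ q : Fin (w.p + s) → ℚ, lc (Fin.append w.b y) q ∈ K → q = 0 := by
    intro s y hy q hq
    rw [lc_append] at hq
    have h3 : lc y (fun i => q (Fin.natAdd w.p i)) ∈ Vs K w.b := by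
      refine ⟨-fun i => q (Fin.castAdd s i), ?_⟩
      rw [lc_neg, sub_neg_eq_add, add_comm]
      exact hq
    have h4 := hy _ h3
    rw [h4, lc_zero, add_zero] at hq
    have h5 := w.wc.src.ind _ hq
    funext l
    refine Fin.addCases (fun i => ?_) (fun i => ?_) l
    · exact congrFun h5 i
    · exact congrFun h4 i
  rcases hR.cases hBF (VsM K w.b) (fun u hu => Vs_cl hK.exp hu) with h | h | ⟨s, ι, h1, h2⟩
  · exact w.rob_ind hK hn hA hB hR (hind x h)
  · exact ⟨w, Wt.Le.refl w, h⟩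
  · exfalso
    have h3 := hind _ h1
    have h4 := rk_add w.wc.src.rk h2
    rw [← ET_append] at h4
    rcases Nat.eq_zero_or_pos w.d with hd | hd
    · have h5 := hK.rk (w.p + (s + 1)) _ (by omega) h3
      have h6 := h5.trans h4
      norm_cast at h6
      omega
    · obtain ⟨L, hL⟩ := w.wc.src.chn
      have h5 := (hL.append _).low hd h3 h4
      omega

/-- good fields contain the robust tuples -/
theorem GF.robust {K : Subfield ℂ} (hK : GF K) {n : ℕ} {x : Fin n → ℂ} {A B : Set ℂ} (hB : B ⊆ K)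
    (hR : Robust A B x) (i : Fin n) : x i ∈ K := by
  classical
  let U : Submodule ℚ ℂ :=
    { carrier := K
      add_mem' := K.add_mem
      zero_mem' := K.zero_mem
      smul_mem' := fun q x hx => SubfieldClass.qsmul_mem K q hx }
  have hBK : clF ℚ B ≤ K := by
    intro z hz
    apply hK.alg
    have h1 : z ∈ (MK ℚ).closure B := hz
    have h2 : z ∈ (MK K).closure ∅ := cl_rat_up (K := K) (fun b hb =>
      cl_of_base (k := K) _ (⟨b, hB hb⟩ : K)) h1
    exact isAlgebraic_iff_isIntegral.2 (by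
      have h3 := cl_le_alg (K := K) (F := K) le_rfl hK.alg (Set.empty_subset _) h2
      exact (isAlgebraic_algebraMap (⟨z, h3⟩ : K)).isIntegral)
  rcases hR.cases hBK U (fun u hu => ⟨hu, hK.exp u hu⟩) with h | h | ⟨s, ι, h1, h2⟩
  · exfalso
    have h3 := hK.rk n x i.pos h
    have h4 := h3.trans ((rk_mono_base hBK _).trans hR.small.rank)
    norm_cast at h4
    omega
  · exact h i
  · exfalso
    have h3 := hK.rk (s + 1) _ (Nat.succ_pos s) h1
    have h4 := h3.trans h2
    norm_cast at h4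
    omega

theorem Small.map {B : Set ℂ} {k : ℕ} {u : Fin k → ℂ} (h : Small B u) {τ : ℂ ≃+* ℂ}
    (he : ∀ j, τ (Complex.exp (u j)) = Complex.exp (τ (u j))) :
    Small (τ '' B) (fun j => τ (u j)) := by
  obtain ⟨y, hy⟩ := h
  have h1 : ∀ z ∈ (MK ℚ).closure (B ∪ range y),
      τ z ∈ (MK ℚ).closure (τ '' B ∪ range fun j => τ (y j)) := by
    intro z hz
    refine cl_rat_hom (θ := (τ : ℂ →+* ℂ)) ?_ hz
    rintro s (hs | ⟨j, rfl⟩)
    · exact subset_cl _ (Or.inl ⟨s, hs, rfl⟩)
    · exact subset_cl _ (Or.inr ⟨j, rfl⟩)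
  refine ⟨fun j => τ (y j), fun j => ?_⟩
  rw [← mem_cl, ← mem_cl]
  refine ⟨h1 _ (mem_cl.2 (hy j).1), ?_⟩
  rw [← he]
  exact h1 _ (mem_cl.2 (hy j).2)

theorem Conj.map {B : Set ℂ} {σ τ : ℂ ≃+* ℂ} {n : ℕ} {u : Fin n → ℂ} {v : Fin n ⊕ Fin n → ℂ}
    (he : ∀ j, τ (Complex.exp (u j)) = Complex.exp (τ (u j))) :
    Conj (τ '' B) σ (fun j => τ (u j)) v ↔ Conj B (τ.trans σ) u v := by
  have hev : ∀ P : MvPolynomial (Fin n ⊕ Fin n) ℂ,
      eval (Sum.elim (fun j => τ (u j)) fun j => Complex.exp (τ (u j)))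
        (MvPolynomial.map (τ : ℂ →+* ℂ) P) =
      τ (eval (Sum.elim u fun j => Complex.exp (u j)) P) := by
    intro P
    rw [← eval_conj]
    congr 2
    funext j
    rcases j with j | j
    · rfl
    · exact (he j).symm
  constructor
  · intro h P hP hP0
    have h1 := h (MvPolynomial.map (τ : ℂ →+* ℂ) P) (fun α => by
      rw [coeff_map, ← mem_cl]
      refine cl_rat_hom (θ := (τ : ℂ →+* ℂ)) ?_ (mem_cl.2 (hP α))
      exact fun s hs => subset_cl _ ⟨s, hs, rfl⟩) (by rw [hev, hP0, map_zero])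
    rw [MvPolynomial.map_map] at h1
    exact h1
  · intro h P hP hP0
    have h1 := h (MvPolynomial.map (τ.symm : ℂ →+* ℂ) P) (fun α => by
      rw [coeff_map, ← mem_cl]
      refine cl_rat_hom (θ := (τ.symm : ℂ →+* ℂ)) ?_ (mem_cl.2 (hP α))
      rintro _ ⟨s, hs, rfl⟩
      refine subset_cl _ ?_
      change τ.symm (τ s) ∈ B
      rw [RingEquiv.symm_apply_apply]
      exact hs) (by
      rw [← map_eq_zero τ, ← hev, MvPolynomial.map_map]
      have h2 : (τ : ℂ →+* ℂ).comp (τ.symm : ℂ →+* ℂ) = RingHom.id ℂ := by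
        ext z
        exact τ.apply_symm_apply z
      rw [h2, MvPolynomial.map_id]
      exact hP0)
    rw [MvPolynomial.map_map] at h1
    have h2 : ((τ.trans σ : ℂ ≃+* ℂ) : ℂ →+* ℂ).comp (τ.symm : ℂ →+* ℂ) = (σ : ℂ →+* ℂ) := by
      ext z
      change σ (τ (τ.symm z)) = σ z
      rw [RingEquiv.apply_symm_apply]
    rw [h2] at h1
    exact h1

/-- the image of a robust tuple -/
theorem Robust.map {A B : Set ℂ} {n : ℕ} {x : Fin n → ℂ} (hR : Robust A B x) {τ : ℂ ≃+* ℂ}
    (hA : ∀ a ∈ A, τ a = a)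
    (he : ∀ q : Fin n → ℚ, τ (Complex.exp (lc x q)) = Complex.exp (τ (lc x q)))
    (hB : ∀ b ∈ B, τ (Complex.exp b) = Complex.exp (τ b)) :
    Robust A (τ '' B) (fun i => τ (x i)) := by
  have hlc : ∀ q : Fin n → ℚ, τ (lc x q) = lc (fun i => τ (x i)) q := fun q => lc_mapσ (fun i => rfl) q
  have hx : ∀ (M : ℕ) (i : Fin n), τ (x i / M) = τ (x i) / M := by
    intro M i
    rw [map_div₀, map_natCast]
  have hxM : ∀ (M : ℕ) (i : Fin n), τ (Complex.exp (x i / M)) = Complex.exp (τ (x i / M)) := by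
    intro M i
    have h1 : x i / M = lc x (Pi.single i (M : ℚ)⁻¹) := by
      rw [lc_single, Rat.smul_def]
      push_cast
      ring
    rw [h1, he]
  refine ⟨hR.small.map fun j => ?_, fun k hk hkn N hN hS => ?_, fun M hM σ hσA hσ H hH v hv => ?_⟩
  · have h1 := he (Pi.single j 1)
    rw [lc_single, one_smul] at h1
    exact h1
  · apply hR.simple k hk hkn N hN
    have h1 : ∀ j, ∑ i, (N j i : ℂ) * τ (x i) = τ (lc x (N j)) := by
      intro j
      rw [hlc, sum_eq_lc]
    simp only [h1] at hS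
    have h2 := hS.map (τ := τ.symm) (fun j => by
      rw [← he, RingEquiv.symm_apply_apply, RingEquiv.symm_apply_apply])
    have h3 : τ.symm '' (τ '' B) = B := by
      rw [Set.image_image]
      simp
    rw [h3] at h2
    simp only [RingEquiv.symm_apply_apply, ← sum_eq_lc] at h2
    exact h2
  · refine hR.dense M hM (τ.trans σ) (fun a ha => ?_) (fun b hb => ?_) H (fun z hz => ?_) v ?_
    · change σ (τ a) = a
      rw [hA a ha, hσA a ha]
    · change σ (τ (Complex.exp b)) = Complex.exp (σ (τ b))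
      rw [hB b hb, hσ _ ⟨b, hb, rfl⟩]
    · apply hH
      rw [← Conj.map (hxM M)] at hz
      simp only [hx] at hz
      exact hz
    · rw [← Conj.map (hxM M)]
      simp only [hx]
      exact hv

end Pool.Agent.V9h68
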