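import Mathlib

/-!
Growth of quotients of holomorphic functions.
-/

set_option autoImplicit false

open Set Filter Metric

noncomputable section

namespace Pool.Agent.V9h68.Rt

/-- removal of zeros in a disk -/
theorem fac {r : ℝ} (hr : 0 < r) {f : ℂ → ℂ} (hf : DifferentiableOn ℂ f (ball 0 (5 * r)))
    (h0 : f 0 ≠ 0) :
    ∃ (n : ℕ) (a : Fin n → ℂ) (u : ℂ → ℂ), DifferentiableOn ℂ u (ball 0 (5 * r)) ∧
      (∀ i, ‖a i‖ ≤ 2 * r) ∧ (∀ z ∈ ball (0 : ℂ) (5 * r), f z = (∏ i, (z - a i)) * u z) ∧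
      ∀ z, ‖z‖ ≤ 2 * r → u z ≠ 0 := by
  classical
  let Q : ℕ → Prop := fun n => ∃ (a : Fin n → ℂ) (u : ℂ → ℂ),
    DifferentiableOn ℂ u (ball 0 (5 * r)) ∧
      (∀ i, ‖a i‖ ≤ 2 * r) ∧ (∀ z ∈ ball (0 : ℂ) (5 * r), f z = (∏ i, (z - a i)) * u z)
  have hQ0 : Q 0 := ⟨Fin.elim0, f, hf, fun i => i.elim0, fun z _ => by simp⟩
  -- the bound
  have hρ : 0 < 9 / 2 * r := by positivity
  have hsub : closedBall (0 : ℂ) (9 / 2 * r) ⊆ ball 0 (5 * r) :=
    closedBall_subset_ball (by linarith)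
  obtain ⟨M, hM⟩ := (isCompact_closedBall (0 : ℂ) (9 / 2 * r)).exists_bound_of_continuousOn
    (hf.continuousOn.mono hsub)
  have hbd : ∀ n, Q n → ‖f 0‖ ≤ (4 / 5 : ℝ) ^ n * M := by
    rintro n ⟨a, u, hu, ha, hfu⟩
    have h1 : ∀ z ∈ sphere (0 : ℂ) (9 / 2 * r), ‖u z‖ ≤ M / (5 / 2 * r) ^ n := by
      intro z hz
      have hz' : ‖z‖ = 9 / 2 * r := by simpa using hz
      have h2 : (5 / 2 * r) ^ n ≤ ‖∏ i, (z - a i)‖ := by
        rw [norm_prod]
        have h3 : ∏ _i : Fin n, (5 / 2 * r) ≤ ∏ i, ‖z - a i‖ := by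
          refine Finset.prod_le_prod (fun i _ => by positivity) fun i _ => ?_
          have h4 := norm_sub_norm_le z (a i)
          have h5 := ha i
          linarith
        simpa using h3
      have h3 := hM z (sphere_subset_closedBall hz)
      rw [hfu z (hsub (sphere_subset_closedBall hz)), norm_mul] at h3
      rw [le_div_iff₀ (by positivity)]
      calc ‖u z‖ * (5 / 2 * r) ^ n ≤ ‖u z‖ * ‖∏ i, (z - a i)‖ := by gcongr
        _ ≤ M := by rw [mul_comm]; exact h3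
    have h2 : ‖u 0‖ ≤ M / (5 / 2 * r) ^ n := by
      refine Complex.norm_le_of_forall_mem_frontier_norm_le (U := ball (0 : ℂ) (9 / 2 * r))
        isBounded_ball ?_ ?_ (subset_closure (mem_ball_self hρ))
      · refine DifferentiableOn.diffContOnCl ?_
        refine hu.mono ?_
        rw [closure_ball _ hρ.ne']
        exact hsub
      · intro z hz
        rw [frontier_ball _ hρ.ne'] at hz
        exact h1 z hz
    have h3 : ‖f 0‖ = (∏ i, ‖a i‖) * ‖u 0‖ := by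
      rw [hfu 0 (mem_ball_self (by positivity)), norm_mul, norm_prod]
      simp
    have h4 : ∏ i, ‖a i‖ ≤ (2 * r) ^ n := by
      have h5 : ∏ i, ‖a i‖ ≤ ∏ _i : Fin n, (2 * r) :=
        Finset.prod_le_prod (fun i _ => norm_nonneg _) fun i _ => ha i
      simpa using h5
    rw [h3]
    calc (∏ i, ‖a i‖) * ‖u 0‖ ≤ (2 * r) ^ n * (M / (5 / 2 * r) ^ n) := by gcongr
      _ = (4 / 5 : ℝ) ^ n * M := by
        rw [mul_pow, mul_pow, div_pow, div_pow]
        field_simp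
        rw [← pow_mul, mul_comm n 2, pow_mul]
        norm_num
        ring
  have hM0 : 0 < M := by
    have := hbd 0 hQ0
    rw [pow_zero, one_mul] at this
    exact lt_of_lt_of_le (norm_pos_iff.2 h0) this
  obtain ⟨N, hN⟩ := exists_pow_lt_of_lt_one (div_pos (norm_pos_iff.2 h0) hM0)
    (show (4 / 5 : ℝ) < 1 by norm_num)
  have hQN : ∀ n, Q n → n ≤ N := by
    intro n hn
    by_contra hlt
    push Not at hlt
    have h1 := hbd n hn
    have h2 : (4 / 5 : ℝ) ^ n ≤ (4 / 5 : ℝ) ^ N :=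
      pow_le_pow_of_le_one (by norm_num) (by norm_num) hlt.le
    have h3 : (4 / 5 : ℝ) ^ n < ‖f 0‖ / M := lt_of_le_of_lt h2 hN
    rw [lt_div_iff₀ hM0] at h3
    linarith
  have hex : ∃ n, Q n ∧ ∀ m, Q m → m ≤ n := by
    refine ⟨Nat.findGreatest Q N, ?_, fun m hm => ?_⟩
    · exact Nat.findGreatest_spec (P := Q) (Nat.zero_le N) hQ0
    · exact Nat.le_findGreatest (hQN m hm) hm
  obtain ⟨n, ⟨a, u, hu, ha, hfu⟩, hmax⟩ := hex
  refine ⟨n, a, u, hu, ha, hfu, fun z hz huz => ?_⟩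
  have hzb : z ∈ ball (0 : ℂ) (5 * r) := by
    rw [mem_ball_zero_iff]
    linarith
  have h1 : Q (n + 1) := by
    refine ⟨Fin.snoc (α := fun _ => ℂ) a z, dslope u z, ?_, ?_, ?_⟩
    · exact (Complex.differentiableOn_dslope (isOpen_ball.mem_nhds hzb)).2 hu
    · intro i
      refine Fin.lastCases ?_ (fun i => ?_) i
      · rw [Fin.snoc_last]; exact hz
      · rw [Fin.snoc_castSucc]; exact ha i
    · intro w hw
      rw [hfu w hw, Fin.prod_univ_castSucc]
      simp only [Fin.snoc_castSucc, Fin.snoc_last]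
      have h2 := sub_smul_dslope u z w
      rw [huz, sub_zero, smul_eq_mul] at h2
      rw [← h2]
      ring
  have := hmax _ h1
  omega

/-- a lower bound for zero-free functions -/
theorem zero_free {r : ℝ} (hr : 0 < r) {u : ℂ → ℂ} (hu : DifferentiableOn ℂ u (ball 0 (2 * r)))
    (hu0 : ∀ z ∈ ball (0 : ℂ) (2 * r), u z ≠ 0) {B : ℝ} (hB : ∀ z ∈ ball (0 : ℂ) (2 * r), ‖u z‖ ≤ B)
    {z : ℂ} (hz : ‖z‖ ≤ r) : ‖u 0‖ * (Real.exp (-2) * (‖u 0‖ / B) ^ 2) ≤ ‖u z‖ := by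
  have h2r : 0 < 2 * r := by positivity
  have h0m : (0 : ℂ) ∈ ball (0 : ℂ) (2 * r) := mem_ball_self h2r
  have hu00 : 0 < ‖u 0‖ := norm_pos_iff.2 (hu0 0 h0m)
  have hB0 : 0 < B := lt_of_lt_of_le hu00 (hB 0 h0m)
  have hdiff : DifferentiableOn ℂ (fun z => deriv u z / u z) (ball 0 (2 * r)) :=
    (hu.deriv isOpen_ball).div hu hu0
  obtain ⟨F, hF⟩ := hdiff.isExactOn_ball
  have hconst : ∀ z ∈ ball (0 : ℂ) (2 * r), u z * Complex.exp (-F z) = u 0 * Complex.exp (-F 0) := by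
    intro z hz
    have hd : DifferentiableOn ℂ (fun z => u z * Complex.exp (-F z)) (ball 0 (2 * r)) := by
      refine hu.mul ?_
      refine DifferentiableOn.cexp ?_
      refine DifferentiableOn.neg ?_
      exact fun w hw => (hF w hw).differentiableAt.differentiableWithinAt
    refine isOpen_ball.is_const_of_deriv_eq_zero (convex_ball _ _).isPreconnected hd ?_ hz h0m
    intro w hw
    have h1 : HasDerivAt u (deriv u w) w :=
      ((hu w hw).differentiableAt (isOpen_ball.mem_nhds hw)).hasDerivAt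
    have h2 := h1.mul ((hF w hw).neg.cexp)
    have h3 := h2.deriv
    simp only [Pi.zero_apply]
    have h4 : deriv (fun z => u z * Complex.exp (-F z)) w = deriv u w * Complex.exp (-F w) +
        u w * (Complex.exp (-F w) * -(deriv u w / u w)) := h3
    rw [h4]
    have h5 := hu0 w hw
    field_simp
    ring
  have hψ : ∀ z ∈ ball (0 : ℂ) (2 * r), u z = u 0 * Complex.exp (F z - F 0) := by
    intro z hz
    have h1 := hconst z hz
    have h2 : u z = (u z * Complex.exp (-F z)) * Complex.exp (F z) := by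
      rw [mul_assoc, ← Complex.exp_add]
      simp
    rw [h2, h1, mul_assoc, ← Complex.exp_add]
    congr 2
    ring
  have hnorm : ∀ z ∈ ball (0 : ℂ) (2 * r), ‖u z‖ = ‖u 0‖ * Real.exp (F z - F 0).re := by
    intro z hz
    rw [hψ z hz, norm_mul, Complex.norm_exp]
  set M' : ℝ := Real.log (B / ‖u 0‖) + 1 with hM'
  have hM'0 : 0 < M' := by
    have : 0 ≤ Real.log (B / ‖u 0‖) := Real.log_nonneg (by
      rw [le_div_iff₀ hu00, one_mul]
      exact hB 0 h0m)
    linarith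
  have hzb : z ∈ ball (0 : ℂ) (2 * r) := by
    rw [mem_ball_zero_iff]
    linarith
  have hbc := Complex.borelCaratheodory_zero (f := fun z => F z - F 0) (R := 2 * r) (M := M') hM'0
    (DifferentiableOn.sub_const (fun w hw => (hF w hw).differentiableAt.differentiableWithinAt) _)
    (by
      intro w hw
      have h1 := hB w hw
      rw [hnorm w hw] at h1
      have h2 : Real.exp (F w - F 0).re ≤ B / ‖u 0‖ := by
        rw [le_div_iff₀ hu00, mul_comm]
        exact h1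
      have h3 : (F w - F 0).re ≤ Real.log (B / ‖u 0‖) := by
        rw [Real.le_log_iff_exp_le (by positivity)]
        exact h2
      change (F w - F 0).re ≤ M'
      linarith) h2r hzb (by simp)
  have h1 : 2 * M' * ‖z‖ / (2 * r - ‖z‖) ≤ 2 * M' := by
    rw [div_le_iff₀ (by linarith)]
    have : ‖z‖ ≤ 2 * r - ‖z‖ := by linarith
    calc 2 * M' * ‖z‖ ≤ 2 * M' * (2 * r - ‖z‖) := by gcongr
      _ = _ := rfl
  have h2 : -(2 * M') ≤ (F z - F 0).re := by
    have h3 := Complex.abs_re_le_norm (F z - F 0)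
    have h4 := neg_abs_le (F z - F 0).re
    have h5 : ‖F z - F 0‖ ≤ 2 * M' := hbc.trans h1
    linarith
  rw [hnorm z hzb]
  gcongr
  have h3 : Real.exp (-(2 * M')) = Real.exp (-2) * (‖u 0‖ / B) ^ 2 := by
    rw [hM', show -(2 * (Real.log (B / ‖u 0‖) + 1)) = -2 + (-Real.log (B / ‖u 0‖)) +
      (-Real.log (B / ‖u 0‖)) by ring, Real.exp_add, Real.exp_add, Real.exp_neg (Real.log _),
      Real.exp_log (by positivity)]
    rw [inv_div]
    ring
  rw [← h3]
  exact Real.exp_le_exp.2 h2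

/-- **growth of quotients** -/
theorem quot_bound {r : ℝ} (hr : 0 < r) {f g h : ℂ → ℂ}
    (hf : DifferentiableOn ℂ f (ball 0 (5 * r)))
    (hh : DifferentiableOn ℂ h (ball 0 (5 * r))) (hgf : ∀ z ∈ ball (0 : ℂ) (5 * r), g z = h z * f z)
    {Mf Mg : ℝ} (hMf : ∀ z ∈ closedBall (0 : ℂ) (4 * r), ‖f z‖ ≤ Mf)
    (hMg : ∀ z ∈ closedBall (0 : ℂ) (4 * r), ‖g z‖ ≤ Mg) (h0 : f 0 ≠ 0) {z : ℂ} (hz : ‖z‖ ≤ r) :
    ‖h z‖ ≤ Real.exp 2 * Mg * Mf ^ 2 / ‖f 0‖ ^ 3 := by
  obtain ⟨n, a, u, hu, ha, hfu, hu0⟩ := fac hr hf h0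
  have h4 : 0 < 4 * r := by positivity
  have hsub : closedBall (0 : ℂ) (4 * r) ⊆ ball 0 (5 * r) := closedBall_subset_ball (by linarith)
  have hprod : ∀ z ∈ sphere (0 : ℂ) (4 * r), (2 * r) ^ n ≤ ‖∏ i, (z - a i)‖ := by
    intro z hz
    have hz' : ‖z‖ = 4 * r := by simpa using hz
    rw [norm_prod]
    have h3 : ∏ _i : Fin n, (2 * r) ≤ ∏ i, ‖z - a i‖ := by
      refine Finset.prod_le_prod (fun i _ => by positivity) fun i _ => ?_
      have h4 := norm_sub_norm_le z (a i)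
      have h5 := ha i
      linarith
    simpa using h3
  have hmax : ∀ v : ℂ → ℂ, DifferentiableOn ℂ v (ball 0 (5 * r)) → ∀ C : ℝ,
      (∀ z ∈ sphere (0 : ℂ) (4 * r), ‖v z‖ ≤ C) → ∀ z, ‖z‖ ≤ 4 * r → ‖v z‖ ≤ C := by
    intro v hv C hC z hz
    refine Complex.norm_le_of_forall_mem_frontier_norm_le (U := ball (0 : ℂ) (4 * r))
        isBounded_ball ?_ ?_ (by rw [closure_ball _ h4.ne']; simpa using hz)
    · refine DifferentiableOn.diffContOnCl ?_
      refine hv.mono ?_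
      rw [closure_ball _ h4.ne']
      exact hsub
    · intro z hz
      rw [frontier_ball _ h4.ne'] at hz
      exact hC z hz
  have hpn : 0 < (2 * r) ^ n := by positivity
  -- the bound for `u`
  have hub : ∀ z, ‖z‖ ≤ 4 * r → ‖u z‖ ≤ Mf / (2 * r) ^ n := by
    refine hmax u hu _ fun z hz => ?_
    have h3 := hMf z (sphere_subset_closedBall hz)
    rw [hfu z (hsub (sphere_subset_closedBall hz)), norm_mul] at h3
    rw [le_div_iff₀ hpn]
    calc ‖u z‖ * (2 * r) ^ n ≤ ‖u z‖ * ‖∏ i, (z - a i)‖ := by gcongr; exact hprod z hz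
      _ ≤ Mf := by rw [mul_comm]; exact h3
  -- the bound for `h * u`
  have hhu : ∀ z, ‖z‖ ≤ 4 * r → ‖h z * u z‖ ≤ Mg / (2 * r) ^ n := by
    refine hmax (fun z => h z * u z) (hh.mul hu) _ fun z hz => ?_
    have hzb := hsub (sphere_subset_closedBall hz)
    have h3 := hMg z (sphere_subset_closedBall hz)
    rw [hgf z hzb, hfu z hzb, norm_mul, norm_mul] at h3
    rw [le_div_iff₀ hpn, norm_mul]
    calc ‖h z‖ * ‖u z‖ * (2 * r) ^ n ≤ ‖h z‖ * ‖u z‖ * ‖∏ i, (z - a i)‖ := by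
          gcongr; exact hprod z hz
      _ ≤ Mg := by
        refine le_trans (le_of_eq ?_) h3
        ring
  have hf0 : 0 < ‖f 0‖ := norm_pos_iff.2 h0
  have hu00 : u 0 ≠ 0 := hu0 0 (by simp; positivity)
  have hu0p : 0 < ‖u 0‖ := norm_pos_iff.2 hu00
  have hMf0 : 0 < Mf := lt_of_lt_of_le hf0 (hMf 0 (mem_closedBall_self h4.le))
  have hMg0 : 0 ≤ Mg := le_trans (norm_nonneg _) (hMg 0 (mem_closedBall_self h4.le))
  -- the value at the center
  have hc : ‖f 0‖ / (2 * r) ^ n ≤ ‖u 0‖ := by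
    rw [div_le_iff₀ hpn, hfu 0 (mem_ball_self (by positivity)), norm_mul, mul_comm]
    gcongr
    rw [norm_prod]
    have h5 : ∏ i, ‖(0 : ℂ) - a i‖ ≤ ∏ _i : Fin n, (2 * r) :=
      Finset.prod_le_prod (fun i _ => norm_nonneg _) fun i _ => by
        rw [zero_sub, norm_neg]; exact ha i
    simpa using h5
  have hlow := zero_free hr (hu.mono (ball_subset_ball (by linarith)))
    (fun z hz => hu0 z (by rw [mem_ball_zero_iff] at hz; exact hz.le))
    (B := Mf / (2 * r) ^ n) (fun z hz => hub z (by rw [mem_ball_zero_iff] at hz; linarith)) hz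
  have h5 := hhu z (by linarith)
  rw [norm_mul] at h5
  have h6 : ‖h z‖ * (‖u 0‖ * (Real.exp (-2) * (‖u 0‖ / (Mf / (2 * r) ^ n)) ^ 2)) ≤
      Mg / (2 * r) ^ n := by
    refine le_trans ?_ h5
    gcongr
  have h7 : ‖h z‖ * (‖f 0‖ / (2 * r) ^ n * (Real.exp (-2) *
      ((‖f 0‖ / (2 * r) ^ n) / (Mf / (2 * r) ^ n)) ^ 2)) ≤ Mg / (2 * r) ^ n := by
    refine le_trans ?_ h6
    gcongr
  have h8 : ‖f 0‖ / (2 * r) ^ n * (Real.exp (-2) *
      ((‖f 0‖ / (2 * r) ^ n) / (Mf / (2 * r) ^ n)) ^ 2) =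
      Real.exp (-2) * ‖f 0‖ ^ 3 / Mf ^ 2 / (2 * r) ^ n := by
    field_simp
  rw [h8, mul_div_assoc', div_le_div_iff_of_pos_right hpn, ← le_div_iff₀ (by positivity)] at h7
  refine h7.trans (le_of_eq ?_)
  rw [Real.exp_neg]
  field_simp

end Pool.Agent.V9h68.Rt
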