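import Pool.Agent.V9h68.Rt1

/-!
Growth classes of functions which are holomorphic in a punctured disk.
-/

set_option autoImplicit false

open Set Filter Metric Topology

noncomputable section

namespace Pool.Agent.V9h68.Rt

theorem ev_iff {p : ℂ → Prop} : (∀ᶠ s in 𝓝[≠] (0 : ℂ), p s) ↔
    ∃ ε > 0, ∀ s, s ≠ 0 → ‖s‖ < ε → p s := by
  rw [eventually_nhdsWithin_iff, Metric.eventually_nhds_iff]
  simp only [dist_zero_right, mem_compl_iff, mem_singleton_iff]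
  constructor
  · rintro ⟨ε, hε, h⟩
    exact ⟨ε, hε, fun s hs hn => h hn hs⟩
  · rintro ⟨ε, hε, h⟩
    exact ⟨ε, hε, fun s hn hs => h s hs hn⟩

theorem evr_iff {p : ℝ → Prop} : (∀ᶠ t : ℝ in 𝓝[>] (0 : ℝ), p t) ↔
    ∃ ε > 0, ∀ t, 0 < t → t < ε → p t := by
  rw [eventually_nhdsWithin_iff, Metric.eventually_nhds_iff]
  simp only [dist_zero_right, mem_Ioi, Real.norm_eq_abs]
  constructor
  · rintro ⟨ε, hε, h⟩
    exact ⟨ε, hε, fun s hs hn => h (by rwa [abs_of_pos hs]) hs⟩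
  · rintro ⟨ε, hε, h⟩
    exact ⟨ε, hε, fun s hn hs => h s hs (by rwa [abs_of_pos hs] at hn)⟩

/-- holomorphic in a punctured disk -/
def Hol (φ : ℂ → ℂ) : Prop := ∀ᶠ s in 𝓝[≠] (0 : ℂ), AnalyticAt ℂ φ s

theorem Hol.exists {φ : ℂ → ℂ} (h : Hol φ) : ∃ ε > 0, ∀ s, s ≠ 0 → ‖s‖ < ε → AnalyticAt ℂ φ s :=
  ev_iff.1 h

theorem _root_.MeromorphicAt.hol {φ : ℂ → ℂ} (h : MeromorphicAt φ 0) : Hol φ :=
  h.eventually_analyticAt

theorem Hol.add {φ ψ : ℂ → ℂ} (h : Hol φ) (h' : Hol ψ) : Hol fun s => φ s + ψ s := by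
  filter_upwards [h, h'] with s h1 h2 using h1.add h2

theorem Hol.sub {φ ψ : ℂ → ℂ} (h : Hol φ) (h' : Hol ψ) : Hol fun s => φ s - ψ s := by
  filter_upwards [h, h'] with s h1 h2 using h1.sub h2

theorem Hol.neg {φ : ℂ → ℂ} (h : Hol φ) : Hol fun s => -φ s := by
  filter_upwards [h] with s h1 using h1.neg

theorem Hol.mul {φ ψ : ℂ → ℂ} (h : Hol φ) (h' : Hol ψ) : Hol fun s => φ s * ψ s := by
  filter_upwards [h, h'] with s h1 h2 using h1.mul h2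

theorem Hol.pow {φ : ℂ → ℂ} (h : Hol φ) (n : ℕ) : Hol fun s => φ s ^ n := by
  filter_upwards [h] with s h1 using h1.pow n

theorem Hol.cexp {φ : ℂ → ℂ} (h : Hol φ) : Hol fun s => Complex.exp (φ s) := by
  filter_upwards [h] with s h1 using h1.cexp

theorem Hol.const (c : ℂ) : Hol fun _ => c := Eventually.of_forall fun _ => analyticAt_const

theorem Hol.sum {ι : Type} (S : Finset ι) {φ : ι → ℂ → ℂ} (h : ∀ i ∈ S, Hol (φ i)) :
    Hol fun s => ∑ i ∈ S, φ i s := by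
  classical
  induction S using Finset.induction_on with
  | empty => simpa using Hol.const 0
  | insert a S ha ih =>
    have h1 := (h a (Finset.mem_insert_self a S)).add
      (ih fun i hi => h i (Finset.mem_insert_of_mem hi))
    simpa only [Finset.sum_insert ha] using h1

theorem Hol.deriv {φ : ℂ → ℂ} (h : Hol φ) : Hol (deriv φ) := by
  filter_upwards [h] with s h1 using h1.deriv

theorem Hol.congr {φ ψ : ℂ → ℂ} (h : Hol φ) (h' : ∀ᶠ s in 𝓝[≠] (0 : ℂ), φ s = ψ s) : Hol ψ := by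
  obtain ⟨ε, hε, h1⟩ := ev_iff.1 (h.and h')
  rw [Hol, ev_iff]
  refine ⟨ε, hε, fun s hs hn => ?_⟩
  refine (h1 s hs hn).1.congr ?_
  have hopen : IsOpen {s : ℂ | s ≠ 0 ∧ ‖s‖ < ε} :=
    (isOpen_ne).inter (isOpen_lt continuous_norm continuous_const)
  filter_upwards [hopen.mem_nhds ⟨hs, hn⟩] with w hw using (h1 w hw.1 hw.2).2

/-- absorption -/
theorem absorb (k : ℕ) (c : ℝ) {e : ℝ} (he : 0 < e) {D : ℕ} (hD : 1 ≤ D) :
    ∀ᶠ s in 𝓝[≠] (0 : ℂ), c * ‖s‖⁻¹ ^ k ≤ Real.exp (e * ‖s‖⁻¹ ^ D) := by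
  have h1 : Tendsto (fun s : ℂ => ‖s‖⁻¹) (𝓝[≠] 0) atTop :=
    (tendsto_norm_nhdsNE_zero).inv_tendsto_nhdsGT_zero
  have h2 : ∀ᶠ u : ℝ in atTop, c * u ^ k ≤ Real.exp (e * u ^ D) := by
    have h3 := (isLittleO_pow_exp_pos_mul_atTop k he).bound
      (show (0 : ℝ) < (|c| + 1)⁻¹ by positivity)
    filter_upwards [h3, eventually_ge_atTop 1] with u hu hu1
    have h4 : u ^ k ≤ (|c| + 1)⁻¹ * Real.exp (e * u) := by
      have := hu
      rwa [Real.norm_of_nonneg (by positivity), Real.norm_of_nonneg (Real.exp_pos _).le] at this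
    have h5 : (|c| + 1) * u ^ k ≤ Real.exp (e * u) := by
      rw [inv_mul_eq_div, le_div_iff₀ (by positivity)] at h4
      linarith
    have h6 : c * u ^ k ≤ (|c| + 1) * u ^ k := by
      gcongr
      linarith [le_abs_self c]
    have h7 : u ≤ u ^ D := by
      calc u = u ^ 1 := (pow_one u).symm
        _ ≤ u ^ D := pow_le_pow_right₀ hu1 hD
    refine h6.trans (h5.trans (Real.exp_le_exp.2 ?_))
    gcongr
  exact h1.eventually h2

/-- absorption along a ray -/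
theorem absorb_r (k : ℕ) (c : ℝ) {e : ℝ} (he : 0 < e) {D : ℕ} (hD : 1 ≤ D) :
    ∀ᶠ t : ℝ in 𝓝[>] (0 : ℝ), c * t⁻¹ ^ k ≤ Real.exp (e * t⁻¹ ^ D) := by
  obtain ⟨ε, hε, h⟩ := ev_iff.1 (absorb k c he hD)
  rw [evr_iff]
  refine ⟨ε, hε, fun t ht hte => ?_⟩
  have h1 := h (t : ℂ) (by exact_mod_cast ht.ne') (by
    rw [Complex.norm_real, Real.norm_of_nonneg ht.le]; exact hte)
  rwa [Complex.norm_real, Real.norm_of_nonneg ht.le] at h1

/-- the class of growth `A` -/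
def Gt (D : ℕ) (A : ℝ) (φ : ℂ → ℂ) : Prop :=
  Hol φ ∧ ∀ B > A, ∀ᶠ s in 𝓝[≠] (0 : ℂ), ‖φ s‖ ≤ Real.exp (B * ‖s‖⁻¹ ^ D)

variable {D : ℕ} {A B T : ℝ} {φ ψ : ℂ → ℂ}

theorem Gt.congr (h : Gt D A φ) (h' : ∀ᶠ s in 𝓝[≠] (0 : ℂ), φ s = ψ s) : Gt D A ψ := by
  refine ⟨h.1.congr h', fun B hB => ?_⟩
  filter_upwards [h.2 B hB, h'] with s h1 h2
  rwa [← h2]

theorem Gt.mono (h : Gt D A φ) (hAB : A ≤ B) : Gt D B φ :=
  ⟨h.1, fun _ hC => h.2 _ (lt_of_le_of_lt hAB hC)⟩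

theorem Gt.mul (h : Gt D A φ) (h' : Gt D B ψ) : Gt D (A + B) fun s => φ s * ψ s := by
  refine ⟨h.1.mul h'.1, fun C hC => ?_⟩
  filter_upwards [h.2 (A + (C - (A + B)) / 2) (by linarith),
    h'.2 (B + (C - (A + B)) / 2) (by linarith)] with s h1 h2
  rw [norm_mul]
  calc ‖φ s‖ * ‖ψ s‖ ≤ Real.exp ((A + (C - (A + B)) / 2) * ‖s‖⁻¹ ^ D) *
        Real.exp ((B + (C - (A + B)) / 2) * ‖s‖⁻¹ ^ D) := by gcongr
    _ = Real.exp (C * ‖s‖⁻¹ ^ D) := by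
      rw [← Real.exp_add]
      congr 1
      ring

theorem Gt.add (hD : 1 ≤ D) (h : Gt D A φ) (h' : Gt D A ψ) : Gt D A fun s => φ s + ψ s := by
  refine ⟨h.1.add h'.1, fun C hC => ?_⟩
  filter_upwards [h.2 (A + (C - A) / 2) (by linarith), h'.2 (A + (C - A) / 2) (by linarith),
    absorb 0 2 (show 0 < (C - A) / 2 by linarith) hD] with s h1 h2 h3
  rw [pow_zero, mul_one] at h3
  calc ‖φ s + ψ s‖ ≤ ‖φ s‖ + ‖ψ s‖ := norm_add_le _ _
    _ ≤ 2 * Real.exp ((A + (C - A) / 2) * ‖s‖⁻¹ ^ D) := by linarith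
    _ ≤ Real.exp ((C - A) / 2 * ‖s‖⁻¹ ^ D) * Real.exp ((A + (C - A) / 2) * ‖s‖⁻¹ ^ D) := by gcongr
    _ = Real.exp (C * ‖s‖⁻¹ ^ D) := by
      rw [← Real.exp_add]
      congr 1
      ring

theorem Gt.neg (h : Gt D A φ) : Gt D A fun s => -φ s := by
  refine ⟨h.1.neg, fun C hC => ?_⟩
  filter_upwards [h.2 C hC] with s h1
  rwa [norm_neg]

theorem Gt.sub (hD : 1 ≤ D) (h : Gt D A φ) (h' : Gt D A ψ) : Gt D A fun s => φ s - ψ s := by
  simpa only [sub_eq_add_neg] using h.add hD h'.neg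

theorem gt_const (hD : 1 ≤ D) (c : ℂ) : Gt D 0 fun _ => c := by
  refine ⟨Hol.const c, fun B hB => ?_⟩
  filter_upwards [absorb 0 ‖c‖ hB hD] with s h1
  rwa [pow_zero, mul_one] at h1

theorem Gt.pow (hD : 1 ≤ D) (h : Gt D A φ) (n : ℕ) : Gt D (n * A) fun s => φ s ^ n := by
  induction n with
  | zero => simpa using gt_const hD 1
  | succ n ih =>
    have h1 := ih.mul h
    simp only [pow_succ]
    refine h1.mono (le_of_eq ?_)
    push_cast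
    ring

theorem Gt.sum (hD : 1 ≤ D) (hA : 0 ≤ A) {ι : Type} (S : Finset ι) {φ : ι → ℂ → ℂ}
    (h : ∀ i ∈ S, Gt D A (φ i)) : Gt D A fun s => ∑ i ∈ S, φ i s := by
  classical
  induction S using Finset.induction_on with
  | empty => simpa using (gt_const hD 0).mono hA
  | insert a S ha ih =>
    have h1 := (h a (Finset.mem_insert_self a S)).add hD
      (ih fun i hi => h i (Finset.mem_insert_of_mem hi))
    simpa only [Finset.sum_insert ha] using h1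

/-- meromorphic functions are bounded by powers -/
theorem mero_bound {m : ℂ → ℂ} (hm : MeromorphicAt m 0) :
    ∃ (k : ℕ) (c : ℝ), ∀ᶠ s in 𝓝[≠] (0 : ℂ), ‖m s‖ ≤ c * ‖s‖⁻¹ ^ k := by
  obtain ⟨k, hk⟩ := hm
  have h1 := hk.continuousAt.norm.eventually (gt_mem_nhds (lt_add_one ‖((0 : ℂ) - 0) ^ k • m 0‖))
  refine ⟨k, ‖((0 : ℂ) - 0) ^ k • m 0‖ + 1, ?_⟩
  filter_upwards [h1.filter_mono nhdsWithin_le_nhds, self_mem_nhdsWithin] with s hs hs0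
  have hs0' : s ≠ 0 := hs0
  have h2 : ‖(s - 0) ^ k • m s‖ = ‖s‖ ^ k * ‖m s‖ := by
    rw [sub_zero, smul_eq_mul, norm_mul, norm_pow]
  have h3 : 0 < ‖s‖ ^ k := pow_pos (norm_pos_iff.2 hs0') k
  rw [inv_pow, ← div_eq_mul_inv, le_div_iff₀ h3, mul_comm]
  calc ‖s‖ ^ k * ‖m s‖ = ‖(s - 0) ^ k • m s‖ := h2.symm
    _ ≤ _ := hs.le

theorem gt_mero (hD : 1 ≤ D) {m : ℂ → ℂ} (hm : MeromorphicAt m 0) : Gt D 0 m := by
  obtain ⟨k, c, h⟩ := mero_bound hm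
  refine ⟨hm.hol, fun B hB => ?_⟩
  filter_upwards [h, absorb k c hB hD] with s h1 h2 using h1.trans h2

/-- Cauchy's estimate -/
theorem cauchy_est {φ : ℂ → ℂ} {s : ℂ} {r C : ℝ} (hr : 0 < r)
    (hφ : ∀ w ∈ closedBall s r, AnalyticAt ℂ φ w) (hC : ∀ w ∈ closedBall s r, ‖φ w‖ ≤ C) :
    ‖deriv φ s‖ ≤ C / r := by
  refine Complex.norm_deriv_le_of_forall_mem_sphere_norm_le hr ?_
    fun w hw => hC w (sphere_subset_closedBall hw)
  refine DifferentiableOn.diffContOnCl ?_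
  rw [closure_ball _ hr.ne']
  exact fun w hw => (hφ w hw).differentiableAt.differentiableWithinAt

theorem Gt.deriv (hD : 1 ≤ D) (hA : 0 ≤ A) (h : Gt D A φ) : Gt D A (deriv φ) := by
  refine ⟨h.1.deriv, fun B hB => ?_⟩
  -- the radius
  obtain ⟨η, hη0, hη1, hη⟩ : ∃ η : ℝ, 0 < η ∧ η < 1 ∧
      (A + (B - A) / 3) * (1 - η)⁻¹ ^ D < A + 2 * ((B - A) / 3) := by
    have hc : ContinuousAt (fun η : ℝ => (A + (B - A) / 3) * (1 - η)⁻¹ ^ D) 0 := by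
      refine ContinuousAt.mul continuousAt_const (ContinuousAt.pow ?_ _)
      exact ContinuousAt.inv₀ (by fun_prop) (by norm_num)
    have h1 : (fun η : ℝ => (A + (B - A) / 3) * (1 - η)⁻¹ ^ D) 0 < A + 2 * ((B - A) / 3) := by
      simp only [sub_zero, inv_one, one_pow, mul_one]
      linarith
    have h2 := hc.eventually (gt_mem_nhds h1)
    have h3 : ∀ᶠ η : ℝ in 𝓝[>] 0, (A + (B - A) / 3) * (1 - η)⁻¹ ^ D < A + 2 * ((B - A) / 3) :=
      h2.filter_mono nhdsWithin_le_nhds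
    obtain ⟨ε, hε, h4⟩ := evr_iff.1 h3
    refine ⟨min (ε / 2) (1 / 2), by positivity, by
      exact lt_of_le_of_lt (min_le_right _ _) (by norm_num), h4 _ (by positivity) ?_⟩
    exact lt_of_le_of_lt (min_le_left _ _) (by linarith)
  obtain ⟨ε₁, hε₁, h1⟩ := h.1.exists
  obtain ⟨ε₂, hε₂, h2⟩ := ev_iff.1 (h.2 (A + (B - A) / 3) (by linarith))
  have h3 : ∀ᶠ s in 𝓝[≠] (0 : ℂ), ‖s‖ < min ε₁ ε₂ / 2 := by
    rw [ev_iff]
    exact ⟨min ε₁ ε₂ / 2, by positivity, fun s _ hs => hs⟩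
  filter_upwards [h3, self_mem_nhdsWithin, absorb 1 η⁻¹ (show 0 < (B - A) / 3 by linarith) hD]
    with s hs hs0 hab
  have hs0' : s ≠ 0 := hs0
  have hsp : 0 < ‖s‖ := norm_pos_iff.2 hs0'
  have hmem : ∀ w ∈ closedBall s (η * ‖s‖), w ≠ 0 ∧ ‖w‖ < min ε₁ ε₂ ∧ (1 - η) * ‖s‖ ≤ ‖w‖ := by
    intro w hw
    rw [mem_closedBall, dist_eq_norm] at hw
    have h4 : ‖s‖ - ‖w‖ ≤ ‖s - w‖ := norm_sub_norm_le s w
    have h5 : ‖w‖ - ‖s‖ ≤ ‖w - s‖ := norm_sub_norm_le w s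
    rw [norm_sub_rev] at h4
    have h6 : (1 - η) * ‖s‖ ≤ ‖w‖ := by linarith
    refine ⟨?_, ?_, h6⟩
    · rintro rfl
      rw [norm_zero] at h6
      have : 0 < (1 - η) * ‖s‖ := mul_pos (by linarith) hsp
      linarith
    · have : η * ‖s‖ < ‖s‖ := by
        calc η * ‖s‖ < 1 * ‖s‖ := by gcongr
          _ = ‖s‖ := one_mul _
      linarith
  have h4 := cauchy_est (φ := φ) (s := s) (r := η * ‖s‖)
    (C := Real.exp ((A + 2 * ((B - A) / 3)) * ‖s‖⁻¹ ^ D)) (by positivity)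
    (fun w hw => h1 w (hmem w hw).1 ((hmem w hw).2.1.trans_le (min_le_left _ _)))
    (fun w hw => by
      refine (h2 w (hmem w hw).1 ((hmem w hw).2.1.trans_le (min_le_right _ _))).trans
        (Real.exp_le_exp.2 ?_)
      have h5 : ‖w‖⁻¹ ≤ (1 - η)⁻¹ * ‖s‖⁻¹ := by
        rw [← mul_inv]
        have : 0 < (1 - η) * ‖s‖ := mul_pos (by linarith) hsp
        exact inv_anti₀ this (hmem w hw).2.2
      have h6 : ‖w‖⁻¹ ^ D ≤ (1 - η)⁻¹ ^ D * ‖s‖⁻¹ ^ D := by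
        rw [← mul_pow]
        gcongr
      calc (A + (B - A) / 3) * ‖w‖⁻¹ ^ D ≤ (A + (B - A) / 3) * ((1 - η)⁻¹ ^ D * ‖s‖⁻¹ ^ D) := by
            have : 0 ≤ A + (B - A) / 3 := by linarith
            gcongr
        _ = ((A + (B - A) / 3) * (1 - η)⁻¹ ^ D) * ‖s‖⁻¹ ^ D := by ring
        _ ≤ (A + 2 * ((B - A) / 3)) * ‖s‖⁻¹ ^ D := by gcongr)
  refine h4.trans ?_
  rw [div_eq_mul_inv, mul_inv, mul_comm]
  rw [pow_one] at hab
  calc η⁻¹ * ‖s‖⁻¹ * Real.exp ((A + 2 * ((B - A) / 3)) * ‖s‖⁻¹ ^ D) ≤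
      Real.exp ((B - A) / 3 * ‖s‖⁻¹ ^ D) * Real.exp ((A + 2 * ((B - A) / 3)) * ‖s‖⁻¹ ^ D) := by
        gcongr
    _ = Real.exp (B * ‖s‖⁻¹ ^ D) := by
      rw [← Real.exp_add]
      congr 1
      ring

/-- the class of decay `T` near the ray through `ω` -/
def Dec (D : ℕ) (ω : ℂ) (δ T : ℝ) (φ : ℂ → ℂ) : Prop :=
  Hol φ ∧ ∀ δ' < δ, ∀ T' < T, ∀ᶠ t : ℝ in 𝓝[>] (0 : ℝ), ∀ s ∈ closedBall ((t : ℂ) * ω) (δ' * t),
    ‖φ s‖ ≤ Real.exp (-T' * t⁻¹ ^ D)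

variable {ω : ℂ} {δ : ℝ}

theorem near_ray (hω : ‖ω‖ = 1) {δ' t : ℝ} (ht : 0 < t) {s : ℂ}
    (hs : s ∈ closedBall ((t : ℂ) * ω) (δ' * t)) : (1 - δ') * t ≤ ‖s‖ ∧ ‖s‖ ≤ (1 + δ') * t := by
  rw [mem_closedBall, dist_eq_norm] at hs
  have h1 : ‖(t : ℂ) * ω‖ = t := by
    rw [norm_mul, hω, mul_one, Complex.norm_real, Real.norm_of_nonneg ht.le]
  have h2 := norm_sub_norm_le s ((t : ℂ) * ω)
  have h3 := norm_sub_norm_le ((t : ℂ) * ω) s
  rw [norm_sub_rev] at h3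
  constructor <;> linarith

/-- eventually near the origin, then eventually along the ray -/
theorem ev_ray (hω : ‖ω‖ = 1) {δ' : ℝ} (hδ' : δ' < 1) {p : ℂ → Prop}
    (h : ∀ᶠ s in 𝓝[≠] (0 : ℂ), p s) :
    ∀ᶠ t : ℝ in 𝓝[>] (0 : ℝ), ∀ s ∈ closedBall ((t : ℂ) * ω) (δ' * t), p s := by
  obtain ⟨ε, hε, h1⟩ := ev_iff.1 h
  rw [evr_iff]
  refine ⟨ε / 2, by positivity, fun t ht hte s hs => ?_⟩
  obtain ⟨h2, h3⟩ := near_ray hω ht hs
  have h4 : 0 < (1 - δ') * t := mul_pos (by linarith) ht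
  refine h1 s ?_ ?_
  · rintro rfl
    rw [norm_zero] at h2
    linarith
  · have : (1 + δ') * t < 2 * t := by
      have : 1 + δ' < 2 := by linarith
      gcongr
    linarith

theorem Dec.mono (h : Dec D ω δ T φ) {T' : ℝ} (hT : T' ≤ T) : Dec D ω δ T' φ :=
  ⟨h.1, fun δ' hδ' T1 hT1 => h.2 δ' hδ' T1 (lt_of_lt_of_le hT1 hT)⟩

theorem Dec.congr (hω : ‖ω‖ = 1) (hδ : δ ≤ 1) (h : Dec D ω δ T φ)
    (h' : ∀ᶠ s in 𝓝[≠] (0 : ℂ), φ s = ψ s) : Dec D ω δ T ψ := by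
  refine ⟨h.1.congr h', fun δ' hδ' T' hT' => ?_⟩
  filter_upwards [h.2 δ' hδ' T' hT', ev_ray hω (lt_of_lt_of_le hδ' hδ) h'] with t h1 h2 s hs
  rw [← h2 s hs]
  exact h1 s hs

theorem Dec.add (hD : 1 ≤ D) (h : Dec D ω δ T φ) (h' : Dec D ω δ T ψ) :
    Dec D ω δ T fun s => φ s + ψ s := by
  refine ⟨h.1.add h'.1, fun δ' hδ' T' hT' => ?_⟩
  filter_upwards [h.2 δ' hδ' (T' + (T - T') / 2) (by linarith),
    h'.2 δ' hδ' (T' + (T - T') / 2) (by linarith),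
    absorb_r 0 2 (show 0 < (T - T') / 2 by linarith) hD] with t h1 h2 h3 s hs
  rw [pow_zero, mul_one] at h3
  calc ‖φ s + ψ s‖ ≤ ‖φ s‖ + ‖ψ s‖ := norm_add_le _ _
    _ ≤ 2 * Real.exp (-(T' + (T - T') / 2) * t⁻¹ ^ D) := by linarith [h1 s hs, h2 s hs]
    _ ≤ Real.exp ((T - T') / 2 * t⁻¹ ^ D) * Real.exp (-(T' + (T - T') / 2) * t⁻¹ ^ D) := by gcongr
    _ = Real.exp (-T' * t⁻¹ ^ D) := by
      rw [← Real.exp_add]
      congr 1
      ring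

theorem Dec.neg (h : Dec D ω δ T φ) : Dec D ω δ T fun s => -φ s := by
  refine ⟨h.1.neg, fun δ' hδ' T' hT' => ?_⟩
  filter_upwards [h.2 δ' hδ' T' hT'] with t h1 s hs
  rw [norm_neg]
  exact h1 s hs

theorem Dec.sub (hD : 1 ≤ D) (h : Dec D ω δ T φ) (h' : Dec D ω δ T ψ) :
    Dec D ω δ T fun s => φ s - ψ s := by
  simpa only [sub_eq_add_neg] using h.add hD h'.neg

/-- products with functions of growth `A` -/
theorem Dec.mul_gt (hω : ‖ω‖ = 1) (hδ : δ ≤ 1 / 2) (hA : 0 ≤ A) (h : Dec D ω δ T φ)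
    (h' : Gt D A ψ) : Dec D ω δ (T - A * 2 ^ D) fun s => ψ s * φ s := by
  refine ⟨h'.1.mul h.1, fun δ' hδ' T' hT' => ?_⟩
  set e : ℝ := (T - A * 2 ^ D - T') / 2 with he
  have he0 : 0 < e := by rw [he]; linarith
  have h2D : (0 : ℝ) < 2 ^ D := by positivity
  filter_upwards [h.2 δ' hδ' (T - e) (by linarith),
    ev_ray hω (show δ' < 1 by linarith) (h'.2 (A + e / 2 ^ D) (by
      have : 0 < e / 2 ^ D := by positivity
      linarith)), self_mem_nhdsWithin] with t h1 h2 ht s hs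
  have ht0 : 0 < t := ht
  rw [norm_mul]
  have h3 : ‖ψ s‖ ≤ Real.exp ((A * 2 ^ D + e) * t⁻¹ ^ D) := by
    refine (h2 s hs).trans (Real.exp_le_exp.2 ?_)
    have h4 := (near_ray hω ht0 hs).1
    have h5 : t / 2 ≤ ‖s‖ := by
      have : t / 2 ≤ (1 - δ') * t := by
        rw [div_eq_mul_inv, mul_comm]
        gcongr
        linarith
      linarith
    have h6 : ‖s‖⁻¹ ≤ 2 * t⁻¹ := by
      have h7 := inv_anti₀ (show 0 < t / 2 by positivity) h5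
      rwa [inv_div, div_eq_mul_inv] at h7
    calc (A + e / 2 ^ D) * ‖s‖⁻¹ ^ D ≤ (A + e / 2 ^ D) * (2 * t⁻¹) ^ D := by
          have : 0 ≤ A + e / 2 ^ D := by positivity
          gcongr
      _ = (A * 2 ^ D + e) * t⁻¹ ^ D := by
        rw [mul_pow]
        field_simp
  calc ‖ψ s‖ * ‖φ s‖ ≤ Real.exp ((A * 2 ^ D + e) * t⁻¹ ^ D) * Real.exp (-(T - e) * t⁻¹ ^ D) := by
        gcongr
        exact h1 s hs
    _ = Real.exp (-T' * t⁻¹ ^ D) := by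
      rw [← Real.exp_add]
      congr 1
      rw [he]
      ring

theorem Dec.pow (h : Dec D ω δ T φ) {n : ℕ} (hn : 0 < n) :
    Dec D ω δ (n * T) fun s => φ s ^ n := by
  refine ⟨h.1.pow n, fun δ' hδ' T' hT' => ?_⟩
  have hn' : (0 : ℝ) < n := by exact_mod_cast hn
  filter_upwards [h.2 δ' hδ' (T' / n) (by rw [div_lt_iff₀ hn']; linarith)] with t h1 s hs
  rw [norm_pow]
  calc ‖φ s‖ ^ n ≤ Real.exp (-(T' / n) * t⁻¹ ^ D) ^ n := by gcongr; exact h1 s hs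
    _ = Real.exp (-T' * t⁻¹ ^ D) := by
      rw [← Real.exp_nat_mul]
      congr 1
      field_simp

theorem Dec.deriv (hD : 1 ≤ D) (hω : ‖ω‖ = 1) (hδ : δ ≤ 1) (h : Dec D ω δ T φ) :
    Dec D ω δ T (deriv φ) := by
  refine ⟨h.1.deriv, fun δ' hδ' T' hT' => ?_⟩
  set η : ℝ := (δ - δ') / 2 with hη
  have hη0 : 0 < η := by rw [hη]; linarith
  filter_upwards [h.2 (δ' + η) (by linarith) (T' + (T - T') / 2) (by linarith),
    ev_ray hω (show δ' + η < 1 by linarith) h.1, self_mem_nhdsWithin,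
    absorb_r 1 η⁻¹ (show 0 < (T - T') / 2 by linarith) hD] with t h1 h2 ht hab s hs
  have ht0 : 0 < t := ht
  have hsub : ∀ w ∈ closedBall s (η * t), w ∈ closedBall ((t : ℂ) * ω) ((δ' + η) * t) := by
    intro w hw
    rw [mem_closedBall] at hw hs ⊢
    calc dist w (t * ω) ≤ dist w s + dist s (t * ω) := dist_triangle _ _ _
      _ ≤ η * t + δ' * t := add_le_add hw hs
      _ = (δ' + η) * t := by ring
  have h3 := cauchy_est (φ := φ) (s := s) (r := η * t) (by positivity)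
    (fun w hw => h2 w (hsub w hw)) (fun w hw => h1 w (hsub w hw))
  refine h3.trans ?_
  rw [pow_one] at hab
  rw [div_eq_mul_inv, mul_inv, mul_comm]
  calc η⁻¹ * t⁻¹ * Real.exp (-(T' + (T - T') / 2) * t⁻¹ ^ D) ≤
      Real.exp ((T - T') / 2 * t⁻¹ ^ D) * Real.exp (-(T' + (T - T') / 2) * t⁻¹ ^ D) := by gcongr
    _ = Real.exp (-T' * t⁻¹ ^ D) := by
      rw [← Real.exp_add]
      congr 1
      ring

end Pool.Agent.V9h68.Rt
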