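import Pool.Agent.V9h68.Rt2

/-!
Lower bounds on circles, growth of quotients, and uniqueness.
-/

set_option autoImplicit false

open Set Filter Metric Topology

noncomputable section

namespace Pool.Agent.V9h68.Rt

/-- a lower bound on circles -/
theorem circle_low {φ : ℂ → ℂ} (h : Hol φ) (hne : ¬ ∀ᶠ s in 𝓝[≠] (0 : ℂ), φ s = 0) :
    ∃ (k : ℕ) (c : ℝ), 0 < c ∧ ∀ᶠ t : ℝ in 𝓝[>] (0 : ℝ), ∃ s, ‖s‖ = t ∧ c * t ^ k ≤ ‖φ s‖ := by
  obtain ⟨ε, hε, h1⟩ := h.exists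
  have h2 : ∃ s, s ≠ 0 ∧ ‖s‖ < ε ∧ φ s ≠ 0 := by
    by_contra hcon
    push Not at hcon
    exact hne (ev_iff.2 ⟨ε, hε, hcon⟩)
  obtain ⟨s₀, hs0, hsε, hφs⟩ := h2
  obtain ⟨t₁, ht1, ht1'⟩ := exists_between hsε
  have hs0p : 0 < ‖s₀‖ := norm_pos_iff.2 hs0
  have ht1p : 0 < t₁ := hs0p.trans ht1
  have hcont : ContinuousOn φ (sphere 0 t₁) := by
    intro w hw
    have hw' : ‖w‖ = t₁ := by simpa using hw
    exact (h1 w (by rw [← norm_pos_iff, hw']; exact ht1p) (by rw [hw']; exact ht1')).continuousAt.continuousWithinAt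
  obtain ⟨M, hM⟩ := (isCompact_sphere (0 : ℂ) t₁).exists_bound_of_continuousOn hcont
  have hq1 : ‖s₀‖ / t₁ < 1 := by rw [div_lt_one ht1p]; exact ht1
  have hM' : 0 < |M| + 1 := by positivity
  obtain ⟨k, hk⟩ := exists_pow_lt_of_lt_one (div_pos (norm_pos_iff.2 hφs) hM') hq1
  set q : ℝ := ‖φ s₀‖ / ‖s₀‖ ^ k with hq
  have hq0 : 0 < q := div_pos (norm_pos_iff.2 hφs) (pow_pos hs0p k)
  have hMq : M / t₁ ^ k < q := by
    rw [lt_div_iff₀ hM', div_pow, div_mul_eq_mul_div, div_lt_iff₀ (pow_pos ht1p k)] at hk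
    rw [hq, div_lt_div_iff₀ (pow_pos ht1p k) (pow_pos hs0p k)]
    calc M * ‖s₀‖ ^ k ≤ (|M| + 1) * ‖s₀‖ ^ k := by
          gcongr
          linarith [le_abs_self M]
      _ = ‖s₀‖ ^ k * (|M| + 1) := mul_comm _ _
      _ < _ := hk
  refine ⟨k, q / 2, by positivity, ?_⟩
  rw [evr_iff]
  refine ⟨‖s₀‖, hs0p, fun t ht hts => ?_⟩
  by_contra hcon
  push Not at hcon
  have hUb : Bornology.IsBounded {s : ℂ | t < ‖s‖ ∧ ‖s‖ < t₁} := by
    refine (isBounded_ball (x := (0 : ℂ)) (r := t₁)).subset ?_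
    intro s hs
    rw [mem_ball_zero_iff]
    exact hs.2
  have hcl : closure {s : ℂ | t < ‖s‖ ∧ ‖s‖ < t₁} ⊆ {s : ℂ | t ≤ ‖s‖ ∧ ‖s‖ ≤ t₁} := by
    refine closure_minimal (fun s hs => ⟨hs.1.le, hs.2.le⟩) ?_
    exact (isClosed_le continuous_const continuous_norm).inter
      (isClosed_le continuous_norm continuous_const)
  have hopen : IsOpen {s : ℂ | t < ‖s‖ ∧ ‖s‖ < t₁} :=
    (isOpen_lt continuous_const continuous_norm).inter (isOpen_lt continuous_norm continuous_const)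
  have hd : DiffContOnCl ℂ (fun s => φ s / s ^ k) {s : ℂ | t < ‖s‖ ∧ ‖s‖ < t₁} := by
    refine DifferentiableOn.diffContOnCl ?_
    intro s hs
    have hs' := hcl hs
    have hsp : 0 < ‖s‖ := lt_of_lt_of_le ht hs'.1
    have hsn : s ≠ 0 := norm_pos_iff.1 hsp
    refine DifferentiableAt.differentiableWithinAt ?_
    refine DifferentiableAt.div (h1 s hsn (lt_of_le_of_lt hs'.2 ht1')).differentiableAt
      (by fun_prop) (pow_ne_zero k hsn)
  have hmax := Complex.norm_le_of_forall_mem_frontier_norm_le hUb hd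
    (C := max (M / t₁ ^ k) (q / 2)) (by
      intro s hs
      rw [hopen.frontier_eq] at hs
      obtain ⟨hs1, hs2⟩ := hs
      have hs1' := hcl hs1
      rw [norm_div, norm_pow]
      rcases hs1'.1.lt_or_eq with h3 | h3
      · have h4 : ‖s‖ = t₁ := by
          rcases hs1'.2.lt_or_eq with h5 | h5
          · exact absurd ⟨h3, h5⟩ hs2
          · exact h5
        refine le_trans ?_ (le_max_left _ _)
        rw [h4]
        gcongr
        exact hM s (by simpa using h4)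
      · refine le_trans ?_ (le_max_right _ _)
        rw [div_le_iff₀ (by rw [← h3]; exact pow_pos ht k), ← h3]
        exact (hcon s h3.symm).le) (z := s₀) (subset_closure ⟨hts, ht1⟩)
  rw [norm_div, norm_pow, ← hq] at hmax
  have h4 : max (M / t₁ ^ k) (q / 2) < q := max_lt hMq (by linarith)
  linarith

/-- comparison of two points of a circle -/
theorem same_circle {s s' : ℂ} (h : ‖s'‖ = ‖s‖) (hs : s ≠ 0) :
    ∃ w : ℂ, ‖w‖ ≤ Real.pi ∧ s' = s * Complex.exp w := by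
  have hs' : s' ≠ 0 := by
    rw [← norm_pos_iff, h, norm_pos_iff]
    exact hs
  have h1 : ‖s' / s‖ = 1 := by
    rw [norm_div, h, div_self (norm_ne_zero_iff.2 hs)]
  refine ⟨Complex.log (s' / s), ?_, ?_⟩
  · have h2 : Complex.log (s' / s) = ((s' / s).arg : ℂ) * Complex.I := by
      apply Complex.ext
      · rw [Complex.log_re, h1, Real.log_one]
        simp
      · rw [Complex.log_im]
        simp
    rw [h2, norm_mul, Complex.norm_I, mul_one, Complex.norm_real]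
    exact Complex.abs_arg_le_pi _
  · rw [Complex.exp_log (div_ne_zero hs' hs)]
    field_simp

theorem norm_mul_exp (s w : ℂ) : ‖s * Complex.exp w‖ = ‖s‖ * Real.exp w.re := by
  rw [norm_mul, Complex.norm_exp]

/-- **growth of quotients** -/
theorem Gt.quot {D : ℕ} (hD : 1 ≤ D) {f g h : ℂ → ℂ} {A : ℝ} (hf : Gt D A f) (hg : Gt D A g)
    (hh : Hol h) (hgf : ∀ᶠ s in 𝓝[≠] (0 : ℂ), g s = h s * f s)
    (hne : ¬ ∀ᶠ s in 𝓝[≠] (0 : ℂ), f s = 0) : ∃ A', 0 ≤ A' ∧ Gt D A' h := by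
  obtain ⟨k, c, hc, hlow⟩ := circle_low hf.1 hne
  set B : ℝ := |A| + 1 with hB
  have hB0 : 0 < B := by positivity
  have hAB : A < B := by linarith [le_abs_self A]
  set E : ℝ := Real.exp (4 * Real.pi) ^ D with hE
  refine ⟨3 * (B * E), by positivity, hh, fun B' hB' => ?_⟩
  obtain ⟨ε, hε, h1⟩ := ev_iff.1 ((hf.1.and hh).and (((hf.2 B hAB).and (hg.2 B hAB)).and hgf))
  obtain ⟨ε₂, hε₂, h2⟩ := evr_iff.1 hlow
  have h3 : ∀ᶠ s in 𝓝[≠] (0 : ℂ), ‖s‖ < min (ε * Real.exp (-(5 * Real.pi))) ε₂ := by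
    rw [ev_iff]
    exact ⟨min (ε * Real.exp (-(5 * Real.pi))) ε₂, by positivity, fun s _ hs => hs⟩
  filter_upwards [h3, self_mem_nhdsWithin,
    absorb (3 * k) (Real.exp 2 / c ^ 3) (show 0 < B' - 3 * (B * E) by linarith) hD]
    with s hs hs0 hab
  have hs0' : s ≠ 0 := hs0
  have hsp : 0 < ‖s‖ := norm_pos_iff.2 hs0'
  obtain ⟨sc, hsc, hfc⟩ := h2 ‖s‖ hsp (lt_of_lt_of_le hs (min_le_right _ _))
  have hsc0 : sc ≠ 0 := by
    rw [← norm_pos_iff, hsc]
    exact hsp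
  obtain ⟨w, hw, hsw⟩ := same_circle (s := sc) (s' := s) hsc.symm hsc0
  have hsmall : ∀ w ∈ ball (0 : ℂ) (5 * Real.pi), sc * Complex.exp w ≠ 0 ∧
      ‖sc * Complex.exp w‖ < ε := by
    intro w hw
    rw [mem_ball_zero_iff] at hw
    refine ⟨mul_ne_zero hsc0 (Complex.exp_ne_zero _), ?_⟩
    rw [norm_mul_exp, hsc]
    have h4 : w.re ≤ 5 * Real.pi := (Complex.re_le_norm w).trans hw.le
    calc ‖s‖ * Real.exp w.re < (ε * Real.exp (-(5 * Real.pi))) * Real.exp (5 * Real.pi) := by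
          refine mul_lt_mul (lt_of_lt_of_le hs (min_le_left _ _)) (Real.exp_le_exp.2 h4)
            (Real.exp_pos _) (by positivity)
      _ = ε := by
        rw [mul_assoc, ← Real.exp_add]
        simp
  have hdiff : ∀ φ : ℂ → ℂ, (∀ s, s ≠ 0 → ‖s‖ < ε → AnalyticAt ℂ φ s) →
      DifferentiableOn ℂ (fun w => φ (sc * Complex.exp w)) (ball 0 (5 * Real.pi)) := by
    intro φ hφ w hw
    obtain ⟨h4, h5⟩ := hsmall w hw
    refine DifferentiableAt.differentiableWithinAt ?_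
    exact (hφ _ h4 h5).differentiableAt.comp w (by fun_prop)
  have hbd : ∀ φ : ℂ → ℂ, (∀ s, s ≠ 0 → ‖s‖ < ε → ‖φ s‖ ≤ Real.exp (B * ‖s‖⁻¹ ^ D)) →
      ∀ w ∈ closedBall (0 : ℂ) (4 * Real.pi), ‖φ (sc * Complex.exp w)‖ ≤
        Real.exp (B * E * ‖s‖⁻¹ ^ D) := by
    intro φ hφ w hw
    have hw' : ‖w‖ ≤ 4 * Real.pi := by simpa using hw
    obtain ⟨h4, h5⟩ := hsmall w (by
      rw [mem_ball_zero_iff]
      have := Real.pi_pos
      linarith)
    refine (hφ _ h4 h5).trans (Real.exp_le_exp.2 ?_)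
    rw [norm_mul_exp, hsc, mul_inv, mul_pow, hE]
    have h6 : (Real.exp w.re)⁻¹ ≤ Real.exp (4 * Real.pi) := by
      rw [← Real.exp_neg]
      refine Real.exp_le_exp.2 ?_
      have h7 := Complex.abs_re_le_norm w
      have h8 := neg_abs_le w.re
      linarith
    have h7 : (Real.exp w.re)⁻¹ ^ D ≤ Real.exp (4 * Real.pi) ^ D := by gcongr
    calc B * (‖s‖⁻¹ ^ D * (Real.exp w.re)⁻¹ ^ D) ≤
        B * (‖s‖⁻¹ ^ D * Real.exp (4 * Real.pi) ^ D) := by gcongr
      _ = B * Real.exp (4 * Real.pi) ^ D * ‖s‖⁻¹ ^ D := by ring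
  have h4 := quot_bound (r := Real.pi) Real.pi_pos
    (f := fun w => f (sc * Complex.exp w)) (g := fun w => g (sc * Complex.exp w))
    (h := fun w => h (sc * Complex.exp w))
    (hdiff f fun s h4 h5 => (h1 s h4 h5).1.1) (hdiff h fun s h4 h5 => (h1 s h4 h5).1.2)
    (fun w hw => (h1 _ (hsmall w hw).1 (hsmall w hw).2).2.2)
    (hbd f fun s h4 h5 => (h1 s h4 h5).2.1.1) (hbd g fun s h4 h5 => (h1 s h4 h5).2.1.2)
    (by
      rw [Complex.exp_zero, mul_one, ← norm_pos_iff]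
      exact lt_of_lt_of_le (by positivity) hfc) hw
  simp only [Complex.exp_zero, mul_one] at h4
  rw [← hsw] at h4
  refine h4.trans ?_
  have hfp : 0 < c * ‖s‖ ^ k := by positivity
  calc Real.exp 2 * Real.exp (B * E * ‖s‖⁻¹ ^ D) * Real.exp (B * E * ‖s‖⁻¹ ^ D) ^ 2 / ‖f sc‖ ^ 3 ≤
      Real.exp 2 * Real.exp (B * E * ‖s‖⁻¹ ^ D) * Real.exp (B * E * ‖s‖⁻¹ ^ D) ^ 2 /
        (c * ‖s‖ ^ k) ^ 3 := by gcongr
    _ = (Real.exp 2 / c ^ 3 * ‖s‖⁻¹ ^ (3 * k)) * Real.exp (3 * (B * E) * ‖s‖⁻¹ ^ D) := by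
      rw [show (3 : ℝ) * (B * E) * ‖s‖⁻¹ ^ D = B * E * ‖s‖⁻¹ ^ D + (B * E * ‖s‖⁻¹ ^ D +
        B * E * ‖s‖⁻¹ ^ D) by ring, Real.exp_add, Real.exp_add, mul_pow, ← pow_mul, inv_pow,
        mul_comm k 3]
      field_simp
      rw [← mul_pow, mul_one_div_cancel hsp.ne', one_pow]
    _ ≤ Real.exp ((B' - 3 * (B * E)) * ‖s‖⁻¹ ^ D) * Real.exp (3 * (B * E) * ‖s‖⁻¹ ^ D) := by gcongr
    _ = Real.exp (B' * ‖s‖⁻¹ ^ D) := by
      rw [← Real.exp_add]
      congr 1
      ring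

/-- **three circles** -/
theorem three_circles {ρ₁ ρm ρ₂ ρ₃ : ℝ} (h1 : 0 < ρ₁) (h1m : ρ₁ ≤ ρm) (h2m : ρm ≤ ρ₂) (h12 : ρ₁ < ρ₂)
    (h3 : ρ₂ < ρ₃) {F : ℂ → ℂ} (hF : DifferentiableOn ℂ F (ball 0 ρ₃)) {a b : ℝ} (ha : 0 ≤ a + b)
    (hFa : ∀ w, ‖w‖ ≤ ρ₁ → ‖F w‖ ≤ Real.exp (-a)) (hFb : ∀ w, ‖w‖ ≤ ρ₂ → ‖F w‖ ≤ Real.exp b)
    {w : ℂ} (hw : ‖w‖ ≤ ρm) : ‖F w‖ ≤ Real.exp (-a +
      (Real.log ρm - Real.log ρ₁) / (Real.log ρ₂ - Real.log ρ₁) * (a + b)) := by
  have hll : Real.log ρ₁ < Real.log ρ₂ := Real.log_lt_log h1 h12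
  have hlm : Real.log ρ₁ ≤ Real.log ρm := Real.log_le_log h1 h1m
  have hdiv : 0 < Real.log ρ₂ - Real.log ρ₁ := by linarith
  rcases le_or_gt ‖w‖ ρ₁ with hw1 | hw1
  · refine (hFa w hw1).trans (Real.exp_le_exp.2 ?_)
    have : 0 ≤ (Real.log ρm - Real.log ρ₁) / (Real.log ρ₂ - Real.log ρ₁) * (a + b) := by
      refine mul_nonneg (div_nonneg (by linarith) hdiv.le) ha
    linarith
  · have hwp : 0 < ‖w‖ := h1.trans hw1
    have hwn : w ≠ 0 := norm_pos_iff.1 hwp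
    have hre : (Complex.log w).re = Real.log ‖w‖ := Complex.log_re w
    have hlog1 : Real.log ρ₁ ≤ Real.log ‖w‖ := Real.log_le_log h1 hw1.le
    have hlog2 : Real.log ‖w‖ ≤ Real.log ρ₂ := Real.log_le_log hwp (hw.trans h2m)
    have hlogm : Real.log ‖w‖ ≤ Real.log ρm := Real.log_le_log hwp hw
    have hnexp : ∀ z : ℂ, z.re ≤ Real.log ρ₂ → ‖Complex.exp z‖ ≤ ρ₂ := by
      intro z hz
      rw [Complex.norm_exp, ← Real.exp_log (h1.trans h12)]
      exact Real.exp_le_exp.2 hz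
    have key := Complex.HadamardThreeLines.norm_le_interp_of_mem_verticalClosedStrip'
      (f := fun z => F (Complex.exp z)) (z := Complex.log w) (a := Real.exp (-a))
      (b := Real.exp b) (l := Real.log ρ₁) (u := Real.log ρ₂) hll
      (by
        change (Complex.log w).re ∈ Icc (Real.log ρ₁) (Real.log ρ₂)
        rw [hre]
        exact ⟨hlog1, hlog2⟩)
      (by
        refine DifferentiableOn.diffContOnCl ?_
        intro z hz
        have hz' : z.re ≤ Real.log ρ₂ := by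
          have hsub : closure (Complex.HadamardThreeLines.verticalStrip (Real.log ρ₁)
              (Real.log ρ₂)) ⊆ {z : ℂ | z.re ≤ Real.log ρ₂} := by
            refine closure_minimal ?_ (isClosed_le Complex.continuous_re continuous_const)
            intro z hz
            exact (hz.2 : z.re < _).le
          exact hsub hz
        refine DifferentiableAt.differentiableWithinAt ?_
        have h4 : Complex.exp z ∈ ball (0 : ℂ) ρ₃ := by
          rw [mem_ball_zero_iff]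
          exact lt_of_le_of_lt (hnexp z hz') h3
        exact ((hF _ h4).differentiableAt (isOpen_ball.mem_nhds h4)).comp z (by fun_prop))
      (by
        refine ⟨Real.exp b, ?_⟩
        rintro _ ⟨z, hz, rfl⟩
        exact hFb _ (hnexp z (hz.2 : z.re ≤ _)))
      (by
        intro z hz
        have hz' : z.re = Real.log ρ₁ := hz
        refine hFa _ ?_
        rw [Complex.norm_exp, hz', Real.exp_log h1])
      (by
        intro z hz
        have hz' : z.re = Real.log ρ₂ := hz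
        exact hFb _ (hnexp z hz'.le))
    rw [Complex.exp_log hwn, hre] at key
    refine key.trans ?_
    rw [← Real.exp_mul, ← Real.exp_mul, ← Real.exp_add]
    refine Real.exp_le_exp.2 ?_
    have h4 : (Real.log ‖w‖ - Real.log ρ₁) / (Real.log ρ₂ - Real.log ρ₁) ≤
        (Real.log ρm - Real.log ρ₁) / (Real.log ρ₂ - Real.log ρ₁) := by gcongr
    have h5 : (Real.log ‖w‖ - Real.log ρ₁) / (Real.log ρ₂ - Real.log ρ₁) * (a + b) ≤
        (Real.log ρm - Real.log ρ₁) / (Real.log ρ₂ - Real.log ρ₁) * (a + b) := by gcongr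
    calc -a * (1 - (Real.log ‖w‖ - Real.log ρ₁) / (Real.log ρ₂ - Real.log ρ₁)) +
        b * ((Real.log ‖w‖ - Real.log ρ₁) / (Real.log ρ₂ - Real.log ρ₁)) =
        -a + (Real.log ‖w‖ - Real.log ρ₁) / (Real.log ρ₂ - Real.log ρ₁) * (a + b) := by ring
      _ ≤ _ := by linarith

/-- **uniqueness**: functions of growth `A` which decay fast near a ray vanish -/
theorem uniq {D : ℕ} (hD : 1 ≤ D) {δ : ℝ} (hδ : 0 < δ) (hδ1 : δ ≤ 1) :
    ∃ c : ℝ, 0 < c ∧ ∀ (ω : ℂ), ‖ω‖ = 1 → ∀ (A T : ℝ), 0 ≤ A → c * A < T → ∀ φ : ℂ → ℂ,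
      Gt D A φ → Dec D ω δ T φ → ∀ᶠ s in 𝓝[≠] (0 : ℂ), φ s = 0 := by
  have hpi := Real.pi_pos
  have hpi3 := Real.pi_gt_three
  set θ : ℝ := (Real.log Real.pi - Real.log (δ / 4)) / (Real.log (2 * Real.pi) - Real.log (δ / 4))
    with hθ
  have hl1 : Real.log (δ / 4) < Real.log Real.pi := Real.log_lt_log (by positivity) (by linarith)
  have hl2 : Real.log Real.pi < Real.log (2 * Real.pi) := Real.log_lt_log hpi (by linarith)
  have hθ0 : 0 < θ := div_pos (by linarith) (by linarith)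
  have hθ1 : θ < 1 := by
    rw [hθ, div_lt_one (by linarith)]
    linarith
  set E : ℝ := Real.exp (2 * Real.pi) ^ D with hE
  have hE0 : 0 < E := by positivity
  have h1θ : 0 < 1 - θ := by linarith
  refine ⟨E * θ / (1 - θ), by positivity, fun ω hω A T hA hT φ hG hDec => ?_⟩
  by_contra hne
  have hgap : 0 < (1 - θ) * T - θ * A * E := by
    rw [div_mul_eq_mul_div, div_lt_iff₀ h1θ] at hT
    linarith
  set η : ℝ := ((1 - θ) * T - θ * A * E) / (2 * ((1 - θ) + θ * E)) with hη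
  have hden : 0 < (1 - θ) + θ * E := by positivity
  have hη0 : 0 < η := by positivity
  have hηe : ((1 - θ) + θ * E) * η = ((1 - θ) * T - θ * A * E) / 2 := by
    rw [hη]
    field_simp
  set κ : ℝ := (1 - θ) * (T - η) - θ * (A + η) * E with hκ
  have hκ0 : 0 < κ := by
    have : κ = ((1 - θ) * T - θ * A * E) - ((1 - θ) + θ * E) * η := by
      rw [hκ]
      ring
    rw [this, hηe]
    linarith
  have hTη : 0 < T - η := by
    have : 0 < (1 - θ) * (T - η) := by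
      have : 0 ≤ θ * (A + η) * E := by positivity
      linarith
    exact (mul_pos_iff_of_pos_left h1θ).1 this
  obtain ⟨k, c, hc, hlow⟩ := circle_low hG.1 hne
  obtain ⟨ε, hε, h1⟩ := ev_iff.1 (hG.1.and (hG.2 (A + η) (by linarith)))
  have h3 : ∀ᶠ t : ℝ in 𝓝[>] (0 : ℝ), t < ε * Real.exp (-(3 * Real.pi)) := by
    rw [evr_iff]
    exact ⟨ε * Real.exp (-(3 * Real.pi)), by positivity, fun s _ hs => hs⟩
  have hpos : ∀ᶠ t : ℝ in 𝓝[>] (0 : ℝ), 0 < t := self_mem_nhdsWithin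
  obtain ⟨t, ht0, hlt, ht3, htD, hab⟩ := (hpos.and (hlow.and (h3.and
    ((hDec.2 (δ / 2) (by linarith) (T - η) (by linarith)).and
      (absorb_r k (2 / c) hκ0 hD))))).exists
  obtain ⟨s, hst, hsl⟩ := hlt
  set sc : ℂ := (t : ℂ) * ω with hsc
  have hscn : ‖sc‖ = t := by
    rw [hsc, norm_mul, hω, mul_one, Complex.norm_real, Real.norm_of_nonneg ht0.le]
  have hsc0 : sc ≠ 0 := by
    rw [← norm_pos_iff, hscn]
    exact ht0
  obtain ⟨w, hw, hsw⟩ := same_circle (s := sc) (s' := s) (by rw [hst, hscn]) hsc0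
  have hsmall : ∀ w ∈ ball (0 : ℂ) (3 * Real.pi), sc * Complex.exp w ≠ 0 ∧
      ‖sc * Complex.exp w‖ < ε := by
    intro w hw
    rw [mem_ball_zero_iff] at hw
    refine ⟨mul_ne_zero hsc0 (Complex.exp_ne_zero _), ?_⟩
    rw [norm_mul_exp, hscn]
    have h4 : w.re ≤ 3 * Real.pi := (Complex.re_le_norm w).trans hw.le
    calc t * Real.exp w.re < (ε * Real.exp (-(3 * Real.pi))) * Real.exp (3 * Real.pi) := by
          refine mul_lt_mul ht3 (Real.exp_le_exp.2 h4) (Real.exp_pos _) (by positivity)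
      _ = ε := by
        rw [mul_assoc, ← Real.exp_add]
        simp
  have hTD : 0 < t⁻¹ ^ D := by positivity
  have h4 := three_circles (ρ₁ := δ / 4) (ρm := Real.pi) (ρ₂ := 2 * Real.pi) (ρ₃ := 3 * Real.pi)
    (by positivity) (by linarith) (by linarith) (by linarith) (by linarith)
    (F := fun w => φ (sc * Complex.exp w)) (a := (T - η) * t⁻¹ ^ D) (b := (A + η) * E * t⁻¹ ^ D)
    (by
      intro w hw
      obtain ⟨h4, h5⟩ := hsmall w hw
      refine DifferentiableAt.differentiableWithinAt ?_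
      exact (h1 _ h4 h5).1.differentiableAt.comp w (by fun_prop))
    (by positivity)
    (by
      intro w hw
      have hw1 : ‖w‖ ≤ 1 := by linarith
      have h5 := Complex.norm_exp_sub_one_le hw1
      have h6 : sc * Complex.exp w ∈ closedBall ((t : ℂ) * ω) (δ / 2 * t) := by
        rw [mem_closedBall, dist_eq_norm, ← hsc]
        have : sc * Complex.exp w - sc = sc * (Complex.exp w - 1) := by ring
        rw [this, norm_mul, hscn, mul_comm]
        gcongr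
        linarith
      have h7 := htD _ h6
      rwa [neg_mul] at h7)
    (by
      intro w hw
      obtain ⟨h4, h5⟩ := hsmall w (by rw [mem_ball_zero_iff]; linarith)
      refine (h1 _ h4 h5).2.trans (Real.exp_le_exp.2 ?_)
      rw [norm_mul_exp, hscn, mul_inv, mul_pow, hE]
      have h6 : (Real.exp w.re)⁻¹ ≤ Real.exp (2 * Real.pi) := by
        rw [← Real.exp_neg]
        refine Real.exp_le_exp.2 ?_
        have h7 := Complex.abs_re_le_norm w
        have h8 := neg_abs_le w.re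
        linarith
      have h7 : (Real.exp w.re)⁻¹ ^ D ≤ Real.exp (2 * Real.pi) ^ D := by gcongr
      have h8 : 0 < A + η := by linarith
      calc (A + η) * (t⁻¹ ^ D * (Real.exp w.re)⁻¹ ^ D) ≤
          (A + η) * (t⁻¹ ^ D * Real.exp (2 * Real.pi) ^ D) := by gcongr
        _ = (A + η) * Real.exp (2 * Real.pi) ^ D * t⁻¹ ^ D := by ring)
    (w := w) hw
  rw [← hsw] at h4
  have h5 : -((T - η) * t⁻¹ ^ D) + (Real.log Real.pi - Real.log (δ / 4)) /
      (Real.log (2 * Real.pi) - Real.log (δ / 4)) *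
      ((T - η) * t⁻¹ ^ D + (A + η) * E * t⁻¹ ^ D) = -(κ * t⁻¹ ^ D) := by
    rw [← hθ, hκ]
    ring
  rw [h5, Real.exp_neg] at h4
  have h6 : c * t ^ k ≤ (Real.exp (κ * t⁻¹ ^ D))⁻¹ := hsl.trans h4
  have h7 : (Real.exp (κ * t⁻¹ ^ D))⁻¹ ≤ (2 / c * t⁻¹ ^ k)⁻¹ := inv_anti₀ (by positivity) hab
  have h8 : (2 / c * t⁻¹ ^ k)⁻¹ = c * t ^ k / 2 := by
    rw [inv_pow]
    field_simp
  rw [h8] at h7
  have h9 : 0 < c * t ^ k := by positivity
  linarith

end Pool.Agent.V9h68.Rt
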