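import Pool.Agent.V9h68.Rt3

/-!
Separation of the terms of an exponential sum.
-/

set_option autoImplicit false

open Set Filter Metric Topology

noncomputable section

namespace Pool.Agent.V9h68.Rt

theorem neg_one_le : (-1 : WithTop ℤ) ≤ 0 := by
  have h : (((-1 : ℤ)) : WithTop ℤ) ≤ ((0 : ℤ) : WithTop ℤ) := WithTop.coe_le_coe.2 (by norm_num)
  exact h

theorem neg_two_lt : (-2 : WithTop ℤ) < -1 := by
  have h : (((-2 : ℤ)) : WithTop ℤ) < ((-1 : ℤ) : WithTop ℤ) := WithTop.coe_lt_coe.2 (by norm_num)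
  exact h

/-- the order of a logarithmic derivative -/
theorem order_logDeriv {f : ℂ → ℂ} (hf : MeromorphicAt f 0) (h : meromorphicOrderAt f 0 ≠ ⊤) :
    (-1 : WithTop ℤ) ≤ meromorphicOrderAt (logDeriv f) 0 := by
  by_cases h0 : meromorphicOrderAt f 0 = 0
  · refine le_trans ?_ (meromorphicOrderAt_logDeriv_nonneg hf h0)
    exact neg_one_le
  · exact (meromorphicOrderAt_logDeriv_eq_neg_one hf h0 h).ge

theorem order_sub {f g : ℂ → ℂ} (hf : MeromorphicAt f 0) (hg : MeromorphicAt g 0) {n : WithTop ℤ}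
    (h1 : n ≤ meromorphicOrderAt f 0) (h2 : n ≤ meromorphicOrderAt g 0) :
    n ≤ meromorphicOrderAt (f - g) 0 := by
  rw [sub_eq_add_neg]
  refine le_trans (le_min h1 ?_) (meromorphicOrderAt_add hf hg.neg)
  rwa [← meromorphicOrderAt_neg]

theorem order_lt_of_le {n : WithTop ℤ} (h : n ≤ -2) : n < -1 :=
  lt_of_le_of_lt h neg_two_lt

theorem ne_top_of_le {n : WithTop ℤ} (h : n ≤ -2) : n ≠ ⊤ := by
  rintro rfl
  exact absurd h (by
    rw [not_le]
    exact WithTop.coe_lt_top (-2 : ℤ))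

/-- eventually equal functions have eventually equal derivatives -/
theorem ev_deriv {f g : ℂ → ℂ} (h : ∀ᶠ s in 𝓝[≠] (0 : ℂ), f s = g s) :
    ∀ᶠ s in 𝓝[≠] (0 : ℂ), deriv f s = deriv g s := by
  obtain ⟨ε, hε, h1⟩ := ev_iff.1 h
  rw [ev_iff]
  refine ⟨ε, hε, fun s hs hn => ?_⟩
  refine Filter.EventuallyEq.deriv_eq ?_
  have hopen : IsOpen {s : ℂ | s ≠ 0 ∧ ‖s‖ < ε} :=
    (isOpen_ne).inter (isOpen_lt continuous_norm continuous_const)
  filter_upwards [hopen.mem_nhds ⟨hs, hn⟩] with w hw using h1 w hw.1 hw.2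

/-- **separation** -/
theorem separation {D : ℕ} (hD : 1 ≤ D) {δ : ℝ} (hδ : 0 < δ) (hδ1 : δ ≤ 1 / 2) :
    ∃ c : ℝ, 0 < c ∧ ∀ (ω : ℂ), ‖ω‖ = 1 → ∀ (A B T : ℝ), 0 ≤ A → A ≤ B → c * B < T →
    ∀ {ι : Type} [DecidableEq ι] (S : Finset ι) (i₀ : ι), i₀ ∉ S → ∀ (a ℓ : ι → ℂ → ℂ) (φ : ℂ → ℂ),
    (∀ i ∈ insert i₀ S, Hol (a i)) → (∀ i ∈ insert i₀ S, MeromorphicAt (ℓ i) 0) →
    (∀ i ∈ insert i₀ S, ∀ᶠ s in 𝓝[≠] (0 : ℂ), deriv (a i) s = ℓ i s * a i s) →
    (∀ i ∈ insert i₀ S, ∀ j ∈ insert i₀ S, i ≠ j → meromorphicOrderAt (ℓ i - ℓ j) 0 ≤ -2) →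
    Gt D A φ → Dec D ω δ T (fun s => φ s - ∑ i ∈ insert i₀ S, a i s) → Gt D B (a i₀) →
    (∀ m : ℂ → ℂ, MeromorphicAt m 0 → (∀ᶠ s in 𝓝[≠] (0 : ℂ), m s ≠ 0) →
      ¬ Gt D A fun s => m s * a i₀ s) → False := by
  obtain ⟨c, hc, huniq⟩ := uniq hD hδ (by linarith)
  refine ⟨c, hc, fun ω hω A B T hA hAB hT => ?_⟩
  intro ι _ S
  induction S using Finset.induction_on with
  | empty =>
    intro i₀ _ a ℓ φ ha _ _ _ hφ hdec hB hrob
    have h1 := huniq ω hω B T (hA.trans hAB) hT _ ((hφ.mono hAB).sub hD hB) (by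
      simpa using hdec)
    apply hrob (fun _ => 1) (MeromorphicAt.const 1 0) (Eventually.of_forall fun _ => one_ne_zero)
    refine hφ.congr ?_
    filter_upwards [h1] with s hs
    rw [one_mul]
    exact sub_eq_zero.1 hs
  | @insert j S' hj ih =>
    intro i₀ hi₀ a ℓ φ ha hℓ hd hord hφ hdec hB hrob
    have hi0j : i₀ ≠ j := fun h => hi₀ (by rw [h]; exact Finset.mem_insert_self _ _)
    have hi0S : i₀ ∉ S' := fun h => hi₀ (Finset.mem_insert_of_mem h)
    have hjm : j ∈ insert i₀ (insert j S') := Finset.mem_insert_of_mem (Finset.mem_insert_self _ _)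
    have hsub : ∀ i ∈ insert i₀ S', i ∈ insert i₀ (insert j S') ∧ i ≠ j := by
      intro i hi
      rcases Finset.mem_insert.1 hi with rfl | hi
      · exact ⟨Finset.mem_insert_self _ _, hi0j⟩
      · exact ⟨Finset.mem_insert_of_mem (Finset.mem_insert_of_mem hi), fun h => hj (h ▸ hi)⟩
    have hmer : ∀ i ∈ insert i₀ S', MeromorphicAt (ℓ i - ℓ j) 0 := fun i hi =>
      (hℓ i (hsub i hi).1).sub (hℓ j hjm)
    have hordj : ∀ i ∈ insert i₀ S', meromorphicOrderAt (ℓ i - ℓ j) 0 ≤ -2 := fun i hi =>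
      hord i (hsub i hi).1 j hjm (hsub i hi).2
    have hne : ∀ i ∈ insert i₀ S', ∀ᶠ s in 𝓝[≠] (0 : ℂ), ℓ i s - ℓ j s ≠ 0 := fun i hi =>
      (meromorphicOrderAt_ne_top_iff_eventually_ne_zero (hmer i hi)).1 (ne_top_of_le (hordj i hi))
    refine ih i₀ hi0S (fun i s => (ℓ i s - ℓ j s) * a i s)
      (fun i => ℓ i + logDeriv (ℓ i - ℓ j)) (fun s => deriv φ s - ℓ j s * φ s) ?_ ?_ ?_ ?_ ?_ ?_ ?_ ?_
    · intro i hi
      exact (hmer i hi).hol.mul (ha i (hsub i hi).1)
    · intro i hi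
      exact (hℓ i (hsub i hi).1).add (hmer i hi).logDeriv
    · intro i hi
      filter_upwards [hne i hi, (hmer i hi).hol, ha i (hsub i hi).1, hd i (hsub i hi).1]
        with s h1 h2 h3 h4
      have h5 : deriv (fun s => (ℓ i s - ℓ j s) * a i s) s =
          deriv (ℓ i - ℓ j) s * a i s + (ℓ i s - ℓ j s) * deriv (a i) s :=
        deriv_mul h2.differentiableAt h3.differentiableAt
      rw [h5, h4, Pi.add_apply, logDeriv_apply, Pi.sub_apply]
      field_simp
      ring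
    · intro i hi k hk hik
      have h1 : ((ℓ i + logDeriv (ℓ i - ℓ j)) - (ℓ k + logDeriv (ℓ k - ℓ j))) =
          (ℓ i - ℓ k) + (logDeriv (ℓ i - ℓ j) - logDeriv (ℓ k - ℓ j)) := by
        ring
      have h2 : (-1 : WithTop ℤ) ≤
          meromorphicOrderAt (logDeriv (ℓ i - ℓ j) - logDeriv (ℓ k - ℓ j)) 0 :=
        order_sub (hmer i hi).logDeriv (hmer k hk).logDeriv
          (order_logDeriv (hmer i hi) (ne_top_of_le (hordj i hi)))
          (order_logDeriv (hmer k hk) (ne_top_of_le (hordj k hk)))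
      have h3 := hord i (hsub i hi).1 k (hsub k hk).1 hik
      rw [h1, meromorphicOrderAt_add_eq_left_of_lt
        ((hmer i hi).logDeriv.sub (hmer k hk).logDeriv) (lt_of_lt_of_le (order_lt_of_le h3) h2)]
      exact h3
    · refine (hφ.deriv hD hA).sub hD ?_
      have h1 := (gt_mero hD (hℓ j hjm)).mul hφ
      rwa [zero_add] at h1
    · have h1 := (hdec.deriv hD hω (by linarith)).sub hD
        ((hdec.mul_gt hω hδ1 le_rfl (gt_mero hD (hℓ j hjm))).mono (by rw [zero_mul, sub_zero]))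
      refine h1.congr hω (by linarith) ?_
      have h2 : ∀ᶠ s in 𝓝[≠] (0 : ℂ), ∀ i ∈ insert i₀ (insert j S'), AnalyticAt ℂ (a i) s := by
        rw [Filter.eventually_all_finset]
        exact ha
      have h3 : ∀ᶠ s in 𝓝[≠] (0 : ℂ), ∀ i ∈ insert i₀ (insert j S'),
          deriv (a i) s = ℓ i s * a i s := by
        rw [Filter.eventually_all_finset]
        exact hd
      filter_upwards [h2, h3, hφ.1] with s h4 h5 h6
      have h7 : deriv (fun s => φ s - ∑ i ∈ insert i₀ (insert j S'), a i s) s =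
          deriv φ s - ∑ i ∈ insert i₀ (insert j S'), deriv (a i) s := by
        have h8 : HasDerivAt (fun s => φ s - ∑ i ∈ insert i₀ (insert j S'), a i s)
            (deriv φ s - ∑ i ∈ insert i₀ (insert j S'), deriv (a i) s) s := by
          refine h6.differentiableAt.hasDerivAt.sub ?_
          exact HasDerivAt.fun_sum fun i hi => (h4 i hi).differentiableAt.hasDerivAt
        exact h8.deriv
      rw [h7, Finset.sum_congr rfl h5]
      have h8 : ∑ i ∈ insert i₀ (insert j S'), ℓ i s * a i s -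
          ℓ j s * ∑ i ∈ insert i₀ (insert j S'), a i s =
          ∑ i ∈ insert i₀ S', (ℓ i s - ℓ j s) * a i s := by
        rw [Finset.mul_sum, ← Finset.sum_sub_distrib]
        have h9 : insert i₀ (insert j S') = insert j (insert i₀ S') := Finset.insert_comm _ _ _
        have h10 : j ∉ insert i₀ S' := by
          rw [Finset.mem_insert]
          rintro (h | h)
          · exact hi0j h.symm
          · exact hj h
        rw [h9, Finset.sum_insert h10]
        rw [sub_self, zero_add]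
        exact Finset.sum_congr rfl fun i _ => by ring
      rw [← h8]
      ring
    · have h1 := (gt_mero hD (hmer i₀ (Finset.mem_insert_self _ _))).mul hB
      rw [zero_add] at h1
      exact h1
    · intro m hm hm0 hcon
      refine hrob (fun s => m s * (ℓ i₀ s - ℓ j s)) (hm.mul (hmer i₀ (Finset.mem_insert_self _ _)))
        ?_ ?_
      · filter_upwards [hm0, hne i₀ (Finset.mem_insert_self _ _)] with s h1 h2 using mul_ne_zero h1 h2
      · simpa only [mul_assoc] using hcon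

end Pool.Agent.V9h68.Rt
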