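import Pool.Agent.V9h68.Rt4

/-!
Exponentials of functions with a pole.
-/

set_option autoImplicit false

open Set Filter Metric Topology

noncomputable section

namespace Pool.Agent.V9h68.Rt

/-- functions with leading term `c s ^ (-D)` -/
def LD (D : ℕ) (c : ℂ) (e : ℂ → ℂ) : Prop :=
  MeromorphicAt e 0 ∧ ∀ η > 0, ∀ᶠ s in 𝓝[≠] (0 : ℂ), ‖e s - c * s⁻¹ ^ D‖ ≤ η * ‖s‖⁻¹ ^ D

variable {D : ℕ} {c c' : ℂ} {e e' : ℂ → ℂ}

theorem LD.add (h : LD D c e) (h' : LD D c' e') : LD D (c + c') (fun s => e s + e' s) := by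
  refine ⟨h.1.add h'.1, fun η hη => ?_⟩
  filter_upwards [h.2 (η / 2) (by positivity), h'.2 (η / 2) (by positivity)] with s h1 h2
  calc ‖e s + e' s - (c + c') * s⁻¹ ^ D‖ = ‖(e s - c * s⁻¹ ^ D) + (e' s - c' * s⁻¹ ^ D)‖ := by
        congr 1; ring
    _ ≤ ‖e s - c * s⁻¹ ^ D‖ + ‖e' s - c' * s⁻¹ ^ D‖ := norm_add_le _ _
    _ ≤ η / 2 * ‖s‖⁻¹ ^ D + η / 2 * ‖s‖⁻¹ ^ D := add_le_add h1 h2
    _ = _ := by ring

theorem LD.cmul (h : LD D c e) (k : ℂ) : LD D (k * c) (fun s => k * e s) := by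
  refine ⟨(MeromorphicAt.const k 0).mul h.1, fun η hη => ?_⟩
  filter_upwards [h.2 (η / (‖k‖ + 1)) (by positivity)] with s h1
  have h2 : k * e s - k * c * s⁻¹ ^ D = k * (e s - c * s⁻¹ ^ D) := by ring
  rw [h2, norm_mul]
  calc ‖k‖ * ‖e s - c * s⁻¹ ^ D‖ ≤ (‖k‖ + 1) * (η / (‖k‖ + 1) * ‖s‖⁻¹ ^ D) := by
        gcongr
        linarith
    _ = η * ‖s‖⁻¹ ^ D := by
      have : ‖k‖ + 1 ≠ 0 := by positivity
      field_simp

theorem LD.sub (h : LD D c e) (h' : LD D c' e') : LD D (c - c') (fun s => e s - e' s) := by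
  have h1 := h.add (h'.cmul (-1))
  simpa only [neg_mul, one_mul, ← sub_eq_add_neg] using h1

theorem ld_zero : LD D 0 (fun _ => 0) := by
  refine ⟨MeromorphicAt.const 0 0, fun η hη => Eventually.of_forall fun s => ?_⟩
  simp only [zero_mul, sub_zero, norm_zero]
  positivity

theorem LD.sum {ι : Type} (S : Finset ι) {c : ι → ℂ} {e : ι → ℂ → ℂ}
    (h : ∀ i ∈ S, LD D (c i) (e i)) : LD D (∑ i ∈ S, c i) (fun s => ∑ i ∈ S, e i s) := by
  classical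
  induction S using Finset.induction_on with
  | empty => simpa using ld_zero
  | insert a S ha ih =>
    have h1 := (h a (Finset.mem_insert_self a S)).add
      (ih fun i hi => h i (Finset.mem_insert_of_mem hi))
    simpa only [Finset.sum_insert ha] using h1

theorem LD.hol_exp (h : LD D c e) : Hol fun s => Complex.exp (e s) := h.1.hol.cexp

theorem norm_cinv_pow (s : ℂ) (D : ℕ) : ‖s⁻¹ ^ D‖ = ‖s‖⁻¹ ^ D := by
  rw [norm_pow, norm_inv]

/-- growth of exponentials -/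
theorem LD.gt (h : LD D c e) : Gt D ‖c‖ fun s => Complex.exp (e s) := by
  refine ⟨h.hol_exp, fun B hB => ?_⟩
  filter_upwards [h.2 (B - ‖c‖) (by linarith)] with s h1
  rw [Complex.norm_exp]
  refine Real.exp_le_exp.2 ?_
  calc (e s).re ≤ ‖e s‖ := Complex.re_le_norm _
    _ = ‖(e s - c * s⁻¹ ^ D) + c * s⁻¹ ^ D‖ := by congr 1; ring
    _ ≤ ‖e s - c * s⁻¹ ^ D‖ + ‖c * s⁻¹ ^ D‖ := norm_add_le _ _
    _ ≤ (B - ‖c‖) * ‖s‖⁻¹ ^ D + ‖c‖ * ‖s‖⁻¹ ^ D := by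
      rw [norm_mul, norm_cinv_pow]
      gcongr
    _ = B * ‖s‖⁻¹ ^ D := by ring

/-- a direction in which a number becomes positive -/
theorem exists_dir (hD : 1 ≤ D) (c : ℂ) (hc : c ≠ 0) :
    ∃ ω : ℂ, ‖ω‖ = 1 ∧ c * ω⁻¹ ^ D = ‖c‖ := by
  have hD0 : 0 < D := hD
  obtain ⟨z, hz⟩ := IsAlgClosed.exists_pow_nat_eq ((‖c‖ : ℂ) / c) hD0
  have hcn : (‖c‖ : ℂ) ≠ 0 := by exact_mod_cast norm_ne_zero_iff.2 hc
  have h1 : ‖z‖ = 1 := by
    have h2 : ‖z‖ ^ D = 1 := by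
      rw [← norm_pow, hz, norm_div, Complex.norm_real, norm_norm, div_self (norm_ne_zero_iff.2 hc)]
    exact (pow_eq_one_iff_of_nonneg (norm_nonneg z) hD0.ne').1 h2
  refine ⟨z⁻¹, by rw [norm_inv, h1, inv_one], ?_⟩
  rw [inv_inv, hz]
  field_simp

/-- lower bound for the growth -/
theorem LD.not_gt (hD : 1 ≤ D) (h : LD D c e) {A : ℝ} (hA : 0 ≤ A) (hAc : A < ‖c‖) {m : ℂ → ℂ}
    (hm : MeromorphicAt m 0) (hm0 : ∀ᶠ s in 𝓝[≠] (0 : ℂ), m s ≠ 0) :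
    ¬ Gt D A fun s => m s * Complex.exp (e s) := by
  intro hcon
  have h1 : Gt D A fun s => Complex.exp (e s) := by
    have h2 := (gt_mero hD hm.inv).mul hcon
    rw [zero_add] at h2
    refine h2.congr ?_
    filter_upwards [hm0] with s hs
    rw [Pi.inv_apply]
    field_simp
  have hc : c ≠ 0 := by
    rintro rfl
    rw [norm_zero] at hAc
    linarith
  obtain ⟨ω, hω, hcω⟩ := exists_dir hD c hc
  set q : ℝ := (‖c‖ - A) / 4 with hq
  have hq0 : 0 < q := by rw [hq]; linarith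
  have h2 := ev_ray hω (show (0 : ℝ) < 1 by norm_num)
    ((h1.2 (A + q) (by linarith)).and (h.2 q hq0))
  have hpos : ∀ᶠ t : ℝ in 𝓝[>] (0 : ℝ), 0 < t := self_mem_nhdsWithin
  obtain ⟨t, ht, h3⟩ := (hpos.and h2).exists
  obtain ⟨h4, h5⟩ := h3 ((t : ℂ) * ω) (by
    rw [zero_mul]
    exact mem_closedBall_self le_rfl)
  have hn : ‖(t : ℂ) * ω‖ = t := by
    rw [norm_mul, hω, mul_one, Complex.norm_real, Real.norm_of_nonneg ht.le]
  rw [hn] at h4 h5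
  rw [Complex.norm_exp, Real.exp_le_exp] at h4
  have h6 : (c * ((t : ℂ) * ω)⁻¹ ^ D).re = ‖c‖ * t⁻¹ ^ D := by
    rw [mul_inv, mul_pow]
    have : c * ((t : ℂ)⁻¹ ^ D * ω⁻¹ ^ D) = ((t⁻¹ ^ D : ℝ) : ℂ) * (c * ω⁻¹ ^ D) := by
      push_cast
      ring
    rw [this, hcω, ← Complex.ofReal_mul, Complex.ofReal_re, mul_comm]
  have h7 : (c * ((t : ℂ) * ω)⁻¹ ^ D).re - (e ((t : ℂ) * ω)).re ≤ q * t⁻¹ ^ D := by
    refine le_trans ?_ h5
    rw [← Complex.sub_re, norm_sub_rev]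
    exact Complex.re_le_norm _
  rw [h6] at h7
  have hT : 0 < t⁻¹ ^ D := by positivity
  have h8 : ‖c‖ * t⁻¹ ^ D ≤ (A + 2 * q) * t⁻¹ ^ D := by nlinarith
  have h9 := le_of_mul_le_mul_right h8 hT
  rw [hq] at h9
  linarith

/-- the size of the neighborhood of the ray -/
theorem exists_nbhd (D : ℕ) (M : ℝ) {η : ℝ} (hη : 0 < η) : ∃ δ : ℝ, 0 < δ ∧ δ ≤ 1 / 2 ∧
    ∀ ρ : ℂ, ‖ρ‖ ≤ δ → M * ‖(1 + ρ)⁻¹ ^ D - 1‖ ≤ η := by
  have hc : ContinuousAt (fun ρ : ℂ => M * ‖(1 + ρ)⁻¹ ^ D - 1‖) 0 := by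
    refine ContinuousAt.mul continuousAt_const (ContinuousAt.norm (ContinuousAt.sub
      (ContinuousAt.pow ?_ _) continuousAt_const))
    exact ContinuousAt.inv₀ (by fun_prop) (by norm_num)
  have h1 : (fun ρ : ℂ => M * ‖(1 + ρ)⁻¹ ^ D - 1‖) 0 < η := by
    simp only [add_zero, inv_one, one_pow, sub_self, norm_zero, mul_zero]
    exact hη
  have h2 := hc.eventually (gt_mem_nhds h1)
  rw [Metric.eventually_nhds_iff] at h2
  obtain ⟨ε, hε, h3⟩ := h2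
  refine ⟨min (ε / 2) (1 / 2), by positivity, min_le_right _ _, fun ρ hρ => ?_⟩
  refine (h3 ?_).le
  rw [dist_zero_right]
  have := hρ.trans (min_le_left _ _)
  linarith

/-- decay of exponentials near a ray -/
theorem LD.dec (h : LD D c e) {ω : ℂ} (hω : ‖ω‖ = 1) {M η δ : ℝ}
    (hδ1 : δ ≤ 1 / 2) (hcM : ‖c‖ ≤ M) (hδM : ∀ ρ : ℂ, ‖ρ‖ ≤ δ → M * ‖(1 + ρ)⁻¹ ^ D - 1‖ ≤ η) :
    Dec D ω δ (-(c * ω⁻¹ ^ D).re - η) fun s => Complex.exp (e s) := by
  refine ⟨h.hol_exp, fun δ' hδ' T' hT' => ?_⟩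
  set T : ℝ := -(c * ω⁻¹ ^ D).re - η with hT
  set q : ℝ := (T - T') / 2 ^ D with hq
  have h2D : (0 : ℝ) < 2 ^ D := by positivity
  have hq0 : 0 < q := div_pos (by linarith) h2D
  filter_upwards [ev_ray hω (show δ' < 1 by linarith) (h.2 q hq0), self_mem_nhdsWithin] with t h1 ht s hs
  have ht0 : 0 < t := ht
  have htc : (t : ℂ) ≠ 0 := by exact_mod_cast ht0.ne'
  have hω0 : ω ≠ 0 := by
    rw [← norm_pos_iff, hω]
    exact one_pos
  have h2 := h1 s hs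
  have hρ : ‖s / (t * ω) - 1‖ ≤ δ' := by
    have h3 : s / (t * ω) - 1 = (s - t * ω) / (t * ω) := by
      field_simp
    rw [h3, norm_div, norm_mul, hω, mul_one, Complex.norm_real, Real.norm_of_nonneg ht0.le,
      div_le_iff₀ ht0]
    rwa [mem_closedBall, dist_eq_norm] at hs
  set ρ : ℂ := s / (t * ω) - 1 with hρdef
  have hs1 : s = t * ω * (1 + ρ) := by
    rw [hρdef]
    field_simp
    ring
  have h4 := hδM ρ (hρ.trans hδ'.le)
  have h5 : ‖s‖⁻¹ ^ D ≤ 2 ^ D * t⁻¹ ^ D := by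
    have h6 := (near_ray hω ht0 hs).1
    have h7 : t / 2 ≤ ‖s‖ := by
      have : t / 2 ≤ (1 - δ') * t := by
        rw [div_eq_mul_inv, mul_comm]
        gcongr
        linarith
      linarith
    have h8 : ‖s‖⁻¹ ≤ 2 * t⁻¹ := by
      have h9 := inv_anti₀ (show 0 < t / 2 by positivity) h7
      rwa [inv_div, div_eq_mul_inv] at h9
    rw [← mul_pow]
    gcongr
  rw [Complex.norm_exp]
  refine Real.exp_le_exp.2 ?_
  have hT0 : 0 < t⁻¹ ^ D := by positivity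
  have h6 : (e s).re ≤ (c * s⁻¹ ^ D).re + q * ‖s‖⁻¹ ^ D := by
    have h7 := Complex.re_le_norm (e s - c * s⁻¹ ^ D)
    rw [Complex.sub_re] at h7
    linarith
  have h7 : c * s⁻¹ ^ D = ((t⁻¹ ^ D : ℝ) : ℂ) * ((c * ω⁻¹ ^ D) + (c * ω⁻¹ ^ D) *
      ((1 + ρ)⁻¹ ^ D - 1)) := by
    rw [hs1, mul_inv, mul_inv, mul_pow, mul_pow]
    push_cast
    ring
  have h8 : (c * s⁻¹ ^ D).re ≤ t⁻¹ ^ D * ((c * ω⁻¹ ^ D).re + η) := by
    rw [h7, Complex.re_ofReal_mul, Complex.add_re]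
    gcongr
    refine (Complex.re_le_norm _).trans ?_
    rw [norm_mul, norm_mul, norm_cinv_pow, hω, inv_one, one_pow, mul_one]
    exact (mul_le_mul_of_nonneg_right hcM (norm_nonneg _)).trans h4
  calc (e s).re ≤ t⁻¹ ^ D * ((c * ω⁻¹ ^ D).re + η) + q * (2 ^ D * t⁻¹ ^ D) := by
        refine h6.trans (add_le_add h8 ?_)
        gcongr
    _ = -T' * t⁻¹ ^ D := by
      rw [hq, hT]
      field_simp
      ring

theorem pos_lb {ι : Type} (S : Finset ι) (f : ι → ℝ) (hf : ∀ i ∈ S, 0 < f i) :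
    ∃ γ : ℝ, 0 < γ ∧ ∀ i ∈ S, γ ≤ f i := by
  classical
  induction S using Finset.induction_on with
  | empty => exact ⟨1, one_pos, fun i hi => absurd hi (Finset.notMem_empty i)⟩
  | insert a S ha ih =>
    obtain ⟨γ, h1, h2⟩ := ih fun i hi => hf i (Finset.mem_insert_of_mem hi)
    refine ⟨min γ (f a), lt_min h1 (hf a (Finset.mem_insert_self a S)), fun i hi => ?_⟩
    rcases Finset.mem_insert.1 hi with rfl | hi
    · exact min_le_right _ _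
    · exact (min_le_left _ _).trans (h2 i hi)

theorem upper_b {ι : Type} (S : Finset ι) (f : ι → ℝ) :
    ∃ C : ℝ, 0 ≤ C ∧ ∀ i ∈ S, f i ≤ C := by
  classical
  induction S using Finset.induction_on with
  | empty => exact ⟨0, le_rfl, fun i hi => absurd hi (Finset.notMem_empty i)⟩
  | insert a S ha ih =>
    obtain ⟨C, h1, h2⟩ := ih
    refine ⟨max C (f a), le_max_of_le_left h1, fun i hi => ?_⟩
    rcases Finset.mem_insert.1 hi with rfl | hi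
    · exact le_max_right _ _
    · exact (h2 i hi).trans (le_max_left _ _)

end Pool.Agent.V9h68.Rt
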