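import Pool.Agent.V9h68.Rt5

/-!
A theorem on quotients of exponential polynomials.
-/

set_option autoImplicit false

open Set Filter Metric Topology MvPolynomial

noncomputable section

namespace Pool.Agent.V9h68.Rt

/-! ### Parts of polynomials -/

section Part

variable {R : Type} [CommRing R] {n : ℕ}

/-- the terms with exponents in a set -/
def part (p : (Fin n →₀ ℕ) → Prop) [DecidablePred p] (P : MvPolynomial (Fin n) R) :
    MvPolynomial (Fin n) R :=
  ∑ α ∈ P.support.filter p, monomial α (P.coeff α)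

theorem coeff_part (p : (Fin n →₀ ℕ) → Prop) [DecidablePred p] (P : MvPolynomial (Fin n) R)
    (β : Fin n →₀ ℕ) : (part p P).coeff β = if p β then P.coeff β else 0 := by
  classical
  unfold part
  rw [MvPolynomial.coeff_sum]
  simp only [coeff_monomial]
  rw [Finset.sum_ite_eq' (P.support.filter p) β fun α => P.coeff α]
  simp only [Finset.mem_filter, mem_support_iff]
  by_cases h1 : p β
  · by_cases h2 : P.coeff β = 0
    · simp [h2]
    · simp [h1, h2]
  · simp [h1]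

theorem part_add_part (p : (Fin n →₀ ℕ) → Prop) [DecidablePred p] (P : MvPolynomial (Fin n) R) :
    part p P + part (fun α => ¬ p α) P = P := by
  ext β
  rw [coeff_add, coeff_part, coeff_part]
  by_cases h : p β <;> simp [h]

theorem mem_support_part {p : (Fin n →₀ ℕ) → Prop} [DecidablePred p] {P : MvPolynomial (Fin n) R}
    {β : Fin n →₀ ℕ} : β ∈ (part p P).support ↔ p β ∧ β ∈ P.support := by
  rw [mem_support_iff, coeff_part, mem_support_iff]
  by_cases h : p β <;> simp [h]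

end Part

/-! ### Weights -/

/-- the exponent -/
def Ex {n : ℕ} (x : Fin n → ℂ → ℂ) (α : Fin n →₀ ℕ) (s : ℂ) : ℂ := ∑ i, (α i : ℂ) * x i s

/-- the leading coefficient of the exponent -/
def tw {n : ℕ} (κ : Fin n → ℂ) (α : Fin n →₀ ℕ) : ℂ := ∑ i, (α i : ℂ) * κ i

theorem tw_add {n : ℕ} (κ : Fin n → ℂ) (α β : Fin n →₀ ℕ) : tw κ (α + β) = tw κ α + tw κ β := by
  unfold tw
  rw [← Finset.sum_add_distrib]
  refine Finset.sum_congr rfl fun i _ => ?_
  rw [Finsupp.add_apply]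
  push_cast
  ring

theorem LD.ex {D n : ℕ} {κ : Fin n → ℂ} {x : Fin n → ℂ → ℂ} (h : ∀ i, LD D (κ i) (x i))
    (α : Fin n →₀ ℕ) : LD D (tw κ α) (Ex x α) :=
  LD.sum (D := D) Finset.univ (c := fun i => (α i : ℂ) * κ i) (e := fun i s => (α i : ℂ) * x i s)
    fun i _ => (h i).cmul _

section Sup

variable {R : Type} [CommRing R] {n : ℕ} {κ : Fin n → ℂ}

/-- the weights of the monomials of a polynomial are in a set -/
def Sup (κ : Fin n → ℂ) (T : ℂ → Prop) (P : MvPolynomial (Fin n) R) : Prop :=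
  ∀ α ∈ P.support, T (tw κ α)

theorem Sup.mul {T T' T'' : ℂ → Prop} {P Q : MvPolynomial (Fin n) R} (hP : Sup κ T P)
    (hQ : Sup κ T' Q) (h : ∀ a b, T a → T' b → T'' (a + b)) : Sup κ T'' (P * Q) := by
  classical
  intro γ hγ
  have h1 := MvPolynomial.support_mul P Q hγ
  obtain ⟨α, hα, β, hβ, rfl⟩ := Finset.mem_add.1 h1
  rw [tw_add]
  exact h _ _ (hP α hα) (hQ β hβ)

theorem Sup.one {T : ℂ → Prop} (h : T 0) : Sup κ T (1 : MvPolynomial (Fin n) R) := by
  classical
  intro α hα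
  have h1 : α = 0 := by
    rw [mem_support_iff, coeff_one] at hα
    by_contra hne
    rw [if_neg (Ne.symm hne)] at hα
    exact hα rfl
  rw [h1]
  unfold tw
  simpa using h

theorem Sup.pow {P : MvPolynomial (Fin n) R} {T : ℕ → ℂ → Prop} (h0 : T 0 0) (h1 : Sup κ (T 1) P)
    (h : ∀ m a b, T m a → T 1 b → T (m + 1) (a + b)) (m : ℕ) : Sup κ (T m) (P ^ m) := by
  induction m with
  | zero =>
    rw [pow_zero]
    exact Sup.one h0
  | succ m ih =>
    rw [pow_succ]
    exact ih.mul h1 (h m)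

theorem Sup.neg {T : ℂ → Prop} {P : MvPolynomial (Fin n) R} (hP : Sup κ T P) : Sup κ T (-P) := by
  intro α hα
  rw [support_neg] at hα
  exact hP α hα

end Sup

/-! ### Evaluation -/

section Eval

variable {R : Type} [CommRing R] (Φ : R →+* (ℂ → ℂ)) {n : ℕ} (x : Fin n → ℂ → ℂ)

/-- the exponential polynomial -/
def ev : MvPolynomial (Fin n) R →+* (ℂ → ℂ) := eval₂Hom Φ fun i s => Complex.exp (x i s)

theorem ev_apply (P : MvPolynomial (Fin n) R) (s : ℂ) :
    ev Φ x P s = ∑ α ∈ P.support, Φ (P.coeff α) s * Complex.exp (Ex x α s) := by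
  unfold ev
  rw [coe_eval₂Hom, eval₂_eq', Finset.sum_apply]
  refine Finset.sum_congr rfl fun α _ => ?_
  rw [Pi.mul_apply, Finset.prod_apply]
  congr 1
  unfold Ex
  rw [Complex.exp_sum]
  refine Finset.prod_congr rfl fun i _ => ?_
  rw [Pi.pow_apply, ← Complex.exp_nat_mul]

end Eval

section Main

variable {R : Type} [CommRing R] {Φ : R →+* (ℂ → ℂ)} {n : ℕ} {x : Fin n → ℂ → ℂ} {κ : Fin n → ℂ}
  {D : ℕ}

theorem ev_gt (hΦm : ∀ r, MeromorphicAt (Φ r) 0) (hD : 1 ≤ D) (hx : ∀ i, LD D (κ i) (x i))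
    (P : MvPolynomial (Fin n) R) : ∃ A, 0 ≤ A ∧ Gt D A (ev Φ x P) := by
  obtain ⟨C, hC, h⟩ := upper_b P.support fun α => ‖tw κ α‖
  refine ⟨C, hC, ?_⟩
  have h1 : ev Φ x P = fun s => ∑ α ∈ P.support, Φ (P.coeff α) s * Complex.exp (Ex x α s) :=
    funext fun s => ev_apply Φ x P s
  rw [h1]
  refine Gt.sum hD hC _ fun α hα => ?_
  have h2 := (gt_mero hD (hΦm (P.coeff α))).mul (LD.ex hx α).gt
  rw [zero_add] at h2
  exact h2.mono (h α hα)

/-- the terms -/
theorem term_props (hΦm : ∀ r, MeromorphicAt (Φ r) 0)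
    (hΦ0 : ∀ r, r ≠ 0 → ∀ᶠ s in 𝓝[≠] (0 : ℂ), Φ r s ≠ 0) (hx : ∀ i, LD D (κ i) (x i))
    (hfree : ∀ α β : Fin n →₀ ℕ, α ≠ β → meromorphicOrderAt (fun s => Ex x α s - Ex x β s) 0 < 0)
    (S : MvPolynomial (Fin n) R) (u : ℂ → ℂ) (c : ℂ) (hu : LD D c u) :
    (∀ α ∈ S.support, Hol fun s => Φ (S.coeff α) s * Complex.exp (Ex x α s - u s)) ∧
    (∀ α ∈ S.support, MeromorphicAt (logDeriv (Φ (S.coeff α)) + deriv fun s => Ex x α s - u s) 0) ∧
    (∀ α ∈ S.support, ∀ᶠ s in 𝓝[≠] (0 : ℂ),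
      deriv (fun s => Φ (S.coeff α) s * Complex.exp (Ex x α s - u s)) s =
      (logDeriv (Φ (S.coeff α)) + deriv fun s => Ex x α s - u s) s *
        (Φ (S.coeff α) s * Complex.exp (Ex x α s - u s))) ∧
    (∀ α ∈ S.support, ∀ β ∈ S.support, α ≠ β → meromorphicOrderAt
      ((logDeriv (Φ (S.coeff α)) + deriv fun s => Ex x α s - u s) -
      (logDeriv (Φ (S.coeff β)) + deriv fun s => Ex x β s - u s)) 0 ≤ -2) := by
  have hE : ∀ α, MeromorphicAt (fun s => Ex x α s - u s) 0 := fun α => ((LD.ex hx α).sub hu).1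
  refine ⟨fun α _ => (hΦm _).hol.mul (hE α).hol.cexp, fun α _ => (hΦm _).logDeriv.add (hE α).deriv,
    fun α hα => ?_, fun α hα β hβ hne => ?_⟩
  · filter_upwards [hΦ0 _ (mem_support_iff.1 hα), (hΦm (S.coeff α)).hol, (hE α).hol] with s h1 h2 h3
    have h4 : HasDerivAt (fun s => Φ (S.coeff α) s * Complex.exp (Ex x α s - u s))
        (deriv (Φ (S.coeff α)) s * Complex.exp (Ex x α s - u s) + Φ (S.coeff α) s *
          (Complex.exp (Ex x α s - u s) * deriv (fun s => Ex x α s - u s) s)) s :=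
      h2.differentiableAt.hasDerivAt.mul h3.differentiableAt.hasDerivAt.cexp
    rw [h4.deriv, Pi.add_apply, logDeriv_apply]
    field_simp
  · have h1 : ((logDeriv (Φ (S.coeff α)) + deriv fun s => Ex x α s - u s) -
        (logDeriv (Φ (S.coeff β)) + deriv fun s => Ex x β s - u s)) =
        ((deriv fun s => Ex x α s - u s) - (deriv fun s => Ex x β s - u s)) +
        (logDeriv (Φ (S.coeff α)) - logDeriv (Φ (S.coeff β))) := by ring
    have hordf := hfree α β hne
    have hmer : MeromorphicAt (fun s => Ex x α s - Ex x β s) 0 := ((LD.ex hx α).sub (LD.ex hx β)).1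
    have h2 : meromorphicOrderAt
        ((deriv fun s => Ex x α s - u s) - (deriv fun s => Ex x β s - u s)) 0 ≤ -2 := by
      have h3 : ((deriv fun s => Ex x α s - u s) - (deriv fun s => Ex x β s - u s)) =ᶠ[𝓝[≠] 0]
          deriv (fun s => Ex x α s - Ex x β s) := by
        filter_upwards [(hE α).hol, (hE β).hol] with s h4 h5
        have h6 : HasDerivAt (fun s => (Ex x α s - u s) - (Ex x β s - u s))
            (deriv (fun s => Ex x α s - u s) s - deriv (fun s => Ex x β s - u s) s) s :=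
          h4.differentiableAt.hasDerivAt.sub h5.differentiableAt.hasDerivAt
        have h7 : (fun s => (Ex x α s - u s) - (Ex x β s - u s)) =
            fun s => Ex x α s - Ex x β s := by
          funext s
          ring
        rw [h7] at h6
        rw [h6.deriv, Pi.sub_apply]
      rw [meromorphicOrderAt_congr h3]
      have hnt : meromorphicOrderAt (fun s => Ex x α s - Ex x β s) 0 ≠ ⊤ := by
        intro h
        rw [h] at hordf
        exact absurd hordf (not_lt.2 le_top)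
      obtain ⟨k, hk⟩ := WithTop.ne_top_iff_exists.1 hnt
      rw [← hk] at hordf
      have hk0 : k < 0 := WithTop.coe_lt_coe.1 hordf
      rw [meromorphicOrderAt_deriv_eq_sub_one (n := k) (by exact_mod_cast hk0.ne) hk.symm]
      have : ((k - 1 : ℤ) : WithTop ℤ) ≤ ((-2 : ℤ) : WithTop ℤ) := WithTop.coe_le_coe.2 (by omega)
      exact this
    have h3 : (-1 : WithTop ℤ) ≤ meromorphicOrderAt
        (logDeriv (Φ (S.coeff α)) - logDeriv (Φ (S.coeff β))) 0 :=
      order_sub (hΦm _).logDeriv (hΦm _).logDeriv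
        (order_logDeriv (hΦm _) ((meromorphicOrderAt_ne_top_iff_eventually_ne_zero (hΦm _)).2
          (hΦ0 _ (mem_support_iff.1 hα))))
        (order_logDeriv (hΦm _) ((meromorphicOrderAt_ne_top_iff_eventually_ne_zero (hΦm _)).2
          (hΦ0 _ (mem_support_iff.1 hβ))))
    rw [h1, meromorphicOrderAt_add_eq_left_of_lt ((hΦm _).logDeriv.sub (hΦm _).logDeriv)
      (lt_of_lt_of_le (order_lt_of_le h2) h3)]
    exact h2

/-- exponential polynomials which contain a term of positive growth do not vanish -/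
theorem ev_ne (hΦm : ∀ r, MeromorphicAt (Φ r) 0)
    (hΦ0 : ∀ r, r ≠ 0 → ∀ᶠ s in 𝓝[≠] (0 : ℂ), Φ r s ≠ 0) (hD : 1 ≤ D) (hx : ∀ i, LD D (κ i) (x i))
    (hfree : ∀ α β : Fin n →₀ ℕ, α ≠ β → meromorphicOrderAt (fun s => Ex x α s - Ex x β s) 0 < 0)
    {P : MvPolynomial (Fin n) R} {α₀ : Fin n →₀ ℕ} (hα₀ : α₀ ∈ P.support) (hα₀' : tw κ α₀ ≠ 0) :
    ¬ ∀ᶠ s in 𝓝[≠] (0 : ℂ), ev Φ x P s = 0 := by
  classical
  intro hcon
  obtain ⟨c, hc, hsep⟩ := separation hD (show (0 : ℝ) < 1 / 2 by norm_num) le_rfl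
  obtain ⟨h1, h2, h3, h4⟩ := term_props hΦm hΦ0 hx hfree P (fun _ => 0) 0 ld_zero
  have hins : insert α₀ (P.support.erase α₀) = P.support := Finset.insert_erase hα₀
  refine hsep 1 norm_one 0 ‖tw κ α₀‖ (c * ‖tw κ α₀‖ + 1) le_rfl (norm_nonneg _) (by linarith)
    (P.support.erase α₀) α₀ (Finset.notMem_erase _ _) _ _ (fun _ => 0) (hins.symm ▸ h1)
    (hins.symm ▸ h2) (hins.symm ▸ h3) (hins.symm ▸ h4) (gt_const hD 0) ?_ ?_ ?_
  · rw [hins]
    have hz : ∀ᶠ s in 𝓝[≠] (0 : ℂ), (0 : ℂ) - ∑ i ∈ P.support,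
        Φ (P.coeff i) s * Complex.exp (Ex x i s - 0) = 0 := by
      filter_upwards [hcon] with s hs
      rw [ev_apply] at hs
      simp only [sub_zero]
      rw [hs, sub_zero]
    refine ⟨Hol.sub (Hol.const 0) (Hol.sum _ h1), fun δ' hδ' T' hT' => ?_⟩
    filter_upwards [ev_ray norm_one (show δ' < 1 by linarith) hz] with t ht s hs
    rw [ht s hs, norm_zero]
    positivity
  · have h5 := (gt_mero hD (hΦm (P.coeff α₀))).mul ((LD.ex hx α₀).sub (ld_zero (D := D))).gt
    rw [zero_add, sub_zero] at h5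
    exact h5
  · intro m hm hm0 hcon2
    have h5 : LD D (tw κ α₀) (fun s => Ex x α₀ s - 0) := by
      have := (LD.ex hx α₀).sub (ld_zero (D := D))
      rwa [sub_zero] at this
    refine h5.not_gt hD le_rfl (norm_pos_iff.2 hα₀') (hm.mul (hΦm (P.coeff α₀))) ?_ (by
      simpa only [Pi.mul_apply, mul_assoc] using hcon2)
    filter_upwards [hm0, hΦ0 _ (mem_support_iff.1 hα₀)] with s h6 h7 using mul_ne_zero h6 h7

open Classical in
/-- **Quotients of exponential polynomials.** -/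
theorem ritt (hΦm : ∀ r, MeromorphicAt (Φ r) 0)
    (hΦ0 : ∀ r, r ≠ 0 → ∀ᶠ s in 𝓝[≠] (0 : ℂ), Φ r s ≠ 0) (hD : 1 ≤ D) (hx : ∀ i, LD D (κ i) (x i))
    (hfree : ∀ α β : Fin n →₀ ℕ, α ≠ β → meromorphicOrderAt (fun s => Ex x α s - Ex x β s) 0 < 0)
    {P G : MvPolynomial (Fin n) R} {c₀ : ℂ} (hmax : ∀ α ∈ P.support, ‖tw κ α‖ ≤ ‖c₀‖)
    (hc₀ : ∃ α ∈ P.support, tw κ α = c₀) (hc₀' : c₀ ≠ 0) {N : ℕ} {h : ℂ → ℂ} (hh : Hol h)
    (hfg : ∀ᶠ s in 𝓝[≠] (0 : ℂ), ev Φ x G s ^ N = h s * ev Φ x P s) :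
    ∃ (m : ℕ) (U : MvPolynomial (Fin n) R),
      P * U = G ^ N * part (fun α => tw κ α = c₀) P ^ m := by
  obtain ⟨α₀, hα₀, hα₀c⟩ := hc₀
  -- the direction
  obtain ⟨ω, hω, hωc⟩ := exists_dir hD c₀ hc₀'
  set ω' : ℂ := ω⁻¹ ^ D with hω'
  have hω'n : ‖ω'‖ = 1 := by rw [hω', norm_cinv_pow, hω, inv_one, one_pow]
  -- the gap
  have hgap : ∀ α ∈ P.support.filter (fun α => ¬ tw κ α = c₀), 0 < -((tw κ α - c₀) * ω').re := by
    intro α hα
    obtain ⟨hα1, hα2⟩ := Finset.mem_filter.1 hα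
    have h1 : (tw κ α * ω').re ≤ ‖c₀‖ := by
      refine (Complex.re_le_norm _).trans ?_
      rw [norm_mul, hω'n, mul_one]
      exact hmax α hα1
    have h2 : ((tw κ α - c₀) * ω').re = (tw κ α * ω').re - ‖c₀‖ := by
      rw [sub_mul, Complex.sub_re, hωc, Complex.ofReal_re]
    rw [h2]
    rcases h1.lt_or_eq with h3 | h3
    · linarith
    · exfalso
      apply hα2
      have h4 : ‖tw κ α * ω'‖ ≤ ‖c₀‖ := by
        rw [norm_mul, hω'n, mul_one]
        exact hmax α hα1
      have h5 : tw κ α * ω' = ‖c₀‖ := by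
        have h6 : ‖tw κ α * ω'‖ = (tw κ α * ω').re := by
          apply le_antisymm (h4.trans h3.ge) (Complex.re_le_norm _)
        have h7 : (tw κ α * ω').im = 0 := by
          have h8 := Complex.sq_norm (tw κ α * ω')
          rw [Complex.normSq_apply, h6] at h8
          nlinarith
        apply Complex.ext
        · rw [Complex.ofReal_re]
          exact h3
        · rw [Complex.ofReal_im]
          exact h7
      have h9 : ω' ≠ 0 := by
        rw [← norm_pos_iff, hω'n]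
        exact one_pos
      exact mul_right_cancel₀ h9 (h5.trans hωc.symm)
  obtain ⟨γ, hγ0, hγ⟩ := pos_lb _ _ hgap
  obtain ⟨M, hM0, hM⟩ := upper_b P.support fun α => ‖tw κ α - c₀‖
  obtain ⟨δ, hδ0, hδ1, hδ⟩ := exists_nbhd D M (show 0 < γ / 2 by positivity)
  obtain ⟨c, hc, hsep⟩ := separation hD hδ0 hδ1
  -- growth
  obtain ⟨A₁, hA₁, hfA⟩ := ev_gt hΦm hD hx P
  obtain ⟨A₂, hA₂, hgA⟩ := ev_gt hΦm hD hx (G ^ N)
  have hgN : ∀ s, ev Φ x (G ^ N) s = ev Φ x G s ^ N := fun s => by rw [map_pow, Pi.pow_apply]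
  obtain ⟨A, hA0, hhA⟩ := Gt.quot hD (hfA.mono (le_max_left A₁ A₂)) (hgA.mono (le_max_right A₁ A₂))
    hh (by
      filter_upwards [hfg] with s hs
      rw [hgN, hs]) (ev_ne hΦm hΦ0 hD hx hfree hα₀ (by rw [hα₀c]; exact hc₀'))
  -- the parts
  set PA := part (fun α => tw κ α = c₀) P with hPA
  set PB := part (fun α => ¬ tw κ α = c₀) P with hPB
  have hPAB : PA + PB = P := part_add_part _ _
  have hLD₀ : ∀ α, LD D (tw κ α - c₀) (fun s => Ex x α s - Ex x α₀ s) := by
    intro α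
    have := (LD.ex hx α).sub (LD.ex hx α₀)
    rwa [hα₀c] at this
  have hF0 : Gt D 0 fun s => Complex.exp (-Ex x α₀ s) * ev Φ x PA s := by
    have h1 : (fun s => Complex.exp (-Ex x α₀ s) * ev Φ x PA s) = fun s => ∑ α ∈ PA.support,
        Φ (PA.coeff α) s * Complex.exp (Ex x α s - Ex x α₀ s) := by
      funext s
      rw [ev_apply, Finset.mul_sum]
      refine Finset.sum_congr rfl fun α _ => ?_
      rw [sub_eq_add_neg, Complex.exp_add]
      ring
    rw [h1]
    refine Gt.sum hD le_rfl _ fun α hα => ?_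
    have h2 := (gt_mero hD (hΦm (PA.coeff α))).mul (hLD₀ α).gt
    rw [(mem_support_part.1 hα).1, sub_self, norm_zero, zero_add] at h2
    exact h2
  have hF1 : Dec D ω δ (γ / 2) fun s => -(Complex.exp (-Ex x α₀ s) * ev Φ x PB s) := by
    have h1 : (fun s => -(Complex.exp (-Ex x α₀ s) * ev Φ x PB s)) = fun s => ∑ α ∈ PB.support,
        (-Φ (PB.coeff α) s) * Complex.exp (Ex x α s - Ex x α₀ s) := by
      funext s
      rw [ev_apply, Finset.mul_sum, ← Finset.sum_neg_distrib]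
      refine Finset.sum_congr rfl fun α _ => ?_
      rw [sub_eq_add_neg, Complex.exp_add]
      ring
    rw [h1]
    have h2 : ∀ S : Finset (Fin n →₀ ℕ), S ⊆ PB.support → Dec D ω δ (γ / 2) fun s => ∑ α ∈ S,
        (-Φ (PB.coeff α) s) * Complex.exp (Ex x α s - Ex x α₀ s) := by
      intro S
      induction S using Finset.induction_on with
      | empty =>
        intro _
        refine ⟨by simpa using Hol.const 0, fun δ' _ T' _ => ?_⟩
        filter_upwards with t s _
        rw [Finset.sum_empty, norm_zero]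
        positivity
      | insert a S ha ih =>
        intro hS
        have haS : a ∈ PB.support := hS (Finset.mem_insert_self _ _)
        obtain ⟨ha1, ha2⟩ := mem_support_part.1 haS
        have h3 := (hLD₀ a).dec hω hδ1 (hM a ha2) hδ
        have h4 := h3.mul_gt hω hδ1 le_rfl (gt_mero hD (hΦm (PB.coeff a))).neg
        have h5 : γ / 2 ≤ -((tw κ a - c₀) * ω⁻¹ ^ D).re - γ / 2 - 0 * 2 ^ D := by
          have h6 := hγ a (Finset.mem_filter.2 ⟨ha2, ha1⟩)
          rw [zero_mul, sub_zero]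
          linarith
        have h6 := (h4.mono h5).add hD (ih ((Finset.subset_insert _ _).trans hS))
        simpa only [Finset.sum_insert ha] using h6
    exact h2 _ subset_rfl
  -- the exponent
  obtain ⟨C, hC0, hC⟩ := upper_b (G ^ N).support fun α => ‖tw κ α‖
  set X : ℝ := max (M + A) (C + ‖c₀‖) with hX
  have hX1 : M + A ≤ X := le_max_left _ _
  have hX2 : C + ‖c₀‖ ≤ X := le_max_right _ _
  obtain ⟨m, hm⟩ := exists_nat_gt (max ((c * (X + M) + A * 2 ^ D) / (γ / 2)) ((X + C + ‖c₀‖) / γ))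
  have hm1 : c * (X + M) < m * (γ / 2) - A * 2 ^ D := by
    have h1 := lt_of_le_of_lt (le_max_left _ _) hm
    rw [div_lt_iff₀ (by positivity)] at h1
    linarith
  have hm2 : X + C + ‖c₀‖ < m * γ := by
    have h1 := lt_of_le_of_lt (le_max_right _ _) hm
    rwa [div_lt_iff₀ hγ0] at h1
  have hX0 : 0 ≤ X := le_trans (by positivity) hX1
  have hmpos : 0 < m := by
    rcases Nat.eq_zero_or_pos m with h1 | h1
    · subst h1
      exfalso
      have : 0 ≤ X + C + ‖c₀‖ := by positivity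
      simp only [Nat.cast_zero, zero_mul] at hm2
      linarith
    · exact h1
  -- the identity
  obtain ⟨Q, hQ⟩ := sub_dvd_pow_sub_pow PA (-PB) m
  rw [sub_neg_eq_add, hPAB] at hQ
  set S := G ^ N * Q with hS
  have hPS : P * S = G ^ N * PA ^ m - G ^ N * (-PB) ^ m := by
    rw [hS, ← mul_sub, hQ]
    ring
  -- the function `h F₀ ^ m`
  set φ : ℂ → ℂ := fun s => h s * (Complex.exp (-Ex x α₀ s) * ev Φ x PA s) ^ m with hφdef
  have hφ : Gt D A φ := by
    have h1 := hhA.mul (hF0.pow hD m)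
    rwa [mul_zero, add_zero] at h1
  have hid : ∀ᶠ s in 𝓝[≠] (0 : ℂ), φ s - ∑ α ∈ S.support,
      Φ (S.coeff α) s * Complex.exp (Ex x α s - m * Ex x α₀ s) =
      h s * (-(Complex.exp (-Ex x α₀ s) * ev Φ x PB s)) ^ m := by
    filter_upwards [hfg] with s hs
    have h1 : ∑ α ∈ S.support, Φ (S.coeff α) s * Complex.exp (Ex x α s - m * Ex x α₀ s) =
        Complex.exp (-Ex x α₀ s) ^ m * ev Φ x S s := by
      rw [ev_apply, Finset.mul_sum]
      refine Finset.sum_congr rfl fun α _ => ?_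
      rw [← Complex.exp_nat_mul, sub_eq_add_neg, Complex.exp_add]
      ring_nf
    have h2 : ev Φ x S s = h s * (ev Φ x PA s ^ m - (-ev Φ x PB s) ^ m) := by
      have h3 : ev Φ x (PA ^ m - (-PB) ^ m) s = ev Φ x (P * Q) s := by rw [hQ]
      rw [map_sub, map_pow, map_pow, map_neg, Pi.sub_apply, Pi.pow_apply, Pi.pow_apply,
        Pi.neg_apply, map_mul, Pi.mul_apply] at h3
      rw [h3, hS, map_mul, map_pow, Pi.mul_apply, Pi.pow_apply, hs]
      ring
    rw [h1, h2, hφdef]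
    simp only [mul_pow, neg_pow (Complex.exp (-Ex x α₀ s) * ev Φ x PB s),
      neg_pow (ev Φ x PB s)]
    ring
  have hdec : Dec D ω δ (m * (γ / 2) - A * 2 ^ D) (fun s => φ s - ∑ α ∈ S.support,
      Φ (S.coeff α) s * Complex.exp (Ex x α s - m * Ex x α₀ s)) := by
    have h1 := (hF1.pow hmpos).mul_gt hω hδ1 hA0 hhA
    refine h1.congr hω (by linarith) ?_
    filter_upwards [hid] with s hs using hs.symm
  have hu : LD D (m * c₀) (fun s => (m : ℂ) * Ex x α₀ s) := by
    have := (LD.ex hx α₀).cmul (m : ℂ)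
    rwa [hα₀c] at this
  obtain ⟨h1, h2, h3, h4⟩ := term_props hΦm hΦ0 hx hfree S _ _ hu
  -- no weights in the gap
  have hgapS : ∀ β ∈ S.support, ‖tw κ β - m * c₀‖ ≤ A ∨
      m * (γ / 2) - A * 2 ^ D ≤ c * ‖tw κ β - m * c₀‖ := by
    intro β hβ
    by_contra hcon
    push Not at hcon
    obtain ⟨hcon1, hcon2⟩ := hcon
    have hins : insert β (S.support.erase β) = S.support := Finset.insert_erase hβ
    have hLDβ : LD D (tw κ β - m * c₀) (fun s => Ex x β s - m * Ex x α₀ s) := (LD.ex hx β).sub hu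
    refine hsep ω hω A ‖tw κ β - m * c₀‖ _ hA0 hcon1.le hcon2
      (S.support.erase β) β (Finset.notMem_erase _ _) _ _ φ (hins.symm ▸ h1)
      (hins.symm ▸ h2) (hins.symm ▸ h3) (hins.symm ▸ h4) hφ (hins.symm ▸ hdec) ?_ ?_
    · have h5 := (gt_mero hD (hΦm (S.coeff β))).mul hLDβ.gt
      rw [zero_add] at h5
      exact h5
    · intro v hv hv0 hcon3
      refine hLDβ.not_gt hD hA0 hcon1 (hv.mul (hΦm (S.coeff β))) ?_ (by
        simpa only [Pi.mul_apply, mul_assoc] using hcon3)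
      filter_upwards [hv0, hΦ0 _ (mem_support_iff.1 hβ)] with s h6 h7 using mul_ne_zero h6 h7
  -- conclusion
  set U := part (fun β => ‖tw κ β - m * c₀‖ ≤ A) S with hU
  set W := part (fun β => ¬ ‖tw κ β - m * c₀‖ ≤ A) S with hW
  have hUW : U + W = S := part_add_part _ _
  refine ⟨m, U, ?_⟩
  have hsP : Sup κ (fun t => ‖t - c₀‖ ≤ M) P := fun α hα => hM α hα
  have hsU : Sup κ (fun t => ‖t - m * c₀‖ ≤ A) U := fun α hα => (mem_support_part.1 hα).1
  have hsW : Sup κ (fun t => X + M < ‖t - m * c₀‖) W := by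
    intro α hα
    obtain ⟨h5, h6⟩ := mem_support_part.1 hα
    rcases hgapS α h6 with h7 | h7
    · exact absurd h7 h5
    · exact lt_of_mul_lt_mul_left (lt_of_lt_of_le hm1 h7) hc.le
  have hs1 : Sup κ (fun t => ‖t - (m + 1) * c₀‖ ≤ X) (P * U) := by
    refine hsP.mul hsU fun a b ha hb => ?_
    calc ‖a + b - (m + 1) * c₀‖ = ‖(a - c₀) + (b - m * c₀)‖ := by congr 1; ring
      _ ≤ ‖a - c₀‖ + ‖b - m * c₀‖ := norm_add_le _ _
      _ ≤ X := by linarith
  have hs2 : Sup κ (fun t => X < ‖t - (m + 1) * c₀‖) (P * W) := by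
    refine hsP.mul hsW fun a b ha hb => ?_
    have h5 : ‖b - m * c₀‖ ≤ ‖a + b - (m + 1) * c₀‖ + ‖a - c₀‖ := by
      calc ‖b - m * c₀‖ = ‖(a + b - (m + 1) * c₀) - (a - c₀)‖ := by congr 1; ring
        _ ≤ _ := norm_sub_le _ _
    linarith
  have hsG : Sup κ (fun t => ‖t‖ ≤ C) (G ^ N) := fun α hα => hC α hα
  have hsPA : Sup κ (fun t => t = m * c₀) (PA ^ m) := by
    refine Sup.pow (T := fun k t => t = k * c₀) (by simp) ?_ ?_ m
    · intro α hα
      rw [(mem_support_part.1 hα).1]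
      simp
    · rintro k a b rfl rfl
      push_cast
      ring
  have hs3 : Sup κ (fun t => ‖t - (m + 1) * c₀‖ ≤ X) (G ^ N * PA ^ m) := by
    refine hsG.mul hsPA fun a b ha hb => ?_
    rw [hb]
    calc ‖a + m * c₀ - (m + 1) * c₀‖ = ‖a - c₀‖ := by congr 1; ring
      _ ≤ ‖a‖ + ‖c₀‖ := norm_sub_le _ _
      _ ≤ X := by linarith
  have hsPB : Sup κ (fun t => (t * ω').re ≤ m * (‖c₀‖ - γ)) ((-PB) ^ m) := by
    refine Sup.pow (T := fun k t => (t * ω').re ≤ k * (‖c₀‖ - γ)) (by simp) ?_ ?_ m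
    · refine Sup.neg ?_
      intro α hα
      obtain ⟨h5, h6⟩ := mem_support_part.1 hα
      have h7 := hγ α (Finset.mem_filter.2 ⟨h6, h5⟩)
      rw [sub_mul, Complex.sub_re, hωc, Complex.ofReal_re] at h7
      simp only [Nat.cast_one, one_mul]
      linarith
    · intro k a b ha hb
      rw [add_mul, Complex.add_re]
      push_cast at hb ⊢
      linarith
  have hs4 : Sup κ (fun t => X < ‖t - (m + 1) * c₀‖) (G ^ N * (-PB) ^ m) := by
    refine hsG.mul hsPB fun a b ha hb => ?_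
    have h5 : -((a + b - (m + 1) * c₀) * ω').re ≤ ‖a + b - (m + 1) * c₀‖ := by
      have h6 := Complex.abs_re_le_norm ((a + b - (m + 1) * c₀) * ω')
      rw [norm_mul, hω'n, mul_one] at h6
      exact (neg_le_abs _).trans h6
    have h6 : ((a + b - (m + 1) * c₀) * ω').re = (a * ω').re + (b * ω').re - (m + 1) * ‖c₀‖ := by
      rw [sub_mul, add_mul, Complex.sub_re, Complex.add_re, mul_assoc, hωc]
      congr 1
      have : ((m : ℂ) + 1) * ‖c₀‖ = (((m + 1) * ‖c₀‖ : ℝ) : ℂ) := by push_cast; ring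
      rw [this, Complex.ofReal_re]
    have h7 : (a * ω').re ≤ C := by
      refine (Complex.re_le_norm _).trans ?_
      rw [norm_mul, hω'n, mul_one]
      exact ha
    rw [h6] at h5
    have h8 : (b * ω').re ≤ m * ‖c₀‖ - m * γ := by linarith
    have h9 : 0 ≤ ‖c₀‖ := norm_nonneg _
    linarith
  have hPUW : P * U + P * W = G ^ N * PA ^ m - G ^ N * (-PB) ^ m := by
    rw [← mul_add, hUW, hPS]
  ext β
  by_cases hβ : ‖tw κ β - (m + 1) * c₀‖ ≤ X
  · have h5 : (P * W).coeff β = 0 := by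
      by_contra hne
      exact absurd (hs2 β (mem_support_iff.2 hne)) (not_lt.2 hβ)
    have h6 : (G ^ N * (-PB) ^ m).coeff β = 0 := by
      by_contra hne
      exact absurd (hs4 β (mem_support_iff.2 hne)) (not_lt.2 hβ)
    have h7 := congrArg (MvPolynomial.coeff β) hPUW
    rw [coeff_add, coeff_sub, h5, h6, add_zero, sub_zero] at h7
    exact h7
  · have h5 : (P * U).coeff β = 0 := by
      by_contra hne
      exact hβ (hs1 β (mem_support_iff.2 hne))
    have h6 : (G ^ N * PA ^ m).coeff β = 0 := by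
      by_contra hne
      exact hβ (hs3 β (mem_support_iff.2 hne))
    rw [h5, h6]

end Main

end Pool.Agent.V9h68.Rt
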