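import Pool.Agent.V9h68.Ld
import Pool.Agent.V9h68.Wn1

/-!
Existence of generic points on curves: the data at infinity.
-/

set_option autoImplicit false

open MvPolynomial Set Filter

noncomputable section

namespace Pool.Agent.V9h68

open Pool.Agent.Y776 Pool.Agent.Y685
open Pool.Agent.TH813.Rel (MK mem_cl subset_cl rk_le_of_subset_cl cl_add cl_mul cl_inv cl_of_base)

/-- a linear relation over a closed field which comes from nonstandard rational coefficients -/
theorem rel_star {A B : Subfield ℂ} (hA : ∀ x, IsAlgebraic A x → x ∈ A)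
    (hB : ∀ x, IsAlgebraic B x → x ∈ B) {ρ : ℂ ≃+* ℂ} (hρ : ∀ a ∈ A, ρ a ∈ B) {z : ℂ}
    (hz : ρ z ∉ B) {n : ℕ} {c : Fin n → ℂ} (hc : ∀ i, c i ∈ (MK A).closure {z}) :
    ∃ (s : ℕ) (m : Fin n → Fin s → A),
      (∀ q : Fin n → ℚ, (∀ j, ∑ l, (q l : ℂ) * m l j = 0) → lc c q ∈ A) ∧
      ∀ Q : Fin n → ℂ, (∀ l, Q l ∈ B) → ∑ l, Q l * ρ (c l) ∈ B →
        ∀ j, ∑ l, Q l * ρ (m l j) = 0 := by
  classical
  let U : Submodule A ℂ :=
    { carrier := A
      add_mem' := A.add_mem
      zero_mem' := A.zero_mem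
      smul_mem' := fun a x hx => A.mul_mem a.2 hx }
  obtain ⟨s, ι, h1, h2⟩ := exists_basis_mod' U c
  choose m hm using h2
  have hm' : ∀ i, c i - ∑ j, (m i j : ℂ) * c (ι j) ∈ A := hm
  refine ⟨s, m, fun q hq => ?_, fun Q hQ hQr j => ?_⟩
  · have e : lc c q = ∑ l, (q l : ℂ) * (c l - ∑ j, (m l j : ℂ) * c (ι j)) +
        ∑ j, (∑ l, (q l : ℂ) * m l j) * c (ι j) := by
      simp only [mul_sub, Finset.sum_sub_distrib, Finset.sum_mul, Finset.mul_sum]
      rw [Finset.sum_comm (s := Finset.univ) (t := Finset.univ)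
        (f := fun (j : Fin s) (l : Fin n) => (q l : ℂ) * (m l j : ℂ) * c (ι j))]
      have e2 : ∑ l, ∑ j, (q l : ℂ) * ((m l j : ℂ) * c (ι j)) =
          ∑ l, ∑ j, (q l : ℂ) * (m l j : ℂ) * c (ι j) := by
        refine Finset.sum_congr rfl fun l _ => Finset.sum_congr rfl fun j _ => ?_
        rw [mul_assoc]
      rw [e2, sub_add_cancel]
      unfold lc
      refine Finset.sum_congr rfl fun l _ => ?_
      rw [Rat.smul_def]
    rw [e]
    refine A.add_mem (sum_mem fun l _ => A.mul_mem (SubfieldClass.ratCast_mem A _) (hm' l)) ?_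
    have e3 : ∑ j, (∑ l, (q l : ℂ) * m l j) * c (ι j) = 0 :=
      Finset.sum_eq_zero fun j _ => by rw [hq j, zero_mul]
    rw [e3]
    exact A.zero_mem
  · -- the family `1, ρ (c (ι j))`
    let A₁ : Subfield ℂ := A.map (ρ : ℂ →+* ℂ)
    have hA₁B : A₁ ≤ B := by
      rintro _ ⟨a, ha, rfl⟩
      exact hρ a ha
    have hA₁ : ∀ x, IsAlgebraic A₁ x → x ∈ A₁ := by
      intro x hx
      obtain ⟨p, hp, hpx⟩ := hx
      let g : A₁ →+* A :=
        { toFun := fun y => ⟨ρ.symm y, by
            obtain ⟨a, ha, hay⟩ := Subfield.mem_map.1 y.2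
            rw [← hay]
            change ρ.symm (ρ a) ∈ A
            rw [RingEquiv.symm_apply_apply]
            exact ha⟩
          map_one' := Subtype.ext (map_one ρ.symm)
          map_mul' := fun a b => Subtype.ext (map_mul ρ.symm (a : ℂ) b)
          map_zero' := Subtype.ext (map_zero ρ.symm)
          map_add' := fun a b => Subtype.ext (map_add ρ.symm (a : ℂ) b) }
      have h3 : ρ.symm x ∈ A := by
        apply hA
        refine ⟨p.map g, ?_, ?_⟩
        · rw [Ne, Polynomial.map_eq_zero_iff g.injective]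
          exact hp
        · rw [Polynomial.aeval_def, Polynomial.eval₂_map]
          have h4 := Polynomial.hom_eval₂ p (algebraMap A₁ ℂ) (ρ.symm : ℂ →+* ℂ) x
          rw [Polynomial.aeval_def] at hpx
          rw [hpx, map_zero] at h4
          exact h4.symm
      exact Subfield.mem_map.2 ⟨ρ.symm x, h3, ρ.apply_symm_apply x⟩
    let f : Fin (s + 1) → ℂ := Fin.cons 1 fun j => ρ (c (ι j))
    have hf : ∀ i, f i ∈ (MK A₁).closure {ρ z} := by
      intro i
      refine Fin.cases ?_ (fun j => ?_) i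
      · exact cl_one _
      · have h3 := cl_hom (θ := (ρ : ℂ →+* ℂ)) (K := A) (K' := A₁) (fun a ha =>
          Subfield.mem_map.2 ⟨a, ha, rfl⟩) (hc (ι j))
        rw [Set.image_singleton] at h3
        exact h3
    have hind : ∀ β : Fin (s + 1) → ℂ, (∀ i, β i ∈ A₁) → ∑ i, β i * f i = 0 → β = 0 := by
      intro β hβ hβ0
      choose α hα hαβ using fun i => Subfield.mem_map.1 (hβ i)
      have hαβ' : ∀ i, ρ (α i) = β i := hαβ
      have h3 : ρ (α 0 + ∑ j : Fin s, α j.succ * c (ι j)) = 0 := by
        rw [← hβ0, Fin.sum_univ_succ, map_add, map_sum]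
        simp only [f, Fin.cons_zero, Fin.cons_succ, mul_one, map_mul, hαβ']
      have h4 := (map_eq_zero ρ).1 h3
      have h5 : ∑ j : Fin s, α j.succ * c (ι j) ∈ A := by
        rw [eq_neg_of_add_eq_zero_right h4]
        exact A.neg_mem (hα 0)
      have h6 := h1 (fun j => ⟨α j.succ, hα _⟩) h5
      have h7 : ∀ j : Fin s, α j.succ = 0 := fun j =>
        congrArg Subtype.val (congrFun h6 j)
      have h8 : α 0 = 0 := by
        simp only [h7, zero_mul, Finset.sum_const_zero, add_zero] at h4
        exact h4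
      funext i
      rw [← hαβ' i]
      refine Fin.cases ?_ (fun j => ?_) i
      · rw [h8, map_zero]
        rfl
      · rw [h7, map_zero]
        rfl
    -- the relation
    let κ : ℂ := ∑ l, Q l * ρ (c l) - ∑ l, Q l * ρ (c l - ∑ j, (m l j : ℂ) * c (ι j))
    have hκ : κ ∈ B := B.sub_mem hQr (sum_mem fun l _ => B.mul_mem (hQ l) (hρ _ (hm' l)))
    have hrel : ∑ j, (∑ l, Q l * ρ (m l j)) * ρ (c (ι j)) = κ := by
      simp only [κ]
      rw [← Finset.sum_sub_distrib]
      simp only [Finset.sum_mul]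
      rw [Finset.sum_comm]
      refine Finset.sum_congr rfl fun l _ => ?_
      rw [map_sub, map_sum, mul_sub, sub_sub_cancel, Finset.mul_sum]
      refine Finset.sum_congr rfl fun j _ => ?_
      rw [map_mul, mul_assoc]
    have h9 := lin_disj (A := A₁) (B := B) hA₁ hB hA₁B hz hf hind
      (β := Fin.cons (-κ) fun j => ∑ l, Q l * ρ (m l j)) (by
        intro i
        refine Fin.cases ?_ (fun j => ?_) i
        · exact B.neg_mem hκ
        · change ∑ l, Q l * ρ (m l j) ∈ B
          exact sum_mem fun l _ => B.mul_mem (hQ l) (hρ _ (m l j).2)) (by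
        rw [Fin.sum_univ_succ]
        simp only [f, Fin.cons_zero, Fin.cons_succ, mul_one]
        rw [hrel, neg_add_cancel])
    exact congrFun h9 j.succ

section Main

variable {K : Subfield ℂ} {p n : ℕ} {b b' : Fin p → ℂ} {c : Fin n → ℂ}

/-- **the data at infinity** -/
theorem gsec_auxc (hK : GD K) {A : Subfield ℂ} (hAdef : A = clF K (ET b)) [Countable A]
    {d : ℕ} (hd : 0 < d) {L : ℕ → Subfield ℂ} (hL : Chn K b' d L)
    (hrb : (MK K).eRk (ET b) ≤ (p + d : ℕ))
    (hbc : ∀ q : Fin (p + n) → ℚ, lc (Fin.append b c) q ∈ K → q = 0)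
    (hcA : ∀ q : Fin n → ℚ, lc c q ∈ A → q = 0)
    {z₁ : ℂ} (hcz : ∀ i, c i ∈ (MK A).closure {z₁})
    (hz₀rk : (MK K).eRk (ET (Fin.append b c)) ≤ (p + d + n : ℕ))
    {i₁ : Fin n} (hexp : Complex.exp (c i₁) ∈
      (MK A).closure ({z₁} ∪ (fun i => Complex.exp (c i)) '' {i₁}ᶜ))
    {σ : ℂ ≃+* ℂ} (hσK : ∀ c ∈ K, σ c = c) (hσb : ∀ i, σ (b i) = b' i)
    (hσe : ∀ i, σ (Complex.exp (b i)) = Complex.exp (b' i))
    (x : ℕ → Fin n → ℂ)
    (hx : ∀ j, ∀ f : MvPolynomial (Fin n ⊕ Fin n) A, aeval (ep c) f = 0 →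
      eval₂ ((σ : ℂ →+* ℂ).comp (algebraMap A ℂ)) (ep (x j)) f = 0)
    (hxH : ∀ H : MvPolynomial (Fin n ⊕ Fin n) A, aeval (ep c) H ≠ 0 →
      ∀ᶠ j in (hyperfilter ℕ : Filter ℕ),
        eval₂ ((σ : ℂ →+* ℂ).comp (algebraMap A ℂ)) (ep (x j)) H ≠ 0)
    (hrel : ∀ j, ∃ q : Fin (p + n) → ℚ, lc (Fin.append b' (x j)) q ∈ K ∧
      ∃ i : Fin n, q (Fin.natAdd p i) ≠ 0) : False := by
  classical
  have hKA : ∀ w ∈ K, w ∈ A := fun w hw => by
    rw [hAdef]
    exact cl_of_base (k := K) _ (⟨w, hw⟩ : K)
  have hbA : ∀ i, b i ∈ A := fun i => by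
    rw [hAdef]
    exact subset_cl _ (mem_ET_l b i)
  have heA : ∀ i, Complex.exp (b i) ∈ A := fun i => by
    rw [hAdef]
    exact subset_cl _ (mem_ET_r b i)
  have hAalg : ∀ x, IsAlgebraic A x → x ∈ A := by
    rw [hAdef]
    exact clF_alg _
  let τ : A →+* ℂ := (σ : ℂ →+* ℂ).comp (algebraMap A ℂ)
  have hτ : ∀ f : A, τ f = σ (f : ℂ) := fun f => rfl
  obtain ⟨Θ, hs, h0⟩ := exists_star
  let θ : ℂ →+* ℂ := Θ.comp (Pi.constRingHom ℕ ℂ)
  have hθ : ∀ z, θ z = Θ fun _ => z := fun z => rfl
  let z : ℕ → Fin (p + n) → ℂ := fun j => Fin.append b' (x j)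
  set K' := starF h0 K with hK'
  let zz : Fin (p + n) → ℂ := fun l => Θ fun j => z j l
  let ww : Fin (p + n) → ℂ := fun l => Θ fun j => Complex.exp (z j l)
  let z₀ : Fin (p + n) → ℂ := Fin.append b c
  have hlc : ∀ q, lc zz q = Θ fun j => lc (z j) q := by
    intro q
    have e : (fun j => lc (z j) q) = ∑ i, q i • (fun j => z j i) := by
      funext j
      unfold lc
      rw [Finset.sum_apply]
      rfl
    rw [e, map_sum]
    unfold lc
    refine Finset.sum_congr rfl fun i _ => ?_
    exact (map_rat_smul Θ (q i) (fun j => z j i)).symm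
  have hww0 : ∀ l, ww l ≠ 0 := fun l =>
    star_ne h0 (Eventually.of_forall fun j => Complex.exp_ne_zero _)
  have hDD : ∀ i, ∃ D' : Derivation ℚ ℂ ℂ, (∀ c ∈ starF h0 (L i), D' c = 0) ∧
      (∀ l, D' (ww l) = ww l * D' (zz l)) ∧ ∀ q, D' (lc zz q) = 0 → lc zz q ∈ starF h0 (L i) := by
    intro i
    choose D hD1 hD2 hD3 using fun j => der_gen (hL.gd i).der (z j)
    obtain ⟨D', hD'⟩ := star_der hs h0 D
    refine ⟨D', ?_, ?_, ?_⟩
    · rintro _ ⟨f, hf, rfl⟩
      rw [hD', h0]
      exact Eventually.of_forall fun j => hD1 j _ (hf j)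
    · intro l
      rw [hD', hD', ← map_mul]
      congr 1
      funext j
      exact D_exp (hD2 j l)
    · intro q hq
      rw [hlc, hD', h0] at hq
      rw [hlc, star_mem]
      filter_upwards [hq] with j hj
      exact hD3 j q hj
  have hmonΘ : ∀ s : Fin (p + n) → ℤ, mon ww s =
      Θ fun j => Complex.exp (lc (z j) fun l => (s l : ℚ)) := by
    intro s
    have h2 : (fun j => Complex.exp (lc (z j) fun l => ((s l : ℤ) : ℚ))) =
        ∏ l, fun j => Complex.exp (z j l) ^ s l := by
      funext j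
      rw [Finset.prod_apply]
      exact exp_lc_int _ _
    rw [h2, map_prod]
    unfold mon
    refine Finset.prod_congr rfl fun l _ => ?_
    rw [star_zpow h0]
  have hmonL : ∀ (i : ℕ) (s : Fin (p + n) → ℤ), lc zz (fun l => (s l : ℚ)) ∈ starF h0 (L i) →
      mon ww s ∈ starF h0 (L i) := by
    intro i s h3
    rw [hlc, star_mem] at h3
    rw [hmonΘ, star_mem]
    filter_upwards [h3] with j hj
    exact (hL.gd i).exp _ hj
  have hstr : ∀ i < d, ∃ q, lc zz q ∉ starF h0 (L i) ∧
      (i + 1 < d → lc zz q ∈ starF h0 (L (i + 1))) := by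
    intro i hi
    obtain ⟨q, hq1, hq2⟩ := hL.str i hi
    have hq3 : ∀ j, lc (z j) (Fin.append q (0 : Fin n → ℚ)) = lc b' q := by
      intro j
      exact lc_app _ _ _
    refine ⟨Fin.append q 0, ?_, fun h => ?_⟩
    · rw [hlc, star_mem]
      intro hcon
      obtain ⟨j, hj⟩ := hcon.exists
      rw [hq3] at hj
      exact hq1 hj
    · rw [hlc, star_mem]
      refine Eventually.of_forall fun j => ?_
      rw [hq3]
      exact hq2 h
  have hlow : ∀ a : ℕ, (MK (starF h0 K)).eRk (range zz ∪ range ww) ≤ a →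
      (p + n) + d ≤ Module.finrank ℚ (rels (starF h0 K) zz) + a := by
    intro a ha
    exact chain_low' (z := zz) (w := ww) hww0 (d := d) (L := fun i => starF h0 (L i))
      (K := starF h0 K) (congrArg (starF h0) hL.zero) (fun i => by
        rintro _ ⟨f, hf, rfl⟩
        exact ⟨f, fun j => hL.mono i (hf j), rfl⟩) (fun i _ => hDD i) (fun i _ => hmonL i)
      hstr hd ha
  have hcK : ∀ w ∈ K, θ w ∈ K' := fun w hw => ⟨fun _ => w, fun _ => hw, rfl⟩
  -- the isomorphism
  have hev : ∀ P : MvPolynomial (Fin n ⊕ Fin n) A, eval₂ (θ.comp τ)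
      (Sum.elim (fun i => Θ fun j => x j i) (fun i => Θ fun j => Complex.exp (x j i))) P =
      Θ fun j => eval₂ τ (ep (x j)) P := by
    intro P
    have e : (eval₂Hom (θ.comp τ) (Sum.elim (fun i => Θ fun j => x j i)
        (fun i => Θ fun j => Complex.exp (x j i)))) =
        Θ.comp (RingHom.pi fun j => eval₂Hom τ (ep (x j))) := by
      refine MvPolynomial.ringHom_ext (fun a => ?_) (fun i => ?_)
      · rw [eval₂Hom_C]
        change Θ (fun _ => τ a) = Θ (fun j => eval₂Hom τ (ep (x j)) (C a))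
        congr 1
        funext j
        exact (eval₂Hom_C _ _ _).symm
      · rw [eval₂Hom_X', RingHom.comp_apply]
        have e1 : (RingHom.pi fun j => eval₂Hom τ (ep (x j)))
            (X i : MvPolynomial (Fin n ⊕ Fin n) A) = fun j => ep (x j) i := by
          funext j
          exact eval₂Hom_X' _ _ _
        rw [e1]
        rcases i with i | i
        · rfl
        · rfl
    exact RingHom.congr_fun e P
  obtain ⟨ρ, hρF, hρx⟩ := aut_tuple (K := A) (ι := Fin n ⊕ Fin n) (algebraMap A ℂ) (θ.comp τ)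
    (ep c) (Sum.elim (fun i => Θ fun j => x j i) (fun i => Θ fun j => Complex.exp (x j i)))
    (fun P => by
      rw [hev]
      constructor
      · intro h
        rw [h0]
        exact Eventually.of_forall fun j => hx j P h
      · intro h
        by_contra hne
        exact star_ne h0 (hxH P hne) h)
  have hρA : ∀ w : ℂ, ∀ hw : w ∈ A, ρ w = θ (σ w) := by
    intro w hw
    have := hρF ⟨w, hw⟩
    rw [RingHom.comp_apply, hτ] at this
    exact this
  have hρz : ∀ l, ρ (z₀ l) = zz l := by
    intro l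
    refine Fin.addCases (fun i => ?_) (fun i => ?_) l
    · simp only [z₀, zz, z, Fin.append_left]
      rw [hρA _ (hbA i), hσb]
      rfl
    · simp only [z₀, zz, z, Fin.append_right]
      exact hρx (Sum.inl i)
  have hρw : ∀ l, ρ (Complex.exp (z₀ l)) = ww l := by
    intro l
    refine Fin.addCases (fun i => ?_) (fun i => ?_) l
    · simp only [z₀, ww, z, Fin.append_left]
      rw [hρA _ (heA i), hσe]
      rfl
    · simp only [z₀, ww, z, Fin.append_right]
      exact hρx (Sum.inr i)
  have hρK : ∀ w ∈ K, ρ w = θ w := by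
    intro w hw
    rw [hρA w (hKA w hw), hσK w hw]
  -- the set
  set XX : Set ℂ := range zz ∪ range ww with hXX
  have hXim : XX = ρ '' ET z₀ := by
    unfold ET
    rw [Set.image_union, hXX]
    congr 1
    · rw [← Set.range_comp]
      congr 1
      funext l
      exact (hρz l).symm
    · rw [← Set.range_comp]
      congr 1
      funext l
      exact (hρw l).symm
  -- ranks
  have hTb : θ '' ET b' = ρ '' ET b := by
    unfold ET
    rw [Set.image_union, Set.image_union, ← Set.range_comp, ← Set.range_comp, ← Set.range_comp,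
      ← Set.range_comp]
    congr 1
    · congr 1
      funext i
      simp only [Function.comp_apply]
      rw [hρA _ (hbA i), hσb]
    · congr 1
      funext i
      simp only [Function.comp_apply]
      rw [hρA _ (heA i), hσe]
  -- the relations
  set V : Submodule ℚ (Fin (p + n) → ℚ) := rels (starF h0 K) zz with hVdef
  by_cases hV : V = ⊥
  · have hk0 : Module.finrank ℚ V = 0 := by
      rw [hV]
      exact finrank_bot ℚ _
    have hKcl : ∀ (T : Set ℂ) (w : ℂ), w ∈ K' → w ∈ (MK K').closure T := fun T w hw =>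
      cl_of_base (k := K') T (⟨w, hw⟩ : K')
    have hρcl : ∀ T : Set ℂ, ρ '' ET b ⊆ (MK K').closure T → ∀ w ∈ A,
        ρ w ∈ (MK K').closure T := by
      intro T hT w hw
      rw [hAdef] at hw
      refine cl_hom' (k := K) (k' := K') (ρ : ℂ →+* ℂ) (fun a => ?_) (fun s hs => ?_) hw
      · change ρ (a : ℂ) ∈ _
        rw [hρK _ a.2]
        exact hKcl _ _ (hcK _ a.2)
      · exact hT ⟨s, hs, rfl⟩
    set B := clF K' (θ '' ET b') with hB
    have hρB : ∀ w ∈ A, ρ w ∈ B := hρcl _ (by rw [← hTb]; exact subset_cl _)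
    by_cases hzB : ρ z₁ ∈ B
    · -- the point is in the closure, the rank drops
      have hzc : ∀ i, ρ (c i) ∈ B := by
        intro i
        refine cl_hom' (k := A) (k' := K') (ρ : ℂ →+* ℂ) (fun a => hρB _ a.2) ?_ (hcz i)
        rintro w rfl
        exact hzB
      have hup : XX ⊆ (MK K').closure (θ '' ET b' ∪
          (fun i => ρ (Complex.exp (c i))) '' {i₁}ᶜ) := by
        have hBT : ∀ w ∈ B, w ∈ (MK K').closure (θ '' ET b' ∪
            (fun i => ρ (Complex.exp (c i))) '' {i₁}ᶜ) := fun w hw =>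
          (MK K').closure_subset_closure Set.subset_union_left hw
        rw [hXim]
        rintro _ ⟨_, (⟨l, rfl⟩ | ⟨l, rfl⟩), rfl⟩
        · refine Fin.addCases (fun i => ?_) (fun i => ?_) l
          · simp only [z₀, Fin.append_left]
            exact hBT _ (hρB _ (hbA i))
          · simp only [z₀, Fin.append_right]
            exact hBT _ (hzc i)
        · refine Fin.addCases (fun i => ?_) (fun i => ?_) l
          · simp only [z₀, Fin.append_left]
            exact hBT _ (hρB _ (heA i))
          · simp only [z₀, Fin.append_right]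
            by_cases hi : i = i₁
            · rw [hi]
              refine cl_hom' (k := A) (k' := K') (ρ : ℂ →+* ℂ) (fun a => hBT _ (hρB _ a.2)) ?_ hexp
              rintro w (hw | ⟨l, hl, rfl⟩)
              · rw [Set.mem_singleton_iff.1 hw]
                exact hBT _ hzB
              · exact subset_cl _ (Or.inr ⟨l, hl, rfl⟩)
            · exact subset_cl _ (Or.inr ⟨i, hi, rfl⟩)
      have h3 := rk_bound' (K := K') (a := p + d) ((rk_hom (K := K) (K' := K') hcK (ET b')).trans (by
        have h4 := rk_hom (θ := (σ : ℂ →+* ℂ)) (K := K) (K' := K) (fun c hc => by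
          change σ c ∈ K
          rw [hσK c hc]; exact hc) (ET b)
        have h5 : (σ : ℂ →+* ℂ) '' ET b = ET b' := image_ET hσb hσe
        rw [h5] at h4
        exact h4.trans hrb)) hup
      have h6 := hlow _ h3
      have hn := i₁.pos
      omega
    · -- a relation with infinite coefficients
      obtain ⟨s, m, hm1, hm2⟩ := rel_star hAalg (clF_alg _) hρB hzB hcz
      choose q hq i hi using hrel
      obtain ⟨i₀, hi₀⟩ := star_pigeon (i := i)
      let Q : Fin (p + n) → ℂ := fun l => Θ fun j => ((q j l : ℚ) : ℂ)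
      have hQK : ∀ l, Q l ∈ K' := fun l => ⟨_, fun j => by
        exact SubfieldClass.ratCast_mem K (q j l), rfl⟩
      have hQB : ∀ l, Q l ∈ B := fun l => hKcl _ _ (hQK l)
      have hrelQ : ∑ l, Q l * zz l ∈ K' := by
        have e1 : ∑ l, Q l * zz l = Θ fun j => lc (z j) (q j) := by
          simp only [Q, zz]
          simp only [← map_mul]
          rw [← map_sum]
          congr 1
          funext j
          rw [Finset.sum_apply]
          unfold lc
          refine Finset.sum_congr rfl fun l _ => ?_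
          rw [Rat.smul_def]
          rfl
        rw [e1]
        exact ⟨_, hq, rfl⟩
      have hrelB : ∑ i : Fin n, Q (Fin.natAdd p i) * ρ (c i) ∈ B := by
        have h1 : ∑ i : Fin n, Q (Fin.natAdd p i) * ρ (c i) = ∑ l, Q l * zz l -
            ∑ i : Fin p, Q (Fin.castAdd n i) * ρ (b i) := by
          rw [Fin.sum_univ_add, add_comm, add_sub_assoc]
          have h2 : ∑ i : Fin p, Q (Fin.castAdd n i) * zz (Fin.castAdd n i) -
              ∑ i : Fin p, Q (Fin.castAdd n i) * ρ (b i) = 0 := by
            rw [sub_eq_zero]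
            refine Finset.sum_congr rfl fun i _ => ?_
            rw [← hρz]
            simp only [z₀, Fin.append_left]
          rw [h2, add_zero]
          refine Finset.sum_congr rfl fun i _ => ?_
          rw [← hρz]
          simp only [z₀, Fin.append_right]
        rw [h1]
        exact B.sub_mem (hKcl _ _ hrelQ) (sum_mem fun i _ => B.mul_mem (hQB _) (hρB _ (hbA i)))
      have h2 := hm2 _ (fun l => hQB (Fin.natAdd p l)) hrelB
      have h3 : ∀ a : Fin s, ∀ᶠ j in (hyperfilter ℕ : Filter ℕ),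
          ∑ l : Fin n, ((q j (Fin.natAdd p l) : ℚ) : ℂ) * σ (m l a) = 0 := by
        intro a
        rw [← h0]
        have h4 := h2 a
        rw [← h4]
        have h5 : ∀ l : Fin n, ρ (m l a) = Θ fun _ => σ (m l a) := fun l => hρA _ (m l a).2
        simp only [h5, Q]
        simp only [← map_mul]
        rw [← map_sum]
        congr 1
        funext j
        rw [Finset.sum_apply]
        rfl
      have h4 : ∀ᶠ j in (hyperfilter ℕ : Filter ℕ), ∀ a : Fin s,
          ∑ l : Fin n, ((q j (Fin.natAdd p l) : ℚ) : ℂ) * σ (m l a) = 0 :=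
        eventually_all.2 h3
      obtain ⟨j, hj1, hj2⟩ := (h4.and hi₀).exists
      have h5 := hm1 (fun l => q j (Fin.natAdd p l)) (fun a => by
        have h6 := hj1 a
        have h7 : σ (∑ l : Fin n, ((q j (Fin.natAdd p l) : ℚ) : ℂ) * m l a) = 0 := by
          rw [map_sum, ← h6]
          refine Finset.sum_congr rfl fun l _ => ?_
          rw [map_mul, map_ratCast]
        exact (map_eq_zero σ).1 h7)
      have h6 := congrFun (hcA _ h5) (i j)
      exact hi j h6
  · -- standard relations
    have hk0 : 0 < Module.finrank ℚ V :=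
      Module.finrank_pos_iff.2 (Submodule.nontrivial_iff_ne_bot.2 hV)
    let vb := Module.finBasis ℚ V
    choose m hm sI hsI using fun i => exists_int (vb i : Fin (p + n) → ℚ)
    let sq : Fin (Module.finrank ℚ V) → Fin (p + n) → ℚ := fun i l => sI i l
    have hsq : ∀ i, sq i = (m i : ℚ) • (vb i : Fin (p + n) → ℚ) := by
      intro i
      funext l
      rw [Pi.smul_apply, smul_eq_mul]
      exact (hsI i l).symm
    have hsqV : ∀ i, sq i ∈ V := by
      intro i
      rw [hsq]
      exact V.smul_mem _ (vb i).2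
    let u : Fin (Module.finrank ℚ V) → ℂ := fun i => lc z₀ (sq i)
    have hu : ∀ r : Fin (Module.finrank ℚ V) → ℚ, ∑ i, r i • u i ∈ K → r = 0 := by
      intro r hr
      have h1 : ∑ i, r i • u i = lc z₀ (∑ i, r i • sq i) := by
        rw [lc_sum]
        exact Finset.sum_congr rfl fun i _ => (lc_smul _ _ _).symm
      rw [h1] at hr
      have h2 := hbc _ hr
      have h3 : ∑ i, (r i * m i) • vb i = 0 := by
        apply Subtype.ext
        rw [AddSubmonoidClass.coe_finsetSum]
        refine Eq.trans (Finset.sum_congr rfl fun i _ => ?_) h2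
        rw [hsq, smul_smul]
        rfl
      have h4 := Fintype.linearIndependent_iff.1 vb.linearIndependent _ h3
      funext i
      have h5 : (m i : ℚ) ≠ 0 := by exact_mod_cast (hm i).ne'
      exact (mul_eq_zero.1 (h4 i)).resolve_right h5
    have hrku := hK.rk _ u hk0 hu
    let K₁ : Subfield ℂ := K.map θ
    have hK₁ : ∀ w ∈ K, θ w ∈ K₁ := fun w hw => Subfield.mem_map.2 ⟨w, hw, rfl⟩
    have hK₁K' : K₁ ≤ K' := by
      intro w hw
      obtain ⟨v, hv, rfl⟩ := Subfield.mem_map.1 hw
      exact hcK v hv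
    have hρK₁ : ∀ w ∈ K, (ρ : ℂ →+* ℂ) w ∈ K₁ := fun w hw => by
      change ρ w ∈ K₁
      rw [hρK w hw]
      exact hK₁ w hw
    have hWcl : (ρ : ℂ →+* ℂ) '' ET u ⊆ (MK K₁).closure XX := by
      rintro _ ⟨w, hw, rfl⟩
      have h1 : w ∈ (MK K).closure (ET z₀) := by
        rcases hw with ⟨i, rfl⟩ | ⟨i, rfl⟩
        · exact (sum_cl z₀ (sq i)).1
        · exact (sum_cl z₀ (sq i)).2
      have h2 := cl_hom hρK₁ h1
      rw [hXim]
      exact h2
    have hWK : (ρ : ℂ →+* ℂ) '' ET u ⊆ K' := by
      rintro _ ⟨w, (⟨i, rfl⟩ | ⟨i, rfl⟩), rfl⟩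
      · change ρ (u i) ∈ K'
        have h1 : ρ (u i) = lc zz (sq i) := by
          have h2 := lc_map (ρ : ℂ →+* ℂ) z₀ (sq i)
          change ρ (lc z₀ (sq i)) = lc (fun l => ρ (z₀ l)) (sq i) at h2
          simp only [u]
          rw [h2]
          congr 1
          funext l
          exact hρz l
        rw [h1]
        exact hsqV i
      · change ρ (Complex.exp (u i)) ∈ K'
        have h1 : ρ (Complex.exp (u i)) = Θ fun j => Complex.exp (lc (z j) (sq i)) := by
          simp only [u, sq]
          rw [exp_lc_int, map_prod]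
          have h2 : (fun j => Complex.exp (lc (z j) fun l => ((sI i l : ℤ) : ℚ))) =
              ∏ l, fun j => Complex.exp (z j l) ^ sI i l := by
            funext j
            rw [Finset.prod_apply]
            exact exp_lc_int _ _
          rw [h2, map_prod]
          refine Finset.prod_congr rfl fun l _ => ?_
          rw [map_zpow₀, hρw, star_zpow h0]
        have h3 : lc zz (sq i) ∈ K' := hsqV i
        rw [hlc, hK', star_mem] at h3
        rw [h1, hK', star_mem]
        filter_upwards [h3] with j hj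
        exact hK.exp _ hj
    have h6 : (MK K₁).eRk XX ≤ (p + d + n : ℕ) := by
      rw [hXim]
      exact (rk_hom (θ := (ρ : ℂ →+* ℂ)) hρK₁ (ET z₀)).trans hz₀rk
    have h7 : ((Module.finrank ℚ V + 1 : ℕ) : ℕ∞) ≤ (MK K₁).eRk ((ρ : ℂ →+* ℂ) '' ET u) := by
      have h8 := rk_hom (θ := (ρ.symm : ℂ →+* ℂ)) (K := K₁) (K' := K) (fun w hw => by
        obtain ⟨v, hv, rfl⟩ := Subfield.mem_map.1 hw
        change ρ.symm (θ v) ∈ K
        rw [← hρK v hv, RingEquiv.symm_apply_apply]
        exact hv) ((ρ : ℂ →+* ℂ) '' ET u)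
      have h9 : (ρ.symm : ℂ →+* ℂ) '' ((ρ : ℂ →+* ℂ) '' ET u) = ET u := by
        rw [Set.image_image]
        refine Eq.trans (Set.image_congr fun w _ => ?_) (Set.image_id (ET u))
        exact RingEquiv.symm_apply_apply ρ w
      rw [h9] at h8
      exact hrku.trans h8
    have h10 := rk_remove hK₁K' hWcl hWK h6 h7
    have h11 := hlow _ h10
    have h12 : Module.finrank ℚ V ≤ p + n := by
      have := V.finrank_le
      rwa [Module.finrank_fintype_fun_eq_card, Fintype.card_fin] at this
    omega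

end Main

end Pool.Agent.V9h68
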