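import Pool.Agent.V9h68.Ad
import Pool.Agent.V9h68.Sh
import Pool.Agent.V9h68.Wn4

/-!
Isomorphisms and generic points of curves: minimal tuples.
-/

set_option autoImplicit false

open MvPolynomial Set Filter Topology

noncomputable section

namespace Pool.Agent.V9h68

open Pool.Agent.Y776 Pool.Agent.Y685
open Pool.Agent.TH813.Rel (MK mem_cl subset_cl rk_le_of_subset_cl cl_add cl_mul cl_inv cl_of_base)

theorem Rt.order_cmul {f : ℂ → ℂ} (hf : MeromorphicAt f 0) {t : ℂ} (ht : t ≠ 0) :
    meromorphicOrderAt (fun s => t * f s) 0 = meromorphicOrderAt f 0 := by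
  have h1 : meromorphicOrderAt (fun s => t * f s) 0 =
      meromorphicOrderAt (fun _ : ℂ => t) 0 + meromorphicOrderAt f 0 :=
    meromorphicOrderAt_mul (MeromorphicAt.const _ 0) hf
  have h2 : meromorphicOrderAt (fun _ : ℂ => t) 0 = 0 := by
    rw [meromorphicOrderAt_const]
    exact if_neg ht
  rw [h1, h2, zero_add]

theorem Rt.Ex_mero {n : ℕ} {x : Fin n → ℂ → ℂ} (hx : ∀ i, MeromorphicAt (x i) 0)
    (α : Fin n →₀ ℕ) : MeromorphicAt (Rt.Ex x α) 0 := by
  have h1 : Rt.Ex x α = ∑ i, fun s => (α i : ℂ) * x i s := by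
    funext s
    rw [Finset.sum_apply]
    rfl
  rw [h1]
  exact MeromorphicAt.sum fun i _ => (MeromorphicAt.const _ 0).mul (hx i)

/-- scaling of adapted tuples -/
theorem Rt.Adp.smul {n k r D : ℕ} {xf : Fin n → ℂ → ℂ} {b : Fin (k + 1) ⊕ Fin r → Fin n → ℚ}
    {κ : Fin (k + 1) → ℂ} (h : Rt.Adp (fun j => Rt.fc xf (b j)) κ D) {t : ℚ} (ht : t ≠ 0) :
    Rt.Adp (fun j => Rt.fc xf (t • b j)) (fun i => (t : ℂ) * κ i) D := by
  have ht' : (t : ℂ) ≠ 0 := by exact_mod_cast ht
  have hE : ∀ (α : Fin (k + 1) →₀ ℕ) (s : ℂ), Rt.Ex (fun i => Rt.fc xf (t • b (Sum.inl i))) α s =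
      t * Rt.Ex (fun i => Rt.fc xf (b (Sum.inl i))) α s := by
    intro α s
    unfold Rt.Ex
    rw [Finset.mul_sum]
    refine Finset.sum_congr rfl fun i _ => ?_
    simp only [Rt.fc_smul]
    ring
  refine ⟨h.D1, fun i => ?_, fun α β hαβ => ?_, fun α β hαβ => ?_, fun j => ?_, fun j => ?_⟩
  · simp only [Rt.fc_smul]
    exact (h.ld i).cmul _
  · apply h.kap
    have h1 : ∀ α : Fin (k + 1) →₀ ℕ, Rt.tw (fun i => (t : ℂ) * κ i) α = t * Rt.tw κ α := by
      intro α
      unfold Rt.tw
      rw [Finset.mul_sum]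
      refine Finset.sum_congr rfl fun i _ => ?_
      ring
    rw [h1, h1] at hαβ
    exact mul_left_cancel₀ ht' hαβ
  · have h1 := h.free α β hαβ
    have h2 : (fun s => Rt.Ex (fun i => Rt.fc xf (t • b (Sum.inl i))) α s -
        Rt.Ex (fun i => Rt.fc xf (t • b (Sum.inl i))) β s) = fun s => (t : ℂ) *
        (Rt.Ex (fun i => Rt.fc xf (b (Sum.inl i))) α s -
          Rt.Ex (fun i => Rt.fc xf (b (Sum.inl i))) β s) := by
      funext s
      rw [hE, hE]
      ring
    rw [h2, Rt.order_cmul _ ht']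
    · exact h1
    · exact (Rt.Ex_mero (fun i => (h.ld i).1) α).sub (Rt.Ex_mero (fun i => (h.ld i).1) β)
  · simp only [Rt.fc_smul]
    exact (MeromorphicAt.const _ 0).mul (h.mer j)
  · simp only [Rt.fc_smul]
    rw [Rt.order_cmul (h.mer j) ht']
    exact h.reg j

/-- germs of combinations -/
theorem Rt.lc_germ {ρ : ℂ ≃+* ℂ} {ι : Rt.MG →+* ℂ} {n : ℕ} {c : Fin n → ℂ} {xf : Fin n → ℂ → ℂ}
    (hxf : ∀ i, MeromorphicAt (xf i) 0) (h : ∀ i, ρ (c i) = ι (Rt.mk (xf i) (hxf i)))
    (q : Fin n → ℚ) : ρ (lc c q) = ι (Rt.mk (Rt.fc xf q) (Rt.fc_mero hxf q)) := by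
  have h1 : Rt.mk (Rt.fc xf q) (Rt.fc_mero hxf q) =
      ∑ i, Rt.cst (q i : ℂ) * Rt.mk (xf i) (hxf i) := by
    have h2 : (⟨Rt.fc xf q, Rt.fc_mero hxf q⟩ : Rt.FS) =
        ∑ i, Rt.cstF (q i : ℂ) * (⟨xf i, hxf i⟩ : Rt.FS) := by
      apply Subtype.ext
      rw [AddSubmonoidClass.coe_finsetSum]
      funext s
      rw [Finset.sum_apply]
      rfl
    change Rt.ti _ = _
    rw [h2, map_sum]
    refine Finset.sum_congr rfl fun i _ => ?_
    rw [map_mul]
    rfl
  rw [h1, map_sum]
  unfold lc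
  rw [map_sum]
  refine Finset.sum_congr rfl fun i _ => ?_
  rw [map_mul, ← h, Rat.smul_def, map_mul]
  congr 1
  have h2 := map_ratCast (ι.comp Rt.cst) (q i)
  rw [map_ratCast]
  exact h2.symm

section Lin

variable {K : Subfield ℂ} {p n : ℕ}

/-- combinations of combinations -/
theorem lc_lc {ι : Type} [Fintype ι] {n : ℕ} (c : Fin n → ℂ) (s : ι → Fin n → ℚ) (q : ι → ℚ) :
    ∑ i, q i • lc c (s i) = lc c (∑ i, q i • s i) := by
  rw [lc_sum]
  exact Finset.sum_congr rfl fun i _ => (lc_smul _ _ _).symm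

theorem ind_lin {b : Fin p → ℂ} {c : Fin n → ℂ}
    (hbc : ∀ q : Fin (p + n) → ℚ, lc (Fin.append b c) q ∈ K → q = 0) {m : ℕ}
    {s : Fin m → Fin n → ℚ} (hs : ∀ q : Fin m → ℚ, ∑ j, q j • s j = 0 → q = 0) :
    ∀ q : Fin (p + m) → ℚ, lc (Fin.append b fun i => lc c (s i)) q ∈ K → q = 0 := by
  intro q hq
  rw [lc_append] at hq
  have h1 : lc (fun i => lc c (s i)) (fun i => q (Fin.natAdd p i)) =
      lc c (∑ j, q (Fin.natAdd p j) • s j) := lc_lc c s fun j => q (Fin.natAdd p j)
  rw [h1] at hq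
  have h2 := hbc (Fin.append (fun i => q (Fin.castAdd m i)) (∑ j, q (Fin.natAdd p j) • s j)) (by
    rw [lc_append]
    simp only [Fin.append_left, Fin.append_right]
    exact hq)
  have h3 : (fun i => q (Fin.castAdd m i)) = 0 := by
    funext i
    have := congrFun h2 (Fin.castAdd n i)
    rw [Fin.append_left] at this
    exact this
  have h4 : ∑ j, q (Fin.natAdd p j) • s j = 0 := by
    funext i
    have := congrFun h2 (Fin.natAdd p i)
    rw [Fin.append_right] at this
    exact this
  have h5 := hs _ h4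
  funext l
  refine Fin.addCases (fun i => ?_) (fun i => ?_) l
  · exact congrFun h3 i
  · exact congrFun h5 i

theorem ET_lin {b : Fin p → ℂ} {c : Fin n → ℂ} {m : ℕ} (s : Fin m → Fin n → ℚ) :
    ET (Fin.append b fun i => lc c (s i)) ⊆ (MK K).closure (ET (Fin.append b c)) := by
  rw [ET_append, ET_append]
  have h1 : ∀ i, lc c (s i) ∈ (MK K).closure (ET b ∪ ET c) ∧
      Complex.exp (lc c (s i)) ∈ (MK K).closure (ET b ∪ ET c) := by
    intro i
    have h2 := sum_cl (K := K) c (s i)
    exact ⟨(MK K).closure_subset_closure Set.subset_union_right h2.1,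
      (MK K).closure_subset_closure Set.subset_union_right h2.2⟩
  refine Set.union_subset (Set.subset_union_left.trans (subset_cl _)) ?_
  rintro _ (⟨i, rfl⟩ | ⟨i, rfl⟩)
  · exact (h1 i).1
  · exact (h1 i).2

/-- change of the tuple -/
theorem Iso.lin {b b' : Fin p → ℂ} {m : ℕ} {a a' : Fin m → ℂ}
    (h : Iso K (Fin.append b a) (Fin.append b' a')) (γ : Fin n → Fin m → ℚ) :
    Iso K (Fin.append b fun i => lc a (γ i)) (Fin.append b' fun i => lc a' (γ i)) := by
  obtain ⟨σ, h1, h2, h3⟩ := h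
  have key : ∀ (b : Fin p → ℂ) (a : Fin m → ℂ) (r : Fin (p + n) → ℚ),
      lc (Fin.append b fun i => lc a (γ i)) r = lc (Fin.append b a)
        (Fin.append (fun i => r (Fin.castAdd n i)) (∑ j, r (Fin.natAdd p j) • γ j)) := by
    intro b a r
    rw [lc_append, lc_append]
    simp only [Fin.append_left, Fin.append_right]
    congr 1
    exact lc_lc a γ fun j => r (Fin.natAdd p j)
  refine ⟨σ, h1, fun l => ?_, fun r => ?_⟩
  · refine Fin.addCases (fun i => ?_) (fun i => ?_) l
    · rw [Fin.append_left, Fin.append_left]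
      have := h2 (Fin.castAdd m i)
      rwa [Fin.append_left, Fin.append_left] at this
    · rw [Fin.append_right, Fin.append_right]
      refine lc_mapσ (fun j => ?_) _
      have := h2 (Fin.natAdd p j)
      rwa [Fin.append_right, Fin.append_right] at this
  · rw [key, key]
    exact h3 _

theorem card_of_basis {ι : Type} [Fintype ι] {b : ι → Fin n → ℚ}
    (h1 : ∀ q : ι → ℚ, ∑ j, q j • b j = 0 → q = 0)
    (h2 : ∀ v : Fin n → ℚ, ∃ q : ι → ℚ, v = ∑ j, q j • b j) : Fintype.card ι = n := by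
  have hli : LinearIndependent ℚ b := Fintype.linearIndependent_iff.2 fun q hq j =>
    congrFun (h1 q hq) j
  have hsp : ⊤ ≤ Submodule.span ℚ (range b) := by
    intro v _
    obtain ⟨q, hq⟩ := h2 v
    rw [Submodule.mem_span_range_iff_exists_fun]
    exact ⟨q, hq.symm⟩
  have h3 := Module.finrank_eq_card_basis (Module.Basis.mk hli hsp)
  rw [Module.finrank_fintype_fun_eq_card, Fintype.card_fin] at h3
  exact h3.symm

end Lin

/-- dependence of one more element -/
theorem exp_dep {A : Subfield ℂ} {z : ℂ} (hz : z ∉ A) (hA : ∀ x, IsAlgebraic A x → x ∈ A)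
    {m : ℕ} {y : Fin m → ℂ} (hy : AlgebraicIndependent (clF A {z}) y) {T : Set ℂ}
    (hzT : z ∈ (MK A).closure T) (hyT : range y ⊆ (MK A).closure T) {w : ℂ}
    (hw : w ∈ (MK A).closure T) (hT : (MK A).eRk T ≤ (m + 1 : ℕ)) :
    w ∈ (MK A).closure ({z} ∪ range y) := by
  by_contra hcon
  have h2 : AlgebraicIndependent (Algebra.adjoin A (range fun _ : Unit => z)) y := by
    have h0 : ∀ x ∈ Algebra.adjoin A (range fun _ : Unit => z), x ∈ clF A {z} := by
      intro x hx
      induction hx using Algebra.adjoin_induction with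
      | mem x hx =>
        obtain ⟨_, rfl⟩ := hx
        exact subset_cl _ rfl
      | algebraMap c => exact cl_of_base _ c
      | add x y _ _ hx hy => exact add_mem hx hy
      | mul x y _ _ hx hy => exact mul_mem hx hy
    refine Rt.indep_ring (K' := clF A {z})
      { toFun := fun w : Algebra.adjoin A (range fun _ : Unit => z) =>
          (⟨w, h0 w w.2⟩ : clF A {z})
        map_one' := rfl
        map_mul' := fun _ _ => rfl
        map_zero' := rfl
        map_add' := fun _ _ => rfl } (fun a b hab => Subtype.ext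
      (congrArg (fun w : clF A {z} => (w : ℂ)) hab)) (fun x => rfl) hy
  have h3 : AlgebraicIndependent A (fun _ : Unit => z) := by
    rw [algebraicIndependent_unique_type_iff]
    exact fun h => hz (hA _ h)
  have h4 := h3.sumElim h2
  have h5 : (MK A).Indep (range (Sum.elim y fun _ : Unit => z)) := by
    rw [AlgebraicIndependent.matroid_indep_iff]
    exact h4.coe_range
  have h6 : range (Sum.elim y fun _ : Unit => z) = {z} ∪ range y := by
    rw [Set.Sum.elim_range, Set.range_const, Set.union_comm]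
  have h8 : (range (Sum.elim y fun _ : Unit => z)).encard = (m + 1 : ℕ) := by
    rw [← Set.image_univ, h4.injective.encard_image, Set.encard_univ,
      ENat.card_eq_coe_fintype_card]
    simp
  rw [← h6] at hcon
  have h9 := (h5.notMem_closure_iff (Set.mem_univ _)).1 hcon
  have h10 : insert w (range (Sum.elim y fun _ : Unit => z)) ⊆ (MK A).closure T := by
    rw [h6]
    refine Set.insert_subset hw (Set.union_subset ?_ hyT)
    exact Set.singleton_subset_iff.2 hzT
  have h11 := rk_le_of_subset_cl h10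
  rw [h9.1.eRk_eq_encard, Set.encard_insert_of_notMem h9.2, h8] at h11
  have h12 := h11.trans hT
  norm_cast at h12
  omega

/-- **minimal tuples on curves** -/
theorem crv_min {K : Subfield ℂ} (hK : GD K) {p d : ℕ} {b b' : Fin p → ℂ} {σ : ℂ ≃+* ℂ}
    (wc : Wc K b b' d σ) (hd : 0 < d) {n : ℕ} {c : Fin (n + 1) → ℂ}
    (hbc : ∀ q : Fin (p + (n + 1)) → ℚ, lc (Fin.append b c) q ∈ K → q = 0)
    (hcA : ∀ q : Fin (n + 1) → ℚ, lc c q ∈ clF K (ET b) → q = 0)
    (hcz : ∀ i, c i ∈ (MK (clF K (ET b))).closure {c 0})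
    (hrk : (MK K).eRk (ET (Fin.append b c)) ≤ (p + d + (n + 1) : ℕ))
    (hmin : ∀ (m : ℕ) (s : Fin m → Fin (n + 1) → ℚ), 0 < m → m < n + 1 →
      (∀ q : Fin m → ℚ, ∑ j, q j • s j = 0 → q = 0) →
      ¬ (MK K).eRk (ET (Fin.append b fun i => lc c (s i))) ≤ (p + d + m : ℕ)) :
    ∃ c' : Fin (n + 1) → ℂ, Iso K (Fin.append b c) (Fin.append b' c') := by
  classical
  have : Countable K := hK.cnt.to_subtype
  obtain ⟨A, hAdef⟩ : ∃ A, A = clF K (ET b) := ⟨_, rfl⟩
  rw [← hAdef] at hcA hcz
  have hAc : Countable A := by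
    rw [hAdef]
    exact (cl_countable hK.cnt (ET_countable b)).to_subtype
  have hAalg : ∀ x, IsAlgebraic A x → x ∈ A := by
    rw [hAdef]
    exact clF_alg _
  have hKA : ∀ w ∈ K, w ∈ A := fun w hw => by
    rw [hAdef]
    exact cl_of_base (k := K) _ (⟨w, hw⟩ : K)
  have hc0 : c 0 ∉ A := by
    intro h
    have h1 := hcA (Pi.single 0 1) (by rw [lc_single, one_smul]; exact h)
    have h2 := congrFun h1 0
    rw [Pi.single_eq_same] at h2
    exact one_ne_zero h2
  let σA : A →+* ℂ := (σ : ℂ →+* ℂ).comp (algebraMap A ℂ)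
  -- the place
  obtain ⟨e, he, X, hX0, hXr⟩ := Rt.place σA c (fun h => hc0 (hAalg _ h)) hcz
  obtain ⟨ι, D, hD⟩ := Rt.exists_io
  obtain ⟨ρ, hρA, hρc⟩ := Rt.place_aut σA ι hXr
  have hplc : Rt.Plc A σA (c 0) ι D ρ := ⟨hD, hρA, by
    rw [hρc, hX0]
    exact Rt.D_pole hD he⟩
  choose xf hxf hXf using fun i => Rt.exists_rep (X i)
  have hρx : ∀ i, ρ (c i) = ι (Rt.mk (xf i) (hxf i)) := fun i => by rw [hρc, hXf]
  have hord : meromorphicOrderAt (xf 0) 0 < 0 := by
    have h1 : Rt.mk (xf 0) (hxf 0) = (Rt.T ^ e)⁻¹ := by rw [← hXf, hX0]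
    rw [Rt.T_pow, Rt.mk_inv, Rt.mk_eq] at h1
    rw [meromorphicOrderAt_congr h1, meromorphicOrderAt_inv]
    have h2 := meromorphicOrderAt_pow (f := (id : ℂ → ℂ)) (x := 0) analyticAt_id.meromorphicAt
      (n := e)
    rw [meromorphicOrderAt_id, mul_one] at h2
    have h3 : meromorphicOrderAt (fun s : ℂ => s ^ e) 0 = ((e : ℤ) : WithTop ℤ) := h2
    rw [h3]
    have h4 : (-((e : ℤ) : WithTop ℤ)) = ((-(e : ℤ) : ℤ) : WithTop ℤ) := rfl
    rw [h4]
    exact_mod_cast (by omega : -(e : ℤ) < 0)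
  -- the adapted basis
  obtain ⟨k, r, D₀, β, κ, had, hβ1, hβ2⟩ := Rt.adapt hxf ⟨0, hord⟩
  have hcard : k + 1 + r = n + 1 := by
    have := card_of_basis hβ1 hβ2
    simpa using this
  let E : Fin (k + 1) ⊕ Fin r ≃ Fin (k + 1 + r) := finSumFinEquiv
  have hE1 : ∀ (β : Fin (k + 1) ⊕ Fin r → Fin (n + 1) → ℚ),
      (∀ q : Fin (k + 1) ⊕ Fin r → ℚ, ∑ j, q j • β j = 0 → q = 0) →
      ∀ q : Fin (k + 1 + r) → ℚ, ∑ j, q j • β (E.symm j) = 0 → q = 0 := by
    intro β hβ q hq
    have h1 := hβ (fun j => q (E j)) (by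
      rw [← hq, ← E.sum_comp]
      refine Finset.sum_congr rfl fun j _ => ?_
      rw [Equiv.symm_apply_apply])
    funext j
    have h2 := congrFun h1 (E.symm j)
    simp only [Equiv.apply_symm_apply] at h2
    exact h2
  let ch : Fin (k + 1 + r) → ℂ := fun i => lc c (β (E.symm i))
  have hbch := ind_lin hbc (hE1 β hβ1)
  obtain ⟨M, hM, hkum⟩ := kum (a := Fin.append b ch) hK.alg (exp_ind hK.toGF hbch)
  have hM0 : (M : ℂ) ≠ 0 := by exact_mod_cast hM.ne'
  have hMq : ((M : ℚ)⁻¹) ≠ 0 := by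
    have : (M : ℚ) ≠ 0 := by exact_mod_cast hM.ne'
    exact inv_ne_zero this
  -- scaling
  let βM : Fin (k + 1) ⊕ Fin r → Fin (n + 1) → ℚ := fun j => (M : ℚ)⁻¹ • β j
  have hβM1 : ∀ q : Fin (k + 1) ⊕ Fin r → ℚ, ∑ j, q j • βM j = 0 → q = 0 := by
    intro q hq
    have h1 : ∑ j, q j • βM j = ∑ j, ((M : ℚ)⁻¹ * q j) • β j := by
      refine Finset.sum_congr rfl fun j _ => ?_
      simp only [βM]
      rw [smul_smul, mul_comm]
    rw [h1] at hq
    have h2 := hβ1 _ hq
    funext j
    exact (mul_eq_zero.1 (congrFun h2 j)).resolve_left hMq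
  have hadM := had.smul hMq
  let cM : Fin (k + 1) ⊕ Fin r → ℂ := fun j => lc c (βM j)
  let cF : Fin (k + 1 + r) → ℂ := fun i => lc c (βM (E.symm i))
  have hcFM : ∀ i, cF i = ch i / M := by
    intro i
    simp only [cF, ch, βM]
    rw [lc_smul, Rat.smul_def]
    push_cast
    field_simp
  have hbcF := ind_lin hbc (hE1 βM hβM1)
  have hcFA : ∀ q : Fin (k + 1 + r) → ℚ, lc cF q ∈ A → q = 0 := by
    intro q hq
    have h1 : lc cF q = lc c (∑ j, q j • βM (E.symm j)) := lc_lc c (fun i => βM (E.symm i)) q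
    rw [h1] at hq
    exact hE1 βM hβM1 q (hcA _ hq)
  have hlccl : ∀ q, lc c q ∈ (MK A).closure {c 0} := fun q =>
    sum_mem (S := clF A {c 0}) fun j _ => cl_rat _ (hcz j)
  have hrkF : (MK K).eRk (ET (Fin.append b cF)) ≤ (p + d + (k + 1 + r) : ℕ) := by
    have h1 := (rk_le_of_subset_cl (ET_lin (K := K) (b := b) (c := c)
      fun i => βM (E.symm i))).trans hrk
    refine h1.trans ?_
    have h2 : p + d + (n + 1) = p + d + (k + 1 + r) := by omega
    exact le_of_eq (congrArg (fun a : ℕ => (a : ℕ∞)) h2)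
  have hrkA : (MK A).eRk (ET cF) ≤ (k + 1 + r : ℕ) := by
    rw [hAdef]
    refine rk_over (wc.src.low' hd) ?_
    rw [← ET_append]
    exact hrkF
  -- the exponentials of the other elements
  let E' : Fin k ⊕ Fin r ≃ Fin (k + r) := finSumFinEquiv
  let sI : Fin (k + r) → Fin (n + 1) → ℚ := fun l => βM (Sum.map Fin.succ id (E'.symm l))
  let y : Fin (k + r) → ℂ := fun l => Complex.exp (lc c (sI l))
  have hmapinj : Function.Injective (Sum.map Fin.succ id : Fin k ⊕ Fin r → Fin (k + 1) ⊕ Fin r) :=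
    Sum.map_injective.2 ⟨Fin.succ_injective _, Function.injective_id⟩
  have hsI : ∀ q : Fin (k + r) → ℚ, ∑ j, q j • sI j = 0 → q = 0 := by
    have h1 : LinearIndependent ℚ βM := Fintype.linearIndependent_iff.2 fun q hq j =>
      congrFun (hβM1 q hq) j
    have h2 := h1.comp _ (hmapinj.comp E'.symm.injective)
    intro q hq
    exact funext (Fintype.linearIndependent_iff.1 h2 q hq)
  have hyind : AlgebraicIndependent (clF A {c 0}) y := by
    apply indep_crit0
    intro i hi
    have hm : 0 < k + r := i.pos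
    apply hmin (k + r) sI hm (by omega) hsI
    rw [ET_append]
    refine rk_add wc.src.rk ?_
    rw [← hAdef]
    have h1 : ET (fun i => lc c (sI i)) ⊆ (MK A).closure ({c 0} ∪ y '' {i}ᶜ) := by
      rintro _ (⟨l, rfl⟩ | ⟨l, rfl⟩)
      · exact (MK A).closure_subset_closure Set.subset_union_left (hlccl _)
      · by_cases hl : l = i
        · rw [hl]
          have h2 := cl_base_change (K := A) (M := clF A {c 0}) (fun a ha =>
            cl_of_base (k := A) _ (⟨a, ha⟩ : A)) hi
          refine cl_sub_of ?_ h2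
          refine Set.union_subset ?_ (Set.subset_union_right.trans (subset_cl _))
          intro w hw
          exact (MK A).closure_subset_closure Set.subset_union_left hw
        · exact subset_cl _ (Or.inr ⟨l, hl, rfl⟩)
    have h2 := rk_bound' (K := A) (a := 1) (by
      refine ((MK A).eRk_le_encard {c 0}).trans ?_
      rw [Set.encard_singleton]
      rfl) h1
    refine h2.trans ?_
    norm_cast
    omega
  have hyind' : AlgebraicIndependent (clF A {c 0}) (fun j : Fin k ⊕ Fin r =>
      Complex.exp (cM (Sum.map Fin.succ id j))) := by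
    have h1 := hyind.comp E' E'.injective
    have h2 : (y ∘ E') = fun j : Fin k ⊕ Fin r => Complex.exp (cM (Sum.map Fin.succ id j)) := by
      funext j
      simp only [y, sI, cM, Function.comp_apply, Equiv.symm_apply_apply]
    rw [← h2]
    exact h1
  have hc0T : c 0 ∈ (MK A).closure (ET cF) := by
    obtain ⟨q, hq⟩ := hβ2 (Pi.single 0 1)
    have h1 : c 0 = ∑ j, ((M : ℚ) * q j) • lc c (βM j) := by
      have h2 : ∑ j, ((M : ℚ) * q j) • lc c (βM j) = lc c (∑ j, ((M : ℚ) * q j) • βM j) :=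
        lc_lc c βM _
      have h3 : ∑ j, ((M : ℚ) * q j) • βM j = ∑ j, q j • β j := by
        refine Finset.sum_congr rfl fun j _ => ?_
        simp only [βM]
        rw [smul_smul]
        congr 1
        have : (M : ℚ) ≠ 0 := by exact_mod_cast hM.ne'
        field_simp
      rw [h2, h3, ← hq, lc_single, one_smul]
    rw [h1]
    refine sum_mem (S := clF A (ET cF)) fun j _ => cl_rat _ (subset_cl _ (Or.inl ⟨E j, ?_⟩))
    simp only [cF, Equiv.symm_apply_apply]
  have hexp : Complex.exp (cF (E (Sum.inl 0))) ∈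
      (MK A).closure ({c 0} ∪ (fun i => Complex.exp (cF i)) '' {E (Sum.inl 0)}ᶜ) := by
    have h1 := exp_dep hc0 hAalg hyind hc0T (w := Complex.exp (cF (E (Sum.inl 0)))) (by
      rintro _ ⟨l, rfl⟩
      refine subset_cl _ (Or.inr ⟨E (Sum.map Fin.succ id (E'.symm l)), ?_⟩)
      simp only [cF, y, sI, Equiv.symm_apply_apply]) (subset_cl _ (mem_ET_r cF _)) (by
      have h2 : k + r + 1 = k + 1 + r := by omega
      rw [h2]
      exact hrkA)
    refine (MK A).closure_subset_closure (Set.union_subset_union_right _ ?_) h1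
    rintro _ ⟨l, rfl⟩
    refine ⟨E (Sum.map Fin.succ id (E'.symm l)), ?_, ?_⟩
    · intro h2
      have h3 := E.injective (Set.mem_singleton_iff.1 h2)
      rcases h4 : E'.symm l with j | j
      · rw [h4] at h3
        exact absurd (Sum.inl.inj h3) (Fin.succ_ne_zero _)
      · rw [h4] at h3
        exact absurd h3 (by simp)
    · simp only [cF, y, sI, Equiv.symm_apply_apply]
  -- zeros
  have hzz : ∀ H : MvPolynomial (Fin (k + 1 + r) ⊕ Fin (k + 1 + r)) A, aeval (ep cF) H ≠ 0 →
      ∃ x' : Fin (k + 1 + r) → ℂ,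
      (∀ f : MvPolynomial (Fin (k + 1 + r) ⊕ Fin (k + 1 + r)) A, aeval (ep cF) f = 0 →
        eval₂ ((σ : ℂ →+* ℂ).comp (algebraMap A ℂ)) (ep x') f = 0) ∧
      eval₂ ((σ : ℂ →+* ℂ).comp (algebraMap A ℂ)) (ep x') H ≠ 0 := by
    intro H hH
    have hre : (Sum.elim cM fun i => Complex.exp (cM i)) ∘ Sum.map E.symm E.symm = ep cF := by
      funext i
      rcases i with i | i <;> rfl
    obtain ⟨x', h1, h2⟩ := Rt.zz hplc hAalg (c := cM) (xf := fun j => Rt.fc xf (βM j))
      (fun j => Rt.fc_mero hxf _) (fun j => Rt.lc_germ hxf hρx _) hadM (fun j => hlccl _)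
      (by
        intro h
        have h1 := hcA _ h
        have h2 := hβM1 (Pi.single (Sum.inl 0) 1) (by
          rw [Finset.sum_eq_single (Sum.inl 0)]
          · rw [Pi.single_eq_same, one_smul]
            exact h1
          · intro j _ hj
            rw [Pi.single_eq_of_ne hj, zero_smul]
          · intro h
            exact absurd (Finset.mem_univ _) h)
        have h3 := congrFun h2 (Sum.inl 0)
        rw [Pi.single_eq_same] at h3
        exact one_ne_zero h3)
      (by
        intro q hq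
        have h1 : ∑ j, q j • cM (Sum.inr j) = lc c (∑ j, q j • βM (Sum.inr j)) :=
          lc_lc c (fun j => βM (Sum.inr j)) q
        rw [h1] at hq
        have h2 := hcA _ hq
        have h3 := hβM1 (Sum.elim (fun _ => 0) q) (by
          rw [Fintype.sum_sum_type]
          simp only [Sum.elim_inl, Sum.elim_inr, zero_smul, Finset.sum_const_zero, zero_add]
          exact h2)
        funext j
        exact congrFun h3 (Sum.inr j))
      hyind' (by
        have h3 : (range cM ∪ range fun i => Complex.exp (cM i)) = ET cF := by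
          unfold ET
          congr 1
          · exact (E.symm.surjective.range_comp cM).symm
          · exact (E.symm.surjective.range_comp fun i => Complex.exp (cM i)).symm
        rw [h3]
        exact hrkA) (H := rename (Sum.map E.symm E.symm) H) (by
        rw [aeval_rename, hre]
        exact hH)
    have hre' : (Sum.elim x' fun i => Complex.exp (x' i)) ∘ Sum.map E.symm E.symm =
        ep (fun i => x' (E.symm i)) := by
      funext i
      rcases i with i | i <;> rfl
    refine ⟨fun i => x' (E.symm i), fun f hf => ?_, ?_⟩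
    · have h3 := h1 (rename (Sum.map E.symm E.symm) f) (by
        rw [aeval_rename, hre]
        exact hf)
      rw [eval₂_rename, hre'] at h3
      exact h3
    · rw [eval₂_rename, hre'] at h2
      exact h2
  have hσe : ∀ i, σ (Complex.exp (b i)) = Complex.exp (b' i) := by
    intro i
    have h4 := wc.exp (Pi.single i 1)
    rw [lc_single, lc_single, one_smul, one_smul] at h4
    exact h4
  obtain ⟨c'', σ1, hσ1A, hσ1c, hσ1e⟩ := gsecc hK wc.src wc.tgt hd hbcF hAdef hcFA
    (fun i => hlccl _) hrkF hexp wc.fix wc.map hσe hzz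
  -- the isomorphism
  have hbA : ∀ i, b i ∈ A := fun i => by
    rw [hAdef]
    exact subset_cl _ (mem_ET_l b i)
  have hL : LIso K M (Fin.append b ch) (Fin.append b' fun i => M * c'' i) := by
    refine ⟨σ1, fun w hw => ?_, fun l => ?_, fun l => ?_⟩
    · rw [hσ1A _ (hKA w hw), wc.fix w hw]
    · refine Fin.addCases (fun i => ?_) (fun i => ?_) l
      · rw [Fin.append_left, Fin.append_left, hσ1A _ (hbA i), wc.map]
      · rw [Fin.append_right, Fin.append_right]
        have h1 : ch i = M * cF i := by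
          rw [hcFM]
          field_simp
        rw [h1, map_mul, map_natCast, hσ1c]
    · refine Fin.addCases (fun i => ?_) (fun i => ?_) l
      · rw [Fin.append_left, Fin.append_left]
        have h1 : ∀ a : Fin p → ℂ, a i / M = lc a (Pi.single i (M : ℚ)⁻¹) := by
          intro a
          rw [lc_single, Rat.smul_def]
          push_cast
          ring
        have h2 : Complex.exp (lc b (Pi.single i (M : ℚ)⁻¹)) ∈ (MK K).closure (ET b) :=
          (sum_cl b _).2
        rw [h1 b, h1 b', hσ1A _ (by rw [hAdef]; exact h2), wc.exp]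
      · rw [Fin.append_right, Fin.append_right, ← hcFM, hσ1e, mul_div_cancel_left₀ _ hM0]
  have hiso := hkum _ hL
  choose γ hγ using fun i : Fin (n + 1) => hβ2 (Pi.single i 1)
  have h1 := hiso.lin (n := n + 1) fun i j => γ i (E.symm j)
  have h2 : (fun i => lc ch fun j => γ i (E.symm j)) = c := by
    funext i
    have h3 : lc ch (fun j => γ i (E.symm j)) =
        lc c (∑ j, γ i (E.symm j) • β (E.symm j)) := lc_lc c (fun i => β (E.symm i)) _
    rw [h3]
    have h4 : ∑ j, γ i (E.symm j) • β (E.symm j) = ∑ j, γ i j • β j :=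
      E.symm.sum_comp fun j => γ i j • β j
    rw [h4, ← hγ, lc_single, one_smul]
  rw [h2] at h1
  exact ⟨_, h1⟩

end Pool.Agent.V9h68
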