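import Pool.Agent.V9h68.Si

/-!
Extensions of isomorphisms to tuples on curves.
-/

set_option autoImplicit false

open MvPolynomial Set Filter Topology

noncomputable section

namespace Pool.Agent.V9h68

open Pool.Agent.Y776 Pool.Agent.Y685
open Pool.Agent.TH813.Rel (MK mem_cl subset_cl rk_le_of_subset_cl cl_add cl_mul cl_inv cl_of_base)

/-- extension by an algebraic element, exact form -/
theorem alg_iso {K : Subfield ℂ} (hK : GD K) {p d : ℕ} {b b' : Fin p → ℂ} {σ : ℂ ≃+* ℂ}
    (wc : Wc K b b' d σ) (hd : 0 < d) {z : ℂ}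
    (hz : z ∈ (MK K).closure (ET b)) (hzV : z ∉ Vs K b) :
    ∃ z' : ℂ, Iso K (Fin.append b (fun _ : Fin 1 => z)) (Fin.append b' (fun _ : Fin 1 => z')) := by
  classical
  have : Countable K := hK.cnt.to_subtype
  have hsrc := wc.src.add_alg hz hzV
  obtain ⟨M, hM, hkum⟩ := kum (a := Fin.append b (fun _ : Fin 1 => z)) hK.alg
    (exp_ind hK.toGF hsrc.ind)
  have hM0 : (M : ℂ) ≠ 0 := by exact_mod_cast hM.ne'
  have hσe : ∀ i, σ (Complex.exp (b i)) = Complex.exp (b' i) := by
    intro i
    have h4 := wc.exp (Pi.single i 1)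
    rw [lc_single, lc_single, one_smul, one_smul] at h4
    exact h4
  have hETσ : σ '' ET b = ET b' := image_ET (σ := (σ : ℂ →+* ℂ)) wc.map hσe
  have hz' : σ z ∈ (MK K).closure (ET b') := by
    have h1 := cl_hom (θ := (σ : ℂ →+* ℂ)) (K := K) (K' := K) (fun c hc => by
      change σ c ∈ K
      rw [wc.fix c hc]; exact hc) hz
    have h2 : (σ : ℂ →+* ℂ) '' ET b = ET b' := hETσ
    rw [h2] at h1
    exact h1
  have hzV2 : σ z ∉ Vs K b' := by
    rintro ⟨q, hq⟩
    apply hzV
    refine ⟨q, ?_⟩
    have h1 : σ (z - lc b q) = σ (σ z - lc b' q) := by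
      rw [wc.fix _ hq, map_sub, lc_mapσ wc.map]
    rw [σ.injective h1]
    exact hq
  have htgt := wc.tgt.add_alg hz' hzV2
  have hroot : ∀ (b : Fin p → ℂ) (z : ℂ), Complex.exp z ∉ (MK K).closure (ET b) →
      Complex.exp (z / M) ∉ (MK K).closure (ET b) := by
    intro b z h1 h2
    apply h1
    have h3 : Complex.exp z = Complex.exp (z / M) ^ M := by
      rw [← Complex.exp_nat_mul, mul_div_cancel₀ _ hM0]
    rw [h3]
    exact (clF K (ET b)).pow_mem h2 M
  obtain ⟨σ1, hσ1, hσ2⟩ := indep_aut (K := K) hK.cnt wc.fix (ET_countable b) hETσ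
    (indep_unit rfl (hroot _ _ (exp_notin wc.src hd hz hzV)))
    (indep_unit rfl (hroot _ _ (exp_notin wc.tgt hd hz' hzV2)))
  have hL : LIso K M (Fin.append b (fun _ : Fin 1 => z)) (Fin.append b' (fun _ : Fin 1 => σ z)) := by
    refine ⟨σ1, fun c hc => ?_, fun l => ?_, fun l => ?_⟩
    · rw [hσ1 c (cl_of_base (k := K) _ (⟨c, hc⟩ : K)), wc.fix c hc]
    · refine Fin.addCases (fun i => ?_) (fun i => ?_) l
      · rw [Fin.append_left, Fin.append_left, hσ1 _ (subset_cl _ (mem_ET_l b i)), wc.map]
      · rw [Fin.append_right, Fin.append_right, hσ1 _ hz]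
    · refine Fin.addCases (fun i => ?_) (fun i => ?_) l
      · rw [Fin.append_left, Fin.append_left]
        have h1 : ∀ a : Fin p → ℂ, a i / M = lc a (Pi.single i (M : ℚ)⁻¹) := by
          intro a
          rw [lc_single, Rat.smul_def]
          push_cast
          ring
        have h2 : Complex.exp (lc b (Pi.single i (M : ℚ)⁻¹)) ∈ (MK K).closure (ET b) :=
          (sum_cl b _).2
        rw [h1 b, h1 b', hσ1 _ h2, wc.exp]
      · rw [Fin.append_right, Fin.append_right]
        exact hσ2 ()
  exact ⟨σ z, hkum _ hL⟩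

/-- the extension of a structure along an isomorphism -/
theorem Wt.mk'' {K : Subfield ℂ} (w : Wt K) {n : ℕ} {c c' : Fin n → ℂ}
    (hind : ∀ q : Fin (w.p + n) → ℚ, lc (Fin.append w.b c) q ∈ K → q = 0)
    (hrk : (MK K).eRk (ET (Fin.append w.b c)) ≤ (w.p + w.d + n : ℕ))
    (h : Iso K (Fin.append w.b c) (Fin.append w.b' c')) :
    ∃ (σ : ℂ ≃+* ℂ) (hw : Wc K (Fin.append w.b c) (Fin.append w.b' c') w.d σ),
      w.Le ⟨w.p + n, w.d, Fin.append w.b c, Fin.append w.b' c', σ, hw⟩ := by
  obtain ⟨L, hL⟩ := w.wc.src.chn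
  obtain ⟨L', hL'⟩ := w.wc.tgt.chn
  obtain ⟨σ, hσK, hσa, hσe⟩ := h
  have hrk' : (MK K).eRk (ET (Fin.append w.b c)) ≤ (w.p + n + w.d : ℕ) := by
    refine hrk.trans (le_of_eq (congrArg (fun a : ℕ => (a : ℕ∞)) ?_))
    omega
  have hsrc : Sc K (Fin.append w.b c) w.d := ⟨hind, hrk', L, hL.append c⟩
  have htgt : Sc K (Fin.append w.b' c') w.d := by
    refine ⟨ind_map hσK hσa hind, rk_map hσK hσa (fun i => ?_) hrk', L', hL'.append c'⟩
    have h4 := hσe (Pi.single i 1)
    rw [lc_single, lc_single, one_smul, one_smul] at h4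
    exact h4
  refine ⟨σ, ⟨hsrc, htgt, hσK, hσa, hσe⟩, Vs_sub_append c, ?_⟩
  rintro z ⟨q, hq⟩
  have e : z = (z - lc w.b q) + lc w.b q := by ring
  rw [e, map_add, map_add, hσK _ hq, w.wc.fix _ hq, lc_mapσ w.wc.map]
  congr 1
  have h3 := lc_mapσ hσa (Fin.append q 0)
  rw [lc_app, lc_app] at h3
  exact h3

/-- extension by the first piece of a tuple on a curve -/
theorem crv_step {K : Subfield ℂ} (hK : GD K) {p d : ℕ} {b b' : Fin p → ℂ} {σ : ℂ ≃+* ℂ}
    (wc : Wc K b b' d σ) (hd : 0 < d) {n : ℕ} (hn : 0 < n) {c : Fin n → ℂ}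
    (hbc : ∀ q : Fin (p + n) → ℚ, lc (Fin.append b c) q ∈ K → q = 0)
    {z : ℂ} (hcz : ∀ i, c i ∈ (MK (clF K (ET b))).closure {z})
    (hrk : (MK K).eRk (ET (Fin.append b c)) ≤ (p + d + n : ℕ)) :
    ∃ (m : ℕ) (s : Fin m → Fin n → ℚ), 0 < m ∧ (∀ q : Fin m → ℚ, ∑ j, q j • s j = 0 → q = 0) ∧
      (MK K).eRk (ET (Fin.append b fun i => lc c (s i))) ≤ (p + d + m : ℕ) ∧
      ∃ a' : Fin m → ℂ, Iso K (Fin.append b fun i => lc c (s i)) (Fin.append b' a') := by
  classical
  have hex : ∃ m : ℕ, 0 < m ∧ ∃ s : Fin m → Fin n → ℚ, (∀ q : Fin m → ℚ, ∑ j, q j • s j = 0 → q = 0) ∧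
      (MK K).eRk (ET (Fin.append b fun i => lc c (s i))) ≤ (p + d + m : ℕ) := by
    refine ⟨n, hn, fun i => Pi.single i 1, fun q hq => ?_, ?_⟩
    · funext i
      have h1 := congrFun hq i
      rw [Finset.sum_apply, Finset.sum_eq_single i] at h1
      · simp only [Pi.smul_apply, Pi.single_eq_same, smul_eq_mul, mul_one] at h1
        exact h1
      · intro j _ hj
        simp only [Pi.smul_apply]
        rw [Pi.single_eq_of_ne hj.symm, smul_zero]
      · intro h
        exact absurd (Finset.mem_univ _) h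
    · have h1 : (fun i => lc c (Pi.single i 1)) = c := by
        funext i
        rw [lc_single, one_smul]
      rw [h1]
      exact hrk
  obtain ⟨m, ⟨hm0, s, hs, hsr⟩, hmin⟩ : ∃ m : ℕ, (0 < m ∧ ∃ s : Fin m → Fin n → ℚ,
      (∀ q : Fin m → ℚ, ∑ j, q j • s j = 0 → q = 0) ∧
      (MK K).eRk (ET (Fin.append b fun i => lc c (s i))) ≤ (p + d + m : ℕ)) ∧
      ∀ m' < m, ¬ (0 < m' ∧ ∃ s : Fin m' → Fin n → ℚ,
      (∀ q : Fin m' → ℚ, ∑ j, q j • s j = 0 → q = 0) ∧
      (MK K).eRk (ET (Fin.append b fun i => lc c (s i))) ≤ (p + d + m' : ℕ)) :=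
    ⟨Nat.find hex, Nat.find_spec hex, fun m' hm' => Nat.find_min hex hm'⟩
  refine ⟨m, s, hm0, hs, hsr, ?_⟩
  have hbcs := ind_lin hbc hs
  by_cases hA : ∀ q : Fin m → ℚ, lc (fun i => lc c (s i)) q ∈ clF K (ET b) → q = 0
  · -- a minimal tuple
    obtain ⟨m', rfl⟩ : ∃ m', m = m' + 1 := ⟨m - 1, by omega⟩
    have ha0 : lc c (s 0) ∉ clF K (ET b) := by
      intro h
      have h1 := hA (Pi.single 0 1) (by rw [lc_single, one_smul]; exact h)
      have h2 := congrFun h1 0
      rw [Pi.single_eq_same] at h2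
      exact one_ne_zero h2
    have hlccl : ∀ q, lc c q ∈ (MK (clF K (ET b))).closure {z} := fun q =>
      sum_mem (S := clF (clF K (ET b)) {z}) fun j _ => cl_rat _ (hcz j)
    have h0 : ∀ w ∈ (MK (clF K (ET b))).closure (∅ : Set ℂ), w ∈ clF K (ET b) :=
      cl_le_alg (K := clF K (ET b)) (F := clF K (ET b)) le_rfl (clF_alg _) (Set.empty_subset _)
    have h1 : z ∈ (MK (clF K (ET b))).closure (insert (lc c (s 0)) ∅) \
        (MK (clF K (ET b))).closure ∅ :=
      Matroid.closure_exchange ⟨by rw [insert_empty_eq]; exact hlccl _, fun h => ha0 (h0 _ h)⟩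
    rw [insert_empty_eq] at h1
    refine crv_min hK wc hd (c := fun i => lc c (s i)) hbcs hA (fun i => ?_) hsr ?_
    · refine cl_sub_of ?_ (hlccl (s i))
      exact Set.singleton_subset_iff.2 h1.1
    · intro m1 s1 hm1 hlt hs1 hr1
      refine hmin m1 hlt ⟨hm1, fun i => ∑ j, s1 i j • s j, fun q hq => ?_, ?_⟩
      · apply hs1
        apply hs
        have h2 : ∑ j, (∑ i, q i • s1 i) j • s j = ∑ i, q i • ∑ j, s1 i j • s j := by
          simp only [Finset.sum_apply, Pi.smul_apply, smul_eq_mul, Finset.sum_smul,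
            Finset.smul_sum, smul_smul]
          exact Finset.sum_comm
        rw [h2]
        exact hq
      · have h2 : (fun i => lc (fun i => lc c (s i)) (s1 i)) =
            fun i => lc c (∑ j, s1 i j • s j) := by
          funext i
          exact lc_lc c s (s1 i)
        rw [← h2]
        exact hr1
  · -- an algebraic element
    push Not at hA
    obtain ⟨q, hq, hq0⟩ := hA
    have h1 : lc (fun i => lc c (s i)) q = lc c (∑ j, q j • s j) := lc_lc c s q
    have hne : ∑ j, q j • s j ≠ 0 := fun h => hq0 (hs q h)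
    have hm1 : m = 1 := by
      by_contra hne1
      refine hmin 1 (by omega) ⟨one_pos, fun _ => ∑ j, q j • s j, fun q' hq' => ?_, ?_⟩
      · rw [Fin.sum_univ_one] at hq'
        funext i
        rw [Subsingleton.elim i 0]
        exact (smul_eq_zero.1 hq').resolve_right hne
      · have h2 := ET_append_one (K := K) (b := b) (z := lc c (∑ j, q j • s j))
          (T := insert (Complex.exp (lc c (∑ j, q j • s j))) (ET b)) (by rw [← h1]; exact hq)
          ((Set.subset_insert _ _).trans (subset_cl _)) (subset_cl _ (Set.mem_insert _ _))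
        refine (rk_le_of_subset_cl h2).trans ((rk_insert _ _).trans ?_)
        refine (add_le_add wc.src.rk le_rfl).trans ?_
        norm_cast
    subst hm1
    have hq0' : q 0 ≠ 0 := by
      intro h
      apply hq0
      funext i
      rw [Subsingleton.elim i 0]
      exact h
    have hmem : lc c (s 0) ∈ (MK K).closure (ET b) := by
      have h2 : lc (fun i => lc c (s i)) q = q 0 • lc c (s 0) := by
        unfold lc
        rw [Fin.sum_univ_one]
      rw [h2] at hq
      have h3 := cl_rat (q 0)⁻¹ hq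
      rwa [smul_smul, inv_mul_cancel₀ hq0', one_smul] at h3
    have hnV : lc c (s 0) ∉ Vs K b := by
      rintro ⟨r, hr⟩
      have h2 := hbcs (Fin.append (-r) fun _ => 1) (by
        rw [lc_append]
        simp only [Fin.append_left, Fin.append_right]
        have h3 : lc b (fun i => (-r) i) = -lc b r := lc_neg b r
        have h4 : lc (fun i => lc c (s i)) (fun _ : Fin 1 => (1 : ℚ)) = lc c (s 0) := by
          unfold lc
          rw [Fin.sum_univ_one, one_smul]
        rw [h3, h4, add_comm, ← sub_eq_add_neg]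
        exact hr)
      have h3 := congrFun h2 (Fin.natAdd p 0)
      rw [Fin.append_right] at h3
      exact one_ne_zero h3
    obtain ⟨z', hz'⟩ := alg_iso hK wc hd hmem hnV
    refine ⟨fun _ => z', ?_⟩
    have h2 : (fun i => lc c (s i)) = fun _ : Fin 1 => lc c (s 0) := by
      funext i
      rw [Subsingleton.elim i 0]
    rw [h2]
    exact hz'

/-- **extension by independent tuples on curves** -/
theorem Wt.crv_ind {K : Subfield ℂ} (hK : GD K) (n : ℕ) : ∀ (w : Wt K) (c : Fin n → ℂ) (z : ℂ),
    (∀ q : Fin (w.p + n) → ℚ, lc (Fin.append w.b c) q ∈ K → q = 0) →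
    (∀ i, c i ∈ (MK (clF K (ET w.b))).closure {z}) →
    (MK K).eRk (ET (Fin.append w.b c)) ≤ (w.p + w.d + n : ℕ) →
    ∃ w1 : Wt K, w.Le w1 ∧ ∀ i, c i ∈ w1.V := by
  classical
  induction n using Nat.strong_induction_on with
  | _ n ih =>
    intro w c z hbc hcz hrk
    rcases Nat.eq_zero_or_pos n with hn | hn
    · subst hn
      exact ⟨w, Wt.Le.refl w, fun i => i.elim0⟩
    rcases Nat.eq_zero_or_pos w.d with hd | hd
    · exfalso
      have hp : w.p = 0 := by
        have h1 : Sc K w.b 0 := by
          have := w.wc.src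
          rwa [hd] at this
        exact h1.zero hK.toGF
      have h1 := hK.rk (w.p + n) (Fin.append w.b c) (by omega) hbc
      have h2 := h1.trans hrk
      norm_cast at h2
      omega
    obtain ⟨m, s, hm, hs, hsr, a', hiso⟩ := crv_step hK w.wc hd hn hbc hcz hrk
    obtain ⟨σ, hw, hle⟩ := w.mk'' (ind_lin hbc hs) hsr hiso
    -- the complement
    obtain ⟨k, r, -, hr1, hr2⟩ := Rt.basis_mod (Submodule.span ℚ (range s)) ⊤
    have hmk : m + k = n := by
      have h1 := card_of_basis (ι := Fin m ⊕ Fin k) (b := Sum.elim s r) (fun q hq => ?_)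
        (fun v => ?_)
      · simpa using h1
      · rw [Fintype.sum_sum_type] at hq
        simp only [Sum.elim_inl, Sum.elim_inr] at hq
        have h2 : ∑ j, q (Sum.inr j) • r j ∈ Submodule.span ℚ (range s) := by
          rw [eq_neg_of_add_eq_zero_right hq]
          exact Submodule.neg_mem _ (Submodule.sum_mem _ fun j _ =>
            Submodule.smul_mem _ _ (Submodule.subset_span ⟨j, rfl⟩))
        have h3 := hr1 (fun j => q (Sum.inr j)) h2
        have h4 : ∀ j, q (Sum.inr j) = 0 := fun j => congrFun h3 j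
        simp only [h4, zero_smul, Finset.sum_const_zero, add_zero] at hq
        have h5 := hs (fun j => q (Sum.inl j)) hq
        funext j
        rcases j with j | j
        · exact congrFun h5 j
        · exact h4 j
      · obtain ⟨q, hq⟩ := hr2 v trivial
        rw [Submodule.mem_span_range_iff_exists_fun] at hq
        obtain ⟨q', hq'⟩ := hq
        refine ⟨Sum.elim q' q, ?_⟩
        rw [Fintype.sum_sum_type]
        simp only [Sum.elim_inl, Sum.elim_inr]
        rw [hq', sub_add_cancel]
    have hET2 : ET (Fin.append (Fin.append w.b fun i => lc c (s i)) fun i => lc c (r i)) ⊆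
        (MK K).closure (ET (Fin.append w.b c)) := by
      rw [ET_append]
      refine Set.union_subset (ET_lin s) ?_
      refine Set.Subset.trans ?_ (ET_lin r)
      rw [ET_append]
      exact Set.subset_union_right
    obtain ⟨w2, h1, h2⟩ := ih k (by omega)
      ⟨w.p + m, w.d, Fin.append w.b fun i => lc c (s i), Fin.append w.b' a', σ, hw⟩
      (fun i => lc c (r i)) z (by
        intro q hq
        simp only at q hq
        rw [lc_append, lc_append] at hq
        have e1 : lc (fun i => lc c (s i)) (fun i => q (Fin.castAdd k (Fin.natAdd w.p i))) =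
          lc c (∑ j, q (Fin.castAdd k (Fin.natAdd w.p j)) • s j) := lc_lc c s _
        have e2 : lc (fun i => lc c (r i)) (fun i => q (Fin.natAdd (w.p + m) i)) =
          lc c (∑ j, q (Fin.natAdd (w.p + m) j) • r j) := lc_lc c r _
        rw [e1, e2, add_assoc, ← lc_add] at hq
        have h3 := hbc (Fin.append (fun i => q (Fin.castAdd k (Fin.castAdd m i)))
          (∑ j, q (Fin.castAdd k (Fin.natAdd w.p j)) • s j +
            ∑ j, q (Fin.natAdd (w.p + m) j) • r j)) (by
          rw [lc_append]
          simp only [Fin.append_left, Fin.append_right]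
          exact hq)
        have h4 : ∀ i, q (Fin.castAdd k (Fin.castAdd m i)) = 0 := by
          intro i
          have := congrFun h3 (Fin.castAdd n i)
          rw [Fin.append_left] at this
          exact this
        have h5 : ∑ j, q (Fin.castAdd k (Fin.natAdd w.p j)) • s j +
            ∑ j, q (Fin.natAdd (w.p + m) j) • r j = 0 := by
          funext i
          have := congrFun h3 (Fin.natAdd w.p i)
          rw [Fin.append_right] at this
          exact this
        have h6 : ∑ j, q (Fin.natAdd (w.p + m) j) • r j ∈ Submodule.span ℚ (range s) := by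
          rw [eq_neg_of_add_eq_zero_right h5]
          exact Submodule.neg_mem _ (Submodule.sum_mem _ fun j _ =>
            Submodule.smul_mem _ _ (Submodule.subset_span ⟨j, rfl⟩))
        have h7 := hr1 (fun j => q (Fin.natAdd (w.p + m) j)) h6
        have h8 : ∀ j, q (Fin.natAdd (w.p + m) j) = 0 := fun j => congrFun h7 j
        simp only [h8, zero_smul, Finset.sum_const_zero, add_zero] at h5
        have h9 := hs _ h5
        funext l
        refine Fin.addCases (fun i => ?_) (fun i => ?_) l
        · refine Fin.addCases (fun i => ?_) (fun i => ?_) i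
          · exact h4 i
          · exact congrFun h9 i
        · exact h8 i) (by
        intro i
        have h3 : lc c (r i) ∈ (MK (clF K (ET w.b))).closure {z} :=
          sum_mem (S := clF (clF K (ET w.b)) {z}) fun j _ => cl_rat _ (hcz j)
        refine cl_up (k := clF K (ET w.b))
          (k' := clF K (ET (Fin.append w.b fun i => lc c (s i)))) (fun a => ?_) (subset_cl _) h3
        have h4 : (a : ℂ) ∈ clF K (ET (Fin.append w.b fun i => lc c (s i))) := by
          have h5 : (a : ℂ) ∈ (MK K).closure (ET w.b) := a.2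
          refine (MK K).closure_subset_closure ?_ h5
          rw [ET_append]
          exact Set.subset_union_left
        exact cl_of_base (k := clF K (ET (Fin.append w.b fun i => lc c (s i)))) _ (⟨a, h4⟩ :
          clF K (ET (Fin.append w.b fun i => lc c (s i))))) (by
        refine (rk_le_of_subset_cl hET2).trans (hrk.trans ?_)
        refine le_of_eq (congrArg (fun a : ℕ => (a : ℕ∞)) ?_)
        simp only
        omega)
    refine ⟨w2, hle.trans h1, fun i => ?_⟩
    obtain ⟨q, hq⟩ := hr2 (Pi.single i 1) trivial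
    rw [Submodule.mem_span_range_iff_exists_fun] at hq
    obtain ⟨q', hq'⟩ := hq
    have h3 : c i = lc (fun i => lc c (s i)) q' + lc (fun i => lc c (r i)) q := by
      have h4 : lc (fun i => lc c (s i)) q' = lc c (∑ j, q' j • s j) := lc_lc c s _
      have h5 : lc (fun i => lc c (r i)) q = lc c (∑ j, q j • r j) := lc_lc c r _
      rw [h4, h5, ← lc_add, hq', sub_add_cancel, lc_single, one_smul]
    rw [h3]
    refine Vs_add (Vs_lc (fun j => h1.1 ?_) _) (Vs_lc h2 _)
    exact Vs_append_right (K := K) (b := w.b) (fun i => lc c (s i)) j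

end Pool.Agent.V9h68
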