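import Pool.Agent.V9h68.Str

/-!
Solutions of systems which are dominated by the additive coordinates are algebraically independent
over the closure, after a reduction of the unknowns.
-/

set_option autoImplicit false

open MvPolynomial Set Filter

noncomputable section

namespace Pool.Agent.V9h68

open Pool.Agent.Y776 Pool.Agent.Y685 Pool.Agent.TH735.BF
open Pool.Agent.TH813.Rel (MK mem_cl subset_cl rk_le_of_subset_cl cl_add cl_mul cl_inv cl_of_base)

/-- closures over a larger field -/
theorem cl_base_change {K M : Subfield ℂ} (hKM : K ≤ M) {S : Set ℂ} {z : ℂ}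
    (hz : z ∈ (MK M).closure S) : z ∈ (MK K).closure ((M : Set ℂ) ∪ S) := by
  rw [mem_cl] at hz
  obtain ⟨p, hp, hpz⟩ := hz
  have hadj : ∀ x ∈ Algebra.adjoin M S, x ∈ clF K ((M : Set ℂ) ∪ S) := by
    intro x hx
    induction hx using Algebra.adjoin_induction with
    | mem x hx => exact subset_cl _ (Or.inr hx)
    | algebraMap c => exact subset_cl _ (Or.inl c.2)
    | add x y _ _ hx hy => exact add_mem hx hy
    | mul x y _ _ hx hy => exact mul_mem hx hy
  refine cl_root (f := p.map (algebraMap (Algebra.adjoin M S) ℂ)) ?_ ?_ ?_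
  · rw [Ne, Polynomial.map_eq_zero_iff (FaithfulSMul.algebraMap_injective _ _)]
    exact hp
  · intro i
    rw [Polynomial.coeff_map]
    exact hadj _ (p.coeff i).2
  · rw [Polynomial.eval_map_algebraMap]
    exact hpz

theorem indep_of_dom {K : Subfield ℂ} (hK : GF K) {t : ℂ} (ht : t ∉ K) {n : ℕ} (u : Fin n → ℂ)
    (hu : ∀ q : Fin n → ℚ, ∑ i, q i • u i ∈ CE (K ∪ {t}) → q = 0)
    (hdom : ∀ i, Complex.exp (u i) ∈ (MK K).closure (CE (K ∪ {t}) ∪ range u)) :
    AlgebraicIndependent (CE_ec (K ∪ {t})).fld u := by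
  classical
  set M := (CE_ec ((K : Set ℂ) ∪ {t})).fld with hM
  have hMc : (M : Set ℂ) = CE (K ∪ {t}) := rfl
  have hKM : K ≤ M := fun x hx => CE_base (Or.inl hx)
  refine algebraicIndependent_of_finite_type' (FaithfulSMul.algebraMap_injective _ _) ?_
  intro T _ _ j hjT halg
  have h1 : u j ∈ (MK K).closure ((M : Set ℂ) ∪ u '' {j}ᶜ) := by
    refine (MK K).closure_subset_closure (Set.union_subset_union_right _ ?_)
      (cl_base_change hKM (mem_cl.2 halg))
    exact Set.image_mono fun i hi h0 => hjT (by rw [Set.mem_singleton_iff] at h0; rwa [← h0])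
  -- finitely many elements of the closure
  have hfin : ∀ {z : ℂ} {S : Set ℂ}, z ∈ (MK K).closure ((M : Set ℂ) ∪ S) →
      ∃ c : Set ℂ, c.Finite ∧ c ⊆ M ∧ z ∈ (MK K).closure (c ∪ S) := by
    intro z S hz
    obtain ⟨I, hI, hIf, -, hzI⟩ := Matroid.exists_mem_finite_closure_of_mem_closure hz
    refine ⟨I ∩ M, hIf.inter_of_left _, Set.inter_subset_right, ?_⟩
    refine (MK K).closure_subset_closure ?_ hzI
    intro x hx
    rcases hI hx with h | h
    · exact Or.inl ⟨hx, h⟩
    · exact Or.inr h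
  obtain ⟨c₀, hc₀, hc₀M, h2⟩ := hfin h1
  have h3 : ∀ i, ∃ c : Set ℂ, c.Finite ∧ c ⊆ M ∧
      Complex.exp (u i) ∈ (MK K).closure (c ∪ range u) := fun i => hfin (hdom i)
  choose c hc hcM h3 using h3
  set C : Set ℂ := c₀ ∪ ⋃ i, c i with hC
  have hCf : C.Finite := hc₀.union (Set.finite_iUnion hc)
  have hCM : C ⊆ CE (K ∪ {t}) := Set.union_subset hc₀M (Set.iUnion_subset hcM)
  obtain ⟨r, b, hb1, hb2, hb3, hb4⟩ := CE_bd hK ht hCf hCM
  have hCb : C ⊆ (MK K).closure (ET b) := by
    intro x hx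
    obtain ⟨q, hq⟩ := hb3 x hx
    exact (comb_cl hK.exp b hq).1
  set S : Set ℂ := ET b ∪ u '' {j}ᶜ with hS
  have hbS : (MK K).closure (ET b) ⊆ (MK K).closure S :=
    (MK K).closure_subset_closure Set.subset_union_left
  have huj : u j ∈ (MK K).closure S := by
    refine cl_sub_of ?_ h2
    rintro x (hx | hx)
    · exact hbS (hCb (Or.inl hx))
    · exact subset_cl _ (Or.inr hx)
  have hu' : range u ⊆ (MK K).closure S := by
    rintro _ ⟨i, rfl⟩
    by_cases hij : i = j
    · rw [hij]
      exact huj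
    · exact subset_cl _ (Or.inr ⟨i, hij, rfl⟩)
  have hexpu : ∀ i, Complex.exp (u i) ∈ (MK K).closure S := by
    intro i
    refine cl_sub_of ?_ (h3 i)
    rintro x (hx | hx)
    · exact hbS (hCb (Or.inr (Set.mem_iUnion.2 ⟨i, hx⟩)))
    · exact hu' hx
  have hET : ET (Fin.append b u) ⊆ (MK K).closure S := by
    rintro _ (⟨i, rfl⟩ | ⟨i, rfl⟩)
    · refine Fin.addCases (fun i => ?_) (fun i => ?_) i
      · rw [Fin.append_left]
        exact subset_cl _ (Or.inl (mem_ET_l b i))
      · rw [Fin.append_right]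
        exact hu' ⟨i, rfl⟩
    · refine Fin.addCases (fun i => ?_) (fun i => ?_) i
      · simp only [Fin.append_left]
        exact subset_cl _ (Or.inl (mem_ET_r b i))
      · simp only [Fin.append_right]
        exact hexpu i
  have hupper : (MK K).eRk (ET (Fin.append b u)) ≤ ((r + 1 : ℕ) : ℕ∞) + ((n - 1 : ℕ) : ℕ∞) := by
    refine (rk_le_of_subset_cl hET).trans ?_
    refine ((MK K).eRk_union_le_eRk_add_encard _ _).trans (add_le_add hb4 ?_)
    refine (Set.encard_image_le _ _).trans ?_
    have : ({j}ᶜ : Set (Fin n)) = ((Finset.univ.erase j : Finset (Fin n)) : Set (Fin n)) := by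
      ext i
      simp
    rw [this, Set.encard_coe_eq_coe_finsetCard, Finset.card_erase_of_mem (Finset.mem_univ _),
      Finset.card_univ, Fintype.card_fin]
  have hn : 0 < n := lt_of_le_of_lt (Nat.zero_le _) j.2
  have hlower := hK.rk (r + n) (Fin.append b u) (by omega) (by
    intro q hq
    rw [Fin.sum_univ_add] at hq
    simp only [Fin.append_left, Fin.append_right] at hq
    have hbM : ∑ i, q (Fin.castAdd n i) • b i ∈ M :=
      sum_mem fun i _ => SubfieldClass.qsmul_mem M _ (hb1 i)
    have h5 : ∑ i, q (Fin.natAdd r i) • u i ∈ M := by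
      have h6 := M.sub_mem (hKM hq) hbM
      rwa [add_sub_cancel_left] at h6
    have h6 := hu _ h5
    have h7 : ∑ i, q (Fin.natAdd r i) • u i = 0 := by
      refine Finset.sum_eq_zero fun i _ => ?_
      rw [congrFun h6 i, Pi.zero_apply, zero_smul]
    rw [h7, add_zero] at hq
    have h8 := hb2 _ hq
    funext i
    refine Fin.addCases (fun i => ?_) (fun i => ?_) i
    · exact congrFun h8 i
    · exact congrFun h6 i)
  have h9 := hlower.trans hupper
  have h10 : ((r + n + 1 : ℕ) : ℕ∞) ≤ ((r + 1 + (n - 1) : ℕ) : ℕ∞) := by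
    rw [Nat.cast_add (r + 1) (n - 1)]
    exact h9
  rw [Nat.cast_le] at h10
  omega

end Pool.Agent.V9h68
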