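import Pool.Agent.V9h68.GF
import Pool.Agent.V9h68.Dat

/-!
Ranks of closures under exponential polynomial equations in one unknown, over a field with the
property of Ax.
-/

set_option autoImplicit false

open MvPolynomial Set Filter

noncomputable section

namespace Pool.Agent.V9h68

open Pool.Agent.Y776 Pool.Agent.Y685 Pool.Agent.TH735.BF
open Pool.Agent.TH813.Rel (MK mem_cl subset_cl rk_le_of_subset_cl cl_add cl_mul cl_inv cl_of_base)

section Clo

variable {k : Type} [Field k] [Algebra k ℂ]

theorem cl_neg {S : Set ℂ} {x : ℂ} (hx : x ∈ (MK k).closure S) : -x ∈ (MK k).closure S :=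
  mem_cl.2 (mem_cl.1 hx).neg

theorem cl_zero (S : Set ℂ) : (0 : ℂ) ∈ (MK k).closure S := by
  have := cl_of_base (k := k) S 0
  rwa [map_zero] at this

theorem cl_one (S : Set ℂ) : (1 : ℂ) ∈ (MK k).closure S := by
  have := cl_of_base (k := k) S 1
  rwa [map_one] at this

variable (k) in
/-- the closure as a field -/
def clF (S : Set ℂ) : Subfield ℂ where
  carrier := (MK k).closure S
  mul_mem' := cl_mul
  one_mem' := cl_one S
  add_mem' := cl_add
  zero_mem' := cl_zero S
  neg_mem' := cl_neg
  inv_mem' := fun _ => cl_inv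

theorem mem_clF {S : Set ℂ} {x : ℂ} : x ∈ clF k S ↔ x ∈ (MK k).closure S := Iff.rfl

theorem cl_sub_of {S T : Set ℂ} (h : S ⊆ (MK k).closure T) :
    (MK k).closure S ⊆ (MK k).closure T := by
  have := (MK k).closure_subset_closure h
  rwa [(MK k).closure_closure] at this

theorem cl_root {S : Set ℂ} {f : Polynomial ℂ} (hf : f ≠ 0)
    (hc : ∀ i, f.coeff i ∈ (MK k).closure S) {z : ℂ} (hz : f.eval z = 0) :
    z ∈ (MK k).closure S := by
  have h1 : z ∈ (MK k).closure ((MK k).closure S) := by
    rw [mem_cl]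
    have hP : f ∈ Polynomial.lifts
        (algebraMap (Algebra.adjoin k ((MK k).closure S : Set ℂ)) ℂ) := by
      rw [Polynomial.lifts_iff_coeff_lifts]
      intro m
      exact ⟨⟨_, Algebra.subset_adjoin (hc m)⟩, rfl⟩
    obtain ⟨q, hq⟩ := (Polynomial.mem_lifts _).1 hP
    refine ⟨q, ?_, ?_⟩
    · rintro rfl
      rw [Polynomial.map_zero] at hq
      exact hf hq.symm
    · rw [← Polynomial.eval_map_algebraMap, hq]
      exact hz
  rwa [(MK k).closure_closure] at h1

theorem cl_of_pow {S : Set ℂ} {x : ℂ} {n : ℕ} (hn : 0 < n) (h : x ^ n ∈ (MK k).closure S) :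
    x ∈ (MK k).closure S := mem_cl.2 (IsAlgebraic.of_pow hn (mem_cl.1 h))

theorem cl_zpow {S : Set ℂ} {x : ℂ} (n : ℤ) (h : x ∈ (MK k).closure S) :
    x ^ n ∈ (MK k).closure S := (clF k S).zpow_mem h n

theorem cl_rat {S : Set ℂ} {x : ℂ} (q : ℚ) (h : x ∈ (MK k).closure S) :
    q • x ∈ (MK k).closure S := by
  exact SubfieldClass.qsmul_mem (clF k S) q h

theorem cl_exp_rat {S : Set ℂ} {x : ℂ} (q : ℚ) (h : Complex.exp x ∈ (MK k).closure S) :
    Complex.exp (q • x) ∈ (MK k).closure S := by
  apply cl_of_pow (n := q.den) q.den_pos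
  rw [← Complex.exp_nat_mul]
  have h1 : (q.den : ℂ) * (q • x) = (q.num : ℂ) * x := by
    rw [Rat.smul_def, ← mul_assoc]
    congr 1
    have := Rat.den_mul_eq_num q
    exact_mod_cast this
  rw [h1, Complex.exp_int_mul]
  exact cl_zpow _ h

/-- adding one element -/
theorem rk_insert (S : Set ℂ) (x : ℂ) : (MK k).eRk (insert x S) ≤ (MK k).eRk S + 1 :=
  (MK k).eRk_insert_le_add_one x S

end Clo

/-- the numbers and their exponentials -/
theorem mem_ET_l {n : ℕ} (x : Fin n → ℂ) (i : Fin n) : x i ∈ ET x := Or.inl ⟨i, rfl⟩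

theorem mem_ET_r {n : ℕ} (x : Fin n → ℂ) (i : Fin n) : Complex.exp (x i) ∈ ET x := Or.inr ⟨i, rfl⟩

section Comb

variable {K : Subfield ℂ} (hexp : ∀ x ∈ K, Complex.exp x ∈ K)

theorem sum_cl {r : ℕ} (b : Fin r → ℂ) (q : Fin r → ℚ) :
    ∑ i, q i • b i ∈ (MK K).closure (ET b) ∧
      Complex.exp (∑ i, q i • b i) ∈ (MK K).closure (ET b) := by
  constructor
  · have h1 : ∀ i ∈ Finset.univ, q i • b i ∈ clF K (ET b) := fun i _ =>
      cl_rat (q i) (subset_cl _ (mem_ET_l b i))
    exact sum_mem h1
  · rw [Complex.exp_sum]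
    have h1 : ∀ i ∈ Finset.univ, Complex.exp (q i • b i) ∈ clF K (ET b) := fun i _ =>
      cl_exp_rat (q i) (subset_cl _ (mem_ET_r b i))
    exact prod_mem h1

include hexp in
theorem comb_cl {r : ℕ} (b : Fin r → ℂ) {z : ℂ} {q : Fin r → ℚ}
    (hz : z - ∑ i, q i • b i ∈ K) : z ∈ (MK K).closure (ET b) ∧
      Complex.exp z ∈ (MK K).closure (ET b) := by
  obtain ⟨h1, h2⟩ := sum_cl (K := K) b q
  have h3 : z = (z - ∑ i, q i • b i) + ∑ i, q i • b i := by ring
  constructor
  · rw [h3]
    exact cl_add (cl_of_base (ET b) (⟨_, hz⟩ : K)) h1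
  · rw [h3, Complex.exp_add]
    exact cl_mul (cl_of_base (ET b) (⟨_, hexp _ hz⟩ : K)) h2

end Comb

/-- a nontrivial relation between `z` and `w` -/
theorem rk_step {k : Type} [Field k] [Algebra k ℂ] {S : Set ℂ} {m : ℕ}
    (P : MvPolynomial (Fin m ⊕ Fin 2) ℤ) {c : Fin m → ℂ} (hc : ∀ i, c i ∈ (MK k).closure S)
    {z w : ℂ} (hz : aeval (Sum.elim c ![z, w]) P = 0) {z' w' : ℂ}
    (hne : aeval (Sum.elim c ![z', w']) P ≠ 0) :
    (MK k).eRk (insert z (insert w S)) ≤ (MK k).eRk S + 1 := by
  classical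
  set L := clF k S with hL
  let c' : Fin m → L := fun i => ⟨c i, hc i⟩
  let θ : MvPolynomial (Fin m ⊕ Fin 2) ℤ →+* Polynomial (Polynomial L) :=
    eval₂Hom (Int.castRingHom _) (Sum.elim (fun i => Polynomial.C (Polynomial.C (c' i)))
      ![Polynomial.C Polynomial.X, Polynomial.X])
  let ev : ℂ → Polynomial L →+* ℂ := fun x => Polynomial.eval₂RingHom (algebraMap L ℂ) x
  have hθ : ∀ x y, (θ P).eval₂ (ev x) y = aeval (Sum.elim c ![x, y]) P := by
    intro x y
    have h1 : (Polynomial.eval₂RingHom (ev x) y).comp θ =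
        (aeval (Sum.elim c ![x, y]) : MvPolynomial (Fin m ⊕ Fin 2) ℤ →ₐ[ℤ] ℂ).toRingHom := by
      apply MvPolynomial.ringHom_ext
      · intro r
        simp [θ]
      · intro i
        rcases i with i | i
        · simp [θ, ev, c']
          rfl
        · fin_cases i
          · simp [θ, ev]
          · simp [θ, ev]
    exact congrArg (fun ψ : MvPolynomial (Fin m ⊕ Fin 2) ℤ →+* ℂ => ψ P) h1
  have hP0 : θ P ≠ 0 := by
    intro h0
    apply hne
    rw [← hθ, h0, Polynomial.eval₂_zero]
  by_cases hzL : z ∈ (MK k).closure S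
  · -- `z` is in the closure
    calc (MK k).eRk (insert z (insert w S)) ≤ (MK k).eRk (insert w S) := by
          apply rk_le_of_subset_cl
          apply Set.insert_subset
          · exact (MK k).closure_subset_closure (Set.subset_insert _ _) hzL
          · exact subset_cl _
      _ ≤ (MK k).eRk S + 1 := rk_insert S w
  · have hcoef : ∃ j, (θ P).coeff j ≠ 0 := by
      by_contra hcon
      push Not at hcon
      exact hP0 (Polynomial.ext fun j => by rw [hcon j, Polynomial.coeff_zero])
    obtain ⟨j, hj⟩ := hcoef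
    have hev : ev z ((θ P).coeff j) ≠ 0 := by
      intro h0
      apply hzL
      refine cl_root (f := ((θ P).coeff j).map (algebraMap L ℂ)) ?_ ?_ ?_
      · rw [Ne, Polynomial.map_eq_zero_iff (algebraMap L ℂ).injective]
        exact hj
      · intro i
        rw [Polynomial.coeff_map]
        exact (((θ P).coeff j).coeff i).2
      · rw [Polynomial.eval_map]
        exact h0
    have hw : w ∈ (MK k).closure (insert z S) := by
      refine cl_root (f := (θ P).map (ev z)) ?_ ?_ ?_
      · intro h0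
        apply hev
        have := congrArg (fun f : Polynomial ℂ => f.coeff j) h0
        simpa using this
      · intro i
        rw [Polynomial.coeff_map]
        show ((θ P).coeff i).eval₂ (algebraMap L ℂ) z ∈ _
        rw [Polynomial.eval₂_eq_sum_range]
        have h1 : ∀ l ∈ Finset.range (((θ P).coeff i).natDegree + 1),
            algebraMap L ℂ (((θ P).coeff i).coeff l) * z ^ l ∈ clF k (insert z S) := by
          intro l _
          refine (clF k (insert z S)).mul_mem ?_ ((clF k (insert z S)).pow_mem ?_ l)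
          · exact (MK k).closure_subset_closure (Set.subset_insert _ _)
              (((θ P).coeff i).coeff l).2
          · exact subset_cl _ (Set.mem_insert _ _)
        exact sum_mem h1
      · rw [Polynomial.eval_map, hθ, hz]
    calc (MK k).eRk (insert z (insert w S)) ≤ (MK k).eRk (insert z S) := by
          apply rk_le_of_subset_cl
          apply Set.insert_subset
          · exact subset_cl _ (Set.mem_insert _ _)
          · apply Set.insert_subset hw
            exact (Set.subset_insert _ _).trans (subset_cl _)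
      _ ≤ (MK k).eRk S + 1 := rk_insert S z

/-- an enumeration of the exponential polynomials -/
instance : Nonempty Fx1 := ⟨⟨0, 0⟩⟩

noncomputable def en1 : ℕ → Fx1 := (exists_surjective_nat Fx1).choose

theorem en1_surj : Function.Surjective en1 := (exists_surjective_nat Fx1).choose_spec

/-- the closure under exponential polynomial equations in one unknown -/
def CE (S : Set ℂ) : Set ℂ := {z | Cl (fun k => EPf (en1 k).2) S z}

theorem CE_base {S : Set ℂ} {z : ℂ} (h : z ∈ S) : z ∈ CE S := Cl.base h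

theorem CE_ec (S : Set ℂ) : Ec (CE S) where
  cl := by
    intro m P y hy hne z hz
    obtain ⟨k, hk⟩ := en1_surj ⟨m, P⟩
    have key : ∀ (Q : Fx1), Q = ⟨m, P⟩ → ∀ k, en1 k = Q → z ∈ CE S := by
      intro Q hQ k hk
      subst hQ
      have h2 : ∀ (R : Fx1), R = ⟨m, P⟩ → ∃ y' : Fin R.1 → ℂ, (∀ a, y' a ∈ CE S) ∧
          (∃ x, EPf R.2 y' x ≠ 0) ∧ EPf R.2 y' z = 0 := by
        rintro R rfl
        exact ⟨y, hy, hne, hz⟩
      obtain ⟨y', h3, h4, h5⟩ := h2 (en1 k) hk
      exact Cl.zero (k := k) h3 h4 h5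
    exact key _ rfl k hk

/-- finite derivations of elements of the closure -/
inductive Dv (A : Set ℂ) : List ℂ → Prop
  | nil : Dv A []
  | base {z : ℂ} {l : List ℂ} (hz : z ∈ A) (hl : Dv A l) : Dv A (z :: l)
  | step {m : ℕ} (P : MvPolynomial (Fin m ⊕ (Fin m ⊕ Fin 2)) ℤ) {y : Fin m → ℂ} {z : ℂ}
      {l : List ℂ} (hy : ∀ a, y a ∈ l) (hne : ∃ x, EPf P y x ≠ 0) (hz : EPf P y z = 0)
      (hl : Dv A l) : Dv A (z :: l)

theorem Dv.append {A : Set ℂ} {l l' : List ℂ} (h : Dv A l) (h' : Dv A l') : Dv A (l ++ l') := by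
  induction h with
  | nil => exact h'
  | base hz _ ih => exact Dv.base hz ih
  | step P hy hne hz _ ih =>
    exact Dv.step P (fun a => List.mem_append_left _ (hy a)) hne hz ih

theorem Dv.fin {A : Set ℂ} {S : Set ℂ} (hS : S.Finite) (h : ∀ z ∈ S, ∃ l, Dv A l ∧ z ∈ l) :
    ∃ l, Dv A l ∧ ∀ z ∈ S, z ∈ l := by
  induction S, hS using Set.Finite.induction_on with
  | empty => exact ⟨[], Dv.nil, fun z hz => absurd hz (Set.notMem_empty z)⟩
  | @insert a s _ _ ih =>
    obtain ⟨l, hl, h1⟩ := ih fun z hz => h z (Set.mem_insert_of_mem _ hz)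
    obtain ⟨l', hl', h2⟩ := h a (Set.mem_insert _ _)
    refine ⟨l ++ l', hl.append hl', ?_⟩
    rintro z (rfl | hz)
    · exact List.mem_append_right _ h2
    · exact List.mem_append_left _ (h1 z hz)

theorem CE_dv {A : Set ℂ} {z : ℂ} (hz : z ∈ CE A) : ∃ l, Dv A l ∧ z ∈ l := by
  induction hz with
  | base hz => exact ⟨[_], Dv.base hz Dv.nil, List.mem_singleton_self _⟩
  | @zero k y z _ hne hz ih =>
    obtain ⟨l, hl, h1⟩ := Dv.fin (A := A) (Set.finite_range y) (by
      rintro _ ⟨a, rfl⟩
      exact ih a)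
    exact ⟨z :: l, Dv.step (en1 k).2 (fun a => h1 _ ⟨a, rfl⟩) hne hz hl, List.mem_cons_self⟩

theorem CE_list {A : Set ℂ} {S : Set ℂ} (hS : S.Finite) (h : S ⊆ CE A) :
    ∃ l, Dv A l ∧ ∀ z ∈ S, z ∈ l := Dv.fin hS fun _ hz => CE_dv (h hz)

/-- a finite basis with few relations -/
def Bd (K : Subfield ℂ) (t : ℂ) (T : Set ℂ) : Prop :=
  ∃ (r : ℕ) (b : Fin r → ℂ), (∀ i, b i ∈ CE (K ∪ {t})) ∧
    (∀ q : Fin r → ℚ, ∑ i, q i • b i ∈ K → q = 0) ∧
    (∀ z ∈ T, ∃ q : Fin r → ℚ, z - ∑ i, q i • b i ∈ K) ∧
    (MK K).eRk (ET b) ≤ ((r + 1 : ℕ) : ℕ∞)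

theorem Bd.mono {K : Subfield ℂ} {t : ℂ} {T T' : Set ℂ} (h : Bd K t T) (hT : T' ⊆ T) :
    Bd K t T' := by
  obtain ⟨r, b, h1, h2, h3, h4⟩ := h
  exact ⟨r, b, h1, h2, fun z hz => h3 z (hT hz), h4⟩

theorem Bd.insert {K : Subfield ℂ} {t : ℂ} {T : Set ℂ} (h : Bd K t T) {z : ℂ}
    (hz : z ∈ CE (K ∪ {t}))
    (hrk : ∀ S : Set ℂ, (∀ x ∈ T, x ∈ (MK K).closure S ∧ Complex.exp x ∈ (MK K).closure S) →
      (MK K).eRk (Insert.insert z (Insert.insert (Complex.exp z) S)) ≤ (MK K).eRk S + 1)
    (hexp : ∀ x ∈ K, Complex.exp x ∈ K) : Bd K t (Insert.insert z T) := by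
  obtain ⟨r, b, h1, h2, h3, h4⟩ := h
  by_cases hzb : ∃ q : Fin r → ℚ, z - ∑ i, q i • b i ∈ K
  · refine ⟨r, b, h1, h2, ?_, h4⟩
    rintro x (rfl | hx)
    · exact hzb
    · exact h3 x hx
  · refine ⟨r + 1, Fin.snoc (α := fun _ => ℂ) b z, ?_, ?_, ?_, ?_⟩
    · intro i
      refine Fin.lastCases ?_ (fun i => ?_) i
      · rw [Fin.snoc_last]
        exact hz
      · rw [Fin.snoc_castSucc]
        exact h1 i
    · intro q hq
      rw [Fin.sum_univ_castSucc] at hq
      simp only [Fin.snoc_castSucc, Fin.snoc_last] at hq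
      have hlast : q (Fin.last r) = 0 := by
        by_contra hne
        apply hzb
        refine ⟨fun i => - (q (Fin.last r))⁻¹ * q i.castSucc, ?_⟩
        have h5 : z - ∑ i : Fin r, (-(q (Fin.last r))⁻¹ * q i.castSucc) • b i =
            ((q (Fin.last r))⁻¹ : ℚ) • (∑ i : Fin r, q i.castSucc • b i + q (Fin.last r) • z) := by
          rw [smul_add, smul_smul, inv_mul_cancel₀ hne, one_smul, Finset.smul_sum]
          simp only [smul_smul, neg_mul, neg_smul, Finset.sum_neg_distrib]
          ring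
        rw [h5]
        exact SubfieldClass.qsmul_mem K _ hq
      rw [hlast, zero_smul, add_zero] at hq
      have h6 := h2 _ hq
      funext i
      refine Fin.lastCases ?_ (fun i => ?_) i
      · exact hlast
      · exact congrFun h6 i
    · rintro x (rfl | hx)
      · refine ⟨Pi.single (Fin.last r) 1, ?_⟩
        rw [Finset.sum_eq_single (Fin.last r)]
        · simp
        · intro j _ hj
          rw [Pi.single_eq_of_ne hj, zero_smul]
        · intro h
          exact absurd (Finset.mem_univ _) h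
      · obtain ⟨q, hq⟩ := h3 x hx
        refine ⟨Fin.snoc (α := fun _ => ℚ) q 0, ?_⟩
        rw [Fin.sum_univ_castSucc]
        simpa using hq
    · have h5 : ET (Fin.snoc (α := fun _ => ℂ) b z : Fin (r + 1) → ℂ) =
          Insert.insert z (Insert.insert (Complex.exp z) (ET b)) := by
        ext x
        simp only [ET, Set.mem_union, Set.mem_range, Set.mem_insert_iff]
        constructor
        · rintro (⟨i, rfl⟩ | ⟨i, rfl⟩)
          · refine Fin.lastCases ?_ (fun i => ?_) i
            · simp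
            · simp
          · refine Fin.lastCases ?_ (fun i => ?_) i
            · simp
            · simp
        · rintro (rfl | rfl | ⟨i, rfl⟩ | ⟨i, rfl⟩)
          · exact Or.inl ⟨Fin.last r, by simp⟩
          · exact Or.inr ⟨Fin.last r, by simp⟩
          · exact Or.inl ⟨i.castSucc, by simp⟩
          · exact Or.inr ⟨i.castSucc, by simp⟩
      rw [h5]
      refine (hrk (ET b) ?_).trans ?_
      · intro x hx
        obtain ⟨q, hq⟩ := h3 x hx
        exact comb_cl hexp b hq
      · refine (add_le_add h4 le_rfl).trans ?_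
        norm_cast

theorem Dv.bd {K : Subfield ℂ} (hK : GF K) {t : ℂ} (ht : t ∉ K) {l : List ℂ}
    (h : Dv (K ∪ {t}) l) : Bd K t (Insert.insert t {z | z ∈ l}) := by
  induction h with
  | nil =>
    refine ⟨1, fun _ => t, fun _ => CE_base (Or.inr rfl), ?_, ?_, ?_⟩
    · intro q hq
      rw [Fin.sum_univ_one] at hq
      funext i
      rw [Subsingleton.elim i 0]
      by_contra hne
      apply ht
      have h1 : t = ((q 0)⁻¹ : ℚ) • (q 0 • t) := by
        rw [smul_smul, inv_mul_cancel₀ hne, one_smul]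
      rw [h1]
      exact SubfieldClass.qsmul_mem K _ hq
    · rintro z (rfl | hz)
      · exact ⟨fun _ => 1, by simp⟩
      · exact absurd hz (by simp)
    · refine ((MK K).eRk_le_encard _).trans ?_
      have h1 : ET (fun _ : Fin 1 => t) ⊆ {t, Complex.exp t} := by
        rintro x (⟨i, rfl⟩ | ⟨i, rfl⟩)
        · exact Or.inl rfl
        · exact Or.inr rfl
      refine (Set.encard_le_encard h1).trans ?_
      refine (Set.encard_insert_le _ _).trans ?_
      rw [Set.encard_singleton]
      norm_num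
  | @base z l hz _ ih =>
    have h1 : Insert.insert t {x | x ∈ z :: l} = Insert.insert z (Insert.insert t {x | x ∈ l}) := by
      ext x
      simp only [Set.mem_insert_iff, Set.mem_ofPred_eq, List.mem_cons]
      tauto
    rw [h1]
    rcases hz with hz | hz
    · obtain ⟨r, b, h2, h3, h4, h5⟩ := ih
      refine ⟨r, b, h2, h3, ?_, h5⟩
      rintro x (rfl | hx)
      · exact ⟨0, by simpa using hz⟩
      · exact h4 x hx
    · rw [Set.mem_singleton_iff] at hz
      subst hz
      refine ih.mono ?_
      rintro x (rfl | hx)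
      · exact Set.mem_insert _ _
      · exact hx
  | @step m P y z l hy hne hz hl ih =>
    have h1 : Insert.insert t {x | x ∈ z :: l} = Insert.insert z (Insert.insert t {x | x ∈ l}) := by
      ext x
      simp only [Set.mem_insert_iff, Set.mem_ofPred_eq, List.mem_cons]
      tauto
    rw [h1]
    refine ih.insert ?_ ?_ hK.exp
    · have hall : ∀ {l : List ℂ}, Dv (K ∪ {t}) l → ∀ x ∈ l, x ∈ CE (K ∪ {t}) := by
        intro l hl
        induction hl with
        | nil => intro x hx; simp at hx
        | base hz _ ih =>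
          intro x hx
          rcases List.mem_cons.1 hx with rfl | hx
          · exact CE_base hz
          · exact ih x hx
        | step P hy hne hz _ ih =>
          intro x hx
          rcases List.mem_cons.1 hx with rfl | hx
          · exact (CE_ec _).cl P _ (fun a => ih _ (hy a)) hne _ hz
          · exact ih x hx
      exact (CE_ec _).cl P y (fun a => hall hl _ (hy a)) hne z hz
    · intro S hS
      obtain ⟨x', hx'⟩ := hne
      -- the polynomial in `2 m + 2` variables
      let ρ : Fin m ⊕ (Fin m ⊕ Fin 2) → Fin (m + m) ⊕ Fin 2 :=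
        Sum.elim (fun i => Sum.inl (Fin.castAdd m i))
          (Sum.elim (fun i => Sum.inl (Fin.natAdd m i)) Sum.inr)
      let c : Fin (m + m) → ℂ := Fin.append y fun i => Complex.exp (y i)
      have hval : ∀ x w, aeval (Sum.elim c ![x, w]) (rename ρ P) =
          aeval (Sum.elim y (Sum.elim (fun i => Complex.exp (y i)) ![x, w])) P := by
        intro x w
        rw [aeval_rename]
        congr 2
        funext v
        rcases v with i | i | i
        · simp [ρ, c]
        · show Fin.append y (fun i => Complex.exp (y i)) (Fin.natAdd m i) = _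
          rw [Fin.append_right]
          rfl
        · simp [ρ]
      refine rk_step (rename ρ P) (c := c) ?_ (z := z) (w := Complex.exp z) ?_ (z' := x')
        (w' := Complex.exp x') ?_
      · intro i
        refine Fin.addCases (fun i => ?_) (fun i => ?_) i
        · simp only [c, Fin.append_left]
          exact (hS _ (Or.inr (hy i))).1
        · simp only [c, Fin.append_right]
          exact (hS _ (Or.inr (hy i))).2
      · rw [hval]
        exact hz
      · rw [hval]
        exact hx'

/-- finitely many elements of the closure -/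
theorem CE_bd {K : Subfield ℂ} (hK : GF K) {t : ℂ} (ht : t ∉ K) {S : Set ℂ} (hS : S.Finite)
    (h : S ⊆ CE (K ∪ {t})) : Bd K t S := by
  obtain ⟨l, hl, h1⟩ := CE_list hS h
  exact (hl.bd hK ht).mono fun z hz => Or.inr (h1 z hz)

end Pool.Agent.V9h68
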