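import Pool.Agent.V9h68.Two
import Pool.Agent.V9h68.Cons
import Pool.Agent.Y566.GQ.Ex1
import Pool.Agent.Y566.GQ.Msr

/-!
The quantifier over two unknowns with a matrix which is definable in the field: traces on curves
and measurability.
-/

set_option autoImplicit false

namespace Pool.Agent.V9h68

open Set Filter Topology Complex Metric Cardinal MvPolynomial MeasureTheory
open Pool.Agent.TH735.QM Pool.Agent.TH735.FO Pool.Agent.TH735.BF

/-- two unknowns and their exponentials -/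
noncomputable def qd (x : ℂ × ℂ) : Fin 4 → ℂ := ![x.1, x.2, Complex.exp x.1, Complex.exp x.2]

/-- the solutions of a constructible system in two unknowns -/
def SolC {m : ℕ} (E : Set (Fin (m + 4) → ℂ)) (s : Fin m → ℂ) : Set (ℂ × ℂ) :=
  {x | (Fin.append s (qd x) : Fin (m + 4) → ℂ) ∈ E}

/-- the renaming of variables -/
def rn (m r : ℕ) : Fin r ⊕ Fin (m + 4) → Fin (m + r) ⊕ (Fin 2 ⊕ Fin 2) :=
  Sum.elim (fun j => Sum.inl (Fin.natAdd m j))
    (Fin.addCases (fun i => Sum.inl (Fin.castAdd r i))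
      ![Sum.inr (Sum.inl 0), Sum.inr (Sum.inl 1), Sum.inr (Sum.inr 0), Sum.inr (Sum.inr 1)])

theorem elim_rn {m r : ℕ} (s : Fin m → ℂ) (p : Fin r → ℂ) (x : ℂ × ℂ) (a : Fin r ⊕ Fin (m + 4)) :
    Sum.elim (Fin.append s p) (ep ![x.1, x.2]) (rn m r a) =
      Sum.elim p (Fin.append s (qd x)) a := by
  rcases a with j | i
  · simp [rn]
  · refine Fin.addCases (fun i => ?_) (fun i => ?_) i
    · simp [rn]
    · fin_cases i <;> simp [rn, qd, ep]

theorem Con.CQ_two {m : ℕ} {E : Set (Fin (m + 4) → ℂ)} (hE : Con (m + 4) E) {κ : Cardinal.{0}}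
    (hκ : κ ≤ ℵ₀) : CQ m {s | κ ≤ #(SolC E s)} := by
  classical
  obtain ⟨ι, hι, F, R, h⟩ := hE
  obtain ⟨r, p, hp⟩ := exists_params (K := ℂ) (fun i : ι => Set.range fun α => (F i).coeff α)
    (fun i => coeffs_finite _)
  have hD : ∀ i, ∃ D : MvPolynomial (Fin r ⊕ Fin (m + 4)) ℤ, sp p D = F i := fun i =>
    spread p _ fun α => hp i _ ⟨α, rfl⟩
  choose D hD using hD
  have : Fintype ι := Fintype.ofFinite ι
  let e := Fintype.equivFin ι
  let F' : Fin (Fintype.card ι) → MvPolynomial (Fin (m + r) ⊕ (Fin 2 ⊕ Fin 2)) ℤ := fun j =>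
    rename (rn m r) (D (e.symm j))
  let R' : Set (Set (Fin (Fintype.card ι))) := {Z | e ⁻¹' Z ∈ R}
  have hval : ∀ (s : Fin m → ℂ) (x : ℂ × ℂ) (i : ι),
      aeval (Sum.elim (Fin.append s p) (ep ![x.1, x.2])) (F' (e i)) =
        eval (Fin.append s (qd x)) (F i) := by
    intro s x i
    simp only [F', Equiv.symm_apply_apply]
    rw [aeval_rename]
    have h1 : (Sum.elim (Fin.append s p) (ep ![x.1, x.2])) ∘ rn m r =
        Sum.elim p (Fin.append s (qd x)) := funext fun a => elim_rn s p x a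
    rw [h1, aeval_def, ← hD i]
    exact (eval_sp p (RingHom.id ℂ) _ (D i)).symm
  have hmem : ∀ (s : Fin m → ℂ) (x : ℂ × ℂ), x ∈ SolC E s ↔
      (![x.1, x.2] : Fin 2 → ℂ) ∈ Sol F' R' (Fin.append s p) := by
    intro s x
    show Fin.append s (qd x) ∈ E ↔ e ⁻¹' (pat F' (Fin.append s p) ![x.1, x.2]) ∈ R
    rw [h]
    have : {i | eval (Fin.append s (qd x)) (F i) = 0} =
        e ⁻¹' (pat F' (Fin.append s p) ![x.1, x.2]) := by
      ext i
      simp only [pat, Set.mem_ofPred_eq, Set.mem_preimage]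
      rw [hval]
    rw [this]
  have hcard : ∀ s : Fin m → ℂ, #(SolC E s) = #(Sol F' R' (Fin.append s p)) := by
    intro s
    refine Cardinal.mk_congr ⟨fun x => ⟨![x.1.1, x.1.2], (hmem s x.1).1 x.2⟩,
      fun y => ⟨(y.1 0, y.1 1), (hmem s _).2 ?_⟩, ?_, ?_⟩
    · have : (![y.1 0, y.1 1] : Fin 2 → ℂ) = y.1 := by
        funext i
        fin_cases i <;> rfl
      simp only [this]
      exact y.2
    · intro x
      rfl
    · intro y
      apply Subtype.ext
      funext i
      fin_cases i <;> rfl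
  have h2 := CQ.preimage (Pool.Agent.V9h68.CQ_two F' R' hκ) (h := fun s : Fin m → ℂ => Fin.append s p) (by
    intro s _
    refine analyticAt_pi_iff.2 fun i => ?_
    refine Fin.addCases (fun i => ?_) (fun i => ?_) i
    · simp only [Fin.append_left]
      exact (ContinuousLinearMap.proj (R := ℂ) (φ := fun _ : Fin m => ℂ) i).analyticAt s
    · simp only [Fin.append_right]
      exact analyticAt_const)
  have h3 : {s | κ ≤ #(SolC E s)} =
      (fun s : Fin m → ℂ => Fin.append s p) ⁻¹' {v | κ ≤ #(Sol F' R' v)} := by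
    ext s
    simp only [Set.mem_ofPred_eq, Set.mem_preimage]
    rw [hcard]
  rw [h3]
  exact h2

/-- projections of locally closed sets -/
theorem meas_loc {T Y : Type} [TopologicalSpace T] [MeasurableSpace T] [OpensMeasurableSpace T]
    [PseudoMetricSpace Y] [ProperSpace Y] (y₀ : Y) {Z : Set (T × Y)} (hZ : IsClosed Z)
    {g : T × Y → ℝ} (hg : Continuous g) : MeasurableSet {s | ∃ y, (s, y) ∈ Z ∧ 0 < g (s, y)} := by
  have h1 : {s | ∃ y, (s, y) ∈ Z ∧ 0 < g (s, y)} = ⋃ q : ℕ × ℕ,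
      {s | ∃ y ∈ closedBall y₀ q.1, (s, y) ∈ Z ∩ {p | 1 / ((q.2 : ℝ) + 1) ≤ g p}} := by
    ext s
    simp only [Set.mem_ofPred_eq, mem_iUnion]
    constructor
    · rintro ⟨x, hx, hs⟩
      obtain ⟨k, hk⟩ := exists_nat_ge (dist x y₀)
      obtain ⟨l, hl⟩ := exists_nat_one_div_lt hs
      exact ⟨(k, l), x, hk, hx, hl.le⟩
    · rintro ⟨⟨k, l⟩, x, -, hx, hg⟩
      refine ⟨x, hx, ?_⟩
      have h0 : (0 : ℝ) < 1 / ((l : ℝ) + 1) := by positivity
      exact lt_of_lt_of_le h0 hg
  rw [h1]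
  refine MeasurableSet.iUnion fun q => IsClosed.measurableSet ?_
  exact Pool.Agent.Y566.GQ.isClosed_proj (hZ.inter (isClosed_le continuous_const hg))
    (isCompact_closedBall _ _)

theorem continuous_eval_qd {m : ℕ} (F : MvPolynomial (Fin (m + 4)) ℂ) :
    Continuous (fun p : (Fin m → ℂ) × (ℂ × ℂ) => eval (Fin.append p.1 (qd p.2)) F) := by
  refine (MvPolynomial.continuous_eval F).comp ?_
  refine continuous_pi fun i => ?_
  refine Fin.addCases (fun i => ?_) (fun i => ?_) i
  · simp only [Fin.append_left]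
    fun_prop
  · simp only [Fin.append_right]
    fin_cases i
    · show Continuous fun p : (Fin m → ℂ) × (ℂ × ℂ) => p.2.1
      fun_prop
    · show Continuous fun p : (Fin m → ℂ) × (ℂ × ℂ) => p.2.2
      fun_prop
    · show Continuous fun p : (Fin m → ℂ) × (ℂ × ℂ) => Complex.exp p.2.1
      fun_prop
    · show Continuous fun p : (Fin m → ℂ) × (ℂ × ℂ) => Complex.exp p.2.2
      fun_prop

theorem Con.meas_nat {m : ℕ} {E : Set (Fin (m + 4) → ℂ)} (hE : Con (m + 4) E) (k : ℕ) :
    MeasurableSet {s | (k : Cardinal.{0}) ≤ #(SolC E s)} := by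
  classical
  obtain ⟨ι, hι, F, R, h⟩ := hE
  have : Fintype ι := Fintype.ofFinite ι
  let f : ι → (Fin m → ℂ) → ℂ × ℂ → ℂ := fun i s x => eval (Fin.append s (qd x)) (F i)
  have hf : ∀ i, Continuous (fun p : (Fin m → ℂ) × (ℂ × ℂ) => f i p.1 p.2) := fun i =>
    continuous_eval_qd (F i)
  let L : (Fin k → Set ι) → Set (Fin m → ℂ) := fun Zs =>
    {s | ∃ y : Fin k → ℂ × ℂ, (s, y) ∈ {p : (Fin m → ℂ) × (Fin k → ℂ × ℂ) |
        ∀ j, ∀ i ∈ Zs j, f i p.1 (p.2 j) = 0} ∧
      0 < (∏ j, ∏ i, if i ∈ Zs j then 1 else ‖f i s (y j)‖) *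
        ∏ j : Fin k, ∏ j' : Fin k, if j = j' then 1 else dist (y j) (y j')}
  have hL : ∀ Zs, MeasurableSet (L Zs) := by
    intro Zs
    refine meas_loc (fun _ => 0) (g := fun p : (Fin m → ℂ) × (Fin k → ℂ × ℂ) =>
      (∏ j, ∏ i, if i ∈ Zs j then 1 else ‖f i p.1 (p.2 j)‖) *
        ∏ j : Fin k, ∏ j' : Fin k, if j = j' then 1 else dist (p.2 j) (p.2 j')) ?_ ?_
    · have : {p : (Fin m → ℂ) × (Fin k → ℂ × ℂ) | ∀ j, ∀ i ∈ Zs j, f i p.1 (p.2 j) = 0} =
          ⋂ j, ⋂ i ∈ Zs j, {p | f i p.1 (p.2 j) = 0} := by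
        ext p
        simp
      rw [this]
      refine isClosed_iInter fun j => isClosed_biInter fun i _ => ?_
      refine isClosed_eq ((hf i).comp (g := fun p : (Fin m → ℂ) × (ℂ × ℂ) => f i p.1 p.2)
        (f := fun p : (Fin m → ℂ) × (Fin k → ℂ × ℂ) => (p.1, p.2 j)) ?_) continuous_const
      fun_prop
    · refine Continuous.mul ?_ ?_
      · refine continuous_finsetProd _ fun j _ => continuous_finsetProd _ fun i _ => ?_
        split_ifs
        · exact continuous_const
        · refine Continuous.norm ((hf i).comp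
            (g := fun p : (Fin m → ℂ) × (ℂ × ℂ) => f i p.1 p.2)
            (f := fun p : (Fin m → ℂ) × (Fin k → ℂ × ℂ) => (p.1, p.2 j)) ?_)
          fun_prop
      · refine continuous_finsetProd _ fun j _ => continuous_finsetProd _ fun j' _ => ?_
        split_ifs
        · exact continuous_const
        · fun_prop
  have h1 : {s | (k : Cardinal.{0}) ≤ #(SolC E s)} =
      ⋃ Zs ∈ {Zs : Fin k → Set ι | ∀ j, Zs j ∈ R}, L Zs := by
    ext s
    simp only [Set.mem_ofPred_eq, mem_iUnion, exists_prop]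
    constructor
    · intro hk
      rw [← Cardinal.lift_mk_fin k, ← Cardinal.lift_id #(SolC E s)] at hk
      obtain ⟨g⟩ := Cardinal.lift_mk_le'.1 hk
      refine ⟨fun j => {i | f i s (g j).1 = 0}, fun j => (h _).1 (g j).2, fun j => (g j).1,
        fun j i hi => hi, mul_pos ?_ ?_⟩
      · refine Finset.prod_pos fun j _ => Finset.prod_pos fun i _ => ?_
        split_ifs with hi
        · exact one_pos
        · exact norm_pos_iff.2 hi
      · refine Finset.prod_pos fun j _ => Finset.prod_pos fun j' _ => ?_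
        split_ifs with hi
        · exact one_pos
        · exact dist_pos.2 fun h0 => hi (g.injective (Subtype.ext h0))
    · rintro ⟨Zs, hZs, y, hy1, hy2⟩
      have hA0 : (∏ j, ∏ i, if i ∈ Zs j then (1 : ℝ) else ‖f i s (y j)‖) ≠ 0 := fun h0 => by
        rw [h0, zero_mul] at hy2
        exact lt_irrefl _ hy2
      have hB0 : (∏ j : Fin k, ∏ j' : Fin k, if j = j' then (1 : ℝ) else dist (y j) (y j')) ≠ 0 :=
        fun h0 => by
          rw [h0, mul_zero] at hy2
          exact lt_irrefl _ hy2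
      have hmem : ∀ j, y j ∈ SolC E s := by
        intro j
        show Fin.append s (qd (y j)) ∈ E
        rw [h]
        have : {i | eval (Fin.append s (qd (y j))) (F i) = 0} = Zs j := by
          ext i
          constructor
          · intro hi
            by_contra hiZ
            have h2 := Finset.prod_ne_zero_iff.1 (Finset.prod_ne_zero_iff.1 hA0 j
              (Finset.mem_univ j)) i (Finset.mem_univ i)
            rw [if_neg hiZ] at h2
            exact h2 (norm_eq_zero.2 hi)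
          · intro hi
            exact hy1 j i hi
        rw [this]
        exact hZs j
      have hinj : Function.Injective (fun j : Fin k => (⟨y j, hmem j⟩ : SolC E s)) := by
        intro j j' hjj
        by_contra hne
        have h2 := Finset.prod_ne_zero_iff.1 (Finset.prod_ne_zero_iff.1 hB0 j
          (Finset.mem_univ j)) j' (Finset.mem_univ j')
        rw [if_neg hne] at h2
        exact h2 (dist_eq_zero.2 (congrArg Subtype.val hjj))
      have h3 := Cardinal.mk_le_of_injective hinj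
      rwa [Cardinal.mk_fin] at h3
  rw [h1]
  exact MeasurableSet.biUnion (Set.toFinite _).countable fun Zs _ => hL Zs

theorem Con.meas_two {m : ℕ} {E : Set (Fin (m + 4) → ℂ)} (hE : Con (m + 4) E) {κ : Cardinal.{0}}
    (hκ : κ ≤ ℵ₀) : MeasurableSet {s | κ ≤ #(SolC E s)} := by
  rcases hκ.lt_or_eq with h | rfl
  · obtain ⟨k, rfl⟩ := Cardinal.lt_aleph0.1 h
    exact hE.meas_nat k
  · have h1 : {s | ℵ₀ ≤ #(SolC E s)} = ⋂ k : ℕ, {s | (k : Cardinal.{0}) ≤ #(SolC E s)} := by
      ext s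
      simp only [Set.mem_ofPred_eq, mem_iInter]
      exact Cardinal.aleph0_le
    rw [h1]
    exact MeasurableSet.iInter fun k => hE.meas_nat k

/-- preimages of constructible sets -/
theorem Con.comp {n n' : ℕ} {E : Set (Fin n → ℂ)} (hE : Con n E) (ρ : Fin n → Fin n') :
    Con n' {v | (fun i => v (ρ i)) ∈ E} := by
  obtain ⟨ι, hι, F, R, h⟩ := hE
  refine ⟨ι, hι, fun i => rename ρ (F i), R, fun v => ?_⟩
  simp only [Set.mem_ofPred_eq, h, eval_rename]
  rfl

theorem Con.inter {n : ℕ} {X Y : Set (Fin n → ℂ)} (hX : Con n X) (hY : Con n Y) :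
    Con n (X ∩ Y) := by
  have := (hX.compl.union hY.compl).compl
  rwa [Set.compl_union, compl_compl, compl_compl] at this

/-- the embedding of coordinates which omits the last parameter -/
def omt (m : ℕ) : Fin (m + 4) → Fin (m + 1 + 4) :=
  Fin.addCases (fun i => Fin.castAdd 4 i.castSucc) (fun i => Fin.natAdd (m + 1) i)

theorem append_omt {m : ℕ} (s : Fin m → ℂ) (w : ℂ) (y : Fin 4 → ℂ) :
    (fun i => (Fin.append (Fin.snoc (α := fun _ => ℂ) s w : Fin (m + 1) → ℂ) y) (omt m i)) =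
      Fin.append s y := by
  funext i
  refine Fin.addCases (fun i => ?_) (fun i => ?_) i
  · simp [omt]
  · simp [omt]

/-- all cardinals -/
theorem Con.two {m : ℕ} {E : Set (Fin (m + 4) → ℂ)} (hE : Con (m + 4) E) (κ : Cardinal.{0}) :
    CQ m {s | κ ≤ #(SolC E s)} ∧ MeasurableSet {s | κ ≤ #(SolC E s)} := by
  rcases le_or_gt κ ℵ₀ with hκ | hκ
  · exact ⟨hE.CQ_two hκ, hE.meas_two hκ⟩
  · -- the projections
    let P : Fin 2 → ℂ × ℂ → ℂ := ![Prod.fst, Prod.snd]
    let E' : Fin 2 → Set (Fin (m + 1 + 4) → ℂ) := fun a =>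
      {v | (fun i => v (omt m i)) ∈ E} ∩
        {v | eval v (X (Fin.castAdd 4 (Fin.last m)) -
          X (Fin.natAdd (m + 1) (![0, 1] a)) : MvPolynomial (Fin (m + 1 + 4)) ℂ) = 0}
    have hE' : ∀ a, Con (m + 1 + 4) (E' a) := fun a => (hE.comp (omt m)).inter (Con.zero _)
    have hE'S : ∀ (a : Fin 2) (s : Fin m → ℂ) (w : ℂ) (x : ℂ × ℂ),
        x ∈ SolC (E' a) (Fin.snoc (α := fun _ => ℂ) s w) ↔ x ∈ SolC E s ∧ w = P a x := by
      intro a s w x
      show _ ∧ _ ↔ _ ∧ _
      refine and_congr ?_ ?_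
      · show (fun i => (Fin.append (Fin.snoc (α := fun _ => ℂ) s w : Fin (m + 1) → ℂ) (qd x))
          (omt m i)) ∈ E ↔ _
        rw [append_omt]
        rfl
      · show eval _ _ = 0 ↔ _
        rw [map_sub, sub_eq_zero, eval_X, eval_X, Fin.append_left, Fin.append_right, Fin.snoc_last]
        fin_cases a <;> rfl
    let X' : Fin 2 → Set (Fin (m + 1) → ℂ) := fun a => {v | 1 ≤ #(SolC (E' a) v)}
    have hX' : ∀ a, CQ (m + 1) (X' a) ∧ MeasurableSet (X' a) := fun a =>
      ⟨(hE' a).CQ_two (Cardinal.one_le_aleph0), (hE' a).meas_two Cardinal.one_le_aleph0⟩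
    have hsec : ∀ a s, Pool.Agent.Y566.GQ.Sec (X' a) s = P a '' SolC E s := by
      intro a s
      ext w
      show 1 ≤ #(SolC (E' a) (Fin.snoc (α := fun _ => ℂ) s w)) ↔ _
      rw [Cardinal.one_le_iff_ne_zero, Cardinal.mk_ne_zero_iff, Set.nonempty_coe_sort]
      constructor
      · rintro ⟨x, hx⟩
        obtain ⟨h1, h2⟩ := (hE'S a s w x).1 hx
        exact ⟨x, h1, h2.symm⟩
      · rintro ⟨x, h1, h2⟩
        exact ⟨x, (hE'S a s w x).2 ⟨h1, h2.symm⟩⟩
    have key : {s | κ ≤ #(SolC E s)} =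
        {s | κ ≤ #(Pool.Agent.Y566.GQ.Sec (X' 0) s)} ∪
          {s | κ ≤ #(Pool.Agent.Y566.GQ.Sec (X' 1) s)} := by
      ext s
      simp only [Set.mem_ofPred_eq, Set.mem_union, hsec]
      constructor
      · intro h
        by_contra hcon
        push Not at hcon
        have h1 : #(SolC E s) ≤ #(P 0 '' SolC E s) * #(P 1 '' SolC E s) := by
          rw [Cardinal.mul_def]
          refine Cardinal.mk_le_of_injective (f := fun x : SolC E s =>
            ((⟨P 0 x.1, mem_image_of_mem _ x.2⟩ : P 0 '' SolC E s),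
              (⟨P 1 x.1, mem_image_of_mem _ x.2⟩ : P 1 '' SolC E s))) ?_
          intro x y hxy
          have h2 := congrArg (fun q => (q.1 : ℂ)) hxy
          have h3 := congrArg (fun q => (q.2 : ℂ)) hxy
          exact Subtype.ext (Prod.ext h2 h3)
        have h2 : #(P 0 '' SolC E s) * #(P 1 '' SolC E s) < κ :=
          Cardinal.mul_lt_of_lt hκ.le hcon.1 hcon.2
        exact absurd (h.trans h1) (not_le.2 h2)
      · rintro (h | h)
        · exact h.trans Cardinal.mk_image_le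
        · exact h.trans Cardinal.mk_image_le
    have h0 := Pool.Agent.Y566.GQ.CQ_card (hX' 0).1 (hX' 0).2 hκ
    have h1 := Pool.Agent.Y566.GQ.CQ_card (hX' 1).1 (hX' 1).2 hκ
    rw [key]
    exact ⟨CQ_union h0.1 h1.1, h0.2.union h1.2⟩

end Pool.Agent.V9h68
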