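import Pool.Agent.V9h68.Wn2

/-!
Extensions of isomorphisms by algebraic elements and by generic elements.
-/

set_option autoImplicit false

open MvPolynomial Set Filter

noncomputable section

namespace Pool.Agent.V9h68

open Pool.Agent.Y776 Pool.Agent.Y685
open Pool.Agent.TH813.Rel (MK mem_cl subset_cl rk_le_of_subset_cl cl_add cl_mul cl_inv cl_of_base)

/-- closures are contained in algebraically closed fields -/
theorem cl_le_alg {K F : Subfield ℂ} (hKF : K ≤ F) (hF : ∀ x, IsAlgebraic F x → x ∈ F) {S : Set ℂ}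
    (hS : S ⊆ F) : (MK K).closure S ⊆ F := by
  intro z hz
  obtain ⟨p, hp, hpz⟩ := mem_cl.1 hz
  have hadj : ∀ x ∈ Algebra.adjoin K S, x ∈ F := by
    intro x hx
    induction hx using Algebra.adjoin_induction with
    | mem x hx => exact hS hx
    | algebraMap c => exact hKF c.2
    | add x y _ _ hx hy => exact add_mem hx hy
    | mul x y _ _ hx hy => exact mul_mem hx hy
  let g : Algebra.adjoin K S →+* F :=
    { toFun := fun a => ⟨a, hadj a a.2⟩
      map_one' := rfl
      map_mul' := fun _ _ => rfl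
      map_zero' := rfl
      map_add' := fun _ _ => rfl }
  apply hF
  refine ⟨p.map g, ?_, ?_⟩
  · rw [Ne, Polynomial.map_eq_zero_iff]
    · exact hp
    · intro a b hab
      apply Subtype.ext
      exact congrArg (fun w : F => (w : ℂ)) hab
  · rw [Polynomial.aeval_def, Polynomial.eval₂_map]
    exact hpz

theorem cl_countable {K : Subfield ℂ} (hK : (K : Set ℂ).Countable) {S : Set ℂ} (hS : S.Countable) :
    ((MK K).closure S).Countable := by
  obtain ⟨F, hF, hSF⟩ := exists_GF (hK.union hS)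
  exact hF.cnt.mono (cl_le_alg (fun x hx => hSF (Or.inl hx)) hF.alg fun x hx => hSF (Or.inr hx))

theorem ET_countable {p : ℕ} (b : Fin p → ℂ) : (ET b).Countable :=
  (Set.countable_range _).union (Set.countable_range _)

/-- extension of an automorphism to independent elements -/
theorem indep_aut {K : Subfield ℂ} (hKc : (K : Set ℂ).Countable) {σ : ℂ ≃+* ℂ}
    (hσK : ∀ c ∈ K, σ c = c) {S S' : Set ℂ} (hS : S.Countable) (hSS : σ '' S = S') {ι : Type}
    [Countable ι] {g g' : ι → ℂ} (hg : AlgebraicIndependent (clF K S) g)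
    (hg' : AlgebraicIndependent (clF K S') g') :
    ∃ σ1 : ℂ ≃+* ℂ, (∀ z ∈ (MK K).closure S, σ1 z = σ z) ∧ ∀ i, σ1 (g i) = g' i := by
  have hc : Countable (clF K S) := (cl_countable hKc hS).to_subtype
  have hmem : ∀ z ∈ clF K S, σ z ∈ clF K S' := by
    intro z hz
    have h1 := cl_hom (θ := (σ : ℂ →+* ℂ)) (K := K) (K' := K) (fun c hc => by
      change σ c ∈ K
      rw [hσK c hc]; exact hc) hz
    have h2 : (σ : ℂ →+* ℂ) '' S = S' := hSS
    rw [h2] at h1
    exact h1
  let τ' : clF K S →+* clF K S' :=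
    { toFun := fun z => ⟨σ z, hmem z z.2⟩
      map_one' := Subtype.ext (map_one σ)
      map_mul' := fun a b => Subtype.ext (map_mul σ (a : ℂ) b)
      map_zero' := Subtype.ext (map_zero σ)
      map_add' := fun a b => Subtype.ext (map_add σ (a : ℂ) b) }
  obtain ⟨σ1, h1, h2⟩ := aut_tuple (K := clF K S) (ι := ι) (algebraMap (clF K S) ℂ)
    ((algebraMap (clF K S') ℂ).comp τ') g g' (fun P => by
      constructor
      · intro h
        rw [algebraicIndependent_iff] at hg
        have h3 : P = 0 := hg P h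
        rw [h3, eval₂_zero]
      · intro h
        rw [algebraicIndependent_iff] at hg'
        have h3 : MvPolynomial.map τ' P = 0 := by
          apply hg'
          rw [aeval_def, eval₂_map]
          exact h
        have h4 : P = 0 := MvPolynomial.map_injective τ' τ'.injective (by rw [h3, map_zero])
        rw [h4, eval₂_zero])
  exact ⟨σ1, fun z hz => h1 ⟨z, hz⟩, h2⟩

/-- transcendental elements -/
theorem indep_unit {L : Subfield ℂ} {K : Subfield ℂ} {S : Set ℂ} (hL : L = clF K S) {y : ℂ}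
    (hy : y ∉ (MK K).closure S) : AlgebraicIndependent L (fun _ : Unit => y) := by
  subst hL
  rw [algebraicIndependent_unique_type_iff]
  rintro ⟨p, hp, hpz⟩
  apply hy
  refine cl_root (f := p.map (algebraMap (clF K S) ℂ)) ?_ ?_ ?_
  · rw [Ne, Polynomial.map_eq_zero_iff (algebraMap (clF K S) ℂ).injective]
    exact hp
  · intro i
    rw [Polynomial.coeff_map]
    exact (p.coeff i).2
  · rw [Polynomial.eval_map_algebraMap]
    exact hpz

theorem ET_append_one {K : Subfield ℂ} {p : ℕ} {b : Fin p → ℂ} {z : ℂ}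
    (hz : z ∈ (MK K).closure (ET b)) {T : Set ℂ} (hbT : ET b ⊆ (MK K).closure T)
    (hT : Complex.exp z ∈ (MK K).closure T) :
    ET (Fin.append b (fun _ : Fin 1 => z)) ⊆ (MK K).closure T := by
  have hz' : z ∈ (MK K).closure T := cl_sub_of hbT hz
  rintro _ (⟨l, rfl⟩ | ⟨l, rfl⟩)
  · refine Fin.addCases (fun i => ?_) (fun i => ?_) l
    · rw [Fin.append_left]
      exact hbT (Or.inl ⟨i, rfl⟩)
    · rw [Fin.append_right]
      exact hz'
  · refine Fin.addCases (fun i => ?_) (fun i => ?_) l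
    · simp only [Fin.append_left]
      exact hbT (Or.inr ⟨i, rfl⟩)
    · simp only [Fin.append_right]
      exact hT

/-- independence of a tuple with one more element -/
theorem ind_append_one {K : Subfield ℂ} {p : ℕ} {b : Fin p → ℂ}
    (hb : ∀ q : Fin p → ℚ, lc b q ∈ K → q = 0) {z : ℂ} (hz : z ∉ Vs K b) :
    ∀ q : Fin (p + 1) → ℚ, lc (Fin.append b (fun _ : Fin 1 => z)) q ∈ K → q = 0 := by
  intro q hq
  rw [lc_append] at hq
  have h1 : lc (fun _ : Fin 1 => z) (fun i => q (Fin.natAdd p i)) = q (Fin.natAdd p 0) • z := by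
    unfold lc
    rw [Fin.sum_univ_one]
  rw [h1] at hq
  have h2 : q (Fin.natAdd p 0) = 0 := by
    by_contra hne
    apply hz
    refine ⟨-(q (Fin.natAdd p 0))⁻¹ • fun i => q (Fin.castAdd 1 i), ?_⟩
    rw [lc_smul]
    have h3 := SubfieldClass.qsmul_mem K (q (Fin.natAdd p 0))⁻¹ hq
    rw [smul_add, smul_smul, inv_mul_cancel₀ hne, one_smul] at h3
    convert h3 using 1
    rw [neg_smul]
    ring
  rw [h2, zero_smul, add_zero] at hq
  have h3 := hb _ hq
  funext l
  refine Fin.addCases (fun i => ?_) (fun i => ?_) l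
  · exact congrFun h3 i
  · rw [Subsingleton.elim i 0]
    exact h2

/-- the exponential of an algebraic element outside of the space is transcendental -/
theorem exp_notin {K : Subfield ℂ} {p d : ℕ} {b : Fin p → ℂ} (h : Sc K b d) (hd : 0 < d) {z : ℂ}
    (hz : z ∈ (MK K).closure (ET b)) (hzV : z ∉ Vs K b) :
    Complex.exp z ∉ (MK K).closure (ET b) := by
  intro hcon
  have h1 := ET_append_one hz (subset_cl _) hcon
  obtain ⟨L, hL⟩ := h.chn
  have h2 := (hL.append (fun _ : Fin 1 => z)).low hd (ind_append_one h.ind hzV)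
    ((rk_le_of_subset_cl h1).trans h.rk)
  omega

theorem Sc.add_alg {K : Subfield ℂ} {p d : ℕ} {b : Fin p → ℂ} (h : Sc K b d) {z : ℂ}
    (hz : z ∈ (MK K).closure (ET b)) (hzV : z ∉ Vs K b) :
    Sc K (Fin.append b (fun _ : Fin 1 => z)) d := by
  obtain ⟨L, hL⟩ := h.chn
  refine ⟨ind_append_one h.ind hzV, ?_, L, hL.append _⟩
  have h1 := ET_append_one (T := insert (Complex.exp z) (ET b)) hz
    ((Set.subset_insert _ _).trans (subset_cl _)) (subset_cl _ (Set.mem_insert _ _))
  refine (rk_le_of_subset_cl h1).trans ((rk_insert _ _).trans ?_)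
  refine (add_le_add h.rk le_rfl).trans ?_
  norm_cast
  omega

/-- **extension by an algebraic element** -/
theorem Wt.alg {K : Subfield ℂ} (hK : GD K) (w : Wt K) {z : ℂ}
    (hz : z ∈ (MK K).closure (ET w.b)) : ∃ w1 : Wt K, w.Le w1 ∧ z ∈ w1.V := by
  classical
  by_cases hzV : z ∈ w.V
  · exact ⟨w, Wt.Le.refl w, hzV⟩
  obtain ⟨p, d, b, b', σ, wc⟩ := w
  have hzV' : z ∉ Vs K b := hzV
  simp only at hz
  have hd : 0 < d := by
    rw [Nat.pos_iff_ne_zero]
    rintro rfl
    have hp : p = 0 := wc.src.zero hK.toGF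
    subst hp
    apply hzV'
    apply Vs_base
    refine cl_le_alg (K := K) (F := K) le_rfl hK.alg ?_ hz
    rintro _ (⟨i, rfl⟩ | ⟨i, rfl⟩)
    · exact i.elim0
    · exact i.elim0
  have : Countable K := hK.cnt.to_subtype
  have hsrc := wc.src.add_alg hz hzV'
  obtain ⟨M, hM, hkum⟩ := kum (a := Fin.append b (fun _ : Fin 1 => z)) hK.alg
    (exp_ind hK.toGF hsrc.ind)
  have hM0 : (M : ℂ) ≠ 0 := by exact_mod_cast hM.ne'
  have hσe : ∀ i, σ (Complex.exp (b i)) = Complex.exp (b' i) := by
    intro i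
    have h4 := wc.exp (Pi.single i 1)
    rw [lc_single, lc_single, one_smul, one_smul] at h4
    exact h4
  have hETσ : σ '' ET b = ET b' := image_ET (σ := (σ : ℂ →+* ℂ)) wc.map hσe
  have hz' : σ z ∈ (MK K).closure (ET b') := by
    have h1 := cl_hom (θ := (σ : ℂ →+* ℂ)) (K := K) (K' := K) (fun c hc => by
      change σ c ∈ K
      rw [wc.fix c hc]; exact hc) hz
    have h2 : (σ : ℂ →+* ℂ) '' ET b = ET b' := hETσ
    rw [h2] at h1
    exact h1
  have hzV2 : σ z ∉ Vs K b' := by
    rintro ⟨q, hq⟩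
    apply hzV'
    refine ⟨q, ?_⟩
    have h1 : σ (z - lc b q) = σ (σ z - lc b' q) := by
      rw [wc.fix _ hq, map_sub, lc_mapσ wc.map]
    rw [σ.injective h1]
    exact hq
  have htgt := wc.tgt.add_alg hz' hzV2
  have hroot : ∀ (b : Fin p → ℂ) (z : ℂ), Complex.exp z ∉ (MK K).closure (ET b) →
      Complex.exp (z / M) ∉ (MK K).closure (ET b) := by
    intro b z h1 h2
    apply h1
    have h3 : Complex.exp z = Complex.exp (z / M) ^ M := by
      rw [← Complex.exp_nat_mul, mul_div_cancel₀ _ hM0]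
    rw [h3]
    exact (clF K (ET b)).pow_mem h2 M
  obtain ⟨σ1, hσ1, hσ2⟩ := indep_aut (K := K) hK.cnt wc.fix (ET_countable b) hETσ
    (indep_unit rfl (hroot _ _ (exp_notin wc.src hd hz hzV')))
    (indep_unit rfl (hroot _ _ (exp_notin wc.tgt hd hz' hzV2)))
  have hL : LIso K M (Fin.append b (fun _ : Fin 1 => z)) (Fin.append b' (fun _ : Fin 1 => σ z)) := by
    refine ⟨σ1, fun c hc => ?_, fun l => ?_, fun l => ?_⟩
    · rw [hσ1 c (cl_of_base (k := K) _ (⟨c, hc⟩ : K)), wc.fix c hc]
    · refine Fin.addCases (fun i => ?_) (fun i => ?_) l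
      · rw [Fin.append_left, Fin.append_left, hσ1 _ (subset_cl _ (mem_ET_l b i)), wc.map]
      · rw [Fin.append_right, Fin.append_right, hσ1 _ hz]
    · refine Fin.addCases (fun i => ?_) (fun i => ?_) l
      · rw [Fin.append_left, Fin.append_left]
        have h1 : ∀ a : Fin p → ℂ, a i / M = lc a (Pi.single i (M : ℚ)⁻¹) := by
          intro a
          rw [lc_single, Rat.smul_def]
          push_cast
          ring
        have h2 : Complex.exp (lc b (Pi.single i (M : ℚ)⁻¹)) ∈ (MK K).closure (ET b) :=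
          (sum_cl b _).2
        rw [h1 b, h1 b', hσ1 _ h2, wc.exp]
      · rw [Fin.append_right, Fin.append_right]
        exact hσ2 ()
  obtain ⟨w1, h1, h2, -⟩ := Wt.mk' (⟨p, d, b, b', σ, wc⟩ : Wt K) hsrc htgt (hkum _ hL)
  exact ⟨w1, h1, h2 0⟩

end Pool.Agent.V9h68
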