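import Pool.Agent.V9h68.Mb

/-!
Zeros of exponential polynomials with a side condition.
-/

set_option autoImplicit false

open Set Filter Topology MvPolynomial

noncomputable section

namespace Pool.Agent.V9h68.Rt

/-- evaluation and the distinguished variable -/
theorem fin_eval {R : Type} [CommRing R] (θ : R →+* ℂ) {k : ℕ} (y : Fin (k + 1) → ℂ)
    (P : MvPolynomial (Fin (k + 1)) R) :
    (finSuccEquiv R k P).eval₂ (eval₂Hom θ fun i : Fin k => y i.succ) (y 0) = eval₂ θ y P := by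
  have h : (Polynomial.eval₂RingHom (eval₂Hom θ fun i : Fin k => y i.succ) (y 0)).comp
      (finSuccEquiv R k : MvPolynomial (Fin (k + 1)) R →+* Polynomial (MvPolynomial (Fin k) R)) =
      eval₂Hom θ y := by
    refine MvPolynomial.ringHom_ext (fun r => ?_) (fun i => ?_)
    · rw [RingHom.comp_apply]
      change Polynomial.eval₂ _ _ (finSuccEquiv R k (C r)) = eval₂ θ y (C r)
      rw [finSuccEquiv_apply, coe_eval₂Hom, eval₂_C, eval₂_C, RingHom.comp_apply,
        Polynomial.eval₂_C]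
      exact eval₂_C _ _ _
    · rw [RingHom.comp_apply]
      change Polynomial.eval₂ _ _ (finSuccEquiv R k (X i)) = eval₂ θ y (X i)
      rw [eval₂_X]
      refine Fin.cases ?_ (fun i => ?_) i
      · rw [finSuccEquiv_X_zero, Polynomial.eval₂_X]
      · rw [finSuccEquiv_X_succ, Polynomial.eval₂_C]
        exact eval₂_X _ _ _
  exact RingHom.congr_fun h P

/-- pseudo-division -/
theorem pseudo {S : Type} [CommRing S] [IsDomain S] {p : Polynomial S} (hp : p ≠ 0)
    (I : Polynomial S → Prop) (hI : ∀ f g a b, I f → I g → I (a * f - b * g)) (hpI : I p)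
    (hmin : ∀ f, I f → f ≠ 0 → p.natDegree ≤ f.natDegree) (n : ℕ) :
    ∀ f, f.natDegree ≤ n → I f →
      ∃ (m : ℕ) (q : Polynomial S), Polynomial.C (p.leadingCoeff) ^ m * f = p * q := by
  induction n using Nat.strong_induction_on with
  | _ n ih =>
    intro f hf hfI
    rcases eq_or_ne f 0 with rfl | hf0
    · exact ⟨0, 0, by rw [mul_zero, mul_zero]⟩
    have hle := hmin f hfI hf0
    set d := f.natDegree - p.natDegree with hd
    set f₁ := Polynomial.C p.leadingCoeff * f - (Polynomial.C f.leadingCoeff * Polynomial.X ^ d) * p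
      with hf₁
    have hf₁I : I f₁ := hI _ _ _ _ hfI hpI
    have hfin : (∃ (m : ℕ) (q : Polynomial S), Polynomial.C (p.leadingCoeff) ^ m * f₁ = p * q) →
        ∃ (m : ℕ) (q : Polynomial S), Polynomial.C (p.leadingCoeff) ^ m * f = p * q := by
      rintro ⟨m, q, hq⟩
      refine ⟨m + 1, q + Polynomial.C (p.leadingCoeff) ^ m *
        (Polynomial.C f.leadingCoeff * Polynomial.X ^ d), ?_⟩
      rw [mul_add, ← hq, hf₁]
      ring
    apply hfin
    rcases eq_or_ne f₁ 0 with h0 | h0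
    · exact ⟨0, 0, by rw [h0, mul_zero, mul_zero]⟩
    have hlt : f₁.natDegree < f.natDegree := by
      have hdeg : f₁.degree < f.degree := by
        have h1 : (Polynomial.C p.leadingCoeff * f).degree = f.degree := by
          rw [Polynomial.degree_mul, Polynomial.degree_C (Polynomial.leadingCoeff_ne_zero.2 hp),
            zero_add]
        rw [← h1]
        refine Polynomial.degree_sub_lt_left ?_ ?_ ?_
        · rw [h1, Polynomial.degree_mul, Polynomial.degree_C_mul_X_pow _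
            (Polynomial.leadingCoeff_ne_zero.2 hf0), Polynomial.degree_eq_natDegree hp,
            Polynomial.degree_eq_natDegree hf0]
          norm_cast
          omega
        · exact mul_ne_zero (Polynomial.C_ne_zero.2 (Polynomial.leadingCoeff_ne_zero.2 hp)) hf0
        · rw [Polynomial.leadingCoeff_mul, Polynomial.leadingCoeff_mul, Polynomial.leadingCoeff_C,
            Polynomial.leadingCoeff_mul, Polynomial.leadingCoeff_C,
            Polynomial.leadingCoeff_X_pow, mul_one, mul_comm]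
      exact Polynomial.natDegree_lt_natDegree h0 hdeg
    exact ih f₁.natDegree (by omega) f₁ le_rfl hf₁I

/-- **zeros with a side condition** -/
theorem zfind {R : Type} [CommRing R] {Φ : R →+* (ℂ → ℂ)} (θ : R →+* ℂ) {k D : ℕ}
    {x : Fin (k + 1) → ℂ → ℂ} {κ y : Fin (k + 1) → ℂ}
    (hΦm : ∀ r, MeromorphicAt (Φ r) 0)
    (hΦ0 : ∀ r, r ≠ 0 → ∀ᶠ s in 𝓝[≠] (0 : ℂ), Φ r s ≠ 0) (hD : 1 ≤ D) (hx : ∀ i, LD D (κ i) (x i))
    (hfree : ∀ α β : Fin (k + 1) →₀ ℕ, α ≠ β →
      meromorphicOrderAt (fun s => Ex x α s - Ex x β s) 0 < 0)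
    (hκ : ∀ α β : Fin (k + 1) →₀ ℕ, tw κ α = tw κ β → α 0 = β 0)
    (hy : y 0 ≠ 0) (hinj : Function.Injective (eval₂Hom θ fun i : Fin k => y i.succ))
    (hdep : ∃ P : MvPolynomial (Fin (k + 1)) R, P ≠ 0 ∧ eval₂ θ y P = 0)
    {G : MvPolynomial (Fin (k + 1)) R} (hG : eval₂ θ y G ≠ 0) :
    ∃ᶠ s in 𝓝[≠] (0 : ℂ), (∀ f : MvPolynomial (Fin (k + 1)) R, eval₂ θ y f = 0 → ev Φ x f s = 0) ∧
      ev Φ x G s ≠ 0 := by
  classical
  set S := MvPolynomial (Fin k) R
  set θ' : S →+* ℂ := eval₂Hom θ fun i : Fin k => y i.succ with hθ'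
  have : IsDomain S := hinj.isDomain θ'
  let I : Polynomial S → Prop := fun p => p.eval₂ θ' (y 0) = 0
  -- the minimal polynomial
  obtain ⟨P₀, hP₀, hP₀y⟩ := hdep
  have hex : ∃ n : ℕ, ∃ p : Polynomial S, p ≠ 0 ∧ I p ∧ p.natDegree = n :=
    ⟨_, finSuccEquiv R k P₀, (map_ne_zero_iff _ (finSuccEquiv R k).injective).2 hP₀,
      (fin_eval θ y P₀).trans hP₀y, rfl⟩
  obtain ⟨p, hp, hpI, hpd⟩ := Nat.find_spec hex
  have hmin : ∀ f, I f → f ≠ 0 → p.natDegree ≤ f.natDegree := by
    intro f hf hf0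
    rw [hpd]
    exact Nat.find_min' hex ⟨f, hf0, hf, rfl⟩
  set P := (finSuccEquiv R k).symm p with hP
  have hPp : finSuccEquiv R k P = p := (finSuccEquiv R k).apply_symm_apply p
  set A := (finSuccEquiv R k).symm (Polynomial.C p.leadingCoeff) with hA
  have hAp : finSuccEquiv R k A = Polynomial.C p.leadingCoeff :=
    (finSuccEquiv R k).apply_symm_apply _
  have hPy : eval₂ θ y P = 0 := by
    rw [← fin_eval, hPp]
    exact hpI
  have hAy : eval₂ θ y A ≠ 0 := by
    rw [← fin_eval, hAp, Polynomial.eval₂_C]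
    intro h
    exact Polynomial.leadingCoeff_ne_zero.2 hp (hinj (by rw [map_zero]; exact h))
  have hdiv : ∀ f : MvPolynomial (Fin (k + 1)) R, eval₂ θ y f = 0 → ∃ m q, A ^ m * f = P * q := by
    intro f hf
    obtain ⟨m, q, hq⟩ := pseudo hp I (fun f g a b hf hg => by
      change (a * f - b * g).eval₂ θ' (y 0) = 0
      rw [Polynomial.eval₂_sub, Polynomial.eval₂_mul, Polynomial.eval₂_mul]
      change f.eval₂ θ' (y 0) = 0 at hf
      change g.eval₂ θ' (y 0) = 0 at hg
      rw [hf, hg, mul_zero, mul_zero, sub_zero]) hpI hmin _ (finSuccEquiv R k f) le_rfl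
      ((fin_eval θ y f).trans hf)
    refine ⟨m, (finSuccEquiv R k).symm q, (finSuccEquiv R k).injective ?_⟩
    rw [map_mul, map_pow, hAp, map_mul, hPp, AlgEquiv.apply_symm_apply]
    exact hq
  by_contra hcon
  rw [not_frequently] at hcon
  set G' := G * A with hG'
  have hG'y : eval₂ θ y G' ≠ 0 := by
    rw [hG', eval₂_mul]
    exact mul_ne_zero hG hAy
  have hzz : ∀ᶠ s in 𝓝[≠] (0 : ℂ), ev Φ x P s = 0 → ev Φ x G' s = 0 := by
    filter_upwards [hcon] with s hs hPs
    rw [hG', map_mul, Pi.mul_apply]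
    by_cases hAs : ev Φ x A s = 0
    · rw [hAs, mul_zero]
    · have h1 : ∀ f : MvPolynomial (Fin (k + 1)) R, eval₂ θ y f = 0 → ev Φ x f s = 0 := by
        intro f hf
        obtain ⟨m, q, hq⟩ := hdiv f hf
        have h2 := congrFun (congrArg (ev Φ x) hq) s
        rw [map_mul, map_pow, map_mul, Pi.mul_apply, Pi.pow_apply, Pi.mul_apply, hPs,
          zero_mul] at h2
        exact (mul_eq_zero.1 h2).resolve_left (pow_ne_zero _ hAs)
      have h2 : ev Φ x G s = 0 := by
        by_contra h3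
        exact hs ⟨h1, h3⟩
      rw [h2, zero_mul]
  -- monomials with positive weight
  have hpd0 : 0 < p.natDegree := by
    rcases Nat.eq_zero_or_pos p.natDegree with h | h
    · exfalso
      obtain ⟨a, ha⟩ := Polynomial.natDegree_eq_zero.1 h
      rw [← ha] at hpI
      change (Polynomial.C a).eval₂ θ' (y 0) = 0 at hpI
      rw [Polynomial.eval₂_C] at hpI
      have h1 : a = 0 := hinj (by rw [map_zero]; exact hpI)
      rw [h1, map_zero] at ha
      exact hp ha.symm
    · exact h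
  obtain ⟨α₀, hα₀, hα₀0⟩ : ∃ α ∈ P.support, α 0 ≠ 0 := by
    have h1 : p.coeff p.natDegree ≠ 0 := Polynomial.leadingCoeff_ne_zero.2 hp
    obtain ⟨m, hm⟩ := MvPolynomial.exists_coeff_ne_zero h1
    rw [← hPp, finSuccEquiv_coeff_coeff] at hm
    refine ⟨_, mem_support_iff.2 hm, ?_⟩
    rw [Finsupp.cons_zero, hPp]
    exact hpd0.ne'
  have htw0 : tw κ (0 : Fin (k + 1) →₀ ℕ) = 0 := by
    unfold tw
    simp
  have htwα₀ : tw κ α₀ ≠ 0 := by
    intro h
    have h1 := hκ α₀ 0 (by rw [h, htw0])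
    rw [Finsupp.zero_apply] at h1
    exact hα₀0 h1
  obtain ⟨αm, hαm, hαmax⟩ := Finset.exists_max_image P.support (fun α => ‖tw κ α‖) ⟨α₀, hα₀⟩
  have hc₀ : tw κ αm ≠ 0 := by
    rw [← norm_pos_iff]
    exact lt_of_lt_of_le (norm_pos_iff.2 htwα₀) (hαmax α₀ hα₀)
  have hne := ev_ne hΦm hΦ0 hD hx hfree hα₀ htwα₀
  have hPh : Hol (ev Φ x P) := (ev_gt hΦm hD hx P).choose_spec.2.1
  have hGh : Hol (ev Φ x G') := (ev_gt hΦm hD hx G').choose_spec.2.1
  obtain ⟨N, hN, hord⟩ := mult_bound P.support (a := fun α => Φ (P.coeff α)) (E := fun α => Ex x α)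
    (fun α => hΦm _) (fun α => (LD.ex hx α).1) hPh
    (Eventually.of_forall fun s => ev_apply Φ x P s) hne
  obtain ⟨h, hh, hfg⟩ := exists_quot hPh hGh hord hzz
  obtain ⟨m, U, hU⟩ := ritt hΦm hΦ0 hD hx hfree hαmax ⟨αm, hαm, rfl⟩ hc₀ hh hfg
  -- evaluation
  set PA := part (fun α => tw κ α = tw κ αm) P with hPA
  have hPAne : eval₂ θ y PA ≠ 0 := by
    rw [← fin_eval]
    set Q := finSuccEquiv R k PA with hQ
    have hQc : ∀ i, i ≠ αm 0 → Q.coeff i = 0 := by
      intro i hi
      ext β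
      rw [hQ, finSuccEquiv_coeff_coeff, coeff_zero, hPA, coeff_part, if_neg]
      intro h1
      apply hi
      have h2 := hκ _ _ h1
      rwa [Finsupp.cons_zero] at h2
    have hQe : Q = Polynomial.C (Q.coeff (αm 0)) * Polynomial.X ^ (αm 0) := by
      ext1 i
      rw [Polynomial.coeff_C_mul_X_pow]
      by_cases hi : i = αm 0
      · rw [if_pos hi, hi]
      · rw [if_neg hi, hQc i hi]
    have hQne : Q.coeff (αm 0) ≠ 0 := by
      intro h1
      have h2 := congrArg (MvPolynomial.coeff αm.tail) h1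
      rw [hQ, finSuccEquiv_coeff_coeff, coeff_zero, Finsupp.cons_tail, hPA, coeff_part,
        if_pos rfl] at h2
      exact (mem_support_iff.1 hαm) h2
    rw [hQe, Polynomial.eval₂_mul, Polynomial.eval₂_C, Polynomial.eval₂_pow, Polynomial.eval₂_X]
    exact mul_ne_zero (fun h1 => hQne (hinj (h1.trans (map_zero θ').symm))) (pow_ne_zero _ hy)
  have h1 := congrArg (eval₂Hom θ y) hU
  rw [map_mul, map_mul, map_pow, map_pow] at h1
  simp only [coe_eval₂Hom] at h1
  rw [hPy, zero_mul] at h1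
  exact mul_ne_zero (pow_ne_zero N hG'y) (pow_ne_zero m hPAne) h1.symm

end Pool.Agent.V9h68.Rt
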