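import Pool.Agent.V9h68.Zf
import Pool.Agent.V9h68.Gx

/-!
Zeros on curves for adapted tuples.
-/

set_option autoImplicit false

open Set Filter Topology MvPolynomial

noncomputable section

namespace Pool.Agent.V9h68.Rt

open Pool.Agent.Y776 Pool.Agent.Y685
open Pool.Agent.TH813.Rel (MK mem_cl subset_cl rk_le_of_subset_cl cl_add cl_mul cl_inv cl_of_base)

/-- change of the base ring -/
theorem indep_ring {K K' : Type} [CommRing K] [CommRing K'] [Algebra K ℂ] [Algebra K' ℂ]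
    (g : K →+* K') (hgi : Function.Injective g)
    (hg : ∀ x, algebraMap K' ℂ (g x) = algebraMap K ℂ x) {ι : Type} {x : ι → ℂ}
    (h : AlgebraicIndependent K' x) : AlgebraicIndependent K x := by
  rw [algebraicIndependent_iff] at h ⊢
  intro p hp
  have h1 : MvPolynomial.map g p = 0 := by
    apply h
    rw [aeval_def, eval₂_map]
    have h2 : (algebraMap K' ℂ).comp g = algebraMap K ℂ := RingHom.ext hg
    rw [h2]
    exact hp
  exact (MvPolynomial.map_injective g hgi) (by rw [h1, map_zero])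

/-- iterated evaluation -/
theorem iter_eval {R₀ : Type} [CommRing R₀] (θ₀ : R₀ →+* ℂ) {S₁ S₂ : Type} (y₁ : S₁ → ℂ)
    (y₂ : S₂ → ℂ) (P : MvPolynomial (S₁ ⊕ S₂) R₀) :
    eval₂ (eval₂Hom θ₀ y₂) y₁ (sumAlgEquiv R₀ S₁ S₂ P) = eval₂ θ₀ (Sum.elim y₁ y₂) P := by
  have h : (eval₂Hom (eval₂Hom θ₀ y₂) y₁).comp
      (sumAlgEquiv R₀ S₁ S₂ : MvPolynomial (S₁ ⊕ S₂) R₀ →+* _) = eval₂Hom θ₀ (Sum.elim y₁ y₂) := by
    refine MvPolynomial.ringHom_ext (fun r => ?_) (fun i => ?_)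
    · rw [RingHom.comp_apply, RingHom.coe_coe, sumAlgEquiv_C_inl, eval₂Hom_C, eval₂Hom_C,
        eval₂Hom_C]
    · rw [RingHom.comp_apply, RingHom.coe_coe, eval₂Hom_X']
      rcases i with i | i
      · rw [sumAlgEquiv_X_inl, eval₂Hom_X']
        rfl
      · rw [sumAlgEquiv_X_inr, eval₂Hom_C, eval₂Hom_X']
        rfl
  exact RingHom.congr_fun h P

/-- functions which represent the elements of a finitely generated ring -/
theorem exists_Phi {A : Subfield ℂ} (σ : A →+* ℂ) {τ : Type} [Finite τ] (c : τ → ℂ)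
    (xf : τ → ℂ → ℂ) (h : ∀ P : MvPolynomial τ A, aeval c P = 0 →
      ∀ᶠ s in 𝓝[≠] (0 : ℂ), eval₂ σ (fun i => xf i s) P = 0) :
    ∃ Φ₀ : Algebra.adjoin A (range c) →+* (ℂ → ℂ), ∀ᶠ s in 𝓝[≠] (0 : ℂ),
      ∀ (P : MvPolynomial τ A) (w : Algebra.adjoin A (range c)), (w : ℂ) = aeval c P →
        Φ₀ w s = eval₂ σ (fun i => xf i s) P := by
  classical
  let I : Ideal (MvPolynomial τ A) := RingHom.ker (aeval c : MvPolynomial τ A →ₐ[A] ℂ)
  obtain ⟨S, hS⟩ : I.FG := IsNoetherian.noetherian I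
  let U : Set ℂ := {s | ∀ P ∈ S, eval₂ σ (fun i => xf i s) P = 0}
  have hU : ∀ᶠ s in 𝓝[≠] (0 : ℂ), s ∈ U := by
    change ∀ᶠ s in 𝓝[≠] (0 : ℂ), ∀ P ∈ S, eval₂ σ (fun i => xf i s) P = 0
    rw [Finset.eventually_all]
    intro P hP
    refine h P ?_
    have : P ∈ I := by
      rw [← hS]
      exact Ideal.subset_span hP
    exact this
  obtain ⟨s₀, hs₀⟩ := hU.exists
  have hUI : ∀ s ∈ U, ∀ P ∈ I, eval₂ σ (fun i => xf i s) P = 0 := by
    intro s hs P hP
    have h1 : I ≤ RingHom.ker (eval₂Hom σ (fun i => xf i s)) := by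
      rw [← hS, Ideal.span_le]
      intro Q hQ
      exact hs Q hQ
    exact h1 hP
  let g : ℂ → ℂ := fun s => if s ∈ U then s else s₀
  have hg : ∀ s, g s ∈ U := by
    intro s
    by_cases hs : s ∈ U
    · have : g s = s := if_pos hs
      rw [this]; exact hs
    · have : g s = s₀ := if_neg hs
      rw [this]; exact hs₀
  let Ev : MvPolynomial τ A →+* (ℂ → ℂ) := RingHom.pi fun s => eval₂Hom σ (fun i => xf i (g s))
  let f : MvPolynomial τ A →ₐ[A] Algebra.adjoin A (range c) :=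
    aeval fun i => (⟨c i, Algebra.subset_adjoin ⟨i, rfl⟩⟩ : Algebra.adjoin A (range c))
  have hfv : ∀ P, ((f P : Algebra.adjoin A (range c)) : ℂ) = aeval c P := by
    intro P
    have h1 := MvPolynomial.comp_aeval (R := A)
      (fun i => (⟨c i, Algebra.subset_adjoin ⟨i, rfl⟩⟩ : Algebra.adjoin A (range c)))
      (Algebra.adjoin A (range c)).val
    exact DFunLike.congr_fun h1 P
  have hf : Function.Surjective (f : MvPolynomial τ A →+* Algebra.adjoin A (range c)) := by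
    intro w
    have h1 : (w : ℂ) ∈ (aeval c : MvPolynomial τ A →ₐ[A] ℂ).range := by
      rw [← Algebra.adjoin_range_eq_range_aeval]
      exact w.2
    obtain ⟨P, hP⟩ := h1
    exact ⟨P, Subtype.ext ((hfv P).trans hP)⟩
  have hker : RingHom.ker (f : MvPolynomial τ A →+* Algebra.adjoin A (range c)) ≤
      RingHom.ker Ev := by
    intro P hP
    have h1 : f P = 0 := hP
    have h2 : P ∈ I := by
      change aeval c P = 0
      rw [← hfv, h1]
      rfl
    rw [RingHom.mem_ker]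
    funext s
    exact hUI (g s) (hg s) P h2
  refine ⟨RingHom.liftOfSurjective _ hf ⟨Ev, hker⟩, ?_⟩
  filter_upwards [hU] with s hs P w hw
  have h1 : w = f P := Subtype.ext (hw.trans (hfv P).symm)
  rw [h1]
  have h2 := RingHom.liftOfRightInverse_comp_apply _ _ (Function.rightInverse_surjInv hf)
    ⟨Ev, hker⟩ P
  have h3 : g s = s := if_pos hs
  have h4 : Ev P s = eval₂ σ (fun i => xf i s) P := by
    change eval₂ σ (fun i => xf i (g s)) P = _
    rw [h3]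
  rw [← h4]
  exact congrFun h2 s

/-- a place of a field of transcendence degree one over `A` -/
structure Plc (A : Subfield ℂ) (σ : A →+* ℂ) (z : ℂ) (ι : MG →+* ℂ) (D : Derivation ℚ ℂ ℂ)
    (ρ : ℂ ≃+* ℂ) : Prop where
  hD : ∀ g, D (ι g) = ι (dM g)
  hρ : ∀ a : A, ρ a = ι (cst (σ a))
  hz : D (ρ z) ≠ 0

section

variable {A : Subfield ℂ} {σ : A →+* ℂ} {z : ℂ} {ι : MG →+* ℂ} {D' : Derivation ℚ ℂ ℂ}
  {ρ : ℂ ≃+* ℂ}

theorem Plc.ev (h : Plc A σ z ι D' ρ) {τ : Type} {c : τ → ℂ} {xf : τ → ℂ → ℂ}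
    (hxf : ∀ i, MeromorphicAt (xf i) 0) (hX : ∀ i, ρ (c i) = ι (Rt.mk (xf i) (hxf i)))
    (P : MvPolynomial τ A) : ρ (aeval c P) =
      ι (ti (MvPolynomial.eval₂ (cstF.comp σ) (fun i => (⟨xf i, hxf i⟩ : FS)) P)) := by
  have h1 := (ev_mv σ (fun i => (⟨xf i, hxf i⟩ : FS)) P).1
  rw [← h1]
  have h2 := MvPolynomial.eval₂_comp_left (ρ : ℂ →+* ℂ) (algebraMap A ℂ) c P
  have h3 := MvPolynomial.eval₂_comp_left ι (cst.comp σ) (fun i => ti (⟨xf i, hxf i⟩ : FS)) P
  rw [h3]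
  refine h2.trans ?_
  have e1 : (ρ : ℂ →+* ℂ).comp (algebraMap A ℂ) = ι.comp (cst.comp σ) :=
    RingHom.ext fun a => h.hρ a
  have e2 : (ρ : ℂ →+* ℂ) ∘ c = ι ∘ fun i => ti (⟨xf i, hxf i⟩ : FS) := funext hX
  rw [e1, e2]

theorem Plc.rel (h : Plc A σ z ι D' ρ) {τ : Type} {c : τ → ℂ} {xf : τ → ℂ → ℂ}
    (hxf : ∀ i, MeromorphicAt (xf i) 0) (hX : ∀ i, ρ (c i) = ι (Rt.mk (xf i) (hxf i)))
    (P : MvPolynomial τ A) : aeval c P = 0 ↔
      ∀ᶠ s in 𝓝[≠] (0 : ℂ), eval₂ σ (fun i => xf i s) P = 0 := by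
  rw [← map_eq_zero_iff ρ ρ.injective, h.ev hxf hX, map_eq_zero, ti_zero]
  refine eventually_congr (Eventually.of_forall fun s => ?_)
  rw [(ev_mv σ (fun i => (⟨xf i, hxf i⟩ : FS)) P).2 s]

/-- adapted tuples -/
structure Adp {k r : ℕ} (xf : Fin (k + 1) ⊕ Fin r → ℂ → ℂ) (κ : Fin (k + 1) → ℂ) (D : ℕ) :
    Prop where
  D1 : 1 ≤ D
  ld : ∀ i, LD D (κ i) (xf (Sum.inl i))
  kap : ∀ α β : Fin (k + 1) →₀ ℕ, tw κ α = tw κ β → α 0 = β 0
  free : ∀ α β : Fin (k + 1) →₀ ℕ, α ≠ β → meromorphicOrderAt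
    (fun s => Ex (fun i => xf (Sum.inl i)) α s - Ex (fun i => xf (Sum.inl i)) β s) 0 < 0
  mer : ∀ j, MeromorphicAt (xf (Sum.inr j)) 0
  reg : ∀ j, 0 ≤ meromorphicOrderAt (xf (Sum.inr j)) 0

theorem exp_reg {x : ℂ → ℂ} (hx : MeromorphicAt x 0) (h : 0 ≤ meromorphicOrderAt x 0) :
    MeromorphicAt (fun s => Complex.exp (x s)) 0 := by
  obtain ⟨g, hg, hg'⟩ := hx.meromorphicOrderAt_nonneg_iff.1 h
  refine (hg.cexp.meromorphicAt).congr ?_
  filter_upwards [hg'] with s hs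
  rw [hs]
  rfl

/-- the rank condition -/
theorem not_indep {τ : Type} [Fintype τ] {c y : τ → ℂ} {i₀ : τ} (hc : c i₀ ∉ A)
    (hA : ∀ x, IsAlgebraic A x → x ∈ A)
    (hrk : (MK A).eRk (range c ∪ range y) ≤ (Fintype.card τ : ℕ)) :
    ¬ AlgebraicIndependent (Algebra.adjoin A (range c)) y := by
  intro hy
  have h1 : Algebra.adjoin A (range fun _ : Unit => c i₀) ≤ Algebra.adjoin A (range c) := by
    refine Algebra.adjoin_mono ?_
    rintro _ ⟨_, rfl⟩
    exact ⟨i₀, rfl⟩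
  have h2 : AlgebraicIndependent (Algebra.adjoin A (range fun _ : Unit => c i₀)) y :=
    indep_ring (Subalgebra.inclusion h1 : _ →+* _) (Subalgebra.inclusion_injective h1)
      (fun x => rfl) hy
  have h3 : AlgebraicIndependent A (fun _ : Unit => c i₀) := by
    rw [algebraicIndependent_unique_type_iff]
    exact fun h => hc (hA _ h)
  have h4 := h3.sumElim h2
  have h5 : (MK A).Indep (range (Sum.elim y fun _ : Unit => c i₀)) := by
    rw [AlgebraicIndependent.matroid_indep_iff]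
    exact h4.coe_range
  have h6 : range (Sum.elim y fun _ : Unit => c i₀) ⊆ range c ∪ range y := by
    rintro _ ⟨i | i, rfl⟩
    · exact Or.inr ⟨i, rfl⟩
    · exact Or.inl ⟨i₀, rfl⟩
  have h7 := (MK A).eRk_mono h6
  rw [h5.eRk_eq_encard] at h7
  have h8 : (range (Sum.elim y fun _ : Unit => c i₀)).encard = (Fintype.card τ + 1 : ℕ) := by
    rw [← Set.image_univ, h4.injective.encard_image, Set.encard_univ,
      ENat.card_eq_coe_fintype_card]
    simp
  rw [h8] at h7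
  have h9 := h7.trans hrk
  norm_cast at h9
  omega

/-- zeros for adapted tuples: the ring of coefficients -/
theorem zz0 (h : Plc A σ z ι D' ρ) (hA : ∀ x, IsAlgebraic A x → x ∈ A) {k r D : ℕ}
    {c : Fin (k + 1) ⊕ Fin r → ℂ} {xf : Fin (k + 1) ⊕ Fin r → ℂ → ℂ} {κ : Fin (k + 1) → ℂ}
    (hxf : ∀ i, MeromorphicAt (xf i) 0) (hX : ∀ i, ρ (c i) = ι (Rt.mk (xf i) (hxf i)))
    (had : Adp xf κ D) (hcz : ∀ i, c i ∈ (MK A).closure {z})
    (hu : ∀ q : Fin r → ℚ, ∑ j, q j • c (Sum.inr j) ∈ A → q = 0)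
    {R₀ : Type} [CommRing R₀] [Algebra R₀ ℂ] (hi : Function.Injective (algebraMap R₀ ℂ))
    {Φ₀ : R₀ →+* (ℂ → ℂ)} (cw : Fin (k + 1) ⊕ Fin r → R₀) (gA : A →+* R₀)
    (hcw : ∀ i, algebraMap R₀ ℂ (cw i) = c i) (hgA : ∀ a, algebraMap R₀ ℂ (gA a) = a)
    (hΦ₀ : ∀ w : R₀, ∃ P : MvPolynomial (Fin (k + 1) ⊕ Fin r) A, algebraMap R₀ ℂ w = aeval c P ∧
      ∀ᶠ s in 𝓝[≠] (0 : ℂ), Φ₀ w s = eval₂ σ (fun i => xf i s) P)
    (hΦA : ∀ᶠ s in 𝓝[≠] (0 : ℂ), (∀ a, Φ₀ (gA a) s = σ a) ∧ ∀ i, Φ₀ (cw i) s = xf i s)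
    (hind : AlgebraicIndependent R₀ (fun j : Fin k ⊕ Fin r =>
      Complex.exp (c (Sum.map Fin.succ id j))))
    (hdep : ¬ AlgebraicIndependent R₀ (fun i => Complex.exp (c i)))
    {H : MvPolynomial ((Fin (k + 1) ⊕ Fin r) ⊕ (Fin (k + 1) ⊕ Fin r)) A}
    (hH : aeval (Sum.elim c fun i => Complex.exp (c i)) H ≠ 0) :
    ∃ x' : Fin (k + 1) ⊕ Fin r → ℂ,
      (∀ f : MvPolynomial ((Fin (k + 1) ⊕ Fin r) ⊕ (Fin (k + 1) ⊕ Fin r)) A,
        aeval (Sum.elim c fun i => Complex.exp (c i)) f = 0 →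
          eval₂ σ (Sum.elim x' fun i => Complex.exp (x' i)) f = 0) ∧
      eval₂ σ (Sum.elim x' fun i => Complex.exp (x' i)) H ≠ 0 := by
  classical
  let yu : Fin r → ℂ := fun j => Complex.exp (c (Sum.inr j))
  let yv : Fin (k + 1) → ℂ := fun j => Complex.exp (c (Sum.inl j))
  let θ : MvPolynomial (Fin r) R₀ →+* ℂ := eval₂Hom (algebraMap R₀ ℂ) yu
  let Φ : MvPolynomial (Fin r) R₀ →+* (ℂ → ℂ) :=
    eval₂Hom Φ₀ fun j s => Complex.exp (xf (Sum.inr j) s)
  have hΦC : ∀ w, Φ (C w) = Φ₀ w := fun w => eval₂_C _ _ _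
  have hΦX : ∀ j, Φ (X j) = fun s => Complex.exp (xf (Sum.inr j) s) := fun j => eval₂_X _ _ _
  -- representatives
  have hΦ₀f : ∀ w : R₀, ∃ P : MvPolynomial (Fin (k + 1) ⊕ Fin r) A,
      algebraMap R₀ ℂ w = aeval c P ∧ ∀ᶠ s in 𝓝[≠] (0 : ℂ), ((MvPolynomial.eval₂ (cstF.comp σ)
        (fun i => (⟨xf i, hxf i⟩ : FS)) P : FS) : ℂ → ℂ) s = Φ₀ w s := by
    intro w
    obtain ⟨P, hP, hP'⟩ := hΦ₀ w
    refine ⟨P, hP, ?_⟩
    filter_upwards [hP'] with s hs
    rw [hs]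
    exact (ev_mv σ (fun i => (⟨xf i, hxf i⟩ : FS)) P).2 s
  have hΦ₀m : ∀ w, MeromorphicAt (Φ₀ w) 0 := by
    intro w
    obtain ⟨P, -, hP⟩ := hΦ₀f w
    have h1 : MeromorphicAt ((MvPolynomial.eval₂ (cstF.comp σ)
        (fun i => (⟨xf i, hxf i⟩ : FS)) P : FS) : ℂ → ℂ) 0 :=
      (MvPolynomial.eval₂ (cstF.comp σ) (fun i => (⟨xf i, hxf i⟩ : FS)) P : FS).2
    exact h1.congr hP
  have hexpm : ∀ j, MeromorphicAt (fun s => Complex.exp (xf (Sum.inr j) s)) 0 := fun j =>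
    exp_reg (hxf _) (had.reg j)
  have hΦFS : ∀ p, Φ p ∈ FS := by
    intro p
    change eval₂ Φ₀ (fun j s => Complex.exp (xf (Sum.inr j) s)) p ∈ FS
    rw [eval₂_eq]
    refine sum_mem fun e _ => mul_mem (hΦ₀m _) (prod_mem fun j _ => pow_mem (hexpm j) _)
  have hΦm : ∀ p, MeromorphicAt (Φ p) 0 := hΦFS
  let Φh : MvPolynomial (Fin r) R₀ →+* MG := ti.comp (Φ.codRestrict FS hΦFS)
  have hΦhC : ∀ w : R₀, ι (Φh (C w)) = ρ (algebraMap R₀ ℂ w) := by
    intro w
    obtain ⟨P, hP, hP'⟩ := hΦ₀f w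
    rw [hP, h.ev hxf hX]
    congr 1
    refine ti_eq.2 ?_
    filter_upwards [hP'] with s hs
    rw [hs]
    change Φ (C w) s = Φ₀ w s
    rw [hΦC]
  let ej : Fin r → MG := fun j => Rt.mk (fun s => Complex.exp (xf (Sum.inr j) s)) (hexpm j)
  have hΦhX : ∀ j, Φh (X j) = ej j := by
    intro j
    refine ti_eq.2 (Eventually.of_forall fun s => ?_)
    change Φ (X j) s = _
    rw [hΦX]
  have hρcl : ∀ w ∈ (MK A).closure {z}, ρ w ∈ (MK (Cst D').toSubfield).closure {ρ z} := by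
    intro w hw
    refine cl_hom' (k := A) (k' := (Cst D').toSubfield) (ρ : ℂ →+* ℂ) (fun a => ?_) ?_ hw
    · have h4 : ρ (a : ℂ) ∈ (Cst D').toSubfield := by
        rw [h.hρ]
        exact cst_const h.hD _
      exact cl_of_base (k := (Cst D').toSubfield) _ (⟨ρ a, h4⟩ : (Cst D').toSubfield)
    · rintro w rfl
      exact subset_cl _ rfl
  have hΦhi : ∀ p : MvPolynomial (Fin r) R₀, p ≠ 0 → Φh p ≠ 0 := by
    intro p hp h0
    let g : R₀ →+* ℂ := ι.comp (Φh.comp C)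
    have hg : ∀ w, g w = ρ (algebraMap R₀ ℂ w) := hΦhC
    have hgi : Function.Injective g := by
      intro a b hab
      rw [hg, hg] at hab
      exact hi (ρ.injective hab)
    have h1 := germ_ax (D := D') (ι := ι) h.hD (u := fun j => Rt.mk (xf (Sum.inr j)) (hxf _))
      (e := ej) (y := ρ z) (d := MvPolynomial.map g p) ?_ ?_ ?_ ?_ ?_ ?_
    · apply h1
      rw [eval_map]
      have h2 := MvPolynomial.eval₂_comp_left ι (Φh.comp C) ej p
      have h3 : eval₂ (Φh.comp C) ej p = Φh p := by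
        have h4 : eval₂Hom (Φh.comp C) ej = Φh := by
          refine MvPolynomial.ringHom_ext (fun r => ?_) (fun i => ?_)
          · rw [eval₂Hom_C]
            rfl
          · rw [eval₂Hom_X', hΦhX]
        exact RingHom.congr_fun h4 p
      rw [h3, h0, map_zero] at h2
      exact h2.symm
    · intro j h2
      obtain ⟨s, hs⟩ := (mk_zero.1 h2).exists
      exact Complex.exp_ne_zero _ hs
    · intro j
      change dM (Rt.mk _ _) = Rt.mk _ _ * dM (Rt.mk _ _)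
      rw [dM_mk, dM_mk, mk_mul, mk_eq]
      filter_upwards [(hxf (Sum.inr j)).hol] with s hs
      exact (hs.differentiableAt.hasDerivAt.cexp).deriv
    · intro q hq
      apply hu
      refine place_const hA h.hD h.hρ h.hz (y := ∑ j, q j • c (Sum.inr j)) ?_ ?_
      · exact sum_mem (S := clF A {z}) fun j _ => cl_rat _ (hcz _)
      · rw [map_sum]
        rw [← hq]
        congr 1
        refine Finset.sum_congr rfl fun j _ => ?_
        have := map_rat_smul ρ (q j) (c (Sum.inr j))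
        rw [this, hX]
    · intro j
      rw [← hX]
      exact hρcl _ (hcz _)
    · intro h2
      apply hp
      exact MvPolynomial.map_injective g hgi (by rw [h2, map_zero])
    · intro m
      rw [coeff_map, hg]
      refine hρcl _ ?_
      obtain ⟨P, hP, -⟩ := hΦ₀ (p.coeff m)
      rw [hP, aeval_def, eval₂_eq]
      exact sum_mem (S := clF A {z}) fun e _ => mul_mem (cl_of_base _ _)
        (prod_mem fun i _ => pow_mem (hcz i) _)
  have hΦ0 : ∀ p : MvPolynomial (Fin r) R₀, p ≠ 0 → ∀ᶠ s in 𝓝[≠] (0 : ℂ), Φ p s ≠ 0 :=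
    fun p hp => ti_ne (f := ⟨Φ p, hΦFS p⟩) (hΦhi p hp)
  have hinj : Function.Injective (eval₂Hom θ fun i : Fin k => yv i.succ) := by
    rw [injective_iff_map_eq_zero]
    intro p hp
    obtain ⟨q, rfl⟩ := (sumAlgEquiv R₀ (Fin k) (Fin r)).surjective p
    have h1 : eval₂ (algebraMap R₀ ℂ) (Sum.elim (fun i : Fin k => yv i.succ) yu) q = 0 := by
      rw [← iter_eval]
      exact hp
    rw [algebraicIndependent_iff] at hind
    have h2 : q = 0 := by
      apply hind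
      have e1 : (fun j : Fin k ⊕ Fin r => Complex.exp (c (Sum.map Fin.succ id j))) =
          Sum.elim (fun i : Fin k => yv i.succ) yu := by
        funext j
        rcases j with j | j <;> rfl
      rw [e1]
      exact h1
    rw [h2, map_zero]
  have hdep' : ∃ P : MvPolynomial (Fin (k + 1)) (MvPolynomial (Fin r) R₀),
      P ≠ 0 ∧ eval₂ θ yv P = 0 := by
    rw [algebraicIndependent_iff] at hdep
    push Not at hdep
    obtain ⟨q, hq, hq0⟩ := hdep
    refine ⟨sumAlgEquiv R₀ (Fin (k + 1)) (Fin r) q,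
      (map_ne_zero_iff _ (sumAlgEquiv R₀ (Fin (k + 1)) (Fin r)).injective).2 hq0, ?_⟩
    rw [iter_eval, ← hq]
    have e1 : (fun j : Fin (k + 1) ⊕ Fin r => Complex.exp (c j)) = Sum.elim yv yu := by
      funext j
      rcases j with j | j <;> rfl
    rw [e1]
    rfl
  -- the translation
  let Tr : MvPolynomial ((Fin (k + 1) ⊕ Fin r) ⊕ (Fin (k + 1) ⊕ Fin r)) A →+*
      MvPolynomial (Fin (k + 1)) (MvPolynomial (Fin r) R₀) :=
    eval₂Hom ((C : MvPolynomial (Fin r) R₀ →+* MvPolynomial (Fin (k + 1)) (MvPolynomial (Fin r) R₀)).comp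
      ((C : R₀ →+* MvPolynomial (Fin r) R₀).comp gA))
      (Sum.elim (fun i => C (C (cw i))) (Sum.elim (fun i => X i) (fun j => C (X j))))
  have hθC : ∀ w, θ (C w) = algebraMap R₀ ℂ w := fun w => eval₂_C _ _ _
  have hθX : ∀ j, θ (X j) = yu j := fun j => eval₂_X _ _ _
  have hTr : ∀ f, eval₂ θ yv (Tr f) = aeval (Sum.elim c fun i => Complex.exp (c i)) f := by
    intro f
    have h1 : (eval₂Hom θ yv).comp Tr = ((aeval (Sum.elim c fun i => Complex.exp (c i)) :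
        MvPolynomial _ A →ₐ[A] ℂ) : _ →+* ℂ) := by
      refine MvPolynomial.ringHom_ext (fun a => ?_) (fun i => ?_)
      · simp only [Tr, RingHom.comp_apply, eval₂Hom_C]
        rw [RingHom.coe_coe, aeval_C, hθC, hgA]
        rfl
      · simp only [Tr, RingHom.comp_apply, eval₂Hom_X']
        rw [RingHom.coe_coe, aeval_X]
        rcases i with i | i
        · simp only [Sum.elim_inl, eval₂Hom_C]
          rw [hθC, hcw]
        · rcases i with i | i
          · simp only [Sum.elim_inr, Sum.elim_inl, eval₂Hom_X']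
            rfl
          · simp only [Sum.elim_inr, eval₂Hom_C]
            rw [hθX]
    exact RingHom.congr_fun h1 f
  have hTrs : ∀ᶠ s in 𝓝[≠] (0 : ℂ), ∀ f, ev Φ (fun i => xf (Sum.inl i)) (Tr f) s =
      eval₂ σ (Sum.elim (fun i => xf i s) fun i => Complex.exp (xf i s)) f := by
    filter_upwards [hΦA] with s hs f
    have h1 : ((Pi.evalRingHom (fun _ : ℂ => ℂ) s).comp
        (ev Φ (fun i => xf (Sum.inl i)))).comp Tr =
        eval₂Hom σ (Sum.elim (fun i => xf i s) fun i => Complex.exp (xf i s)) := by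
      refine MvPolynomial.ringHom_ext (fun a => ?_) (fun i => ?_)
      · simp only [Tr, RingHom.comp_apply, eval₂Hom_C]
        simp only [ev, eval₂Hom_C]
        rw [hΦC]
        exact hs.1 a
      · simp only [Tr, RingHom.comp_apply, eval₂Hom_X']
        rcases i with i | i
        · simp only [Sum.elim_inl, eval₂Hom_C, ev]
          rw [hΦC]
          exact hs.2 i
        · rcases i with i | i
          · simp only [Sum.elim_inr, Sum.elim_inl, eval₂Hom_X', ev]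
            rfl
          · simp only [Sum.elim_inr, eval₂Hom_C, ev]
            rw [hΦX]
            rfl
    exact RingHom.congr_fun h1 f
  have hfr := zfind (x := fun i => xf (Sum.inl i)) (y := yv) θ hΦm hΦ0 had.D1 had.ld had.free
    had.kap (Complex.exp_ne_zero _) hinj hdep' (G := Tr H) (by rw [hTr]; exact hH)
  obtain ⟨s, ⟨hs1, hs2⟩, hs3⟩ := (hfr.and_eventually hTrs).exists
  refine ⟨fun i => xf i s, fun f hf => ?_, ?_⟩
  · rw [← hs3]
    exact hs1 _ (by rw [hTr]; exact hf)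
  · rw [← hs3]
    exact hs2

/-- **zeros for adapted tuples** -/
theorem zz (h : Plc A σ z ι D' ρ) (hA : ∀ x, IsAlgebraic A x → x ∈ A) {k r D : ℕ}
    {c : Fin (k + 1) ⊕ Fin r → ℂ} {xf : Fin (k + 1) ⊕ Fin r → ℂ → ℂ} {κ : Fin (k + 1) → ℂ}
    (hxf : ∀ i, MeromorphicAt (xf i) 0) (hX : ∀ i, ρ (c i) = ι (Rt.mk (xf i) (hxf i)))
    (had : Adp xf κ D) (hcz : ∀ i, c i ∈ (MK A).closure {z})
    (hc0 : c (Sum.inl 0) ∉ A) (hu : ∀ q : Fin r → ℚ, ∑ j, q j • c (Sum.inr j) ∈ A → q = 0)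
    (hind : AlgebraicIndependent (clF A {z}) (fun j : Fin k ⊕ Fin r =>
      Complex.exp (c (Sum.map Fin.succ id j))))
    (hrk : (MK A).eRk (range c ∪ range fun i => Complex.exp (c i)) ≤ (k + 1 + r : ℕ))
    {H : MvPolynomial ((Fin (k + 1) ⊕ Fin r) ⊕ (Fin (k + 1) ⊕ Fin r)) A}
    (hH : aeval (Sum.elim c fun i => Complex.exp (c i)) H ≠ 0) :
    ∃ x' : Fin (k + 1) ⊕ Fin r → ℂ,
      (∀ f : MvPolynomial ((Fin (k + 1) ⊕ Fin r) ⊕ (Fin (k + 1) ⊕ Fin r)) A,
        aeval (Sum.elim c fun i => Complex.exp (c i)) f = 0 →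
          eval₂ σ (Sum.elim x' fun i => Complex.exp (x' i)) f = 0) ∧
      eval₂ σ (Sum.elim x' fun i => Complex.exp (x' i)) H ≠ 0 := by
  obtain ⟨Φ₀, hΦ₀⟩ := exists_Phi σ c xf fun P hP => (h.rel hxf hX P).1 hP
  have hrep : ∀ w : Algebra.adjoin A (range c),
      ∃ P : MvPolynomial (Fin (k + 1) ⊕ Fin r) A, (w : ℂ) = aeval c P := by
    intro w
    have h1 : (w : ℂ) ∈ (aeval c : MvPolynomial (Fin (k + 1) ⊕ Fin r) A →ₐ[A] ℂ).range := by
      rw [← Algebra.adjoin_range_eq_range_aeval]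
      exact w.2
    obtain ⟨P, hP⟩ := h1
    exact ⟨P, hP.symm⟩
  have hR₀F : ∀ w : Algebra.adjoin A (range c), (w : ℂ) ∈ clF A {z} := by
    intro w
    obtain ⟨P, hP⟩ := hrep w
    rw [hP, aeval_def, eval₂_eq]
    exact sum_mem (S := clF A {z}) fun e _ => mul_mem (cl_of_base _ _)
        (prod_mem fun i _ => pow_mem (hcz i) _)
  let gF : Algebra.adjoin A (range c) →+* clF A {z} :=
    { toFun := fun w => ⟨w, hR₀F w⟩
      map_one' := rfl
      map_mul' := fun _ _ => rfl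
      map_zero' := rfl
      map_add' := fun _ _ => rfl }
  have hind₀ : AlgebraicIndependent (Algebra.adjoin A (range c)) (fun j : Fin k ⊕ Fin r =>
      Complex.exp (c (Sum.map Fin.succ id j))) := indep_ring gF (fun a b hab => Subtype.ext
    (congrArg (fun w : clF A {z} => (w : ℂ)) hab)) (fun x => rfl) hind
  refine zz0 (R₀ := Algebra.adjoin A (range c)) h hA hxf hX had hcz hu Subtype.val_injective
    (Φ₀ := Φ₀) (fun i => ⟨c i, Algebra.subset_adjoin ⟨i, rfl⟩⟩)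
    (algebraMap A (Algebra.adjoin A (range c))) (fun i => rfl) (fun a => rfl) ?_ ?_ hind₀ ?_ hH
  · intro w
    obtain ⟨P, hP⟩ := hrep w
    refine ⟨P, hP, ?_⟩
    filter_upwards [hΦ₀] with s hs using hs P w hP
  · filter_upwards [hΦ₀] with s hs
    refine ⟨fun a => ?_, fun i => ?_⟩
    · rw [hs (C a) _ (by rw [aeval_C]; rfl), eval₂_C]
    · rw [hs (X i) _ (by rw [aeval_X]), eval₂_X]
  · refine not_indep (i₀ := Sum.inl 0) hc0 hA ?_
    have : Fintype.card (Fin (k + 1) ⊕ Fin r) = k + 1 + r := by simp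
    rw [this]
    exact hrk

end

end Pool.Agent.V9h68.Rt
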